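import Pool.Agent.P28.RDefs

set_option autoImplicit false

/-!
# P28 E05: 27 planes of the Fermat cubic through a point

PROOF. `F = ∑ X i ^ 3`, `pderiv i F = 3 X i ^ 2`, so `F` is smooth. Let `w` be a primitive third
root of unity. For `a, b : Fin 3` and one of the three pairings `(i j | k l)` of `{2, 3, 4, 5}`
(`(2 3 | 4 5)`, `(2 4 | 3 5)`, `(2 5 | 3 4)`) let
`P = {v : v 0 + v 1 = 0, v i + w^a v j = 0, v k + w^b v l = 0}`. On `P`:
`v 0 ^3 + v 1 ^3 = 0`, `v i ^3 = - v j ^3`, `v k ^3 = - v l ^3`, so `F = 0`; `P` has dimension 3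
(kernel of three independent functionals, or an explicit basis
`(1,-1,0,0,0,0)`, `e_j - w^a e_i`, `e_l - w^b e_k`). All contain `(1,-1,0,0,0,0)`, so they meet
pairwise. The 27 planes are distinct: `e_j - w^a e_i ∈ P` determines the pairing and `a` (a vector
with exactly two nonzero coordinates among the last four in `P` must be supported on `{i, j}` or on
`{k, l}`), `e_l - w^b e_k ∈ P` determines `b`. So the map from `Fin 3 × Fin 3 × Fin 3` to the
submodules is injective and its image `S` has 27 elements.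
-/

namespace Pool.Agent.P28

open Module MvPolynomial

private def Jx (p : Fin 3) : Fin 6 := ![3, 4, 5] p

private def Kx (p : Fin 3) : Fin 6 := ![4, 3, 3] p

private def Lx (p : Fin 3) : Fin 6 := ![5, 5, 4] p

private def Pl (w : ℂ) (t : Fin 3 × Fin 3 × Fin 3) : Submodule ℂ (Fin 6 → ℂ) where
  carrier := {v | v 0 + v 1 = 0 ∧ v 2 + w ^ (t.2.1 : ℕ) * v (Jx t.1) = 0 ∧
    v (Kx t.1) + w ^ (t.2.2 : ℕ) * v (Lx t.1) = 0}
  add_mem' := by
    rintro a b ⟨h1, h2, h3⟩ ⟨k1, k2, k3⟩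
    refine ⟨?_, ?_, ?_⟩
    · simp only [Pi.add_apply]
      linear_combination h1 + k1
    · simp only [Pi.add_apply]
      linear_combination h2 + k2
    · simp only [Pi.add_apply]
      linear_combination h3 + k3
  zero_mem' := by simp
  smul_mem' := by
    rintro c a ⟨h1, h2, h3⟩
    refine ⟨?_, ?_, ?_⟩
    · simp only [Pi.smul_apply, smul_eq_mul]
      linear_combination c * h1
    · simp only [Pi.smul_apply, smul_eq_mul]
      linear_combination c * h2
    · simp only [Pi.smul_apply, smul_eq_mul]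
      linear_combination c * h3

private theorem mem_Pl {w : ℂ} {t : Fin 3 × Fin 3 × Fin 3} {v : Fin 6 → ℂ} : v ∈ Pl w t ↔
    v 0 + v 1 = 0 ∧ v 2 + w ^ (t.2.1 : ℕ) * v (Jx t.1) = 0 ∧
      v (Kx t.1) + w ^ (t.2.2 : ℕ) * v (Lx t.1) = 0 := Iff.rfl

/-- The three coordinates. -/
private def toC (w : ℂ) (t : Fin 3 × Fin 3 × Fin 3) : Pl w t →ₗ[ℂ] (Fin 3 → ℂ) where
  toFun v := ![(v : Fin 6 → ℂ) 0, (v : Fin 6 → ℂ) (Jx t.1), (v : Fin 6 → ℂ) (Lx t.1)]
  map_add' u v := by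
    ext i
    fin_cases i <;> simp
  map_smul' c v := by
    ext i
    fin_cases i <;> simp

private theorem all_coord (p : Fin 3) (P : Fin 6 → Prop) (h0 : P 0) (h1 : P 1) (h2 : P 2)
    (hJ : P (Jx p)) (hK : P (Kx p)) (hL : P (Lx p)) : ∀ m, P m := by
  intro m
  fin_cases p
  · have hJ' : P 3 := hJ
    have hK' : P 4 := hK
    have hL' : P 5 := hL
    fin_cases m <;> assumption
  · have hJ' : P 4 := hJ
    have hK' : P 3 := hK
    have hL' : P 5 := hL
    fin_cases m <;> assumption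
  · have hJ' : P 5 := hJ
    have hK' : P 3 := hK
    have hL' : P 4 := hL
    fin_cases m <;> assumption

private theorem ne_coord (p : Fin 3) : Jx p ≠ 0 ∧ Jx p ≠ 1 ∧ Jx p ≠ 2 ∧ Kx p ≠ 0 ∧ Kx p ≠ 1 ∧
    Kx p ≠ 2 ∧ Lx p ≠ 0 ∧ Lx p ≠ 1 ∧ Lx p ≠ 2 ∧ Kx p ≠ Jx p ∧ Lx p ≠ Jx p ∧ Lx p ≠ Kx p := by
  revert p
  decide

private theorem Jx_inj : ∀ p q : Fin 3, p ≠ q → Jx q ≠ Jx p := by
  decide

private theorem finrank_Pl (w : ℂ) (t : Fin 3 × Fin 3 × Fin 3) : finrank ℂ (Pl w t) = 3 := by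
  have hb : Function.Bijective (toC w t) := by
    constructor
    · rw [injective_iff_map_eq_zero]
      rintro ⟨v, hv⟩ h
      obtain ⟨h1, h2, h3⟩ := mem_Pl.1 hv
      have e0 : v 0 = 0 := congrFun h 0
      have e1 : v (Jx t.1) = 0 := congrFun h 1
      have e2 : v (Lx t.1) = 0 := congrFun h 2
      rw [e0, zero_add] at h1
      rw [e1, mul_zero, add_zero] at h2
      rw [e2, mul_zero, add_zero] at h3
      refine Subtype.ext (funext fun m => ?_)
      exact all_coord t.1 (fun m => v m = 0) e0 h1 h2 e1 h3 e2 m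
    · intro x
      obtain ⟨n1, n2, n3, n4, n5, n6, n7, n8, n9, n10, n11, n12⟩ := ne_coord t.1
      refine ⟨⟨fun m => if m = 0 then x 0 else if m = 1 then - x 0 else if m = 2 then
        - (w ^ (t.2.1 : ℕ) * x 1) else if m = Jx t.1 then x 1 else if m = Kx t.1 then
        - (w ^ (t.2.2 : ℕ) * x 2) else x 2, mem_Pl.2 ⟨?_, ?_, ?_⟩⟩, ?_⟩
      · simp
      · simp [n1, n2, n3]
      · simp [n4, n5, n6, n7, n8, n9, n10, n11, n12]
      · ext i
        fin_cases i
        · simp [toC]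
        · simp [toC, n1, n2, n3]
        · simp [toC, n7, n8, n9, n11, n12]
  have h := (LinearEquiv.ofBijective (toC w t) hb).finrank_eq
  rw [h, finrank_fin_fun]

private theorem Pl_inj {w : ℂ} (hw : IsPrimitiveRoot w 3) : Function.Injective (Pl w) := by
  rintro ⟨p, a, b⟩ ⟨q, c, d⟩ h
  have hw0 : w ≠ 0 := hw.ne_zero (by norm_num)
  obtain ⟨n1, n2, n3, n4, n5, n6, n7, n8, n9, n10, n11, n12⟩ := ne_coord p
  obtain ⟨m1, m2, m3, m4, m5, m6, m7, m8, m9, m10, m11, m12⟩ := ne_coord q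
  have h1 : (fun m => if m = 2 then - w ^ (a : ℕ) else if m = Jx p then (1 : ℂ) else 0) ∈
      Pl w (p, a, b) := by
    refine mem_Pl.2 ⟨?_, ?_, ?_⟩
    · simp [n1.symm, n2.symm]
    · simp [n3]
    · simp [n6, n9, n10, n11]
  rw [h] at h1
  obtain ⟨-, h2, -⟩ := mem_Pl.1 h1
  have hpq : p = q := by
    by_contra hne
    have h3 := Jx_inj p q hne
    simp [m3, h3, hw0] at h2
  subst hpq
  simp only [if_true, n3, if_false, mul_one] at h2
  have hac : a = c := by
    refine Fin.ext (hw.pow_inj a.isLt c.isLt ?_)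
    linear_combination - h2
  subst hac
  have h4 : (fun m => if m = Kx p then - w ^ (b : ℕ) else if m = Lx p then (1 : ℂ) else 0) ∈
      Pl w (p, a, b) := by
    refine mem_Pl.2 ⟨?_, ?_, ?_⟩
    · simp [n4.symm, n5.symm, n7.symm, n8.symm]
    · simp [n6.symm, n9.symm, n10.symm, n11.symm]
    · simp [n12]
  rw [h] at h4
  obtain ⟨-, -, h5⟩ := mem_Pl.1 h4
  simp only [if_true, n12, if_false, mul_one] at h5
  have hbd : b = d := by
    refine Fin.ext (hw.pow_inj b.isLt d.isLt ?_)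
    linear_combination - h5
  subst hbd
  rfl

private theorem sum_coord (p : Fin 3) (f : Fin 6 → ℂ) :
    ∑ i, f i = f 0 + f 1 + f 2 + f (Jx p) + f (Kx p) + f (Lx p) := by
  rw [Fin.sum_univ_six]
  fin_cases p
  · rfl
  · show _ = f 0 + f 1 + f 2 + f 4 + f 3 + f 5
    ring
  · show _ = f 0 + f 1 + f 2 + f 5 + f 3 + f 4
    ring

theorem sharp : ∃ F : MvPolynomial (Fin 6) ℂ, F.IsHomogeneous 3 ∧ PSmooth F ∧
    ∃ S : Finset (Submodule ℂ (Fin 6 → ℂ)), S.card = 27 ∧ (∀ P ∈ S, PPlane F P) ∧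
      ∀ P ∈ S, ∀ P' ∈ S, P ⊓ P' ≠ ⊥ := by
  classical
  obtain ⟨w, hw⟩ : ∃ w : ℂ, IsPrimitiveRoot w 3 := ⟨_, Complex.isPrimitiveRoot_exp 3 (by norm_num)⟩
  refine ⟨∑ i, X i ^ 3, ?_, ?_, Finset.univ.image (Pl w), ?_, ?_, ?_⟩
  · refine IsHomogeneous.sum _ _ _ fun i _ => ?_
    have := (isHomogeneous_X ℂ i).pow 3
    simpa using this
  · intro v hv _
    obtain ⟨i, hi⟩ : ∃ i, v i ≠ 0 := by
      by_contra hh
      push Not at hh
      exact hv (funext hh)
    refine ⟨i, ?_⟩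
    have h1 : eval v (pderiv i (∑ j, X j ^ 3 : MvPolynomial (Fin 6) ℂ)) = 3 * v i ^ 2 := by
      rw [map_sum, map_sum, Finset.sum_eq_single i]
      · rw [Derivation.leibniz_pow, pderiv_X_self]
        simp
      · intro j _ hj
        rw [Derivation.leibniz_pow, pderiv_X_of_ne hj]
        simp
      · intro h
        exact absurd (Finset.mem_univ i) h
    rw [h1]
    exact mul_ne_zero (by norm_num) (pow_ne_zero 2 hi)
  · rw [Finset.card_image_of_injective _ (Pl_inj hw), Finset.card_univ]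
    rfl
  · intro P hP
    obtain ⟨t, -, rfl⟩ := Finset.mem_image.1 hP
    refine ⟨finrank_Pl w t, fun v hv => ?_⟩
    obtain ⟨h1, h2, h3⟩ := mem_Pl.1 hv
    have e : eval v (∑ j, X j ^ 3 : MvPolynomial (Fin 6) ℂ) = ∑ j, v j ^ 3 := by
      simp
    have hw3 : ∀ m : ℕ, (w ^ m) ^ 3 = 1 := by
      intro m
      rw [← pow_mul, mul_comm, pow_mul, hw.pow_eq_one, one_pow]
    have k1 : v 1 = - v 0 := by linear_combination h1
    have k2 : v 2 = - (w ^ (t.2.1 : ℕ) * v (Jx t.1)) := by linear_combination h2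
    have k3 : v (Kx t.1) = - (w ^ (t.2.2 : ℕ) * v (Lx t.1)) := by linear_combination h3
    rw [e, sum_coord t.1 (fun j => v j ^ 3), k1, k2, k3]
    linear_combination (- v (Jx t.1) ^ 3) * hw3 (t.2.1 : ℕ) - v (Lx t.1) ^ 3 * hw3 (t.2.2 : ℕ)
  · intro P hP P' hP' hbot
    obtain ⟨t, -, rfl⟩ := Finset.mem_image.1 hP
    obtain ⟨t', -, rfl⟩ := Finset.mem_image.1 hP'
    have h0 : ∀ t, (fun m => if m = 0 then (1 : ℂ) else if m = 1 then -1 else 0 : Fin 6 → ℂ) ∈
        Pl w t := by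
      intro t
      obtain ⟨n1, n2, n3, n4, n5, n6, n7, n8, n9, n10, n11, n12⟩ := ne_coord t.1
      refine mem_Pl.2 ⟨?_, ?_, ?_⟩
      · simp
      · simp [n1, n2]
      · simp [n4, n5, n7, n8]
    have h1 : (fun m => if m = 0 then (1 : ℂ) else if m = 1 then -1 else 0 : Fin 6 → ℂ) ∈
        Pl w t ⊓ Pl w t' := ⟨h0 t, h0 t'⟩
    rw [hbot, Submodule.mem_bot] at h1
    have h2 := congrFun h1 0
    simp at h2

end Pool.Agent.P28
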