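import Mathlib

set_option autoImplicit false

/-!
# P28 B14: factors of homogeneous polynomials (Mathlib only)

`hom_factor`: if `p * q` is homogeneous of degree `n` and `p * q ≠ 0` then `p` and `q` are
homogeneous of degrees `a, b` with `a + b = n`. PROOF: let `a` and `A` be the smallest and largest
degree of a nonzero homogeneous component of `p`, `b` and `B` those of `q`. The component of degree
`a + b` of `p q` is the product of the lowest components, not `0` (domain), and the one of degree
`A + B` is the product of the highest components, not `0`. So `a + b = n = A + B`, `a = A`,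
`b = B`.

`lin_kernel`: a homogeneous polynomial of degree 1 in three variables, not `0`: its zero set
contains two independent vectors whose span consists of zeros.

`cubic_irr`: a nonzero cubic form `D` in three variables which does not vanish on the span of any
two independent vectors is irreducible. PROOF: `D = p q` with nonunits; both homogeneous, degrees
`a + b = 3`; `a = 0` would make `p` a nonzero constant, a unit. So one of the degrees is 1: the
zeros of this factor contain a span (`lin_kernel`). `D` is not a unit (degree 3).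
-/

namespace Pool.Agent.P28

open MvPolynomial

/-- the substitution `X i ↦ X i * T` -/
private noncomputable def hfT (σ : Type) :
    MvPolynomial σ ℂ →ₐ[ℂ] Polynomial (MvPolynomial σ ℂ) :=
  aeval fun i => Polynomial.C (X i) * Polynomial.X

private theorem hfT_monomial {σ : Type} (d : σ →₀ ℕ) (c : ℂ) :
    hfT σ (monomial d c) = Polynomial.C (monomial d c) * Polynomial.X ^ d.degree := by
  unfold hfT
  rw [aeval_monomial]
  have h1 : (d.prod fun i k => (Polynomial.C (X i : MvPolynomial σ ℂ) * Polynomial.X) ^ k) =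
      Polynomial.C (d.prod fun i k => (X i : MvPolynomial σ ℂ) ^ k) *
        Polynomial.X ^ d.degree := by
    simp only [Finsupp.prod, mul_pow, Finset.prod_mul_distrib, Finset.prod_pow_eq_pow_sum,
      map_prod, map_pow, Finsupp.degree]
    rfl
  rw [h1, ← mul_assoc]
  congr 1
  rw [monomial_eq, map_mul]
  rfl

private theorem hfT_coeff {σ : Type} (p : MvPolynomial σ ℂ) (i : ℕ) :
    (hfT σ p).coeff i = homogeneousComponent i p := by
  induction p using MvPolynomial.induction_on' with
  | monomial d c =>
    rw [hfT_monomial, Polynomial.coeff_C_mul, Polynomial.coeff_X_pow]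
    have h1 : (monomial d c : MvPolynomial σ ℂ) ∈ homogeneousSubmodule σ ℂ d.degree :=
      isHomogeneous_monomial c rfl
    rw [homogeneousComponent_of_mem h1]
    split_ifs with h2
    · rw [mul_one]
    · rw [mul_zero]
  | add p q hp hq => rw [map_add, Polynomial.coeff_add, hp, hq, map_add]

private theorem hfT_hom {σ : Type} {p : MvPolynomial σ ℂ} {n : ℕ} (h : p.IsHomogeneous n) :
    hfT σ p = Polynomial.C p * Polynomial.X ^ n := by
  ext1 i
  rw [hfT_coeff, homogeneousComponent_of_mem h, Polynomial.coeff_C_mul, Polynomial.coeff_X_pow]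
  split_ifs with h2
  · rw [mul_one]
  · rw [mul_zero]

private theorem hfT_of {σ : Type} {p : MvPolynomial σ ℂ}
    (h : (hfT σ p).natTrailingDegree = (hfT σ p).natDegree) :
    p.IsHomogeneous (hfT σ p).natDegree := by
  have h1 : p = homogeneousComponent (hfT σ p).natDegree p := by
    conv_lhs => rw [← sum_homogeneousComponent p]
    by_cases hr : (hfT σ p).natDegree ∈ Finset.range (p.totalDegree + 1)
    · refine Finset.sum_eq_single_of_mem _ hr fun i _ hi => ?_
      rw [← hfT_coeff]
      rcases lt_or_gt_of_ne hi with h2 | h2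
      · exact Polynomial.coeff_eq_zero_of_lt_natTrailingDegree (by rw [h]; exact h2)
      · exact Polynomial.coeff_eq_zero_of_natDegree_lt h2
    · have h0 : homogeneousComponent (hfT σ p).natDegree p = 0 := by
        refine homogeneousComponent_eq_zero _ _ ?_
        rw [Finset.mem_range] at hr
        omega
      have h2 : (hfT σ p).leadingCoeff = 0 := by
        rw [Polynomial.leadingCoeff, hfT_coeff, h0]
      rw [Polynomial.leadingCoeff_eq_zero] at h2
      rw [h0]
      refine Finset.sum_eq_zero fun i _ => ?_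
      rw [← hfT_coeff, h2, Polynomial.coeff_zero]
  have h3 := homogeneousComponent_isHomogeneous (hfT σ p).natDegree p
  rw [← h1] at h3
  exact h3

theorem hom_factor {σ : Type} {p q : MvPolynomial σ ℂ} {n : ℕ} (h : (p * q).IsHomogeneous n)
    (h0 : p * q ≠ 0) : ∃ a b : ℕ, a + b = n ∧ p.IsHomogeneous a ∧ q.IsHomogeneous b := by
  have h1 : hfT σ p * hfT σ q = Polynomial.C (p * q) * Polynomial.X ^ n := by
    rw [← map_mul, hfT_hom h]
  have h2 : Polynomial.C (p * q) * Polynomial.X ^ n = Polynomial.monomial n (p * q) :=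
    Polynomial.C_mul_X_pow_eq_monomial
  rw [h2] at h1
  have hne : hfT σ p * hfT σ q ≠ 0 := by
    rw [h1]
    intro h3
    exact h0 ((Polynomial.monomial_eq_zero_iff _ _).1 h3)
  have hp0 := left_ne_zero_of_mul hne
  have hq0 := right_ne_zero_of_mul hne
  have d1 : (hfT σ p).natDegree + (hfT σ q).natDegree = n := by
    rw [← Polynomial.natDegree_mul hp0 hq0, h1, Polynomial.natDegree_monomial_eq _ h0]
  have d2 : (hfT σ p).natTrailingDegree + (hfT σ q).natTrailingDegree = n := by
    rw [← Polynomial.natTrailingDegree_mul hp0 hq0, h1,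
      Polynomial.natTrailingDegree_monomial h0]
  have e1 := (hfT σ p).natTrailingDegree_le_natDegree
  have e2 := (hfT σ q).natTrailingDegree_le_natDegree
  exact ⟨_, _, d1, hfT_of (by omega), hfT_of (by omega)⟩

private theorem hf_zero {p : MvPolynomial (Fin 3) ℂ} (hp : p.IsHomogeneous 0) :
    ∃ c : ℂ, p = C c :=
  ⟨_, totalDegree_eq_zero_iff_eq_C.1 ((totalDegree_zero_iff_isHomogeneous _).2 hp)⟩

theorem lin_kernel {p : MvPolynomial (Fin 3) ℂ} (hp : p.IsHomogeneous 1) :
    ∃ u v : Fin 3 → ℂ, LinearIndependent ℂ ![u, v] ∧ ∀ s t : ℂ, eval (s • u + t • v) p = 0 := by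
  have h1 : p ∈ Submodule.span ℂ (Set.range (X : Fin 3 → MvPolynomial (Fin 3) ℂ)) := by
    rw [← homogeneousSubmodule_one_eq_span_X]
    exact hp
  obtain ⟨c, hc⟩ := (Submodule.mem_span_range_iff_exists_fun ℂ).1 h1
  let L : (Fin 3 → ℂ) →ₗ[ℂ] ℂ := ∑ a, c a • LinearMap.proj a
  have hL : ∀ x, eval x p = L x := by
    intro x
    rw [← hc, map_sum, LinearMap.sum_apply]
    refine Finset.sum_congr rfl fun a _ => ?_
    rw [smul_eval, eval_X, LinearMap.smul_apply, LinearMap.proj_apply, smul_eq_mul]
  have h2 : 2 ≤ Module.finrank ℂ (LinearMap.ker L) := by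
    have h3 := LinearMap.finrank_range_add_finrank_ker L
    rw [Module.finrank_fin_fun] at h3
    have h4 : Module.finrank ℂ (LinearMap.range L) ≤ 1 := by
      have := Submodule.finrank_le (LinearMap.range L)
      rwa [Module.finrank_self] at this
    omega
  obtain ⟨f, hf⟩ := exists_linearIndependent_of_le_finrank h2
  have hf' : LinearIndependent ℂ fun i => ((f i : LinearMap.ker L) : Fin 3 → ℂ) :=
    hf.map' (LinearMap.ker L).subtype (Submodule.ker_subtype _)
  refine ⟨(f 0 : Fin 3 → ℂ), (f 1 : Fin 3 → ℂ), ?_, fun s t => ?_⟩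
  · have h3 : (fun i => ((f i : LinearMap.ker L) : Fin 3 → ℂ)) =
        ![(f 0 : Fin 3 → ℂ), (f 1 : Fin 3 → ℂ)] := by
      funext i
      fin_cases i <;> rfl
    rw [← h3]
    exact hf'
  · rw [hL, map_add, map_smul, map_smul, LinearMap.mem_ker.1 (f 0).2, LinearMap.mem_ker.1 (f 1).2,
      smul_zero, smul_zero, add_zero]

theorem cubic_irr {D : MvPolynomial (Fin 3) ℂ} (hD : D.IsHomogeneous 3) (h0 : D ≠ 0)
    (h : ¬ ∃ u v : Fin 3 → ℂ, LinearIndependent ℂ ![u, v] ∧
      ∀ s t : ℂ, eval (s • u + t • v) D = 0) : Irreducible D := by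
  rw [irreducible_iff]
  constructor
  · intro hu
    obtain ⟨v, hv⟩ := hu.exists_right_inv
    have h1 : (D * v).IsHomogeneous 0 := by
      rw [hv]
      exact isHomogeneous_one _ _
    obtain ⟨a, b, hab, ha, -⟩ := hom_factor h1 (by rw [hv]; exact one_ne_zero)
    have h2 := hD.inj_right ha h0
    omega
  · intro p q hpq
    have hpq0 : p * q ≠ 0 := by
      rw [← hpq]
      exact h0
    obtain ⟨a, b, hab, ha, hb⟩ := hom_factor (hpq ▸ hD) hpq0
    have hunit : ∀ {r : MvPolynomial (Fin 3) ℂ}, r.IsHomogeneous 0 → r ≠ 0 → IsUnit r := by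
      intro r hr hr0
      obtain ⟨c, rfl⟩ := hf_zero hr
      have hc : c ≠ 0 := by
        rintro rfl
        exact hr0 (map_zero _)
      exact (IsUnit.mk0 c hc).map C
    have hlin : ∀ {r t : MvPolynomial (Fin 3) ℂ}, r.IsHomogeneous 1 → D = r * t → False := by
      intro r t hr hrt
      obtain ⟨u, v, huv, h3⟩ := lin_kernel hr
      exact h ⟨u, v, huv, fun s t' => by rw [hrt, map_mul, h3, zero_mul]⟩
    have hc : a = 0 ∨ b = 0 ∨ a = 1 ∨ b = 1 := by omega
    rcases hc with rfl | rfl | rfl | rfl
    · exact Or.inl (hunit ha (left_ne_zero_of_mul hpq0))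
    · exact Or.inr (hunit hb (right_ne_zero_of_mul hpq0))
    · exact (hlin ha hpq).elim
    · exact (hlin hb (hpq.trans (mul_comm _ _))).elim

end Pool.Agent.P28
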