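import Pool.Agent.P28.Defs

set_option autoImplicit false

/-!
# P28: definitions of the final statement

Cubic fourfolds given by a polynomial in six variables, rationality, surfaces in `P^2 x P^2`,
lines of a cubic fourfold, the birational map from the symmetric square of the surface to the
variety of lines.
-/

namespace Pool.Agent.P28

open Module MvPolynomial

/-- The hypersurface `F = 0` in the projective space of `ℂ^6` is smooth. -/
def PSmooth (F : MvPolynomial (Fin 6) ℂ) : Prop :=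
  ∀ v, v ≠ 0 → eval v F = 0 → ∃ i, eval v (pderiv i F) ≠ 0

/-- `P` is a plane contained in the hypersurface `F = 0`. -/
def PPlane (F : MvPolynomial (Fin 6) ℂ) (P : Submodule ℂ (Fin 6 → ℂ)) : Prop :=
  finrank ℂ P = 3 ∧ ∀ v ∈ P, eval v F = 0

/-- `L` is a line contained in the hypersurface `F = 0`. -/
def PLine (F : MvPolynomial (Fin 6) ℂ) (L : Submodule ℂ (Fin 6 → ℂ)) : Prop :=
  finrank ℂ L = 2 ∧ ∀ v ∈ L, eval v F = 0

/-- The hypersurface `F = 0` is rational: there are rational maps `phi` from the projective space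
of dimension four to the hypersurface and `psi` back, both given by homogeneous polynomials, which
are inverse to each other. -/
def Rational (F : MvPolynomial (Fin 6) ℂ) : Prop :=
  ∃ (d e : ℕ) (phi : Fin 6 → MvPolynomial (Fin 5) ℂ) (psi : Fin 5 → MvPolynomial (Fin 6) ℂ)
    (g : MvPolynomial (Fin 5) ℂ) (h : MvPolynomial (Fin 6) ℂ),
    (∀ i, (phi i).IsHomogeneous d) ∧ (∀ j, (psi j).IsHomogeneous e) ∧ g ≠ 0 ∧ ¬ F ∣ h ∧
    bind₁ phi F = 0 ∧ (∀ j, bind₁ phi (psi j) = g * X j) ∧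
    ∀ i, F ∣ bind₁ psi (phi i) - h * X i

/-- Variables for one point of `P^2 x P^2`. -/
abbrev V2 : Type := Fin 3 ⊕ Fin 3

/-- A pair of vectors, representing a point of `P^2 x P^2` if both are nonzero. -/
abbrev Pt : Type := (Fin 3 → ℂ) × (Fin 3 → ℂ)

/-- The value of `f` at a pair of vectors. -/
noncomputable def ev1 (f : MvPolynomial V2 ℂ) (s : Pt) : ℂ := eval (Sum.elim s.1 s.2) f

/-- `f` is bihomogeneous of bidegree `(m, n)`. -/
def BiHom (m n : ℕ) (f : MvPolynomial V2 ℂ) : Prop :=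
  ∀ (c d : ℂ) (s : Pt), ev1 f (c • s.1, d • s.2) = c ^ m * d ^ n * ev1 f s

/-- `s` represents a point of the surface `f = g = 0` in `P^2 x P^2`. -/
def OnS (f g : MvPolynomial V2 ℂ) (s : Pt) : Prop :=
  s.1 ≠ 0 ∧ s.2 ≠ 0 ∧ ev1 f s = 0 ∧ ev1 g s = 0

/-- `s` and `s'` represent the same point of `P^2 x P^2`. -/
def Same (s s' : Pt) : Prop := (∃ c : ℂ, c ≠ 0 ∧ s'.1 = c • s.1) ∧ ∃ d : ℂ, d ≠ 0 ∧ s'.2 = d • s.2

/-- `f = g = 0` is a smooth complete intersection of two divisors of bidegrees `(2, 1)` and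
`(1, 2)` in `P^2 x P^2` (so it is a K3 surface). -/
def SmoothCI (f g : MvPolynomial V2 ℂ) : Prop :=
  BiHom 2 1 f ∧ BiHom 1 2 g ∧ ∀ s, OnS f g s →
    LinearIndependent ℂ ![fun i => ev1 (pderiv i f) s, fun i => ev1 (pderiv i g) s]

/-- The value at two points. -/
noncomputable def ev2 (G : MvPolynomial (V2 ⊕ V2) ℂ) (s s' : Pt) : ℂ :=
  eval (Sum.elim (Sum.elim s.1 s.2) (Sum.elim s'.1 s'.2)) G

/-- The span of the vectors `x(s, s')`, `y(s, s')`. -/
noncomputable def lineOf (x y : Fin 6 → MvPolynomial (V2 ⊕ V2) ℂ) (s s' : Pt) :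
    Submodule ℂ (Fin 6 → ℂ) :=
  Submodule.span ℂ {fun i => ev2 (x i) s s', fun i => ev2 (y i) s s'}

/-- The Zariski open set of lines given by `H` in terms of bases. -/
def Open (H : MvPolynomial (Fin 6 ⊕ Fin 6) ℂ) (L : Submodule ℂ (Fin 6 → ℂ)) : Prop :=
  ∃ x y : Fin 6 → ℂ, L = Submodule.span ℂ {x, y} ∧ eval (Sum.elim x y) H ≠ 0

/-- A map given by polynomials induces a bijection from a nonempty Zariski open subset of the
symmetric square of the surface `f = g = 0` (unordered pairs `s`, `s'` with `G(s, s')` not zero)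
to a Zariski open subset of the variety of lines of `F = 0`. -/
def BirSym (F : MvPolynomial (Fin 6) ℂ) (f g : MvPolynomial V2 ℂ) : Prop :=
  ∃ (G : MvPolynomial (V2 ⊕ V2) ℂ) (H : MvPolynomial (Fin 6 ⊕ Fin 6) ℂ)
    (x y : Fin 6 → MvPolynomial (V2 ⊕ V2) ℂ),
    (∃ s s', OnS f g s ∧ OnS f g s' ∧ ev2 G s s' ≠ 0) ∧
    (∀ s s', OnS f g s → OnS f g s' → ev2 G s s' ≠ 0 →
      PLine F (lineOf x y s s') ∧ Open H (lineOf x y s s')) ∧
    (∀ L, PLine F L → Open H L →
      ∃ s s', OnS f g s ∧ OnS f g s' ∧ ev2 G s s' ≠ 0 ∧ L = lineOf x y s s') ∧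
    ∀ s s' r r', OnS f g s → OnS f g s' → OnS f g r → OnS f g r' →
      ev2 G s s' ≠ 0 → ev2 G r r' ≠ 0 →
      (lineOf x y s s' = lineOf x y r r' ↔
        (Same s r ∧ Same s' r') ∨ (Same s r' ∧ Same s' r))

/-- The trilinear form on tuples of polynomials. -/
noncomputable def tp (C : Cub (Fin 6 → ℂ)) {σ : Type} (x y z : Fin 6 → MvPolynomial σ ℂ) :
    MvPolynomial σ ℂ :=
  ∑ i, ∑ j, ∑ k, MvPolynomial.C (C.T (Pi.single i 1) (Pi.single j 1) (Pi.single k 1)) *
    (x i * y j * z k)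

theorem T_expand (C : Cub (Fin 6 → ℂ)) (x y z : Fin 6 → ℂ) :
    C.T x y z = ∑ i, ∑ j, ∑ k, C.T (Pi.single i 1) (Pi.single j 1) (Pi.single k 1) *
      (x i * y j * z k) := by
  have e : ∀ v : Fin 6 → ℂ, v = ∑ i, v i • (Pi.single i 1 : Fin 6 → ℂ) := by
    intro v
    rw [← pi_eq_sum_univ' v]
  conv_lhs => rw [e x]
  rw [map_sum, LinearMap.sum_apply, LinearMap.sum_apply]
  refine Finset.sum_congr rfl fun i _ => ?_
  conv_lhs => rw [e y]
  rw [map_sum, LinearMap.sum_apply]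
  refine Finset.sum_congr rfl fun j _ => ?_
  conv_lhs => rw [e z]
  rw [map_sum]
  refine Finset.sum_congr rfl fun k _ => ?_
  simp only [map_smul, LinearMap.smul_apply, smul_eq_mul]
  ring

theorem eval_tp (C : Cub (Fin 6 → ℂ)) {σ : Type} (x y z : Fin 6 → MvPolynomial σ ℂ)
    (t : σ → ℂ) : eval t (tp C x y z) =
      C.T (fun i => eval t (x i)) (fun i => eval t (y i)) (fun i => eval t (z i)) := by
  rw [T_expand, tp]
  simp only [map_sum, map_mul, eval_C]

end Pool.Agent.P28
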