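import Pool.Agent.P28.FrDefs

set_option autoImplicit false

/-!
# P28 C04: the form `N` of one plane on another plane

`Adapted F F'`: `F'` is a frame `(e; w)` of a plane `P'`, `F` is the frame
`(e₀, w₁, w₂; w₀, e₁, e₂)` of a plane `P`; so `P ∩ P' = span w₀`.

`adapted_vol`: the two families differ by the even permutation exchanging `e₁, w₁` and `e₂, w₂`
(`Basis.det` is alternating: `AlternatingMap.map_perm`, or twice `AlternatingMap.map_swap`).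

`N_self`: for `x ∈ P`, `x + pi x = 2 x`, `T (e_i) (w_j) (2 x) = 2 T x (w_j) (e_i)`.

PROOF of `adapted_N`. Write `e = F'.e`, `w = F'.w`. Let `x ∈ P`,
`x = y0 w₀ + y1 e₁ + y2 e₂` (`y0 = F'.y 0 x`, `y1 = F'.l 1 x`, `y2 = F'.l 2 x`), `F'.pi x = y0 w₀`.
`O_ij = T (e_i) (w_j) (x + pi x)`; `O_10 = O_20 = 0` (all three vectors in `P`). So
`N F' x = al * detB`, `al = O_00`, `B_ij = O_ij` (`i, j` in `1, 2`), `detB = B11 B22 - B12 B21`.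
`Q_0 = T x x e₀`, `Q_j = T x x w_j` (`j = 1, 2`); `Q_j = y1 B_1j + y2 B_2j` (uses `T w₀ w₀ w_j = 0`,
`P'` isotropic). So `y1 detB = Q_1 B22 - Q_2 B21`, `y2 detB = - Q_1 B12 + Q_2 B11`.
`a = T e₀ w₀ w₀`, `a_i = T e₀ w₀ e_i`: `al = 2 a y0 + a1 y1 + a2 y2`.
`D F x = det (R0, R1, R2)`, `R0 = (T x w₀ e₀, T x e₁ e₀, T x e₂ e₀)`,
`R_j = (T x w₀ w_j, T x e₁ w_j, T x e₂ w_j)`. With `beta i j = T (e_i) (w_j) w₀`:
`R_j = (0, B_1j, B_2j) + (y1 beta 1 j + y2 beta 2 j, - y0 beta 1 j, - y0 beta 2 j)`, and the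
last vector is `s_j × y`, `s_j = (0, beta 2 j, - beta 1 j)`, `y = (y0, y1, y2)`. With
`y · R0 = Q_0`, `y · R_1 = Q_1`, `y · (0, B_12, B_22) = Q_2`:
`D = r0 detB + (s_1 · R2' - s_2 · R1) Q_0 - (s_1 · R0) Q_2 + (s_2 · R0) Q_1`,
`R2' = (0, B_12, B_22)`, `r0 = T x w₀ e₀ = a y0 + a1 y1 + a2 y2`. Hence
`N F' x - 2 D F x = L0 Q_0 + L1 Q_1 + L2 Q_2` with
`L0 = - 2 (s_1 · R2' - s_2 · R1)`, `L1 = - a1 B22 + a2 B12 - 2 (s_2 · R0)`,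
`L2 = a1 B21 - a2 B11 + 2 (s_1 · R0)`,
linear forms in `x` (all of `y0, y1, y2, B_ij, R` are restrictions of linear forms on `V`); so
`A x = L0 x • e₀ + L1 x • w₁ + L2 x • w₂`. All identities are `ring` identities in
`y0, y1, y2` and the numbers `T` of basis vectors. (Alternative: expand everything in the numbers
`T` of basis vectors and check with `ring`/`linear_combination`.)

`adapted_D` is the second half of the same computation (used in C05d):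
`D F x - a y0 detB` is also of the form `T x x (A x)` on `P`.
-/

namespace Pool.Agent.P28

open Module

variable {V : Type} [AddCommGroup V] [Module ℂ V]

/-- Adapted frames of two planes meeting in a point. -/
structure Adapted (F F' : Fr V) : Prop where
  he : F.e = ![F'.e 0, F'.w 1, F'.w 2]
  hw : F.w = ![F'.w 0, F'.e 1, F'.e 2]

/-- the entries of the determinant as linear forms -/
private noncomputable def BB (C : Cub V) (F' : Fr V) (i j : Fin 3) : V →ₗ[ℂ] ℂ :=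
  (C.T (F'.e i) (F'.w j)).comp (LinearMap.id + F'.pi)

private theorem BB_apply (C : Cub V) (F' : Fr V) (i j : Fin 3) (x : V) :
    BB C F' i j x = C.T (F'.e i) (F'.w j) (x + F'.pi x) := rfl

theorem adapted_vol (b : Basis (Fin 3 ⊕ Fin 3) ℂ V) {F F' : Fr V} (h : Adapted F F') :
    F.vol b = F'.vol b := by
  have h1 : (Sum.elim F.e F.w : Fin 3 ⊕ Fin 3 → V) =
      ((Sum.elim F'.e F'.w : Fin 3 ⊕ Fin 3 → V) ∘ Equiv.swap (Sum.inl 1) (Sum.inr 1)) ∘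
        Equiv.swap (Sum.inl 2) (Sum.inr 2) := by
    rw [h.he, h.hw]
    funext i
    rcases i with i | i <;> fin_cases i <;> rfl
  unfold Fr.vol
  rw [h1, AlternatingMap.map_swap _ _ (by simp), AlternatingMap.map_swap _ _ (by simp), neg_neg]

theorem N_self (C : Cub V) (F : Fr V) : ∀ x ∈ F.P, F.N C x = 8 * F.D C x := by
  intro x hx
  have h1 : ∀ u v, C.T u v (x + F.pi x) = 2 * C.T x v u := by
    intro u v
    rw [(F.mem_iff x).1 hx, map_add, C.sw' x v u]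
    ring
  unfold Fr.N Fr.D
  rw [Matrix.det_fin_three, Matrix.det_fin_three]
  simp only [Matrix.of_apply, h1]
  ring

theorem adapted_N (C : Cub V) {F F' : Fr V} (h : Adapted F F')
    (hP : ∀ x ∈ F.P, ∀ y ∈ F.P, ∀ z ∈ F.P, C.T x y z = 0)
    (hP' : ∀ x ∈ F'.P, ∀ y ∈ F'.P, ∀ z ∈ F'.P, C.T x y z = 0) :
    ∃ A : V →ₗ[ℂ] V, ∀ x ∈ F.P, F'.N C x - 2 * F.D C x = C.T x x (A x) := by
  have m0 : F'.w 0 ∈ F.P := by
    have := F.w_mem 0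
    rw [h.hw] at this
    exact this
  have m1 : F'.e 1 ∈ F.P := by
    have := F.w_mem 1
    rw [h.hw] at this
    exact this
  have m2 : F'.e 2 ∈ F.P := by
    have := F.w_mem 2
    rw [h.hw] at this
    exact this
  obtain ⟨b11, q11⟩ : ∃ c, C.T (F'.e 1) (F'.w 1) (F'.w 0) = c := ⟨_, rfl⟩
  obtain ⟨b12, q12⟩ : ∃ c, C.T (F'.e 1) (F'.w 2) (F'.w 0) = c := ⟨_, rfl⟩
  obtain ⟨b21, q21⟩ : ∃ c, C.T (F'.e 2) (F'.w 1) (F'.w 0) = c := ⟨_, rfl⟩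
  obtain ⟨b22, q22⟩ : ∃ c, C.T (F'.e 2) (F'.w 2) (F'.w 0) = c := ⟨_, rfl⟩
  obtain ⟨a1, r1⟩ : ∃ c, C.T (F'.e 0) (F'.w 0) (F'.e 1) = c := ⟨_, rfl⟩
  obtain ⟨a2, r2⟩ : ∃ c, C.T (F'.e 0) (F'.w 0) (F'.e 2) = c := ⟨_, rfl⟩
  refine ⟨((-2 : ℂ) • (b21 • BB C F' 1 2 - b11 • BB C F' 2 2 -
      (b22 • C.T (F'.e 1) (F'.w 1) - b12 • C.T (F'.e 2) (F'.w 1)))).smulRight (F'.e 0) +
    (a2 • BB C F' 1 2 - a1 • BB C F' 2 2 -
      (2 : ℂ) • (b22 • C.T (F'.e 1) (F'.e 0) - b12 • C.T (F'.e 2) (F'.e 0))).smulRight (F'.w 1) +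
    (a1 • BB C F' 2 1 - a2 • BB C F' 1 1 +
      (2 : ℂ) • (b21 • C.T (F'.e 1) (F'.e 0) - b11 • C.T (F'.e 2) (F'.e 0))).smulRight (F'.w 2),
    fun x hxP => ?_⟩
  obtain ⟨y0, y1, y2, hx⟩ : ∃ y0 y1 y2 : ℂ,
      x = y0 • F'.w 0 + y1 • F'.e 1 + y2 • F'.e 2 := by
    refine ⟨F.y 0 x, F.y 1 x, F.y 2 x, ?_⟩
    have h1 := (F.mem_iff x).1 hxP
    rw [Fr.pi, LinearMap.sum_apply, Fin.sum_univ_three, h.hw] at h1
    exact h1.symm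
  have hpi : F'.pi x = y0 • F'.w 0 := by
    rw [hx, map_add, map_add, map_smul, map_smul, map_smul, F'.pi_w, F'.pi_e, F'.pi_e,
      smul_zero, smul_zero, add_zero, add_zero]
  have hy : F'.y 0 x = y0 := by
    rw [hx, map_add, map_add, map_smul, map_smul, map_smul, F'.y_w, F'.y_e, F'.y_e, if_pos rfl,
      smul_zero, smul_zero, add_zero, add_zero, smul_eq_mul, mul_one]
  have hx3 : ∀ u v, C.T u v x =
      y0 * C.T u v (F'.w 0) + y1 * C.T u v (F'.e 1) + y2 * C.T u v (F'.e 2) := by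
    intro u v
    rw [hx, map_add, map_add, map_smul, map_smul, map_smul, smul_eq_mul, smul_eq_mul,
      smul_eq_mul]
  have hx1 : ∀ u v, C.T x u v =
      y0 * C.T u v (F'.w 0) + y1 * C.T u v (F'.e 1) + y2 * C.T u v (F'.e 2) := by
    intro u v
    rw [C.rot, hx3]
  have hxx : ∀ u v, C.T u v (x + F'.pi x) =
      2 * y0 * C.T u v (F'.w 0) + y1 * C.T u v (F'.e 1) + y2 * C.T u v (F'.e 2) := by
    intro u v
    rw [map_add, hx3, hpi, map_smul, smul_eq_mul]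
    ring
  have hq : ∀ v, C.T x x v =
      y0 * (y0 * C.T v (F'.w 0) (F'.w 0) + y1 * C.T v (F'.w 0) (F'.e 1) +
        y2 * C.T v (F'.w 0) (F'.e 2)) +
      y1 * (y0 * C.T v (F'.e 1) (F'.w 0) + y1 * C.T v (F'.e 1) (F'.e 1) +
        y2 * C.T v (F'.e 1) (F'.e 2)) +
      y2 * (y0 * C.T v (F'.e 2) (F'.w 0) + y1 * C.T v (F'.e 2) (F'.e 1) +
        y2 * C.T v (F'.e 2) (F'.e 2)) := by
    intro v
    rw [hx1, hx1, hx1, hx1]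
  obtain ⟨c000, k000⟩ : ∃ c, C.T (F'.e 0) (F'.w 0) (F'.w 0) = c := ⟨_, rfl⟩
  have s000 : C.T (F'.w 0) (F'.e 0) (F'.w 0) = c000 := by rw [C.sw, k000]
  obtain ⟨c001, k001⟩ : ∃ c, C.T (F'.e 0) (F'.w 0) (F'.e 1) = c := ⟨_, rfl⟩
  have s001 : C.T (F'.w 0) (F'.e 0) (F'.e 1) = c001 := by rw [C.sw, k001]
  have k010 : C.T (F'.e 0) (F'.e 1) (F'.w 0) = c001 := by rw [C.cy, k001]
  have s010 : C.T (F'.e 1) (F'.e 0) (F'.w 0) = c001 := by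
    rw [C.sw, k010]
  obtain ⟨c002, k002⟩ : ∃ c, C.T (F'.e 0) (F'.w 0) (F'.e 2) = c := ⟨_, rfl⟩
  have s002 : C.T (F'.w 0) (F'.e 0) (F'.e 2) = c002 := by rw [C.sw, k002]
  have k020 : C.T (F'.e 0) (F'.e 2) (F'.w 0) = c002 := by rw [C.cy, k002]
  have s020 : C.T (F'.e 2) (F'.e 0) (F'.w 0) = c002 := by
    rw [C.sw, k020]
  obtain ⟨c011, k011⟩ : ∃ c, C.T (F'.e 0) (F'.e 1) (F'.e 1) = c := ⟨_, rfl⟩
  have s011 : C.T (F'.e 1) (F'.e 0) (F'.e 1) = c011 := by rw [C.sw, k011]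
  obtain ⟨c012, k012⟩ : ∃ c, C.T (F'.e 0) (F'.e 1) (F'.e 2) = c := ⟨_, rfl⟩
  have s012 : C.T (F'.e 1) (F'.e 0) (F'.e 2) = c012 := by rw [C.sw, k012]
  have k021 : C.T (F'.e 0) (F'.e 2) (F'.e 1) = c012 := by rw [C.cy, k012]
  have s021 : C.T (F'.e 2) (F'.e 0) (F'.e 1) = c012 := by
    rw [C.sw, k021]
  obtain ⟨c022, k022⟩ : ∃ c, C.T (F'.e 0) (F'.e 2) (F'.e 2) = c := ⟨_, rfl⟩
  have s022 : C.T (F'.e 2) (F'.e 0) (F'.e 2) = c022 := by rw [C.sw, k022]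
  have k100 : C.T (F'.w 1) (F'.w 0) (F'.w 0) = 0 :=
    hP' _ (F'.w_mem 1) _ (F'.w_mem 0) _ (F'.w_mem 0)
  have s100 : C.T (F'.w 0) (F'.w 1) (F'.w 0) = 0 := by rw [C.sw, k100]
  obtain ⟨c101, k101⟩ : ∃ c, C.T (F'.w 1) (F'.w 0) (F'.e 1) = c := ⟨_, rfl⟩
  have s101 : C.T (F'.w 0) (F'.w 1) (F'.e 1) = c101 := by rw [C.sw, k101]
  have k110 : C.T (F'.w 1) (F'.e 1) (F'.w 0) = c101 := by rw [C.cy, k101]
  have s110 : C.T (F'.e 1) (F'.w 1) (F'.w 0) = c101 := by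
    rw [C.sw, k110]
  obtain ⟨c102, k102⟩ : ∃ c, C.T (F'.w 1) (F'.w 0) (F'.e 2) = c := ⟨_, rfl⟩
  have s102 : C.T (F'.w 0) (F'.w 1) (F'.e 2) = c102 := by rw [C.sw, k102]
  have k120 : C.T (F'.w 1) (F'.e 2) (F'.w 0) = c102 := by rw [C.cy, k102]
  have s120 : C.T (F'.e 2) (F'.w 1) (F'.w 0) = c102 := by
    rw [C.sw, k120]
  obtain ⟨c111, k111⟩ : ∃ c, C.T (F'.w 1) (F'.e 1) (F'.e 1) = c := ⟨_, rfl⟩
  have s111 : C.T (F'.e 1) (F'.w 1) (F'.e 1) = c111 := by rw [C.sw, k111]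
  obtain ⟨c112, k112⟩ : ∃ c, C.T (F'.w 1) (F'.e 1) (F'.e 2) = c := ⟨_, rfl⟩
  have s112 : C.T (F'.e 1) (F'.w 1) (F'.e 2) = c112 := by rw [C.sw, k112]
  have k121 : C.T (F'.w 1) (F'.e 2) (F'.e 1) = c112 := by rw [C.cy, k112]
  have s121 : C.T (F'.e 2) (F'.w 1) (F'.e 1) = c112 := by
    rw [C.sw, k121]
  obtain ⟨c122, k122⟩ : ∃ c, C.T (F'.w 1) (F'.e 2) (F'.e 2) = c := ⟨_, rfl⟩
  have s122 : C.T (F'.e 2) (F'.w 1) (F'.e 2) = c122 := by rw [C.sw, k122]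
  have k200 : C.T (F'.w 2) (F'.w 0) (F'.w 0) = 0 :=
    hP' _ (F'.w_mem 2) _ (F'.w_mem 0) _ (F'.w_mem 0)
  have s200 : C.T (F'.w 0) (F'.w 2) (F'.w 0) = 0 := by rw [C.sw, k200]
  obtain ⟨c201, k201⟩ : ∃ c, C.T (F'.w 2) (F'.w 0) (F'.e 1) = c := ⟨_, rfl⟩
  have s201 : C.T (F'.w 0) (F'.w 2) (F'.e 1) = c201 := by rw [C.sw, k201]
  have k210 : C.T (F'.w 2) (F'.e 1) (F'.w 0) = c201 := by rw [C.cy, k201]
  have s210 : C.T (F'.e 1) (F'.w 2) (F'.w 0) = c201 := by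
    rw [C.sw, k210]
  obtain ⟨c202, k202⟩ : ∃ c, C.T (F'.w 2) (F'.w 0) (F'.e 2) = c := ⟨_, rfl⟩
  have s202 : C.T (F'.w 0) (F'.w 2) (F'.e 2) = c202 := by rw [C.sw, k202]
  have k220 : C.T (F'.w 2) (F'.e 2) (F'.w 0) = c202 := by rw [C.cy, k202]
  have s220 : C.T (F'.e 2) (F'.w 2) (F'.w 0) = c202 := by
    rw [C.sw, k220]
  obtain ⟨c211, k211⟩ : ∃ c, C.T (F'.w 2) (F'.e 1) (F'.e 1) = c := ⟨_, rfl⟩
  have s211 : C.T (F'.e 1) (F'.w 2) (F'.e 1) = c211 := by rw [C.sw, k211]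
  obtain ⟨c212, k212⟩ : ∃ c, C.T (F'.w 2) (F'.e 1) (F'.e 2) = c := ⟨_, rfl⟩
  have s212 : C.T (F'.e 1) (F'.w 2) (F'.e 2) = c212 := by rw [C.sw, k212]
  have k221 : C.T (F'.w 2) (F'.e 2) (F'.e 1) = c212 := by rw [C.cy, k212]
  have s221 : C.T (F'.e 2) (F'.w 2) (F'.e 1) = c212 := by
    rw [C.sw, k221]
  obtain ⟨c222, k222⟩ : ∃ c, C.T (F'.w 2) (F'.e 2) (F'.e 2) = c := ⟨_, rfl⟩
  have s222 : C.T (F'.e 2) (F'.w 2) (F'.e 2) = c222 := by rw [C.sw, k222]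
  have z10 : C.T (F'.e 1) (F'.w 0) (F'.w 0) = 0 := hP _ m1 _ m0 _ m0
  have z11 : C.T (F'.e 1) (F'.w 0) (F'.e 1) = 0 := hP _ m1 _ m0 _ m1
  have z12 : C.T (F'.e 1) (F'.w 0) (F'.e 2) = 0 := hP _ m1 _ m0 _ m2
  have z20 : C.T (F'.e 2) (F'.w 0) (F'.w 0) = 0 := hP _ m2 _ m0 _ m0
  have z21 : C.T (F'.e 2) (F'.w 0) (F'.e 1) = 0 := hP _ m2 _ m0 _ m1
  have z22 : C.T (F'.e 2) (F'.w 0) (F'.e 2) = 0 := hP _ m2 _ m0 _ m2
  have t11 : b11 = c101 := by rw [← q11, s110]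
  have t21 : b21 = c102 := by rw [← q21, s120]
  have t12 : b12 = c201 := by rw [← q12, s210]
  have t22 : b22 = c202 := by rw [← q22, s220]
  have t1 : a1 = c001 := by rw [← r1, k001]
  have t2 : a2 = c002 := by rw [← r2, k002]
  have hm0 : (![F'.w 0, F'.e 1, F'.e 2] : Fin 3 → V) 0 = F'.w 0 := rfl
  have hm1 : (![F'.w 0, F'.e 1, F'.e 2] : Fin 3 → V) 1 = F'.e 1 := rfl
  have hm2 : (![F'.w 0, F'.e 1, F'.e 2] : Fin 3 → V) 2 = F'.e 2 := rfl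
  have hn0 : (![F'.e 0, F'.w 1, F'.w 2] : Fin 3 → V) 0 = F'.e 0 := rfl
  have hn1 : (![F'.e 0, F'.w 1, F'.w 2] : Fin 3 → V) 1 = F'.w 1 := rfl
  have hn2 : (![F'.e 0, F'.w 1, F'.w 2] : Fin 3 → V) 2 = F'.w 2 := rfl
  unfold Fr.N Fr.D
  rw [Matrix.det_fin_three, Matrix.det_fin_three]
  simp only [Matrix.of_apply, h.he, h.hw, hm0, hm1, hm2, hn0, hn1, hn2]
  simp only [LinearMap.add_apply, LinearMap.smulRight_apply, LinearMap.sub_apply,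
    LinearMap.smul_apply, BB_apply, hxx, hy]
  simp only [map_add (C.T x x), map_smul (C.T x x), smul_eq_mul, hq, hx1, hx3]
  simp only [k000, s000, k001, s001, k010, s010, k002, s002, k020, s020, k011, s011, k012,
    s012, k021, s021, k022, s022, k100, s100, k101, s101, k110, s110, k102, s102, k120, s120,
    k111, s111, k112, s112, k121, s121, k122, s122, k200, s200, k201, s201, k210, s210, k202,
    s202, k220, s220, k211, s211, k212, s212, k221, s221, k222, s222, z10, z11, z12, z20, z21,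
    z22]
  rw [t11, t12, t21, t22, t1, t2]
  ring

theorem adapted_D (C : Cub V) {F F' : Fr V} (h : Adapted F F')
    (hP : ∀ x ∈ F.P, ∀ y ∈ F.P, ∀ z ∈ F.P, C.T x y z = 0)
    (hP' : ∀ x ∈ F'.P, ∀ y ∈ F'.P, ∀ z ∈ F'.P, C.T x y z = 0) :
    ∃ A : V →ₗ[ℂ] V, ∀ x ∈ F.P, F.D C x -
      C.T (F'.e 0) (F'.w 0) (F'.w 0) * F'.y 0 x *
        (C.T (F'.e 1) (F'.w 1) (x + F'.pi x) * C.T (F'.e 2) (F'.w 2) (x + F'.pi x) -
          C.T (F'.e 1) (F'.w 2) (x + F'.pi x) * C.T (F'.e 2) (F'.w 1) (x + F'.pi x)) =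
      C.T x x (A x) := by
  have m0 : F'.w 0 ∈ F.P := by
    have := F.w_mem 0
    rw [h.hw] at this
    exact this
  have m1 : F'.e 1 ∈ F.P := by
    have := F.w_mem 1
    rw [h.hw] at this
    exact this
  have m2 : F'.e 2 ∈ F.P := by
    have := F.w_mem 2
    rw [h.hw] at this
    exact this
  obtain ⟨b11, q11⟩ : ∃ c, C.T (F'.e 1) (F'.w 1) (F'.w 0) = c := ⟨_, rfl⟩
  obtain ⟨b12, q12⟩ : ∃ c, C.T (F'.e 1) (F'.w 2) (F'.w 0) = c := ⟨_, rfl⟩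
  obtain ⟨b21, q21⟩ : ∃ c, C.T (F'.e 2) (F'.w 1) (F'.w 0) = c := ⟨_, rfl⟩
  obtain ⟨b22, q22⟩ : ∃ c, C.T (F'.e 2) (F'.w 2) (F'.w 0) = c := ⟨_, rfl⟩
  obtain ⟨a1, r1⟩ : ∃ c, C.T (F'.e 0) (F'.w 0) (F'.e 1) = c := ⟨_, rfl⟩
  obtain ⟨a2, r2⟩ : ∃ c, C.T (F'.e 0) (F'.w 0) (F'.e 2) = c := ⟨_, rfl⟩
  refine ⟨(b21 • BB C F' 1 2 - b11 • BB C F' 2 2 -
      (b22 • C.T (F'.e 1) (F'.w 1) - b12 • C.T (F'.e 2) (F'.w 1))).smulRight (F'.e 0) +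
    (a1 • BB C F' 2 2 - a2 • BB C F' 1 2 +
      (b22 • C.T (F'.e 1) (F'.e 0) - b12 • C.T (F'.e 2) (F'.e 0))).smulRight (F'.w 1) +
    (a2 • BB C F' 1 1 - a1 • BB C F' 2 1 -
      (b21 • C.T (F'.e 1) (F'.e 0) - b11 • C.T (F'.e 2) (F'.e 0))).smulRight (F'.w 2),
    fun x hxP => ?_⟩
  obtain ⟨y0, y1, y2, hx⟩ : ∃ y0 y1 y2 : ℂ,
      x = y0 • F'.w 0 + y1 • F'.e 1 + y2 • F'.e 2 := by
    refine ⟨F.y 0 x, F.y 1 x, F.y 2 x, ?_⟩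
    have h1 := (F.mem_iff x).1 hxP
    rw [Fr.pi, LinearMap.sum_apply, Fin.sum_univ_three, h.hw] at h1
    exact h1.symm
  have hpi : F'.pi x = y0 • F'.w 0 := by
    rw [hx, map_add, map_add, map_smul, map_smul, map_smul, F'.pi_w, F'.pi_e, F'.pi_e,
      smul_zero, smul_zero, add_zero, add_zero]
  have hy : F'.y 0 x = y0 := by
    rw [hx, map_add, map_add, map_smul, map_smul, map_smul, F'.y_w, F'.y_e, F'.y_e, if_pos rfl,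
      smul_zero, smul_zero, add_zero, add_zero, smul_eq_mul, mul_one]
  have hx3 : ∀ u v, C.T u v x =
      y0 * C.T u v (F'.w 0) + y1 * C.T u v (F'.e 1) + y2 * C.T u v (F'.e 2) := by
    intro u v
    rw [hx, map_add, map_add, map_smul, map_smul, map_smul, smul_eq_mul, smul_eq_mul,
      smul_eq_mul]
  have hx1 : ∀ u v, C.T x u v =
      y0 * C.T u v (F'.w 0) + y1 * C.T u v (F'.e 1) + y2 * C.T u v (F'.e 2) := by
    intro u v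
    rw [C.rot, hx3]
  have hxx : ∀ u v, C.T u v (x + F'.pi x) =
      2 * y0 * C.T u v (F'.w 0) + y1 * C.T u v (F'.e 1) + y2 * C.T u v (F'.e 2) := by
    intro u v
    rw [map_add, hx3, hpi, map_smul, smul_eq_mul]
    ring
  have hq : ∀ v, C.T x x v =
      y0 * (y0 * C.T v (F'.w 0) (F'.w 0) + y1 * C.T v (F'.w 0) (F'.e 1) +
        y2 * C.T v (F'.w 0) (F'.e 2)) +
      y1 * (y0 * C.T v (F'.e 1) (F'.w 0) + y1 * C.T v (F'.e 1) (F'.e 1) +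
        y2 * C.T v (F'.e 1) (F'.e 2)) +
      y2 * (y0 * C.T v (F'.e 2) (F'.w 0) + y1 * C.T v (F'.e 2) (F'.e 1) +
        y2 * C.T v (F'.e 2) (F'.e 2)) := by
    intro v
    rw [hx1, hx1, hx1, hx1]
  obtain ⟨c000, k000⟩ : ∃ c, C.T (F'.e 0) (F'.w 0) (F'.w 0) = c := ⟨_, rfl⟩
  have s000 : C.T (F'.w 0) (F'.e 0) (F'.w 0) = c000 := by rw [C.sw, k000]
  obtain ⟨c001, k001⟩ : ∃ c, C.T (F'.e 0) (F'.w 0) (F'.e 1) = c := ⟨_, rfl⟩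
  have s001 : C.T (F'.w 0) (F'.e 0) (F'.e 1) = c001 := by rw [C.sw, k001]
  have k010 : C.T (F'.e 0) (F'.e 1) (F'.w 0) = c001 := by rw [C.cy, k001]
  have s010 : C.T (F'.e 1) (F'.e 0) (F'.w 0) = c001 := by
    rw [C.sw, k010]
  obtain ⟨c002, k002⟩ : ∃ c, C.T (F'.e 0) (F'.w 0) (F'.e 2) = c := ⟨_, rfl⟩
  have s002 : C.T (F'.w 0) (F'.e 0) (F'.e 2) = c002 := by rw [C.sw, k002]
  have k020 : C.T (F'.e 0) (F'.e 2) (F'.w 0) = c002 := by rw [C.cy, k002]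
  have s020 : C.T (F'.e 2) (F'.e 0) (F'.w 0) = c002 := by
    rw [C.sw, k020]
  obtain ⟨c011, k011⟩ : ∃ c, C.T (F'.e 0) (F'.e 1) (F'.e 1) = c := ⟨_, rfl⟩
  have s011 : C.T (F'.e 1) (F'.e 0) (F'.e 1) = c011 := by rw [C.sw, k011]
  obtain ⟨c012, k012⟩ : ∃ c, C.T (F'.e 0) (F'.e 1) (F'.e 2) = c := ⟨_, rfl⟩
  have s012 : C.T (F'.e 1) (F'.e 0) (F'.e 2) = c012 := by rw [C.sw, k012]
  have k021 : C.T (F'.e 0) (F'.e 2) (F'.e 1) = c012 := by rw [C.cy, k012]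
  have s021 : C.T (F'.e 2) (F'.e 0) (F'.e 1) = c012 := by
    rw [C.sw, k021]
  obtain ⟨c022, k022⟩ : ∃ c, C.T (F'.e 0) (F'.e 2) (F'.e 2) = c := ⟨_, rfl⟩
  have s022 : C.T (F'.e 2) (F'.e 0) (F'.e 2) = c022 := by rw [C.sw, k022]
  have k100 : C.T (F'.w 1) (F'.w 0) (F'.w 0) = 0 :=
    hP' _ (F'.w_mem 1) _ (F'.w_mem 0) _ (F'.w_mem 0)
  have s100 : C.T (F'.w 0) (F'.w 1) (F'.w 0) = 0 := by rw [C.sw, k100]
  obtain ⟨c101, k101⟩ : ∃ c, C.T (F'.w 1) (F'.w 0) (F'.e 1) = c := ⟨_, rfl⟩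
  have s101 : C.T (F'.w 0) (F'.w 1) (F'.e 1) = c101 := by rw [C.sw, k101]
  have k110 : C.T (F'.w 1) (F'.e 1) (F'.w 0) = c101 := by rw [C.cy, k101]
  have s110 : C.T (F'.e 1) (F'.w 1) (F'.w 0) = c101 := by
    rw [C.sw, k110]
  obtain ⟨c102, k102⟩ : ∃ c, C.T (F'.w 1) (F'.w 0) (F'.e 2) = c := ⟨_, rfl⟩
  have s102 : C.T (F'.w 0) (F'.w 1) (F'.e 2) = c102 := by rw [C.sw, k102]
  have k120 : C.T (F'.w 1) (F'.e 2) (F'.w 0) = c102 := by rw [C.cy, k102]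
  have s120 : C.T (F'.e 2) (F'.w 1) (F'.w 0) = c102 := by
    rw [C.sw, k120]
  obtain ⟨c111, k111⟩ : ∃ c, C.T (F'.w 1) (F'.e 1) (F'.e 1) = c := ⟨_, rfl⟩
  have s111 : C.T (F'.e 1) (F'.w 1) (F'.e 1) = c111 := by rw [C.sw, k111]
  obtain ⟨c112, k112⟩ : ∃ c, C.T (F'.w 1) (F'.e 1) (F'.e 2) = c := ⟨_, rfl⟩
  have s112 : C.T (F'.e 1) (F'.w 1) (F'.e 2) = c112 := by rw [C.sw, k112]
  have k121 : C.T (F'.w 1) (F'.e 2) (F'.e 1) = c112 := by rw [C.cy, k112]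
  have s121 : C.T (F'.e 2) (F'.w 1) (F'.e 1) = c112 := by
    rw [C.sw, k121]
  obtain ⟨c122, k122⟩ : ∃ c, C.T (F'.w 1) (F'.e 2) (F'.e 2) = c := ⟨_, rfl⟩
  have s122 : C.T (F'.e 2) (F'.w 1) (F'.e 2) = c122 := by rw [C.sw, k122]
  have k200 : C.T (F'.w 2) (F'.w 0) (F'.w 0) = 0 :=
    hP' _ (F'.w_mem 2) _ (F'.w_mem 0) _ (F'.w_mem 0)
  have s200 : C.T (F'.w 0) (F'.w 2) (F'.w 0) = 0 := by rw [C.sw, k200]
  obtain ⟨c201, k201⟩ : ∃ c, C.T (F'.w 2) (F'.w 0) (F'.e 1) = c := ⟨_, rfl⟩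
  have s201 : C.T (F'.w 0) (F'.w 2) (F'.e 1) = c201 := by rw [C.sw, k201]
  have k210 : C.T (F'.w 2) (F'.e 1) (F'.w 0) = c201 := by rw [C.cy, k201]
  have s210 : C.T (F'.e 1) (F'.w 2) (F'.w 0) = c201 := by
    rw [C.sw, k210]
  obtain ⟨c202, k202⟩ : ∃ c, C.T (F'.w 2) (F'.w 0) (F'.e 2) = c := ⟨_, rfl⟩
  have s202 : C.T (F'.w 0) (F'.w 2) (F'.e 2) = c202 := by rw [C.sw, k202]
  have k220 : C.T (F'.w 2) (F'.e 2) (F'.w 0) = c202 := by rw [C.cy, k202]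
  have s220 : C.T (F'.e 2) (F'.w 2) (F'.w 0) = c202 := by
    rw [C.sw, k220]
  obtain ⟨c211, k211⟩ : ∃ c, C.T (F'.w 2) (F'.e 1) (F'.e 1) = c := ⟨_, rfl⟩
  have s211 : C.T (F'.e 1) (F'.w 2) (F'.e 1) = c211 := by rw [C.sw, k211]
  obtain ⟨c212, k212⟩ : ∃ c, C.T (F'.w 2) (F'.e 1) (F'.e 2) = c := ⟨_, rfl⟩
  have s212 : C.T (F'.e 1) (F'.w 2) (F'.e 2) = c212 := by rw [C.sw, k212]
  have k221 : C.T (F'.w 2) (F'.e 2) (F'.e 1) = c212 := by rw [C.cy, k212]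
  have s221 : C.T (F'.e 2) (F'.w 2) (F'.e 1) = c212 := by
    rw [C.sw, k221]
  obtain ⟨c222, k222⟩ : ∃ c, C.T (F'.w 2) (F'.e 2) (F'.e 2) = c := ⟨_, rfl⟩
  have s222 : C.T (F'.e 2) (F'.w 2) (F'.e 2) = c222 := by rw [C.sw, k222]
  have z10 : C.T (F'.e 1) (F'.w 0) (F'.w 0) = 0 := hP _ m1 _ m0 _ m0
  have z11 : C.T (F'.e 1) (F'.w 0) (F'.e 1) = 0 := hP _ m1 _ m0 _ m1
  have z12 : C.T (F'.e 1) (F'.w 0) (F'.e 2) = 0 := hP _ m1 _ m0 _ m2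
  have z20 : C.T (F'.e 2) (F'.w 0) (F'.w 0) = 0 := hP _ m2 _ m0 _ m0
  have z21 : C.T (F'.e 2) (F'.w 0) (F'.e 1) = 0 := hP _ m2 _ m0 _ m1
  have z22 : C.T (F'.e 2) (F'.w 0) (F'.e 2) = 0 := hP _ m2 _ m0 _ m2
  have t11 : b11 = c101 := by rw [← q11, s110]
  have t21 : b21 = c102 := by rw [← q21, s120]
  have t12 : b12 = c201 := by rw [← q12, s210]
  have t22 : b22 = c202 := by rw [← q22, s220]
  have t1 : a1 = c001 := by rw [← r1, k001]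
  have t2 : a2 = c002 := by rw [← r2, k002]
  have hm0 : (![F'.w 0, F'.e 1, F'.e 2] : Fin 3 → V) 0 = F'.w 0 := rfl
  have hm1 : (![F'.w 0, F'.e 1, F'.e 2] : Fin 3 → V) 1 = F'.e 1 := rfl
  have hm2 : (![F'.w 0, F'.e 1, F'.e 2] : Fin 3 → V) 2 = F'.e 2 := rfl
  have hn0 : (![F'.e 0, F'.w 1, F'.w 2] : Fin 3 → V) 0 = F'.e 0 := rfl
  have hn1 : (![F'.e 0, F'.w 1, F'.w 2] : Fin 3 → V) 1 = F'.w 1 := rfl
  have hn2 : (![F'.e 0, F'.w 1, F'.w 2] : Fin 3 → V) 2 = F'.w 2 := rfl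
  unfold Fr.D
  rw [Matrix.det_fin_three]
  simp only [Matrix.of_apply, h.he, h.hw, hm0, hm1, hm2, hn0, hn1, hn2]
  simp only [LinearMap.add_apply, LinearMap.smulRight_apply, LinearMap.sub_apply,
    LinearMap.smul_apply, BB_apply, hxx, hy]
  simp only [map_add (C.T x x), map_smul (C.T x x), smul_eq_mul, hq, hx1, hx3]
  simp only [k000, s000, k001, s001, k010, s010, k002, s002, k020, s020, k011, s011, k012,
    s012, k021, s021, k022, s022, k100, s100, k101, s101, k110, s110, k102, s102, k120, s120,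
    k111, s111, k112, s112, k121, s121, k122, s122, k200, s200, k201, s201, k210, s210, k202,
    s202, k220, s220, k211, s211, k212, s212, k221, s221, k222, s222, z10, z11, z12, z20, z21,
    z22]
  rw [t11, t12, t21, t22, t1, t2]
  ring

end Pool.Agent.P28
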