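import Pool.Agent.P28.Factor

set_option autoImplicit false

/-!
# P28 A04: the third plane

`Triple C P₁ P₂ P₃`: three different planes of `X` in one 4-dimensional space `N = P₁ + P₂`, which
are all the zeros of the cubic form in `N`.

PROOF of `third`. Let `l₁, l₂, l₃` be as in `factor` and `P₃ = {x ∈ N : l₃ x = 0}`. As `l₃` is not
`0` on `N`, `dim P₃ = 3`; `T x x x = 0` on `P₃`, so `P₃` is a plane of `X` (`Cub.polar`).
`zero`: `T x x x = l₁ x l₂ x l₃ x`. `s₁₂, s₁₃, s₂₃`: `factor_polar`, two of the three values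
`l_i x` are `0`.
`P₃ ≠ P₁`: if `P₃ = P₁` then for `x ∈ P₁` both `l₁ x` and `l₃ x` are `0`, so `T x x y = 0` for all
`y ∈ N`, against `no_codim_two` (`M = P₁`, `H = N`). In the same way `P₃ ≠ P₂`.
`Adj P₁ P₃`: both have dimension 3 in the 4-dimensional `N`, so the intersection has dimension
`≥ 2`, and it is not `3` because they are different. `P₁ ⊔ P₃ = N`: dimension `3 + 3 - 2 = 4`.

`Triple.swap`, `Triple.rot`: the structure is symmetric (rewrite the sums by `e₁₃`, `e₂₃`,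
`sup_comm`).

`Triple.eq_of_le`: a plane `P ≤ N` of `X` is contained in the union of `P₁, P₂, P₃` (by `zero`);
a subspace of a vector space over an infinite field which is contained in a finite union of
subspaces is contained in one of them (Mathlib: `Submodule` analogue of
`Subspace.biUnion_ne_univ_of_top_notMem`, or by hand: choose `x ∈ P ∖ P₁`, ... ; simplest: if
`P ⊓ P_i ≠ P` for all `i` use `Subspace.exists_eq_top_of_iUnion_eq_univ` (or `top_mem_of_...`) in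
the space `P`); then `P = P_i` by dimension.
-/

namespace Pool.Agent.P28

open Module

variable {V : Type} [AddCommGroup V] [Module ℂ V] [FiniteDimensional ℂ V]

/-- Three planes of the cubic in one 4-dimensional space. -/
structure Triple (C : Cub V) (P₁ P₂ P₃ : Submodule ℂ V) : Prop where
  p₁ : C.IsPlane P₁
  p₂ : C.IsPlane P₂
  p₃ : C.IsPlane P₃
  a₁₂ : Adj P₁ P₂
  a₁₃ : Adj P₁ P₃
  a₂₃ : Adj P₂ P₃
  fr : finrank ℂ (P₁ ⊔ P₂ : Submodule ℂ V) = 4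
  e₁₃ : P₁ ⊔ P₃ = P₁ ⊔ P₂
  e₂₃ : P₂ ⊔ P₃ = P₁ ⊔ P₂
  zero : ∀ x ∈ P₁ ⊔ P₂, C.T x x x = 0 → x ∈ P₁ ∨ x ∈ P₂ ∨ x ∈ P₃
  s₁₂ : ∀ x ∈ P₁, x ∈ P₂ → ∀ y ∈ P₁ ⊔ P₂, C.T x x y = 0
  s₁₃ : ∀ x ∈ P₁, x ∈ P₃ → ∀ y ∈ P₁ ⊔ P₂, C.T x x y = 0
  s₂₃ : ∀ x ∈ P₂, x ∈ P₃ → ∀ y ∈ P₁ ⊔ P₂, C.T x x y = 0

private theorem third_ker (N : Submodule ℂ V) (l : V →ₗ[ℂ] ℂ) {x : V} (hx : x ∈ N)
    (h : l x ≠ 0) : finrank ℂ (N ⊓ LinearMap.ker l : Submodule ℂ V) + 1 = finrank ℂ N := by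
  have h1 := LinearMap.finrank_range_add_finrank_ker (l.domRestrict N)
  have h2 : l.domRestrict N ≠ 0 := by
    intro h3
    exact h (congrArg (fun f : N →ₗ[ℂ] ℂ => f ⟨x, hx⟩) h3)
  have h3 : LinearMap.range (l.domRestrict N) = ⊤ :=
    LinearMap.range_eq_top.mpr (LinearMap.surjective h2)
  have h4 : (LinearMap.ker (l.domRestrict N)).map N.subtype = N ⊓ LinearMap.ker l := by
    ext y
    constructor
    · rintro ⟨z, hz, rfl⟩
      exact ⟨z.2, hz⟩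
    · rintro ⟨hy, hy'⟩
      exact ⟨⟨y, hy⟩, hy', rfl⟩
  rw [h3, finrank_top, finrank_self] at h1
  rw [← h4, Submodule.finrank_map_subtype_eq, add_comm]
  exact h1

private theorem third_adj {A B N : Submodule ℂ V} (hA : finrank ℂ A = 3) (hB : finrank ℂ B = 3)
    (hAN : A ≤ N) (hBN : B ≤ N) (hN : finrank ℂ N = 4) (hne : A ≠ B) : Adj A B ∧ A ⊔ B = N := by
  have h1 := Submodule.finrank_sup_add_finrank_inf_eq A B
  have h2 : finrank ℂ (A ⊔ B : Submodule ℂ V) ≤ 4 :=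
    (Submodule.finrank_mono (sup_le hAN hBN)).trans_eq hN
  have h3 : finrank ℂ (A ⊓ B : Submodule ℂ V) ≤ 3 :=
    (Submodule.finrank_mono inf_le_left).trans_eq hA
  have h4 : finrank ℂ (A ⊓ B : Submodule ℂ V) ≠ 3 := by
    intro h4
    apply hne
    rw [← Submodule.eq_of_le_of_finrank_eq (inf_le_left : A ⊓ B ≤ A) (h4.trans hA.symm)]
    exact Submodule.eq_of_le_of_finrank_eq (inf_le_right : A ⊓ B ≤ B) (h4.trans hB.symm)
  rw [hA, hB] at h1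
  refine ⟨⟨hne, by omega⟩, Submodule.eq_of_le_of_finrank_eq (sup_le hAN hBN) ?_⟩
  rw [hN]
  omega

theorem third (C : Cub V) (hs : C.Smooth) (hV : finrank ℂ V = 6) {P₁ P₂ : Submodule ℂ V}
    (h₁ : C.IsPlane P₁) (h₂ : C.IsPlane P₂) (h : Adj P₁ P₂) : ∃ P₃, Triple C P₁ P₂ P₃ := by
  have hfr := finrank_sup_of_adj h₁.1 h₂.1 h
  obtain ⟨l₁, l₂, l₃, hT, hl₁, hl₂, x0, hx0, hx0'⟩ := factor C hs hV h₁ h₂ h
  have hpol := factor_polar C hT
  obtain ⟨P₃, hP₃⟩ : ∃ P₃ : Submodule ℂ V, P₃ = (P₁ ⊔ P₂) ⊓ LinearMap.ker l₃ := ⟨_, rfl⟩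
  have hm₃ : ∀ x, x ∈ P₃ ↔ x ∈ P₁ ⊔ P₂ ∧ l₃ x = 0 := by
    intro x
    rw [hP₃, Submodule.mem_inf, LinearMap.mem_ker]
  have hle₃ : P₃ ≤ P₁ ⊔ P₂ := by
    rw [hP₃]
    exact inf_le_left
  have hdim : finrank ℂ P₃ = 3 := by
    have h1 := third_ker (P₁ ⊔ P₂) l₃ hx0 hx0'
    rw [← hP₃, hfr] at h1
    omega
  have hp₃ : C.IsPlane P₃ := ⟨hdim, C.polar fun x hx => by
    obtain ⟨h3, h4⟩ := (hm₃ x).mp hx
    rw [hT x h3, h4, mul_zero]⟩
  have hs₁₂ : ∀ x ∈ P₁, x ∈ P₂ → ∀ y ∈ P₁ ⊔ P₂, C.T x x y = 0 := by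
    intro x hx hx' y hy
    have hxN : x ∈ P₁ ⊔ P₂ := Submodule.mem_sup_left hx
    have h3 := hpol x hxN y hy
    rw [(hl₁ x hxN).mpr hx, (hl₂ x hxN).mpr hx'] at h3
    have h4 : 3 * C.T x x y = 0 := by rw [h3]; ring
    exact (mul_eq_zero.mp h4).resolve_left (by norm_num)
  have hs₁₃ : ∀ x ∈ P₁, x ∈ P₃ → ∀ y ∈ P₁ ⊔ P₂, C.T x x y = 0 := by
    intro x hx hx' y hy
    have hxN : x ∈ P₁ ⊔ P₂ := Submodule.mem_sup_left hx
    have h3 := hpol x hxN y hy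
    rw [(hl₁ x hxN).mpr hx, ((hm₃ x).mp hx').2] at h3
    have h4 : 3 * C.T x x y = 0 := by rw [h3]; ring
    exact (mul_eq_zero.mp h4).resolve_left (by norm_num)
  have hs₂₃ : ∀ x ∈ P₂, x ∈ P₃ → ∀ y ∈ P₁ ⊔ P₂, C.T x x y = 0 := by
    intro x hx hx' y hy
    have hxN : x ∈ P₁ ⊔ P₂ := Submodule.mem_sup_right hx
    have h3 := hpol x hxN y hy
    rw [(hl₂ x hxN).mpr hx, ((hm₃ x).mp hx').2] at h3
    have h4 : 3 * C.T x x y = 0 := by rw [h3]; ring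
    exact (mul_eq_zero.mp h4).resolve_left (by norm_num)
  have hne₁ : P₁ ≠ P₃ := by
    intro he
    exact no_codim_two C hs hV P₁ (P₁ ⊔ P₂) h₁.1.ge hfr.ge fun x hx y hy =>
      hs₁₃ x hx (he ▸ hx) y hy
  have hne₂ : P₂ ≠ P₃ := by
    intro he
    exact no_codim_two C hs hV P₂ (P₁ ⊔ P₂) h₂.1.ge hfr.ge fun x hx y hy =>
      hs₂₃ x hx (he ▸ hx) y hy
  obtain ⟨ha₁₃, he₁₃⟩ := third_adj h₁.1 hdim le_sup_left hle₃ hfr hne₁
  obtain ⟨ha₂₃, he₂₃⟩ := third_adj h₂.1 hdim le_sup_right hle₃ hfr hne₂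
  refine ⟨P₃, h₁, h₂, hp₃, h, ha₁₃, ha₂₃, hfr, he₁₃, he₂₃, fun x hx hx0 => ?_, hs₁₂, hs₁₃,
    hs₂₃⟩
  rw [hT x hx] at hx0
  rcases mul_eq_zero.mp hx0 with h3 | h3
  · rcases mul_eq_zero.mp h3 with h4 | h4
    · exact Or.inl ((hl₁ x hx).mp h4)
    · exact Or.inr (Or.inl ((hl₂ x hx).mp h4))
  · exact Or.inr (Or.inr ((hm₃ x).mpr ⟨hx, h3⟩))

theorem Triple.swap {C : Cub V} {P₁ P₂ P₃ : Submodule ℂ V} (h : Triple C P₁ P₂ P₃) :
    Triple C P₂ P₁ P₃ := by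
  have e : P₂ ⊔ P₁ = P₁ ⊔ P₂ := sup_comm _ _
  exact
    { p₁ := h.p₂
      p₂ := h.p₁
      p₃ := h.p₃
      a₁₂ := h.a₁₂.symm
      a₁₃ := h.a₂₃
      a₂₃ := h.a₁₃
      fr := by rw [e]; exact h.fr
      e₁₃ := by rw [e]; exact h.e₂₃
      e₂₃ := by rw [e]; exact h.e₁₃
      zero := fun x hx h0 => by
        rw [e] at hx
        rcases h.zero x hx h0 with h1 | h1 | h1
        · exact Or.inr (Or.inl h1)
        · exact Or.inl h1
        · exact Or.inr (Or.inr h1)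
      s₁₂ := fun x hx hx' y hy => h.s₁₂ x hx' hx y (by rw [← e]; exact hy)
      s₁₃ := fun x hx hx' y hy => h.s₂₃ x hx hx' y (by rw [← e]; exact hy)
      s₂₃ := fun x hx hx' y hy => h.s₁₃ x hx hx' y (by rw [← e]; exact hy) }

theorem Triple.rot {C : Cub V} {P₁ P₂ P₃ : Submodule ℂ V} (h : Triple C P₁ P₂ P₃) :
    Triple C P₂ P₃ P₁ := by
  have e : P₂ ⊔ P₃ = P₁ ⊔ P₂ := h.e₂₃
  exact
    { p₁ := h.p₂
      p₂ := h.p₃
      p₃ := h.p₁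
      a₁₂ := h.a₂₃
      a₁₃ := h.a₁₂.symm
      a₂₃ := h.a₁₃.symm
      fr := by rw [e]; exact h.fr
      e₁₃ := by rw [e]; exact sup_comm _ _
      e₂₃ := by rw [e, sup_comm]; exact h.e₁₃
      zero := fun x hx h0 => by
        rw [e] at hx
        rcases h.zero x hx h0 with h1 | h1 | h1
        · exact Or.inr (Or.inr h1)
        · exact Or.inl h1
        · exact Or.inr (Or.inl h1)
      s₁₂ := fun x hx hx' y hy => h.s₂₃ x hx hx' y (by rw [← e]; exact hy)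
      s₁₃ := fun x hx hx' y hy => h.s₁₂ x hx' hx y (by rw [← e]; exact hy)
      s₂₃ := fun x hx hx' y hy => h.s₁₃ x hx' hx y (by rw [← e]; exact hy) }

theorem Triple.eq_of_le {C : Cub V} {P₁ P₂ P₃ : Submodule ℂ V} (h : Triple C P₁ P₂ P₃)
    {P : Submodule ℂ V} (hP : C.IsPlane P) (hle : P ≤ P₁ ⊔ P₂) : P = P₁ ∨ P = P₂ ∨ P = P₃ := by
  have hcov : ⋃ i : Fin 3, ((![P₁, P₂, P₃] i).comap P.subtype : Set P) = Set.univ := by
    refine Set.eq_univ_of_forall fun x => Set.mem_iUnion.mpr ?_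
    rcases h.zero x (hle x.2) (hP.2 x x.2 x x.2 x x.2) with h1 | h1 | h1
    · exact ⟨0, h1⟩
    · exact ⟨1, h1⟩
    · exact ⟨2, h1⟩
  obtain ⟨i, hi⟩ := Subspace.exists_eq_top_of_iUnion_eq_univ hcov
  have key : ∀ Q : Submodule ℂ V, C.IsPlane Q → Q.comap P.subtype = ⊤ → P = Q := by
    intro Q hQ hQt
    refine Submodule.eq_of_le_of_finrank_eq (fun x hx => ?_) (hP.1.trans hQ.1.symm)
    have h1 : (⟨x, hx⟩ : P) ∈ Q.comap P.subtype := by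
      rw [hQt]
      trivial
    exact h1
  fin_cases i
  · exact Or.inl (key _ h.p₁ hi)
  · exact Or.inr (Or.inl (key _ h.p₂ hi))
  · exact Or.inr (Or.inr (key _ h.p₃ hi))

end Pool.Agent.P28
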