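import Pool.Agent.P28.SpecBd
import Pool.Agent.P28.Third

set_option autoImplicit false

/-!
# P28 B18: a plane is adjacent to at most 26 planes

PROOF of `adj_bound`. `P` a plane of the smooth cubic `C` on the 6-dimensional space `V`. Choose a
linear equivalence `g : VV ≃ₗ V` with `Submodule.map g P0 = P` (bases of `P0`, `P` and of
complements). Pull back: `C' : Cub VV`, `C'.T x y z = C.T (g x) (g y) (g z)`, smooth, in standard
position. Let `S` be a finite set of planes of `C` adjacent to `P`. For `Q ∈ S` the space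
`P ⊔ Q` has dimension 4 (`finrank_sup_of_adj`), so `g⁻¹ (P ⊔ Q) = P0 ⊔ span {(0, u)}` for some
`u = u_Q ≠ 0`, and `Spec C' u`. Two planes `Q, Q'` with proportional `u_Q, u_Q'` span with `P` the
same space; by `third` and `Triple.eq_of_le` the planes of `C` in this space are `P, Q` and one
third plane, so each class of proportional `u_Q` comes from at most 2 planes `Q`. Choosing one
representative in each class gives a set of pairwise nonproportional special points, at most 13 by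
`spec_bound`. So `S.card ≤ 26`. As this holds for every finite `S`, the set of planes adjacent to
`P` is finite with at most 26 elements (`Set.Infinite.exists_subset_card_eq`).
-/

namespace Pool.Agent.P28

open Module

variable {V : Type} [AddCommGroup V] [Module ℂ V] [FiniteDimensional ℂ V]

private theorem exists_g {P : Submodule ℂ V} (hV : finrank ℂ V = 6) (hP : finrank ℂ P = 3) :
    ∃ g : VV ≃ₗ[ℂ] V, ∀ y, g y ∈ P ↔ y.2 = 0 := by
  obtain ⟨Q, hQ⟩ := P.exists_isCompl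
  have h1 := Submodule.finrank_add_eq_of_isCompl hQ
  have h2 : finrank ℂ Q = 3 := by omega
  have e₁ : (Fin 3 → ℂ) ≃ₗ[ℂ] P := LinearEquiv.ofFinrankEq _ _ (by rw [hP]; simp)
  have e₂ : (Fin 3 → ℂ) ≃ₗ[ℂ] Q := LinearEquiv.ofFinrankEq _ _ (by rw [h2]; simp)
  refine ⟨(e₁.prodCongr e₂).trans (Submodule.prodEquivOfIsCompl P Q hQ), fun y => ?_⟩
  have h3 : ((e₁.prodCongr e₂).trans (Submodule.prodEquivOfIsCompl P Q hQ)) y =
      (e₁ y.1 : V) + (e₂ y.2 : V) := rfl
  rw [h3]
  constructor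
  · intro h4
    have h5 : (e₂ y.2 : V) ∈ P := by
      have h6 := P.sub_mem h4 (e₁ y.1).2
      rwa [add_sub_cancel_left] at h6
    have h7 : (e₂ y.2 : V) = 0 :=
      Submodule.disjoint_def.mp hQ.disjoint _ h5 (e₂ y.2).2
    have h8 : e₂ y.2 = 0 := Subtype.ext h7
    exact e₂.map_eq_zero_iff.mp h8
  · intro h4
    rw [h4, map_zero]
    simp

private theorem ab_mem_P0 (y : VV) : y ∈ P0 ↔ y.2 = 0 := by
  constructor
  · rintro ⟨x, rfl⟩
    rfl
  · intro h
    exact ⟨y.1, Prod.ext rfl h.symm⟩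

private theorem ab_mem_Q (u : Fin 3 → ℂ) (y : VV) :
    y ∈ P0 ⊔ Submodule.span ℂ {((0, u) : VV)} ↔ ∃ c : ℂ, y.2 = c • u := by
  rw [Submodule.mem_sup]
  constructor
  · rintro ⟨p, hp, q, hq, rfl⟩
    obtain ⟨c, rfl⟩ := Submodule.mem_span_singleton.1 hq
    refine ⟨c, ?_⟩
    have hp' := (ab_mem_P0 p).1 hp
    rw [Prod.snd_add, hp', zero_add, Prod.smul_snd]
  · rintro ⟨c, hc⟩
    refine ⟨(y.1, 0), (ab_mem_P0 _).2 rfl, c • (0, u), Submodule.mem_span_singleton.2 ⟨c, rfl⟩, ?_⟩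
    ext i
    · simp
    · simp [hc]

/-- The pulled back cubic. -/
private def pb' (C : Cub V) (g : VV ≃ₗ[ℂ] V) : Cub VV where
  T := (C.T.comp g.toLinearMap).compr₂ (LinearMap.lcomp ℂ ℂ g.toLinearMap) |>.compl₂ g.toLinearMap
  sw := fun _ _ _ => C.sw _ _ _
  cy := fun _ _ _ => C.cy _ _ _

private theorem pb'_T (C : Cub V) (g : VV ≃ₗ[ℂ] V) (x y z : VV) :
    (pb' C g).T x y z = C.T (g x) (g y) (g z) := rfl

private theorem pb'_smooth (C : Cub V) (hs : C.Smooth) (g : VV ≃ₗ[ℂ] V) : (pb' C g).Smooth := by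
  intro v hv
  obtain ⟨z, hz⟩ := hs (g v) (fun h => hv (g.map_eq_zero_iff.mp h))
  refine ⟨g.symm z, ?_⟩
  rw [pb'_T, g.apply_symm_apply]
  exact hz

/-- The 4-space of an adjacent plane. -/
private theorem exists_u (g : VV ≃ₗ[ℂ] V) {P Q : Submodule ℂ V}
    (hg : ∀ y, g y ∈ P ↔ y.2 = 0) (hP : finrank ℂ P = 3) (hQ : finrank ℂ Q = 3)
    (h : Adj P Q) : ∃ u : Fin 3 → ℂ, u ≠ 0 ∧ ∀ y, g y ∈ P ⊔ Q ↔ ∃ c : ℂ, y.2 = c • u := by
  have h4 := finrank_sup_of_adj hP hQ h
  have h5 : ∃ q ∈ Q, q ∉ P := by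
    by_contra h6
    push Not at h6
    exact h.1 (Submodule.eq_of_le_of_finrank_eq h6 (hQ.trans hP.symm)).symm
  obtain ⟨q, hq, hqP⟩ := h5
  have hgq : g (g.symm q) = q := g.apply_symm_apply q
  have hsup : P ⊔ Submodule.span ℂ {q} = P ⊔ Q := by
    have hle : P ⊔ Submodule.span ℂ {q} ≤ P ⊔ Q :=
      sup_le_sup_left ((Submodule.span_singleton_le_iff_mem _ _).mpr hq) P
    refine Submodule.eq_of_le_of_finrank_le hle ?_
    have hlt : P < P ⊔ Submodule.span ℂ {q} := by
      refine lt_of_le_of_ne le_sup_left fun he => hqP ?_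
      rw [he]
      exact Submodule.mem_sup_right (Submodule.mem_span_singleton_self q)
    have h7 := Submodule.finrank_lt_finrank_of_lt hlt
    omega
  refine ⟨(g.symm q).2, fun h0 => hqP ?_, fun y => ?_⟩
  · rw [← hgq]
    exact (hg _).mpr h0
  · rw [← hsup, Submodule.mem_sup]
    constructor
    · rintro ⟨p, hp, r, hr, hpr⟩
      obtain ⟨c, rfl⟩ := Submodule.mem_span_singleton.1 hr
      refine ⟨c, ?_⟩
      have h8 : g (y - c • g.symm q) = p := by
        rw [map_sub, map_smul, hgq, ← hpr, add_sub_cancel_right]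
      have h9 := (hg _).mp (h8 ▸ hp)
      rw [Prod.snd_sub, Prod.smul_snd, sub_eq_zero] at h9
      exact h9
    · rintro ⟨c, hc⟩
      refine ⟨g (y - c • g.symm q), (hg _).mpr ?_, c • q, Submodule.mem_span_singleton.2 ⟨c, rfl⟩,
        ?_⟩
      · rw [Prod.snd_sub, Prod.smul_snd, hc, sub_self]
      · rw [map_sub, map_smul, hgq, sub_add_cancel]

private theorem spec_of (C : Cub V) (g : VV ≃ₗ[ℂ] V) {P Q : Submodule ℂ V}
    (hg : ∀ y, g y ∈ P ↔ y.2 = 0) (hQ : C.IsPlane Q) (h : P ≠ Q) {u : Fin 3 → ℂ}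
    (hu : ∀ y, g y ∈ P ⊔ Q ↔ ∃ c : ℂ, y.2 = c • u) : Spec (pb' C g) u := by
  refine ⟨Q.comap g.toLinearMap, ⟨?_, ?_⟩, ?_, ?_⟩
  · have h1 : (Q.comap g.toLinearMap) = Q.map g.symm.toLinearMap := by
      ext y
      constructor
      · intro hy
        exact ⟨g y, hy, g.symm_apply_apply y⟩
      · rintro ⟨z, hz, rfl⟩
        change g (g.symm z) ∈ Q
        rw [g.apply_symm_apply]
        exact hz
    rw [h1]
    exact (LinearEquiv.finrank_map_eq g.symm Q).trans hQ.1
  · intro x hx y hy z hz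
    exact hQ.2 _ hx _ hy _ hz
  · intro h1
    apply h
    ext v
    have h2 : g (g.symm v) = v := g.apply_symm_apply v
    rw [← h2]
    rw [hg, ← ab_mem_P0, ← h1]
    rfl
  · intro y hy
    rw [ab_mem_Q, ← hu]
    exact Submodule.mem_sup_right hy

private theorem card_bound (C : Cub V) (hs : C.Smooth) (hV : finrank ℂ V = 6) {P : Submodule ℂ V}
    (hP : C.IsPlane P) (S : Finset (Submodule ℂ V)) (hS : ∀ Q ∈ S, C.IsPlane Q ∧ Adj P Q) :
    S.card ≤ 26 := by
  classical
  obtain ⟨g, hg⟩ := exists_g hV hP.1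
  have hstd : Std (pb' C g) := by
    intro x y z
    rw [pb'_T]
    exact hP.2 _ ((hg _).mpr rfl) _ ((hg _).mpr rfl) _ ((hg _).mpr rfl)
  have hsp := spec_bound (pb'_smooth C hs g) hstd
  have hex : ∀ N : Submodule ℂ V, ∃ u : Fin 3 → ℂ, N ∈ S.image (fun Q => P ⊔ Q) →
      u ≠ 0 ∧ (∀ y, g y ∈ N ↔ ∃ c : ℂ, y.2 = c • u) ∧ Spec (pb' C g) u := by
    intro N
    by_cases hN : N ∈ S.image (fun Q => P ⊔ Q)
    · obtain ⟨Q, hQ, rfl⟩ := Finset.mem_image.mp hN
      obtain ⟨hQp, hQa⟩ := hS Q hQ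
      obtain ⟨u, hu0, hu⟩ := exists_u g hg hP.1 hQp.1 hQa
      exact ⟨u, fun _ => ⟨hu0, hu, spec_of C g hg hQp hQa.1 hu⟩⟩
    · exact ⟨0, fun h => absurd h hN⟩
  choose U hU using hex
  have hind : ∀ N ∈ S.image (fun Q => P ⊔ Q), ∀ N' ∈ S.image (fun Q => P ⊔ Q), N ≠ N' →
      LinearIndependent ℂ ![U N, U N'] := by
    intro N hN N' hN' hne
    obtain ⟨h0, h1, -⟩ := hU N hN
    obtain ⟨h0', h1', -⟩ := hU N' hN'
    rw [LinearIndependent.pair_iff' h0]
    intro a ha
    apply hne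
    have ha0 : a ≠ 0 := by
      rintro rfl
      rw [zero_smul] at ha
      exact h0' ha.symm
    ext v
    have h2 : g (g.symm v) = v := g.apply_symm_apply v
    rw [← h2, h1, h1']
    constructor
    · rintro ⟨c, hc⟩
      refine ⟨c * a⁻¹, ?_⟩
      rw [hc, ← ha, smul_smul, mul_assoc, inv_mul_cancel₀ ha0, mul_one]
    · rintro ⟨c, hc⟩
      refine ⟨c * a, ?_⟩
      rw [hc, ← ha, smul_smul]
  have hinj : Set.InjOn U (S.image (fun Q => P ⊔ Q)) := by
    intro N hN N' hN' he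
    by_contra hne
    have h1 := hind N hN N' hN' hne
    rw [he] at h1
    have h2 := LinearIndependent.injective h1
    exact absurd (h2 (show (![U N', U N'] : Fin 2 → _) 0 = ![U N', U N'] 1 from rfl)) (by decide)
  have h13 : (S.image (fun Q => P ⊔ Q)).card ≤ 13 := by
    rw [← Finset.card_image_of_injOn hinj]
    refine hsp _ ⟨?_, ?_⟩ ?_
    · intro v hv
      obtain ⟨N, hN, rfl⟩ := Finset.mem_image.mp hv
      exact (hU N hN).1
    · intro v hv w hw hne
      obtain ⟨N, hN, rfl⟩ := Finset.mem_image.mp hv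
      obtain ⟨N', hN', rfl⟩ := Finset.mem_image.mp hw
      exact hind N hN N' hN' fun h => hne (by rw [h])
    · intro v hv
      obtain ⟨N, hN, rfl⟩ := Finset.mem_image.mp hv
      exact (hU N hN).2.2
  have h2 := Finset.card_le_mul_card_image (f := fun Q => P ⊔ Q) S 2 ?_
  · omega
  · intro N hN
    obtain ⟨Q, hQ, rfl⟩ := Finset.mem_image.mp hN
    obtain ⟨hQp, hQa⟩ := hS Q hQ
    obtain ⟨P₃, hT⟩ := third C hs hV hP hQp hQa
    have hsub : (S.filter fun x => P ⊔ x = P ⊔ Q) ⊆ {Q, P₃} := by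
      intro R hR
      obtain ⟨hRS, hRe⟩ := Finset.mem_filter.mp hR
      obtain ⟨hRp, hRa⟩ := hS R hRS
      have hle : R ≤ P ⊔ Q := by
        rw [← hRe]
        exact le_sup_right
      rcases hT.eq_of_le hRp hle with h | h | h
      · exact absurd h.symm hRa.1
      · rw [h]
        exact Finset.mem_insert_self _ _
      · rw [h]
        exact Finset.mem_insert_of_mem (Finset.mem_singleton_self _)
    exact (Finset.card_le_card hsub).trans Finset.card_le_two

theorem adj_bound (C : Cub V) (hs : C.Smooth) (hV : finrank ℂ V = 6) {P : Submodule ℂ V}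
    (hP : C.IsPlane P) :
    {Q | C.IsPlane Q ∧ Adj P Q}.Finite ∧ {Q | C.IsPlane Q ∧ Adj P Q}.ncard ≤ 26 := by
  have hfin : {Q | C.IsPlane Q ∧ Adj P Q}.Finite := by
    by_contra hinf
    obtain ⟨t, ht, hc⟩ := Set.Infinite.exists_subset_card_eq hinf 27
    have h1 := card_bound C hs hV hP t fun Q hQ => ht hQ
    omega
  refine ⟨hfin, ?_⟩
  rw [Set.ncard_eq_toFinset_card _ hfin]
  exact card_bound C hs hV hP _ fun Q hQ => (Set.Finite.mem_toFinset hfin).mp hQ

end Pool.Agent.P28
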