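import Pool.Agent.P28.Defs

set_option autoImplicit false

/-!
# P28: standard position

`VV = ℂ^3 × ℂ^3`, the plane is `P0 = {(x, 0)}`; a cubic `C` is in standard position (`Std`) if it
contains `P0`. For `u ∈ ℂ^3` the space `P0 + ℂ (0, u)` is special if it contains a plane of `C`
other than `P0`. With `A = am C u`, `b = bm C u`, `c = cm C u`:
`T y y y = 3 l (x · A x + 2 l b · x + l^2 c)` for `y = (x, l u)`.
-/

namespace Pool.Agent.P28

open Module MvPolynomial

/-- The space. -/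
abbrev VV : Type := (Fin 3 → ℂ) × (Fin 3 → ℂ)

/-- The standard plane. -/
def P0 : Submodule ℂ VV := LinearMap.range (LinearMap.inl ℂ (Fin 3 → ℂ) (Fin 3 → ℂ))

/-- Basis vectors of the plane. -/
def E (i : Fin 3) : VV := (Pi.single i 1, 0)

/-- Basis vectors of the complement. -/
def Fv (i : Fin 3) : VV := (0, Pi.single i 1)

/-- The cubic contains the standard plane. -/
def Std (C : Cub VV) : Prop := ∀ x y z : Fin 3 → ℂ, C.T (x, 0) (y, 0) (z, 0) = 0

/-- The 4-dimensional space of `u` contains a second plane. -/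
def Spec (C : Cub VV) (u : Fin 3 → ℂ) : Prop :=
  ∃ P : Submodule ℂ VV, C.IsPlane P ∧ P ≠ P0 ∧ P ≤ P0 ⊔ Submodule.span ℂ {((0, u) : VV)}

/-- The matrix `A`. -/
def am (C : Cub VV) (u : Fin 3 → ℂ) : Matrix (Fin 3) (Fin 3) ℂ :=
  Matrix.of fun i j => C.T (E i) (E j) (0, u)

/-- The vector `b`. -/
noncomputable def bm (C : Cub VV) (u : Fin 3 → ℂ) : Fin 3 → ℂ :=
  fun i => C.T (E i) (0, u) (0, u) / 2

/-- The number `c`. -/
noncomputable def cm (C : Cub VV) (u : Fin 3 → ℂ) : ℂ := C.T (0, u) (0, u) (0, u) / 3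

/-- `A` has rank one. -/
def R1 (C : Cub VV) (u : Fin 3 → ℂ) : Prop := u ≠ 0 ∧ ∃ l : Fin 3 → ℂ, ∀ i j, am C u i j = l i * l j

/-- Polynomials of the entries of `A`. -/
noncomputable def pa (C : Cub VV) : Matrix (Fin 3) (Fin 3) (MvPolynomial (Fin 3) ℂ) :=
  Matrix.of fun i j => ∑ k, MvPolynomial.C (C.T (E i) (E j) (Fv k)) * X k

/-- Polynomials of `b`. -/
noncomputable def pb (C : Cub VV) (i : Fin 3) : MvPolynomial (Fin 3) ℂ :=
  ∑ k, ∑ l, MvPolynomial.C (C.T (E i) (Fv k) (Fv l) / 2) * (X k * X l)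

/-- Polynomial of `c`. -/
noncomputable def pc (C : Cub VV) : MvPolynomial (Fin 3) ℂ :=
  ∑ k, ∑ l, ∑ m, MvPolynomial.C (C.T (Fv k) (Fv l) (Fv m) / 3) * (X k * X l * X m)

/-- The determinant `D3`. -/
noncomputable def D3 (C : Cub VV) : MvPolynomial (Fin 3) ℂ := (pa C).det

/-- The quartics `adj(A) b`. -/
noncomputable def nn (C : Cub VV) : Fin 3 → MvPolynomial (Fin 3) ℂ :=
  (pa C).adjugate.mulVec (pb C)

theorem sum_Fv (u : Fin 3 → ℂ) : ((0, u) : VV) = ∑ k, u k • Fv k := by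
  rw [Fin.sum_univ_three]
  ext i
  · simp [Fv]
  · fin_cases i <;> simp [Fv]

theorem sum_E (x : Fin 3 → ℂ) : ((x, 0) : VV) = ∑ k, x k • E k := by
  rw [Fin.sum_univ_three]
  ext i
  · fin_cases i <;> simp [E]
  · simp [E]

theorem eval_pa (C : Cub VV) (u : Fin 3 → ℂ) (i j : Fin 3) : eval u (pa C i j) = am C u i j := by
  rw [am, Matrix.of_apply, sum_Fv u, map_sum, pa, Matrix.of_apply, map_sum]
  refine Finset.sum_congr rfl fun k _ => ?_
  rw [map_smul, smul_eq_mul, map_mul, eval_C, eval_X, mul_comm]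

theorem eval_pb (C : Cub VV) (u : Fin 3 → ℂ) (i : Fin 3) : eval u (pb C i) = bm C u i := by
  rw [bm, sum_Fv u, pb]
  simp only [Fin.sum_univ_three, map_add, map_smul, LinearMap.add_apply, LinearMap.smul_apply,
    smul_eq_mul, map_mul, eval_C, eval_X]
  ring

theorem eval_pc (C : Cub VV) (u : Fin 3 → ℂ) : eval u (pc C) = cm C u := by
  rw [cm, sum_Fv u, pc]
  simp only [Fin.sum_univ_three, map_add, map_smul, LinearMap.add_apply, LinearMap.smul_apply,
    smul_eq_mul, map_mul, eval_C, eval_X]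
  ring

theorem am_symm (C : Cub VV) (u : Fin 3 → ℂ) (i j : Fin 3) : am C u i j = am C u j i :=
  C.sw _ _ _

theorem hom_pa (C : Cub VV) (i j : Fin 3) : (pa C i j).IsHomogeneous 1 := by
  rw [pa, Matrix.of_apply]
  refine IsHomogeneous.sum _ _ _ fun k _ => ?_
  exact (isHomogeneous_X ℂ k).C_mul _

theorem hom_pb (C : Cub VV) (i : Fin 3) : (pb C i).IsHomogeneous 2 := by
  rw [pb]
  refine IsHomogeneous.sum _ _ _ fun k _ => IsHomogeneous.sum _ _ _ fun l _ => ?_
  exact ((isHomogeneous_X ℂ k).mul (isHomogeneous_X ℂ l)).C_mul _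

theorem hom_pc (C : Cub VV) : (pc C).IsHomogeneous 3 := by
  rw [pc]
  refine IsHomogeneous.sum _ _ _ fun k _ => IsHomogeneous.sum _ _ _ fun l _ =>
    IsHomogeneous.sum _ _ _ fun m _ => ?_
  exact (((isHomogeneous_X ℂ k).mul (isHomogeneous_X ℂ l)).mul (isHomogeneous_X ℂ m)).C_mul _

end Pool.Agent.P28
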