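import Mathlib

set_option autoImplicit false

/-!
# P28: definitions (cubic fourfolds and their planes)

A cubic form on a complex vector space `V` is given by its symmetric trilinear form `T`
(`F x = T x x x`).
-/

namespace Pool.Agent.P28

open Module

/-- A cubic form, given by its symmetric trilinear form. -/
structure Cub (V : Type) [AddCommGroup V] [Module ℂ V] where
  T : V →ₗ[ℂ] V →ₗ[ℂ] V →ₗ[ℂ] ℂ
  sw : ∀ x y z, T x y z = T y x z
  cy : ∀ x y z, T x y z = T x z y

section

variable {V : Type} [AddCommGroup V] [Module ℂ V]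

/-- The hypersurface `T x x x = 0` is smooth. -/
def Cub.Smooth (C : Cub V) : Prop := ∀ v, v ≠ 0 → ∃ z, C.T v v z ≠ 0

/-- `P` is a plane contained in the hypersurface. -/
def Cub.IsPlane (C : Cub V) (P : Submodule ℂ V) : Prop :=
  finrank ℂ P = 3 ∧ ∀ x ∈ P, ∀ y ∈ P, ∀ z ∈ P, C.T x y z = 0

/-- Two planes meet in a line. -/
def Adj (P P' : Submodule ℂ V) : Prop := P ≠ P' ∧ finrank ℂ (P ⊓ P' : Submodule ℂ V) = 2

theorem Cub.sw' (C : Cub V) (x y z : V) : C.T x y z = C.T z y x := by
  rw [C.cy x y z, C.sw x z y, C.cy z x y]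

theorem Cub.rot (C : Cub V) (x y z : V) : C.T x y z = C.T y z x := by
  rw [C.sw x y z, C.cy y x z]

/-- Polarisation: a trilinear symmetric form whose cubic form vanishes on `W` vanishes on `W`. -/
theorem Cub.polar (C : Cub V) {W : Submodule ℂ V} (h : ∀ x ∈ W, C.T x x x = 0) :
    ∀ x ∈ W, ∀ y ∈ W, ∀ z ∈ W, C.T x y z = 0 := by
  have key : ∀ x ∈ W, ∀ y ∈ W, C.T x x y = 0 := by
    intro x hx y hy
    have h1 := h (x + y) (W.add_mem hx hy)
    have h2 := h (x - y) (W.sub_mem hx hy)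
    simp only [map_add, map_sub, LinearMap.add_apply, LinearMap.sub_apply] at h1 h2
    have h3 := h x hx
    have h4 := h y hy
    have e1 : C.T y x x = C.T x x y := by rw [C.sw y x x, C.cy x y x]
    have e2 : C.T x y x = C.T x x y := C.cy x y x
    have e3 : C.T y x y = C.T y y x := C.cy y x y
    have e4 : C.T x y y = C.T y y x := by rw [C.sw x y y, C.cy y x y]
    rw [e1, e2, e3, e4, h3, h4] at h1 h2
    linear_combination (1 / 6 : ℂ) * h1 - (1 / 6 : ℂ) * h2
  intro x hx y hy z hz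
  have h1 := key (x + y) (W.add_mem hx hy) z hz
  simp only [map_add, LinearMap.add_apply] at h1
  rw [key x hx z hz, key y hy z hz, C.sw y x z] at h1
  linear_combination (1 / 2 : ℂ) * h1

theorem Adj.symm {P P' : Submodule ℂ V} (h : Adj P P') : Adj P' P :=
  ⟨h.1.symm, by rw [inf_comm]; exact h.2⟩

end

/-- A finite set of nonzero, pairwise nonproportional vectors (a finite set of points of the
projective space). -/
def PInd {m : ℕ} (S : Finset (Fin m → ℂ)) : Prop :=
  (∀ v ∈ S, v ≠ 0) ∧ ∀ v ∈ S, ∀ w ∈ S, v ≠ w → LinearIndependent ℂ ![v, w]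

/-- The set `Z` of vectors contains at most `n` points of the projective space. -/
def AtMost {m : ℕ} (n : ℕ) (Z : (Fin m → ℂ) → Prop) : Prop :=
  ∀ S : Finset (Fin m → ℂ), PInd S → (∀ v ∈ S, Z v) → S.card ≤ n

theorem AtMost.mono {m n n' : ℕ} {Z Z' : (Fin m → ℂ) → Prop} (h : AtMost n Z) (hn : n ≤ n')
    (hZ : ∀ v, v ≠ 0 → Z' v → Z v) : AtMost n' Z' := fun S hS hv =>
  (h S hS fun v hvS => hZ v (hS.1 v hvS) (hv v hvS)).trans hn

theorem PInd.subset {m : ℕ} {S S' : Finset (Fin m → ℂ)} (h : PInd S) (hs : S' ⊆ S) : PInd S' :=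
  ⟨fun v hv => h.1 v (hs hv), fun v hv w hw => h.2 v (hs hv) w (hs hw)⟩

theorem AtMost.union {m a b : ℕ} {Z Z' : (Fin m → ℂ) → Prop} (h : AtMost a Z) (h' : AtMost b Z') :
    AtMost (a + b) (fun v => Z v ∨ Z' v) := by
  classical
  intro S hS hv
  have h1 := h (S.filter Z) (hS.subset (Finset.filter_subset _ _))
    (fun v hv' => (Finset.mem_filter.1 hv').2)
  have h2 := h' (S.filter Z') (hS.subset (Finset.filter_subset _ _))
    (fun v hv' => (Finset.mem_filter.1 hv').2)
  have h3 : S ⊆ S.filter Z ∪ S.filter Z' := by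
    intro v hvS
    rcases hv v hvS with h | h
    · exact Finset.mem_union_left _ (Finset.mem_filter.2 ⟨hvS, h⟩)
    · exact Finset.mem_union_right _ (Finset.mem_filter.2 ⟨hvS, h⟩)
  exact (Finset.card_le_card h3).trans ((Finset.card_union_le _ _).trans (Nat.add_le_add h1 h2))

end Pool.Agent.P28
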