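import Pool.Agent.P28.BezDim
import Pool.Agent.P28.Defs

set_option autoImplicit false

/-!
# P28 B13: the inequality of Bezout in the projective plane

`interp`: for a finite set `S` of pairwise nonproportional nonzero vectors in `ℂ^3` and
`d ≥ S.card`, for every `v ∈ S` there is `p ∈ S_d` with `p v ≠ 0` and `p w = 0` for the other
`w ∈ S`. PROOF: for `w ≠ v` in `S` choose a linear form vanishing at `w` and not at `v` (`v, w`
independent); multiply them, and multiply by a power of a linear form not vanishing at `v`.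

`bezout`: `D ∈ S_m`, `G ∈ S_n`, nonzero and relatively prime: at most `m n` common zeros. PROOF:
let `S` be a finite set of pairwise nonproportional common zeros, `d = m + n + S.card`. The
evaluation `S_d → ℂ^S` is surjective (`interp`) and vanishes on `comb D G m n d ≤ S_d`. So
`S.card ≤ finrank S_d - finrank (comb D G m n d) = m n` (`finrank_hom`, `koszul_dim`, and the
identity `choose (d+2) 2 + choose (d-m-n+2) 2 = choose (d-m+2) 2 + choose (d-n+2) 2 + m n` for
`d ≥ m + n`: put `d = m + n + k` and use `Nat.choose_two_right` or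
`(k+2).choose 2 = (k+1)(k+2)/2`, `Nat.triangle`...).
-/

namespace Pool.Agent.P28

open Module MvPolynomial

/-- a linear form vanishing at `w` and not at `v` -/
private theorem exists_lin {v w : Fin 3 → ℂ} (h : LinearIndependent ℂ ![v, w]) :
    ∃ l : MvPolynomial (Fin 3) ℂ, l.IsHomogeneous 1 ∧ eval v l ≠ 0 ∧ eval w l = 0 := by
  have hvw : v ∉ Submodule.span ℂ {w} := by
    intro hc
    obtain ⟨c, hc⟩ := Submodule.mem_span_singleton.1 hc
    have h1 := LinearIndependent.pair_iff.1 h 1 (-c) (by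
      rw [one_smul, neg_smul, hc, add_neg_cancel])
    exact one_ne_zero h1.1
  obtain ⟨f, hf, hf2⟩ := Submodule.exists_dual_map_eq_bot_of_notMem hvw inferInstance
  have hfw : f w = 0 := by
    have h1 : f w ∈ (Submodule.span ℂ {w}).map f :=
      ⟨w, Submodule.mem_span_singleton_self w, rfl⟩
    rw [hf2] at h1
    exact (Submodule.mem_bot ℂ).1 h1
  have hev : ∀ u : Fin 3 → ℂ,
      eval u (∑ i, C (f (Pi.single i 1)) * X i : MvPolynomial (Fin 3) ℂ) = f u := by
    intro u
    rw [map_sum, LinearMap.pi_apply_eq_sum_univ f u]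
    refine Finset.sum_congr rfl fun i _ => ?_
    rw [map_mul, eval_C, eval_X, smul_eq_mul, mul_comm]
    congr 2
    funext j
    rw [Pi.single_apply]
    simp only [eq_comm]
  refine ⟨∑ i, C (f (Pi.single i 1)) * X i, ?_, ?_, ?_⟩
  · exact IsHomogeneous.sum _ _ _ fun i _ => isHomogeneous_C_mul_X _ _
  · rw [hev]
    exact hf
  · rw [hev]
    exact hfw

theorem interp (S : Finset (Fin 3 → ℂ)) (hS : PInd S) {d : ℕ} (hd : S.card ≤ d)
    {v : Fin 3 → ℂ} (hv : v ∈ S) :
    ∃ p : MvPolynomial (Fin 3) ℂ, p.IsHomogeneous d ∧ eval v p ≠ 0 ∧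
      ∀ w ∈ S, w ≠ v → eval w p = 0 := by
  classical
  obtain ⟨i, hi⟩ : ∃ i, v i ≠ 0 := by
    by_contra h
    push Not at h
    exact hS.1 v hv (funext h)
  have hex : ∀ w : Fin 3 → ℂ, ∃ l : MvPolynomial (Fin 3) ℂ, l.IsHomogeneous 1 ∧
      (w ∈ S.erase v → eval v l ≠ 0 ∧ eval w l = 0) := by
    intro w
    by_cases hw : w ∈ S.erase v
    · obtain ⟨hwv, hwS⟩ := Finset.mem_erase.1 hw
      obtain ⟨l, h1, h2, h3⟩ := exists_lin (hS.2 v hv w hwS hwv.symm)
      exact ⟨l, h1, fun _ => ⟨h2, h3⟩⟩
    · exact ⟨X 0, isHomogeneous_X _ _, fun h => absurd h hw⟩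
  choose l hl hl2 using hex
  refine ⟨(∏ w ∈ S.erase v, l w) * X i ^ (d - (S.erase v).card), ?_, ?_, ?_⟩
  · have h1 : (∏ w ∈ S.erase v, l w).IsHomogeneous (∑ _w ∈ S.erase v, 1) :=
      IsHomogeneous.prod _ _ _ fun w _ => hl w
    have h2 : (X i ^ (d - (S.erase v).card) : MvPolynomial (Fin 3) ℂ).IsHomogeneous
        (1 * (d - (S.erase v).card)) := (isHomogeneous_X _ _).pow _
    have h3 := h1.mul h2
    rw [Finset.sum_const, smul_eq_mul, mul_one, one_mul] at h3
    have h4 : (S.erase v).card ≤ d := (Finset.card_le_card (Finset.erase_subset v S)).trans hd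
    rwa [Nat.add_sub_cancel' h4] at h3
  · rw [map_mul, map_pow, eval_X, map_prod]
    exact mul_ne_zero (Finset.prod_ne_zero_iff.2 fun w hw => (hl2 w hw).1) (pow_ne_zero _ hi)
  · intro w hwS hwv
    rw [map_mul, map_prod, Finset.prod_eq_zero (Finset.mem_erase.2 ⟨hwv, hwS⟩)
      (hl2 w (Finset.mem_erase.2 ⟨hwv, hwS⟩)).2, zero_mul]

private theorem two_choose (x : ℕ) : (x + 2).choose 2 * 2 = (x + 2) * (x + 1) := by
  have h := Nat.add_one_mul_choose_eq (x + 1) 1
  rw [Nat.choose_one_right] at h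
  exact h.symm

private theorem bez_choose (m n k : ℕ) :
    (m + n + k + 2).choose 2 + (k + 2).choose 2 =
      (n + k + 2).choose 2 + (m + k + 2).choose 2 + m * n := by
  have h1 := two_choose (m + n + k)
  have h2 := two_choose k
  have h3 := two_choose (n + k)
  have h4 := two_choose (m + k)
  have h5 : ((m + n + k + 2).choose 2 + (k + 2).choose 2) * 2 =
      ((n + k + 2).choose 2 + (m + k + 2).choose 2 + m * n) * 2 := by
    rw [add_mul, add_mul, add_mul, h1, h2, h3, h4]
    ring
  omega

theorem bezout {D G : MvPolynomial (Fin 3) ℂ} {m n : ℕ} (hD : D.IsHomogeneous m)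
    (hG : G.IsHomogeneous n) (hD0 : D ≠ 0) (hG0 : G ≠ 0) (h : IsRelPrime D G) :
    AtMost (m * n) (fun u : Fin 3 → ℂ => eval u D = 0 ∧ eval u G = 0) := by
  classical
  intro S hS hz
  obtain ⟨d, hd⟩ : ∃ d, d = m + n + S.card := ⟨_, rfl⟩
  have := finite_hom d
  let A : Submodule ℂ (MvPolynomial (Fin 3) ℂ) := homogeneousSubmodule (Fin 3) ℂ d
  let E : A →ₗ[ℂ] (S → ℂ) :=
    { toFun := fun p v => eval (v : Fin 3 → ℂ) (p : MvPolynomial (Fin 3) ℂ)
      map_add' := fun p q => funext fun v => map_add _ _ _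
      map_smul' := fun c p => funext fun v => by
        rw [Submodule.coe_smul, smul_eval]
        rfl }
  have hE : ∀ (p : A) (v : S), E p v = eval (v : Fin 3 → ℂ) (p : MvPolynomial (Fin 3) ℂ) :=
    fun p v => rfl
  have hsurj : Function.Surjective E := by
    intro y
    have hint := fun v : S => interp S hS (d := d) (by omega) v.2
    choose p hp hp1 hp2 using hint
    refine ⟨∑ v : S, (y v / eval (v : Fin 3 → ℂ) (p v)) • (⟨p v, hp v⟩ : A), ?_⟩
    rw [map_sum]
    funext w
    rw [Finset.sum_apply, Finset.sum_eq_single w]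
    · rw [map_smul, Pi.smul_apply, hE, smul_eq_mul]
      exact div_mul_cancel₀ _ (hp1 w)
    · intro v _ hvw
      rw [map_smul, Pi.smul_apply, hE, smul_eq_mul]
      have h1 : eval (w : Fin 3 → ℂ) (p v) = 0 :=
        hp2 v w w.2 fun h2 => hvw (Subtype.ext h2.symm)
      change _ * eval (w : Fin 3 → ℂ) (p v) = 0
      rw [h1, mul_zero]
    · intro h1
      exact absurd (Finset.mem_univ w) h1
  have hrank := LinearMap.finrank_range_add_finrank_ker E
  rw [LinearMap.range_eq_top.2 hsurj, finrank_top, Module.finrank_fintype_fun_eq_card,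
    Fintype.card_coe] at hrank
  have hle : comb D G m n d ≤ A := by
    unfold comb
    refine sup_le ?_ ?_
    · rintro _ ⟨a, ha, rfl⟩
      have h1 : (a * D).IsHomogeneous (d - m + m) :=
        ((mem_homogeneousSubmodule _ _).1 ha).mul hD
      rw [Nat.sub_add_cancel (by omega)] at h1
      exact h1
    · rintro _ ⟨a, ha, rfl⟩
      have h1 : (a * G).IsHomogeneous (d - n + n) :=
        ((mem_homogeneousSubmodule _ _).1 ha).mul hG
      rw [Nat.sub_add_cancel (by omega)] at h1
      exact h1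
  have hev : ∀ v ∈ S, ∀ p ∈ comb D G m n d, eval v p = 0 := by
    intro v hv p hp
    unfold comb at hp
    obtain ⟨_, ⟨a, -, rfl⟩, _, ⟨b, -, rfl⟩, rfl⟩ := Submodule.mem_sup.1 hp
    change eval v (a * D + b * G) = 0
    rw [map_add, map_mul, map_mul, (hz v hv).1, (hz v hv).2, mul_zero, mul_zero, add_zero]
  have hker : (comb D G m n d).comap A.subtype ≤ LinearMap.ker E := by
    intro p hp
    rw [LinearMap.mem_ker]
    funext v
    exact hev v v.2 _ hp
  have hf1 : finrank ℂ ((comb D G m n d).comap A.subtype) = finrank ℂ (comb D G m n d) :=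
    (Submodule.comapSubtypeEquivOfLe hle).finrank_eq
  have hf2 := Submodule.finrank_mono hker
  have hk := koszul_dim hD hG hD0 hG0 h (d := d) (by omega)
  have hA : finrank ℂ A = (d + 2).choose 2 := finrank_hom d
  have e1 : d - m - n = S.card := by omega
  have e2 : d - m = n + S.card := by omega
  have e3 : d - n = m + S.card := by omega
  rw [e1, e2, e3] at hk
  rw [hA, hd] at hrank
  have hid := bez_choose m n S.card
  omega

end Pool.Agent.P28
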