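import Mathlib

set_option autoImplicit false

/-!
# P28 B12: dimension of the space of ternary forms (Mathlib only)

`S_d = homogeneousSubmodule (Fin 3) ℂ d`. `finrank S_d = (d+1)(d+2)/2 = choose (d+2) 2`.
PROOF: the monomials `X^m` with `m : Fin 3 →₀ ℕ`, `m.sum = d` form a basis
(`MvPolynomial.homogeneousSubmodule_eq_finsupp_supported`, `Finsupp.supported`), their number is
`Finset.card (Finset.finsuppAntidiag Finset.univ d)` or `Sym.card_sym_eq_choose`; or count pairs
`(i, j)` with `i + j ≤ d`. Also finite dimensional.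

`koszul_dim`: `D ∈ S_m`, `G ∈ S_n` relatively prime, nonzero, `d ≥ m + n`. The subspace
`{a D + b G : a ∈ S_(d-m), b ∈ S_(d-n)}` of `S_d` has dimension
`choose (d-m+2) 2 + choose (d-n+2) 2 - choose (d-m-n+2) 2`. PROOF: it is the range of the linear
map `(a, b) ↦ a D + b G` on `S_(d-m) × S_(d-n)`. Kernel: `a D = - b G`, `D` and `G` relatively
prime, so `G ∣ a` (`IsRelPrime.dvd_of_dvd_mul_left`), `a = c G`, `b = - c D`, `c ∈ S_(d-m-n)`
(`c` is homogeneous because `c G` is and `G ≠ 0`: compare homogeneous components, or replace `c`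
by its component of degree `d-m-n`); `c ↦ (c G, - c D)` is injective. Rank-nullity.
-/

namespace Pool.Agent.P28

open Module MvPolynomial

theorem finrank_hom (d : ℕ) :
    finrank ℂ (homogeneousSubmodule (Fin 3) ℂ d) = (d + 2).choose 2 := by
  rw [homogeneousSubmodule_eq_finsupp_supported]
  change finrank ℂ (restrictSupport ℂ {m : Fin 3 →₀ ℕ | m.degree = d}) = _
  rw [finrank_eq_nat_card_basis (basisRestrictSupport ℂ {m : Fin 3 →₀ ℕ | m.degree = d})]
  have h1 : {m : Fin 3 →₀ ℕ | m.degree = d} =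
      ((Finset.univ.finsuppAntidiag d : Finset (Fin 3 →₀ ℕ)) : Set (Fin 3 →₀ ℕ)) := by
    ext m
    simp only [Set.mem_setOf_eq, Finset.mem_coe, Finset.mem_finsuppAntidiag,
      Finset.subset_univ, and_true]
    rw [Finsupp.degree_eq_sum]
  rw [h1, Nat.card_eq_card_toFinset, Finset.toFinset_coe,
    Finset.card_finsuppAntidiag_nat_eq_choose]
  have h2 : Finset.card (Finset.univ : Finset (Fin 3)) + d - 1 = d + 2 := by
    rw [Finset.card_univ, Fintype.card_fin]; omega
  rw [h2, ← Nat.choose_symm (by omega : d ≤ d + 2)]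
  congr 1
  omega

theorem finite_hom (d : ℕ) : Module.Finite ℂ (homogeneousSubmodule (Fin 3) ℂ d) := by
  exact Module.Finite.iff_fg.2 (homogeneousSubmodule_fg _ _ d)

/-- The space of the forms `a D + b G`. -/
noncomputable def comb (D G : MvPolynomial (Fin 3) ℂ) (m n d : ℕ) :
    Submodule ℂ (MvPolynomial (Fin 3) ℂ) :=
  (homogeneousSubmodule (Fin 3) ℂ (d - m)).map (LinearMap.mulRight ℂ D) ⊔
    (homogeneousSubmodule (Fin 3) ℂ (d - n)).map (LinearMap.mulRight ℂ G)

private theorem hc_mul {G : MvPolynomial (Fin 3) ℂ} {n : ℕ} (hG : G.IsHomogeneous n)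
    (c : MvPolynomial (Fin 3) ℂ) (k : ℕ) :
    homogeneousComponent (k + n) (c * G) = homogeneousComponent k c * G := by
  conv_lhs => rw [← sum_homogeneousComponent c]
  rw [Finset.sum_mul, map_sum]
  have h1 : ∀ i ∈ Finset.range (c.totalDegree + 1),
      homogeneousComponent (k + n) (homogeneousComponent i c * G) =
        if i = k then homogeneousComponent k c * G else 0 := by
    intro i _
    rw [homogeneousComponent_of_mem ((homogeneousComponent_isHomogeneous i c).mul hG)]
    by_cases h : i = k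
    · subst h; simp
    · rw [if_neg (by omega), if_neg h]
  rw [Finset.sum_congr rfl h1, Finset.sum_ite_eq']
  split_ifs with h2
  · rfl
  · rw [Finset.mem_range, not_lt] at h2
    rw [homogeneousComponent_eq_zero _ _ (by omega), zero_mul]

/-- The map `(a, b) ↦ a D + b G`. -/
private noncomputable def fm (D G : MvPolynomial (Fin 3) ℂ) (m n d : ℕ) :
    (homogeneousSubmodule (Fin 3) ℂ (d - m) × homogeneousSubmodule (Fin 3) ℂ (d - n)) →ₗ[ℂ]
      MvPolynomial (Fin 3) ℂ :=
  LinearMap.coprod ((LinearMap.mulRight ℂ D).comp (Submodule.subtype _))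
    ((LinearMap.mulRight ℂ G).comp (Submodule.subtype _))

private theorem fm_apply (D G : MvPolynomial (Fin 3) ℂ) (m n d : ℕ)
    (x : homogeneousSubmodule (Fin 3) ℂ (d - m) × homogeneousSubmodule (Fin 3) ℂ (d - n)) :
    fm D G m n d x = x.1.1 * D + x.2.1 * G := rfl

private theorem range_fm (D G : MvPolynomial (Fin 3) ℂ) (m n d : ℕ) :
    LinearMap.range (fm D G m n d) = comb D G m n d := by
  unfold fm comb
  rw [LinearMap.range_coprod, LinearMap.range_comp, LinearMap.range_comp,
    Submodule.range_subtype, Submodule.range_subtype]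

/-- The map `c ↦ (c G, - c D)`. -/
private noncomputable def gm {D G : MvPolynomial (Fin 3) ℂ} {m n d : ℕ} (hD : D.IsHomogeneous m)
    (hG : G.IsHomogeneous n) (hd : m + n ≤ d) :
    homogeneousSubmodule (Fin 3) ℂ (d - m - n) →ₗ[ℂ]
      (homogeneousSubmodule (Fin 3) ℂ (d - m) × homogeneousSubmodule (Fin 3) ℂ (d - n)) :=
  LinearMap.prod
    (LinearMap.codRestrict _ ((LinearMap.mulRight ℂ G).comp (Submodule.subtype _)) fun c => by
      have h1 := (show c.1.IsHomogeneous (d - m - n) from c.2).mul hG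
      rw [show d - m - n + n = d - m by omega] at h1
      exact h1)
    (LinearMap.codRestrict _ (-((LinearMap.mulRight ℂ D).comp (Submodule.subtype _))) fun c => by
      have h1 := (show c.1.IsHomogeneous (d - m - n) from c.2).mul hD
      rw [show d - m - n + m = d - n by omega] at h1
      exact h1.neg)

private theorem gm_fst {D G : MvPolynomial (Fin 3) ℂ} {m n d : ℕ} (hD : D.IsHomogeneous m)
    (hG : G.IsHomogeneous n) (hd : m + n ≤ d) (c : homogeneousSubmodule (Fin 3) ℂ (d - m - n)) :
    (gm hD hG hd c).1.1 = c.1 * G := rfl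

private theorem gm_snd {D G : MvPolynomial (Fin 3) ℂ} {m n d : ℕ} (hD : D.IsHomogeneous m)
    (hG : G.IsHomogeneous n) (hd : m + n ≤ d) (c : homogeneousSubmodule (Fin 3) ℂ (d - m - n)) :
    (gm hD hG hd c).2.1 = -(c.1 * D) := rfl

private theorem gm_inj {D G : MvPolynomial (Fin 3) ℂ} {m n d : ℕ} (hD : D.IsHomogeneous m)
    (hG : G.IsHomogeneous n) (hG0 : G ≠ 0) (hd : m + n ≤ d) :
    Function.Injective (gm hD hG hd) := by
  intro c c' h
  have h1 : c.1 * G = c'.1 * G := by
    rw [← gm_fst hD hG hd, ← gm_fst hD hG hd, h]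
  exact Subtype.ext (mul_right_cancel₀ hG0 h1)

private theorem ker_fm {D G : MvPolynomial (Fin 3) ℂ} {m n d : ℕ} (hD : D.IsHomogeneous m)
    (hG : G.IsHomogeneous n) (hG0 : G ≠ 0) (h : IsRelPrime D G)
    (hd : m + n ≤ d) : LinearMap.range (gm hD hG hd) = LinearMap.ker (fm D G m n d) := by
  apply le_antisymm
  · rintro _ ⟨c, rfl⟩
    rw [LinearMap.mem_ker, fm_apply, gm_fst, gm_snd]
    ring
  · rintro ⟨⟨a, ha⟩, ⟨b, hb⟩⟩ hab
    rw [LinearMap.mem_ker, fm_apply] at hab
    simp only at hab
    have h1 : G ∣ a * D := ⟨-b, by linear_combination hab⟩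
    obtain ⟨c, hc⟩ := h.symm.dvd_of_dvd_mul_right h1
    have hac : a = c * G := by rw [hc, mul_comm]
    have h2 : homogeneousComponent (d - m - n) c * G = a := by
      rw [← hc_mul hG, ← hac, show d - m - n + n = d - m by omega]
      exact homogeneousComponent_eq_self ha
    refine ⟨⟨homogeneousComponent (d - m - n) c, homogeneousComponent_isHomogeneous _ _⟩, ?_⟩
    refine Prod.ext (Subtype.ext ?_) (Subtype.ext ?_)
    · rw [gm_fst]
      exact h2
    · rw [gm_snd]
      change -(homogeneousComponent (d - m - n) c * D) = b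
      refine mul_right_cancel₀ hG0 ?_
      have h3 : b * G = -(a * D) := by linear_combination hab
      rw [h3, ← h2]
      ring

theorem koszul_dim {D G : MvPolynomial (Fin 3) ℂ} {m n d : ℕ} (hD : D.IsHomogeneous m)
    (hG : G.IsHomogeneous n) (hD0 : D ≠ 0) (hG0 : G ≠ 0) (h : IsRelPrime D G) (hd : m + n ≤ d) :
    finrank ℂ (comb D G m n d) + (d - m - n + 2).choose 2 =
      (d - m + 2).choose 2 + (d - n + 2).choose 2 := by
  have := finite_hom (d - m)
  have := finite_hom (d - n)
  have h1 := LinearMap.finrank_range_add_finrank_ker (fm D G m n d)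
  rw [range_fm, ← ker_fm hD hG hG0 h hd, LinearMap.finrank_range_of_inj (gm_inj hD hG hG0 hd),
    Module.finrank_prod, finrank_hom, finrank_hom, finrank_hom] at h1
  exact h1

end Pool.Agent.P28
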