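import Mathlib

set_option autoImplicit false

/-!
# P28 C05a: binary quadratic forms without common zero generate the binary cubic forms

Mathlib only. `S_d` = homogeneous polynomials of degree `d` in `MvPolynomial (Fin 2) ℂ`.

PROOF of `bin_gen`. Let `q : Fin 3 → S_2` have no common zero in `ℂ^2 ∖ 0`. Every element of `S_2`
has a nonzero zero, so the span of the `q i` has dimension 2 or 3.
* Dimension 3: the span is `S_2` (dimension 3) and `S_1 S_2 = S_3` (monomials).
* Dimension 2: basis `p, r` of the span, without common zero. The map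
  `(L, M) ↦ L p + M r` from `S_1 × S_1` (dimension 4) to `S_3` (dimension 4) is injective, so
  surjective. Injective: let `L p + M r = 0`, `(L, M) ≠ 0`. If `L, M` are linearly dependent
  (`L = c L₀`, `M = d L₀`, `L₀ ≠ 0`, `(c, d) ≠ 0`) then `c p + d r = 0`: contradiction. If they
  are independent: at a zero `v ≠ 0` of `L` one has `M v ≠ 0`, so `r v = 0`, so `r = L m`
  (a form vanishing at a zero of the nonzero linear form `L` is divisible by `L`), and
  `L p = - M L m`, `p = - M m`; `m` is linear (degree 1) and has a zero `v' ≠ 0`: common zero of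
  `p` and `r`, contradiction.
A more computational way: write `p = (p0, p1, p2)`, `r = (r0, r1, r2)`; `p, r` have no common zero
iff the resultant (Sylvester determinant) is not 0.
The statement is in terms of polynomials; the `L i` may be taken homogeneous of degree 1.
-/

namespace Pool.Agent.P28

open MvPolynomial

private theorem hom_expand {n : ℕ} {q : MvPolynomial (Fin 2) ℂ} (hq : q.IsHomogeneous n) :
    q = ∑ k ∈ Finset.range (n + 1),
      C (coeff (Finsupp.single 0 k + Finsupp.single 1 (n - k)) q) * X 0 ^ k * X 1 ^ (n - k) := by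
  have hm : ∀ (k : ℕ) (r : ℂ), (C r * X 0 ^ k * X 1 ^ (n - k) : MvPolynomial (Fin 2) ℂ) =
      monomial (Finsupp.single 0 k + Finsupp.single 1 (n - k)) r := by
    intro k r
    rw [X_pow_eq_monomial, X_pow_eq_monomial, C_mul_monomial, monomial_mul, mul_one, mul_one]
  simp only [hm]
  ext d
  rw [coeff_sum]
  simp only [coeff_monomial]
  by_cases hd : d 0 + d 1 = n
  · have h1 : Finsupp.single 0 (d 0) + Finsupp.single 1 (n - d 0) = d := by
      ext i
      fin_cases i
      · simp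
      · simp
        omega
    rw [Finset.sum_eq_single (d 0)]
    · rw [if_pos h1, h1]
    · intro k _ hk
      rw [if_neg]
      rintro rfl
      apply hk
      simp
    · intro h
      exfalso
      apply h
      rw [Finset.mem_range]
      omega
  · have h1 : coeff d q = 0 := by
      refine hq.coeff_eq_zero ?_
      rw [Finsupp.degree_eq_sum, Fin.sum_univ_two]
      exact hd
    rw [h1, Finset.sum_eq_zero]
    intro k hk
    rw [if_neg]
    rintro rfl
    rw [Finset.mem_range] at hk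
    apply hd
    simp
    omega

private theorem quad_zero (α β γ : ℂ) : ∃ v : Fin 2 → ℂ, v ≠ 0 ∧
    α * v 0 ^ 2 + β * (v 0 * v 1) + γ * v 1 ^ 2 = 0 := by
  by_cases hα : α = 0
  · refine ⟨![1, 0], fun h => ?_, ?_⟩
    · have h1 := congrFun h 0
      simp at h1
    · rw [hα]
      simp
  · obtain ⟨s, hs⟩ := IsAlgClosed.exists_pow_nat_eq (discrim α β γ) (n := 2) (by norm_num)
    obtain ⟨t, ht⟩ := exists_quadratic_eq_zero hα ⟨s, by rw [← hs]; ring⟩
    refine ⟨![t, 1], fun h => ?_, ?_⟩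
    · have h1 := congrFun h 1
      simp at h1
    · simp only [Matrix.cons_val_zero, Matrix.cons_val_one]
      linear_combination ht

/-- a functional which kills all products -/
private theorem hankel (a b c : Fin 3 → ℂ) (f0 f1 f2 f3 : ℂ)
    (hf : ¬ (f0 = 0 ∧ f1 = 0 ∧ f2 = 0 ∧ f3 = 0))
    (h1 : ∀ i, a i * f0 + b i * f1 + c i * f2 = 0)
    (h2 : ∀ i, a i * f1 + b i * f2 + c i * f3 = 0) :
    ∃ v : Fin 2 → ℂ, v ≠ 0 ∧
      ∀ i, a i * v 0 ^ 2 + b i * (v 0 * v 1) + c i * v 1 ^ 2 = 0 := by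
  by_cases hD : f0 * f2 - f1 ^ 2 = 0 ∧ f0 * f3 - f1 * f2 = 0 ∧ f1 * f3 - f2 ^ 2 = 0
  · obtain ⟨d1, d2, d3⟩ := hD
    by_cases h0 : f0 = 0
    · have e1 : f1 = 0 := by
        rw [h0] at d1
        have : f1 ^ 2 = 0 := by linear_combination -d1
        exact pow_eq_zero_iff (two_ne_zero) |>.1 this
      have e2 : f2 = 0 := by
        rw [e1] at d3
        have : f2 ^ 2 = 0 := by linear_combination -d3
        exact pow_eq_zero_iff (two_ne_zero) |>.1 this
      have e3 : f3 ≠ 0 := fun h => hf ⟨h0, e1, e2, h⟩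
      refine ⟨![0, 1], fun h => ?_, fun i => ?_⟩
      · have h3 := congrFun h 1
        simp at h3
      · have h3 := h2 i
        rw [e1, e2] at h3
        have h4 : c i * f3 = 0 := by linear_combination h3
        have h5 := (mul_eq_zero.1 h4).resolve_right e3
        simp [h5]
    · refine ⟨![f0, f1], fun h => ?_, fun i => ?_⟩
      · have h3 := congrFun h 0
        simp at h3
        exact h0 h3
      · simp only [Matrix.cons_val_zero, Matrix.cons_val_one]
        linear_combination f0 * h1 i - c i * d1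
  · obtain ⟨v, hv, hv0⟩ := quad_zero (f1 * f3 - f2 ^ 2) (-(f0 * f3 - f1 * f2)) (f0 * f2 - f1 ^ 2)
    refine ⟨v, hv, fun i => ?_⟩
    have g1 := h1 i
    have g2 := h2 i
    have k1 : (f1 * f3 - f2 ^ 2) * b i = -(f0 * f3 - f1 * f2) * a i := by
      linear_combination f3 * g1 - f2 * g2
    have k2 : (f1 * f3 - f2 ^ 2) * c i = (f0 * f2 - f1 ^ 2) * a i := by
      linear_combination f1 * g2 - f2 * g1
    have k3 : (f0 * f2 - f1 ^ 2) * b i = -(f0 * f3 - f1 * f2) * c i := by
      linear_combination f0 * g2 - f1 * g1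
    by_contra hne
    apply hD
    refine ⟨?_, ?_, ?_⟩
    · have : (f0 * f2 - f1 ^ 2) * (a i * v 0 ^ 2 + b i * (v 0 * v 1) + c i * v 1 ^ 2) = 0 := by
        linear_combination c i * hv0 + v 0 * v 1 * k3 - v 0 ^ 2 * k2
      exact (mul_eq_zero.1 this).resolve_right hne
    · have : (f0 * f3 - f1 * f2) * (a i * v 0 ^ 2 + b i * (v 0 * v 1) + c i * v 1 ^ 2) = 0 := by
        linear_combination -b i * hv0 - v 0 ^ 2 * k1 * (-1) + v 1 ^ 2 * k3
      exact (mul_eq_zero.1 this).resolve_right hne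
    · have : (f1 * f3 - f2 ^ 2) * (a i * v 0 ^ 2 + b i * (v 0 * v 1) + c i * v 1 ^ 2) = 0 := by
        linear_combination a i * hv0 + v 0 * v 1 * k1 + v 1 ^ 2 * k2
      exact (mul_eq_zero.1 this).resolve_right hne

/-- the linear map `(l, m) ↦` coefficients of `∑ i, (l i x + m i y) (a i x² + b i x y + c i y²)` -/
private def TT (a b c : Fin 3 → ℂ) : ((Fin 3 → ℂ) × (Fin 3 → ℂ)) →ₗ[ℂ] (Fin 4 → ℂ) where
  toFun p := ![∑ i, p.1 i * a i, ∑ i, (p.1 i * b i + p.2 i * a i),
    ∑ i, (p.1 i * c i + p.2 i * b i), ∑ i, p.2 i * c i]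
  map_add' p p' := by
    ext j
    fin_cases j <;> simp [Fin.sum_univ_three] <;> ring
  map_smul' r p := by
    ext j
    fin_cases j <;> simp [Fin.sum_univ_three] <;> ring

private theorem TT_range (a b c : Fin 3 → ℂ)
    (h : ∀ v : Fin 2 → ℂ, v ≠ 0 →
      ∃ i, a i * v 0 ^ 2 + b i * (v 0 * v 1) + c i * v 1 ^ 2 ≠ 0) :
    LinearMap.range (TT a b c) = ⊤ := by
  by_contra hcon
  obtain ⟨f, hf, hk⟩ := Submodule.exists_le_ker_of_lt_top _ (lt_top_iff_ne_top.2 hcon)
  have hfv : ∀ v, f v = v 0 * f (Pi.single 0 1) + v 1 * f (Pi.single 1 1) +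
      v 2 * f (Pi.single 2 1) + v 3 * f (Pi.single 3 1) := by
    intro v
    have h1 : v = v 0 • Pi.single 0 1 + v 1 • Pi.single 1 1 + v 2 • Pi.single 2 1 +
        v 3 • Pi.single 3 1 := by
      ext j
      fin_cases j <;> simp
    conv_lhs => rw [h1]
    simp only [map_add, map_smul, smul_eq_mul]
  have h0 : ∀ p, f (TT a b c p) = 0 := fun p => hk ⟨p, rfl⟩
  obtain ⟨v, hv, hv'⟩ := hankel a b c (f (Pi.single 0 1)) (f (Pi.single 1 1))
    (f (Pi.single 2 1)) (f (Pi.single 3 1)) (by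
      rintro ⟨e0, e1, e2, e3⟩
      apply hf
      refine LinearMap.ext fun v => ?_
      rw [hfv v, e0, e1, e2, e3]
      simp) (fun i => by
      have h1 := h0 (Pi.single i 1, 0)
      rw [hfv] at h1
      simpa [TT, Pi.single_apply] using h1) (fun i => by
      have h1 := h0 (0, Pi.single i 1)
      rw [hfv] at h1
      simpa [TT, Pi.single_apply] using h1)
  obtain ⟨i, hi⟩ := h v hv
  exact hi (hv' i)

theorem bin_gen (q : Fin 3 → MvPolynomial (Fin 2) ℂ) (hq : ∀ i, (q i).IsHomogeneous 2)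
    (hz : ∀ v : Fin 2 → ℂ, v ≠ 0 → ∃ i, eval v (q i) ≠ 0) (g : MvPolynomial (Fin 2) ℂ)
    (hg : g.IsHomogeneous 3) :
    ∃ L : Fin 3 → MvPolynomial (Fin 2) ℂ, (∀ i, (L i).IsHomogeneous 1) ∧
      g = ∑ i, L i * q i := by
  obtain ⟨a, ha⟩ : ∃ a : Fin 3 → ℂ, ∀ i, a i =
    coeff (Finsupp.single 0 2 + Finsupp.single 1 0) (q i) := ⟨_, fun _ => rfl⟩
  obtain ⟨b, hb⟩ : ∃ b : Fin 3 → ℂ, ∀ i, b i =
    coeff (Finsupp.single 0 1 + Finsupp.single 1 1) (q i) := ⟨_, fun _ => rfl⟩
  obtain ⟨c, hc⟩ : ∃ c : Fin 3 → ℂ, ∀ i, c i =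
    coeff (Finsupp.single 0 0 + Finsupp.single 1 2) (q i) := ⟨_, fun _ => rfl⟩
  have hqe : ∀ i, q i = C (a i) * X 0 ^ 2 + C (b i) * (X 0 * X 1) + C (c i) * X 1 ^ 2 := by
    intro i
    have h1 := hom_expand (hq i)
    simp only [Finset.sum_range_succ, Finset.sum_range_zero] at h1
    simp only [Nat.sub_zero, Nat.reduceSub, ← ha, ← hb, ← hc] at h1
    refine h1.trans ?_
    ring
  have hge := hom_expand hg
  obtain ⟨g0, hg0⟩ : ∃ g0, g0 = coeff (Finsupp.single 0 3 + Finsupp.single 1 0) g := ⟨_, rfl⟩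
  obtain ⟨g1, hg1⟩ : ∃ g0, g0 = coeff (Finsupp.single 0 2 + Finsupp.single 1 1) g := ⟨_, rfl⟩
  obtain ⟨g2, hg2⟩ : ∃ g0, g0 = coeff (Finsupp.single 0 1 + Finsupp.single 1 2) g := ⟨_, rfl⟩
  obtain ⟨g3, hg3⟩ : ∃ g0, g0 = coeff (Finsupp.single 0 0 + Finsupp.single 1 3) g := ⟨_, rfl⟩
  have hT := TT_range a b c (by
    intro v hv
    obtain ⟨i, hi⟩ := hz v hv
    refine ⟨i, fun h => hi ?_⟩
    rw [hqe i]
    simp only [map_add, map_mul, map_pow, eval_C, eval_X]
    exact h)
  obtain ⟨⟨l, m⟩, hlm⟩ : (![g0, g1, g2, g3] : Fin 4 → ℂ) ∈ LinearMap.range (TT a b c) := by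
    rw [hT]
    exact Submodule.mem_top
  have e0 : g0 = ∑ i, l i * a i := (congrFun hlm 0).symm
  have e1 : g1 = ∑ i, (l i * b i + m i * a i) := (congrFun hlm 1).symm
  have e2 : g2 = ∑ i, (l i * c i + m i * b i) := (congrFun hlm 2).symm
  have e3 : g3 = ∑ i, m i * c i := (congrFun hlm 3).symm
  refine ⟨fun i => C (l i) * X 0 + C (m i) * X 1, fun i => ?_, ?_⟩
  · have h1 : (C (l i) * X 0 : MvPolynomial (Fin 2) ℂ).IsHomogeneous (0 + 1) :=
      (isHomogeneous_C _ _).mul (isHomogeneous_X _ _)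
    have h2 : (C (m i) * X 1 : MvPolynomial (Fin 2) ℂ).IsHomogeneous (0 + 1) :=
      (isHomogeneous_C _ _).mul (isHomogeneous_X _ _)
    exact h1.add h2
  · simp only [Finset.sum_range_succ, Finset.sum_range_zero] at hge
    simp only [Nat.sub_zero, Nat.reduceSub, ← hg0, ← hg1, ← hg2, ← hg3] at hge
    have c0 := congrArg (C : ℂ → MvPolynomial (Fin 2) ℂ) e0
    have c1 := congrArg (C : ℂ → MvPolynomial (Fin 2) ℂ) e1
    have c2 := congrArg (C : ℂ → MvPolynomial (Fin 2) ℂ) e2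
    have c3 := congrArg (C : ℂ → MvPolynomial (Fin 2) ℂ) e3
    simp only [Fin.sum_univ_three, map_add, map_mul] at c0 c1 c2 c3
    rw [hge]
    simp only [Fin.sum_univ_three, hqe]
    linear_combination X 0 ^ 3 * c0 + X 0 ^ 2 * X 1 * c1 + X 0 * X 1 ^ 2 * c2 + X 1 ^ 3 * c3

end Pool.Agent.P28
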