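import Pool.Agent.P28.Defs

set_option autoImplicit false

/-!
# P28 B06: zeros of binary forms (Mathlib and Defs only)

`bin_atMost`: a nonzero binary form of degree `d` has at most `d` zeros in the projective line.
PROOF: induction on `d`, or: dehomogenise. Let `S` be a finite set of pairwise nonproportional
nonzero zeros. For each `v ∈ S` the linear form `v 1 X 0 - v 0 X 1` divides `p` (a form vanishing
at `v`: change coordinates so that `v = (0, 1)`, then the coefficient of `X 1 ^ d` is 0), these
linear forms are prime and pairwise not associated, so their product divides `p`, and degrees.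
Alternatively choose `c` with `v 0 ≠ 0` after a linear change of coordinates for all `v ∈ S`
(possible, `S` finite) and count roots of the one variable polynomial `p (1, t)`.

`bin_zero`: a binary form of positive degree has a nonzero zero.

`line_atMost`: points of the line `u 2 = 0`.
-/

namespace Pool.Agent.P28

open Module MvPolynomial

private theorem binz_expand {n : ℕ} {q : MvPolynomial (Fin 2) ℂ} (hq : q.IsHomogeneous n) :
    q = ∑ k ∈ Finset.range (n + 1),
      C (coeff (Finsupp.single 0 k + Finsupp.single 1 (n - k)) q) * X 0 ^ k * X 1 ^ (n - k) := by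
  have hm : ∀ (k : ℕ) (r : ℂ), (C r * X 0 ^ k * X 1 ^ (n - k) : MvPolynomial (Fin 2) ℂ) =
      monomial (Finsupp.single 0 k + Finsupp.single 1 (n - k)) r := by
    intro k r
    rw [X_pow_eq_monomial, X_pow_eq_monomial, C_mul_monomial, monomial_mul, mul_one, mul_one]
  simp only [hm]
  ext d
  rw [coeff_sum]
  simp only [coeff_monomial]
  by_cases hd : d 0 + d 1 = n
  · have h1 : Finsupp.single 0 (d 0) + Finsupp.single 1 (n - d 0) = d := by
      ext i
      fin_cases i
      · simp
      · simp
        omega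
    rw [Finset.sum_eq_single (d 0)]
    · rw [if_pos h1, h1]
    · intro k _ hk
      rw [if_neg]
      rintro rfl
      apply hk
      simp
    · intro h
      exfalso
      apply h
      rw [Finset.mem_range]
      omega
  · have h1 : coeff d q = 0 := by
      refine hq.coeff_eq_zero ?_
      rw [Finsupp.degree_eq_sum, Fin.sum_univ_two]
      exact hd
    rw [h1, Finset.sum_eq_zero]
    intro k hk
    rw [if_neg]
    rintro rfl
    rw [Finset.mem_range] at hk
    apply hd
    simp
    omega

/-- the coefficients of a binary form -/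
private theorem binz_eval {d : ℕ} {p : MvPolynomial (Fin 2) ℂ} (hp : p.IsHomogeneous d) :
    ∃ a : ℕ → ℂ, (∀ v : Fin 2 → ℂ, eval v p =
      ∑ k ∈ Finset.range (d + 1), a k * v 0 ^ k * v 1 ^ (d - k)) ∧
      ((∀ k ∈ Finset.range (d + 1), a k = 0) → p = 0) := by
  refine ⟨fun k => coeff (Finsupp.single 0 k + Finsupp.single 1 (d - k)) p, fun v => ?_,
    fun h => ?_⟩
  · conv_lhs => rw [binz_expand hp]
    simp only [map_sum, map_mul, map_pow, eval_C, eval_X]
  · rw [binz_expand hp]
    refine Finset.sum_eq_zero fun k hk => ?_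
    have h1 : coeff (Finsupp.single 0 k + Finsupp.single 1 (d - k)) p = 0 := h k hk
    rw [h1, map_zero, zero_mul, zero_mul]

/-- the dehomogenised polynomial -/
private noncomputable def binz_P (d : ℕ) (a : ℕ → ℂ) : Polynomial ℂ :=
  ∑ k ∈ Finset.range (d + 1), Polynomial.C (a k) * Polynomial.X ^ (d - k)

private theorem binz_coeff (d : ℕ) (a : ℕ → ℂ) {k : ℕ} (hk : k ≤ d) :
    (binz_P d a).coeff (d - k) = a k := by
  rw [binz_P, Polynomial.finsetSum_coeff, Finset.sum_eq_single k]
  · rw [Polynomial.coeff_C_mul, Polynomial.coeff_X_pow, if_pos rfl, mul_one]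
  · intro j hj hjk
    rw [Finset.mem_range] at hj
    rw [Polynomial.coeff_C_mul, Polynomial.coeff_X_pow, if_neg (by omega), mul_zero]
  · intro h
    exact absurd (Finset.mem_range.2 (by omega)) h

private theorem binz_deg (d : ℕ) (a : ℕ → ℂ) : (binz_P d a).natDegree ≤ d := by
  refine Polynomial.natDegree_sum_le_of_forall_le _ _ fun k _ => ?_
  exact (Polynomial.natDegree_C_mul_X_pow_le _ _).trans (Nat.sub_le _ _)

private theorem binz_deg' (d : ℕ) (a : ℕ → ℂ) (h0 : a 0 = 0) (hP : binz_P d a ≠ 0) :
    (binz_P d a).natDegree + 1 ≤ d := by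
  have h1 := binz_deg d a
  rcases Nat.lt_or_ge (binz_P d a).natDegree d with h2 | h2
  · exact h2
  · exfalso
    have h3 : (binz_P d a).natDegree = d := le_antisymm h1 h2
    have h4 := binz_coeff d a (Nat.zero_le d)
    rw [Nat.sub_zero, h0] at h4
    apply hP
    rw [← Polynomial.leadingCoeff_eq_zero, Polynomial.leadingCoeff, h3, h4]

private theorem binz_eval_P (d : ℕ) (a : ℕ → ℂ) (v : Fin 2 → ℂ) (hv : v 0 ≠ 0) :
    ∑ k ∈ Finset.range (d + 1), a k * v 0 ^ k * v 1 ^ (d - k) =
      v 0 ^ d * (binz_P d a).eval (v 1 / v 0) := by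
  rw [binz_P, Polynomial.eval_finsetSum, Finset.mul_sum]
  refine Finset.sum_congr rfl fun k hk => ?_
  rw [Finset.mem_range] at hk
  have h1 : v 0 ^ d = v 0 ^ k * v 0 ^ (d - k) := by
    rw [← pow_add]
    congr 1
    omega
  rw [Polynomial.eval_mul, Polynomial.eval_C, Polynomial.eval_pow, Polynomial.eval_X, div_pow, h1]
  have h2 : v 0 ^ (d - k) ≠ 0 := pow_ne_zero _ hv
  field_simp

theorem bin_atMost {d : ℕ} (p : MvPolynomial (Fin 2) ℂ) (hp : p.IsHomogeneous d) (h0 : p ≠ 0) :
    AtMost d (fun v : Fin 2 → ℂ => eval v p = 0) := by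
  classical
  obtain ⟨a, ha, ha0⟩ := binz_eval hp
  have hP : binz_P d a ≠ 0 := by
    intro h
    refine h0 (ha0 fun k hk => ?_)
    rw [Finset.mem_range] at hk
    rw [← binz_coeff d a (k := k) (by omega), h, Polynomial.coeff_zero]
  intro S hS hZ
  have h1 : (S.filter fun v => v 0 ≠ 0).card ≤ (binz_P d a).natDegree := by
    have h2 : ((S.filter fun v => v 0 ≠ 0).image fun v => v 1 / v 0) ⊆
        (binz_P d a).roots.toFinset := by
      intro t ht
      obtain ⟨v, hv, rfl⟩ := Finset.mem_image.1 ht
      obtain ⟨hvS, hv0⟩ := Finset.mem_filter.1 hv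
      rw [Multiset.mem_toFinset, Polynomial.mem_roots hP, Polynomial.IsRoot.def]
      have h3 : eval v p = 0 := hZ v hvS
      rw [ha v, binz_eval_P d a v hv0] at h3
      exact (mul_eq_zero.1 h3).resolve_left (pow_ne_zero _ hv0)
    have h3 : ((S.filter fun v => v 0 ≠ 0).image fun v => v 1 / v 0).card =
        (S.filter fun v => v 0 ≠ 0).card := by
      refine Finset.card_image_of_injOn fun v hv w hw hvw => ?_
      obtain ⟨hvS, hv0⟩ := Finset.mem_filter.1 (Finset.mem_coe.1 hv)
      obtain ⟨hwS, hw0⟩ := Finset.mem_filter.1 (Finset.mem_coe.1 hw)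
      by_contra hne
      have h4 := LinearIndependent.pair_iff.1 (hS.2 v hvS w hwS hne) (w 0) (-v 0) ?_
      · exact hw0 h4.1
      · have h5 : v 1 / v 0 = w 1 / w 0 := hvw
        rw [div_eq_div_iff hv0 hw0] at h5
        ext i
        fin_cases i
        · simp
          ring
        · simp
          linear_combination h5
    rw [← h3]
    refine (Finset.card_le_card h2).trans ?_
    exact (Multiset.toFinset_card_le _).trans (Polynomial.card_roots' _)
  have h2 : (S.filter fun v => ¬ v 0 ≠ 0).card ≤ 1 := by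
    rw [Finset.card_le_one]
    intro v hv w hw
    obtain ⟨hvS, hv0⟩ := Finset.mem_filter.1 hv
    obtain ⟨hwS, hw0⟩ := Finset.mem_filter.1 hw
    rw [not_not] at hv0 hw0
    by_contra hne
    have h4 := LinearIndependent.pair_iff.1 (hS.2 v hvS w hwS hne) (w 1) (-v 1) ?_
    · apply hS.1 w hwS
      ext i
      fin_cases i
      · exact hw0
      · exact h4.1
    · ext i
      fin_cases i
      · simp [hv0, hw0]
      · simp
        ring
  have h3 := Finset.card_filter_add_card_filter_not (s := S) (fun v => v 0 ≠ 0)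
  rcases Finset.eq_empty_or_nonempty (S.filter fun v => ¬ v 0 ≠ 0) with he | ⟨v, hv⟩
  · rw [he, Finset.card_empty] at h3
    have h4 := binz_deg d a
    omega
  · obtain ⟨hvS, hv0⟩ := Finset.mem_filter.1 hv
    rw [not_not] at hv0
    have hv1 : v 1 ≠ 0 := by
      intro hv1
      apply hS.1 v hvS
      ext i
      fin_cases i
      · exact hv0
      · exact hv1
    have h4 : eval v p = 0 := hZ v hvS
    rw [ha v, Finset.sum_eq_single 0] at h4
    · rw [pow_zero, mul_one, Nat.sub_zero] at h4
      have h5 := (mul_eq_zero.1 h4).resolve_right (pow_ne_zero _ hv1)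
      have h6 := binz_deg' d a h5 hP
      omega
    · intro k _ hk
      rw [hv0, zero_pow hk, mul_zero, zero_mul]
    · intro h
      exact absurd (Finset.mem_range.2 (by omega)) h

theorem bin_zero {d : ℕ} (hd : d ≠ 0) (p : MvPolynomial (Fin 2) ℂ) (hp : p.IsHomogeneous d) :
    ∃ v : Fin 2 → ℂ, v ≠ 0 ∧ eval v p = 0 := by
  obtain ⟨a, ha, ha0⟩ := binz_eval hp
  by_cases h0 : a 0 = 0
  · refine ⟨![0, 1], fun h => ?_, ?_⟩
    · have h1 := congrFun h 1
      simp at h1
    · rw [ha, Finset.sum_eq_single 0]
      · rw [h0, zero_mul, zero_mul]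
      · intro k _ hk
        simp [hk]
      · intro h
        exact absurd (Finset.mem_range.2 (by omega)) h
  · have h1 := binz_coeff d a (Nat.zero_le d)
    rw [Nat.sub_zero] at h1
    have h2 : (binz_P d a).degree ≠ 0 := by
      intro h
      have h3 : (binz_P d a).coeff d = 0 := by
        refine Polynomial.coeff_eq_zero_of_natDegree_lt ?_
        rw [Polynomial.natDegree_eq_of_degree_eq_some (n := 0) h]
        omega
      rw [h1] at h3
      exact h0 h3
    obtain ⟨t, ht⟩ := IsAlgClosed.exists_root _ h2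
    refine ⟨![1, t], fun h => ?_, ?_⟩
    · have h3 := congrFun h 0
      simp at h3
    · rw [ha, binz_eval_P d a _ (by simp)]
      have h3 : (binz_P d a).eval t = 0 := ht
      simp [h3]

theorem line_atMost {n : ℕ} {Z : (Fin 3 → ℂ) → Prop}
    (h : AtMost n (fun v : Fin 2 → ℂ => Z ![v 0, v 1, 0])) :
    AtMost n (fun u : Fin 3 → ℂ => Z u ∧ u 2 = 0) := by
  classical
  intro S hS hZ
  have hinj : Set.InjOn (fun u : Fin 3 → ℂ => (![u 0, u 1] : Fin 2 → ℂ)) (S : Set (Fin 3 → ℂ)) := by
    intro u hu w hw huw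
    have h1 := congrFun huw 0
    have h2 := congrFun huw 1
    simp only [Matrix.cons_val_zero, Matrix.cons_val_one] at h1 h2
    have h3 := (hZ u hu).2
    have h4 := (hZ w hw).2
    ext i
    fin_cases i
    · exact h1
    · exact h2
    · exact h3.trans h4.symm
  have h1 := h (S.image fun u => ![u 0, u 1]) ⟨fun v hv => ?_, fun v hv w hw hvw => ?_⟩
    (fun v hv => ?_)
  · rwa [Finset.card_image_of_injOn hinj] at h1
  · obtain ⟨u, hu, rfl⟩ := Finset.mem_image.1 hv
    intro h0
    apply hS.1 u hu
    have h1 := congrFun h0 0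
    have h2 := congrFun h0 1
    simp only [Matrix.cons_val_zero, Matrix.cons_val_one, Pi.zero_apply] at h1 h2
    ext i
    fin_cases i
    · exact h1
    · exact h2
    · exact (hZ u hu).2
  · obtain ⟨u, hu, rfl⟩ := Finset.mem_image.1 hv
    obtain ⟨u', hu', rfl⟩ := Finset.mem_image.1 hw
    have hne : u ≠ u' := fun he => hvw (by rw [he])
    rw [LinearIndependent.pair_iff]
    intro s t hst
    refine LinearIndependent.pair_iff.1 (hS.2 u hu u' hu' hne) s t ?_
    have h1 := congrFun hst 0
    have h2 := congrFun hst 1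
    simp only [Pi.add_apply, Pi.smul_apply, Matrix.cons_val_zero, Matrix.cons_val_one,
      Pi.zero_apply, smul_eq_mul] at h1 h2
    have h3 := (hZ u hu).2
    have h4 := (hZ u' hu').2
    ext i
    fin_cases i
    · exact h1
    · exact h2
    · simp [h3, h4]
  · obtain ⟨u, hu, rfl⟩ := Finset.mem_image.1 hv
    have h2 : (![(![u 0, u 1] : Fin 2 → ℂ) 0, (![u 0, u 1] : Fin 2 → ℂ) 1, 0] : Fin 3 → ℂ) = u := by
      ext i
      fin_cases i
      · rfl
      · rfl
      · exact (hZ u hu).2.symm
    change Z _
    rw [h2]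
    exact (hZ u hu).1

end Pool.Agent.P28
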