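import Pool.Agent.P28.CaseTwo

set_option autoImplicit false

/-!
# P28 B16: irreducible discriminant cubic, vanishing `b`

`C` smooth, standard position, `bm C u = 0` for all `u`, `D3 C` irreducible, no two independent
vectors with `R1`.

(1) `case_c_not_dvd`: `pc C` is not `k • D3 C` (in particular not `0`). PROOF: suppose
`cm C u = k det (am C u)` for all `u`. Choose `u ≠ 0` with `det A_u = 0` and `A_u` not of rank 1:
if there is `w` with `R1 C w`, choose a 2-dimensional subspace of `ℂ^3` not containing `w`,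
otherwise any; `det A` restricted to it is a binary cubic form and has a zero `u ≠ 0`
(`bin_zero`), and `u` is not proportional to `w`, so not `R1 C u` (`hno`). `A_u ≠ 0` (`net_inj`),
its rank is not 1, so `adj A_u ≠ 0`, and `adj_symm` gives `kv ≠ 0`, `rho ≠ 0` with `A_u kv = 0`,
`adj A_u = rho kv ⊗ kv`. From `bm = 0` by polarisation: `T (x,0) (0,u) (0,v) = 0` for all
`x, u, v`. From `cm C u = T (0,u) (0,u) (0,u) / 3 = k det A_u`, comparing the coefficients of `t` in
`u + t v`: `T (0,u) (0,u) (0,v) = k tr (adj A_u * A_v) = k rho A_v(kv, kv)`. For `y = (t kv, u)`: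
`T y y (x,0) = 2 t T (kv,0) (x,0) (0,u) + 0 = 0` (`A_u kv = 0`) and
`T y y (0,v) = t^2 A_v(kv,kv) + 0 + k rho A_v(kv,kv)`, which is `0` for all `v` if
`t^2 = - k rho`. `y ≠ 0` as `u ≠ 0`: singular, contradiction.

(2) `case_c_special`: a special `u ≠ 0` has `det A_u = 0` and (`cm C u = 0` or `R1 C u`). PROOF:
`spec_rank`: `p_i q' + q_i p' = bm = 0`, `cm = 2 p' q'`, `A = p ⊗ q + q ⊗ p`. If `cm ≠ 0` then
`p', q' ≠ 0` and `q = - (q'/p') p`, so `A_ij = - 2 (q'/p') p_i p_j`: rank 1
(`l = sqrt(- 2 q'/p') p`), `u ≠ 0`.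

(3) `case_c`: at most 10 special points: the points with `det A_u = 0`, `cm C u = 0`: at most 9
(`bezout` for `D3 C` and `pc C`; relatively prime, because `D3 C` is irreducible and does not
divide `pc C`: `pc C = D3 C * r` with `r` a constant, `hom_factor`, contradicts (1)); the points
with `R1`: at most 1 (`hno`).
-/

namespace Pool.Agent.P28

open Module MvPolynomial

private theorem ct_T_eq (C : Cub VV) (x y u : Fin 3 → ℂ) :
    C.T (x, 0) (y, 0) (0, u) = ∑ i, ∑ j, x i * y j * am C u i j := by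
  rw [sum_E x, sum_E y]
  simp only [Fin.sum_univ_three, map_add, map_smul, LinearMap.add_apply, LinearMap.smul_apply,
    smul_eq_mul, am, Matrix.of_apply]
  ring

private theorem ct_am_lin (C : Cub VV) (s t : ℂ) (u u' : Fin 3 → ℂ) :
    am C (s • u + t • u') = s • am C u + t • am C u' := by
  ext i j
  have h : ((0, s • u + t • u') : VV) = s • (0, u) + t • (0, u') := by
    ext i <;> simp
  simp only [am, Matrix.of_apply, Matrix.add_apply, Matrix.smul_apply]
  rw [h, map_add, map_smul, map_smul, smul_eq_mul, smul_eq_mul]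

/-- A symmetric matrix with vanishing adjugate. -/
private theorem ct_minors (A : Matrix (Fin 3) (Fin 3) ℂ) (hA : ∀ i j, A i j = A j i)
    (ha : A.adjugate = 0) (i j k : Fin 3) : A i i * A j k = A i j * A i k := by
  have e : ∀ i j, A.adjugate i j = 0 := fun i j => by rw [ha]; rfl
  rw [Matrix.adjugate_fin_three] at e
  have e00 := e 0 0
  have e01 := e 0 1
  have e02 := e 0 2
  have e11 := e 1 1
  have e12 := e 1 2
  have e22 := e 2 2
  simp at e00 e01 e02 e11 e12 e22
  have s1 := hA 1 0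
  have s2 := hA 2 0
  have s3 := hA 2 1
  rw [s3] at e00 e01
  rw [s2] at e11
  rw [s1] at e12 e22
  clear e ha hA
  fin_cases i <;> fin_cases j <;> fin_cases k <;> simp only [Fin.zero_eta, Fin.mk_one,
    Fin.reduceFinMk, s1, s2, s3] <;> grind

/-- A symmetric nonzero matrix with vanishing adjugate is `l ⊗ l`. -/
private theorem ct_rank_one (A : Matrix (Fin 3) (Fin 3) ℂ) (hA : ∀ i j, A i j = A j i)
    (ha : A.adjugate = 0) (h0 : A ≠ 0) :
    ∃ l : Fin 3 → ℂ, ∀ j k, A j k = l j * l k := by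
  have key := ct_minors A hA ha
  have hd : ∃ i, A i i ≠ 0 := by
    by_contra hc
    push Not at hc
    apply h0
    ext i j
    have h1 := key i j j
    rw [hc i, zero_mul] at h1
    exact mul_self_eq_zero.1 h1.symm
  obtain ⟨i, hi⟩ := hd
  obtain ⟨c, hc⟩ := IsAlgClosed.exists_pow_nat_eq ((A i i)⁻¹) (n := 2) (by norm_num)
  refine ⟨fun j => c * A i j, fun j k => ?_⟩
  have h1 : c * A i j * (c * A i k) = c ^ 2 * (A i j * A i k) := by ring
  rw [h1, hc, ← key i j k]
  field_simp

/-- The determinant has a zero on the span of two vectors. -/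
private theorem ct_zero (A B : Matrix (Fin 3) (Fin 3) ℂ) :
    ∃ s t : ℂ, (s ≠ 0 ∨ t ≠ 0) ∧ (s • A + t • B).det = 0 := by
  by_cases hB : B.det = 0
  · exact ⟨0, 1, Or.inr one_ne_zero, by rw [zero_smul, zero_add, one_smul, hB]⟩
  · have hdeg : (B⁻¹ * A).charpoly.degree ≠ 0 := by
      rw [Matrix.charpoly_degree_eq_dim]
      simp
    obtain ⟨m, hm⟩ := IsAlgClosed.exists_root _ hdeg
    have hm' : (Matrix.scalar (Fin 3) m - B⁻¹ * A).det = 0 := by
      rw [← Matrix.eval_charpoly]
      exact hm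
    refine ⟨-1, m, Or.inl (by norm_num), ?_⟩
    have hu : IsUnit B.det := isUnit_iff_ne_zero.2 hB
    have h1 : B * (Matrix.scalar (Fin 3) m - B⁻¹ * A) = (-1 : ℂ) • A + m • B := by
      rw [mul_sub, Matrix.mul_nonsing_inv_cancel_left _ _ hu]
      have h2 : B * Matrix.scalar (Fin 3) m = m • B := by
        ext i j
        rw [Matrix.scalar_apply, Matrix.mul_diagonal, Matrix.smul_apply, smul_eq_mul, mul_comm]
      rw [h2, neg_smul, one_smul]
      abel
    rw [← h1, Matrix.det_mul, hm', mul_zero]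

/-- There is a vector whose matrix has rank exactly two. -/
private theorem ct_rank_two {C : Cub VV} (hs : C.Smooth) (hC : Std C)
    (hno : ¬ ∃ w w' : Fin 3 → ℂ, LinearIndependent ℂ ![w, w'] ∧ R1 C w ∧ R1 C w') :
    ∃ u : Fin 3 → ℂ, u ≠ 0 ∧ (am C u).det = 0 ∧ (am C u).adjugate ≠ 0 := by
  have key : ∀ i j k : Fin 3, i ≠ j → i ≠ k → j ≠ k → (∀ w, R1 C w → w i ≠ 0) →
      ∃ u : Fin 3 → ℂ, u ≠ 0 ∧ (am C u).det = 0 ∧ (am C u).adjugate ≠ 0 := by
    intro i j k hij hik hjk hw
    obtain ⟨s, t, hst, hdet⟩ := ct_zero (am C (Pi.single j 1)) (am C (Pi.single k 1))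
    rw [← ct_am_lin] at hdet
    have hu0 : s • (Pi.single j 1 : Fin 3 → ℂ) + t • (Pi.single k 1 : Fin 3 → ℂ) ≠ 0 := by
      intro h0
      have h1 := congrFun h0 j
      have h2 := congrFun h0 k
      simp [hjk, hjk.symm] at h1 h2
      rcases hst with h | h
      · exact h h1
      · exact h h2
    refine ⟨_, hu0, hdet, fun ha => ?_⟩
    obtain ⟨l, hl⟩ := ct_rank_one _ (am_symm C _) ha (net_inj C hs hC hu0)
    refine hw _ ⟨hu0, l, hl⟩ ?_
    simp [hij, hik]
  by_cases hR : ∃ w, R1 C w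
  · obtain ⟨w, hw⟩ := hR
    obtain ⟨i, hi⟩ : ∃ i, w i ≠ 0 := by
      by_contra h
      push Not at h
      exact hw.1 (funext h)
    have hall : ∀ w', R1 C w' → w' i ≠ 0 := by
      intro w' hw' h0
      refine hno ⟨w, w', ?_, hw, hw'⟩
      rw [LinearIndependent.pair_iff]
      intro s t hst
      have h1 := congrFun hst i
      simp only [Pi.add_apply, Pi.smul_apply, smul_eq_mul, h0, mul_zero, add_zero,
        Pi.zero_apply] at h1
      have hs0 : s = 0 := (mul_eq_zero.1 h1).resolve_right hi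
      refine ⟨hs0, ?_⟩
      rw [hs0, zero_smul, zero_add] at hst
      exact (smul_eq_zero.1 hst).resolve_right hw'.1
    fin_cases i
    · exact key 0 1 2 (by decide) (by decide) (by decide) hall
    · exact key 1 0 2 (by decide) (by decide) (by decide) hall
    · exact key 2 0 1 (by decide) (by decide) (by decide) hall
  · exact key 0 1 2 (by decide) (by decide) (by decide) fun w hw => absurd ⟨w, hw⟩ hR

/-- Comparison of the linear coefficients. -/
private theorem ct_lin (A B : Matrix (Fin 3) (Fin 3) ℂ) (k c0 c1 c2 c3 : ℂ)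
    (h : ∀ t : ℂ, c0 + c1 * t + c2 * t ^ 2 + c3 * t ^ 3 = k * (A + t • B).det)
    {v : Fin 3 → ℂ} {rho : ℂ} (hk : ∀ i j, A.adjugate i j = rho * (v i * v j)) :
    c1 = k * rho * ∑ i, ∑ j, v i * v j * B i j := by
  have h1 := h 1
  have h2 := h (-1)
  have h3 := h 2
  have h4 := h (-2)
  rw [Matrix.det_fin_three] at h1 h2 h3 h4
  simp only [Matrix.add_apply, Matrix.smul_apply, smul_eq_mul] at h1 h2 h3 h4
  rw [Matrix.adjugate_fin_three] at hk
  have e00 := hk 0 0
  have e01 := hk 0 1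
  have e02 := hk 0 2
  have e10 := hk 1 0
  have e11 := hk 1 1
  have e12 := hk 1 2
  have e20 := hk 2 0
  have e21 := hk 2 1
  have e22 := hk 2 2
  simp at e00 e01 e02 e10 e11 e12 e20 e21 e22
  simp only [Fin.sum_univ_three]
  linear_combination (1 / 12 : ℂ) * (8 * (h1 - h2) - (h3 - h4)) + k * B 0 0 * e00
    + k * B 0 1 * e10 + k * B 0 2 * e20 + k * B 1 0 * e01 + k * B 1 1 * e11 + k * B 1 2 * e21
    + k * B 2 0 * e02 + k * B 2 1 * e12 + k * B 2 2 * e22

/-- Polarisation of `bm = 0`. -/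
private theorem ct_pol {C : Cub VV} (hb : ∀ u, bm C u = 0) (x u v : Fin 3 → ℂ) :
    C.T (x, 0) (0, u) (0, v) = 0 := by
  have h1 : ∀ i u, C.T (E i) (0, u) (0, u) = 0 := by
    intro i u
    have h := congrFun (hb u) i
    rw [bm, Pi.zero_apply, div_eq_zero_iff] at h
    exact h.resolve_right (by norm_num)
  have h2 : ∀ i, C.T (E i) (0, u) (0, v) = 0 := by
    intro i
    have h := h1 i (u + v)
    have e : ((0, u + v) : VV) = (0, u) + (0, v) := by
      ext i <;> simp
    rw [e] at h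
    simp only [map_add, LinearMap.add_apply] at h
    rw [h1, h1, C.cy (E i) (0, v) (0, u)] at h
    linear_combination (1 / 2 : ℂ) * h
  rw [sum_E x, map_sum, LinearMap.sum_apply, LinearMap.sum_apply]
  refine Finset.sum_eq_zero fun i _ => ?_
  rw [map_smul, LinearMap.smul_apply, LinearMap.smul_apply, h2, smul_zero]

theorem case_c_not_dvd {C : Cub VV} (hs : C.Smooth) (hC : Std C) (hb : ∀ u, bm C u = 0)
    (hno : ¬ ∃ w w' : Fin 3 → ℂ, LinearIndependent ℂ ![w, w'] ∧ R1 C w ∧ R1 C w') (k : ℂ) :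
    ¬ ∀ u, cm C u = k * (am C u).det := by
  intro hk
  obtain ⟨u, hu, hdet, hadj⟩ := ct_rank_two hs hC hno
  obtain ⟨kv, rho, hkv, hrho, hker, hadj'⟩ := adj_symm _ (am_symm C u) hdet hadj
  obtain ⟨t, ht⟩ := IsAlgClosed.exists_pow_nat_eq (-(k * rho)) (n := 2) (by norm_num)
  have hpol := ct_pol hb
  -- the linear coefficient
  have hlin : ∀ v : Fin 3 → ℂ, C.T (0, u) (0, u) (0, v) =
      k * rho * ∑ i, ∑ j, kv i * kv j * am C v i j := by
    intro v
    refine ct_lin (am C u) (am C v) k (C.T (0, u) (0, u) (0, u) / 3)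
      (C.T (0, u) (0, u) (0, v)) (C.T (0, u) (0, v) (0, v)) (C.T (0, v) (0, v) (0, v) / 3)
      (fun s => ?_) hadj'
    have e1 : am C u + s • am C v = am C ((1 : ℂ) • u + s • v) := by
      rw [ct_am_lin, one_smul]
    have e2 : ((0, (1 : ℂ) • u + s • v) : VV) = (0, u) + s • (0, v) := by
      ext i <;> simp
    rw [e1, ← hk, cm, e2]
    simp only [map_add, map_smul, LinearMap.add_apply, LinearMap.smul_apply, smul_eq_mul]
    rw [C.cy (0, u) (0, v) (0, u), C.sw (0, v) (0, u) (0, u), C.cy (0, u) (0, v) (0, u),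
      C.cy (0, v) (0, v) (0, u), C.sw (0, v) (0, u) (0, v)]
    ring
  have hy : ((t • kv, u) : VV) ≠ 0 := fun h => hu (congrArg Prod.snd h)
  obtain ⟨z, hz⟩ := hs _ hy
  apply hz
  have ey : ((t • kv, u) : VV) = t • (kv, 0) + (0, u) := by
    ext i <;> simp
  have ez : z = (z.1, 0) + (0, z.2) := by
    ext <;> simp
  have k1 : C.T (kv, 0) (0, u) (z.1, 0) = 0 := by
    rw [C.cy, ct_T_eq]
    have h1 : ∀ i, ∑ j, am C u i j * kv j = 0 := by
      intro i
      have h := congrFun hker i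
      rwa [Matrix.mulVec, dotProduct] at h
    rw [Finset.sum_comm]
    refine Finset.sum_eq_zero fun j _ => ?_
    have h2 := h1 j
    have h3 : ∑ i, kv i * z.1 j * am C u i j = z.1 j * ∑ i, am C u j i * kv i := by
      rw [Finset.mul_sum]
      refine Finset.sum_congr rfl fun i _ => ?_
      rw [am_symm C u i j]
      ring
    rw [h3, h2, mul_zero]
  have k2 : C.T (kv, 0) (kv, 0) (0, z.2) = ∑ i, ∑ j, kv i * kv j * am C z.2 i j :=
    ct_T_eq C kv kv z.2
  rw [ey, ez]
  simp only [map_add, map_smul, LinearMap.add_apply, LinearMap.smul_apply, smul_eq_mul]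
  rw [C.sw (0, u) (kv, 0) (z.1, 0), k1, C.sw (0, u) (kv, 0) (0, z.2), hpol kv u z.2, k2,
    C.sw' (0, u) (0, u) (z.1, 0), hpol z.1 u u, hlin z.2, hC kv kv z.1]
  linear_combination (∑ i, ∑ j, kv i * kv j * am C z.2 i j) * ht

theorem case_c_special {C : Cub VV} (hs : C.Smooth) (hC : Std C) (hb : ∀ u, bm C u = 0)
    {u : Fin 3 → ℂ} (hu : u ≠ 0) (h : Spec C u) : cm C u = 0 ∨ R1 C u := by
  obtain ⟨p, q, p', q', ha, hb', hc⟩ := spec_rank C hs hC hu h
  by_cases h0 : cm C u = 0
  · exact Or.inl h0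
  · right
    have hp' : p' ≠ 0 := by
      rintro rfl
      rw [mul_zero, zero_mul] at hc
      exact h0 hc
    have hq' : q' ≠ 0 := by
      rintro rfl
      rw [mul_zero] at hc
      exact h0 hc
    obtain ⟨c, hc2⟩ := IsAlgClosed.exists_pow_nat_eq (-(2 * (q' / p'))) (n := 2) (by norm_num)
    have hq : ∀ i, q i = -(q' / p') * p i := by
      intro i
      have h1 := hb' i
      rw [hb u, Pi.zero_apply] at h1
      field_simp
      linear_combination -h1
    refine ⟨hu, fun i => c * p i, fun i j => ?_⟩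
    have h1 : c * p i * (c * p j) = c ^ 2 * (p i * p j) := by ring
    rw [h1, hc2, ha, hq i, hq j]
    ring

theorem case_c {C : Cub VV} (hs : C.Smooth) (hC : Std C) (hb : ∀ u, bm C u = 0)
    (hirr : Irreducible (D3 C))
    (hno : ¬ ∃ w w' : Fin 3 → ℂ, LinearIndependent ℂ ![w, w'] ∧ R1 C w ∧ R1 C w') :
    AtMost 10 (Spec C) := by
  have hndvd : ¬ D3 C ∣ pc C := by
    rintro ⟨r, hr⟩
    by_cases hr0 : r = 0
    · refine case_c_not_dvd hs hC hb hno 0 fun u => ?_
      rw [← eval_pc, hr, hr0, mul_zero, map_zero, zero_mul]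
    · have h1 : D3 C * r ≠ 0 := mul_ne_zero (D3_ne C hs hC) hr0
      obtain ⟨a, b, hab, ha, hb3⟩ := hom_factor (hr ▸ hom_pc C) h1
      have ha3 : a = 3 := ha.inj_right (hom_D3 C) (D3_ne C hs hC)
      have hb0 : b = 0 := by omega
      rw [hb0] at hb3
      have hr1 : r = MvPolynomial.C (coeff 0 r) :=
        totalDegree_eq_zero_iff_eq_C.1 (Nat.le_zero.1 hb3.totalDegree_le)
      refine case_c_not_dvd hs hC hb hno (coeff 0 r) fun u => ?_
      rw [← eval_pc, hr, map_mul, eval_D3, mul_comm]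
      congr 1
      rw [hr1, eval_C, coeff_C]
      simp
  have hpc0 : pc C ≠ 0 := fun h => hndvd (h ▸ dvd_zero _)
  have hrel : IsRelPrime (D3 C) (pc C) := (hirr.isRelPrime_iff_not_dvd).2 hndvd
  have h9 := bezout (hom_D3 C) (hom_pc C) (D3_ne C hs hC) hpc0 hrel
  have h1 : AtMost 1 (R1 C) := by
    intro S hS hR
    by_contra hc
    push Not at hc
    obtain ⟨v, hv, w, hw, hvw⟩ := Finset.one_lt_card.1 hc
    exact hno ⟨v, w, hS.2 v hv w hw hvw, hR v hv, hR w hw⟩
  refine (h9.union h1).mono (by norm_num) fun v hv0 hv => ?_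
  rcases case_c_special hs hC hb hv0 hv with h | h
  · left
    exact ⟨spec_det C hs hC hv0 hv, by rw [eval_pc]; exact h⟩
  · exact Or.inr h

end Pool.Agent.P28
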