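import Pool.Agent.P28.NetA

set_option autoImplicit false

/-!
# P28 B04: a line in the discriminant cubic gives two double lines

`C` smooth in standard position, `u, v ∈ ℂ^3` independent with `det (am C (s u + t v)) = 0` for all
`s, t`. Then the span of `u, v` contains two independent vectors `w` with `R1 C w`.

PROOF. By `net_rank_two` we may assume (change the basis of the span) that `adj A_u ≠ 0`; let
`k ≠ 0`, `A_u k = 0` (`adj_symm`). `A_v(k, k) = 0` (`det_line`).
(1) No 2-dimensional subspace `L` of `ℂ^3` is isotropic for both `A_u` and `A_v`: with a third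
vector `v'` completing `u, v` to a basis, `A_v'` has a zero `x ≠ 0` in `L` (`exists_zero_one`),
which is a common zero of all conics (`net_zero`).
(2) `A_v k = 0`. Suppose not. Choose `p` with ... as follows: `A_u` is a nondegenerate form on
`ℂ^3 / k`; choose a basis `k, p, q` of `ℂ^3` with `A_u(p,p) = A_u(q,q) = 0`, `A_u(p,q) = 1`
(a nondegenerate binary quadratic form over `ℂ` has two independent isotropic vectors). Put
`w1 = A_v(k,p)`, `w2 = A_v(k,q)`, not both 0 (as `A_v(k,k) = 0` and `A_v k ≠ 0`), `C11 = A_v(p,p)`,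
`C12 = A_v(p,q)`, `C22 = A_v(q,q)`. In this basis `det (A_u + t A_v) =`
`t^2 * (2 w1 w2 (1 + t C12) - t w1^2 C22 - t w2^2 C11) = 0` for all `t`, so `w1 w2 = 0` and
`w1^2 C22 + w2^2 C11 = 0`. If `w2 = 0` then `w1 ≠ 0`, `C22 = 0`, and `L = span (k, q)` is isotropic
for `A_u` (`A_u k = 0`, `A_u(q,q) = 0`) and for `A_v` (`A_v(k,k) = 0`, `A_v(k,q) = w2 = 0`,
`C22 = 0`), against (1). The case `w1 = 0` is symmetric.
(3) So `A_u k = A_v k = 0`. Choose `p, q` completing `k` to a basis; `A_w` for `w = s u + t v` is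
given by the 2x2 matrix on `p, q`, with determinant `disc(s, t)`, a binary quadratic form. It has a
zero `(s1, t1) ≠ 0`; `w1 = s1 u + t1 v`, `A_w1 ≠ 0` (`net_inj`) has rank 1: `R1 C w1` (a symmetric
matrix of rank 1 over `ℂ` is `l ⊗ l`). Let `w1, w2` be a basis of the span. `A_w1 = l ⊗ l`; choose
`q` with `l(q) = 0`, `p` with `l(p) = 1` (`k, p, q` basis, `l(k) = 0`). With `al, be, ga` the values
`A_w2(p,p), A_w2(p,q), A_w2(q,q)`: `disc(s w1 + t w2) = (s + t al) t ga - t^2 be^2`. `ga ≠ 0`:
otherwise `L = span (k, q)` is isotropic for both, against (1). So `s = (be^2 - al ga)/ga`, `t = 1`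
gives a second zero, independent of `(1, 0)`: `w' = s w1 + w2` has `R1 C w'`.
-/

namespace Pool.Agent.P28

open Module MvPolynomial

/-- The symmetric bilinear form of `w`. -/
private noncomputable def bf (C : Cub VV) (w : Fin 3 → ℂ) :
    (Fin 3 → ℂ) →ₗ[ℂ] (Fin 3 → ℂ) →ₗ[ℂ] ℂ :=
  (C.T (0, w)).compl₁₂ (LinearMap.inl ℂ (Fin 3 → ℂ) (Fin 3 → ℂ))
    (LinearMap.inl ℂ (Fin 3 → ℂ) (Fin 3 → ℂ))

private theorem bf_apply (C : Cub VV) (w x y : Fin 3 → ℂ) :
    bf C w x y = C.T (x, 0) (y, 0) (0, w) := C.rot (0, w) (x, 0) (y, 0)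

private theorem bf_symm (C : Cub VV) (w x y : Fin 3 → ℂ) : bf C w x y = bf C w y x := by
  rw [bf_apply, bf_apply, C.sw]

private theorem bf_comb (C : Cub VV) (u v : Fin 3 → ℂ) (s t : ℂ) (x y : Fin 3 → ℂ) :
    bf C (s • u + t • v) x y = s * bf C u x y + t * bf C v x y := by
  have e : ((0, s • u + t • v) : VV) = s • ((0, u) : VV) + t • ((0, v) : VV) := by
    ext i <;> simp
  rw [bf_apply, bf_apply, bf_apply, e, map_add, map_smul, map_smul, smul_eq_mul, smul_eq_mul]

private theorem bf_am (C : Cub VV) (w x y : Fin 3 → ℂ) :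
    bf C w x y = ∑ i, ∑ j, x i * am C w i j * y j := by
  rw [bf_apply, sum_E x, map_sum, LinearMap.sum_apply, LinearMap.sum_apply]
  refine Finset.sum_congr rfl fun i _ => ?_
  rw [map_smul, LinearMap.smul_apply, LinearMap.smul_apply, sum_E y, map_sum,
    LinearMap.sum_apply, Finset.smul_sum]
  refine Finset.sum_congr rfl fun j _ => ?_
  rw [map_smul, LinearMap.smul_apply, smul_eq_mul, smul_eq_mul, am, Matrix.of_apply]
  ring

private theorem am_bf (C : Cub VV) (w : Fin 3 → ℂ) (i j : Fin 3) :
    am C w i j = bf C w (Pi.single i 1) (Pi.single j 1) := by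
  rw [bf_apply]; rfl

private theorem gram (C : Cub VV) {w : Fin 3 → ℂ} (hd : (am C w).det = 0)
    (x : Fin 3 → (Fin 3 → ℂ)) : (Matrix.of fun i j => bf C w (x i) (x j)).det = 0 := by
  have e : (Matrix.of fun i j => bf C w (x i) (x j)) =
      Matrix.of x * am C w * (Matrix.of x).transpose := by
    ext i j
    rw [Matrix.of_apply, bf_am, Matrix.mul_apply]
    rw [Finset.sum_comm]
    refine Finset.sum_congr rfl fun j' _ => ?_
    rw [Matrix.mul_apply, Finset.sum_mul]
    rfl
  rw [e, Matrix.det_mul, Matrix.det_mul, hd, mul_zero, zero_mul]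

private theorem pq_aux (B : (Fin 3 → ℂ) →ₗ[ℂ] (Fin 3 → ℂ) →ₗ[ℂ] ℂ)
    (hB : ∀ x y, B x y = B y x) {y z : Fin 3 → ℂ} (hd : B y y * B z z - B y z ^ 2 ≠ 0) :
    ∃ p z', B p p = 0 ∧ B p z' ≠ 0 := by
  by_cases h0 : B y y = 0
  · refine ⟨y, z, h0, fun h => hd ?_⟩
    rw [h0, h]; ring
  · obtain ⟨r, hr⟩ := IsAlgClosed.exists_pow_nat_eq (B y z ^ 2 - B y y * B z z) two_pos
    have hr0 : r ≠ 0 := by
      rintro rfl
      apply hd
      linear_combination hr
    refine ⟨((r - B y z) / B y y) • y + z, y, ?_, ?_⟩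
    · simp only [map_add, map_smul, LinearMap.add_apply, LinearMap.smul_apply, smul_eq_mul]
      rw [hB z y]
      field_simp
      linear_combination hr
    · simp only [map_add, map_smul, LinearMap.add_apply, LinearMap.smul_apply, smul_eq_mul]
      rw [hB z y, div_mul_cancel₀ _ h0]
      rwa [sub_add_cancel]

private theorem pq (B : (Fin 3 → ℂ) →ₗ[ℂ] (Fin 3 → ℂ) →ₗ[ℂ] ℂ)
    (hB : ∀ x y, B x y = B y x) {y z : Fin 3 → ℂ} (hd : B y y * B z z - B y z ^ 2 ≠ 0) :
    ∃ p q, B p p = 0 ∧ B q q = 0 ∧ B p q = 1 := by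
  obtain ⟨p, z', hp, hz⟩ := pq_aux B hB hd
  refine ⟨p, (B p z')⁻¹ • z' + (-(B z' z') / (2 * B p z' ^ 2)) • p, hp, ?_, ?_⟩
  · simp only [map_add, map_smul, LinearMap.add_apply, LinearMap.smul_apply, smul_eq_mul]
    rw [hB z' p, hp]
    field_simp
    ring
  · simp only [map_add, map_smul, smul_eq_mul]
    rw [hp, mul_zero, add_zero, inv_mul_cancel₀ hz]

/-- (1): no common isotropic plane. -/
private theorem no_iso (C : Cub VV) (hs : C.Smooth) (hC : Std C) {u v : Fin 3 → ℂ}
    (h : LinearIndependent ℂ ![u, v]) {x y : Fin 3 → ℂ} (hxy : LinearIndependent ℂ ![x, y])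
    (h1 : bf C u x x = 0) (h2 : bf C u x y = 0) (h3 : bf C u y y = 0)
    (h4 : bf C v x x = 0) (h5 : bf C v x y = 0) (h6 : bf C v y y = 0) : False := by
  -- a third vector
  obtain ⟨v', hv'⟩ : ∃ v', ∀ w : Fin 3 → ℂ, ∃ a b c : ℂ, w = a • u + b • v + c • v' := by
    have hf : finrank ℂ (Submodule.span ℂ (Set.range ![u, v])) = 2 := by
      rw [finrank_span_eq_card h, Fintype.card_fin]
    have hne : Submodule.span ℂ (Set.range ![u, v]) ≠ ⊤ := by
      intro ht
      rw [ht, finrank_top, finrank_fintype_fun_eq_card, Fintype.card_fin] at hf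
      omega
    obtain ⟨v', hv'⟩ : ∃ v', v' ∉ Submodule.span ℂ (Set.range ![u, v]) := by
      by_contra hc
      push Not at hc
      exact hne (eq_top_iff.2 fun w _ => hc w)
    have h3 : LinearIndependent ℂ (Fin.cons v' ![u, v] : Fin 3 → (Fin 3 → ℂ)) :=
      linearIndependent_finCons.2 ⟨h, hv'⟩
    refine ⟨v', fun w => ?_⟩
    let b := basisOfLinearIndependentOfCardEqFinrank h3 (by simp)
    have e := b.sum_repr w
    rw [Fin.sum_univ_three] at e
    have e0 : b 0 = v' := by simp [b]
    have e1 : b 1 = u := by simp [b]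
    have e2 : b 2 = v := by simp [b]
    rw [e0, e1, e2] at e
    refine ⟨b.repr w 1, b.repr w 2, b.repr w 0, ?_⟩
    refine e.symm.trans ?_
    abel
  -- a zero
  obtain ⟨a, b, hab, hz⟩ : ∃ a b : ℂ, (a ≠ 0 ∨ b ≠ 0) ∧
      bf C v' (a • x + b • y) (a • x + b • y) = 0 := by
    by_cases h0 : bf C v' x x = 0
    · refine ⟨1, 0, Or.inl one_ne_zero, ?_⟩
      rw [one_smul, zero_smul, add_zero, h0]
    · obtain ⟨r, hr⟩ := IsAlgClosed.exists_pow_nat_eq
        (bf C v' x y ^ 2 - bf C v' x x * bf C v' y y) two_pos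
      refine ⟨(r - bf C v' x y) / bf C v' x x, 1, Or.inr one_ne_zero, ?_⟩
      simp only [map_add, map_smul, LinearMap.add_apply, LinearMap.smul_apply, smul_eq_mul]
      rw [bf_symm C v' y x]
      field_simp
      linear_combination hr
  have hz0 : a • x + b • y ≠ 0 := by
    intro hzero
    have := LinearIndependent.pair_iff.1 hxy a b hzero
    rcases hab with h | h
    · exact h this.1
    · exact h this.2
  obtain ⟨w, hw⟩ := net_zero C hs hC hz0
  apply hw
  rw [← bf_apply]
  obtain ⟨c1, c2, c3, rfl⟩ := hv' w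
  have e1 : bf C (c1 • u + c2 • v + c3 • v') (a • x + b • y) (a • x + b • y) =
      c1 * bf C u (a • x + b • y) (a • x + b • y) + c2 * bf C v (a • x + b • y) (a • x + b • y) +
        c3 * bf C v' (a • x + b • y) (a • x + b • y) := by
    have := bf_comb C (c1 • u + c2 • v) v' 1 c3 (a • x + b • y) (a • x + b • y)
    rw [one_smul] at this
    rw [this, bf_comb]
    ring
  rw [e1, hz]
  simp only [map_add, map_smul, LinearMap.add_apply, LinearMap.smul_apply, smul_eq_mul]
  rw [bf_symm C u y x, bf_symm C v y x, h1, h2, h3, h4, h5, h6]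
  ring

/-- A form of rank at most one on a basis `k, p, q` with `k` in the kernel is a square. -/
private theorem r1 (C : Cub VV) {w k p q : Fin 3 → ℂ} (hw : w ≠ 0)
    (hb : LinearIndependent ℂ ![k, p, q]) (hkk : bf C w k k = 0) (hkp : bf C w k p = 0)
    (hkq : bf C w k q = 0) (hp : bf C w p p ≠ 0)
    (hd : bf C w p p * bf C w q q = bf C w p q ^ 2) : R1 C w := by
  obtain ⟨r, hr⟩ := IsAlgClosed.exists_pow_nat_eq (bf C w p p) two_pos
  have hr0 : r ≠ 0 := by
    rintro rfl
    apply hp
    rw [← hr]; ring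
  let l : (Fin 3 → ℂ) →ₗ[ℂ] ℂ := r⁻¹ • bf C w p
  have hl : ∀ x, l x = r⁻¹ * bf C w p x := fun x => rfl
  let b := basisOfLinearIndependentOfCardEqFinrank hb (by simp)
  have e : bf C w = (LinearMap.mul ℂ ℂ).compl₁₂ l l := by
    refine LinearMap.ext_basis b b fun i j => ?_
    rw [LinearMap.compl₁₂_apply, LinearMap.mul_apply', hl, hl]
    have e0 : b 0 = k := by simp [b]
    have e1 : b 1 = p := by simp [b]
    have e2 : b 2 = q := by simp [b]
    have hri : r⁻¹ * r⁻¹ * bf C w p p = 1 := by
      rw [← hr]; field_simp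
    fin_cases i <;> fin_cases j <;> simp only [Fin.zero_eta, Fin.mk_one, Fin.reduceFinMk, e0, e1, e2]
    · rw [hkk, bf_symm C w p k, hkp]; ring
    · rw [hkp, bf_symm C w p k, hkp]; ring
    · rw [hkq, bf_symm C w p k, hkp]; ring
    · rw [bf_symm C w p k, hkp]; ring
    · linear_combination (-bf C w p p) * hri
    · linear_combination (-bf C w p q) * hri
    · rw [bf_symm C w q k, hkq, bf_symm C w p k, hkp]; ring
    · rw [bf_symm C w q p]; linear_combination (-bf C w p q) * hri
    · have h3 : bf C w p p * bf C w q q = bf C w p p * (r⁻¹ * bf C w p q * (r⁻¹ * bf C w p q)) := by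
        rw [hd]; linear_combination (-bf C w p q ^ 2) * hri
      exact mul_left_cancel₀ hp h3
  refine ⟨hw, fun i => l (Pi.single i 1), fun i j => ?_⟩
  rw [am_bf, e]
  rfl

private theorem main (C : Cub VV) (hs : C.Smooth) (hC : Std C) {u v : Fin 3 → ℂ}
    (h : LinearIndependent ℂ ![u, v])
    (hd : ∀ s t : ℂ, (am C (s • u + t • v)).det = 0) (ha : (am C u).adjugate ≠ 0) :
    ∃ w w' : Fin 3 → ℂ, LinearIndependent ℂ ![w, w'] ∧ R1 C w ∧ R1 C w' := by
  have hdu : (am C u).det = 0 := by
    have := hd 1 0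
    rwa [one_smul, zero_smul, add_zero] at this
  have hdt : ∀ t : ℂ, (am C (u + t • v)).det = 0 := by
    intro t
    have := hd 1 t
    rwa [one_smul] at this
  obtain ⟨k, rho, hk, hr, hAk, hadj⟩ := adj_symm (am C u) (am_symm C u) hdu ha
  have hku : ∀ x, bf C u x k = 0 := by
    intro x
    rw [bf_am]
    refine Finset.sum_eq_zero fun i _ => ?_
    have := congrFun hAk i
    rw [Matrix.mulVec, dotProduct] at this
    simp only [Pi.zero_apply] at this
    rw [← mul_zero (x i), ← this, Finset.mul_sum]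
    exact Finset.sum_congr rfl fun j _ => by ring
  have hamc : ∀ t : ℂ, am C (u + t • v) = am C u + t • am C v := by
    intro t
    ext i j
    have := bf_comb C u v 1 t (Pi.single i 1) (Pi.single j 1)
    rw [one_smul] at this
    rw [am_bf, this, Matrix.add_apply, Matrix.smul_apply, am_bf, am_bf, smul_eq_mul, one_mul]
  have hkv : bf C v k k = 0 := by
    have := det_line (am C u) (am C v) (fun t => by rw [← hamc]; exact hdt t) hr hadj
    rw [bf_am, ← this]
    exact Finset.sum_congr rfl fun i _ => Finset.sum_congr rfl fun j _ => by ring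
  -- the vectors `p`, `q`
  obtain ⟨y, z, hyz⟩ : ∃ y z : Fin 3 → ℂ, bf C u y y * bf C u z z - bf C u y z ^ 2 ≠ 0 := by
    obtain ⟨i, hi⟩ := Function.ne_iff.1 hk
    have h1 := hadj i i
    have h2 : rho * (k i * k i) ≠ 0 := mul_ne_zero hr (mul_ne_zero hi hi)
    rw [← h1] at h2
    rw [Matrix.adjugate_fin_three] at h2
    fin_cases i
    · refine ⟨Pi.single 1 1, Pi.single 2 1, fun h3 => h2 ?_⟩
      rw [← am_bf, ← am_bf, ← am_bf] at h3
      have := am_symm C u 1 2
      simp
      rw [← this]
      linear_combination h3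
    · refine ⟨Pi.single 0 1, Pi.single 2 1, fun h3 => h2 ?_⟩
      rw [← am_bf, ← am_bf, ← am_bf] at h3
      have := am_symm C u 0 2
      simp
      rw [← this]
      linear_combination h3
    · refine ⟨Pi.single 0 1, Pi.single 1 1, fun h3 => h2 ?_⟩
      rw [← am_bf, ← am_bf, ← am_bf] at h3
      have := am_symm C u 0 1
      simp
      rw [← this]
      linear_combination h3
  obtain ⟨p, q, hp, hq, hpq⟩ := pq (bf C u) (bf_symm C u) hyz
  have hqp : bf C u q p = 1 := by rw [bf_symm, hpq]
  have hb : LinearIndependent ℂ ![k, p, q] := by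
    rw [Fintype.linearIndependent_iff]
    intro g hg
    rw [Fin.sum_univ_three] at hg
    simp only [Matrix.cons_val_zero, Matrix.cons_val_one, Matrix.cons_val] at hg
    have g2 : g 2 = 0 := by
      have := congrArg (bf C u p) hg
      simpa [hku, hp, hpq] using this
    have g1 : g 1 = 0 := by
      have := congrArg (bf C u q) hg
      simpa [hku, hq, hqp] using this
    have g0 : g 0 = 0 := by
      rw [g1, g2, zero_smul, zero_smul, add_zero, add_zero] at hg
      exact (smul_eq_zero.1 hg).resolve_right hk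
    intro i
    fin_cases i
    · exact g0
    · exact g1
    · exact g2
  have hbkp : LinearIndependent ℂ ![k, p] := by
    rw [LinearIndependent.pair_iff]
    intro a b hab
    have := Fintype.linearIndependent_iff.1 hb ![a, b, 0] (by
      rw [Fin.sum_univ_three]
      simpa using hab)
    exact ⟨this 0, this 1⟩
  have hbkq : LinearIndependent ℂ ![k, q] := by
    rw [LinearIndependent.pair_iff]
    intro a b hab
    have := Fintype.linearIndependent_iff.1 hb ![a, 0, b] (by
      rw [Fin.sum_univ_three]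
      simpa using hab)
    exact ⟨this 0, this 2⟩
  have hkuk : ∀ x, bf C u k x = 0 := fun x => by rw [bf_symm, hku]
  have hg : ∀ t : ℂ, 2 * t ^ 2 * (bf C v k p * bf C v k q) * (1 + t * bf C v p q) -
      t ^ 3 * (bf C v k p ^ 2 * bf C v q q + bf C v k q ^ 2 * bf C v p p) = 0 := by
    intro t
    have h1 := gram C (hdt t) ![k, p, q]
    rw [Matrix.det_fin_three] at h1
    have hc : ∀ x y, bf C (u + t • v) x y = bf C u x y + t * bf C v x y := by
      intro x y
      have := bf_comb C u v 1 t x y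
      rwa [one_smul, one_mul] at this
    simp only [Matrix.of_apply, Matrix.cons_val_zero, Matrix.cons_val_one, Matrix.cons_val, hc,
      hku, hkuk, hp, hq, hpq, hqp, hkv] at h1
    rw [bf_symm C v p k, bf_symm C v q k, bf_symm C v q p] at h1
    linear_combination h1
  have hgp := hg 1
  have hgm := hg (-1)
  have h12 : bf C v k p * bf C v k q = 0 := by
    linear_combination (1 / 4 : ℂ) * hgp + (1 / 4 : ℂ) * hgm
  have h34 : bf C v k p ^ 2 * bf C v q q + bf C v k q ^ 2 * bf C v p p = 0 := by
    linear_combination (-1 / 2 : ℂ) * hgp + (1 / 2 : ℂ) * hgm + 2 * bf C v p q * h12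
  have hkp : bf C v k p = 0 := by
    by_contra h1
    have h2 : bf C v k q = 0 := (mul_eq_zero.1 h12).resolve_left h1
    rw [h2] at h34
    have h3 : bf C v q q = 0 := by
      have : bf C v k p ^ 2 * bf C v q q = 0 := by linear_combination h34
      exact (mul_eq_zero.1 this).resolve_left (pow_ne_zero 2 h1)
    exact no_iso C hs hC h hbkq (hku k) (hkuk q) hq hkv h2 h3
  have hkq : bf C v k q = 0 := by
    by_contra h1
    rw [hkp] at h34
    have h3 : bf C v p p = 0 := by
      have : bf C v k q ^ 2 * bf C v p p = 0 := by linear_combination h34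
      exact (mul_eq_zero.1 this).resolve_left (pow_ne_zero 2 h1)
    exact no_iso C hs hC h hbkp (hku k) (hkuk p) hp hkv hkp h3
  have hpp : bf C v p p ≠ 0 := fun h3 =>
    no_iso C hs hC h hbkp (hku k) (hkuk p) hp hkv hkp h3
  have hqq : bf C v q q ≠ 0 := fun h3 =>
    no_iso C hs hC h hbkq (hku k) (hkuk q) hq hkv hkq h3
  obtain ⟨r, hr2⟩ := IsAlgClosed.exists_pow_nat_eq (bf C v p p * bf C v q q) two_pos
  have hr0 : r ≠ 0 := by
    rintro rfl
    apply mul_ne_zero hpp hqq
    rw [← hr2]; ring
  have key : ∀ e : ℂ, e ^ 2 = r ^ 2 → R1 C ((e - bf C v p q) • u + (1 : ℂ) • v) := by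
    intro e he
    have hne : (e - bf C v p q) • u + (1 : ℂ) • v ≠ 0 := fun h0 =>
      one_ne_zero (LinearIndependent.pair_iff.1 h _ _ h0).2
    refine r1 C hne hb ?_ ?_ ?_ ?_ ?_
    · rw [bf_comb, hku, hkv]; ring
    · rw [bf_comb, hkuk, hkp]; ring
    · rw [bf_comb, hkuk, hkq]; ring
    · rw [bf_comb, hp, mul_zero, zero_add, one_mul]; exact hpp
    · rw [bf_comb, bf_comb, bf_comb, hp, hq, hpq]
      linear_combination (-1 : ℂ) * he - hr2
  refine ⟨_, _, ?_, key r rfl, key (-r) (by ring)⟩
  rw [LinearIndependent.pair_iff]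
  intro a b hab
  have h1 := LinearIndependent.pair_iff.1 h (a * (r - bf C v p q) + b * (-r - bf C v p q))
    (a + b) (by
      rw [← hab]
      simp only [smul_add, smul_smul, add_smul, mul_one]
      abel)
  have h2 : b = -a := by linear_combination h1.2
  have h3 : 2 * r * a = 0 := by
    rw [h2] at h1
    linear_combination h1.1
  have h4 : a = 0 := by
    rcases mul_eq_zero.1 h3 with h5 | h5
    · exact absurd h5 (mul_ne_zero two_ne_zero hr0)
    · exact h5
  exact ⟨h4, by rw [h2, h4, neg_zero]⟩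

theorem two_double (C : Cub VV) (hs : C.Smooth) (hC : Std C) {u v : Fin 3 → ℂ}
    (h : LinearIndependent ℂ ![u, v])
    (hd : ∀ s t : ℂ, (am C (s • u + t • v)).det = 0) :
    ∃ w w' : Fin 3 → ℂ, LinearIndependent ℂ ![w, w'] ∧ R1 C w ∧ R1 C w' := by
  obtain ⟨s, t, hst⟩ := net_rank_two C hs hC h
  by_cases h0 : s = 0
  · refine main C hs hC (u := s • u + t • v) (v := u) ?_ (fun a b => ?_) hst
    · have ht : t ≠ 0 := by
        rintro rfl
        apply hst
        have : am C (s • u + (0 : ℂ) • v) = 0 := by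
          ext i j
          rw [h0, am_bf, bf_comb]
          simp
        rw [this, Matrix.adjugate_zero]
      rw [LinearIndependent.pair_iff]
      intro a b hab
      have h1 := LinearIndependent.pair_iff.1 h (a * s + b) (a * t) (by
        rw [← hab]
        simp only [smul_add, smul_smul, add_smul]
        abel)
      have h2 : a = 0 := (mul_eq_zero.1 h1.2).resolve_right ht
      refine ⟨h2, ?_⟩
      have := h1.1
      rwa [h2, zero_mul, zero_add] at this
    · have e : a • (s • u + t • v) + b • u = (a * s + b) • u + (a * t) • v := by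
        simp only [smul_add, smul_smul, add_smul]
        abel
      rw [e]
      exact hd _ _
  · refine main C hs hC (u := s • u + t • v) (v := v) ?_ (fun a b => ?_) hst
    · rw [LinearIndependent.pair_iff]
      intro a b hab
      have h1 := LinearIndependent.pair_iff.1 h (a * s) (a * t + b) (by
        rw [← hab]
        simp only [smul_add, smul_smul, add_smul]
        abel)
      have h2 : a = 0 := (mul_eq_zero.1 h1.1).resolve_right h0
      refine ⟨h2, ?_⟩
      have := h1.2
      rwa [h2, zero_mul, zero_add] at this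
    · have e : a • (s • u + t • v) + b • v = (a * s) • u + (a * t + b) • v := by
        simp only [smul_add, smul_smul, add_smul]
        abel
      rw [e]
      exact hd _ _

end Pool.Agent.P28
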