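import Pool.Agent.P28.BDefs

set_option autoImplicit false

/-!
# P28 B02: change of coordinates preserving the standard plane

`G (x, u) = (a x + m u, h u)` with linear automorphisms `a, h` of `ℂ^3` and a linear map `m`;
`C.tr a h m` is the pulled back cubic.

PROOFS. `G` is a linear automorphism of `VV` (inverse `(x, u) ↦ (a⁻¹ (x - m (h⁻¹ u)), h⁻¹ u)`),
`G` maps `P0` onto `P0` and `P0 + ℂ (0, u)` onto `P0 + ℂ (0, h u)`. A plane `P` of `C.tr a h m`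
corresponds to the plane `G P` (`Submodule.map`) of `C`. So `Spec (C.tr a h m) u ↔ Spec C (h u)`.
`tr_atMost`: a finite set `S` of pairwise nonproportional special points of `C` corresponds to
`S.image h.symm`.
`tr_am`: `am (C.tr a h m) u i j = ∑ ∑ a_ki a_lj am C (h u) k l`, `a_ki = a (Pi.single i 1) k`
(the contributions of `m u` are in `P0` and vanish, `Std`).
`tr_bm` (for `a = h = id`): `T (E i) (m u, u) (m u, u) = T (E i) (0,u) (0,u) +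
2 T (E i) (m u, 0) (0, u)`, so `bm (C.tr id id m) u = bm C u + am C u *ᵥ (m u)`.
-/

namespace Pool.Agent.P28

open Module

/-- The change of coordinates as a linear map. -/
def trG (a h : (Fin 3 → ℂ) ≃ₗ[ℂ] (Fin 3 → ℂ)) (m : (Fin 3 → ℂ) →ₗ[ℂ] (Fin 3 → ℂ)) :
    VV →ₗ[ℂ] VV :=
  LinearMap.prod (a.toLinearMap.comp (LinearMap.fst ℂ _ _) + m.comp (LinearMap.snd ℂ _ _))
    (h.toLinearMap.comp (LinearMap.snd ℂ _ _))

theorem trG_apply (a h : (Fin 3 → ℂ) ≃ₗ[ℂ] (Fin 3 → ℂ)) (m : (Fin 3 → ℂ) →ₗ[ℂ] (Fin 3 → ℂ))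
    (y : VV) : trG a h m y = (a y.1 + m y.2, h y.2) := rfl

/-- The pulled back cubic. -/
def Cub.tr (C : Cub VV) (a h : (Fin 3 → ℂ) ≃ₗ[ℂ] (Fin 3 → ℂ))
    (m : (Fin 3 → ℂ) →ₗ[ℂ] (Fin 3 → ℂ)) : Cub VV where
  T := (C.T.comp (trG a h m)).compr₂ (LinearMap.lcomp ℂ ℂ (trG a h m)) |>.compl₂ (trG a h m)
  sw := fun _ _ _ => C.sw _ _ _
  cy := fun _ _ _ => C.cy _ _ _

theorem tr_T (C : Cub VV) (a h : (Fin 3 → ℂ) ≃ₗ[ℂ] (Fin 3 → ℂ))
    (m : (Fin 3 → ℂ) →ₗ[ℂ] (Fin 3 → ℂ)) (x y z : VV) :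
    (C.tr a h m).T x y z = C.T (trG a h m x) (trG a h m y) (trG a h m z) := rfl

/-- The change of coordinates as a linear equivalence. -/
private def trE (a h : (Fin 3 → ℂ) ≃ₗ[ℂ] (Fin 3 → ℂ)) (m : (Fin 3 → ℂ) →ₗ[ℂ] (Fin 3 → ℂ)) :
    VV ≃ₗ[ℂ] VV :=
  { trG a h m with
    invFun := fun y => (a.symm (y.1 - m (h.symm y.2)), h.symm y.2)
    left_inv := by
      intro y
      change (a.symm ((a y.1 + m y.2) - m (h.symm (h y.2))), h.symm (h y.2)) = y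
      rw [h.symm_apply_apply, add_sub_cancel_right, a.symm_apply_apply]
    right_inv := by
      intro y
      change (a (a.symm (y.1 - m (h.symm y.2))) + m (h.symm y.2), h (h.symm y.2)) = y
      rw [h.apply_symm_apply, a.apply_symm_apply, sub_add_cancel] }

private theorem trE_apply (a h : (Fin 3 → ℂ) ≃ₗ[ℂ] (Fin 3 → ℂ))
    (m : (Fin 3 → ℂ) →ₗ[ℂ] (Fin 3 → ℂ)) (y : VV) : trE a h m y = trG a h m y := rfl

private theorem trG_inl (a h : (Fin 3 → ℂ) ≃ₗ[ℂ] (Fin 3 → ℂ))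
    (m : (Fin 3 → ℂ) →ₗ[ℂ] (Fin 3 → ℂ)) (x : Fin 3 → ℂ) : trG a h m (x, 0) = (a x, 0) := by
  rw [trG_apply]
  simp

private theorem trG_inr (a h : (Fin 3 → ℂ) ≃ₗ[ℂ] (Fin 3 → ℂ))
    (m : (Fin 3 → ℂ) →ₗ[ℂ] (Fin 3 → ℂ)) (u : Fin 3 → ℂ) :
    trG a h m (0, u) = (m u, 0) + (0, h u) := by
  rw [trG_apply]
  simp

private theorem mem_P0 (y : VV) : y ∈ P0 ↔ y.2 = 0 := by
  constructor
  · rintro ⟨x, rfl⟩
    rfl
  · intro h
    exact ⟨y.1, Prod.ext rfl h.symm⟩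

private theorem map_P0 (a h : (Fin 3 → ℂ) ≃ₗ[ℂ] (Fin 3 → ℂ))
    (m : (Fin 3 → ℂ) →ₗ[ℂ] (Fin 3 → ℂ)) :
    P0.map (trE a h m).toLinearMap = P0 := by
  ext y
  constructor
  · rintro ⟨x, hx, rfl⟩
    have hx' := (mem_P0 x).1 hx
    rw [mem_P0]
    change h x.2 = 0
    rw [hx', map_zero]
  · intro hy
    have hy' := (mem_P0 y).1 hy
    refine ⟨(trE a h m).symm y, ?_, (trE a h m).apply_symm_apply y⟩
    change _ ∈ P0
    rw [mem_P0]
    change h.symm y.2 = 0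
    rw [hy', map_zero]

private theorem mem_Q (u : Fin 3 → ℂ) (y : VV) :
    y ∈ P0 ⊔ Submodule.span ℂ {((0, u) : VV)} ↔ ∃ c : ℂ, y.2 = c • u := by
  rw [Submodule.mem_sup]
  constructor
  · rintro ⟨p, hp, q, hq, rfl⟩
    obtain ⟨c, rfl⟩ := Submodule.mem_span_singleton.1 hq
    refine ⟨c, ?_⟩
    have hp' := (mem_P0 p).1 hp
    rw [Prod.snd_add, hp', zero_add, Prod.smul_snd]
  · rintro ⟨c, hc⟩
    refine ⟨(y.1, 0), (mem_P0 _).2 rfl, c • (0, u), Submodule.mem_span_singleton.2 ⟨c, rfl⟩, ?_⟩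
    ext i
    · simp
    · simp [hc]

private theorem map_Q (a h : (Fin 3 → ℂ) ≃ₗ[ℂ] (Fin 3 → ℂ))
    (m : (Fin 3 → ℂ) →ₗ[ℂ] (Fin 3 → ℂ)) (u : Fin 3 → ℂ) :
    (P0 ⊔ Submodule.span ℂ {((0, u) : VV)}).map (trE a h m).toLinearMap =
      P0 ⊔ Submodule.span ℂ {((0, h u) : VV)} := by
  ext y
  rw [mem_Q]
  constructor
  · rintro ⟨x, hx, rfl⟩
    obtain ⟨c, hc⟩ := (mem_Q u x).1 hx
    refine ⟨c, ?_⟩
    change h x.2 = _
    rw [hc, map_smul]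
  · rintro ⟨c, hc⟩
    refine ⟨(trE a h m).symm y, ?_, (trE a h m).apply_symm_apply y⟩
    change _ ∈ P0 ⊔ Submodule.span ℂ {((0, u) : VV)}
    rw [mem_Q]
    refine ⟨c, ?_⟩
    change h.symm y.2 = _
    rw [hc, map_smul, h.symm_apply_apply]

theorem tr_smooth {C : Cub VV} (hs : C.Smooth) (a h : (Fin 3 → ℂ) ≃ₗ[ℂ] (Fin 3 → ℂ))
    (m : (Fin 3 → ℂ) →ₗ[ℂ] (Fin 3 → ℂ)) : (C.tr a h m).Smooth := by
  intro v hv
  have hv' : trG a h m v ≠ 0 := by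
    intro h0
    exact hv ((trE a h m).map_eq_zero_iff.1 h0)
  obtain ⟨z, hz⟩ := hs _ hv'
  refine ⟨(trE a h m).symm z, ?_⟩
  have hz' : trG a h m ((trE a h m).symm z) = z := (trE a h m).apply_symm_apply z
  rw [tr_T, hz']
  exact hz

theorem tr_std {C : Cub VV} (hC : Std C) (a h : (Fin 3 → ℂ) ≃ₗ[ℂ] (Fin 3 → ℂ))
    (m : (Fin 3 → ℂ) →ₗ[ℂ] (Fin 3 → ℂ)) : Std (C.tr a h m) := by
  intro x y z
  rw [tr_T, trG_inl, trG_inl, trG_inl]
  exact hC _ _ _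

private theorem tr_isPlane (C : Cub VV) (a h : (Fin 3 → ℂ) ≃ₗ[ℂ] (Fin 3 → ℂ))
    (m : (Fin 3 → ℂ) →ₗ[ℂ] (Fin 3 → ℂ)) (P : Submodule ℂ VV) :
    (C.tr a h m).IsPlane P ↔ C.IsPlane (P.map (trE a h m).toLinearMap) := by
  unfold Cub.IsPlane
  have hfr : finrank ℂ (P.map (trE a h m).toLinearMap) = finrank ℂ P :=
    (LinearEquiv.finrank_map_eq (trE a h m) P)
  rw [hfr]
  refine and_congr_right fun _ => ?_
  constructor
  · rintro H _ ⟨x, hx, rfl⟩ _ ⟨y, hy, rfl⟩ _ ⟨z, hz, rfl⟩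
    exact H x hx y hy z hz
  · intro H x hx y hy z hz
    exact H _ ⟨x, hx, rfl⟩ _ ⟨y, hy, rfl⟩ _ ⟨z, hz, rfl⟩

theorem tr_spec (C : Cub VV) (a h : (Fin 3 → ℂ) ≃ₗ[ℂ] (Fin 3 → ℂ))
    (m : (Fin 3 → ℂ) →ₗ[ℂ] (Fin 3 → ℂ)) (u : Fin 3 → ℂ) :
    Spec (C.tr a h m) u ↔ Spec C (h u) := by
  have hinj : Function.Injective (trE a h m).toLinearMap := (trE a h m).injective
  have hsur : Function.Surjective (trE a h m).toLinearMap := (trE a h m).surjective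
  have key : ∀ P : Submodule ℂ VV,
      ((C.tr a h m).IsPlane P ∧ P ≠ P0 ∧ P ≤ P0 ⊔ Submodule.span ℂ {((0, u) : VV)}) ↔
      (C.IsPlane (P.map (trE a h m).toLinearMap) ∧ P.map (trE a h m).toLinearMap ≠ P0 ∧
        P.map (trE a h m).toLinearMap ≤ P0 ⊔ Submodule.span ℂ {((0, h u) : VV)}) := by
    intro P
    refine and_congr (tr_isPlane C a h m P) (and_congr ?_ ?_)
    · constructor
      · intro hne heq
        apply hne
        apply Submodule.map_injective_of_injective hinj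
        rw [heq, map_P0]
      · intro hne heq
        apply hne
        rw [heq, map_P0]
    · rw [← map_Q a h m u, Submodule.map_le_map_iff_of_injective hinj]
  constructor
  · rintro ⟨P, hP⟩
    exact ⟨_, (key P).1 hP⟩
  · rintro ⟨P', hP'⟩
    refine ⟨P'.comap (trE a h m).toLinearMap, (key _).2 ?_⟩
    rw [Submodule.map_comap_eq_of_surjective hsur]
    exact hP'

theorem tr_atMost (C : Cub VV) (a h : (Fin 3 → ℂ) ≃ₗ[ℂ] (Fin 3 → ℂ))
    (m : (Fin 3 → ℂ) →ₗ[ℂ] (Fin 3 → ℂ)) {n : ℕ} (hn : AtMost n (Spec (C.tr a h m))) :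
    AtMost n (Spec C) := by
  classical
  intro S hS hv
  have hcard : (S.image h.symm).card = S.card :=
    Finset.card_image_of_injective _ h.symm.injective
  rw [← hcard]
  refine hn _ ⟨?_, ?_⟩ ?_
  · intro v hv'
    obtain ⟨w, hw, rfl⟩ := Finset.mem_image.1 hv'
    exact fun h0 => hS.1 w hw (h.symm.map_eq_zero_iff.1 h0)
  · intro v hv' w hw' hne
    obtain ⟨v1, hv1, rfl⟩ := Finset.mem_image.1 hv'
    obtain ⟨w1, hw1, rfl⟩ := Finset.mem_image.1 hw'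
    have h1 := hS.2 v1 hv1 w1 hw1 (fun h' => hne (by rw [h']))
    have h2 := h1.map' h.symm.toLinearMap (LinearEquiv.ker h.symm)
    have h3 : (![h.symm v1, h.symm w1] : Fin 2 → (Fin 3 → ℂ)) =
        h.symm.toLinearMap ∘ ![v1, w1] := by
      funext i
      fin_cases i <;> rfl
    rw [h3]
    exact h2
  · intro v hv'
    obtain ⟨w, hw, rfl⟩ := Finset.mem_image.1 hv'
    rw [tr_spec, h.apply_symm_apply]
    exact hv w hw

theorem tr_am {C : Cub VV} (hC : Std C) (a h : (Fin 3 → ℂ) ≃ₗ[ℂ] (Fin 3 → ℂ))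
    (m : (Fin 3 → ℂ) →ₗ[ℂ] (Fin 3 → ℂ)) (u : Fin 3 → ℂ) (i j : Fin 3) :
    am (C.tr a h m) u i j = ∑ k, ∑ l, a (Pi.single i 1) k * a (Pi.single j 1) l *
      am C (h u) k l := by
  have h1 : am (C.tr a h m) u i j = C.T (a (Pi.single i 1), 0) (a (Pi.single j 1), 0) (0, h u) := by
    change (C.tr a h m).T (E i) (E j) (0, u) = _
    rw [tr_T, E, E, trG_inl, trG_inl, trG_inr, map_add, hC, zero_add]
  have h2 : ∀ k l, C.T (E k) (E l) (0, h u) = am C (h u) k l := fun _ _ => rfl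
  rw [h1, sum_E (a (Pi.single i 1)), sum_E (a (Pi.single j 1))]
  simp only [Fin.sum_univ_three, map_add, map_smul, LinearMap.add_apply, LinearMap.smul_apply,
    smul_eq_mul, h2]
  ring

theorem tr_bm {C : Cub VV} (hC : Std C) (m : (Fin 3 → ℂ) →ₗ[ℂ] (Fin 3 → ℂ)) (u : Fin 3 → ℂ) :
    bm (C.tr (LinearEquiv.refl ℂ _) (LinearEquiv.refl ℂ _) m) u =
      bm C u + (am C u).mulVec (m u) := by
  funext i
  have h1 : bm (C.tr (LinearEquiv.refl ℂ _) (LinearEquiv.refl ℂ _) m) u i =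
      C.T (E i) ((m u, 0) + (0, u)) ((m u, 0) + (0, u)) / 2 := by
    change (C.tr (LinearEquiv.refl ℂ _) (LinearEquiv.refl ℂ _) m).T (E i) (0, u) (0, u) / 2 = _
    rw [tr_T, E, trG_inl, trG_inr]
    rfl
  have h2 : C.T (E i) (m u, 0) (0, u) = (am C u).mulVec (m u) i := by
    rw [sum_E (m u), map_sum, LinearMap.sum_apply, Matrix.mulVec, dotProduct]
    refine Finset.sum_congr rfl fun k _ => ?_
    rw [map_smul, LinearMap.smul_apply, smul_eq_mul, mul_comm]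
    rfl
  have h3 : C.T (E i) (m u, 0) (m u, 0) = 0 := hC _ _ _
  have h4 : C.T (E i) (0, u) (m u, 0) = C.T (E i) (m u, 0) (0, u) := C.cy _ _ _
  rw [h1, Pi.add_apply, ← h2]
  simp only [map_add, LinearMap.add_apply]
  rw [h3, h4, bm]
  ring

end Pool.Agent.P28
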