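import Pool.Agent.P28.Rank2
import Pool.Agent.P28.Trans
import Pool.Agent.P28.NetB
import Pool.Agent.P28.Bez
import Pool.Agent.P28.HomFac

set_option autoImplicit false

/-!
# P28 B15: irreducible discriminant cubic

`C` smooth, standard position, `hno`: no two independent vectors `w, w'` with `R1`.

(1) `D3_irr`: `D3 C` is irreducible. PROOF: `cubic_irr` with `D3_ne`; if `D3` vanishes on the span
of two independent vectors, `two_double` contradicts `hno` (`eval u (D3 C) = det (am C u)`, from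
`eval_pa` and `RingHom.map_det`).

(2) `case_a`: if `D3 C` does not divide `nn C i` for some `i`: at most `3 * 4 = 12` special points.
PROOF: `D3 C` irreducible, so relatively prime to `nn C i` (`Irreducible.isRelPrime_iff_not_dvd`);
`nn C i ≠ 0`; `nn C i` homogeneous of degree 4 (entries of the adjugate have degree 2); `bezout`,
`spec_det`, `spec_nn`.

(3) `case_b`: if `D3 C ∣ nn C i` for all `i` there is a linear map `m` such that
`bm (C.tr refl refl m) u = 0` for all `u`, and `am (C.tr refl refl m) u = am C u`. PROOF: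
`nn C i = D3 C * r i` with `r i` homogeneous of degree 1 or 0 (`hom_factor`; `nn C i` has degree 4).
`pa * adj(pa) = det(pa) 1` gives `pa *ᵥ nn = D3 • pb`, so `D3 • (pa *ᵥ r) = D3 • pb` and
`pa *ᵥ r = pb` (domain). Let `m u = - (eval u (r i))_i` (linear, as `r i` is a linear form);
`bm (C.tr ..) u = bm C u + am C u *ᵥ m u = 0` (`tr_bm`). `am` is unchanged (`tr_am` with
`a = h = refl`, or directly: `T (E i) (E j) (m u, 0) = 0`).
-/

namespace Pool.Agent.P28

open Module MvPolynomial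

theorem eval_D3 (C : Cub VV) (u : Fin 3 → ℂ) : eval u (D3 C) = (am C u).det := by
  rw [D3, RingHom.map_det]
  congr 1
  ext i j
  exact eval_pa C u i j

theorem hom_D3 (C : Cub VV) : (D3 C).IsHomogeneous 3 := by
  have h : ∀ i j k l m n : Fin 3, (pa C i j * pa C k l * pa C m n).IsHomogeneous 3 :=
    fun i j k l m n => ((hom_pa C i j).mul (hom_pa C k l)).mul (hom_pa C m n)
  rw [D3, Matrix.det_fin_three]
  exact (((((h _ _ _ _ _ _).sub (h _ _ _ _ _ _)).sub (h _ _ _ _ _ _)).add
    (h _ _ _ _ _ _)).add (h _ _ _ _ _ _)).sub (h _ _ _ _ _ _)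

private theorem hom_adj (C : Cub VV) (i j : Fin 3) : ((pa C).adjugate i j).IsHomogeneous 2 := by
  have h : ∀ i j k l : Fin 3, (pa C i j * pa C k l).IsHomogeneous 2 :=
    fun i j k l => (hom_pa C i j).mul (hom_pa C k l)
  rw [Matrix.adjugate_fin_succ_eq_det_submatrix, Matrix.det_fin_two]
  rcases neg_one_pow_eq_or (MvPolynomial (Fin 3) ℂ) ((j : ℕ) + (i : ℕ)) with h1 | h1
  · rw [h1, one_mul]
    exact (h _ _ _ _).sub (h _ _ _ _)
  · rw [h1, neg_one_mul]
    exact ((h _ _ _ _).sub (h _ _ _ _)).neg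

theorem hom_nn (C : Cub VV) (i : Fin 3) : (nn C i).IsHomogeneous 4 := by
  rw [nn, Matrix.mulVec, dotProduct]
  exact IsHomogeneous.sum _ _ _ fun j _ => (hom_adj C i j).mul (hom_pb C j)

theorem D3_irr {C : Cub VV} (hs : C.Smooth) (hC : Std C)
    (hno : ¬ ∃ w w' : Fin 3 → ℂ, LinearIndependent ℂ ![w, w'] ∧ R1 C w ∧ R1 C w') :
    Irreducible (D3 C) := by
  refine cubic_irr (hom_D3 C) (D3_ne C hs hC) ?_
  rintro ⟨u, v, h, hd⟩
  refine hno (two_double C hs hC h fun s t => ?_)
  rw [← eval_D3]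
  exact hd s t

theorem case_a {C : Cub VV} (hs : C.Smooth) (hC : Std C) (hirr : Irreducible (D3 C))
    {i : Fin 3} (hn : ¬ D3 C ∣ nn C i) : AtMost 12 (Spec C) := by
  have h0 : nn C i ≠ 0 := by
    intro h
    apply hn
    rw [h]
    exact dvd_zero _
  have h1 : IsRelPrime (D3 C) (nn C i) := hirr.isRelPrime_iff_not_dvd.2 hn
  have h2 := bezout (hom_D3 C) (hom_nn C i) (D3_ne C hs hC) h0 h1
  exact h2.mono (le_refl _) fun v hv hsp =>
    ⟨spec_det C hs hC hv hsp, spec_nn C hs hC hv hsp i⟩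

private theorem lin_form {p : MvPolynomial (Fin 3) ℂ} (hp : p.IsHomogeneous 1) :
    ∃ c : Fin 3 → ℂ, ∀ u : Fin 3 → ℂ, eval u p = ∑ k, c k * u k := by
  have h1 : p ∈ homogeneousSubmodule (Fin 3) ℂ 1 := hp
  rw [homogeneousSubmodule_one_eq_span_X, Submodule.mem_span_range_iff_exists_fun] at h1
  obtain ⟨c, rfl⟩ := h1
  refine ⟨c, fun u => ?_⟩
  rw [map_sum]
  refine Finset.sum_congr rfl fun k _ => ?_
  rw [smul_eval, eval_X]

theorem case_b {C : Cub VV} (hs : C.Smooth) (hC : Std C) (hirr : Irreducible (D3 C))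
    (hn : ∀ i, D3 C ∣ nn C i) :
    ∃ m : (Fin 3 → ℂ) →ₗ[ℂ] (Fin 3 → ℂ),
      (∀ u, bm (C.tr (LinearEquiv.refl ℂ _) (LinearEquiv.refl ℂ _) m) u = 0) ∧
      ∀ u, am (C.tr (LinearEquiv.refl ℂ _) (LinearEquiv.refl ℂ _) m) u = am C u := by
  have h0 : D3 C ≠ 0 := D3_ne C hs hC
  choose r hr using hn
  have h1 : ∀ i, (r i).IsHomogeneous 1 := by
    intro i
    by_cases hri : r i = 0
    · rw [hri]
      exact isHomogeneous_zero _ _ _
    · have h2 : (D3 C * r i).IsHomogeneous 4 := by
        rw [← hr i]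
        exact hom_nn C i
      obtain ⟨a, b, hab, ha, hb⟩ := hom_factor h2 (mul_ne_zero h0 hri)
      have h3 : a = 3 := ha.inj_right (hom_D3 C) h0
      have h4 : b = 1 := by omega
      rw [← h4]
      exact hb
  have h2 : ∀ i, ∑ j, pa C i j * r j = pb C i := by
    intro i
    have h3 : (pa C).mulVec (nn C) = D3 C • pb C := by
      rw [nn, Matrix.mulVec_mulVec, Matrix.mul_adjugate, Matrix.smul_mulVec, Matrix.one_mulVec]
      rfl
    have h4 := congrFun h3 i
    rw [Matrix.mulVec, dotProduct, Pi.smul_apply, smul_eq_mul] at h4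
    have h5 : ∀ j, pa C i j * nn C j = D3 C * (pa C i j * r j) := by
      intro j
      rw [hr j]
      ring
    rw [Finset.sum_congr rfl fun j _ => h5 j, ← Finset.mul_sum] at h4
    exact mul_left_cancel₀ h0 h4
  choose c hc using fun i => lin_form (h1 i)
  let m : (Fin 3 → ℂ) →ₗ[ℂ] (Fin 3 → ℂ) := Matrix.mulVecLin (-(Matrix.of c))
  have hm : ∀ u i, m u i = - eval u (r i) := by
    intro u i
    rw [hc i u, Matrix.mulVecLin_apply, Matrix.neg_mulVec, Pi.neg_apply]
    rfl
  refine ⟨m, fun u => ?_, fun u => ?_⟩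
  · rw [tr_bm hC]
    ext i
    rw [Pi.add_apply, Matrix.mulVec, dotProduct, ← eval_pb, ← h2 i, map_sum,
      ← Finset.sum_add_distrib, Pi.zero_apply]
    apply Finset.sum_eq_zero
    intro j _
    rw [hm u j, map_mul, eval_pa]
    ring
  · ext i j
    rw [tr_am hC, Finset.sum_eq_single i, Finset.sum_eq_single j]
    · simp
    · intro l _ hl
      simp [Pi.single_eq_of_ne hl]
    · simp
    · intro k _ hk
      simp [Pi.single_eq_of_ne hk]
    · simp

end Pool.Agent.P28
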