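import Pool.Agent.P28.FrDefs

set_option autoImplicit false

/-!
# P28 C02: changing the complement of a frame

`F` and `F'` have the same `w` and `r_i = e'_i - e_i` lies in the plane `P = span w`, on which `T`
vanishes. Then `N' - N = T x x (A x)` for a linear map `A`.

PROOF. Put `l_i = F.l i x`, `O_ij = T (e_i) (w_j) (x + pi x)` (linear in `x`), `O_i` the row
`(O_i0, O_i1, O_i2)`. `F'.l = F.l` (the coordinates modulo `P` are the same) and
`pi' x = pi x - ∑ l_k r_k`. As `T` vanishes on `P` and `x = ∑ l_k e_k + pi x`: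
`T (e'_i) (w_j) (x + pi' x) = O_ij + Z_ij`, `Z_ij = ∑_k l_k om i k j`,
`om i k j = T (r_i) (w_j) (e_k) - T (e_i) (w_j) (r_k)`, antisymmetric in `i, k` (`Cub` symmetry).
Put `A0 = om 1 2`, `A1 = om 2 0`, `A2 = om 0 1` (vectors in `ℂ^3`, index `j`), so
`Z_0 = l1 A2 - l2 A1`, `Z_1 = l2 A0 - l0 A2`, `Z_2 = l0 A1 - l1 A0`.
Let `rho_j = ∑_i l_i O_ij`. One has `rho_j = T x x (w_j)`: write `x = ∑ l_i e_i + pi x`,
`T x x w_j = T (∑ l_i e_i) x w_j + T (pi x) x w_j` and
`T (pi x) x w_j = T (pi x) (∑ l_i e_i) w_j + 0`.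
The identity `det_identity` (pure algebra, `Matrix.det_fin_three` and `ring`):
`det (O + Z) - det O = ∑_j rho_j (∑_i (O_i × A_i)_j + (l0 A1 × A2 + l1 A2 × A0 + l2 A0 × A1)_j)`
(cross products in the index `j`). So `A x = ∑_j L_j(x) w_j` with `L_j` the second factor, which is
linear in `x`.
-/

namespace Pool.Agent.P28

open Module

/-- The cross product. -/
def cr (a b : Fin 3 → ℂ) : Fin 3 → ℂ :=
  ![a 1 * b 2 - a 2 * b 1, a 2 * b 0 - a 0 * b 2, a 0 * b 1 - a 1 * b 0]

theorem det_identity (l : Fin 3 → ℂ) (O A : Fin 3 → Fin 3 → ℂ) :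
    Matrix.det (Matrix.of ![fun j => O 0 j + (l 1 * A 2 j - l 2 * A 1 j),
      fun j => O 1 j + (l 2 * A 0 j - l 0 * A 2 j),
      fun j => O 2 j + (l 0 * A 1 j - l 1 * A 0 j)]) - Matrix.det (Matrix.of O) =
    ∑ j, (∑ i, l i * O i j) * (∑ i, cr (O i) (A i) j +
      (l 0 * cr (A 1) (A 2) j + l 1 * cr (A 2) (A 0) j + l 2 * cr (A 0) (A 1) j)) := by
  rw [Matrix.det_fin_three, Matrix.det_fin_three]
  simp only [Matrix.of_apply, Matrix.cons_val_zero, Matrix.cons_val_one, Matrix.cons_val,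
    Fin.sum_univ_three, cr]
  ring

/-- The cross product with a constant vector. -/
private noncomputable def crL {V : Type} [AddCommGroup V] [Module ℂ V] (O : Fin 3 → V →ₗ[ℂ] ℂ)
    (b : Fin 3 → ℂ) : Fin 3 → V →ₗ[ℂ] ℂ :=
  ![b 2 • O 1 - b 1 • O 2, b 0 • O 2 - b 2 • O 0, b 1 • O 0 - b 0 • O 1]

private theorem crL_apply {V : Type} [AddCommGroup V] [Module ℂ V] (O : Fin 3 → V →ₗ[ℂ] ℂ)
    (b : Fin 3 → ℂ) (j : Fin 3) (x : V) : crL O b j x = cr (fun k => O k x) b j := by
  fin_cases j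
  · change (b 2 • O 1 - b 1 • O 2) x = O 1 x * b 2 - O 2 x * b 1
    rw [LinearMap.sub_apply, LinearMap.smul_apply, LinearMap.smul_apply, smul_eq_mul,
      smul_eq_mul]
    ring
  · change (b 0 • O 2 - b 2 • O 0) x = O 2 x * b 0 - O 0 x * b 2
    rw [LinearMap.sub_apply, LinearMap.smul_apply, LinearMap.smul_apply, smul_eq_mul,
      smul_eq_mul]
    ring
  · change (b 1 • O 0 - b 0 • O 1) x = O 0 x * b 1 - O 1 x * b 0
    rw [LinearMap.sub_apply, LinearMap.smul_apply, LinearMap.smul_apply, smul_eq_mul,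
      smul_eq_mul]
    ring

variable {V : Type} [AddCommGroup V] [Module ℂ V]

theorem chg_complement (C : Cub V) {F F' : Fr V} (hw : F'.w = F.w)
    (he : ∀ i, F'.e i - F.e i ∈ F.P)
    (hP : ∀ x ∈ F.P, ∀ y ∈ F.P, ∀ z ∈ F.P, C.T x y z = 0) :
    ∃ A : V →ₗ[ℂ] V, ∀ x, F'.N C x - F.N C x = C.T x x (A x) := by
  have hP' : F'.P = F.P := by
    unfold Fr.P
    rw [hw]
  -- the difference of the complements
  obtain ⟨r, hr⟩ : ∃ r : Fin 3 → V, ∀ i, F'.e i = F.e i + r i :=
    ⟨fun i => F'.e i - F.e i, fun i => (add_sub_cancel _ _).symm⟩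
  have hrP : ∀ i, r i ∈ F.P := by
    intro i
    have h1 := he i
    rwa [hr, add_sub_cancel_left] at h1
  have hl : ∀ i x, F'.l i x = F.l i x := by
    intro i x
    conv_lhs => rw [F.expand x]
    rw [map_add, map_sum, F'.l_eq_zero (x := F.pi x) (by rw [hP']; exact F.pi_mem x) i,
      add_zero]
    have h1 : ∀ k, F'.l i (F.l k x • F.e k) = if i = k then F.l k x else 0 := by
      intro k
      have h2 : F.e k = F'.e k - r k := by rw [hr, add_sub_cancel_right]
      rw [map_smul, h2, map_sub, F'.l_e, F'.l_eq_zero (x := r k) (by rw [hP']; exact hrP k) i,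
        sub_zero, smul_eq_mul, mul_ite, mul_one, mul_zero]
    simp only [h1, Finset.sum_ite_eq, Finset.mem_univ, if_true]
  have hpi : ∀ x, F'.pi x = F.pi x - ∑ k, F.l k x • r k := by
    intro x
    have h1 := F.expand x
    have h2 := F'.expand x
    simp only [hl, hr, smul_add, Finset.sum_add_distrib] at h2
    have h3 : ∑ k, F.l k x • F.e k + F.pi x =
        ∑ k, F.l k x • F.e k + ∑ k, F.l k x • r k + F'.pi x := by
      rw [← h1]
      exact h2
    rw [add_assoc] at h3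
    have h4 := add_left_cancel h3
    rw [h4]
    abel
  -- the linear forms
  let O : Fin 3 → Fin 3 → V →ₗ[ℂ] ℂ := fun i j =>
    (C.T (F.e i) (F.w j)).comp (LinearMap.id + F.pi)
  have hO : ∀ i j x, O i j x = C.T (F.e i) (F.w j) (x + F.pi x) := fun _ _ _ => rfl
  let om : Fin 3 → Fin 3 → Fin 3 → ℂ := fun i k j =>
    C.T (r i) (F.w j) (F.e k) - C.T (F.e i) (F.w j) (r k)
  have hom : ∀ i k j, om i k j = C.T (r i) (F.w j) (F.e k) - C.T (F.e i) (F.w j) (r k) :=
    fun _ _ _ => rfl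
  have hanti : ∀ i k j, om k i j = -om i k j := by
    intro i k j
    rw [hom, hom, C.sw' (r k) (F.w j) (F.e i), C.sw' (F.e k) (F.w j) (r i)]
    ring
  let A : Fin 3 → Fin 3 → ℂ := ![om 1 2, om 2 0, om 0 1]
  have hZ : ∀ i j x, C.T (F'.e i) (F'.w j) (x + F'.pi x) = O i j x +
      ∑ k, F.l k x * om i k j := by
    intro i j x
    have e1 : C.T (r i) (F.w j) (x + F.pi x) = ∑ k, F.l k x * C.T (r i) (F.w j) (F.e k) := by
      conv_lhs => rw [F.expand x]
      rw [map_add, map_add, hP _ (hrP i) _ (F.w_mem j) _ (F.pi_mem x),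
        hP _ (hrP i) _ (F.w_mem j) _ (F.pi_mem _), add_zero, add_zero, map_sum]
      refine Finset.sum_congr rfl fun k _ => ?_
      rw [map_smul, smul_eq_mul]
    have e2 : ∀ v, C.T v (F.w j) (∑ k, F.l k x • r k) =
        ∑ k, F.l k x * C.T v (F.w j) (r k) := by
      intro v
      rw [map_sum]
      refine Finset.sum_congr rfl fun k _ => ?_
      rw [map_smul, smul_eq_mul]
    have e3 : C.T (r i) (F.w j) (∑ k, F.l k x • r k) = 0 := by
      rw [e2]
      exact Finset.sum_eq_zero fun k _ => by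
        rw [hP _ (hrP i) _ (F.w_mem j) _ (hrP k), mul_zero]
    have e4 : x + F'.pi x = (x + F.pi x) - ∑ k, F.l k x • r k := by
      rw [hpi]
      abel
    rw [hw, hr, e4, map_add, LinearMap.add_apply, LinearMap.add_apply, map_sub, map_sub, e3,
      e1, e2, hO]
    simp only [hom, mul_sub, Finset.sum_sub_distrib]
    ring
  have hrho : ∀ j x, ∑ i, F.l i x * O i j x = C.T x x (F.w j) := by
    intro j x
    have e1 : ∑ i, F.l i x * O i j x = C.T (∑ i, F.l i x • F.e i) (F.w j) (x + F.pi x) := by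
      rw [map_sum, LinearMap.sum_apply, LinearMap.sum_apply]
      refine Finset.sum_congr rfl fun i _ => ?_
      rw [map_smul, LinearMap.smul_apply, LinearMap.smul_apply, smul_eq_mul, hO]
    have e2 : ∑ i, F.l i x • F.e i = x - F.pi x := by
      rw [eq_sub_iff_add_eq]
      exact (F.expand x).symm
    rw [e1, e2, map_sub, LinearMap.sub_apply, LinearMap.sub_apply, map_add, map_add,
      hP _ (F.pi_mem x) _ (F.w_mem j) _ (F.pi_mem x), C.sw' (F.pi x) (F.w j) x,
      C.cy x (F.w j) x]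
    ring
  let L : Fin 3 → V →ₗ[ℂ] ℂ := fun j => ∑ i, crL (O i) (A i) j +
    (cr (A 1) (A 2) j • F.l 0 + cr (A 2) (A 0) j • F.l 1 + cr (A 0) (A 1) j • F.l 2)
  have hL : ∀ j x, L j x = ∑ i, cr (fun k => O i k x) (A i) j +
      (F.l 0 x * cr (A 1) (A 2) j + F.l 1 x * cr (A 2) (A 0) j +
        F.l 2 x * cr (A 0) (A 1) j) := by
    intro j x
    change (∑ i, crL (O i) (A i) j + (cr (A 1) (A 2) j • F.l 0 + cr (A 2) (A 0) j • F.l 1 +
      cr (A 0) (A 1) j • F.l 2) : V →ₗ[ℂ] ℂ) x = _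
    simp only [LinearMap.add_apply, LinearMap.sum_apply, LinearMap.smul_apply, smul_eq_mul,
      crL_apply]
    ring
  refine ⟨∑ j, (L j).smulRight (F.w j), fun x => ?_⟩
  have hid := det_identity (fun i => F.l i x) (fun i j => O i j x) A
  have h1 : F.N C x = Matrix.det (Matrix.of fun i j => O i j x) := rfl
  have h2 : F'.N C x = Matrix.det (Matrix.of
      ![fun j => O 0 j x + (F.l 1 x * A 2 j - F.l 2 x * A 1 j),
      fun j => O 1 j x + (F.l 2 x * A 0 j - F.l 0 x * A 2 j),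
      fun j => O 2 j x + (F.l 0 x * A 1 j - F.l 1 x * A 0 j)]) := by
    unfold Fr.N
    congr 1
    ext i j
    rw [Matrix.of_apply, Matrix.of_apply, hZ, Fin.sum_univ_three]
    have a0 : ∀ j, A 0 j = om 1 2 j := fun _ => rfl
    have a1 : ∀ j, A 1 j = om 2 0 j := fun _ => rfl
    have a2 : ∀ j, A 2 j = om 0 1 j := fun _ => rfl
    have z : ∀ i j, om i i j = 0 := by
      intro i j
      have h3 := hanti i i j
      linear_combination (1 / 2 : ℂ) * h3
    fin_cases i
    · change O 0 j x + (F.l 0 x * om 0 0 j + F.l 1 x * om 0 1 j + F.l 2 x * om 0 2 j) =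
        O 0 j x + (F.l 1 x * A 2 j - F.l 2 x * A 1 j)
      rw [a2, a1, z, hanti 2 0 j]
      ring
    · change O 1 j x + (F.l 0 x * om 1 0 j + F.l 1 x * om 1 1 j + F.l 2 x * om 1 2 j) =
        O 1 j x + (F.l 2 x * A 0 j - F.l 0 x * A 2 j)
      rw [a0, a2, z, hanti 0 1 j]
      ring
    · change O 2 j x + (F.l 0 x * om 2 0 j + F.l 1 x * om 2 1 j + F.l 2 x * om 2 2 j) =
        O 2 j x + (F.l 0 x * A 1 j - F.l 1 x * A 0 j)
      rw [a0, a1, z, hanti 1 2 j]
      ring
  rw [h1, h2, hid, LinearMap.sum_apply, map_sum]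
  refine Finset.sum_congr rfl fun j _ => ?_
  rw [LinearMap.smulRight_apply, map_smul, smul_eq_mul, hrho, hL]
  ring

end Pool.Agent.P28
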