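import Pool.Agent.P28.ChgA

set_option autoImplicit false

/-!
# P28 C03: changing the frame of a plane

`F` and `F'` are frames of the same plane `P`, on which `T` vanishes; `b` a fixed basis of `V`.

PROOF of `chg_N`. Let `G i k = F.l k (F'.e i)`, `K j k = F.y k (F'.w j)`; then
`F'.w j = ∑_k K j k • F.w k` (as `F'.w j ∈ P`) and `F'.e i = ∑_k G i k • F.e k + F.pi (F'.e i)`.
Intermediate frame `F''`: `w'' = F'.w`, `e''_i = ∑_k G i k • F.e k = F'.e i - F.pi (F'.e i)`. It is
a basis: it is obtained from the basis of `F'` by adding elements of `span w''` to the `e'_i`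
(e.g. `Basis.mk` with linear independence and span checked by hand, or transport by the linear
equivalence `x ↦ x - F.pi (∑ F'.l i x • F'.e i)`, whose inverse has the plus sign).
`N F' ≡ N F''` modulo `T x x (A x)` (`chg_complement` for `F'', F'` or `F', F''`).
`F''.pi = F.pi` (both are the projection to `P` with kernel `span F.e`; `span e'' = span F.e`
because `e''` is a basis of a complement of `P` contained in `span F.e`; or compare on the basis
`F''.B`). So `N F'' x = det (T e''_i w''_j (x + F.pi x)) = det (G * O * Kᵀ) = det G det K N F x`.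
`vol F' = vol F'' = det G det K vol F`: `b.det (Sum.elim F'.e F'.w) =
b.det (Sum.elim F.e F.w) * F.B.det (Sum.elim F'.e F'.w)` (`Basis.det_comp_basis`,
`Basis.det_mul_det`, or `b.det v = b.det F.B * F.B.det v`), and the matrix of `Sum.elim F'.e F'.w`
in the basis `F.B` is block triangular with diagonal blocks `G` and `K` (transposed;
`Matrix.det_fromBlocks_zero₂₁` or `₁₂`, the block `F.l k (F'.w j)` is `0`). Multiply.

PROOF of `chg_D`. For `x ∈ P`: `T x (w'_j) (e'_i) = ∑_k G i k T x (w'_j) (e_k)` (the part of `e'_i`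
in `P` contributes `0`), `= ∑_k ∑_m G i k K j m T x (w_m) (e_k)`: `D F' x = det G det K D F x`.
-/

namespace Pool.Agent.P28

open Module

variable {V : Type} [AddCommGroup V] [Module ℂ V]

private theorem cb_w {F F' : Fr V} (hPP : F'.P = F.P) (j : Fin 3) :
    F'.w j = ∑ m, F.y m (F'.w j) • F.w m := by
  have h : F'.w j ∈ F.P := hPP ▸ F'.w_mem j
  have h1 := (F.mem_iff _).1 h
  conv_lhs => rw [← h1]
  rw [Fr.pi, LinearMap.sum_apply]
  rfl

private theorem cb_e (F F' : Fr V) (i : Fin 3) :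
    F'.e i - F.pi (F'.e i) = ∑ k, F.l k (F'.e i) • F.e k := by
  rw [sub_eq_iff_eq_add]
  exact F.expand (F'.e i)

private theorem cb_det (B : V →ₗ[ℂ] V →ₗ[ℂ] ℂ) (e w : Fin 3 → V) (G K : Fin 3 → Fin 3 → ℂ) :
    Matrix.det (Matrix.of fun i j => B (∑ k, G i k • e k) (∑ m, K j m • w m)) =
      Matrix.det (Matrix.of G) * Matrix.det (Matrix.of K) *
        Matrix.det (Matrix.of fun k m => B (e k) (w m)) := by
  have h : (Matrix.of fun i j => B (∑ k, G i k • e k) (∑ m, K j m • w m)) =
      Matrix.of G * (Matrix.of fun k m => B (e k) (w m)) * (Matrix.of K).transpose := by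
    ext i j
    simp only [Matrix.mul_apply, Matrix.of_apply, Matrix.transpose_apply, map_sum, map_smul,
      LinearMap.sum_apply, LinearMap.smul_apply, smul_eq_mul]
    exact Finset.sum_congr rfl fun m _ => mul_comm _ _
  rw [h, Matrix.det_mul, Matrix.det_mul, Matrix.det_transpose]
  ring

/-- The intermediate frame. -/
private theorem cb_frame {F F' : Fr V} (hPP : F'.P = F.P) :
    ∃ F'' : Fr V, F''.w = F'.w ∧ (∀ i, F''.e i = F'.e i - F.pi (F'.e i)) ∧
      F''.pi = F.pi := by
  let N : V →ₗ[ℂ] V := ∑ i, (F'.l i).smulRight (F.pi (F'.e i))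
  have hN : ∀ x, N x = ∑ i, F'.l i x • F.pi (F'.e i) := fun x => by
    simp only [N, LinearMap.sum_apply, LinearMap.smulRight_apply]
  have hN0 : ∀ x ∈ F.P, N x = 0 := by
    intro x hx
    rw [hN]
    refine Finset.sum_eq_zero fun i _ => ?_
    rw [← hPP] at hx
    rw [F'.l_eq_zero hx, zero_smul]
  have hNN : ∀ x, N (N x) = 0 := fun x => hN0 _ (by
    rw [hN]
    exact Submodule.sum_mem _ fun i _ => Submodule.smul_mem _ _ (F.pi_mem _))
  have hNe : ∀ i, N (F'.e i) = F.pi (F'.e i) := by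
    intro i
    rw [hN, Finset.sum_eq_single i]
    · rw [F'.l_e, if_pos rfl, one_smul]
    · intro j _ hj
      rw [F'.l_e, if_neg hj, zero_smul]
    · intro h
      exact absurd (Finset.mem_univ i) h
  let φ : V ≃ₗ[ℂ] V := LinearEquiv.ofLinear (LinearMap.id - N) (LinearMap.id + N)
    (LinearMap.ext fun x => by
      simp only [LinearMap.comp_apply, LinearMap.sub_apply, LinearMap.add_apply,
        LinearMap.id_apply, map_add, hNN]
      abel)
    (LinearMap.ext fun x => by
      simp only [LinearMap.comp_apply, LinearMap.sub_apply, LinearMap.add_apply,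
        LinearMap.id_apply, map_sub, hNN]
      abel)
  have hφ : ∀ x, φ x = x - N x := fun x => rfl
  let F'' : Fr V :=
    { e := fun i => F'.e i - F.pi (F'.e i)
      w := F'.w
      B := F'.B.map φ
      hB := by
        funext i
        rw [Basis.map_apply, hφ]
        rcases i with i | i
        · rw [F'.e_eq, hNe]
          rfl
        · rw [F'.w_eq, hN0 _ (hPP ▸ F'.w_mem i), sub_zero]
          rfl }
  refine ⟨F'', rfl, fun i => rfl, ?_⟩
  refine F''.B.ext fun i => ?_
  rcases i with i | i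
  · rw [F''.e_eq, F''.pi_e]
    change 0 = F.pi (F'.e i - F.pi (F'.e i))
    rw [map_sub, (F.mem_iff _).1 (F.pi_mem (F'.e i)), sub_self]
  · rw [F''.w_eq, F''.pi_w]
    change F'.w i = F.pi (F'.w i)
    exact ((F.mem_iff _).1 (hPP ▸ F'.w_mem i)).symm

/-- The volume of `F'` with respect to `F`. -/
theorem vol_eq (b : Basis (Fin 3 ⊕ Fin 3) ℂ V) {F F' : Fr V} (hPP : F'.P = F.P) :
    F'.vol b = Matrix.det (Matrix.of fun i k => F.l k (F'.e i)) *
      Matrix.det (Matrix.of fun j k => F.y k (F'.w j)) * F.vol b := by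
  have h1 : F.B.toMatrix (Sum.elim F'.e F'.w) = Matrix.fromBlocks
      (Matrix.of fun i k => F.l k (F'.e i)).transpose 0
      (Matrix.of fun k i => F.y k (F'.e i))
      (Matrix.of fun j k => F.y k (F'.w j)).transpose := by
    ext i j
    rcases i with i | i <;> rcases j with j | j
    · rfl
    · change F.l i (F'.w j) = 0
      exact F.l_eq_zero (hPP ▸ F'.w_mem j) i
    · rfl
    · rfl
  rw [Fr.vol, Fr.vol, Basis.det_apply, Basis.det_apply,
    ← Basis.toMatrix_mul_toMatrix b F.B (Sum.elim F'.e F'.w), Matrix.det_mul, h1,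
    Matrix.det_fromBlocks_zero₁₂, Matrix.det_transpose, Matrix.det_transpose, F.hB]
  ring

theorem vol_ne_zero (b : Basis (Fin 3 ⊕ Fin 3) ℂ V) (F : Fr V) : F.vol b ≠ 0 := by
  rw [Fr.vol, ← F.hB]
  exact (b.isUnit_det F.B).ne_zero

theorem chg_N (C : Cub V) (b : Basis (Fin 3 ⊕ Fin 3) ℂ V) {F F' : Fr V} (hPP : F'.P = F.P)
    (hP : ∀ x ∈ F.P, ∀ y ∈ F.P, ∀ z ∈ F.P, C.T x y z = 0) :
    ∃ A : V →ₗ[ℂ] V, ∀ x, F.vol b * F'.N C x - F'.vol b * F.N C x = C.T x x (A x) := by
  obtain ⟨F'', hw, he, hpi⟩ := cb_frame hPP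
  have hP'' : F''.P = F.P := by
    rw [← hPP, Fr.P, Fr.P, hw]
  obtain ⟨A, hA⟩ := chg_complement C (F := F'') (F' := F') hw.symm (fun i => by
    rw [he, sub_sub_cancel, hP'']
    exact F.pi_mem _) (by rw [hP'']; exact hP)
  refine ⟨F.vol b • A, fun x => ?_⟩
  have h1 : F''.N C x = Matrix.det (Matrix.of fun i k => F.l k (F'.e i)) *
      Matrix.det (Matrix.of fun j k => F.y k (F'.w j)) * F.N C x := by
    have h2 := cb_det (C.T (x + F.pi x)) F.e F.w (fun i k => F.l k (F'.e i))
      (fun j k => F.y k (F'.w j))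
    have h3 : F''.N C x = Matrix.det (Matrix.of fun i j => C.T (x + F.pi x)
        (∑ k, F.l k (F'.e i) • F.e k) (∑ m, F.y m (F'.w j) • F.w m)) := by
      rw [Fr.N, hpi]
      congr 2
      funext i j
      rw [← cb_e, ← cb_w hPP, ← he, ← hw]
      exact (C.rot _ _ _).symm
    have h4 : F.N C x = Matrix.det (Matrix.of fun k m =>
        C.T (x + F.pi x) (F.e k) (F.w m)) := by
      rw [Fr.N]
      congr 2
      funext i j
      exact (C.rot _ _ _).symm
    rw [h3, h2, h4]
  have h2 := hA x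
  rw [h1] at h2
  rw [vol_eq b hPP, LinearMap.smul_apply, map_smul, smul_eq_mul, ← h2]
  ring

theorem chg_D (C : Cub V) (b : Basis (Fin 3 ⊕ Fin 3) ℂ V) {F F' : Fr V} (hPP : F'.P = F.P)
    (hP : ∀ x ∈ F.P, ∀ y ∈ F.P, ∀ z ∈ F.P, C.T x y z = 0) :
    ∀ x ∈ F.P, F.vol b * F'.D C x = F'.vol b * F.D C x := by
  intro x hx
  have h1 : F'.D C x = Matrix.det (Matrix.of fun i k => F.l k (F'.e i)) *
      Matrix.det (Matrix.of fun j k => F.y k (F'.w j)) * F.D C x := by
    have h2 := cb_det (C.T x) F.e F.w (fun i k => F.l k (F'.e i))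
      (fun j k => F.y k (F'.w j))
    have h3 : F'.D C x = Matrix.det (Matrix.of fun i j => C.T x
        (∑ k, F.l k (F'.e i) • F.e k) (∑ m, F.y m (F'.w j) • F.w m)) := by
      rw [Fr.D]
      congr 2
      funext i j
      rw [← cb_e, ← cb_w hPP, map_sub, LinearMap.sub_apply,
        hP x hx _ (F.pi_mem _) _ (hPP ▸ F'.w_mem j), sub_zero]
      exact C.cy _ _ _
    have h4 : F.D C x = Matrix.det (Matrix.of fun k m => C.T x (F.e k) (F.w m)) := by
      rw [Fr.D]
      congr 2
      funext i j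
      exact C.cy _ _ _
    rw [h3, h2, h4]
  rw [h1, vol_eq b hPP]
  ring

end Pool.Agent.P28
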