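import Pool.Agent.P28.QZero

set_option autoImplicit false

/-!
# P28 A02: smoothness forbids large isotropic spaces

PROOFS. Let `H` be a subspace, `M` a subspace and `T x x y = 0` for `x ∈ M`, `y ∈ H`.
(`no_hyper`) `finrank H ≥ 5`: choose `v` with `H ⊔ span {v} = ⊤` (if `H = ⊤` every nonzero
`x ∈ M` contradicts smoothness). `x ↦ T x x v` is a quadratic form on `M` (bilinear form
`(x, y) ↦ T x y v`), by `exists_zero_one` it has a zero `x ≠ 0` in `M`; then `T x x z = 0` for all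
`z`, against smoothness.
(`no_codim_two`) `finrank H ≥ 4`: choose `v, v'` with `H ⊔ span {v, v'} = ⊤` and use
`exists_zero_two` for the two quadratic forms `T x x v`, `T x x v'` on `M`.
(`no_four`) polarise (`Cub.polar`) and apply `no_codim_two` with `M = H = N`.
-/

namespace Pool.Agent.P28

open Module

variable {V : Type} [AddCommGroup V] [Module ℂ V] [FiniteDimensional ℂ V]

private theorem grow (H : Submodule ℂ V) :
    ∃ v, H ⊔ Submodule.span ℂ {v} = ⊤ ∨ finrank ℂ H + 1 ≤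
      finrank ℂ (H ⊔ Submodule.span ℂ {v} : Submodule ℂ V) := by
  by_cases hH : H = ⊤
  · exact ⟨0, Or.inl (by rw [hH]; exact top_sup_eq _)⟩
  · obtain ⟨v, hv⟩ : ∃ v, v ∉ H := by
      by_contra hc
      push Not at hc
      exact hH (eq_top_iff.2 fun v _ => hc v)
    refine ⟨v, Or.inr ?_⟩
    have h1 : H < H ⊔ Submodule.span ℂ {v} := by
      refine lt_of_le_of_ne le_sup_left fun h => hv ?_
      have h2 : v ∈ H ⊔ Submodule.span ℂ {v} :=
        Submodule.mem_sup_right (Submodule.mem_span_singleton_self v)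
      rw [← h] at h2
      exact h2
    exact Submodule.finrank_lt_finrank_of_lt h1

private theorem exists_compl_one (hV : finrank ℂ V = 6) (H : Submodule ℂ V)
    (hH : 5 ≤ finrank ℂ H) : ∃ v, H ⊔ Submodule.span ℂ {v} = ⊤ := by
  obtain ⟨v, h | h⟩ := grow H
  · exact ⟨v, h⟩
  · refine ⟨v, Submodule.eq_top_of_finrank_eq (le_antisymm (Submodule.finrank_le _) ?_)⟩
    omega

private theorem exists_compl_two (hV : finrank ℂ V = 6) (H : Submodule ℂ V)
    (hH : 4 ≤ finrank ℂ H) :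
    ∃ v v', H ⊔ Submodule.span ℂ {v} ⊔ Submodule.span ℂ {v'} = ⊤ := by
  obtain ⟨v, h | h⟩ := grow H
  · exact ⟨v, 0, by rw [h]; exact top_sup_eq _⟩
  · obtain ⟨v', h'⟩ := exists_compl_one hV (H ⊔ Submodule.span ℂ {v}) (by omega)
    exact ⟨v, v', h'⟩

/-- the bilinear form `(x, y) ↦ T x y v` on `M` -/
private noncomputable def bil (C : Cub V) (M : Submodule ℂ V) (v : V) : M →ₗ[ℂ] M →ₗ[ℂ] ℂ :=
  (C.T v).domRestrict₁₂ M M

private theorem bil_apply (C : Cub V) (M : Submodule ℂ V) (v : V) (x y : M) :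
    bil C M v x y = C.T x y v := C.rot v x y

private theorem bil_symm (C : Cub V) (M : Submodule ℂ V) (v : V) (x y : M) :
    bil C M v x y = bil C M v y x := by
  rw [bil_apply, bil_apply, C.sw]

theorem no_hyper (C : Cub V) (hs : C.Smooth) (hV : finrank ℂ V = 6) (M H : Submodule ℂ V)
    (hM : 2 ≤ finrank ℂ M) (hH : 5 ≤ finrank ℂ H) (h : ∀ x ∈ M, ∀ y ∈ H, C.T x x y = 0) :
    False := by
  obtain ⟨v, hv⟩ := exists_compl_one hV H hH
  obtain ⟨x, hx0, hx⟩ := exists_zero_one hM (bil C M v) (bil_symm C M v)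
  rw [bil_apply] at hx
  obtain ⟨z, hz⟩ := hs (x : V) (fun h0 => hx0 (Subtype.ext h0))
  apply hz
  have hzt : z ∈ H ⊔ Submodule.span ℂ {v} := by
    rw [hv]
    exact Submodule.mem_top
  obtain ⟨y, hy, w, hw, rfl⟩ := Submodule.mem_sup.1 hzt
  obtain ⟨c, rfl⟩ := Submodule.mem_span_singleton.1 hw
  rw [map_add, map_smul, h x x.2 y hy, hx, smul_zero, add_zero]

theorem no_codim_two (C : Cub V) (hs : C.Smooth) (hV : finrank ℂ V = 6) (M H : Submodule ℂ V)
    (hM : 3 ≤ finrank ℂ M) (hH : 4 ≤ finrank ℂ H) (h : ∀ x ∈ M, ∀ y ∈ H, C.T x x y = 0) :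
    False := by
  obtain ⟨v, v', hv⟩ := exists_compl_two hV H hH
  obtain ⟨x, hx0, hx, hx'⟩ := exists_zero_two hM (bil C M v) (bil C M v') (bil_symm C M v)
    (bil_symm C M v')
  rw [bil_apply] at hx hx'
  obtain ⟨z, hz⟩ := hs (x : V) (fun h0 => hx0 (Subtype.ext h0))
  apply hz
  have hzt : z ∈ H ⊔ Submodule.span ℂ {v} ⊔ Submodule.span ℂ {v'} := by
    rw [hv]
    exact Submodule.mem_top
  obtain ⟨u, hu, w, hw, rfl⟩ := Submodule.mem_sup.1 hzt
  obtain ⟨y, hy, w', hw', rfl⟩ := Submodule.mem_sup.1 hu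
  obtain ⟨c, rfl⟩ := Submodule.mem_span_singleton.1 hw
  obtain ⟨c', rfl⟩ := Submodule.mem_span_singleton.1 hw'
  rw [map_add, map_add, map_smul, map_smul, h x x.2 y hy, hx, hx', smul_zero, smul_zero, add_zero,
    add_zero]

theorem no_four (C : Cub V) (hs : C.Smooth) (hV : finrank ℂ V = 6) (N : Submodule ℂ V)
    (hN : 4 ≤ finrank ℂ N) (h : ∀ x ∈ N, C.T x x x = 0) : False :=
  no_codim_two C hs hV N N (by omega) hN fun x hx y hy => C.polar h x hx x hx y hy

end Pool.Agent.P28
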