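import Pool.Agent.P28.BDefs
import Pool.Agent.P28.NoFour

set_option autoImplicit false

/-!
# P28 B03: the net of conics of a plane

`C` smooth in standard position; `A_u(x, y) = T (x,0) (y,0) (0,u)`.
`net_zero`: the conics have no common zero: if `x ≠ 0` and `T (x,0) (x,0) (0,u) = 0` for all `u`
then `T (x,0) (x,0) z = 0` for all `z ∈ VV`: singular point.
`net_pair`: for `u, u'` there is `x ≠ 0` with `A_u(x,x) = A_u'(x,x) = 0` (`exists_zero_two`).
`net_inj`: `u ≠ 0` implies `am C u ≠ 0`: otherwise complete `u` to a basis `u, u', u''`; a common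
zero of `A_u'`, `A_u''` is a common zero of all.
`net_rank_two`: there is `u` with `A_u` of rank `≥ 2`, i.e. `adjugate (am C u) ≠ 0`. Otherwise all
`A_u` have rank `≤ 1`, so (symmetric, over `ℂ`) `A_u = l_u ⊗ l_u`. For `u, u'` independent
`l_u, l_u'` are independent (otherwise `A_u' = c A_u`, against `net_inj` for `u' - c u`), and then
`A_u + A_u' = A_(u+u')` has rank 2: some 2x2 minor is `(l_i l'_j - l_j l'_i)^2 ≠ 0`.
`D3_ne`: `D3 C ≠ 0`. Suppose `D3 = 0`. Take `u` with `adj A_u ≠ 0`, so `A_u` has rank exactly 2,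
kernel vector `k ≠ 0` and `adj A_u = rho k ⊗ k`, `rho ≠ 0` (the adjugate of a symmetric matrix of
rank 2; `A adj A = 0`, so all columns of `adj A` are multiples of `k`, and it is symmetric). The
coefficient of `t` in `0 = det (A_u + t A_v)` is `tr (adj A_u * A_v) = rho A_v(k, k)`. So
`A_v(k,k) = 0` for all `v`, against `net_zero`.
`det_line`: the same computation for a 2-dimensional space: if `det (am C (u + t v)) = 0` for all
`t`, `adj A_u = rho k ⊗ k`, then `rho A_v(k, k) = 0`.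
-/

namespace Pool.Agent.P28

open Module MvPolynomial

private theorem T_eq (C : Cub VV) (x y u : Fin 3 → ℂ) :
    C.T (x, 0) (y, 0) (0, u) = ∑ i, ∑ j, x i * y j * am C u i j := by
  rw [sum_E x, sum_E y]
  simp only [Fin.sum_univ_three, map_add, map_smul, LinearMap.add_apply, LinearMap.smul_apply,
    smul_eq_mul, am, Matrix.of_apply]
  ring

private theorem am_lin (C : Cub VV) (s t : ℂ) (u u' : Fin 3 → ℂ) (i j : Fin 3) :
    am C (s • u + t • u') i j = s * am C u i j + t * am C u' i j := by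
  have h : ((0, s • u + t • u') : VV) = s • (0, u) + t • (0, u') := by
    ext i <;> simp
  simp only [am, Matrix.of_apply]
  rw [h, map_add, map_smul, map_smul, smul_eq_mul, smul_eq_mul]

theorem net_zero (C : Cub VV) (hs : C.Smooth) (hC : Std C) {x : Fin 3 → ℂ} (hx : x ≠ 0) :
    ∃ u, C.T (x, 0) (x, 0) (0, u) ≠ 0 := by
  obtain ⟨z, hz⟩ := hs (x, 0) (fun h => hx (congrArg Prod.fst h))
  refine ⟨z.2, ?_⟩
  have h : z = (z.1, 0) + (0, z.2) := by
    ext <;> simp
  rw [h, map_add, hC, zero_add] at hz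
  exact hz

theorem net_pair (C : Cub VV) (u u' : Fin 3 → ℂ) :
    ∃ x : Fin 3 → ℂ, x ≠ 0 ∧ C.T (x, 0) (x, 0) (0, u) = 0 ∧ C.T (x, 0) (x, 0) (0, u') = 0 := by
  let F : VV → (Fin 3 → ℂ) →ₗ[ℂ] (Fin 3 → ℂ) →ₗ[ℂ] ℂ := fun v =>
    (C.T v).compl₁₂ (LinearMap.inl ℂ (Fin 3 → ℂ) (Fin 3 → ℂ))
      (LinearMap.inl ℂ (Fin 3 → ℂ) (Fin 3 → ℂ))
  have hF : ∀ v x y, F v x y = C.T (x, 0) (y, 0) v := fun v x y => C.rot v (x, 0) (y, 0)
  have hsy : ∀ v x y, F v x y = F v y x := fun v x y => by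
    rw [hF, hF, C.sw]
  obtain ⟨x, hx, h1, h2⟩ := exists_zero_two (E := Fin 3 → ℂ) (by simp) (F (0, u)) (F (0, u'))
    (hsy _) (hsy _)
  exact ⟨x, hx, by rw [← hF]; exact h1, by rw [← hF]; exact h2⟩

theorem net_inj (C : Cub VV) (hs : C.Smooth) (hC : Std C) {u : Fin 3 → ℂ} (hu : u ≠ 0) :
    am C u ≠ 0 := by
  intro h0
  obtain ⟨W, hW⟩ := Submodule.exists_isCompl (Submodule.span ℂ {u})
  have hf := Submodule.finrank_add_eq_of_isCompl hW
  rw [finrank_span_singleton hu, Module.finrank_fin_fun] at hf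
  have hW2 : finrank ℂ W = 2 := by omega
  let b := Module.finBasisOfFinrankEq ℂ W hW2
  obtain ⟨x, hx, h1, h2⟩ := net_pair C (b 0 : Fin 3 → ℂ) (b 1 : Fin 3 → ℂ)
  obtain ⟨z, hz⟩ := net_zero C hs hC hx
  apply hz
  let L : (Fin 3 → ℂ) →ₗ[ℂ] ℂ :=
    (C.T (x, 0) (x, 0)).comp (LinearMap.inr ℂ (Fin 3 → ℂ) (Fin 3 → ℂ))
  have hL : ∀ y, L y = C.T (x, 0) (x, 0) (0, y) := fun y => rfl
  have hLu : L u = 0 := by
    rw [hL, T_eq, h0]
    simp
  have hz' : z ∈ Submodule.span ℂ {u} ⊔ W := by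
    rw [hW.sup_eq_top]
    exact Submodule.mem_top
  obtain ⟨y, hy, w, hw, rfl⟩ := Submodule.mem_sup.1 hz'
  obtain ⟨c, rfl⟩ := Submodule.mem_span_singleton.1 hy
  have hwb := b.sum_repr ⟨w, hw⟩
  rw [Fin.sum_univ_two] at hwb
  have hwb' : w = b.repr ⟨w, hw⟩ 0 • (b 0 : Fin 3 → ℂ) + b.repr ⟨w, hw⟩ 1 • (b 1 : Fin 3 → ℂ) := by
    have h3 := congrArg (Subtype.val) hwb
    rw [Submodule.coe_add, Submodule.coe_smul, Submodule.coe_smul] at h3
    exact h3.symm
  rw [← hL, map_add, map_smul, hLu, smul_zero, zero_add, hwb', map_add, map_smul, map_smul, hL, hL,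
    h1, h2, smul_zero, smul_zero, add_zero]

/-- A symmetric matrix with vanishing adjugate. -/
private theorem minors (A : Matrix (Fin 3) (Fin 3) ℂ) (hA : ∀ i j, A i j = A j i)
    (ha : A.adjugate = 0) (i j k : Fin 3) : A i i * A j k = A i j * A i k := by
  have e : ∀ i j, A.adjugate i j = 0 := fun i j => by rw [ha]; rfl
  rw [Matrix.adjugate_fin_three] at e
  have e00 := e 0 0
  have e01 := e 0 1
  have e02 := e 0 2
  have e11 := e 1 1
  have e12 := e 1 2
  have e22 := e 2 2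
  simp at e00 e01 e02 e11 e12 e22
  have s1 := hA 1 0
  have s2 := hA 2 0
  have s3 := hA 2 1
  rw [s3] at e00 e01
  rw [s2] at e11
  rw [s1] at e12 e22
  clear e ha hA
  fin_cases i <;> fin_cases j <;> fin_cases k <;> simp only [Fin.zero_eta, Fin.mk_one,
    Fin.reduceFinMk, s1, s2, s3] <;> grind

private theorem rank_one (A : Matrix (Fin 3) (Fin 3) ℂ) (hA : ∀ i j, A i j = A j i)
    (ha : A.adjugate = 0) (h0 : A ≠ 0) :
    ∃ (a : ℂ) (v : Fin 3 → ℂ), a ≠ 0 ∧ v ≠ 0 ∧ ∀ j k, A j k = a * (v j * v k) := by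
  have key := minors A hA ha
  have hd : ∃ i, A i i ≠ 0 := by
    by_contra hc
    push Not at hc
    apply h0
    ext i j
    have h1 := key i j j
    rw [hc i, zero_mul] at h1
    exact mul_self_eq_zero.1 h1.symm
  obtain ⟨i, hi⟩ := hd
  refine ⟨(A i i)⁻¹, A i, inv_ne_zero hi, fun h => hi (congrFun h i), fun j k => ?_⟩
  rw [← key i j k]
  field_simp

theorem net_rank_two (C : Cub VV) (hs : C.Smooth) (hC : Std C) {u u' : Fin 3 → ℂ}
    (h : LinearIndependent ℂ ![u, u']) :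
    ∃ s t : ℂ, (am C (s • u + t • u')).adjugate ≠ 0 := by
  by_contra hc
  push Not at hc
  rw [LinearIndependent.pair_iff] at h
  have hu : u ≠ 0 := fun h0 => by
    have := (h 1 0 (by rw [h0]; simp)).1
    exact one_ne_zero this
  have hu' : u' ≠ 0 := fun h0 => by
    have := (h 0 1 (by rw [h0]; simp)).2
    exact one_ne_zero this
  have a1 := hc 1 0
  have a2 := hc 0 1
  have a3 := minors _ (am_symm C _) (hc 1 1)
  rw [one_smul, zero_smul, add_zero] at a1
  rw [one_smul, zero_smul, zero_add] at a2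
  obtain ⟨a, v, ha, hv, hav⟩ := rank_one _ (am_symm C u) a1 (net_inj C hs hC hu)
  obtain ⟨b, w, hb, hw, hbw⟩ := rank_one _ (am_symm C u') a2 (net_inj C hs hC hu')
  have e : ∀ i j, v i * w j = v j * w i := by
    intro i j
    have h1 := a3 i j j
    simp only [am_lin, hav, hbw] at h1
    have h2 : (v i * w j - v j * w i) * (v i * w j - v j * w i) = 0 := by
      have h3 : (a * b) * ((v i * w j - v j * w i) * (v i * w j - v j * w i)) = 0 := by
        linear_combination h1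
      exact (mul_eq_zero.1 h3).resolve_left (mul_ne_zero ha hb)
    exact sub_eq_zero.1 (mul_self_eq_zero.1 h2)
  obtain ⟨i, hi⟩ : ∃ i, v i ≠ 0 := by
    by_contra hn
    push Not at hn
    exact hv (funext hn)
  have hw' : ∀ j, w j = w i / v i * v j := by
    intro j
    field_simp
    linear_combination e i j
  have hne : (-(b * (w i / v i) * (w i / v i) / a)) • u + (1 : ℂ) • u' ≠ 0 := fun h0 =>
    one_ne_zero (h _ _ h0).2
  apply net_inj C hs hC hne
  ext j k
  rw [am_lin, hav, hbw, hw' j, hw' k, Matrix.zero_apply]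
  generalize w i / v i = c
  field_simp
  ring

/-- The adjugate of a symmetric singular matrix. -/
theorem adj_symm (A : Matrix (Fin 3) (Fin 3) ℂ) (hA : ∀ i j, A i j = A j i) (hd : A.det = 0)
    (ha : A.adjugate ≠ 0) : ∃ (k : Fin 3 → ℂ) (rho : ℂ), k ≠ 0 ∧ rho ≠ 0 ∧
      A.mulVec k = 0 ∧ ∀ i j, A.adjugate i j = rho * (k i * k j) := by
  have hT : A.transpose = A := by
    ext i j
    exact hA j i
  have hN : ∀ i j, A.adjugate i j = A.adjugate j i := by
    intro i j
    have h1 := Matrix.adjugate_transpose A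
    rw [hT] at h1
    have h2 := congrFun (congrFun h1 i) j
    rw [Matrix.transpose_apply] at h2
    exact h2.symm
  have hNN : A.adjugate.adjugate = 0 := by
    rw [Matrix.adjugate_adjugate A (by simp), hd]
    simp
  obtain ⟨a, v, ha', hv, hav⟩ := rank_one _ hN hNN ha
  refine ⟨v, a, hv, ha', ?_, hav⟩
  obtain ⟨j, hj⟩ : ∃ j, v j ≠ 0 := by
    by_contra hn
    push Not at hn
    exact hv (funext hn)
  ext i
  have h1 := congrFun (congrFun (Matrix.mul_adjugate A) i) j
  rw [hd, zero_smul, Matrix.mul_apply, Fin.sum_univ_three, hav, hav, hav] at h1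
  have h2 : a * v j * A.mulVec v i = 0 := by
    rw [Matrix.mulVec, dotProduct, Fin.sum_univ_three]
    rw [Matrix.zero_apply] at h1
    linear_combination h1
  exact (mul_eq_zero.1 h2).resolve_left (mul_ne_zero ha' hj)

theorem det_line (A B : Matrix (Fin 3) (Fin 3) ℂ) (h : ∀ t : ℂ, (A + t • B).det = 0)
    {k : Fin 3 → ℂ} {rho : ℂ} (hr : rho ≠ 0)
    (hk : ∀ i j, A.adjugate i j = rho * (k i * k j)) : ∑ i, ∑ j, k i * k j * B i j = 0 := by
  have h1 := h 1
  have h2 := h (-1)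
  have h3 := h 2
  have h4 := h (-2)
  rw [Matrix.det_fin_three] at h1 h2 h3 h4
  simp only [Matrix.add_apply, Matrix.smul_apply, smul_eq_mul] at h1 h2 h3 h4
  rw [Matrix.adjugate_fin_three] at hk
  have e00 := hk 0 0
  have e01 := hk 0 1
  have e02 := hk 0 2
  have e10 := hk 1 0
  have e11 := hk 1 1
  have e12 := hk 1 2
  have e20 := hk 2 0
  have e21 := hk 2 1
  have e22 := hk 2 2
  simp at e00 e01 e02 e10 e11 e12 e20 e21 e22
  have h5 : rho * ∑ i, ∑ j, k i * k j * B i j = 0 := by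
    simp only [Fin.sum_univ_three]
    linear_combination (1 / 12 : ℂ) * (8 * (h1 - h2) - (h3 - h4)) - B 0 0 * e00 - B 0 1 * e10
      - B 0 2 * e20 - B 1 0 * e01 - B 1 1 * e11 - B 1 2 * e21 - B 2 0 * e02 - B 2 1 * e12
      - B 2 2 * e22
  exact (mul_eq_zero.1 h5).resolve_left hr

theorem D3_ne (C : Cub VV) (hs : C.Smooth) (hC : Std C) : D3 C ≠ 0 := by
  intro h0
  have hdet : ∀ u, (am C u).det = 0 := by
    intro u
    have h1 : eval u (D3 C) = (am C u).det := by
      rw [D3, RingHom.map_det]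
      congr 1
      ext i j
      exact eval_pa C u i j
    rw [← h1, h0, map_zero]
  have hli : LinearIndependent ℂ ![(Pi.single 0 1 : Fin 3 → ℂ), (Pi.single 1 1 : Fin 3 → ℂ)] := by
    rw [LinearIndependent.pair_iff]
    intro s t hst
    have h1 := congrFun hst 0
    have h2 := congrFun hst 1
    simp at h1 h2
    exact ⟨h1, h2⟩
  obtain ⟨s, t, hst⟩ := net_rank_two C hs hC hli
  generalize s • (Pi.single 0 1 : Fin 3 → ℂ) + t • (Pi.single 1 1 : Fin 3 → ℂ) = u at hst
  obtain ⟨k, rho, hk, hr, -, hadj⟩ := adj_symm _ (am_symm C u) (hdet u) hst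
  obtain ⟨v, hv⟩ := net_zero C hs hC hk
  apply hv
  rw [T_eq]
  refine det_line (am C u) (am C v) (fun t => ?_) hr hadj
  have h1 : am C u + t • am C v = am C ((1 : ℂ) • u + t • v) := by
    ext i j
    rw [am_lin, Matrix.add_apply, Matrix.smul_apply, smul_eq_mul, one_mul]
  rw [h1]
  exact hdet _

end Pool.Agent.P28
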