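import Pool.Agent.P28.Trans
import Pool.Agent.P28.NetA

set_option autoImplicit false

/-!
# P28 B05: normal form of a net with two double lines

PROOF of `normal_form`. `A_w = l ⊗ l`, `A_w' = l' ⊗ l'`, `w, w'` independent. `l, l'` are
independent: otherwise `A_w' = c A_w` (both nonzero), against `net_inj` for `w' - c w ≠ 0`.
Choose `k ≠ 0` with `l(k) = l'(k) = 0` and `w''` such that `w, w', w''` is a basis.
`A_w''(k,k) ≠ 0`, otherwise `k` is a common zero of all conics (`net_zero`). Scale `w''` so that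
`A_w''(k,k) = 1`. Choose `x0, x1` with `l(x0) = 1, l'(x0) = 0, l(x1) = 0, l'(x1) = 1` and replace
`x_i` by `x_i - A_w''(x_i, k) k`: then `A_w''(x_i, k) = 0`. Replace `w''` by
`w'' - A_w''(x0,x0) w - A_w''(x1,x1) w'`: then `A_w''(x0,x0) = A_w''(x1,x1) = 0`, and
`A_w''(x_i,k) = 0`, `A_w''(k,k) = 1` are unchanged (`A_w(k,·) = 0`). Let `ka = A_w''(x0,x1)`.
If `ka = 0`: the basis `x0, x1, k` of `ℂ^3` (the plane) and `w, w', w''` give `NF 0`. If `ka ≠ 0`:
replace `w''` by `ka⁻¹ w''` and `k` by `sqrt(ka) k`: now `A_w''(x0,x1) = 1`, `A_w''(k,k) = 1`.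
So in the coordinates `a : x ↦ x_0 x0 + x_1 x1 + x_2 k`, `h : u ↦ u_0 w + u_1 w' + u_2 w''`:
`am (C.tr a h 0) u = !![u 0, ka u 2, 0; ka u 2, u 1, 0; 0, 0, u 2]` with `ka` in `{0, 1}` (`tr_am`).
-/

namespace Pool.Agent.P28

open Module

/-- Normal form of the net. -/
def NF (ka : ℂ) (C : Cub VV) : Prop :=
  ∀ u : Fin 3 → ℂ, am C u = !![u 0, ka * u 2, 0; ka * u 2, u 1, 0; 0, 0, u 2]

/-- the trilinear form `A_u(x, y)` -/
private noncomputable def BL (C : Cub VV) :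
    (Fin 3 → ℂ) →ₗ[ℂ] (Fin 3 → ℂ) →ₗ[ℂ] (Fin 3 → ℂ) →ₗ[ℂ] ℂ :=
  ((C.T.comp (LinearMap.inl ℂ (Fin 3 → ℂ) (Fin 3 → ℂ))).compr₂
    (LinearMap.lcomp ℂ ℂ (LinearMap.inr ℂ (Fin 3 → ℂ) (Fin 3 → ℂ)))).compl₂
      (LinearMap.inl ℂ (Fin 3 → ℂ) (Fin 3 → ℂ))

private theorem BL_apply (C : Cub VV) (x y u : Fin 3 → ℂ) :
    BL C x y u = C.T (x, 0) (y, 0) (0, u) := rfl

private theorem BL_symm (C : Cub VV) (x y u : Fin 3 → ℂ) : BL C x y u = BL C y x u := C.sw _ _ _

private theorem BL_expand (C : Cub VV) (x y u : Fin 3 → ℂ) :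
    BL C x y u = ∑ k, ∑ l, x k * y l * am C u k l := by
  have h2 : ∀ k l, C.T (E k) (E l) (0, u) = am C u k l := fun _ _ => rfl
  rw [BL_apply, sum_E x, sum_E y]
  simp only [Fin.sum_univ_three, map_add, map_smul, LinearMap.add_apply, LinearMap.smul_apply,
    smul_eq_mul, h2]
  ring

private theorem BL_rank_one (C : Cub VV) {w l : Fin 3 → ℂ} (hl : ∀ i j, am C w i j = l i * l j)
    (x y : Fin 3 → ℂ) : BL C x y w = (l ⬝ᵥ x) * (l ⬝ᵥ y) := by
  rw [BL_expand]
  simp only [hl, dotProduct, Fin.sum_univ_three]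
  ring

private theorem nf_of (C : Cub VV) (hC : Std C) {x0 x1 k w w' w'' l l' : Fin 3 → ℂ} {ka : ℂ}
    (hw : ∀ x y, BL C x y w = (l ⬝ᵥ x) * (l ⬝ᵥ y))
    (hw' : ∀ x y, BL C x y w' = (l' ⬝ᵥ x) * (l' ⬝ᵥ y))
    (l0 : l ⬝ᵥ x0 = 1) (l1 : l ⬝ᵥ x1 = 0) (l2 : l ⬝ᵥ k = 0)
    (m0 : l' ⬝ᵥ x0 = 0) (m1 : l' ⬝ᵥ x1 = 1) (m2 : l' ⬝ᵥ k = 0)
    (h00 : BL C x0 x0 w'' = 0) (h11 : BL C x1 x1 w'' = 0) (h01 : BL C x0 x1 w'' = ka)
    (h0k : BL C x0 k w'' = 0) (h1k : BL C x1 k w'' = 0) (hkk : BL C k k w'' = 1)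
    (hind : LinearIndependent ℂ ![w, w']) :
    ∃ a h : (Fin 3 → ℂ) ≃ₗ[ℂ] (Fin 3 → ℂ), NF ka (C.tr a h 0) := by
  have hk0 : k ≠ 0 := by
    intro h0
    rw [h0, map_zero, LinearMap.zero_apply] at hkk
    exact zero_ne_one hkk
  have hX : LinearIndependent ℂ ![x0, x1, k] := by
    rw [Fintype.linearIndependent_iff]
    intro g hg
    rw [Fin.sum_univ_three] at hg
    simp only [Matrix.cons_val_zero, Matrix.cons_val_one, Matrix.cons_val_two, Matrix.head_cons,
      Matrix.tail_cons] at hg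
    have e0 : g 0 = 0 := by
      have h1 := congrArg (fun z => l ⬝ᵥ z) hg
      simp only [dotProduct_add, dotProduct_smul, l0, l1, l2, smul_eq_mul, mul_one, mul_zero,
        add_zero, dotProduct_zero] at h1
      exact h1
    have e1 : g 1 = 0 := by
      have h1 := congrArg (fun z => l' ⬝ᵥ z) hg
      simp only [dotProduct_add, dotProduct_smul, m0, m1, m2, smul_eq_mul, mul_one, mul_zero,
        add_zero, zero_add, dotProduct_zero] at h1
      exact h1
    have e2 : g 2 = 0 := by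
      rw [e0, e1, zero_smul, zero_smul, zero_add, zero_add] at hg
      exact (smul_eq_zero.1 hg).resolve_right hk0
    intro i
    fin_cases i
    · exact e0
    · exact e1
    · exact e2
  have hW : LinearIndependent ℂ ![w, w', w''] := by
    rw [Fintype.linearIndependent_iff]
    intro g hg
    rw [Fin.sum_univ_three] at hg
    simp only [Matrix.cons_val_zero, Matrix.cons_val_one, Matrix.cons_val_two, Matrix.head_cons,
      Matrix.tail_cons] at hg
    have e2 : g 2 = 0 := by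
      have h1 := congrArg (fun z => BL C k k z) hg
      simp only [map_add, map_smul, hw, hw', hkk, l2, m2, smul_eq_mul, mul_one, mul_zero,
        zero_add, map_zero] at h1
      exact h1
    rw [e2, zero_smul, add_zero] at hg
    have e01 := LinearIndependent.pair_iff.1 hind (g 0) (g 1) hg
    intro i
    fin_cases i
    · exact e01.1
    · exact e01.2
    · exact e2
  have hcard : Fintype.card (Fin 3) = finrank ℂ (Fin 3 → ℂ) := by
    rw [Module.finrank_fin_fun, Fintype.card_fin]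
  let bX : Basis (Fin 3) ℂ (Fin 3 → ℂ) := basisOfLinearIndependentOfCardEqFinrank hX hcard
  let bW : Basis (Fin 3) ℂ (Fin 3 → ℂ) := basisOfLinearIndependentOfCardEqFinrank hW hcard
  have hbX : ∀ i, bX i = ![x0, x1, k] i := fun i => by
    rw [coe_basisOfLinearIndependentOfCardEqFinrank]
  have hbW : ∀ i, bW i = ![w, w', w''] i := fun i => by
    rw [coe_basisOfLinearIndependentOfCardEqFinrank]
  let a : (Fin 3 → ℂ) ≃ₗ[ℂ] (Fin 3 → ℂ) := (Pi.basisFun ℂ (Fin 3)).equiv bX (Equiv.refl _)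
  let h : (Fin 3 → ℂ) ≃ₗ[ℂ] (Fin 3 → ℂ) := (Pi.basisFun ℂ (Fin 3)).equiv bW (Equiv.refl _)
  have ha : ∀ i, a (Pi.single i 1) = ![x0, x1, k] i := by
    intro i
    rw [← hbX i, ← Pi.basisFun_apply ℂ (Fin 3) i]
    exact (Pi.basisFun ℂ (Fin 3)).equiv_apply i bX (Equiv.refl _)
  have hh : ∀ i, h (Pi.single i 1) = ![w, w', w''] i := by
    intro i
    rw [← hbW i, ← Pi.basisFun_apply ℂ (Fin 3) i]
    exact (Pi.basisFun ℂ (Fin 3)).equiv_apply i bW (Equiv.refl _)
  have hhu : ∀ u, h u = u 0 • w + u 1 • w' + u 2 • w'' := by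
    intro u
    have h1 : u = u 0 • Pi.single 0 1 + u 1 • Pi.single 1 1 + u 2 • Pi.single 2 1 := by
      funext i
      fin_cases i <;> simp
    conv_lhs => rw [h1]
    rw [map_add, map_add, map_smul, map_smul, map_smul, hh, hh, hh]
    rfl
  refine ⟨a, h, fun u => ?_⟩
  have key : ∀ i j, am (C.tr a h 0) u i j = BL C (![x0, x1, k] i) (![x0, x1, k] j)
      (u 0 • w + u 1 • w' + u 2 • w'') := by
    intro i j
    rw [tr_am hC, ← BL_expand, ha, ha, hhu]
  have h10 : BL C x1 x0 w'' = ka := by rw [BL_symm, h01]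
  have hk0' : BL C k x0 w'' = 0 := by rw [BL_symm, h0k]
  have hk1' : BL C k x1 w'' = 0 := by rw [BL_symm, h1k]
  ext i j
  rw [key]
  fin_cases i <;> fin_cases j <;>
    simp [hw, hw', l0, l1, l2, m0, m1, m2, h00, h11, h01, h0k, h1k, hkk, h10, hk0', hk1',
      mul_comm]

theorem normal_form (C : Cub VV) (hs : C.Smooth) (hC : Std C)
    (h : ∃ w w' : Fin 3 → ℂ, LinearIndependent ℂ ![w, w'] ∧ R1 C w ∧ R1 C w') :
    ∃ (a h : (Fin 3 → ℂ) ≃ₗ[ℂ] (Fin 3 → ℂ)) (ka : ℂ), (ka = 0 ∨ ka = 1) ∧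
      NF ka (C.tr a h 0) := by
  obtain ⟨w, w', hind, ⟨hw0, l, hl⟩, hw0', l', hl'⟩ := h
  have hw := BL_rank_one C hl
  have hw' := BL_rank_one C hl'
  -- the two linear forms are independent
  have hlne : l ≠ 0 := by
    rintro rfl
    exact net_inj C hs hC hw0 (by ext i j; rw [hl]; simp)
  have hll : LinearIndependent ℂ ![l, l'] := by
    rw [LinearIndependent.pair_iff]
    intro s t hst
    have ht : t = 0 := by
      by_contra ht
      have h1 : l' = (-(t⁻¹ * s)) • l := by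
        have h2 : t • l' = -(s • l) := by
          rw [eq_neg_iff_add_eq_zero, add_comm]
          exact hst
        calc l' = t⁻¹ • (t • l') := by rw [smul_smul, inv_mul_cancel₀ ht, one_smul]
          _ = (-(t⁻¹ * s)) • l := by rw [h2, smul_neg, smul_smul, neg_smul]
      set c := -(t⁻¹ * s) with hc
      have h2 : w' - c ^ 2 • w ≠ 0 := by
        intro h0
        have h3 := LinearIndependent.pair_iff.1 hind (-(c ^ 2)) 1 (by
          rw [neg_smul, one_smul, neg_add_eq_sub]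
          exact h0)
        exact one_ne_zero h3.2
      apply net_inj C hs hC h2
      ext i j
      have h3 : am C (w' - c ^ 2 • w) i j = am C w' i j - c ^ 2 * am C w i j := by
        have h4 : ∀ v, am C v i j = BL C (Pi.single i 1) (Pi.single j 1) v := fun v => rfl
        rw [h4, h4, h4, map_sub, map_smul, smul_eq_mul]
      rw [h3, hl', hl, h1]
      simp only [Pi.smul_apply, smul_eq_mul, Matrix.zero_apply]
      ring
    rw [ht, zero_smul, add_zero] at hst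
    exact ⟨(smul_eq_zero.1 hst).resolve_right hlne, ht⟩
  -- the common zero
  obtain ⟨k, hk0, lk, lk'⟩ : ∃ k : Fin 3 → ℂ, k ≠ 0 ∧ l ⬝ᵥ k = 0 ∧ l' ⬝ᵥ k = 0 ∧
      True := ⟨crossProduct l l', crossProduct_ne_zero_iff_linearIndependent.2 hll,
        dot_self_cross l l', dot_cross_self l l', trivial⟩
  obtain ⟨lk', -⟩ := lk'
  obtain ⟨y, hy⟩ : ∃ y : Fin 3 → ℂ, y ⬝ᵥ (crossProduct l l') = -1 := by
    have h1 : crossProduct l l' ≠ 0 := crossProduct_ne_zero_iff_linearIndependent.2 hll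
    obtain ⟨i, hi⟩ := Function.ne_iff.1 h1
    refine ⟨Pi.single i (-(crossProduct l l' i)⁻¹), ?_⟩
    rw [single_dotProduct, neg_mul, inv_mul_cancel₀ hi]
  obtain ⟨x0, l0, m0⟩ : ∃ x0 : Fin 3 → ℂ, l ⬝ᵥ x0 = 1 ∧ l' ⬝ᵥ x0 = 0 := by
    refine ⟨crossProduct y l', ?_, dot_cross_self y l'⟩
    have h1 : l ⬝ᵥ (crossProduct y l') = -(y ⬝ᵥ (crossProduct l l')) := by
      simp only [cross_apply, dotProduct, Fin.sum_univ_three, Matrix.cons_val]
      ring
    rw [h1, hy, neg_neg]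
  obtain ⟨x1, l1, m1⟩ : ∃ x1 : Fin 3 → ℂ, l ⬝ᵥ x1 = 0 ∧ l' ⬝ᵥ x1 = 1 := by
    refine ⟨crossProduct l y, dot_self_cross l y, ?_⟩
    have h1 : l' ⬝ᵥ (crossProduct l y) = -(y ⬝ᵥ (crossProduct l l')) := by
      simp only [cross_apply, dotProduct, Fin.sum_univ_three, Matrix.cons_val]
      ring
    rw [h1, hy, neg_neg]
  -- the third element
  obtain ⟨u, hu⟩ := net_zero C hs hC hk0
  rw [← BL_apply] at hu
  obtain ⟨v, hv⟩ : ∃ v, BL C k k v = 1 :=
    ⟨(BL C k k u)⁻¹ • u, by rw [map_smul, smul_eq_mul, inv_mul_cancel₀ hu]⟩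
  -- correct `x0, x1`
  set z0 := x0 - BL C x0 k v • k with hz0
  set z1 := x1 - BL C x1 k v • k with hz1
  have l0' : l ⬝ᵥ z0 = 1 := by rw [hz0, dotProduct_sub, dotProduct_smul, lk, l0]; simp
  have m0' : l' ⬝ᵥ z0 = 0 := by rw [hz0, dotProduct_sub, dotProduct_smul, lk', m0]; simp
  have l1' : l ⬝ᵥ z1 = 0 := by rw [hz1, dotProduct_sub, dotProduct_smul, lk, l1]; simp
  have m1' : l' ⬝ᵥ z1 = 1 := by rw [hz1, dotProduct_sub, dotProduct_smul, lk', m1]; simp
  have b0 : BL C z0 k v = 0 := by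
    rw [hz0, map_sub, map_smul, LinearMap.sub_apply, LinearMap.sub_apply, LinearMap.smul_apply,
      LinearMap.smul_apply, hv, smul_eq_mul, mul_one, sub_self]
  have b1 : BL C z1 k v = 0 := by
    rw [hz1, map_sub, map_smul, LinearMap.sub_apply, LinearMap.sub_apply, LinearMap.smul_apply,
      LinearMap.smul_apply, hv, smul_eq_mul, mul_one, sub_self]
  -- correct `v`
  set v' := v - BL C z0 z0 v • w - BL C z1 z1 v • w' with hv'
  have hBv : ∀ x y, BL C x y v' = BL C x y v - BL C z0 z0 v * ((l ⬝ᵥ x) * (l ⬝ᵥ y)) -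
      BL C z1 z1 v * ((l' ⬝ᵥ x) * (l' ⬝ᵥ y)) := by
    intro x y
    rw [hv', map_sub, map_sub, map_smul, map_smul, hw, hw', smul_eq_mul, smul_eq_mul]
  have c00 : BL C z0 z0 v' = 0 := by rw [hBv, l0', m0']; ring
  have c11 : BL C z1 z1 v' = 0 := by rw [hBv, l1', m1']; ring
  have c0k : BL C z0 k v' = 0 := by rw [hBv, b0, lk, lk']; ring
  have c1k : BL C z1 k v' = 0 := by rw [hBv, b1, lk, lk']; ring
  have ckk : BL C k k v' = 1 := by rw [hBv, hv, lk, lk']; ring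
  by_cases hka : BL C z0 z1 v' = 0
  · obtain ⟨a, h, H⟩ := nf_of C hC hw hw' l0' l1' lk m0' m1' lk' c00 c11 hka c0k c1k ckk hind
    exact ⟨a, h, 0, Or.inl rfl, H⟩
  · set ka := BL C z0 z1 v' with hkad
    obtain ⟨s, hs2⟩ : ∃ s : ℂ, s ^ 2 = ka := IsAlgClosed.exists_pow_nat_eq ka (by norm_num)
    obtain ⟨a, h, H⟩ := nf_of C hC (x0 := z0) (x1 := z1) (k := s • k) (w'' := ka⁻¹ • v')
      (ka := 1) hw hw' l0' l1' (by rw [dotProduct_smul, lk, smul_zero]) m0' m1'
      (by rw [dotProduct_smul, lk', smul_zero])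
      (by rw [map_smul, c00, smul_zero]) (by rw [map_smul, c11, smul_zero])
      (by rw [map_smul, ← hkad, smul_eq_mul, inv_mul_cancel₀ hka])
      (by rw [map_smul, map_smul, LinearMap.smul_apply, c0k, smul_zero, smul_zero])
      (by rw [map_smul, map_smul, LinearMap.smul_apply, c1k, smul_zero, smul_zero])
      (by
        rw [map_smul, map_smul, map_smul, LinearMap.smul_apply, LinearMap.smul_apply,
          LinearMap.smul_apply, ckk]
        simp only [smul_eq_mul, mul_one]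
        rw [← pow_two, hs2, inv_mul_cancel₀ hka])
      hind
    exact ⟨a, h, 1, Or.inr rfl, H⟩

end Pool.Agent.P28
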