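import Pool.Agent.P28.Rank2
import Pool.Agent.P28.NormF
import Pool.Agent.P28.BinZ

set_option autoImplicit false

/-!
# P28 B09: the conic of the discriminant cubic, two binary forms

`C` standard position, `NF 1 C`: `A = !![u 0, u 2, 0; u 2, u 1, 0; 0, 0, u 2]`,
`det A = u 2 (u 0 u 1 - u 2 ^ 2)`. For `(r, s)` put `q r s = ![r^2, s^2, r s]`.

(1) `conic_param`: a special `u` with `u 2 ≠ 0` is `q r s` with `r ≠ 0`, `s ≠ 0` (`r^2 = u 0`,
`s = u 2 / r`), because `u 0 u 1 = u 2^2` (`spec_det`).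

(2) `conic_special`: for special `u = q r s`, `r s ≠ 0`, with `b_i = bm C u i`, `c = cm C u`:
`s b_0 - r b_1 = 0`, and for every `g` with `b_0 = r g` (e.g. `g = b_0 / r`):
`r s (c - g^2) - b_2^2 = 0`. PROOF: from `spec_rank` the 3x3 minors of
`M = (A, b; b, c) = (p_i q_j + q_i p_j)` vanish. The minor with rows `0, 2, 3` and columns
`1, 2, 3`, or `nn C 0 = u 2 (u 1 b_0 - u 2 b_1) = u 2 s (s b_0 - r b_1)` (`spec_nn`), gives the
first; the principal minor `(0, 2, 3)`: `A00 A22 c + 0 - A00 b_2^2 - A22 b_0^2 =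
r^2 (r s c - b_2^2 - r s g^2)` gives the second.

(3) `conic_five`: if `s b_0(q r s) - r b_1(q r s)` is not identically zero (binary form of degree
5) then at most 5 special points have `u 2 ≠ 0`. PROOF: a finite set `S` of pairwise
nonproportional special `u = q r_u s_u`: the `(r_u, s_u)` are pairwise nonproportional
(`(r', s') = l (r, s)` gives `u' = l^2 u`), zeros of the form; `bin_atMost`.

(4) `conic_div`: if `s b_0(q r s) = r b_1(q r s)` for all `r, s` then there is a binary cubic form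
`g` with `b_0(q r s) = r g(r,s)` and `b_1(q r s) = s g(r,s)`. PROOF: put `r = 0`: `s b_0 = 0`, so
`b_0(q 0 s) = 0`; a binary form vanishing on `r = 0` is divisible by `X 0`
(`b_0(q r s)` is the polynomial `bind₁ ![X 0^2, X 1^2, X 0 X 1] (pb C 0)`, homogeneous of degree
4); cancel.

(5) `conic_eight`: with `g` as in (4), if `r s (c(q r s) - g^2) - b_2(q r s)^2` is not identically
zero (degree 8): at most 8 special points with `u 2 ≠ 0`.
-/

namespace Pool.Agent.P28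

open Module MvPolynomial

/-- The parametrisation of the conic. -/
def qv (r s : ℂ) : Fin 3 → ℂ := ![r ^ 2, s ^ 2, r * s]

/-- the restriction to the conic -/
private noncomputable def rc (f : MvPolynomial (Fin 3) ℂ) : MvPolynomial (Fin 2) ℂ :=
  aeval (![X 0 ^ 2, X 1 ^ 2, X 0 * X 1] : Fin 3 → MvPolynomial (Fin 2) ℂ) f

private theorem eval_rc (f : MvPolynomial (Fin 3) ℂ) (r s : ℂ) :
    eval ![r, s] (rc f) = eval (qv r s) f := by
  unfold rc
  have h1 : (fun i => eval ![r, s]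
      ((![X 0 ^ 2, X 1 ^ 2, X 0 * X 1] : Fin 3 → MvPolynomial (Fin 2) ℂ) i)) = qv r s := by
    funext i
    fin_cases i <;> simp [qv]
  rw [← h1]
  exact eval₂Hom_bind₁ (RingHom.id ℂ) ![r, s]
    (![X 0 ^ 2, X 1 ^ 2, X 0 * X 1] : Fin 3 → MvPolynomial (Fin 2) ℂ) f

private theorem hom_rc {f : MvPolynomial (Fin 3) ℂ} {m : ℕ} (h : f.IsHomogeneous m) :
    (rc f).IsHomogeneous (2 * m) := by
  unfold rc
  refine h.aeval _ fun i => ?_
  fin_cases i
  · exact (isHomogeneous_X ℂ (0 : Fin 2)).pow 2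
  · exact (isHomogeneous_X ℂ (1 : Fin 2)).pow 2
  · exact (isHomogeneous_X ℂ (0 : Fin 2)).mul (isHomogeneous_X ℂ (1 : Fin 2))

private theorem qv_smul {r s r' s' a b : ℂ} (h : a • (![r, s] : Fin 2 → ℂ) + b • ![r', s'] = 0) :
    a ^ 2 • qv r s - b ^ 2 • qv r' s' = 0 := by
  have h0 := congrFun h 0
  have h1 := congrFun h 1
  simp only [Pi.add_apply, Pi.smul_apply, Matrix.cons_val_zero, Matrix.cons_val_one, smul_eq_mul,
    Pi.zero_apply] at h0 h1
  funext i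
  fin_cases i
  · simp only [qv, Pi.sub_apply, Pi.smul_apply, smul_eq_mul, Pi.zero_apply]
    change a ^ 2 * r ^ 2 - b ^ 2 * r' ^ 2 = 0
    linear_combination (a * r - b * r') * h0
  · simp only [qv, Pi.sub_apply, Pi.smul_apply, smul_eq_mul, Pi.zero_apply]
    change a ^ 2 * s ^ 2 - b ^ 2 * s' ^ 2 = 0
    linear_combination (a * s - b * s') * h1
  · simp only [qv, Pi.sub_apply, Pi.smul_apply, smul_eq_mul, Pi.zero_apply]
    change a ^ 2 * (r * s) - b ^ 2 * (r' * s') = 0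
    linear_combination (a * s) * h0 - (b * r') * h1

private theorem conic_atMost {d : ℕ} (p : MvPolynomial (Fin 2) ℂ) (hp : p.IsHomogeneous d)
    (h0 : p ≠ 0) {Z : (Fin 3 → ℂ) → Prop}
    (hZ : ∀ u, Z u → ∃ r s : ℂ, u = qv r s ∧ eval ![r, s] p = 0) : AtMost d Z := by
  classical
  intro S hS hv
  choose r s hu hz using fun (u : Fin 3 → ℂ) (h : u ∈ S) => hZ u (hv u h)
  set F : {u // u ∈ S} → (Fin 2 → ℂ) := fun u => ![r u.1 u.2, s u.1 u.2] with hF
  have hinj : ∀ u u' : {u // u ∈ S}, F u = F u' → u = u' := by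
    intro u u' h
    have e0 : r u.1 u.2 = r u'.1 u'.2 := congrFun h 0
    have e1 : s u.1 u.2 = s u'.1 u'.2 := congrFun h 1
    apply Subtype.ext
    rw [hu u.1 u.2, hu u'.1 u'.2, e0, e1]
  have hcard : (S.attach.image F).card = S.card := by
    rw [Finset.card_image_of_injective _ (fun u u' h => hinj u u' h), Finset.card_attach]
  rw [← hcard]
  refine bin_atMost p hp h0 _ ⟨?_, ?_⟩ ?_
  · intro v hv'
    obtain ⟨u, -, rfl⟩ := Finset.mem_image.1 hv'
    intro h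
    apply hS.1 u.1 u.2
    have e0 : r u.1 u.2 = 0 := congrFun h 0
    have e1 : s u.1 u.2 = 0 := congrFun h 1
    rw [hu u.1 u.2, e0, e1]
    funext i
    fin_cases i <;> simp [qv]
  · intro v hv' w hw' hne
    obtain ⟨u, -, rfl⟩ := Finset.mem_image.1 hv'
    obtain ⟨u', -, rfl⟩ := Finset.mem_image.1 hw'
    have hne' : u.1 ≠ u'.1 := by
      intro h
      apply hne
      rw [Subtype.ext h]
    have hl := hS.2 u.1 u.2 u'.1 u'.2 hne'
    rw [LinearIndependent.pair_iff] at hl ⊢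
    intro a b hab
    have h1 := qv_smul hab
    rw [← hu u.1 u.2, ← hu u'.1 u'.2] at h1
    have h2 := hl (a ^ 2) (-(b ^ 2)) (by rw [neg_smul, ← sub_eq_add_neg]; exact h1)
    exact ⟨eq_zero_of_pow_eq_zero h2.1, eq_zero_of_pow_eq_zero (neg_eq_zero.1 h2.2)⟩
  · intro v hv'
    obtain ⟨u, -, rfl⟩ := Finset.mem_image.1 hv'
    exact hz u.1 u.2

private theorem qv_ne {r s : ℂ} (hr : r ≠ 0) : qv r s ≠ 0 := by
  intro h
  have h0 : r ^ 2 = 0 := congrFun h 0
  exact hr (eq_zero_of_pow_eq_zero h0)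

theorem conic_param {C : Cub VV} (hs : C.Smooth) (hC : Std C) (hN : NF 1 C) {u : Fin 3 → ℂ}
    (h : Spec C u) (h2 : u 2 ≠ 0) : ∃ r s : ℂ, r ≠ 0 ∧ s ≠ 0 ∧ u = qv r s := by
  have hu : u ≠ 0 := by
    rintro rfl
    exact h2 rfl
  have h3 := spec_det C hs hC hu h
  have h4 : (am C u).det = 0 := by
    rw [← h3, D3, RingHom.map_det]
    congr 1
    ext i j
    exact (eval_pa C u i j).symm
  rw [hN u, Matrix.det_fin_three] at h4
  have h5 : u 0 * u 1 * u 2 - (1 * u 2) * (1 * u 2) * u 2 = 0 := by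
    rw [← h4]
    simp only [Matrix.of_apply, Matrix.cons_val_zero, Matrix.cons_val_one, Matrix.cons_val]
    ring
  have h6 : u 0 * u 1 = u 2 ^ 2 := by
    have h7 : u 2 * (u 0 * u 1 - u 2 ^ 2) = 0 := by linear_combination h5
    rcases mul_eq_zero.1 h7 with h8 | h8
    · exact absurd h8 h2
    · linear_combination h8
  have h01 : u 0 * u 1 ≠ 0 := by
    rw [h6]
    exact pow_ne_zero 2 h2
  have hu0 : u 0 ≠ 0 := left_ne_zero_of_mul h01
  obtain ⟨r, hr⟩ := IsAlgClosed.exists_pow_nat_eq (u 0) (n := 2) two_pos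
  have hr0 : r ≠ 0 := by
    rintro rfl
    apply hu0
    rw [← hr]
    ring
  refine ⟨r, u 2 / r, hr0, div_ne_zero h2 hr0, ?_⟩
  funext i
  fin_cases i
  · exact hr.symm
  · change u 1 = (u 2 / r) ^ 2
    rw [div_pow, hr, eq_div_iff hu0, ← h6]
    ring
  · change u 2 = r * (u 2 / r)
    rw [mul_div_cancel₀ _ hr0]

theorem conic_special {C : Cub VV} (hs : C.Smooth) (hC : Std C) (hN : NF 1 C) {r s : ℂ}
    (hr : r ≠ 0) (hs' : s ≠ 0) (h : Spec C (qv r s)) :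
    s * bm C (qv r s) 0 - r * bm C (qv r s) 1 = 0 ∧ ∀ g, bm C (qv r s) 0 = r * g →
      r * s * (cm C (qv r s) - g ^ 2) - bm C (qv r s) 2 ^ 2 = 0 := by
  obtain ⟨p, q, p', q', hA, hb, hc⟩ := spec_rank C hs hC (qv_ne (s := s) hr) h
  have e00 : p 0 * q 0 + q 0 * p 0 = r ^ 2 := by rw [← hA, hN]; rfl
  have e01 : p 0 * q 1 + q 0 * p 1 = 1 * (r * s) := by rw [← hA, hN]; rfl
  have e02 : p 0 * q 2 + q 0 * p 2 = 0 := by rw [← hA, hN]; rfl
  have e11 : p 1 * q 1 + q 1 * p 1 = s ^ 2 := by rw [← hA, hN]; rfl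
  have e12 : p 1 * q 2 + q 1 * p 2 = 0 := by rw [← hA, hN]; rfl
  have e22 : p 2 * q 2 + q 2 * p 2 = r * s := by rw [← hA, hN]; rfl
  have b0 := hb 0
  have b1 := hb 1
  have b2 := hb 2
  constructor
  · have key : ((p 1 * q 1 + q 1 * p 1) * (p 2 * q 2 + q 2 * p 2) -
        (p 1 * q 2 + q 1 * p 2) * (p 1 * q 2 + q 1 * p 2)) * (p 0 * q' + q 0 * p') -
        ((p 0 * q 1 + q 0 * p 1) * (p 2 * q 2 + q 2 * p 2) -
        (p 0 * q 2 + q 0 * p 2) * (p 1 * q 2 + q 1 * p 2)) * (p 1 * q' + q 1 * p') +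
        ((p 0 * q 1 + q 0 * p 1) * (p 1 * q 2 + q 1 * p 2) -
        (p 0 * q 2 + q 0 * p 2) * (p 1 * q 1 + q 1 * p 1)) * (p 2 * q' + q 2 * p') = 0 := by
      ring
    rw [← b0, ← b1, ← b2, e01, e02, e11, e12, e22] at key
    have h1 : (r * s * s) * (s * bm C (qv r s) 0 - r * bm C (qv r s) 1) = 0 := by
      linear_combination key
    rcases mul_eq_zero.1 h1 with h2 | h2
    · exact absurd h2 (mul_ne_zero (mul_ne_zero hr hs') hs')
    · exact h2
  · intro g hg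
    have key : (p 0 * q 0 + q 0 * p 0) * ((p 2 * q 2 + q 2 * p 2) * (2 * p' * q') -
        (p 2 * q' + q 2 * p') ^ 2) - (p 0 * q 2 + q 0 * p 2) *
        ((p 0 * q 2 + q 0 * p 2) * (2 * p' * q') - (p 2 * q' + q 2 * p') *
          (p 0 * q' + q 0 * p')) + (p 0 * q' + q 0 * p') * ((p 0 * q 2 + q 0 * p 2) *
          (p 2 * q' + q 2 * p') - (p 2 * q 2 + q 2 * p 2) * (p 0 * q' + q 0 * p')) = 0 := by
      ring
    rw [← b0, ← b2, ← hc, e00, e02, e22, hg] at key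
    have h1 : r ^ 2 * (r * s * (cm C (qv r s) - g ^ 2) - bm C (qv r s) 2 ^ 2) = 0 := by
      linear_combination key
    rcases mul_eq_zero.1 h1 with h2 | h2
    · exact absurd h2 (pow_ne_zero 2 hr)
    · exact h2

theorem conic_five {C : Cub VV} (hs : C.Smooth) (hC : Std C) (hN : NF 1 C)
    (h : ∃ r s : ℂ, s * bm C (qv r s) 0 - r * bm C (qv r s) 1 ≠ 0) :
    AtMost 5 (fun u => Spec C u ∧ u 2 ≠ 0) := by
  have hev : ∀ r s : ℂ, eval ![r, s] (X 1 * rc (pb C 0) - X 0 * rc (pb C 1)) =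
      s * bm C (qv r s) 0 - r * bm C (qv r s) 1 := by
    intro r s
    rw [map_sub, map_mul, map_mul, eval_rc, eval_rc, eval_pb, eval_pb, eval_X, eval_X]
    rfl
  refine conic_atMost (X 1 * rc (pb C 0) - X 0 * rc (pb C 1)) ?_ ?_ ?_
  · exact ((isHomogeneous_X ℂ (1 : Fin 2)).mul (hom_rc (hom_pb C 0))).sub
      ((isHomogeneous_X ℂ (0 : Fin 2)).mul (hom_rc (hom_pb C 1)))
  · intro h0
    obtain ⟨r, s, hrs⟩ := h
    apply hrs
    rw [← hev, h0, map_zero]
  · rintro u ⟨h1, h2⟩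
    obtain ⟨r, s, hr, hs', rfl⟩ := conic_param hs hC hN h1 h2
    refine ⟨r, s, rfl, ?_⟩
    rw [hev]
    exact (conic_special hs hC hN hr hs' h1).1

theorem conic_div (C : Cub VV)
    (h : ∀ r s : ℂ, s * bm C (qv r s) 0 - r * bm C (qv r s) 1 = 0) :
    ∃ g : MvPolynomial (Fin 2) ℂ, g.IsHomogeneous 3 ∧
      ∀ r s : ℂ, bm C (qv r s) 0 = r * eval ![r, s] g ∧ bm C (qv r s) 1 = s * eval ![r, s] g := by
  obtain ⟨a, ha⟩ : ∃ a : Fin 3 → Fin 3 → ℂ, ∀ u : Fin 3 → ℂ,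
      bm C u 0 = ∑ k, ∑ l, a k l * (u k * u l) := by
    refine ⟨fun k l => C.T (E 0) (Fv k) (Fv l) / 2, fun u => ?_⟩
    rw [← eval_pb, pb, map_sum]
    refine Finset.sum_congr rfl fun k _ => ?_
    rw [map_sum]
    refine Finset.sum_congr rfl fun l _ => ?_
    rw [map_mul, map_mul, eval_C, eval_X, eval_X]
  have hb0 : ∀ r s : ℂ, bm C (qv r s) 0 = a 0 0 * r ^ 4 + a 1 1 * s ^ 4 +
      (a 0 1 + a 1 0 + a 2 2) * (r ^ 2 * s ^ 2) + (a 0 2 + a 2 0) * (r ^ 3 * s) +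
      (a 1 2 + a 2 1) * (r * s ^ 3) := by
    intro r s
    rw [ha]
    simp only [Fin.sum_univ_three]
    have q0 : qv r s 0 = r ^ 2 := rfl
    have q1 : qv r s 1 = s ^ 2 := rfl
    have q2 : qv r s 2 = r * s := rfl
    rw [q0, q1, q2]
    ring
  have ha11 : a 1 1 = 0 := by
    have h1 := h 0 1
    rw [hb0] at h1
    linear_combination h1
  set g : MvPolynomial (Fin 2) ℂ := MvPolynomial.C (a 0 0) * X 0 ^ 3 +
    MvPolynomial.C (a 0 1 + a 1 0 + a 2 2) * (X 0 * X 1 ^ 2) +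
    MvPolynomial.C (a 0 2 + a 2 0) * (X 0 ^ 2 * X 1) +
    MvPolynomial.C (a 1 2 + a 2 1) * X 1 ^ 3 with hg
  have hev : ∀ r s : ℂ, eval ![r, s] g = a 0 0 * r ^ 3 +
      (a 0 1 + a 1 0 + a 2 2) * (r * s ^ 2) + (a 0 2 + a 2 0) * (r ^ 2 * s) +
      (a 1 2 + a 2 1) * s ^ 3 := by
    intro r s
    rw [hg]
    simp only [map_add, map_mul, map_pow, eval_C, eval_X]
    rfl
  have h0 : ∀ r s : ℂ, bm C (qv r s) 0 = r * eval ![r, s] g := by
    intro r s
    rw [hb0, hev, ha11]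
    ring
  refine ⟨g, ?_, fun r s => ⟨h0 r s, ?_⟩⟩
  · rw [hg]
    have x0 := isHomogeneous_X ℂ (0 : Fin 2)
    have x1 := isHomogeneous_X ℂ (1 : Fin 2)
    exact ((((x0.pow 3).C_mul _).add ((x0.mul (x1.pow 2)).C_mul _)).add
      (((x0.pow 2).mul x1).C_mul _)).add ((x1.pow 3).C_mul _)
  · have hp : X 0 * (rc (pb C 1) - X 1 * g) = 0 := by
      refine MvPolynomial.funext fun v => ?_
      have hv : v = ![v 0, v 1] := by
        funext i
        fin_cases i <;> rfl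
      rw [hv, map_mul, map_sub, map_mul, eval_rc, eval_pb, eval_X, eval_X, map_zero]
      change v 0 * (bm C (qv (v 0) (v 1)) 1 - v 1 * eval ![v 0, v 1] g) = 0
      have h1 := h (v 0) (v 1)
      rw [h0] at h1
      linear_combination -h1
    rcases mul_eq_zero.1 hp with h1 | h1
    · exact absurd h1 (MvPolynomial.X_ne_zero 0)
    · have h2 := congrArg (eval ![r, s]) h1
      rw [map_sub, map_mul, eval_rc, eval_pb, eval_X, map_zero] at h2
      exact sub_eq_zero.1 h2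

theorem conic_eight {C : Cub VV} (hs : C.Smooth) (hC : Std C) (hN : NF 1 C)
    {g : MvPolynomial (Fin 2) ℂ} (hg : g.IsHomogeneous 3)
    (hg' : ∀ r s : ℂ, bm C (qv r s) 0 = r * eval ![r, s] g)
    (h : ∃ r s : ℂ, r * s * (cm C (qv r s) - eval ![r, s] g ^ 2) - bm C (qv r s) 2 ^ 2 ≠ 0) :
    AtMost 8 (fun u => Spec C u ∧ u 2 ≠ 0) := by
  have hev : ∀ r s : ℂ, eval ![r, s] (X 0 * X 1 * (rc (pc C) - g ^ 2) - rc (pb C 2) ^ 2) =
      r * s * (cm C (qv r s) - eval ![r, s] g ^ 2) - bm C (qv r s) 2 ^ 2 := by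
    intro r s
    rw [map_sub, map_mul, map_mul, map_sub, map_pow, map_pow, eval_rc, eval_rc, eval_pb,
      eval_pc, eval_X, eval_X]
    rfl
  refine conic_atMost (X 0 * X 1 * (rc (pc C) - g ^ 2) - rc (pb C 2) ^ 2) ?_ ?_ ?_
  · have x0 := isHomogeneous_X ℂ (0 : Fin 2)
    have x1 := isHomogeneous_X ℂ (1 : Fin 2)
    exact ((x0.mul x1).mul ((hom_rc (hom_pc C)).sub (hg.pow 2))).sub
      ((hom_rc (hom_pb C 2)).pow 2)
  · intro h0
    obtain ⟨r, s, hrs⟩ := h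
    apply hrs
    rw [← hev, h0, map_zero]
  · rintro u ⟨h1, h2⟩
    obtain ⟨r, s, hr, hs', rfl⟩ := conic_param hs hC hN h1 h2
    refine ⟨r, s, rfl, ?_⟩
    rw [hev]
    exact (conic_special hs hC hN hr hs' h1).2 _ (hg' r s)

end Pool.Agent.P28
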