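import Pool.Agent.P28.ConicA

set_option autoImplicit false

/-!
# P28 B10: the degenerate conic case is singular

`C` standard position, `NF 1 C`, and for all `t` (this is the point `(r, s) = (1, t)` of the conic,
`q = ![1, t^2, t]`): (i) `t b_0(q) = b_1(q)`, (ii) `t (c(q) - b_0(q)^2) = b_2(q)^2`.
Then `C` is singular.

PROOF. Let `B i k l = T (E i) (Fv k) (Fv l) / 2` and `G k l m = T (Fv k) (Fv l) (Fv m) / 3`
(symmetric), so `b_i(u) = ∑ B i k l u_k u_l`, `c(u) = ∑ G k l m u_k u_l u_m`. Modulo `t^2`: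
`b_i(1,t^2,t) = B i 0 0 + 2 B i 0 2 t + ...`, `c(1,t^2,t) = G 0 0 0 + 3 G 0 0 2 t + ...`.
Comparing coefficients of polynomials in `t`: (i) gives `B 1 0 0 = 0`, `2 B 1 0 2 = B 0 0 0`.
(ii), order 0: `B 2 0 0 = 0`; order 1: `G 0 0 0 = B 0 0 0 ^ 2`; order 2:
`3 G 0 0 2 - 2 (B 0 0 0) (2 B 0 0 2) = (2 B 2 0 2)^2`.
Put `al = B 0 0 0`, `be = 2 B 0 0 2`, `h = 2 B 2 0 2`. For a number `t` let
`y = (x, u)`, `x = (-al, -t, -h)`, `u = (1, 0, 0)`. With `T y y (E i) = 2 (A_u x)_i + 2 b_i(u)`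
(`A_u = diag(1,0,0)`, `b(u) = (al, 0, 0)`): `T y y (E i) = 0`.
`T y y (Fv k) = x · A_k x + 2 T (x,0) (0,u) (Fv k) + T (0,u) (0,u) (Fv k)
= x · A_k x + 4 ∑_i x_i B i 0 k + 3 G 0 0 k`, `A_k = am C (Pi.single k 1)`.
`k = 0`: `al^2 - 4 al^2 + 3 al^2 = 0`.
`k = 2`: `x · A_2 x = 2 x_0 x_1 + x_2^2 = 2 al t + h^2`;
`4 ∑ x_i B i 0 2 = 2 (- al be - t al - h^2)` (as `2 B 1 0 2 = al`);
`3 G 0 0 2 = 2 al be + h^2`: sum `0`.
`k = 1`: `x · A_1 x = x_1^2 = t^2`, so the value is `t^2 + 4 (- al B 0 0 1 - t B 1 0 1 - h B 2 0 1)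
+ 3 G 0 0 1`, a monic quadratic polynomial in `t`: choose `t` to be a root. Then `T y y z = 0` for
all `z` (`E i`, `Fv k` span), `y ≠ 0`: singular.
-/

namespace Pool.Agent.P28

open Module MvPolynomial

private theorem cc_low {a0 a1 a2 : ℂ} {r : Polynomial ℂ}
    (h : ∀ t : ℂ, a0 + a1 * t + a2 * t ^ 2 + t ^ 3 * r.eval t = 0) :
    a0 = 0 ∧ a1 = 0 ∧ a2 = 0 := by
  have hp : Polynomial.C a0 + Polynomial.C a1 * Polynomial.X + Polynomial.C a2 * Polynomial.X ^ 2 +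
      Polynomial.X ^ 3 * r = 0 := by
    refine Polynomial.funext fun t => ?_
    simp only [Polynomial.eval_add, Polynomial.eval_mul, Polynomial.eval_C, Polynomial.eval_X,
      Polynomial.eval_pow, Polynomial.eval_zero]
    exact h t
  refine ⟨?_, ?_, ?_⟩
  · have h1 := congrArg (fun q : Polynomial ℂ => q.coeff 0) hp
    simpa [Polynomial.coeff_X_pow_mul', Polynomial.coeff_X, Polynomial.coeff_C,
      Polynomial.coeff_X_pow] using h1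
  · have h1 := congrArg (fun q : Polynomial ℂ => q.coeff 1) hp
    simpa [Polynomial.coeff_X_pow_mul', Polynomial.coeff_X, Polynomial.coeff_C,
      Polynomial.coeff_X_pow] using h1
  · have h1 := congrArg (fun q : Polynomial ℂ => q.coeff 2) hp
    simpa [Polynomial.coeff_X_pow_mul', Polynomial.coeff_X, Polynomial.coeff_C,
      Polynomial.coeff_X_pow] using h1

private theorem cc_i {b0 b1 a0 a1 : ℂ} {s s' : Polynomial ℂ}
    (h : ∀ t : ℂ, t * (b0 + b1 * t + t ^ 2 * s.eval t) = a0 + a1 * t + t ^ 2 * s'.eval t) :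
    a0 = 0 ∧ a1 = b0 := by
  obtain ⟨c, q, hq⟩ : ∃ (c : ℂ) (q : Polynomial ℂ), s' = Polynomial.C c + Polynomial.X * q :=
    ⟨s'.coeff 0, s'.divX, by rw [add_comm, Polynomial.X_mul_divX_add]⟩
  have h1 : ∀ t : ℂ, -a0 + (b0 - a1) * t + (b1 - c) * t ^ 2 + t ^ 3 * (s - q).eval t = 0 := by
    intro t
    have h2 := h t
    rw [hq] at h2
    simp only [Polynomial.eval_add, Polynomial.eval_mul, Polynomial.eval_C,
      Polynomial.eval_X] at h2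
    rw [Polynomial.eval_sub]
    linear_combination h2
  obtain ⟨h3, h4, -⟩ := cc_low h1
  exact ⟨neg_eq_zero.1 h3, (sub_eq_zero.1 h4).symm⟩

private theorem cc_ii {c0 c1 b0 b1 a0 a1 : ℂ} {s s' s'' : Polynomial ℂ}
    (h : ∀ t : ℂ, t * ((c0 + c1 * t + t ^ 2 * s''.eval t) - (b0 + b1 * t + t ^ 2 * s.eval t) ^ 2) =
      (a0 + a1 * t + t ^ 2 * s'.eval t) ^ 2) :
    a0 = 0 ∧ c0 = b0 ^ 2 ∧ c1 - 2 * b0 * b1 = a1 ^ 2 := by
  have ha : a0 = 0 := by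
    have h1 := h 0
    have h2 : a0 ^ 2 = 0 := by linear_combination -h1
    exact pow_eq_zero_iff (two_ne_zero) |>.1 h2
  subst ha
  let r : Polynomial ℂ := s'' - (Polynomial.C (b1 ^ 2) + Polynomial.C (2 * b0) * s +
    Polynomial.C (2 * b1) * s * Polynomial.X + Polynomial.X ^ 2 * s ^ 2) -
    (Polynomial.C (2 * a1) * s' + Polynomial.X * s' ^ 2)
  have h1 : ∀ t : ℂ, 0 + (c0 - b0 ^ 2) * t + (c1 - 2 * b0 * b1 - a1 ^ 2) * t ^ 2 +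
      t ^ 3 * r.eval t = 0 := by
    intro t
    have h2 := h t
    simp only [r, Polynomial.eval_sub, Polynomial.eval_add, Polynomial.eval_mul,
      Polynomial.eval_C, Polynomial.eval_X, Polynomial.eval_pow]
    linear_combination h2
  obtain ⟨-, h3, h4⟩ := cc_low h1
  exact ⟨rfl, sub_eq_zero.1 h3, sub_eq_zero.1 h4⟩

private theorem cc_T (C : Cub VV) (x : Fin 3 → ℂ) (v w : VV) :
    C.T (x, 0) v w = x 0 * C.T (E 0) v w + x 1 * C.T (E 1) v w + x 2 * C.T (E 2) v w := by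
  rw [sum_E x]
  simp only [Fin.sum_univ_three, map_add, map_smul, LinearMap.add_apply, LinearMap.smul_apply,
    smul_eq_mul]

private theorem cc_T3 (C : Cub VV) (v w : VV) (x : Fin 3 → ℂ) :
    C.T v w (x, 0) = x 0 * C.T v w (E 0) + x 1 * C.T v w (E 1) + x 2 * C.T v w (E 2) := by
  rw [sum_E x]
  simp only [Fin.sum_univ_three, map_add, map_smul, smul_eq_mul]

private theorem cc_T3' (C : Cub VV) (v w : VV) (x : Fin 3 → ℂ) :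
    C.T v w (0, x) = x 0 * C.T v w (Fv 0) + x 1 * C.T v w (Fv 1) + x 2 * C.T v w (Fv 2) := by
  rw [sum_Fv x]
  simp only [Fin.sum_univ_three, map_add, map_smul, smul_eq_mul]

private theorem cc_yy (C : Cub VV) (x : Fin 3 → ℂ) (w : VV) :
    C.T (x, Pi.single 0 1) (x, Pi.single 0 1) w =
      C.T (x, 0) (x, 0) w + 2 * C.T (x, 0) (Fv 0) w + C.T (Fv 0) (Fv 0) w := by
  have h1 : ((x, Pi.single 0 1) : VV) = (x, 0) + Fv 0 := by
    rw [Fv, Prod.mk_add_mk, add_zero, zero_add]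
  rw [h1]
  simp only [map_add, LinearMap.add_apply]
  rw [C.sw (Fv 0) (x, 0) w]
  ring

private theorem cc_bm (C : Cub VV) (i : Fin 3) :
    ∃ s : Polynomial ℂ, ∀ t : ℂ, bm C (qv 1 t) i = C.T (E i) (Fv 0) (Fv 0) / 2 +
      C.T (E i) (Fv 0) (Fv 2) * t + t ^ 2 * s.eval t := by
  refine ⟨Polynomial.C (C.T (E i) (Fv 0) (Fv 1) + C.T (E i) (Fv 2) (Fv 2) / 2) +
    Polynomial.C (C.T (E i) (Fv 1) (Fv 2)) * Polynomial.X +
    Polynomial.C (C.T (E i) (Fv 1) (Fv 1) / 2) * Polynomial.X ^ 2, fun t => ?_⟩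
  rw [← eval_pb, pb]
  simp only [Fin.sum_univ_three, map_add, map_mul, eval_C, eval_X, Polynomial.eval_add,
    Polynomial.eval_mul, Polynomial.eval_C, Polynomial.eval_X, Polynomial.eval_pow]
  have e1 := C.cy (E i) (Fv 1) (Fv 0)
  have e2 := C.cy (E i) (Fv 2) (Fv 0)
  have e3 := C.cy (E i) (Fv 2) (Fv 1)
  rw [e1, e2, e3]
  simp only [qv, Matrix.cons_val_zero, Matrix.cons_val_one, Matrix.cons_val]
  ring

private theorem cc_cm (C : Cub VV) : ∃ s : Polynomial ℂ, ∀ t : ℂ, cm C (qv 1 t) =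
    C.T (Fv 0) (Fv 0) (Fv 0) / 3 + C.T (Fv 0) (Fv 0) (Fv 2) * t + t ^ 2 * s.eval t := by
  refine ⟨Polynomial.C (C.T (Fv 0) (Fv 0) (Fv 1) + C.T (Fv 0) (Fv 2) (Fv 2)) +
    Polynomial.C (2 * C.T (Fv 0) (Fv 1) (Fv 2) + C.T (Fv 2) (Fv 2) (Fv 2) / 3) * Polynomial.X +
    Polynomial.C (C.T (Fv 0) (Fv 1) (Fv 1) + C.T (Fv 1) (Fv 2) (Fv 2)) * Polynomial.X ^ 2 +
    Polynomial.C (C.T (Fv 1) (Fv 1) (Fv 2)) * Polynomial.X ^ 3 +
    Polynomial.C (C.T (Fv 1) (Fv 1) (Fv 1) / 3) * Polynomial.X ^ 4, fun t => ?_⟩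
  rw [← eval_pc, pc]
  simp only [Fin.sum_univ_three, map_add, map_mul, eval_C, eval_X, Polynomial.eval_add,
    Polynomial.eval_mul, Polynomial.eval_C, Polynomial.eval_X, Polynomial.eval_pow]
  -- sort the arguments
  have e001a : C.T (Fv 0) (Fv 1) (Fv 0) = C.T (Fv 0) (Fv 0) (Fv 1) := C.cy _ _ _
  have e001b : C.T (Fv 1) (Fv 0) (Fv 0) = C.T (Fv 0) (Fv 0) (Fv 1) := by rw [C.sw, C.cy]
  have e002a : C.T (Fv 0) (Fv 2) (Fv 0) = C.T (Fv 0) (Fv 0) (Fv 2) := C.cy _ _ _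
  have e002b : C.T (Fv 2) (Fv 0) (Fv 0) = C.T (Fv 0) (Fv 0) (Fv 2) := by rw [C.sw, C.cy]
  have e011a : C.T (Fv 1) (Fv 0) (Fv 1) = C.T (Fv 0) (Fv 1) (Fv 1) := C.sw _ _ _
  have e011b : C.T (Fv 1) (Fv 1) (Fv 0) = C.T (Fv 0) (Fv 1) (Fv 1) := by rw [C.cy, C.sw]
  have e022a : C.T (Fv 2) (Fv 0) (Fv 2) = C.T (Fv 0) (Fv 2) (Fv 2) := C.sw _ _ _
  have e022b : C.T (Fv 2) (Fv 2) (Fv 0) = C.T (Fv 0) (Fv 2) (Fv 2) := by rw [C.cy, C.sw]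
  have e112a : C.T (Fv 1) (Fv 2) (Fv 1) = C.T (Fv 1) (Fv 1) (Fv 2) := C.cy _ _ _
  have e112b : C.T (Fv 2) (Fv 1) (Fv 1) = C.T (Fv 1) (Fv 1) (Fv 2) := by rw [C.sw, C.cy]
  have e122a : C.T (Fv 2) (Fv 1) (Fv 2) = C.T (Fv 1) (Fv 2) (Fv 2) := C.sw _ _ _
  have e122b : C.T (Fv 2) (Fv 2) (Fv 1) = C.T (Fv 1) (Fv 2) (Fv 2) := by rw [C.cy, C.sw]
  have e012a : C.T (Fv 0) (Fv 2) (Fv 1) = C.T (Fv 0) (Fv 1) (Fv 2) := C.cy _ _ _
  have e012b : C.T (Fv 1) (Fv 0) (Fv 2) = C.T (Fv 0) (Fv 1) (Fv 2) := C.sw _ _ _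
  have e012c : C.T (Fv 1) (Fv 2) (Fv 0) = C.T (Fv 0) (Fv 1) (Fv 2) := by rw [C.cy, C.sw]
  have e012d : C.T (Fv 2) (Fv 0) (Fv 1) = C.T (Fv 0) (Fv 1) (Fv 2) := by rw [C.sw, C.cy]
  have e012e : C.T (Fv 2) (Fv 1) (Fv 0) = C.T (Fv 0) (Fv 1) (Fv 2) := by rw [C.sw, e012c]
  rw [e001a, e001b, e002a, e002b, e011a, e011b, e022a, e022b, e112a, e112b, e122a, e122b,
    e012a, e012b, e012c, e012d, e012e]
  simp only [qv, Matrix.cons_val_zero, Matrix.cons_val_one, Matrix.cons_val]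
  ring

theorem conic_sing {C : Cub VV} (hs : C.Smooth) (hC : Std C) (hN : NF 1 C)
    (h1 : ∀ t : ℂ, t * bm C (qv 1 t) 0 = bm C (qv 1 t) 1)
    (h2 : ∀ t : ℂ, t * (cm C (qv 1 t) - bm C (qv 1 t) 0 ^ 2) = bm C (qv 1 t) 2 ^ 2) : False := by
  obtain ⟨s0, hs0⟩ := cc_bm C 0
  obtain ⟨s1, hs1⟩ := cc_bm C 1
  obtain ⟨s2, hs2⟩ := cc_bm C 2
  obtain ⟨s3, hs3⟩ := cc_cm C
  obtain ⟨e1, e2⟩ := cc_i (b0 := C.T (E 0) (Fv 0) (Fv 0) / 2) (b1 := C.T (E 0) (Fv 0) (Fv 2))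
    (a0 := C.T (E 1) (Fv 0) (Fv 0) / 2) (a1 := C.T (E 1) (Fv 0) (Fv 2)) (s := s0) (s' := s1)
    (fun t => by rw [← hs0, ← hs1]; exact h1 t)
  obtain ⟨e3, e4, e5⟩ := cc_ii (c0 := C.T (Fv 0) (Fv 0) (Fv 0) / 3)
    (c1 := C.T (Fv 0) (Fv 0) (Fv 2)) (b0 := C.T (E 0) (Fv 0) (Fv 0) / 2)
    (b1 := C.T (E 0) (Fv 0) (Fv 2)) (a0 := C.T (E 2) (Fv 0) (Fv 0) / 2)
    (a1 := C.T (E 2) (Fv 0) (Fv 2)) (s := s0) (s' := s2) (s'' := s3)
    (fun t => by rw [← hs0, ← hs2, ← hs3]; exact h2 t)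
  -- the net
  have hA : ∀ k i j, C.T (E i) (E j) (Fv k) =
      !![(Pi.single k 1 : Fin 3 → ℂ) 0, 1 * (Pi.single k 1 : Fin 3 → ℂ) 2, 0;
        1 * (Pi.single k 1 : Fin 3 → ℂ) 2, (Pi.single k 1 : Fin 3 → ℂ) 1, 0;
        0, 0, (Pi.single k 1 : Fin 3 → ℂ) 2] i j := by
    intro k i j
    rw [← hN (Pi.single k 1)]
    rfl
  -- the singular point
  set al : ℂ := C.T (E 0) (Fv 0) (Fv 0) / 2 with hal
  set h : ℂ := C.T (E 2) (Fv 0) (Fv 2) with hh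
  obtain ⟨w, hw⟩ := IsAlgClosed.exists_pow_nat_eq (C.T (E 1) (Fv 0) (Fv 1) ^ 2 +
    2 * al * C.T (E 0) (Fv 0) (Fv 1) + 2 * h * C.T (E 2) (Fv 0) (Fv 1) -
    C.T (Fv 0) (Fv 0) (Fv 1)) (n := 2) (by norm_num)
  set t : ℂ := C.T (E 1) (Fv 0) (Fv 1) + w with ht
  let x : Fin 3 → ℂ := ![-al, -t, -h]
  have hx0 : x 0 = -al := rfl
  have hx1 : x 1 = -t := rfl
  have hx2 : x 2 = -h := rfl
  -- the values at the vectors of the plane
  have hE : ∀ i, C.T (x, Pi.single 0 1) (x, Pi.single 0 1) (E i) = 0 := by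
    intro i
    rw [cc_yy, hC x x (Pi.single i 1) |> fun h => (show C.T (x, 0) (x, 0) (E i) = 0 from h),
      cc_T, C.cy (E 0) (Fv 0) (E i), C.cy (E 1) (Fv 0) (E i), C.cy (E 2) (Fv 0) (E i),
      hA, hA, hA, hx0, hx1, hx2, ← C.rot (E i) (Fv 0) (Fv 0)]
    fin_cases i
    · simp
      rw [hal]
      ring
    · simp
      linear_combination 2 * e1
    · simp
      linear_combination 2 * e3
  have hQ : ∀ k, C.T (x, 0) (x, 0) (Fv k) = x 0 * (x 0 * C.T (E 0) (E 0) (Fv k) +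
      x 1 * C.T (E 1) (E 0) (Fv k) + x 2 * C.T (E 2) (E 0) (Fv k)) +
      x 1 * (x 0 * C.T (E 0) (E 1) (Fv k) +
      x 1 * C.T (E 1) (E 1) (Fv k) + x 2 * C.T (E 2) (E 1) (Fv k)) +
      x 2 * (x 0 * C.T (E 0) (E 2) (Fv k) +
      x 1 * C.T (E 1) (E 2) (Fv k) + x 2 * C.T (E 2) (E 2) (Fv k)) := by
    intro k
    rw [cc_T, C.sw (E 0) (x, 0), C.sw (E 1) (x, 0), C.sw (E 2) (x, 0), cc_T, cc_T, cc_T]
  have hF0 : C.T (x, Pi.single 0 1) (x, Pi.single 0 1) (Fv 0) = 0 := by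
    rw [cc_yy, hQ, cc_T, hA, hA, hA, hA, hA, hA, hA, hA, hA, hx0, hx1, hx2]
    simp
    linear_combination 3 * e4 - 4 * t * e1 - 4 * h * e3 + (4 * al) * hal
  have hF1 : C.T (x, Pi.single 0 1) (x, Pi.single 0 1) (Fv 1) = 0 := by
    rw [cc_yy, hQ, cc_T, hA, hA, hA, hA, hA, hA, hA, hA, hA, hx0, hx1, hx2]
    simp
    rw [ht]
    linear_combination hw
  have hF2 : C.T (x, Pi.single 0 1) (x, Pi.single 0 1) (Fv 2) = 0 := by
    rw [cc_yy, hQ, cc_T, hA, hA, hA, hA, hA, hA, hA, hA, hA, hx0, hx1, hx2]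
    simp
    linear_combination e5 - 2 * t * e2
  have hne : ((x, Pi.single 0 1) : VV) ≠ 0 := by
    intro h0
    have h3 : (Pi.single 0 1 : Fin 3 → ℂ) = 0 := congrArg Prod.snd h0
    have h4 := congrFun h3 0
    simp at h4
  obtain ⟨z, hz⟩ := hs _ hne
  apply hz
  have h3 : z = (z.1, 0) + (0, z.2) := by
    rw [Prod.mk_add_mk, add_zero, zero_add]
  rw [h3, map_add, cc_T3, cc_T3', hE, hE, hE, hF0, hF1, hF2]
  ring

end Pool.Agent.P28
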