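import Pool.Agent.P28.Defs

set_option autoImplicit false

/-!
# P28 C01: a smooth cubic has no infinitesimal linear automorphisms

`cub_inj`: if `T x x (A x) = 0` for all `x` then `A = 0`.

PROOF. Polarise: `T (A x) y z + T x (A y) z + T x y (A z) = 0` for all `x y z` (P). In particular
with `x = y = v`: `2 T (A v) v z + T v v (A z) = 0`.
Step 1: `A` is nilpotent. Let `lam` be an eigenvalue of `A` of maximal modulus (finitely many
eigenvalues: `Module.End.finite_hasEigenvalue`; there is one, `Module.End.exists_eigenvalue`,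
`V` is nontrivial unless `A = 0` trivially), `A v = lam v`, `v ≠ 0`. `phi = T v v ·` is a nonzero
functional (smooth) with `phi (A z) = - 2 lam phi z`. So `- 2 lam` is an eigenvalue of the dual map
of `A`, hence of `A` (`Module.End`: `A + 2 lam` is not surjective, since `phi ≠ 0` vanishes on its
range, so not injective, finite dimension). By maximality `2 |lam| ≤ |lam|`, so `lam = 0`. So all
eigenvalues are `0` and `A` is nilpotent (e.g. `Module.End` : over an algebraically closed field
the generalised eigenspaces span, `Module.End.iSup_maxGenEigenspace_eq_top`; or: the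
characteristic polynomial splits and has only the root `0`).
Step 2: suppose `A ≠ 0`. Let `m ≥ 1` with `A^m ≠ 0`, `A^(m+1) = 0`, and `w = A^m u ≠ 0`.
Iterating (P) (Leibniz) gives for all `n`: `∑_{i+j+k=n} n!/(i! j! k!) T (A^i x) (A^j y) (A^k z) = 0`
for `n ≥ 1`. A convenient way: let `D` act on the finite sums; or prove by induction on `n`:
`∑_{i+j=n} binom n i T (A^i x) (A^j y) z = (-1)^n T x y (A^n z)` (Q)
[induction: apply (Q) to `(A x, y)` and `(x, A y)` and add, use (P) in the form
`T (A x) y z' + T x (A y) z' = - T x y (A z')` with `z' = A^n z`, Pascal's rule].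
Take `x = y = u`, `n = 2 m`: in the sum only `i = j = m` survives (`A^(m+1) = 0`), so
`binom (2m) m T w w z = T u u (A^(2m) z) = 0` because `2 m ≥ m + 1`. So `T w w z = 0` for all `z`,
against smoothness.
-/

namespace Pool.Agent.P28

open Module

variable {V : Type} [AddCommGroup V] [Module ℂ V] [FiniteDimensional ℂ V]

/-- (Q): the Leibniz rule. -/
theorem cub_leibniz (C : Cub V) (A : V →ₗ[ℂ] V)
    (hP : ∀ x y z, C.T (A x) y z + C.T x (A y) z + C.T x y (A z) = 0) (n : ℕ) (x y z : V) :
    ∑ i ∈ Finset.range (n + 1), (n.choose i : ℂ) * C.T ((A ^ i) x) ((A ^ (n - i)) y) z =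
      (-1) ^ n * C.T x y ((A ^ n) z) := by
  induction n generalizing x y with
  | zero => simp
  | succ n ih =>
    have h1 := Finset.sum_choose_succ_mul (R := ℂ)
      (fun i j => C.T ((A ^ i) x) ((A ^ j) y) z) n
    have h2 : ∀ i ∈ Finset.range (n + 1),
        (n.choose i : ℂ) * C.T ((A ^ i) x) ((A ^ (n + 1 - i)) y) z =
        (n.choose i : ℂ) * C.T ((A ^ i) x) ((A ^ (n - i)) (A y)) z := by
      intro i hi
      have hi' : i ≤ n := by
        have := Finset.mem_range.1 hi
        omega
      rw [show n + 1 - i = (n - i) + 1 by omega, pow_succ, Module.End.mul_apply]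
    have h3 : ∀ i ∈ Finset.range (n + 1),
        (n.choose i : ℂ) * C.T ((A ^ (i + 1)) x) ((A ^ (n - i)) y) z =
        (n.choose i : ℂ) * C.T ((A ^ i) (A x)) ((A ^ (n - i)) y) z := by
      intro i _
      rw [pow_succ, Module.End.mul_apply]
    rw [Finset.sum_congr rfl h2, Finset.sum_congr rfl h3, ih x (A y), ih (A x) y] at h1
    refine h1.trans ?_
    have h4 := hP x y ((A ^ n) z)
    have h5 : (A ^ (n + 1)) z = A ((A ^ n) z) := by
      rw [pow_succ', Module.End.mul_apply]
    rw [h5, pow_succ]
    linear_combination (-1 : ℂ) ^ n * h4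

theorem cub_nilpotent (C : Cub V) (hs : C.Smooth) (A : V →ₗ[ℂ] V)
    (hP : ∀ x y z, C.T (A x) y z + C.T x (A y) z + C.T x y (A z) = 0) : IsNilpotent A := by
  classical
  rcases subsingleton_or_nontrivial V with hV | hV
  · exact ⟨1, by ext x; exact Subsingleton.elim _ _⟩
  -- all eigenvalues vanish
  have hev : ∀ mu : ℂ, Module.End.HasEigenvalue A mu → mu = 0 := by
    have hfin : {mu : ℂ | Module.End.HasEigenvalue A mu}.Finite :=
      Module.End.finite_hasEigenvalue A
    obtain ⟨mu0, hmu0⟩ := Module.End.exists_eigenvalue A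
    obtain ⟨lam, hlam, hmax⟩ := Set.exists_max_image _ (fun mu : ℂ => ‖mu‖) hfin ⟨mu0, hmu0⟩
    obtain ⟨v, hv⟩ := Module.End.HasEigenvalue.exists_hasEigenvector hlam
    have hAv : A v = lam • v := Module.End.HasEigenvector.apply_eq_smul hv
    obtain ⟨z0, hz0⟩ := hs v hv.2
    have hphi : ∀ z, C.T v v (A z + (2 * lam) • z) = 0 := by
      intro z
      have h1 := hP v v z
      rw [hAv] at h1
      simp only [map_smul, LinearMap.smul_apply, smul_eq_mul, map_add] at h1 ⊢
      linear_combination h1
    have hns : ¬ Function.Surjective (A - algebraMap ℂ (Module.End ℂ V) (-(2 * lam))) := by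
      intro hsur
      obtain ⟨z, hz⟩ := hsur z0
      apply hz0
      have hz' : z0 = A z + (2 * lam) • z := by
        rw [← hz, LinearMap.sub_apply, Module.algebraMap_end_apply, neg_smul, sub_neg_eq_add]
      rw [hz']
      exact hphi z
    have heig : Module.End.HasEigenvalue A (-(2 * lam)) := by
      rw [Module.End.hasEigenvalue_iff, ne_eq, Module.End.eigenspace_def, LinearMap.ker_eq_bot]
      intro hinj
      exact hns ((LinearMap.injective_iff_surjective).1 hinj)
    have hle := hmax _ heig
    have hlam0 : lam = 0 := by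
      have : ‖-(2 * lam)‖ = 2 * ‖lam‖ := by simp
      have h0 : ‖lam‖ ≤ 0 := by
        have h' : ‖-(2 * lam)‖ ≤ ‖lam‖ := hle
        linarith
      exact norm_le_zero_iff.1 h0
    intro mu hmu
    have hle' : ‖mu‖ ≤ ‖lam‖ := hmax mu hmu
    rw [hlam0, norm_zero] at hle'
    exact norm_le_zero_iff.1 hle'
  have htop := Module.End.iSup_maxGenEigenspace_eq_top A
  have h0 : Module.End.maxGenEigenspace A 0 = ⊤ := by
    rw [eq_top_iff, ← htop]
    refine iSup_le fun mu => ?_
    by_cases hmu : mu = 0
    · rw [hmu]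
    · have : Module.End.maxGenEigenspace A mu = ⊥ := by
        by_contra hne
        have h1 : Module.End.HasUnifEigenvalue A mu ⊤ := hne
        have h2 : Module.End.HasEigenvalue A mu := by
          exact Module.End.HasUnifEigenvalue.lt (by simp) h1
        exact hmu (hev mu h2)
      rw [this]
      exact bot_le
  refine ⟨finrank ℂ V, ?_⟩
  rw [Module.End.maxGenEigenspace_eq_genEigenspace_finrank] at h0
  ext x
  have hx : x ∈ Module.End.genEigenspace A 0 (finrank ℂ V) := by
    rw [h0]; trivial
  rw [Module.End.mem_genEigenspace_nat] at hx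
  simpa using hx

theorem cub_inj (C : Cub V) (hs : C.Smooth) (A : V →ₗ[ℂ] V) (hA : ∀ x, C.T x x (A x) = 0) :
    A = 0 := by
  classical
  have key : ∀ x y, 2 * C.T x y (A x) + C.T x x (A y) = 0 := by
    intro x y
    have h1 := hA (x + y)
    have h2 := hA (x - y)
    simp only [map_add, map_sub, LinearMap.add_apply, LinearMap.sub_apply] at h1 h2
    have h3 := hA x
    have h4 := hA y
    have e1 : C.T y x (A x) = C.T x y (A x) := C.sw y x _
    have e2 : C.T y x (A y) = C.T x y (A y) := C.sw y x _
    rw [e1, e2, h3, h4] at h1 h2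
    linear_combination (1 / 2 : ℂ) * h1 - (1 / 2 : ℂ) * h2
  have hP : ∀ x y z, C.T (A x) y z + C.T x (A y) z + C.T x y (A z) = 0 := by
    intro x y z
    have h1 := key (x + z) y
    have h2 := key x y
    have h3 := key z y
    simp only [map_add, LinearMap.add_apply] at h1
    have e1 : C.T z x (A y) = C.T x z (A y) := C.sw z x _
    have e2 : C.T (A x) y z = C.T z y (A x) := C.sw' _ _ _
    have e3 : C.T x (A y) z = C.T x z (A y) := C.cy _ _ _
    rw [e2, e3]
    rw [e1] at h1
    linear_combination (1 / 2 : ℂ) * h1 - (1 / 2 : ℂ) * h2 - (1 / 2 : ℂ) * h3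
  have hnil := cub_nilpotent C hs A hP
  by_contra hA0
  -- the last nonzero power
  have hex : ∃ k, A ^ k = 0 := hnil
  have hk := Nat.find_spec hex
  have hk0 : Nat.find hex ≠ 0 := by
    intro h
    rw [h, pow_zero] at hk
    apply hA0
    ext x
    have : (1 : Module.End ℂ V) x = 0 := by rw [hk]; rfl
    have hx : x = 0 := this
    rw [hx]; simp
  obtain ⟨m, hm⟩ := Nat.exists_eq_succ_of_ne_zero hk0
  have hm1 : A ^ m ≠ 0 := Nat.find_min hex (by omega)
  have hm2 : A ^ (m + 1) = 0 := by
    rw [hm] at hk
    exact hk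
  have hm0 : 1 ≤ m := by
    rcases Nat.eq_zero_or_pos m with h | h
    · exfalso
      rw [h] at hm2
      exact hA0 (by simpa using hm2)
    · exact h
  have hbig : ∀ j, m + 1 ≤ j → A ^ j = 0 := by
    intro j hj
    obtain ⟨t, rfl⟩ := Nat.exists_eq_add_of_le hj
    rw [pow_add, hm2, zero_mul]
  obtain ⟨u, hu⟩ : ∃ u, (A ^ m) u ≠ 0 := by
    by_contra hcon
    push Not at hcon
    exact hm1 (LinearMap.ext hcon)
  obtain ⟨z, hz⟩ := hs _ hu
  have hL := cub_leibniz C A hP (2 * m) u u z
  rw [hbig (2 * m) (by omega)] at hL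
  rw [Finset.sum_eq_single m] at hL
  · rw [show 2 * m - m = m by omega] at hL
    simp only [LinearMap.zero_apply, map_zero, mul_zero, mul_eq_zero, Nat.cast_eq_zero] at hL
    rcases hL with h | h
    · exact absurd h (Nat.choose_pos (by omega)).ne'
    · exact hz h
  · intro i hi hne
    have hi' := Finset.mem_range.1 hi
    rcases Nat.lt_or_gt_of_ne hne with h | h
    · rw [hbig (2 * m - i) (by omega)]
      simp
    · rw [hbig i (by omega)]
      simp
  · intro h
    exact absurd (Finset.mem_range.2 (by omega)) h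

end Pool.Agent.P28
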