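import Mathlib

set_option autoImplicit false

/-!
# P28 C05c: the determinant of a linkage is not in the net (Mathlib only)

`MvPolynomial (Fin 3) ℂ`; `Q 0` a quadratic form, `Q 1 = X 1 * B11 + X 2 * B21`,
`Q 2 = X 1 * B12 + X 2 * B22` with linear forms `B_ij`, no common zero in `ℂ^3 ∖ 0`.

`conic_line`: a quadratic form and a nonzero linear form have a common nonzero zero.
`conic_conic`: two quadratic forms in 3 variables have a common nonzero zero (the pencil contains a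
degenerate form, which vanishes on a 2-dimensional space; or use resultants).
`net_indep`: if the `Q i` have no common zero then they are linearly independent: otherwise they
are all combinations of two of them, which have a common zero.

PROOF of `det_not_span`. Let `δ = B11 B22 - B12 B21 = a0 Q0 + a1 Q1 + a2 Q2`.
Case `a0 ≠ 0`: we find `z ≠ 0` with `Q1 z = Q2 z = δ z = 0`; then `Q0 z = 0`: contradiction. Let
`p = (1, 0, 0)`; `Q1 p = Q2 p = 0`. If `δ p = 0` take `z = p`. Otherwise the matrix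
`(B_ij p)` is invertible. For `(c, d) ≠ 0` put `mu_j = c B_1j(p) + d B_2j(p)`,
`nu_j = c B_1j(0,c,d) + d B_2j(0,c,d)`, so `Q_j(s, c, d) = s mu_j + nu_j` for `j = 1, 2`.
`kap(c,d) = mu_1 nu_2 - mu_2 nu_1` is a binary cubic form (possibly 0); it has a zero
`(c, d) ≠ 0`. There `(mu_1, mu_2) ≠ 0` (invertible matrix). If `mu_1 ≠ 0` put `s = - nu_1 / mu_1`,
otherwise `s = - nu_2 / mu_2`: `z = (s, c, d)` is a common zero of `Q1, Q2`. Finally
`c B_1j(z) + d B_2j(z) = Q_j(z) = 0` for `j = 1, 2` and `(c, d) ≠ 0` give `δ(z) = 0`.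
Case `a0 = 0`. Column operations: if `(a1, a2) ≠ 0` choose `c1, c2` with `a1 c2 - a2 c1 = 1`, put
`Q' = a1 Q1 + a2 Q2`, `Q'' = c1 Q1 + c2 Q2`, `B'_i = a1 B_i1 + a2 B_i2`,
`B''_i = c1 B_i1 + c2 B_i2`; then `δ = B'_1 B''_2 - B''_1 B'_2`, `Q' = X1 B'_1 + X2 B'_2`,
`Q'' = X1 B''_1 + X2 B''_2` and `δ = eps Q'` with `eps = 1`. If `a1 = a2 = 0` take `B' = B_i1`,
`B'' = B_i2`, `δ = eps Q'` with `eps = 0`. In both cases
(1) `B'_1 (B''_2 - eps X1) = B'_2 (B''_1 + eps X2)`.
(i) `B'_1, B'_2` linearly independent: then (coprime linear forms) there is a constant `c` with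
`B''_1 + eps X2 = c B'_1`, `B''_2 - eps X1 = c B'_2`, hence `Q'' = c Q'`: the net is spanned by
`Q'` and `Q0`, which have a common zero: contradiction.
(ii) otherwise `(B'_1, B'_2) = (m1 L, m2 L)` with constants `(m1, m2) ≠ 0`. If `L = 0` then
`Q' = 0`: contradiction as before. Otherwise cancel `L` in (1):
`m1 (B''_2 - eps X1) = m2 (B''_1 + eps X2)`, so
`m1 Q'' = (B''_1 + eps X2) (m1 X1 + m2 X2)` and `m2 Q'' = (B''_2 - eps X1) (m1 X1 + m2 X2)`, and
`Q' = L (m1 X1 + m2 X2)`. So `Q'` and `Q''` vanish on the plane `m1 X1 + m2 X2 = 0`, on which `Q0`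
has a nonzero zero (`conic_line`): contradiction.
-/

namespace Pool.Agent.P28

open MvPolynomial

open Matrix in
/-- quadratic functions -/
private def Qd (f : (Fin 3 → ℂ) → ℂ) : Prop :=
  ∃ M : Matrix (Fin 3) (Fin 3) ℂ, M.IsSymm ∧ ∀ y, f y = y ⬝ᵥ (M *ᵥ y)

private theorem Qd.zero : Qd fun _ => 0 :=
  ⟨0, Matrix.isSymm_zero, fun y => by rw [Matrix.zero_mulVec, dotProduct_zero]⟩

private theorem Qd.add {f g : (Fin 3 → ℂ) → ℂ} (hf : Qd f) (hg : Qd g) :
    Qd fun y => f y + g y := by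
  obtain ⟨M, hM, h⟩ := hf
  obtain ⟨N, hN, h'⟩ := hg
  refine ⟨M + N, hM.add hN, fun y => ?_⟩
  change f y + g y = _
  rw [h, h', Matrix.add_mulVec, dotProduct_add]

private theorem Qd.sum {ι : Type*} (S : Finset ι) {f : ι → (Fin 3 → ℂ) → ℂ}
    (hf : ∀ i ∈ S, Qd (f i)) : Qd fun y => ∑ i ∈ S, f i y := by
  classical
  induction S using Finset.induction_on with
  | empty => simpa only [Finset.sum_empty] using Qd.zero
  | insert a S ha ih =>
    simp only [Finset.sum_insert ha]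
    exact (hf a (Finset.mem_insert_self a S)).add
      (ih fun i hi => hf i (Finset.mem_insert_of_mem hi))

private theorem Qd.mul' (a b : Fin 3 → ℂ) : Qd fun y => (∑ i, a i * y i) * ∑ i, b i * y i := by
  refine ⟨Matrix.of fun i j => (a i * b j + a j * b i) / 2, ?_, fun y => ?_⟩
  · ext i j
    simp only [Matrix.transpose_apply, Matrix.of_apply]
    ring
  · simp only [dotProduct, Matrix.mulVec, Matrix.of_apply, Fin.sum_univ_three]
    ring

private theorem lin_apply (l : (Fin 3 → ℂ) →ₗ[ℂ] ℂ) :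
    ∃ a : Fin 3 → ℂ, ∀ y, l y = ∑ i, a i * y i := by
  refine ⟨fun i => l (fun j => if i = j then 1 else 0), fun y => ?_⟩
  rw [LinearMap.pi_apply_eq_sum_univ l y]
  refine Finset.sum_congr rfl fun i _ => ?_
  rw [smul_eq_mul, mul_comm]

private theorem Qd.mul (l m : (Fin 3 → ℂ) →ₗ[ℂ] ℂ) : Qd fun y => l y * m y := by
  obtain ⟨a, ha⟩ := lin_apply l
  obtain ⟨b, hb⟩ := lin_apply m
  have h := Qd.mul' a b
  simp only [← ha, ← hb] at h
  exact h

private theorem Qd.mono (c : ℂ) (i j : Fin 3) : Qd fun y => c * (y i * y j) := by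
  have h := Qd.mul (c • LinearMap.proj i) (LinearMap.proj j)
  simpa only [LinearMap.smul_apply, LinearMap.proj_apply, smul_eq_mul, mul_assoc] using h

private theorem eval_Qd {q : MvPolynomial (Fin 3) ℂ} (hq : q.IsHomogeneous 2) :
    Qd fun y => eval y q := by
  simp only [eval_eq']
  refine Qd.sum _ fun d hd => ?_
  have h1 : d.degree = 2 := by
    by_contra h
    exact (mem_support_iff.1 hd) (hq.coeff_eq_zero h)
  rw [Finsupp.degree_eq_sum, Fin.sum_univ_three] at h1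
  simp only [Fin.prod_univ_three]
  have h2 : (d 0 = 2 ∧ d 1 = 0 ∧ d 2 = 0) ∨ (d 0 = 0 ∧ d 1 = 2 ∧ d 2 = 0) ∨
      (d 0 = 0 ∧ d 1 = 0 ∧ d 2 = 2) ∨ (d 0 = 1 ∧ d 1 = 1 ∧ d 2 = 0) ∨
      (d 0 = 1 ∧ d 1 = 0 ∧ d 2 = 1) ∨ (d 0 = 0 ∧ d 1 = 1 ∧ d 2 = 1) := by omega
  rcases h2 with ⟨a, b, c⟩ | ⟨a, b, c⟩ | ⟨a, b, c⟩ | ⟨a, b, c⟩ | ⟨a, b, c⟩ | ⟨a, b, c⟩ <;>
    simp only [a, b, c, pow_zero, pow_one, mul_one, one_mul, sq]
  · exact Qd.mono _ 0 0
  · exact Qd.mono _ 1 1
  · exact Qd.mono _ 2 2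
  · exact Qd.mono _ 0 1
  · exact Qd.mono _ 0 2
  · exact Qd.mono _ 1 2

private theorem eval_lin {q : MvPolynomial (Fin 3) ℂ} (hq : q.IsHomogeneous 1) :
    ∃ l : (Fin 3 → ℂ) →ₗ[ℂ] ℂ, ∀ y, eval y q = l y := by
  have key : ∀ S : Finset (Fin 3 →₀ ℕ), (∀ d ∈ S, d.degree = 1) →
      ∃ l : (Fin 3 → ℂ) →ₗ[ℂ] ℂ, ∀ y, ∑ d ∈ S, q.coeff d * ∏ i, y i ^ d i = l y := by
    classical
    intro S
    induction S using Finset.induction_on with
    | empty => exact fun _ => ⟨0, fun y => by rw [Finset.sum_empty, LinearMap.zero_apply]⟩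
    | insert a S ha ih =>
      intro h
      obtain ⟨l, hl⟩ := ih fun d hd => h d (Finset.mem_insert_of_mem hd)
      have h1 := h a (Finset.mem_insert_self a S)
      rw [Finsupp.degree_eq_sum, Fin.sum_univ_three] at h1
      have h2 : (a 0 = 1 ∧ a 1 = 0 ∧ a 2 = 0) ∨ (a 0 = 0 ∧ a 1 = 1 ∧ a 2 = 0) ∨
        (a 0 = 0 ∧ a 1 = 0 ∧ a 2 = 1) := by omega
      rcases h2 with ⟨u, v, w⟩ | ⟨u, v, w⟩ | ⟨u, v, w⟩
      · refine ⟨q.coeff a • LinearMap.proj 0 + l, fun y => ?_⟩
        rw [Finset.sum_insert ha, hl, Fin.prod_univ_three, u, v, w]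
        simp
      · refine ⟨q.coeff a • LinearMap.proj 1 + l, fun y => ?_⟩
        rw [Finset.sum_insert ha, hl, Fin.prod_univ_three, u, v, w]
        simp
      · refine ⟨q.coeff a • LinearMap.proj 2 + l, fun y => ?_⟩
        rw [Finset.sum_insert ha, hl, Fin.prod_univ_three, u, v, w]
        simp
  obtain ⟨l, hl⟩ := key q.support fun d hd => by
    by_contra h
    exact (mem_support_iff.1 hd) (hq.coeff_eq_zero h)
  exact ⟨l, fun y => by rw [eval_eq', hl]⟩

open Matrix in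
private theorem plane_zero {f : (Fin 3 → ℂ) → ℂ} (hf : Qd f) (W : Submodule ℂ (Fin 3 → ℂ))
    (hW : 2 ≤ Module.finrank ℂ W) : ∃ y ∈ W, y ≠ 0 ∧ f y = 0 := by
  obtain ⟨M, hM, h⟩ := hf
  have hnt : Nontrivial W := Module.nontrivial_of_finrank_pos (R := ℂ) (by omega)
  obtain ⟨v, hv⟩ := exists_ne (0 : W)
  obtain ⟨u, hu⟩ := exists_linearIndependent_pair_of_one_lt_finrank (R := ℂ) (by omega) hv
  rw [LinearIndependent.pair_iff] at hu
  by_cases hfv : f v.1 = 0
  · exact ⟨v.1, v.2, fun h0 => hv (Subtype.ext h0), hfv⟩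
  · obtain ⟨s, hs⟩ := IsAlgClosed.exists_eq_mul_self
      (discrim (f v.1) (u.1 ⬝ᵥ (M *ᵥ v.1) + v.1 ⬝ᵥ (M *ᵥ u.1)) (f u.1))
    obtain ⟨x, hx⟩ := exists_quadratic_eq_zero hfv ⟨s, hs⟩
    refine ⟨x • v.1 + u.1, W.add_mem (W.smul_mem x v.2) u.2, fun h0 => ?_, ?_⟩
    · have h1 : x • v + (1 : ℂ) • u = 0 := Subtype.ext (by
        rw [one_smul]
        exact h0)
      exact one_ne_zero (hu x 1 h1).2
    · rw [← hx, h, h v.1, h u.1]
      simp only [Matrix.mulVec_add, Matrix.mulVec_smul, dotProduct_add, add_dotProduct,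
        smul_dotProduct, dotProduct_smul, smul_eq_mul]
      ring

private theorem ker_dim (l : (Fin 3 → ℂ) →ₗ[ℂ] ℂ) : 2 ≤ Module.finrank ℂ (LinearMap.ker l) := by
  have h1 := LinearMap.finrank_range_add_finrank_ker l
  have h2 := Submodule.finrank_le (LinearMap.range l)
  rw [Module.finrank_self] at h2
  rw [Module.finrank_fintype_fun_eq_card, Fintype.card_fin] at h1
  omega

open Matrix in
private theorem deg_plane {M : Matrix (Fin 3) (Fin 3) ℂ} (hM : M.IsSymm) {k : Fin 3 → ℂ}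
    (hk : k ≠ 0) (h : M *ᵥ k = 0) : ∃ W : Submodule ℂ (Fin 3 → ℂ), 2 ≤ Module.finrank ℂ W ∧
      ∀ y ∈ W, y ⬝ᵥ (M *ᵥ y) = 0 := by
  obtain ⟨C, hC⟩ := Submodule.exists_isCompl (ℂ ∙ k)
  have h1 := Submodule.finrank_add_eq_of_isCompl hC
  rw [finrank_span_singleton hk, Module.finrank_fintype_fun_eq_card, Fintype.card_fin] at h1
  obtain ⟨u, hu, hu0, hfu⟩ := plane_zero (f := fun y => y ⬝ᵥ (M *ᵥ y)) ⟨M, hM, fun _ => rfl⟩ C
    (by omega)
  have hli : LinearIndependent ℂ ![k, u] := by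
    rw [LinearIndependent.pair_iff]
    intro s t hst
    have h2 : s • k ∈ (ℂ ∙ k) ⊓ C := by
      refine ⟨Submodule.smul_mem _ _ (Submodule.mem_span_singleton_self k), ?_⟩
      rw [eq_neg_of_add_eq_zero_left hst]
      exact C.neg_mem (C.smul_mem t hu)
    rw [hC.inf_eq_bot, Submodule.mem_bot] at h2
    rw [h2, zero_add] at hst
    exact ⟨(smul_eq_zero.1 h2).resolve_right hk, (smul_eq_zero.1 hst).resolve_right hu0⟩
  refine ⟨Submodule.span ℂ (Set.range ![k, u]), ?_, ?_⟩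
  · rw [finrank_span_eq_card hli, Fintype.card_fin]
  · intro y hy
    rw [Submodule.mem_span_range_iff_exists_fun] at hy
    obtain ⟨c, rfl⟩ := hy
    have h3 : k ᵥ* M = 0 := by
      rw [← Matrix.mulVec_transpose, hM.eq, h]
    have h4 : k ⬝ᵥ (M *ᵥ u) = 0 := by
      rw [Matrix.dotProduct_mulVec, h3, zero_dotProduct]
    simp only [Fin.sum_univ_two, Matrix.cons_val_zero, Matrix.cons_val_one]
    simp only [Matrix.mulVec_add, Matrix.mulVec_smul, dotProduct_add, add_dotProduct,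
      smul_dotProduct, dotProduct_smul, smul_eq_mul, h, h4, hfu, dotProduct_zero, mul_zero,
      add_zero]

open Matrix in
private theorem conic_conic' {f g : (Fin 3 → ℂ) → ℂ} (hf : Qd f) (hg : Qd g) :
    ∃ y, y ≠ 0 ∧ f y = 0 ∧ g y = 0 := by
  obtain ⟨M, hM, h⟩ := hf
  obtain ⟨N, hN, h'⟩ := hg
  by_cases hdet : N.det = 0
  · obtain ⟨k, hk, hNk⟩ := Matrix.exists_mulVec_eq_zero_iff.2 hdet
    obtain ⟨W, hW, hWN⟩ := deg_plane hN hk hNk
    obtain ⟨y, hy, hy0, hfy⟩ := plane_zero ⟨M, hM, h⟩ W hW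
    exact ⟨y, hy0, hfy, by rw [h', hWN y hy]⟩
  · have hu : IsUnit N.det := isUnit_iff_ne_zero.2 hdet
    obtain ⟨μ, hμ⟩ := Module.End.exists_eigenvalue (Matrix.toLin' (N⁻¹ * M))
    obtain ⟨k, hk⟩ := hμ.exists_hasEigenvector
    have h1 := hk.apply_eq_smul
    rw [Matrix.toLin'_apply] at h1
    have h2 : M *ᵥ k = μ • (N *ᵥ k) := by
      rw [← Matrix.mulVec_smul, ← h1, Matrix.mulVec_mulVec, ← Matrix.mul_assoc,
        Matrix.mul_nonsing_inv N hu, Matrix.one_mul]
    have h3 : (M - μ • N) *ᵥ k = 0 := by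
      rw [Matrix.sub_mulVec, Matrix.smul_mulVec, h2, sub_self]
    have hs : (M - μ • N).IsSymm := hM.sub (hN.smul μ)
    obtain ⟨W, hW, hWN⟩ := deg_plane hs hk.2 h3
    obtain ⟨y, hy, hy0, hgy⟩ := plane_zero ⟨N, hN, h'⟩ W hW
    refine ⟨y, hy0, ?_, hgy⟩
    have h4 := hWN y hy
    rw [Matrix.sub_mulVec, Matrix.smul_mulVec, dotProduct_sub, dotProduct_smul, ← h', hgy,
      smul_zero, sub_zero, ← h] at h4
    exact h4

theorem conic_line (q : MvPolynomial (Fin 3) ℂ) (hq : q.IsHomogeneous 2) (m : Fin 3 → ℂ) :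
    ∃ y : Fin 3 → ℂ, y ≠ 0 ∧ ∑ i, m i * y i = 0 ∧ eval y q = 0 := by
  let l : (Fin 3 → ℂ) →ₗ[ℂ] ℂ := ∑ i, m i • LinearMap.proj i
  have hl : ∀ y, l y = ∑ i, m i * y i := by
    intro y
    simp only [l, LinearMap.sum_apply, LinearMap.smul_apply, LinearMap.proj_apply, smul_eq_mul]
  obtain ⟨y, hy, hy0, hqy⟩ := plane_zero (eval_Qd hq) (LinearMap.ker l) (ker_dim l)
  rw [LinearMap.mem_ker, hl] at hy
  exact ⟨y, hy0, hy, hqy⟩

theorem conic_conic (q r : MvPolynomial (Fin 3) ℂ) (hq : q.IsHomogeneous 2)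
    (hr : r.IsHomogeneous 2) : ∃ y : Fin 3 → ℂ, y ≠ 0 ∧ eval y q = 0 ∧ eval y r = 0 :=
  conic_conic' (eval_Qd hq) (eval_Qd hr)

theorem net_indep (Q : Fin 3 → MvPolynomial (Fin 3) ℂ) (hQ : ∀ i, (Q i).IsHomogeneous 2)
    (hz : ∀ y : Fin 3 → ℂ, y ≠ 0 → ∃ i, eval y (Q i) ≠ 0) : LinearIndependent ℂ Q := by
  rw [Fintype.linearIndependent_iff]
  intro g hg i
  by_contra hi
  have h1 : ∀ y, g 0 * eval y (Q 0) + g 1 * eval y (Q 1) + g 2 * eval y (Q 2) = 0 := by
    intro y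
    have h2 := congrArg (eval y) hg
    rw [Fin.sum_univ_three] at h2
    simpa only [map_add, smul_eval, map_zero] using h2
  have key : ∀ j k : Fin 3, (∀ y, eval y (Q j) = 0 → eval y (Q k) = 0 →
      g i * eval y (Q i) = 0) → (∀ m : Fin 3, m = i ∨ m = j ∨ m = k) → False := by
    intro j k h2 h3
    obtain ⟨y, hy, hj, hk⟩ := conic_conic (Q j) (Q k) (hQ j) (hQ k)
    obtain ⟨m, hm⟩ := hz y hy
    rcases h3 m with rfl | rfl | rfl
    · exact hm ((mul_eq_zero.1 (h2 y hj hk)).resolve_left hi)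
    · exact hm hj
    · exact hm hk
  fin_cases i
  · refine key 1 2 (fun y h2 h3 => ?_) (by decide)
    have h4 := h1 y
    rw [h2, h3] at h4
    simpa using h4
  · refine key 0 2 (fun y h2 h3 => ?_) (by decide)
    have h4 := h1 y
    rw [h2, h3] at h4
    simpa using h4
  · refine key 0 1 (fun y h2 h3 => ?_) (by decide)
    have h4 := h1 y
    rw [h2, h3] at h4
    simpa using h4

/-- a binary cubic form has a nontrivial zero -/
private theorem cubic_zero (k0 k1 k2 k3 : ℂ) : ∃ c d : ℂ, (c ≠ 0 ∨ d ≠ 0) ∧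
    k0 * c ^ 3 + k1 * c ^ 2 * d + k2 * c * d ^ 2 + k3 * d ^ 3 = 0 := by
  by_cases h : k0 = 0
  · exact ⟨1, 0, Or.inl one_ne_zero, by rw [h]; ring⟩
  · obtain ⟨x, hx⟩ := IsAlgClosed.exists_root
      (Polynomial.C k0 * Polynomial.X ^ 3 + Polynomial.C k1 * Polynomial.X ^ 2 +
        Polynomial.C k2 * Polynomial.X + Polynomial.C k3) (by
        rw [Polynomial.degree_cubic h]
        norm_num)
    refine ⟨x, 1, Or.inr one_ne_zero, ?_⟩
    rw [Polynomial.IsRoot.def] at hx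
    simp only [Polynomial.eval_add, Polynomial.eval_mul, Polynomial.eval_C, Polynomial.eval_pow,
      Polynomial.eval_X] at hx
    linear_combination hx

private theorem fun_ker {l m : (Fin 3 → ℂ) →ₗ[ℂ] ℂ} (hl : l ≠ 0) (h : ∀ y, l y = 0 → m y = 0) :
    ∃ c : ℂ, ∀ y, m y = c * l y := by
  obtain ⟨x, hx⟩ : ∃ x, l x ≠ 0 := by
    by_contra hcon
    push Not at hcon
    exact hl (LinearMap.ext hcon)
  refine ⟨m x / l x, fun y => ?_⟩
  have h1 := h (y - (l y / l x) • x) (by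
    rw [map_sub, map_smul, smul_eq_mul]
    field_simp
    ring)
  rw [map_sub, map_smul, smul_eq_mul, sub_eq_zero] at h1
  rw [h1]
  field_simp

private theorem mul_cancel {l m : (Fin 3 → ℂ) →ₗ[ℂ] ℂ} (hl : l ≠ 0) (h : ∀ y, l y * m y = 0)
    (y : Fin 3 → ℂ) : m y = 0 := by
  obtain ⟨x, hx⟩ : ∃ x, l x ≠ 0 := by
    by_contra hcon
    push Not at hcon
    exact hl (LinearMap.ext hcon)
  have hmx : m x = 0 := (mul_eq_zero.1 (h x)).resolve_left hx
  by_cases hy : l y = 0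
  · have h1 := h (x + y)
    rw [map_add, map_add, hmx, hy, add_zero, zero_add] at h1
    exact (mul_eq_zero.1 h1).resolve_left hx
  · exact (mul_eq_zero.1 (h y)).resolve_left hy

private theorem linkage {f0 : (Fin 3 → ℂ) → ℂ} (h0 : Qd f0)
    (b1 b2 c1 c2 : (Fin 3 → ℂ) →ₗ[ℂ] ℂ) (e : ℂ)
    (h : ∀ y, b1 y * (c2 y - e * y 1) = b2 y * (c1 y + e * y 2)) :
    ∃ y, y ≠ 0 ∧ f0 y = 0 ∧ y 1 * b1 y + y 2 * b2 y = 0 ∧ y 1 * c1 y + y 2 * c2 y = 0 := by
  let p : Fin 3 → (Fin 3 → ℂ) →ₗ[ℂ] ℂ := fun i => LinearMap.proj i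
  have hp : ∀ i y, p i y = y i := fun i y => rfl
  have qq : ∀ u v : (Fin 3 → ℂ) →ₗ[ℂ] ℂ, Qd fun y => y 1 * u y + y 2 * v y := fun u v =>
    (Qd.mul (p 1) u).add (Qd.mul (p 2) v)
  -- the case of dependent forms
  have dep : ∀ (L : (Fin 3 → ℂ) →ₗ[ℂ] ℂ) (m1 m2 : ℂ), (m1 ≠ 0 ∨ m2 ≠ 0) →
      (∀ y, b1 y = m1 * L y) → (∀ y, b2 y = m2 * L y) →
      ∃ y, y ≠ 0 ∧ f0 y = 0 ∧ y 1 * b1 y + y 2 * b2 y = 0 ∧ y 1 * c1 y + y 2 * c2 y = 0 := by
    intro L m1 m2 hm e1 e2
    by_cases hL : L = 0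
    · obtain ⟨y, hy, h1, h2⟩ := conic_conic' h0 (qq c1 c2)
      refine ⟨y, hy, h1, ?_, h2⟩
      rw [e1, e2, hL, LinearMap.zero_apply]
      ring
    · have h1 : ∀ y, (m1 • (c2 - e • p 1) - m2 • (c1 + e • p 2)) y = 0 := by
        refine mul_cancel hL fun y => ?_
        have h2 := h y
        rw [e1, e2] at h2
        simp only [LinearMap.sub_apply, LinearMap.smul_apply, LinearMap.add_apply, hp,
          smul_eq_mul]
        linear_combination h2
      simp only [LinearMap.sub_apply, LinearMap.smul_apply, LinearMap.add_apply, hp,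
        smul_eq_mul] at h1
      obtain ⟨y, hy, hy0, hqy⟩ := plane_zero h0 (LinearMap.ker (m1 • p 1 + m2 • p 2)) (ker_dim _)
      rw [LinearMap.mem_ker] at hy
      simp only [LinearMap.smul_apply, LinearMap.add_apply, hp, smul_eq_mul] at hy
      refine ⟨y, hy0, hqy, ?_, ?_⟩
      · rw [e1, e2]
        linear_combination L y * hy
      · have h2 := h1 y
        rcases hm with hm | hm
        · refine (mul_eq_zero.1 (?_ : m1 * (y 1 * c1 y + y 2 * c2 y) = 0)).resolve_left hm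
          linear_combination y 2 * h2 + (c1 y + e * y 2) * hy
        · refine (mul_eq_zero.1 (?_ : m2 * (y 1 * c1 y + y 2 * c2 y) = 0)).resolve_left hm
          linear_combination (-y 1) * h2 + (c2 y - e * y 1) * hy
  by_cases hb1 : b1 = 0
  · exact dep b2 0 1 (Or.inr one_ne_zero) (fun y => by rw [hb1, LinearMap.zero_apply, zero_mul])
      (fun y => (one_mul _).symm)
  by_cases hker : ∀ y, b1 y = 0 → b2 y = 0
  · obtain ⟨c, hc⟩ := fun_ker hb1 hker
    exact dep b1 1 c (Or.inl one_ne_zero) (fun y => (one_mul _).symm) hc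
  · push Not at hker
    obtain ⟨x, hx1, hx2⟩ := hker
    -- the form `c1 + e y2` vanishes on the kernel of `b1`
    have h1 : ∀ y, b1 y = 0 → (c1 + e • p 2) y = 0 := by
      intro y hy
      have h2 : ∀ t : ℂ, (b2 y + t * b2 x) * (c1 y + e * y 2 + t * (c1 x + e * x 2)) = 0 := by
        intro t
        have h3 := h (y + t • x)
        simp only [map_add, map_smul, smul_eq_mul, hy, hx1, Pi.add_apply, Pi.smul_apply] at h3
        linear_combination -h3
      have h4 : c1 x + e * x 2 = 0 := by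
        have h5 := h x
        rw [hx1, zero_mul] at h5
        exact (mul_eq_zero.1 h5.symm).resolve_left hx2
      have h6 := h2 ((1 - b2 y) / b2 x)
      rw [h4, mul_zero, add_zero, div_mul_cancel₀ _ hx2, add_sub_cancel, one_mul] at h6
      exact h6
    obtain ⟨c, hc⟩ := fun_ker hb1 h1
    simp only [LinearMap.add_apply, LinearMap.smul_apply, hp, smul_eq_mul] at hc
    have h2 : ∀ y, (c2 - e • p 1 - c • b2) y = 0 := by
      refine mul_cancel hb1 fun y => ?_
      have h3 := h y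
      rw [hc y] at h3
      simp only [LinearMap.sub_apply, LinearMap.smul_apply, hp, smul_eq_mul]
      linear_combination h3
    simp only [LinearMap.sub_apply, LinearMap.smul_apply, hp, smul_eq_mul] at h2
    obtain ⟨y, hy, h3, h4⟩ := conic_conic' h0 (qq b1 b2)
    refine ⟨y, hy, h3, h4, ?_⟩
    linear_combination c * h4 + y 1 * hc y + y 2 * h2 y

theorem det_not_span (Q : Fin 3 → MvPolynomial (Fin 3) ℂ) (hQ : ∀ i, (Q i).IsHomogeneous 2)
    (hz : ∀ y : Fin 3 → ℂ, y ≠ 0 → ∃ i, eval y (Q i) ≠ 0)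
    (B11 B12 B21 B22 : MvPolynomial (Fin 3) ℂ) (h11 : B11.IsHomogeneous 1)
    (h12 : B12.IsHomogeneous 1) (h21 : B21.IsHomogeneous 1) (h22 : B22.IsHomogeneous 1)
    (h1 : Q 1 = X 1 * B11 + X 2 * B21) (h2 : Q 2 = X 1 * B12 + X 2 * B22) :
    B11 * B22 - B12 * B21 ∉ Submodule.span ℂ (Set.range Q) := by
  intro hmem
  rw [Submodule.mem_span_range_iff_exists_fun] at hmem
  obtain ⟨a, ha⟩ := hmem
  obtain ⟨l11, e11⟩ := eval_lin h11
  obtain ⟨l12, e12⟩ := eval_lin h12
  obtain ⟨l21, e21⟩ := eval_lin h21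
  obtain ⟨l22, e22⟩ := eval_lin h22
  have q1 : ∀ y, eval y (Q 1) = y 1 * l11 y + y 2 * l21 y := by
    intro y
    rw [h1, map_add, map_mul, map_mul, eval_X, eval_X, e11, e21]
  have q2 : ∀ y, eval y (Q 2) = y 1 * l12 y + y 2 * l22 y := by
    intro y
    rw [h2, map_add, map_mul, map_mul, eval_X, eval_X, e12, e22]
  have hδ : ∀ y, l11 y * l22 y - l12 y * l21 y =
      a 0 * eval y (Q 0) + a 1 * eval y (Q 1) + a 2 * eval y (Q 2) := by
    intro y
    have h3 := congrArg (eval y) ha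
    rw [Fin.sum_univ_three] at h3
    simp only [map_add, smul_eval, map_sub, map_mul, e11, e12, e21, e22] at h3
    exact h3.symm
  have fin : ∀ y : Fin 3 → ℂ, y ≠ 0 → eval y (Q 0) = 0 → eval y (Q 1) = 0 →
      eval y (Q 2) = 0 → False := by
    intro y hy g0 g1 g2
    obtain ⟨i, hi⟩ := hz y hy
    fin_cases i
    · exact hi g0
    · exact hi g1
    · exact hi g2
  by_cases ha0 : a 0 = 0
  · by_cases ha12 : a 1 = 0 ∧ a 2 = 0
    · obtain ⟨y, hy, g0, g1, g2⟩ := linkage (eval_Qd (hQ 0)) l11 l21 l12 l22 0 (fun y => by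
        have h3 := hδ y
        rw [ha0, ha12.1, ha12.2] at h3
        linear_combination h3)
      exact fin y hy g0 (by rw [q1, g1]) (by rw [q2, g2])
    · obtain ⟨c1, c2, hc⟩ : ∃ c1 c2 : ℂ, a 1 * c2 - a 2 * c1 = 1 := by
        by_cases h3 : a 1 = 0
        · have h4 : a 2 ≠ 0 := fun h4 => ha12 ⟨h3, h4⟩
          exact ⟨-(a 2)⁻¹, 0, by field_simp; ring⟩
        · exact ⟨0, (a 1)⁻¹, by field_simp; ring⟩
      obtain ⟨y, hy, g0, g1, g2⟩ := linkage (eval_Qd (hQ 0)) (a 1 • l11 + a 2 • l12)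
        (a 1 • l21 + a 2 • l22) (c1 • l11 + c2 • l12) (c1 • l21 + c2 • l22) 1 (fun y => by
        have h3 := hδ y
        rw [ha0, q1, q2] at h3
        simp only [LinearMap.add_apply, LinearMap.smul_apply, smul_eq_mul]
        linear_combination h3 + (l11 y * l22 y - l12 y * l21 y) * hc)
      simp only [LinearMap.add_apply, LinearMap.smul_apply, smul_eq_mul] at g1 g2
      refine fin y hy g0 ?_ ?_
      · rw [q1]
        linear_combination c2 * g1 - a 2 * g2 - (y 1 * l11 y + y 2 * l21 y) * hc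
      · rw [q2]
        linear_combination a 1 * g2 - c1 * g1 - (y 1 * l12 y + y 2 * l22 y) * hc
  · -- it suffices to find a common zero of `Q 1`, `Q 2` and the determinant
    have key : ∀ y : Fin 3 → ℂ, y ≠ 0 → eval y (Q 1) = 0 → eval y (Q 2) = 0 →
        l11 y * l22 y - l12 y * l21 y = 0 → False := by
      intro y hy g1 g2 g3
      have h3 := hδ y
      rw [g1, g2, g3] at h3
      refine fin y hy ((mul_eq_zero.1 (?_ : a 0 * eval y (Q 0) = 0)).resolve_left ha0) g1 g2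
      linear_combination -h3
    let p0 : Fin 3 → ℂ := ![1, 0, 0]
    have hp0 : p0 ≠ 0 := fun h3 => one_ne_zero (congrFun h3 0)
    by_cases hp : l11 p0 * l22 p0 - l12 p0 * l21 p0 = 0
    · refine key p0 hp0 ?_ ?_ hp
      · rw [q1]
        simp [p0]
      · rw [q2]
        simp [p0]
    · let p1 : Fin 3 → ℂ := ![0, 1, 0]
      let p2 : Fin 3 → ℂ := ![0, 0, 1]
      obtain ⟨c, d, hcd, hk⟩ := cubic_zero
        (l11 p0 * l12 p1 - l12 p0 * l11 p1)
        (l11 p0 * (l12 p2 + l22 p1) + l21 p0 * l12 p1 - l12 p0 * (l11 p2 + l21 p1) -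
          l22 p0 * l11 p1)
        (l11 p0 * l22 p2 + l21 p0 * (l12 p2 + l22 p1) - l12 p0 * l21 p2 -
          l22 p0 * (l11 p2 + l21 p1))
        (l21 p0 * l22 p2 - l22 p0 * l21 p2)
      -- the common zero
      have hex : ∃ s : ℂ, s * (c * l11 p0 + d * l21 p0) +
            (c * (c * l11 p1 + d * l11 p2) + d * (c * l21 p1 + d * l21 p2)) = 0 ∧
          s * (c * l12 p0 + d * l22 p0) +
            (c * (c * l12 p1 + d * l12 p2) + d * (c * l22 p1 + d * l22 p2)) = 0 := by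
        by_cases hm1 : c * l11 p0 + d * l21 p0 = 0
        · have hm2 : c * l12 p0 + d * l22 p0 ≠ 0 := by
            intro hm2
            rcases hcd with h3 | h3
            · exact hp ((mul_eq_zero.1 (by linear_combination l22 p0 * hm1 - l21 p0 * hm2 :
                c * (l11 p0 * l22 p0 - l12 p0 * l21 p0) = 0)).resolve_left h3)
            · exact hp ((mul_eq_zero.1 (by linear_combination l11 p0 * hm2 - l12 p0 * hm1 :
                d * (l11 p0 * l22 p0 - l12 p0 * l21 p0) = 0)).resolve_left h3)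
          refine ⟨-(c * (c * l12 p1 + d * l12 p2) + d * (c * l22 p1 + d * l22 p2)) /
            (c * l12 p0 + d * l22 p0), ?_, ?_⟩
          · rw [hm1, mul_zero, zero_add]
            refine (mul_eq_zero.1 (?_ : (c * l12 p0 + d * l22 p0) * _ = 0)).resolve_left hm2
            linear_combination -hk +
              (c * (c * l12 p1 + d * l12 p2) + d * (c * l22 p1 + d * l22 p2)) * hm1
          · field_simp
            ring
        · refine ⟨-(c * (c * l11 p1 + d * l11 p2) + d * (c * l21 p1 + d * l21 p2)) /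
            (c * l11 p0 + d * l21 p0), ?_, ?_⟩
          · field_simp
            ring
          · refine (mul_eq_zero.1 (?_ : (c * l11 p0 + d * l21 p0) * _ = 0)).resolve_left hm1
            have h3 : (c * l11 p0 + d * l21 p0) *
                (-(c * (c * l11 p1 + d * l11 p2) + d * (c * l21 p1 + d * l21 p2)) /
                  (c * l11 p0 + d * l21 p0)) =
                -(c * (c * l11 p1 + d * l11 p2) + d * (c * l21 p1 + d * l21 p2)) := by
              field_simp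
            linear_combination hk + (c * l12 p0 + d * l22 p0) * h3
      obtain ⟨s, hs1, hs2⟩ := hex
      let z : Fin 3 → ℂ := s • p0 + c • p1 + d • p2
      have z1 : z 1 = c := by simp [z, p0, p1, p2]
      have z2 : z 2 = d := by simp [z, p0, p1, p2]
      have hl : ∀ l : (Fin 3 → ℂ) →ₗ[ℂ] ℂ, l z = s * l p0 + c * l p1 + d * l p2 := by
        intro l
        simp only [z, map_add, map_smul, smul_eq_mul]
      have hz0 : z ≠ 0 := by
        intro h3
        rcases hcd with h4 | h4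
        · exact h4 (z1 ▸ congrFun h3 1)
        · exact h4 (z2 ▸ congrFun h3 2)
      have g1 : c * l11 z + d * l21 z = 0 := by
        rw [hl, hl]
        linear_combination hs1
      have g2 : c * l12 z + d * l22 z = 0 := by
        rw [hl, hl]
        linear_combination hs2
      refine key z hz0 (by rw [q1, z1, z2, g1]) (by rw [q2, z1, z2, g2]) ?_
      rcases hcd with h3 | h3
      · exact (mul_eq_zero.1 (by linear_combination l22 z * g1 - l21 z * g2 :
          c * (l11 z * l22 z - l12 z * l21 z) = 0)).resolve_left h3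
      · exact (mul_eq_zero.1 (by linear_combination l11 z * g2 - l12 z * g1 :
          d * (l11 z * l22 z - l12 z * l21 z) = 0)).resolve_left h3

end Pool.Agent.P28
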