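import Pool.Agent.P28.Bin

set_option autoImplicit false

/-!
# P28 C05b: the Gorenstein property of a net of conics without common zero

Mathlib and C05a. `S_d` = homogeneous polynomials of degree `d` in `MvPolynomial (Fin 3) ℂ`.
`Q : Fin 3 → S_2` without common zero in `ℂ^3 ∖ 0`, `E` = span of the nine products `X j * Q i`.

PROOF of `net_perfect`: if `δ ∈ S_2` and `X j * δ ∈ E` for `j = 0, 1, 2` then `δ` is in the span of
the `Q i`.
(1) `finrank E ≤ 9 < 10 ≤ finrank S_3` (ten different monomials), so there is a linear functional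
`lam` on `S_3` (or on `MvPolynomial`), not zero on `S_3`, zero on `E`
(`Submodule.exists_le_ker_of_lt_top`, `Submodule.exists_dual_map_eq_bot_of_notMem`).
(2) For `M ∈ S_1`, `M ≠ 0`, there is `g ∈ S_2` with `lam (M g) ≠ 0`. Otherwise let `g ∈ S_3` be
arbitrary. Choose a basis `v1, v2` of the zero plane of `M`, restrict to it: the substitution
`rho : MvPolynomial (Fin 3) ℂ → MvPolynomial (Fin 2) ℂ`, `X k ↦ v1 k X 0 + v2 k X 1`. The
`rho (Q i)` have no common zero, so `rho g = ∑ L_i rho (Q_i)` (`bin_gen`), `L_i = rho (L'_i)` for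
linear forms `L'_i`. `g - ∑ L'_i Q_i` is in the kernel of `rho`, which consists of the multiples of
`M` (after a linear change of variables `M = X 2`; or: eliminate one variable by `M`), so it is
`M g'`, `g' ∈ S_2`, and `lam g = 0`. As `g` was arbitrary, `lam = 0` on `S_3`: contradiction.
(3) So the linear map `Phi : S_2 → ℂ^3`, `g ↦ (lam (X 0 g), lam (X 1 g), lam (X 2 g))`, is
surjective (a linear relation `∑ m_j lam (X j g) = 0` for all `g` is `lam (M g) = 0` with
`M = ∑ m_j X j`), so its kernel has dimension `6 - 3 = 3`. The `Q i` are in the kernel and are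
linearly independent (otherwise two of them span all three and two conics have a common zero;
`hind` is given as a hypothesis here), so they span the kernel; `δ` is in the kernel.
-/

namespace Pool.Agent.P28

open MvPolynomial

private theorem pf_euler {n : ℕ} {f : MvPolynomial (Fin 3) ℂ} (hf : f.IsHomogeneous (n + 1)) :
    ∃ F : Fin 3 → MvPolynomial (Fin 3) ℂ, (∀ a, (F a).IsHomogeneous n) ∧
      f = ∑ a, X a * F a := by
  have hn : ((n : ℂ) + 1) ≠ 0 := by exact_mod_cast Nat.succ_ne_zero n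
  refine ⟨fun a => C ((n : ℂ) + 1)⁻¹ * pderiv a f, fun a => (hf.pderiv (i := a)).C_mul _, ?_⟩
  have h1 := hf.sum_X_mul_pderiv
  have h2 : ∑ a, X a * (C ((n : ℂ) + 1)⁻¹ * pderiv a f) =
      C ((n : ℂ) + 1)⁻¹ * ∑ a, X a * pderiv a f := by
    rw [Finset.mul_sum]
    refine Finset.sum_congr rfl fun a _ => ?_
    ring
  rw [h2, h1, nsmul_eq_mul, ← mul_assoc]
  have h3 : (C ((n : ℂ) + 1)⁻¹ * ((n + 1 : ℕ) : MvPolynomial (Fin 3) ℂ)) = 1 := by
    rw [← map_natCast (C : ℂ →+* MvPolynomial (Fin 3) ℂ), ← map_mul, Nat.cast_add, Nat.cast_one,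
      inv_mul_cancel₀ hn, map_one]
  rw [h3, one_mul]

private theorem pf_zero {f : MvPolynomial (Fin 3) ℂ} (hf : f.IsHomogeneous 0) :
    ∃ c : ℂ, f = C c :=
  ⟨_, totalDegree_eq_zero_iff_eq_C.1 ((totalDegree_zero_iff_isHomogeneous _).2 hf)⟩

private theorem pf_one {f : MvPolynomial (Fin 3) ℂ} (hf : f.IsHomogeneous 1) :
    ∃ c : Fin 3 → ℂ, f = ∑ a, C (c a) * X a := by
  obtain ⟨F, hF, h⟩ := pf_euler (n := 0) hf
  choose c hc using fun a => pf_zero (hF a)
  refine ⟨c, ?_⟩
  rw [h]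
  refine Finset.sum_congr rfl fun a _ => ?_
  rw [hc a, mul_comm]

/-- the six quadratic monomials -/
private noncomputable def mon6 : Fin 6 → MvPolynomial (Fin 3) ℂ :=
  ![X 0 * X 0, X 0 * X 1, X 0 * X 2, X 1 * X 1, X 1 * X 2, X 2 * X 2]

private theorem pf_mon6 (a b : Fin 3) :
    (X a * X b : MvPolynomial (Fin 3) ℂ) ∈ Submodule.span ℂ (Set.range mon6) := by
  apply Submodule.subset_span
  fin_cases a <;> fin_cases b
  · exact ⟨0, rfl⟩
  · exact ⟨1, rfl⟩
  · exact ⟨2, rfl⟩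
  · exact ⟨1, mul_comm _ _⟩
  · exact ⟨3, rfl⟩
  · exact ⟨4, rfl⟩
  · exact ⟨2, mul_comm _ _⟩
  · exact ⟨4, mul_comm _ _⟩
  · exact ⟨5, rfl⟩

private theorem pf_two {f : MvPolynomial (Fin 3) ℂ} (hf : f.IsHomogeneous 2) :
    f ∈ Submodule.span ℂ (Set.range mon6) := by
  obtain ⟨F, hF, h⟩ := pf_euler (n := 1) hf
  choose c hc using fun a => pf_one (hF a)
  rw [h]
  refine Submodule.sum_mem _ fun a _ => ?_
  rw [hc a, Finset.mul_sum]
  refine Submodule.sum_mem _ fun b _ => ?_
  have h1 : X a * (C (c a b) * X b) = c a b • (X a * X b : MvPolynomial (Fin 3) ℂ) := by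
    rw [smul_eq_C_mul]
    ring
  rw [h1]
  exact Submodule.smul_mem _ _ (pf_mon6 a b)

private theorem pf_fin2 : Module.finrank ℂ (homogeneousSubmodule (Fin 3) ℂ 2) ≤ 6 ∧
    Module.Finite ℂ (homogeneousSubmodule (Fin 3) ℂ 2) := by
  have h1 : homogeneousSubmodule (Fin 3) ℂ 2 ≤ Submodule.span ℂ (Set.range mon6) :=
    fun f hf => pf_two hf
  have h2 : Module.Finite ℂ (Submodule.span ℂ (Set.range mon6)) :=
    Module.Finite.span_of_finite ℂ (Set.finite_range mon6)
  refine ⟨(Submodule.finrank_mono h1).trans ?_, Submodule.finiteDimensional_of_le h1⟩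
  have h3 := finrank_range_le_card (R := ℂ) mon6
  rw [Fintype.card_fin] at h3
  exact h3

/-- the exponents of the ten cubic monomials -/
private def ex10 : Fin 10 → Fin 3 → ℕ := ![![3, 0, 0], ![0, 3, 0], ![0, 0, 3], ![2, 1, 0],
  ![2, 0, 1], ![1, 2, 0], ![0, 2, 1], ![1, 0, 2], ![0, 1, 2], ![1, 1, 1]]

private theorem pf_lam (E : Submodule ℂ (MvPolynomial (Fin 3) ℂ)) [Module.Finite ℂ E]
    (hE : Module.finrank ℂ E ≤ 9) :
    ∃ lam : MvPolynomial (Fin 3) ℂ →ₗ[ℂ] ℂ, (∀ e ∈ E, lam e = 0) ∧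
      ∃ s, s.IsHomogeneous 3 ∧ lam s ≠ 0 := by
  obtain ⟨s, hs, hsE⟩ : ∃ s : MvPolynomial (Fin 3) ℂ, s.IsHomogeneous 3 ∧ s ∉ E := by
    by_contra hcon
    push Not at hcon
    let m : Fin 10 → (Fin 3 →₀ ℕ) := fun i => Finsupp.equivFunOnFinite.symm (ex10 i)
    have hm : Function.Injective m := by
      intro i j hij
      have h1 : ex10 i = ex10 j := Finsupp.equivFunOnFinite.symm.injective hij
      clear hij
      revert h1
      revert i j
      decide
    have hmE : ∀ i, (monomial (m i) (1 : ℂ) : MvPolynomial (Fin 3) ℂ) ∈ E := by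
      intro i
      refine hcon _ (isHomogeneous_monomial _ ?_)
      rw [Finsupp.degree_eq_sum, Fin.sum_univ_three]
      change ex10 i 0 + ex10 i 1 + ex10 i 2 = 3
      revert i
      decide
    have hli : LinearIndependent ℂ fun i : Fin 10 =>
        (monomial (m i) (1 : ℂ) : MvPolynomial (Fin 3) ℂ) := by
      have h1 := (basisMonomials (Fin 3) ℂ).linearIndependent.comp m hm
      rw [coe_basisMonomials] at h1
      exact h1
    have hli' : LinearIndependent ℂ fun i : Fin 10 =>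
        (⟨monomial (m i) (1 : ℂ), hmE i⟩ : E) := LinearIndependent.of_comp E.subtype hli
    have h2 := hli'.fintype_card_le_finrank
    rw [Fintype.card_fin] at h2
    omega
  obtain ⟨lam, h1, h2⟩ := Submodule.exists_dual_map_eq_bot_of_notMem hsE inferInstance
  refine ⟨lam, fun e he => ?_, s, hs, h1⟩
  have h3 : lam e ∈ E.map lam := Submodule.mem_map_of_mem he
  rw [h2] at h3
  exact (Submodule.mem_bot ℂ).1 h3

private theorem pf_key (Q : Fin 3 → MvPolynomial (Fin 3) ℂ) (hQ : ∀ i, (Q i).IsHomogeneous 2)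
    (hz : ∀ y : Fin 3 → ℂ, y ≠ 0 → ∃ i, eval y (Q i) ≠ 0)
    (lam : MvPolynomial (Fin 3) ℂ →ₗ[ℂ] ℂ) (hlam : ∀ j i, lam (X j * Q i) = 0)
    (m : Fin 3 → ℂ) (hm : m ≠ 0)
    (hM : ∀ g : MvPolynomial (Fin 3) ℂ, g.IsHomogeneous 2 → lam ((∑ j, C (m j) * X j) * g) = 0)
    (s : MvPolynomial (Fin 3) ℂ) (hs : s.IsHomogeneous 3) : lam s = 0 := by
  obtain ⟨k, hk⟩ : ∃ k, m k ≠ 0 := by
    by_contra h
    push Not at h
    exact hm (funext h)
  set M : MvPolynomial (Fin 3) ℂ := ∑ j, C (m j) * X j with hMd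
  let y : Fin 3 → MvPolynomial (Fin 2) ℂ :=
    k.insertNth (-∑ j, C (m (k.succAbove j) / m k) * X j) (fun j => X j)
  have hyk : y k = -∑ j, C (m (k.succAbove j) / m k) * X j := Fin.insertNth_apply_same _ _ _
  have hyj : ∀ j, y (k.succAbove j) = X j := fun j => Fin.insertNth_apply_succAbove _ _ _ _
  have hcases : ∀ {p : Fin 3 → Prop}, p k → (∀ j, p (k.succAbove j)) → ∀ i, p i := by
    intro p h1 h2 i
    rcases Fin.eq_self_or_eq_succAbove k i with h | ⟨j, h⟩
    · rw [h]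
      exact h1
    · rw [h]
      exact h2 j
  have hy1 : ∀ i, (y i).IsHomogeneous 1 := by
    refine hcases ?_ fun j => ?_
    · rw [hyk]
      exact (IsHomogeneous.sum _ _ _ fun j _ => isHomogeneous_C_mul_X _ _).neg
    · rw [hyj]
      exact isHomogeneous_X _ _
  let ρ : MvPolynomial (Fin 3) ℂ →ₐ[ℂ] MvPolynomial (Fin 2) ℂ := aeval y
  let ι : MvPolynomial (Fin 2) ℂ →ₐ[ℂ] MvPolynomial (Fin 3) ℂ := rename k.succAbove
  have hρ : ∀ {n : ℕ} {f : MvPolynomial (Fin 3) ℂ}, f.IsHomogeneous n →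
      (ρ f).IsHomogeneous n := by
    intro n f hf
    have h1 := hf.aeval y hy1
    rwa [one_mul] at h1
  have hι : ∀ {n : ℕ} {f : MvPolynomial (Fin 2) ℂ}, f.IsHomogeneous n →
      (ι f).IsHomogeneous n := fun hf => hf.rename_isHomogeneous
  have hρι : ∀ f, ρ (ι f) = f := by
    intro f
    change aeval y (rename k.succAbove f) = f
    rw [aeval_rename]
    have h1 : y ∘ k.succAbove = X := funext fun j => hyj j
    rw [h1, aeval_X_left_apply]
  have hdiff : ∀ i, ∃ c : ℂ, X i - ι (y i) = C c * M := by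
    refine hcases ⟨(m k)⁻¹, ?_⟩ fun j => ⟨0, ?_⟩
    · rw [hyk, hMd, Fin.sum_univ_succAbove _ k, map_neg, map_sum, mul_add, ← mul_assoc,
        ← map_mul, inv_mul_cancel₀ hk, map_one, one_mul, sub_neg_eq_add, Finset.mul_sum]
      congr 1
      refine Finset.sum_congr rfl fun j _ => ?_
      have h1 : ι (C (m (k.succAbove j) / m k)) = C ((m k)⁻¹ * m (k.succAbove j)) := by
        rw [div_eq_inv_mul]
        exact rename_C _ _
      have h2 : ι (X j) = X (k.succAbove j) := rename_X _ _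
      rw [map_mul ι, h1, h2, map_mul, mul_assoc]
    · have h2 : ι (X j) = X (k.succAbove j) := rename_X _ _
      rw [hyj, h2, sub_self, map_zero, zero_mul]
  choose c hc using hdiff
  have hιρX : ∀ a, ι (ρ (X a)) = ι (y a) := fun a => congrArg ι (aeval_X y a)
  have step : ∀ {n : ℕ} {f : MvPolynomial (Fin 3) ℂ}, f.IsHomogeneous (n + 1) →
      ∃ F : Fin 3 → MvPolynomial (Fin 3) ℂ, (∀ a, (F a).IsHomogeneous n) ∧
        ∀ g : Fin 3 → MvPolynomial (Fin 3) ℂ, (∀ a, F a - ι (ρ (F a)) = M * g a) →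
          f - ι (ρ f) = M * ∑ a, (C (c a) * F a + ι (y a) * g a) := by
    intro n f hf
    obtain ⟨F, hF, h⟩ := pf_euler hf
    refine ⟨F, hF, fun g hg => ?_⟩
    have h1 : ι (ρ f) = ∑ a, ι (y a) * ι (ρ (F a)) := by
      rw [h, map_sum, map_sum]
      refine Finset.sum_congr rfl fun a _ => ?_
      rw [map_mul, map_mul, hιρX]
    rw [h1]
    conv_lhs => rw [h]
    rw [← Finset.sum_sub_distrib, Finset.mul_sum]
    refine Finset.sum_congr rfl fun a _ => ?_
    have h2 := hc a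
    have h3 := hg a
    linear_combination (F a) * h2 + ι (y a) * h3
  have hom0 : ∀ {f : MvPolynomial (Fin 3) ℂ}, f.IsHomogeneous 0 → f - ι (ρ f) = M * 0 := by
    intro f hf
    obtain ⟨d, rfl⟩ := pf_zero hf
    have h1 : ι (ρ (C d)) = C d := by
      change rename k.succAbove (aeval y (C d)) = C d
      rw [aeval_C, algebraMap_eq, rename_C]
    rw [h1, sub_self, mul_zero]
  have claim : ∀ n : ℕ, ∀ f : MvPolynomial (Fin 3) ℂ, f.IsHomogeneous (n + 1) →
      ∃ g : MvPolynomial (Fin 3) ℂ, g.IsHomogeneous n ∧ f - ι (ρ f) = M * g := by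
    intro n
    induction n with
    | zero =>
      intro f hf
      obtain ⟨F, hF, h⟩ := step hf
      refine ⟨_, ?_, h (fun _ => 0) fun a => hom0 (hF a)⟩
      refine IsHomogeneous.sum _ _ _ fun a _ => ?_
      rw [mul_zero, add_zero]
      exact (hF a).C_mul _
    | succ n ih =>
      intro f hf
      obtain ⟨F, hF, h⟩ := step hf
      choose g hg1 hg2 using fun a => ih (F a) (hF a)
      refine ⟨_, ?_, h g hg2⟩
      refine IsHomogeneous.sum _ _ _ fun a _ => ?_
      refine ((hF a).C_mul _).add ?_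
      have h1 := (hι (hy1 a)).mul (hg1 a)
      rwa [add_comm 1 n] at h1
  have hred : ∀ f : MvPolynomial (Fin 3) ℂ, f.IsHomogeneous 3 → lam f = lam (ι (ρ f)) := by
    intro f hf
    obtain ⟨g, hg1, hg2⟩ := claim 2 f hf
    have h1 := hM g hg1
    rw [← hg2, map_sub, sub_eq_zero] at h1
    exact h1
  obtain ⟨L, hL, hLe⟩ := bin_gen (fun i => ρ (Q i)) (fun i => hρ (hQ i)) (by
    intro v hv
    obtain ⟨i, hi⟩ := hz (fun a => eval v (y a)) (by
      intro h0
      apply hv
      funext j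
      have h1 := congrFun h0 (k.succAbove j)
      rw [hyj, eval_X] at h1
      exact h1)
    refine ⟨i, ?_⟩
    have h1 : eval v (ρ (Q i)) = eval (fun a => eval v (y a)) (Q i) := by
      change eval v (aeval y (Q i)) = _
      rw [map_aeval]
      have h2 : (eval v).comp (algebraMap ℂ (MvPolynomial (Fin 2) ℂ)) = RingHom.id ℂ := by
        ext x
        simp
      rw [h2]
      rfl
    rw [h1]
    exact hi) (ρ s) (hρ hs)
  rw [hred s hs, hLe, map_sum ι, map_sum lam]
  refine Finset.sum_eq_zero fun i _ => ?_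
  have h1 : (ι (L i) * Q i).IsHomogeneous 3 := by
    have h2 := (hι (hL i)).mul (hQ i)
    exact h2
  have h2 := hred _ h1
  rw [map_mul ρ, map_mul ι, hρι] at h2
  rw [map_mul ι, ← h2]
  obtain ⟨d, hd⟩ := pf_one (hι (hL i))
  rw [hd, Finset.sum_mul, map_sum]
  refine Finset.sum_eq_zero fun a _ => ?_
  have h3 : C (d a) * X a * Q i = d a • (X a * Q i) := by
    rw [smul_eq_C_mul]
    ring
  rw [h3, map_smul, hlam, smul_zero]

theorem net_perfect (Q : Fin 3 → MvPolynomial (Fin 3) ℂ) (hQ : ∀ i, (Q i).IsHomogeneous 2)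
    (hz : ∀ y : Fin 3 → ℂ, y ≠ 0 → ∃ i, eval y (Q i) ≠ 0) (hind : LinearIndependent ℂ Q)
    (δ : MvPolynomial (Fin 3) ℂ) (hδ : δ.IsHomogeneous 2)
    (hE : ∀ j, X j * δ ∈ Submodule.span ℂ (Set.range fun p : Fin 3 × Fin 3 =>
      (X p.1 * Q p.2 : MvPolynomial (Fin 3) ℂ))) :
    δ ∈ Submodule.span ℂ (Set.range Q) := by
  set E := Submodule.span ℂ (Set.range fun p : Fin 3 × Fin 3 =>
      (X p.1 * Q p.2 : MvPolynomial (Fin 3) ℂ)) with hEd
  have hEf : Module.Finite ℂ E := Module.Finite.span_of_finite ℂ (Set.finite_range _)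
  have hE9 : Module.finrank ℂ E ≤ 9 := by
    have h3 := finrank_range_le_card (R := ℂ) fun p : Fin 3 × Fin 3 =>
      (X p.1 * Q p.2 : MvPolynomial (Fin 3) ℂ)
    rw [Fintype.card_prod, Fintype.card_fin] at h3
    exact h3
  obtain ⟨lam, hlE, s, hs, hls⟩ := pf_lam E hE9
  have hlam : ∀ j i, lam (X j * Q i) = 0 := fun j i =>
    hlE _ (Submodule.subset_span ⟨(j, i), rfl⟩)
  let S2 := homogeneousSubmodule (Fin 3) ℂ 2
  let Phi : MvPolynomial (Fin 3) ℂ →ₗ[ℂ] (Fin 3 → ℂ) :=
    LinearMap.pi fun j => lam ∘ₗ LinearMap.mulLeft ℂ (X j)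
  have hPhi : ∀ g j, Phi g j = lam (X j * g) := fun _ _ => rfl
  have hsurj : LinearMap.range (Phi.domRestrict S2) = ⊤ := by
    by_contra hcon
    obtain ⟨f, hf, hk⟩ := Submodule.exists_le_ker_of_lt_top _ (lt_top_iff_ne_top.2 hcon)
    have hfv : ∀ v, f v = ∑ j, f (Pi.single j 1) * v j := by
      intro v
      conv_lhs => rw [pi_eq_sum_univ' v]
      rw [map_sum]
      refine Finset.sum_congr rfl fun j _ => ?_
      rw [map_smul, smul_eq_mul, mul_comm]
    apply hls
    refine pf_key Q hQ hz lam hlam (fun j => f (Pi.single j 1)) ?_ ?_ s hs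
    · intro h0
      apply hf
      refine LinearMap.ext fun v => ?_
      rw [hfv v]
      refine Finset.sum_eq_zero fun j _ => ?_
      rw [show f (Pi.single j 1) = 0 from congrFun h0 j, zero_mul]
    · intro g hg
      have h1 : f (Phi g) = 0 := hk ⟨⟨g, hg⟩, rfl⟩
      rw [hfv] at h1
      rw [Finset.sum_mul, map_sum, ← h1]
      refine Finset.sum_congr rfl fun j _ => ?_
      rw [hPhi]
      have h3 : C (f (Pi.single j 1)) * X j * g = f (Pi.single j 1) • (X j * g) := by
        rw [smul_eq_C_mul]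
        ring
      rw [h3, map_smul, smul_eq_mul]
  obtain ⟨h6, hfin⟩ := pf_fin2
  have hrk := LinearMap.finrank_range_add_finrank_ker (Phi.domRestrict S2)
  rw [hsurj, finrank_top, Module.finrank_fin_fun] at hrk
  have hN : Module.finrank ℂ ↥(S2 ⊓ LinearMap.ker Phi) ≤ 3 := by
    have h1 : LinearMap.ker (Phi.domRestrict S2) =
        (LinearMap.ker Phi).comap S2.subtype := rfl
    have h2 := (Submodule.equivSubtypeMap S2 (LinearMap.ker (Phi.domRestrict S2))).finrank_eq
    rw [h1, Submodule.map_comap_subtype] at h2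
    rw [← h2, ← h1]
    change Module.finrank ℂ S2 ≤ 6 at h6
    omega
  have hNfin : Module.Finite ℂ ↥(S2 ⊓ LinearMap.ker Phi) :=
    Submodule.finiteDimensional_of_le (inf_le_left : S2 ⊓ LinearMap.ker Phi ≤ S2)
  have hle : Submodule.span ℂ (Set.range Q) ≤ S2 ⊓ LinearMap.ker Phi := by
    rw [Submodule.span_le]
    rintro _ ⟨i, rfl⟩
    exact ⟨hQ i, LinearMap.mem_ker.2 (funext fun j => hlam j i)⟩
  have hdim : Module.finrank ℂ ↥(Submodule.span ℂ (Set.range Q)) = 3 := by
    rw [finrank_span_eq_card hind, Fintype.card_fin]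
  rw [Submodule.eq_of_le_of_finrank_le hle (by rw [hdim]; exact hN)]
  exact ⟨hδ, LinearMap.mem_ker.2 (funext fun j => hlE _ (hE j))⟩

end Pool.Agent.P28
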