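import Pool.Agent.P28.Adapt
import Pool.Agent.P28.Perf
import Pool.Agent.P28.DetSpan

set_option autoImplicit false

/-!
# P28 C05d: the cubic form `D` of a plane is not of the form `T x x (A x)`

PROOF of `D_not`. Notation of C04: `e = F'.e`, `w = F'.w`, `P = F.P = span (w₀, e₁, e₂)`,
`P' = F'.P = span (w₀, w₁, w₂)`; both planes of the smooth cubic. Suppose
`D F x = T x x (A x)` for `x ∈ P`. By `adapted_D` there is `A'` with
`a * F'.y 0 x * detB x = T x x (A' x)` for `x ∈ P`, `a = T e₀ w₀ w₀`.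
`a ≠ 0`: `T w₀ w₀ z = 0` for `z ∈ P` and `z ∈ P'`, and `V = span (e₀) + P + P'`; smoothness at
`w₀` gives `T w₀ w₀ e₀ ≠ 0`.
Translate to polynomials in `y = (y0, y1, y2)`, `x = y0 w₀ + y1 e₁ + y2 e₂`:
`B_ij = ∑_k y_k (T e_i w_j (coefficient vectors))` linear forms with
`eval y B_ij = T e_i w_j (x + pi x) = T e_i w_j (2 y0 w₀ + y1 e₁ + y2 e₂)`,
`Q_0 = T x x e₀` (a quadratic form in `y`), `Q_1 = X 1 * B11 + X 2 * B21`,
`Q_2 = X 1 * B12 + X 2 * B22`; `eval y Q_j = T x x w_j` (see C04).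
They have no common zero: at a common zero `y ≠ 0` the vector `x ≠ 0` has `T x x z = 0` for
`z = e₀, w₁, w₂` and for `z ∈ P`: singular.
`A' x = al e₀ + be w₁ + ga w₂ + (element of P)` with linear forms `al, be, ga` in `y`, so
`T x x (A' x) = al Q_0 + be Q_1 + ga Q_2`. Hence (polynomials with equal values are equal,
`MvPolynomial.funext`) `X 0 * δ = ∑ L_i Q_i` with `δ = B11 B22 - B12 B21` (divide by `a`).
Moreover `X 1 * δ = B22 Q_1 - B21 Q_2`, `X 2 * δ = - B12 Q_1 + B11 Q_2`. So `X j * δ` is in the span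
of the `X p * Q q` (linear forms are combinations of `X 0, X 1, X 2`) for all `j`; `net_perfect`
(with `net_indep`) gives `δ ∈ span Q`, against `det_not_span`.
-/

namespace Pool.Agent.P28

open Module

variable {V : Type} [AddCommGroup V] [Module ℂ V]

/-- the vector of `P` with coordinates `y` -/
private noncomputable def dnVec (F' : Fr V) (y : Fin 3 → ℂ) : V :=
  y 0 • F'.w 0 + y 1 • F'.e 1 + y 2 • F'.e 2

/-- a linear form as a polynomial -/
private noncomputable def dnL (F' : Fr V) (φ : V →ₗ[ℂ] ℂ) : MvPolynomial (Fin 3) ℂ :=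
  φ (F'.w 0) • MvPolynomial.X 0 + φ (F'.e 1) • MvPolynomial.X 1 + φ (F'.e 2) • MvPolynomial.X 2

private theorem dnL_eval (F' : Fr V) (φ : V →ₗ[ℂ] ℂ) (y : Fin 3 → ℂ) :
    MvPolynomial.eval y (dnL F' φ) = φ (dnVec F' y) := by
  rw [dnL, dnVec]
  simp only [map_add, MvPolynomial.smul_eval, MvPolynomial.eval_X, map_smul, smul_eq_mul]
  ring

private theorem dnL_hom (F' : Fr V) (φ : V →ₗ[ℂ] ℂ) : (dnL F' φ).IsHomogeneous 1 := by
  rw [dnL]
  have h : ∀ (c : ℂ) (i : Fin 3), (c • MvPolynomial.X i : MvPolynomial (Fin 3) ℂ).IsHomogeneous 1 :=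
    fun c i => by
      rw [MvPolynomial.smul_eq_C_mul]
      exact (MvPolynomial.isHomogeneous_X ℂ i).C_mul c
  exact ((h _ _).add (h _ _)).add (h _ _)

/-- the bilinear form `T x x v` as a polynomial -/
private noncomputable def dnQ (C : Cub V) (F' : Fr V) (v : V) : MvPolynomial (Fin 3) ℂ :=
  MvPolynomial.X 0 * dnL F' (C.T (F'.w 0) v) + MvPolynomial.X 1 * dnL F' (C.T (F'.e 1) v) +
    MvPolynomial.X 2 * dnL F' (C.T (F'.e 2) v)

private theorem dnQ_eval (C : Cub V) (F' : Fr V) (v : V) (y : Fin 3 → ℂ) :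
    MvPolynomial.eval y (dnQ C F' v) = C.T (dnVec F' y) (dnVec F' y) v := by
  rw [dnQ]
  simp only [map_add, map_mul, MvPolynomial.eval_X, dnL_eval]
  have h : ∀ x, C.T (dnVec F' y) v x = y 0 * C.T (F'.w 0) v x + y 1 * C.T (F'.e 1) v x +
      y 2 * C.T (F'.e 2) v x := fun x => by
    rw [dnVec]
    simp only [map_add, map_smul, LinearMap.add_apply, LinearMap.smul_apply, smul_eq_mul]
  rw [C.cy (dnVec F' y) (dnVec F' y) v, h]

private theorem dn_mul_hom {p q : MvPolynomial (Fin 3) ℂ} (hp : p.IsHomogeneous 1)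
    (hq : q.IsHomogeneous 1) : (p * q).IsHomogeneous 2 := hp.mul hq

private theorem dnQ_hom (C : Cub V) (F' : Fr V) (v : V) : (dnQ C F' v).IsHomogeneous 2 := by
  rw [dnQ]
  exact ((dn_mul_hom (MvPolynomial.isHomogeneous_X ℂ 0) (dnL_hom _ _)).add
    (dn_mul_hom (MvPolynomial.isHomogeneous_X ℂ 1) (dnL_hom _ _))).add
    (dn_mul_hom (MvPolynomial.isHomogeneous_X ℂ 2) (dnL_hom _ _))

/-- the linear form `T (e i) (w j) (x + pi x)` -/
private noncomputable def dnB (C : Cub V) (F' : Fr V) (i j : Fin 3) : V →ₗ[ℂ] ℂ :=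
  (C.T (F'.e i) (F'.w j)).comp (LinearMap.id + F'.pi)

private theorem dnB_apply (C : Cub V) (F' : Fr V) (i j : Fin 3) (x : V) :
    dnB C F' i j x = C.T (F'.e i) (F'.w j) (x + F'.pi x) := rfl

private theorem dn_pi (F' : Fr V) (y : Fin 3 → ℂ) : F'.pi (dnVec F' y) = y 0 • F'.w 0 := by
  rw [dnVec, map_add, map_add, map_smul, map_smul, map_smul, F'.pi_w, F'.pi_e, F'.pi_e,
    smul_zero, smul_zero, add_zero, add_zero]

private theorem dn_y0 (F' : Fr V) (y : Fin 3 → ℂ) : F'.y 0 (dnVec F' y) = y 0 := by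
  rw [dnVec, map_add, map_add, map_smul, map_smul, map_smul, F'.y_w, F'.y_e, F'.y_e, if_pos rfl,
    smul_zero, smul_zero, add_zero, add_zero, smul_eq_mul, mul_one]

private theorem dn_l (F' : Fr V) (y : Fin 3 → ℂ) :
    F'.l 1 (dnVec F' y) = y 1 ∧ F'.l 2 (dnVec F' y) = y 2 := by
  constructor
  · rw [dnVec, map_add, map_add, map_smul, map_smul, map_smul, F'.l_w, F'.l_e, F'.l_e, if_pos rfl,
      if_neg (by decide), smul_zero, smul_zero, add_zero, zero_add, smul_eq_mul, mul_one]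
  · rw [dnVec, map_add, map_add, map_smul, map_smul, map_smul, F'.l_w, F'.l_e, F'.l_e, if_pos rfl,
      if_neg (by decide), smul_zero, smul_zero, add_zero, zero_add, smul_eq_mul, mul_one]

private theorem dn_vec_ne (F' : Fr V) {y : Fin 3 → ℂ} (hy : y ≠ 0) : dnVec F' y ≠ 0 := by
  intro h
  apply hy
  funext i
  fin_cases i
  · have h1 := dn_y0 F' y
    rw [h, map_zero] at h1
    exact h1.symm
  · have h1 := (dn_l F' y).1
    rw [h, map_zero] at h1
    exact h1.symm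
  · have h1 := (dn_l F' y).2
    rw [h, map_zero] at h1
    exact h1.symm

/-- an expansion of a linear form which vanishes at `w 0, e 1, e 2` -/
private theorem dn_expand (F' : Fr V) (φ : V →ₗ[ℂ] ℂ) (h0 : φ (F'.w 0) = 0)
    (h1 : φ (F'.e 1) = 0) (h2 : φ (F'.e 2) = 0) (z : V) :
    φ z = F'.l 0 z * φ (F'.e 0) + F'.y 1 z * φ (F'.w 1) + F'.y 2 z * φ (F'.w 2) := by
  conv_lhs => rw [F'.expand z, Fr.pi, LinearMap.sum_apply]
  simp only [map_add, LinearMap.smulRight_apply, map_smul, Fin.sum_univ_three, h0, h1, h2,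
    smul_eq_mul]
  ring

private theorem dn_mem_span (F' : Fr V) (Q : Fin 3 → MvPolynomial (Fin 3) ℂ) (φ : V →ₗ[ℂ] ℂ)
    (k : Fin 3) : dnL F' φ * Q k ∈ Submodule.span ℂ (Set.range fun p : Fin 3 × Fin 3 =>
      (MvPolynomial.X p.1 * Q p.2 : MvPolynomial (Fin 3) ℂ)) := by
  have h : ∀ (c : ℂ) (i : Fin 3), (c • MvPolynomial.X i : MvPolynomial (Fin 3) ℂ) * Q k ∈
      Submodule.span ℂ (Set.range fun p : Fin 3 × Fin 3 =>
      (MvPolynomial.X p.1 * Q p.2 : MvPolynomial (Fin 3) ℂ)) := fun c i => by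
    rw [smul_mul_assoc]
    exact Submodule.smul_mem _ _ (Submodule.subset_span ⟨(i, k), rfl⟩)
  rw [dnL, add_mul, add_mul]
  exact Submodule.add_mem _ (Submodule.add_mem _ (h _ _) (h _ _)) (h _ _)

theorem D_not (C : Cub V) (hs : C.Smooth) {F F' : Fr V} (h : Adapted F F')
    (hP : ∀ x ∈ F.P, ∀ y ∈ F.P, ∀ z ∈ F.P, C.T x y z = 0)
    (hP' : ∀ x ∈ F'.P, ∀ y ∈ F'.P, ∀ z ∈ F'.P, C.T x y z = 0) :
    ¬ ∃ A : V →ₗ[ℂ] V, ∀ x ∈ F.P, F.D C x = C.T x x (A x) := by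
  rintro ⟨A, hA⟩
  obtain ⟨A1, hA1⟩ := adapted_D C h hP hP'
  have m0 : F'.w 0 ∈ F.P := by
    have := F.w_mem 0
    rw [h.hw] at this
    exact this
  have m1 : F'.e 1 ∈ F.P := by
    have := F.w_mem 1
    rw [h.hw] at this
    exact this
  have m2 : F'.e 2 ∈ F.P := by
    have := F.w_mem 2
    rw [h.hw] at this
    exact this
  have mv : ∀ y, dnVec F' y ∈ F.P := fun y =>
    F.P.add_mem (F.P.add_mem (F.P.smul_mem _ m0) (F.P.smul_mem _ m1)) (F.P.smul_mem _ m2)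
  have hexp : ∀ (y : Fin 3 → ℂ) (z : V), C.T (dnVec F' y) (dnVec F' y) z =
      F'.l 0 z * C.T (dnVec F' y) (dnVec F' y) (F'.e 0) +
      F'.y 1 z * C.T (dnVec F' y) (dnVec F' y) (F'.w 1) +
      F'.y 2 z * C.T (dnVec F' y) (dnVec F' y) (F'.w 2) := fun y z =>
    dn_expand F' (C.T (dnVec F' y) (dnVec F' y)) (hP _ (mv y) _ (mv y) _ m0)
      (hP _ (mv y) _ (mv y) _ m1) (hP _ (mv y) _ (mv y) _ m2) z
  -- `a ≠ 0`
  have ha : C.T (F'.e 0) (F'.w 0) (F'.w 0) ≠ 0 := by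
    intro ha
    have hw0 : F'.w 0 ≠ 0 := by
      rw [← F'.w_eq]
      exact F'.B.ne_zero _
    obtain ⟨z, hz⟩ := hs _ hw0
    apply hz
    rw [dn_expand F' (C.T (F'.w 0) (F'.w 0)) (hP _ m0 _ m0 _ m0) (hP _ m0 _ m0 _ m1)
      (hP _ m0 _ m0 _ m2) z, ← C.rot (F'.e 0), ha,
      hP' _ (F'.w_mem 0) _ (F'.w_mem 0) _ (F'.w_mem 1),
      hP' _ (F'.w_mem 0) _ (F'.w_mem 0) _ (F'.w_mem 2)]
    ring
  obtain ⟨a, hadef⟩ : ∃ a, C.T (F'.e 0) (F'.w 0) (F'.w 0) = a := ⟨_, rfl⟩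
  rw [hadef] at ha
  -- the forms
  obtain ⟨b11, hb11⟩ : ∃ p, p = dnL F' (dnB C F' 1 1) := ⟨_, rfl⟩
  obtain ⟨b12, hb12⟩ : ∃ p, p = dnL F' (dnB C F' 1 2) := ⟨_, rfl⟩
  obtain ⟨b21, hb21⟩ : ∃ p, p = dnL F' (dnB C F' 2 1) := ⟨_, rfl⟩
  obtain ⟨b22, hb22⟩ : ∃ p, p = dnL F' (dnB C F' 2 2) := ⟨_, rfl⟩
  have g11 : b11.IsHomogeneous 1 := hb11 ▸ dnL_hom _ _
  have g12 : b12.IsHomogeneous 1 := hb12 ▸ dnL_hom _ _
  have g21 : b21.IsHomogeneous 1 := hb21 ▸ dnL_hom _ _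
  have g22 : b22.IsHomogeneous 1 := hb22 ▸ dnL_hom _ _
  obtain ⟨Q, hQ⟩ : ∃ Q : Fin 3 → MvPolynomial (Fin 3) ℂ, Q = ![dnQ C F' (F'.e 0),
    MvPolynomial.X 1 * b11 + MvPolynomial.X 2 * b21,
    MvPolynomial.X 1 * b12 + MvPolynomial.X 2 * b22] := ⟨_, rfl⟩
  have hQ0 : Q 0 = dnQ C F' (F'.e 0) := by rw [hQ]; rfl
  have hQ1 : Q 1 = MvPolynomial.X 1 * b11 + MvPolynomial.X 2 * b21 := by rw [hQ]; rfl
  have hQ2 : Q 2 = MvPolynomial.X 1 * b12 + MvPolynomial.X 2 * b22 := by rw [hQ]; rfl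
  have hX := fun i : Fin 3 => MvPolynomial.isHomogeneous_X ℂ i
  have hhom : ∀ i, (Q i).IsHomogeneous 2 := by
    intro i
    fin_cases i
    · change (Q 0).IsHomogeneous 2
      rw [hQ0]
      exact dnQ_hom _ _ _
    · change (Q 1).IsHomogeneous 2
      rw [hQ1]
      exact (dn_mul_hom (hX 1) g11).add (dn_mul_hom (hX 2) g21)
    · change (Q 2).IsHomogeneous 2
      rw [hQ2]
      exact (dn_mul_hom (hX 1) g12).add (dn_mul_hom (hX 2) g22)
  -- values
  have hval : ∀ (j : Fin 3) (y : Fin 3 → ℂ),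
      C.T (dnVec F' y) (dnVec F' y) (F'.w j) =
        y 1 * dnB C F' 1 j (dnVec F' y) + y 2 * dnB C F' 2 j (dnVec F' y) := by
    intro j y
    have k0 : C.T (F'.w 0) (F'.w 0) (F'.w j) = 0 :=
      hP' _ (F'.w_mem 0) _ (F'.w_mem 0) _ (F'.w_mem j)
    have k1 : C.T (F'.w 0) (F'.e 1) (F'.w j) = C.T (F'.e 1) (F'.w j) (F'.w 0) := by
      rw [C.rot]
    have k2 : C.T (F'.w 0) (F'.e 2) (F'.w j) = C.T (F'.e 2) (F'.w j) (F'.w 0) := by
      rw [C.rot]
    have k3 : C.T (F'.e 1) (F'.w 0) (F'.w j) = C.T (F'.e 1) (F'.w j) (F'.w 0) := by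
      rw [C.cy]
    have k4 : C.T (F'.e 2) (F'.w 0) (F'.w j) = C.T (F'.e 2) (F'.w j) (F'.w 0) := by
      rw [C.cy]
    have k5 : C.T (F'.e 1) (F'.e 1) (F'.w j) = C.T (F'.e 1) (F'.w j) (F'.e 1) := by
      rw [C.cy]
    have k6 : C.T (F'.e 1) (F'.e 2) (F'.w j) = C.T (F'.e 1) (F'.w j) (F'.e 2) := by
      rw [C.cy]
    have k7 : C.T (F'.e 2) (F'.e 1) (F'.w j) = C.T (F'.e 2) (F'.w j) (F'.e 1) := by
      rw [C.cy]
    have k8 : C.T (F'.e 2) (F'.e 2) (F'.w j) = C.T (F'.e 2) (F'.w j) (F'.e 2) := by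
      rw [C.cy]
    rw [dnB_apply, dnB_apply, dn_pi, dnVec]
    simp only [map_add, map_smul, LinearMap.add_apply, LinearMap.smul_apply, smul_eq_mul, k0, k1,
      k2, k3, k4, k5, k6, k7, k8]
    ring
  have v0 : ∀ y, MvPolynomial.eval y (Q 0) = C.T (dnVec F' y) (dnVec F' y) (F'.e 0) := fun y => by
    rw [hQ0, dnQ_eval]
  have v1 : ∀ y, MvPolynomial.eval y (Q 1) = C.T (dnVec F' y) (dnVec F' y) (F'.w 1) := fun y => by
    rw [hQ1, hval, hb11, hb21]
    simp only [map_add, map_mul, MvPolynomial.eval_X, dnL_eval]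
  have v2 : ∀ y, MvPolynomial.eval y (Q 2) = C.T (dnVec F' y) (dnVec F' y) (F'.w 2) := fun y => by
    rw [hQ2, hval, hb12, hb22]
    simp only [map_add, map_mul, MvPolynomial.eval_X, dnL_eval]
  have hz : ∀ y : Fin 3 → ℂ, y ≠ 0 → ∃ i, MvPolynomial.eval y (Q i) ≠ 0 := by
    intro y hy
    by_contra hcon
    push Not at hcon
    obtain ⟨z, hz⟩ := hs _ (dn_vec_ne F' hy)
    apply hz
    rw [hexp, ← v0, ← v1, ← v2, hcon, hcon, hcon]
    ring
  -- the main identity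
  have key : a • (MvPolynomial.X 0 * (b11 * b22 - b12 * b21)) =
      dnL F' ((F'.l 0).comp (A - A1)) * Q 0 + dnL F' ((F'.y 1).comp (A - A1)) * Q 1 +
        dnL F' ((F'.y 2).comp (A - A1)) * Q 2 := by
    refine MvPolynomial.funext fun y => ?_
    have h1 := hA1 _ (mv y)
    rw [hA _ (mv y), hadef, dn_y0, ← dnB_apply, ← dnB_apply, ← dnB_apply, ← dnB_apply] at h1
    have h2 : C.T (dnVec F' y) (dnVec F' y) ((A - A1) (dnVec F' y)) =
        a * y 0 * (dnB C F' 1 1 (dnVec F' y) * dnB C F' 2 2 (dnVec F' y) -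
          dnB C F' 1 2 (dnVec F' y) * dnB C F' 2 1 (dnVec F' y)) := by
      rw [LinearMap.sub_apply, map_sub]
      linear_combination h1
    rw [hexp y] at h2
    simp only [map_add, map_mul, map_sub, MvPolynomial.smul_eval, MvPolynomial.eval_X, dnL_eval,
      v0, v1, v2, hb11, hb12, hb21, hb22, LinearMap.comp_apply]
    linear_combination -h2
  have hE : ∀ j, MvPolynomial.X j * (b11 * b22 - b12 * b21) ∈
      Submodule.span ℂ (Set.range fun p : Fin 3 × Fin 3 =>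
      (MvPolynomial.X p.1 * Q p.2 : MvPolynomial (Fin 3) ℂ)) := by
    intro j
    fin_cases j
    · change MvPolynomial.X 0 * (b11 * b22 - b12 * b21) ∈ _
      have e : MvPolynomial.X 0 * (b11 * b22 - b12 * b21) =
          a⁻¹ • (a • (MvPolynomial.X 0 * (b11 * b22 - b12 * b21))) := by
        rw [smul_smul, inv_mul_cancel₀ ha, one_smul]
      rw [e, key]
      exact Submodule.smul_mem _ _ (Submodule.add_mem _ (Submodule.add_mem _
        (dn_mem_span _ _ _ _) (dn_mem_span _ _ _ _)) (dn_mem_span _ _ _ _))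
    · change MvPolynomial.X 1 * (b11 * b22 - b12 * b21) ∈ _
      have e : MvPolynomial.X 1 * (b11 * b22 - b12 * b21) = b22 * Q 1 - b21 * Q 2 := by
        rw [hQ1, hQ2]
        ring
      rw [e, hb22, hb21]
      exact Submodule.sub_mem _ (dn_mem_span _ _ _ _) (dn_mem_span _ _ _ _)
    · change MvPolynomial.X 2 * (b11 * b22 - b12 * b21) ∈ _
      have e : MvPolynomial.X 2 * (b11 * b22 - b12 * b21) = b11 * Q 2 - b12 * Q 1 := by
        rw [hQ1, hQ2]
        ring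
      rw [e, hb11, hb12]
      exact Submodule.sub_mem _ (dn_mem_span _ _ _ _) (dn_mem_span _ _ _ _)
  refine det_not_span Q hhom hz b11 b12 b21 b22 g11 g12 g21 g22 hQ1 hQ2 ?_
  exact net_perfect Q hhom hz (net_indep Q hhom hz) _
    ((dn_mul_hom g11 g22).sub (dn_mul_hom g12 g21)) hE

end Pool.Agent.P28
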