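import Pool.Agent.P28.CubInj

set_option autoImplicit false

/-!
# P28 C06a: dimension of the space of cubic forms in 6 variables

`cubic_dep`: more than 56 functions of the form `x ↦ t x x x` (`t` trilinear) on a 6-dimensional
space are linearly dependent. PROOF. Let `b` be a basis of `V` (`Fin 6`), `x_i` the coordinates. The
function `x ↦ t x x x` is `∑_{i,j,k} x_i x_j x_k t (b i) (b j) (b k)`, so it is in the span of the
functions `x_i x_j x_k`, `i ≤ j ≤ k` (sort the indices), of which there are `56`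
(`decide` for the number of triples, or `Sym (Fin 6) 3`, `Sym.card_sym_eq_choose`). A linearly
independent family in a space spanned by a finite set of `56` elements has at most `56` members.

`rel_exists`: for 21 functions `N_j`, `x ↦ t_j x x x`, there are `c ≠ 0` and a linear map `A` with
`∑ c_j N_j x = T x x (A x)` for all `x`. PROOF. Apply `cubic_dep` to the `21 + 36 = 57` functions
`N_j` and `x ↦ T x x (E_pq x)` (`E_pq` a basis of `V →ₗ V`, e.g.
`E_pq x = (b.coord p x) • b q`): relation `∑ c_j N_j x + ∑ a_pq T x x (E_pq x) = 0`, not all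
coefficients zero. `A = - ∑ a_pq E_pq`. If `c = 0` then `T x x (A x) = 0`, so `A = 0` (`cub_inj`)
and all `a_pq = 0`: contradiction.
-/

namespace Pool.Agent.P28

open Module

variable {V : Type} [AddCommGroup V] [Module ℂ V] [FiniteDimensional ℂ V]

theorem cubic_dep (hV : finrank ℂ V = 6) {ι : Type} [Fintype ι] (hι : 56 < Fintype.card ι)
    (g : ι → V → ℂ)
    (hg : ∀ i, ∃ t : V →ₗ[ℂ] V →ₗ[ℂ] V →ₗ[ℂ] ℂ, ∀ x, g i x = t x x x) :
    ∃ c : ι → ℂ, c ≠ 0 ∧ ∀ x, ∑ i, c i * g i x = 0 := by
  classical
  let b : Basis (Fin 6) ℂ V := finBasisOfFinrankEq ℂ V hV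
  let mon : Sym (Fin 6) 3 → V → ℂ := fun s x =>
    ((s : Multiset (Fin 6)).map (fun i => b.repr x i)).prod
  have hcard : Fintype.card (Set.range mon) ≤ 56 := by
    refine (Fintype.card_range_le mon).trans ?_
    rw [Sym.card_sym_eq_choose]
    simp only [Fintype.card_fin]
    decide
  have hmem : ∀ i, g i ∈ Submodule.span ℂ (Set.range mon) := by
    intro i
    obtain ⟨t, ht⟩ := hg i
    have h1 : g i = ∑ p : Fin 6, ∑ q : Fin 6, ∑ r : Fin 6,
        t (b p) (b q) (b r) • mon ⟨{p, q, r}, rfl⟩ := by
      funext x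
      rw [ht x]
      have hm : ∀ p q r : Fin 6, mon ⟨{p, q, r}, rfl⟩ x
          = b.repr x p * (b.repr x q * b.repr x r) := by
        intro p q r
        change (Multiset.map (fun i => b.repr x i) {p, q, r}).prod = _
        simp
      have hx : ∀ L : V →ₗ[ℂ] ℂ, L x = ∑ p, b.repr x p * L (b p) := by
        intro L
        conv_lhs => rw [← b.sum_repr x]
        simp only [map_sum, map_smul, smul_eq_mul]
      simp only [Finset.sum_apply, Pi.smul_apply, smul_eq_mul, hm]
      have e1 : t x x x = ∑ p, b.repr x p * t (b p) x x := hx ((t.flip x).flip x)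
      have e2 : ∀ p, t (b p) x x = ∑ q, b.repr x q * t (b p) (b q) x :=
        fun p => hx ((t (b p)).flip x)
      rw [e1]
      refine Finset.sum_congr rfl fun p _ => ?_
      rw [e2, Finset.mul_sum]
      refine Finset.sum_congr rfl fun q _ => ?_
      rw [hx (t (b p) (b q)), Finset.mul_sum, Finset.mul_sum]
      refine Finset.sum_congr rfl fun r _ => ?_
      ring
    rw [h1]
    refine Submodule.sum_mem _ fun p _ => Submodule.sum_mem _ fun q _ =>
      Submodule.sum_mem _ fun r _ => Submodule.smul_mem _ _ (Submodule.subset_span ⟨_, rfl⟩)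
  have hnot : ¬ LinearIndependent ℂ g := by
    intro hli
    have h1 := linearIndependent_le_span_aux' g hli (Set.range mon) (by
      rintro _ ⟨i, rfl⟩
      exact hmem i)
    omega
  obtain ⟨c, hc, i, hi⟩ := Fintype.not_linearIndependent_iff.1 hnot
  refine ⟨c, fun h => hi (by rw [h]; rfl), fun x => ?_⟩
  have h2 := congrFun hc x
  simpa [Finset.sum_apply] using h2

theorem rel_exists (C : Cub V) (hs : C.Smooth) (hV : finrank ℂ V = 6) (N : Fin 21 → V → ℂ)
    (hN : ∀ i, ∃ t : V →ₗ[ℂ] V →ₗ[ℂ] V →ₗ[ℂ] ℂ, ∀ x, N i x = t x x x) :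
    ∃ c : Fin 21 → ℂ, c ≠ 0 ∧ ∃ A : V →ₗ[ℂ] V, ∀ x, ∑ i, c i * N i x = C.T x x (A x) := by
  classical
  let b : Basis (Fin 6) ℂ V := finBasisOfFinrankEq ℂ V hV
  let E : Fin 6 × Fin 6 → (V →ₗ[ℂ] V) := fun pq => (b.coord pq.1).smulRight (b pq.2)
  let g : Fin 21 ⊕ (Fin 6 × Fin 6) → V → ℂ := Sum.elim N (fun pq x => C.T x x (E pq x))
  obtain ⟨c, hc, hrel⟩ := cubic_dep hV (ι := Fin 21 ⊕ (Fin 6 × Fin 6)) (by simp) g (by
    rintro (j | pq)
    · exact hN j
    · refine ⟨C.T.compr₂ (LinearMap.lcomp ℂ ℂ (E pq)), fun x => ?_⟩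
      rfl)
  refine ⟨fun j => c (Sum.inl j), ?_, -∑ pq, c (Sum.inr pq) • E pq, ?_⟩
  swap
  · intro x
    have h1 := hrel x
    rw [Fintype.sum_sum_type] at h1
    simp only [g, Sum.elim_inl, Sum.elim_inr] at h1
    simp only [LinearMap.neg_apply, LinearMap.sum_apply, LinearMap.smul_apply, map_neg, map_sum,
      map_smul, smul_eq_mul]
    linear_combination h1
  · intro hzero
    apply hc
    have hA : (-∑ pq, c (Sum.inr pq) • E pq : V →ₗ[ℂ] V) = 0 := by
      apply cub_inj C hs
      intro x
      have h1 := hrel x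
      rw [Fintype.sum_sum_type] at h1
      simp only [g, Sum.elim_inl, Sum.elim_inr] at h1
      simp only [LinearMap.neg_apply, LinearMap.sum_apply, LinearMap.smul_apply, map_neg, map_sum,
        map_smul, smul_eq_mul]
      have h2 : ∑ j, c (Sum.inl j) * N j x = 0 := by
        refine Finset.sum_eq_zero fun j _ => ?_
        rw [show c (Sum.inl j) = 0 from congrFun hzero j, zero_mul]
      linear_combination h2 - h1
    have hinr : ∀ p q, c (Sum.inr (p, q)) = 0 := by
      intro p q
      have h1 := congrArg (fun L : V →ₗ[ℂ] V => b.repr (L (b p)) q) hA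
      simp only [LinearMap.neg_apply, LinearMap.sum_apply, LinearMap.smul_apply, map_neg, map_sum,
        map_smul, LinearMap.zero_apply, map_zero, E, LinearMap.smulRight_apply, Basis.coord_apply,
        Basis.repr_self, Finsupp.coe_neg, Finsupp.coe_zero, Pi.neg_apply, Pi.zero_apply,
        Finsupp.coe_finsetSum, Finset.sum_apply, Finsupp.coe_smul, Pi.smul_apply, smul_eq_mul,
        neg_eq_zero, Fintype.sum_prod_type] at h1
      rw [Finset.sum_eq_single p, Finset.sum_eq_single q] at h1
      · simpa using h1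
      · intro q' _ hq
        simp [hq]
      · simp
      · intro p' _ hp
        refine Finset.sum_eq_zero fun q' _ => ?_
        simp [Ne.symm hp]
      · simp
    funext i
    rcases i with j | ⟨p, q⟩
    · exact congrFun hzero j
    · exact hinr p q

end Pool.Agent.P28
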