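import Mathlib

set_option autoImplicit false

/-!
# P28 F08: algebraic closure in `ℂ`, generic numbers (Mathlib only)

`acl K W` is the set of complex numbers which are algebraic over the field generated by `K` and
`W`.
PROOFS. `acl_root`: `algebraicClosure` of a field in `ℂ` is algebraically closed in `ℂ`: a root of
a nonzero polynomial with coefficients in it is algebraic over it, hence over the base field
(`IsAlgebraic.trans`, `algebraicClosure.isAlgebraic ...`, `IsIntegral`). `acl_quad`: `acl_root`
for `A X^2 + B X + D`.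
`exists_K`: `Subfield.closure s` of a countable set is countable (cardinality bound in Mathlib, or
through `Algebra.adjoin` / `IntermediateField.adjoin`).
`generic`: `ℂ` has uncountable transcendence degree over the countable field `K` (a transcendence
basis `B` over `K` gives `ℂ` algebraic over `K(B)`, so `# ℂ ≤ max(ℵ₀, # B)`), so there are four
algebraically independent elements `z i` over `K`. If all `z i` were algebraic over `K(w0,w1,w2)`,
then the transcendence degree of `acl K (range w)` over `K` would be at least four, but it has a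
transcendence basis contained in `{w0, w1, w2}` (Mathlib: `AlgebraicIndependent`, matroid of
algebraic independence, `exists_isTranscendenceBasis_subset`, `IsTranscendenceBasis` cardinality,
`Algebra.trdeg`). (Or by hand: choose `z 0` transcendental over `K`, `z 1` transcendental over
`K(z 0)`, ..., and use the exchange property.)
-/

namespace Pool.Agent.P28

/-- The algebraic closure in `ℂ` of the field generated by `K` and `W`. -/
noncomputable def acl (K : Subfield ℂ) (W : Set ℂ) : Subfield ℂ :=
  (algebraicClosure (Subfield.closure ((K : Set ℂ) ∪ W)) ℂ).toSubfield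

private theorem mem_acl {K : Subfield ℂ} {W : Set ℂ} {z : ℂ} :
    z ∈ acl K W ↔ IsAlgebraic (Subfield.closure ((K : Set ℂ) ∪ W)) z :=
  mem_algebraicClosure_iff

private theorem alg_mono {F G : Subfield ℂ} (h : F ≤ G) {z : ℂ} (hz : IsAlgebraic F z) :
    IsAlgebraic G z := by
  let : Algebra F G := (Subfield.inclusion h).toAlgebra
  have : IsScalarTower F G ℂ := IsScalarTower.of_algebraMap_eq fun _ => rfl
  exact hz.tower_top G

private theorem mem_acl_of_mem {K : Subfield ℂ} {W : Set ℂ} {z : ℂ}
    (h : z ∈ Subfield.closure ((K : Set ℂ) ∪ W)) : z ∈ acl K W :=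
  mem_acl.2 (isAlgebraic_algebraMap (⟨z, h⟩ : Subfield.closure ((K : Set ℂ) ∪ W)))

theorem le_acl (K : Subfield ℂ) (W : Set ℂ) : K ≤ acl K W := fun _ hz =>
  mem_acl_of_mem (Subfield.subset_closure (Or.inl hz))

theorem subset_acl (K : Subfield ℂ) (W : Set ℂ) : W ⊆ acl K W := fun _ hz =>
  mem_acl_of_mem (Subfield.subset_closure (Or.inr hz))

theorem acl_mono (K : Subfield ℂ) {W W' : Set ℂ} (h : W ⊆ W') : acl K W ≤ acl K W' :=
  fun _ hz => mem_acl.2 (alg_mono (Subfield.closure_mono (Set.union_subset_union_right _ h))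
    (mem_acl.1 hz))

theorem acl_root (K : Subfield ℂ) (W : Set ℂ) {p : Polynomial ℂ} (hp : p ≠ 0)
    (hc : ∀ i, p.coeff i ∈ acl K W) {z : ℂ} (hz : p.IsRoot z) : z ∈ acl K W := by
  obtain ⟨F, hF⟩ : ∃ F : Subfield ℂ, F = Subfield.closure ((K : Set ℂ) ∪ W) := ⟨_, rfl⟩
  have hmem : ∀ x : ℂ, x ∈ acl K W ↔ x ∈ algebraicClosure F ℂ := by
    intro x
    rw [hF]
    rfl
  rw [hmem]
  have hlift : p ∈ Polynomial.lifts (algebraMap (algebraicClosure F ℂ) ℂ) := by
    rw [Polynomial.lifts_iff_coeff_lifts]
    intro n
    exact ⟨⟨p.coeff n, (hmem _).1 (hc n)⟩, rfl⟩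
  obtain ⟨q, hq⟩ := Polynomial.mem_lifts _ |>.1 hlift
  have halg : IsAlgebraic (algebraicClosure F ℂ) z := by
    refine ⟨q, ?_, ?_⟩
    · rintro rfl
      rw [Polynomial.map_zero] at hq
      exact hp hq.symm
    · rw [Polynomial.aeval_def, ← Polynomial.eval_map, hq]
      exact hz
  have h1 : z ∈ algebraicClosure (algebraicClosure F ℂ) ℂ := mem_algebraicClosure_iff.2 halg
  rw [algebraicClosure.algebraicClosure_eq_bot, IntermediateField.mem_bot] at h1
  obtain ⟨y, hy⟩ := h1
  rw [← hy]
  exact y.2

theorem acl_quad (K : Subfield ℂ) (W : Set ℂ) {a b c z : ℂ} (ha : a ∈ acl K W)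
    (hb : b ∈ acl K W) (hc : c ∈ acl K W) (h0 : a ≠ 0 ∨ b ≠ 0 ∨ c ≠ 0)
    (hz : a * z ^ 2 + b * z + c = 0) : z ∈ acl K W := by
  have hcoeff : ∀ i, (Polynomial.C a * Polynomial.X ^ 2 + Polynomial.C b * Polynomial.X +
      Polynomial.C c : Polynomial ℂ).coeff i = if i = 0 then c else if i = 1 then b else
        if i = 2 then a else 0 := by
    intro i
    rcases i with _ | _ | _ | i
    · simp
    · simp [Polynomial.coeff_C]
    · simp
    · simp
  refine acl_root K W (p := Polynomial.C a * Polynomial.X ^ 2 + Polynomial.C b * Polynomial.X +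
    Polynomial.C c) ?_ ?_ ?_
  · intro h
    have h1 : ∀ i, (Polynomial.C a * Polynomial.X ^ 2 + Polynomial.C b * Polynomial.X +
      Polynomial.C c : Polynomial ℂ).coeff i = 0 := by
      intro i
      rw [h, Polynomial.coeff_zero]
    rcases h0 with h0 | h0 | h0
    · exact h0 (by simpa [hcoeff] using h1 2)
    · exact h0 (by simpa [hcoeff] using h1 1)
    · exact h0 (by simpa [hcoeff] using h1 0)
  · intro i
    rw [hcoeff]
    split_ifs
    · exact hc
    · exact hb
    · exact ha
    · exact (acl K W).zero_mem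
  · rw [Polynomial.IsRoot, ← hz]
    simp

theorem exists_K (s : Set ℂ) (hs : s.Countable) : ∃ K : Subfield ℂ, (K : Set ℂ).Countable ∧
    s ⊆ K := by
  refine ⟨Subfield.closure s, ?_, Subfield.subset_closure⟩
  have h1 : Cardinal.mk (Subfield.closure s) ≤ max (Cardinal.mk s) Cardinal.aleph0 :=
    Subfield.cardinalMk_closure_le_max s
  rw [← Set.countable_coe_iff, ← Cardinal.mk_le_aleph0_iff]
  refine h1.trans (max_le ?_ le_rfl)
  rw [Cardinal.mk_le_aleph0_iff]
  exact hs.to_subtype

private theorem acl_closure (K : Subfield ℂ) (W : Set ℂ) {z : ℂ} (hz : z ∈ acl K W) :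
    z ∈ (AlgebraicIndependent.matroid K ℂ).closure W := by
  rw [AlgebraicIndependent.matroid_closure_eq]
  change IsAlgebraic (Algebra.adjoin K W) z
  have h1 : IsAlgebraic (IntermediateField.adjoin K W) z := by
    refine alg_mono (G := (IntermediateField.adjoin K W).toSubfield) ?_ (mem_acl.1 hz)
    rw [Subfield.closure_le]
    rintro x (hx | hx)
    · exact (IntermediateField.adjoin K W).algebraMap_mem ⟨x, hx⟩
    · exact IntermediateField.subset_adjoin K W hx
  open scoped IntermediateField.algebraAdjoinAdjoin in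
  exact (IsFractionRing.isAlgebraic_iff (Algebra.adjoin K W) (IntermediateField.adjoin K W) ℂ).2 h1

theorem generic (K : Subfield ℂ) (hK : (K : Set ℂ).Countable) :
    ∃ z : Fin 4 → ℂ, ∀ w : Fin 3 → ℂ, ∃ i, z i ∉ acl K (Set.range w) := by
  obtain ⟨s, hs⟩ := exists_isTranscendenceBasis K ℂ
  have hinf : Infinite s := by
    by_contra hfin
    rw [not_infinite_iff_finite] at hfin
    have h1 := IsAlgClosed.cardinal_le_max_transcendence_basis' _ hs
    have h2 : Cardinal.mk K ≤ Cardinal.aleph0 := by
      rw [Cardinal.mk_le_aleph0_iff]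
      exact hK.to_subtype
    have h3 : Cardinal.mk s ≤ Cardinal.aleph0 := by
      rw [Cardinal.mk_le_aleph0_iff]
      exact Finite.to_countable
    have h4 : Cardinal.mk ℂ ≤ Cardinal.aleph0 := h1.trans (max_le (max_le h2 h3) le_rfl)
    rw [Cardinal.mk_complex] at h4
    exact absurd h4 (not_le.2 Cardinal.aleph0_lt_continuum)
  let z : Fin 4 → ℂ := fun i => (Infinite.natEmbedding s i : ℂ)
  have hz : Function.Injective z := fun i j h =>
    Fin.val_injective ((Infinite.natEmbedding s).injective (Subtype.val_injective h))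
  refine ⟨z, fun w => ?_⟩
  by_contra hcon
  push Not at hcon
  have hI : (AlgebraicIndependent.matroid K ℂ).Indep (Set.range z) := by
    have h1 : (AlgebraicIndependent.matroid K ℂ).Indep s := hs.1
    refine h1.subset ?_
    rintro _ ⟨i, rfl⟩
    exact (Infinite.natEmbedding s i).2
  have hsub : Set.range z ⊆ (AlgebraicIndependent.matroid K ℂ).closure (Set.range w) := by
    rintro _ ⟨i, rfl⟩
    exact acl_closure K _ (hcon i)
  have h1 := hI.encard_le_eRk_of_subset hsub
  rw [Matroid.eRk_closure_eq] at h1
  have h2 := h1.trans ((AlgebraicIndependent.matroid K ℂ).eRk_le_encard (Set.range w))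
  have h3 : 4 ≤ (Set.range z).encard := by
    simpa using hz.encard_range
  have h4 : (Set.range w).encard ≤ 3 := by
    rw [← Set.image_univ]
    refine (Set.encard_image_le _ _).trans ?_
    simp
  exact absurd ((h3.trans h2).trans h4) (by decide)

end Pool.Agent.P28
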