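import Pool.Agent.P28.FTr

set_option autoImplicit false

/-!
# P28 F10: generic pairs of lines

`z : Fin 4 → ℂ` is generic over `K`: not all `z i` are in `acl K {w0, w1, w2}`. The lines are
`a 0 + z 0 * a 1 + z 1 * a 2 = 0` and `b 0 + z 2 * b 1 + z 3 * b 2 = 0`.

PROOFS. `lin_mem`: if `a ≠ 0` has its coordinates in `E = acl K W` and
`a 0 + z0 * a 1 + z1 * a 2 = 0` then there is `t` with `z0, z1 ∈ acl K (insert t W)`: if `a 2 ≠ 0`
take `t = z0`, `z1 = -(a 0 + z0 a 1) / a 2`; if `a 2 = 0` then `a 1 ≠ 0` (otherwise `a = 0`),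
`z0 = -a 0 / a 1`, `t = z1`. (Use `acl_mono`, `subset_acl`.)
`prop_mem`: if a linear functional with values `f i` at the basis vectors, all in `E`, not all
zero, vanishes on `{b : b 0 + z2 b 1 + z3 b 2 = 0}`, then `f 1 = z2 f 0`, `f 2 = z3 f 0`
(vectors `(-z2, 1, 0)`, `(-z3, 0, 1)`), so `f 0 ≠ 0` and `z2, z3 ∈ E`.
`no_fibre1`: assume `gg a a b = 0` for all `b` of the line. `a i ≠ 0` for some `i`; replace `a`
by `a / a i`; then the coordinates of `a` are in `acl K {w0, w1}` (`w0, w1` = the other two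
coordinates). `f k = gg a a (Pi.single k 1)` are in it and not all zero (`gg_ne`), so `z 2, z 3`
are in `acl K {w0, w1}` (`prop_mem`), and `z 0, z 1 ∈ acl K {t, w0, w1}` (`lin_mem`):
contradiction. `no_fibre2`: the same with `hh_ne`.
`transv`: assume `(l, m) ≠ 0`. `S_tr` for `s`: `w0, w1, c, d`. Put `A = c s.1`, `B = d s.2` (with
coordinates in `E0 = acl K {w0, w1}`), `l' = l d`, `m' = m c` up to a common factor: the
hypotheses become (multiply by `c d^2` and `c^2 d`): `2 (l d) gg A a B + (m c) hh a B B = 0` on the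
first line, `(l d) gg A A b + 2 (m c) hh A B b = 0` on the second line. So we may assume that `s`
has its coordinates in `E0`. Let `p a = 2 l gg s.1 a s.2 + m hh a s.2 s.2`,
`p' b = l gg s.1 s.1 b + 2 m hh s.1 s.2 b`.
If `p ≠ 0` and `p' ≠ 0` (as functionals): the ratio `t = l / m` (or `m / l` if `m = 0`), `E =
acl K {t, w0, w1}`: `p / m`, `p' / m` have values in `E` at the basis vectors; `prop_mem` gives
`z 0, z 1 ∈ E` and `z 2, z 3 ∈ E`: contradiction.
If `p = 0`: `l ≠ 0` (otherwise `m hh a s.2 s.2 = 0` for all `a`, `hh_ne`), and `m / l ∈ E0`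
(choose `k` with `hh e_k s.2 s.2 ≠ 0`: `m / l = -2 gg s.1 e_k s.2 / hh e_k s.2 s.2`). `p' ≠ 0`
by `S_smooth`. So `z 2, z 3 ∈ E0` (`prop_mem` for `p' / l`), and `z 0, z 1 ∈ acl K {t, w0, w1}`
(`lin_mem` for `a = s.1`): contradiction. If `p' = 0`: symmetric (`m ≠ 0` by `gg_ne`, `l / m ∈ E0`,
`z 0, z 1 ∈ E0`, `lin_mem` for `s.2`).
-/

namespace Pool.Agent.P28

open Module

theorem lin_mem (K : Subfield ℂ) (W : Set ℂ) {a : Fin 3 → ℂ} (ha : a ≠ 0)
    (hE : ∀ i, a i ∈ acl K W) {z0 z1 : ℂ} (h : a 0 + z0 * a 1 + z1 * a 2 = 0) :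
    ∃ t, z0 ∈ acl K (insert t W) ∧ z1 ∈ acl K (insert t W) := by
  by_cases h2 : a 2 = 0
  · have h1 : a 1 ≠ 0 := by
      intro h1
      apply ha
      have h0 : a 0 = 0 := by
        rw [h1, h2] at h
        linear_combination h
      funext i
      fin_cases i
      · exact h0
      · exact h1
      · exact h2
    refine ⟨z1, ?_, subset_acl K _ (Set.mem_insert _ _)⟩
    have e : z0 = -a 0 / a 1 := by
      rw [h2] at h
      field_simp
      linear_combination h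
    have hm := acl_mono K (Set.subset_insert z1 W)
    rw [e]
    exact (acl K _).div_mem ((acl K _).neg_mem (hm (hE 0))) (hm (hE 1))
  · refine ⟨z0, subset_acl K _ (Set.mem_insert _ _), ?_⟩
    have e : z1 = -(a 0 + z0 * a 1) / a 2 := by
      field_simp
      linear_combination h
    have hm := acl_mono K (Set.subset_insert z0 W)
    rw [e]
    exact (acl K _).div_mem ((acl K _).neg_mem ((acl K _).add_mem (hm (hE 0))
      ((acl K _).mul_mem (subset_acl K _ (Set.mem_insert _ _)) (hm (hE 1))))) (hm (hE 2))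

private theorem FBad_basis {f : (Fin 3 → ℂ) →ₗ[ℂ] ℂ} (hf : f ≠ 0) :
    ∃ k, f (Pi.single k 1) ≠ 0 := by
  by_contra hcon
  push Not at hcon
  apply hf
  ext k
  simpa using hcon k

theorem prop_mem (E : Subfield ℂ) {f : (Fin 3 → ℂ) →ₗ[ℂ] ℂ} (hf : f ≠ 0)
    (hE : ∀ i, f (Pi.single i 1) ∈ E) {z2 z3 : ℂ}
    (h : ∀ b : Fin 3 → ℂ, b 0 + z2 * b 1 + z3 * b 2 = 0 → f b = 0) : z2 ∈ E ∧ z3 ∈ E := by
  have h1 : f (Pi.single 1 1) = z2 * f (Pi.single 0 1) := by
    have := h ((-z2) • Pi.single 0 1 + Pi.single 1 1) (by simp)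
    rw [map_add, map_smul, smul_eq_mul] at this
    linear_combination this
  have h2 : f (Pi.single 2 1) = z3 * f (Pi.single 0 1) := by
    have := h ((-z3) • Pi.single 0 1 + Pi.single 2 1) (by simp)
    rw [map_add, map_smul, smul_eq_mul] at this
    linear_combination this
  have h0 : f (Pi.single 0 1) ≠ 0 := by
    intro h0
    obtain ⟨k, hk⟩ := FBad_basis hf
    apply hk
    fin_cases k
    · exact h0
    · exact h1.trans (by rw [h0, mul_zero])
    · exact h2.trans (by rw [h0, mul_zero])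
  have e2 : z2 = f (Pi.single 1 1) / f (Pi.single 0 1) := by
    rw [h1]
    field_simp
  have e3 : z3 = f (Pi.single 2 1) / f (Pi.single 0 1) := by
    rw [h2]
    field_simp
  exact ⟨e2 ▸ E.div_mem (hE 1) (hE 0), e3 ▸ E.div_mem (hE 2) (hE 0)⟩

private theorem FBad_contra {K : Subfield ℂ} {z : Fin 4 → ℂ}
    (hz : ∀ w : Fin 3 → ℂ, ∃ i, z i ∉ acl K (Set.range w)) (t w0 w1 : ℂ)
    (h0 : z 0 ∈ acl K {t, w0, w1}) (h1 : z 1 ∈ acl K {t, w0, w1})
    (h2 : z 2 ∈ acl K {t, w0, w1}) (h3 : z 3 ∈ acl K {t, w0, w1}) : False := by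
  obtain ⟨i, hi⟩ := hz ![t, w0, w1]
  have hsub : ({t, w0, w1} : Set ℂ) ⊆ Set.range ![t, w0, w1] := by
    rintro x (rfl | rfl | rfl)
    · exact ⟨0, rfl⟩
    · exact ⟨1, rfl⟩
    · exact ⟨2, rfl⟩
  apply hi
  apply acl_mono K hsub
  fin_cases i
  · exact h0
  · exact h1
  · exact h2
  · exact h3

private theorem FBad_single (E : Subfield ℂ) (k i : Fin 3) :
    (Pi.single k 1 : Fin 3 → ℂ) i ∈ E := by
  rw [Pi.single_apply]
  split_ifs
  · exact E.one_mem
  · exact E.zero_mem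

private theorem FBad_norm (K : Subfield ℂ) {a : Fin 3 → ℂ} (ha : a ≠ 0) :
    ∃ c w0 w1 : ℂ, c ≠ 0 ∧ ∀ i, (c • a) i ∈ acl K {w0, w1} := by
  have h0 : ∃ j, a j ≠ 0 := by
    by_contra hcon
    push Not at hcon
    exact ha (funext hcon)
  obtain ⟨j, hj⟩ := h0
  fin_cases j
  · refine ⟨(a 0)⁻¹, (a 0)⁻¹ * a 1, (a 0)⁻¹ * a 2, inv_ne_zero hj, fun i => ?_⟩
    fin_cases i
    · change (a 0)⁻¹ * a 0 ∈ _
      rw [inv_mul_cancel₀ (show a 0 ≠ 0 from hj)]
      exact (acl K _).one_mem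
    · exact subset_acl K _ (Or.inl rfl)
    · exact subset_acl K _ (Or.inr rfl)
  · refine ⟨(a 1)⁻¹, (a 1)⁻¹ * a 0, (a 1)⁻¹ * a 2, inv_ne_zero hj, fun i => ?_⟩
    fin_cases i
    · exact subset_acl K _ (Or.inl rfl)
    · change (a 1)⁻¹ * a 1 ∈ _
      rw [inv_mul_cancel₀ (show a 1 ≠ 0 from hj)]
      exact (acl K _).one_mem
    · exact subset_acl K _ (Or.inr rfl)
  · refine ⟨(a 2)⁻¹, (a 2)⁻¹ * a 0, (a 2)⁻¹ * a 1, inv_ne_zero hj, fun i => ?_⟩
    fin_cases i
    · exact subset_acl K _ (Or.inl rfl)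
    · exact subset_acl K _ (Or.inr rfl)
    · change (a 2)⁻¹ * a 2 ∈ _
      rw [inv_mul_cancel₀ (show a 2 ≠ 0 from hj)]
      exact (acl K _).one_mem

private noncomputable def FBad_p (C : Cub VV) (s : VV) (l m : ℂ) : (Fin 3 → ℂ) →ₗ[ℂ] ℂ where
  toFun a := 2 * l * gg C s.1 a s.2 + m * hh C a s.2 s.2
  map_add' x y := by
    rw [gg_add_m, hh_add_l]
    ring
  map_smul' t x := by
    rw [gg_smul_m, hh_smul_l, RingHom.id_apply, smul_eq_mul]
    ring

private noncomputable def FBad_q (C : Cub VV) (s : VV) (l m : ℂ) : (Fin 3 → ℂ) →ₗ[ℂ] ℂ where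
  toFun b := l * gg C s.1 s.1 b + 2 * m * hh C s.1 s.2 b
  map_add' x y := by
    rw [gg_add_r, hh_add_r]
    ring
  map_smul' t x := by
    rw [gg_smul_r, hh_smul_r, RingHom.id_apply, smul_eq_mul]
    ring

private theorem FBad_p_apply (C : Cub VV) (s : VV) (l m : ℂ) (a : Fin 3 → ℂ) :
    FBad_p C s l m a = 2 * l * gg C s.1 a s.2 + m * hh C a s.2 s.2 := rfl

private theorem FBad_q_apply (C : Cub VV) (s : VV) (l m : ℂ) (b : Fin 3 → ℂ) :
    FBad_q C s l m b = l * gg C s.1 s.1 b + 2 * m * hh C s.1 s.2 b := rfl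

private theorem FBad_two (E : Subfield ℂ) : (2 : ℂ) ∈ E := by
  have := E.add_mem E.one_mem E.one_mem
  rwa [one_add_one_eq_two] at this

private theorem FBad_p_mem (C : Cub VV) {K : Subfield ℂ} (hK : KC K C) {E : Subfield ℂ}
    (hE : K ≤ E) {s : VV} (h1 : ∀ i, s.1 i ∈ E) (h2 : ∀ i, s.2 i ∈ E) {l m : ℂ} (hl : l ∈ E)
    (hm : m ∈ E) (k : Fin 3) : FBad_p C s l m (Pi.single k 1) ∈ E := by
  rw [FBad_p_apply]
  exact E.add_mem (E.mul_mem (E.mul_mem (FBad_two E) hl)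
    (gg_mem C hK hE h1 (FBad_single E k) h2)) (E.mul_mem hm (hh_mem C hK hE (FBad_single E k)
      h2 h2))

private theorem FBad_q_mem (C : Cub VV) {K : Subfield ℂ} (hK : KC K C) {E : Subfield ℂ}
    (hE : K ≤ E) {s : VV} (h1 : ∀ i, s.1 i ∈ E) (h2 : ∀ i, s.2 i ∈ E) {l m : ℂ} (hl : l ∈ E)
    (hm : m ∈ E) (k : Fin 3) : FBad_q C s l m (Pi.single k 1) ∈ E := by
  rw [FBad_q_apply]
  exact E.add_mem (E.mul_mem hl (gg_mem C hK hE h1 h1 (FBad_single E k)))
    (E.mul_mem (E.mul_mem (FBad_two E) hm) (hh_mem C hK hE h1 h2 (FBad_single E k)))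

private theorem FBad_line {a : Fin 3 → ℂ} {x y : ℂ} (c : ℂ) (h : a 0 + x * a 1 + y * a 2 = 0) :
    (c • a) 0 + x * (c • a) 1 + y * (c • a) 2 = 0 := by
  simp only [Pi.smul_apply, smul_eq_mul]
  linear_combination c * h

theorem no_fibre1 (C : Cub VV) (h : Std2 C) (hS : C.Smooth) {K : Subfield ℂ} (hK : KC K C)
    {z : Fin 4 → ℂ} (hz : ∀ w : Fin 3 → ℂ, ∃ i, z i ∉ acl K (Set.range w)) {a : Fin 3 → ℂ}
    (ha : a ≠ 0) (h0 : a 0 + z 0 * a 1 + z 1 * a 2 = 0) :
    ∃ b : Fin 3 → ℂ, b 0 + z 2 * b 1 + z 3 * b 2 = 0 ∧ gg C a a b ≠ 0 := by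
  by_contra hcon
  push Not at hcon
  obtain ⟨c, w0, w1, hc, hw⟩ := FBad_norm K ha
  have ha' : c • a ≠ 0 := smul_ne_zero hc ha
  have hE := le_acl K {w0, w1}
  have hf : FBad_q C (c • a, 0) 1 0 ≠ 0 := by
    obtain ⟨b, hb⟩ := gg_ne C h hS ha'
    intro h1
    have h2 := FBad_q_apply C (c • a, 0) 1 0 b
    rw [h1, LinearMap.zero_apply] at h2
    exact hb (by linear_combination -h2)
  have hm := prop_mem (acl K {w0, w1}) hf (FBad_q_mem C hK hE hw
    (fun i => (acl K _).zero_mem) (acl K _).one_mem (acl K _).zero_mem) (z2 := z 2)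
    (z3 := z 3) (fun b hb => by
      have h1 := hcon b hb
      rw [FBad_q_apply]
      change 1 * gg C (c • a) (c • a) b + 2 * 0 * hh C (c • a) 0 b = 0
      rw [gg_smul_l, gg_smul_m, h1]
      ring)
  obtain ⟨t, ht0, ht1⟩ := lin_mem K {w0, w1} ha' hw (FBad_line c h0)
  have hsub := acl_mono K (Set.subset_insert t ({w0, w1} : Set ℂ))
  exact FBad_contra hz t w0 w1 ht0 ht1 (hsub hm.1) (hsub hm.2)

theorem no_fibre2 (C : Cub VV) (h : Std2 C) (hS : C.Smooth) {K : Subfield ℂ} (hK : KC K C)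
    {z : Fin 4 → ℂ} (hz : ∀ w : Fin 3 → ℂ, ∃ i, z i ∉ acl K (Set.range w)) {b : Fin 3 → ℂ}
    (hb : b ≠ 0) (h0 : b 0 + z 2 * b 1 + z 3 * b 2 = 0) :
    ∃ a : Fin 3 → ℂ, a 0 + z 0 * a 1 + z 1 * a 2 = 0 ∧ hh C a b b ≠ 0 := by
  by_contra hcon
  push Not at hcon
  obtain ⟨c, w0, w1, hc, hw⟩ := FBad_norm K hb
  have hb' : c • b ≠ 0 := smul_ne_zero hc hb
  have hE := le_acl K {w0, w1}
  have hf : FBad_p C (0, c • b) 0 1 ≠ 0 := by
    obtain ⟨a, ha⟩ := hh_ne C h hS hb'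
    intro h1
    have h2 := FBad_p_apply C (0, c • b) 0 1 a
    rw [h1, LinearMap.zero_apply] at h2
    exact ha (by linear_combination -h2)
  have hm := prop_mem (acl K {w0, w1}) hf (FBad_p_mem C hK hE
    (fun i => (acl K _).zero_mem) hw (acl K _).zero_mem (acl K _).one_mem) (z2 := z 0)
    (z3 := z 1) (fun a ha => by
      have h1 := hcon a ha
      rw [FBad_p_apply]
      change 2 * 0 * gg C 0 a (c • b) + 1 * hh C a (c • b) (c • b) = 0
      rw [hh_smul_m, hh_smul_r, h1]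
      ring)
  obtain ⟨t, ht0, ht1⟩ := lin_mem K {w0, w1} hb' hw (FBad_line c h0)
  have hsub := acl_mono K (Set.subset_insert t ({w0, w1} : Set ℂ))
  exact FBad_contra hz t w0 w1 (hsub hm.1) (hsub hm.2) ht0 ht1

private theorem FBad_transv (C : Cub VV) (h : Std2 C) (hS : C.Smooth) {K : Subfield ℂ}
    (hK : KC K C) {z : Fin 4 → ℂ} (hz : ∀ w : Fin 3 → ℂ, ∃ i, z i ∉ acl K (Set.range w))
    {s : VV} (hs : SP C s) (h1 : s.1 0 + z 0 * s.1 1 + z 1 * s.1 2 = 0)
    (h2 : s.2 0 + z 2 * s.2 1 + z 3 * s.2 2 = 0) {w0 w1 : ℂ}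
    (hw1 : ∀ i, s.1 i ∈ acl K {w0, w1}) (hw2 : ∀ i, s.2 i ∈ acl K {w0, w1}) {l m : ℂ}
    (hp : ∀ a : Fin 3 → ℂ, a 0 + z 0 * a 1 + z 1 * a 2 = 0 → FBad_p C s l m a = 0)
    (hq : ∀ b : Fin 3 → ℂ, b 0 + z 2 * b 1 + z 3 * b 2 = 0 → FBad_q C s l m b = 0) :
    l = 0 ∧ m = 0 := by
  by_contra hlm
  have hE := le_acl K {w0, w1}
  -- scaling of the two functionals
  have scp : ∀ κ : ℂ, ∀ a, FBad_p C s (κ * l) (κ * m) a = κ * FBad_p C s l m a := by
    intro κ a
    rw [FBad_p_apply, FBad_p_apply]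
    ring
  have scq : ∀ κ : ℂ, ∀ a, FBad_q C s (κ * l) (κ * m) a = κ * FBad_q C s l m a := by
    intro κ a
    rw [FBad_q_apply, FBad_q_apply]
    ring
  have scp0 : ∀ κ : ℂ, κ ≠ 0 → FBad_p C s l m ≠ 0 → FBad_p C s (κ * l) (κ * m) ≠ 0 := by
    intro κ hκ hne h0
    apply hne
    refine LinearMap.ext fun a => ?_
    have h3 := scp κ a
    rw [h0, LinearMap.zero_apply] at h3
    rw [LinearMap.zero_apply]
    exact (mul_eq_zero.mp h3.symm).resolve_left hκ
  have scq0 : ∀ κ : ℂ, κ ≠ 0 → FBad_q C s l m ≠ 0 → FBad_q C s (κ * l) (κ * m) ≠ 0 := by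
    intro κ hκ hne h0
    apply hne
    refine LinearMap.ext fun a => ?_
    have h3 := scq κ a
    rw [h0, LinearMap.zero_apply] at h3
    rw [LinearMap.zero_apply]
    exact (mul_eq_zero.mp h3.symm).resolve_left hκ
  have smooth : FBad_p C s l m = 0 → FBad_q C s l m = 0 → False := by
    intro hp0 hq0
    apply hlm
    refine S_smooth C h hS hs (fun a => ?_) (fun b => ?_)
    · have h3 := FBad_p_apply C s l m a
      rw [hp0, LinearMap.zero_apply] at h3
      linear_combination -h3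
    · have h3 := FBad_q_apply C s l m b
      rw [hq0, LinearMap.zero_apply] at h3
      linear_combination -h3
  by_cases hp0 : FBad_p C s l m = 0
  · have hq0 : FBad_q C s l m ≠ 0 := fun hq0 => smooth hp0 hq0
    obtain ⟨a, ha⟩ := hh_ne C h hS hs.2.1
    have hl : l ≠ 0 := by
      intro hl
      have h3 := FBad_p_apply C s l m a
      rw [hp0, LinearMap.zero_apply, hl] at h3
      have h4 : m * hh C a s.2 s.2 = 0 := by linear_combination -h3
      rcases mul_eq_zero.mp h4 with h5 | h5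
      · exact hlm ⟨hl, h5⟩
      · exact ha h5
    have hf : FBad_p C s 0 1 ≠ 0 := by
      intro h3
      have h4 := FBad_p_apply C s 0 1 a
      rw [h3, LinearMap.zero_apply] at h4
      exact ha (by linear_combination -h4)
    obtain ⟨k, hk⟩ := FBad_basis hf
    have hk' : hh C (Pi.single k 1) s.2 s.2 ≠ 0 := by
      intro h3
      apply hk
      rw [FBad_p_apply, h3]
      ring
    have hml : l⁻¹ * m ∈ acl K {w0, w1} := by
      have h3 := FBad_p_apply C s l m (Pi.single k 1)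
      rw [hp0, LinearMap.zero_apply] at h3
      have e : l⁻¹ * m = -(2 * gg C s.1 (Pi.single k 1) s.2) / hh C (Pi.single k 1) s.2 s.2 := by
        field_simp
        linear_combination -h3
      rw [e]
      exact (acl K _).div_mem ((acl K _).neg_mem ((acl K _).mul_mem (FBad_two _)
        (gg_mem C hK hE hw1 (FBad_single _ k) hw2))) (hh_mem C hK hE (FBad_single _ k) hw2 hw2)
    have hll : l⁻¹ * l ∈ acl K {w0, w1} := by
      rw [inv_mul_cancel₀ hl]
      exact (acl K _).one_mem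
    have hm := prop_mem (acl K {w0, w1}) (scq0 _ (inv_ne_zero hl) hq0)
      (FBad_q_mem C hK hE hw1 hw2 hll hml) (z2 := z 2) (z3 := z 3) (fun b hb => by
        rw [scq, hq b hb, mul_zero])
    obtain ⟨t, ht0, ht1⟩ := lin_mem K {w0, w1} hs.1 hw1 h1
    have hsub := acl_mono K (Set.subset_insert t ({w0, w1} : Set ℂ))
    exact FBad_contra hz t w0 w1 ht0 ht1 (hsub hm.1) (hsub hm.2)
  by_cases hq0 : FBad_q C s l m = 0
  · obtain ⟨b, hb⟩ := gg_ne C h hS hs.1
    have hmne : m ≠ 0 := by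
      intro hm0
      have h3 := FBad_q_apply C s l m b
      rw [hq0, LinearMap.zero_apply, hm0] at h3
      have h4 : l * gg C s.1 s.1 b = 0 := by linear_combination -h3
      rcases mul_eq_zero.mp h4 with h5 | h5
      · exact hlm ⟨h5, hm0⟩
      · exact hb h5
    have hf : FBad_q C s 1 0 ≠ 0 := by
      intro h3
      have h4 := FBad_q_apply C s 1 0 b
      rw [h3, LinearMap.zero_apply] at h4
      exact hb (by linear_combination -h4)
    obtain ⟨k, hk⟩ := FBad_basis hf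
    have hk' : gg C s.1 s.1 (Pi.single k 1) ≠ 0 := by
      intro h3
      apply hk
      rw [FBad_q_apply, h3]
      ring
    have hml : m⁻¹ * l ∈ acl K {w0, w1} := by
      have h3 := FBad_q_apply C s l m (Pi.single k 1)
      rw [hq0, LinearMap.zero_apply] at h3
      have e : m⁻¹ * l = -(2 * hh C s.1 s.2 (Pi.single k 1)) / gg C s.1 s.1 (Pi.single k 1) := by
        field_simp
        linear_combination -h3
      rw [e]
      exact (acl K _).div_mem ((acl K _).neg_mem ((acl K _).mul_mem (FBad_two _)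
        (hh_mem C hK hE hw1 hw2 (FBad_single _ k)))) (gg_mem C hK hE hw1 hw1 (FBad_single _ k))
    have hmm : m⁻¹ * m ∈ acl K {w0, w1} := by
      rw [inv_mul_cancel₀ hmne]
      exact (acl K _).one_mem
    have hm := prop_mem (acl K {w0, w1}) (scp0 _ (inv_ne_zero hmne) hp0)
      (FBad_p_mem C hK hE hw1 hw2 hml hmm) (z2 := z 0) (z3 := z 1) (fun a ha => by
        rw [scp, hp a ha, mul_zero])
    obtain ⟨t, ht0, ht1⟩ := lin_mem K {w0, w1} hs.2.1 hw2 h2
    have hsub := acl_mono K (Set.subset_insert t ({w0, w1} : Set ℂ))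
    exact FBad_contra hz t w0 w1 (hsub hm.1) (hsub hm.2) ht0 ht1
  -- both functionals are not zero
  have hκ : ∃ κ t : ℂ, κ ≠ 0 ∧ κ * l ∈ acl K {t, w0, w1} ∧ κ * m ∈ acl K {t, w0, w1} := by
    by_cases hm0 : m = 0
    · have hl : l ≠ 0 := fun hl => hlm ⟨hl, hm0⟩
      refine ⟨l⁻¹, 0, inv_ne_zero hl, ?_, ?_⟩
      · rw [inv_mul_cancel₀ hl]
        exact (acl K _).one_mem
      · rw [hm0, mul_zero]
        exact (acl K _).zero_mem
    · refine ⟨m⁻¹, m⁻¹ * l, inv_ne_zero hm0, subset_acl K _ (Or.inl rfl), ?_⟩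
      rw [inv_mul_cancel₀ hm0]
      exact (acl K _).one_mem
  obtain ⟨κ, t, hκ0, hκl, hκm⟩ := hκ
  have hsub := acl_mono K (Set.subset_insert t ({w0, w1} : Set ℂ))
  have hE' := le_acl K {t, w0, w1}
  have hm1 := prop_mem (acl K {t, w0, w1}) (scp0 κ hκ0 hp0)
    (FBad_p_mem C hK hE' (fun i => hsub (hw1 i)) (fun i => hsub (hw2 i)) hκl hκm)
    (z2 := z 0) (z3 := z 1) (fun a ha => by rw [scp, hp a ha, mul_zero])
  have hm2 := prop_mem (acl K {t, w0, w1}) (scq0 κ hκ0 hq0)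
    (FBad_q_mem C hK hE' (fun i => hsub (hw1 i)) (fun i => hsub (hw2 i)) hκl hκm)
    (z2 := z 2) (z3 := z 3) (fun a ha => by rw [scq, hq a ha, mul_zero])
  exact FBad_contra hz t w0 w1 hm1.1 hm1.2 hm2.1 hm2.2

theorem transv (C : Cub VV) (h : Std2 C) (hS : C.Smooth) {K : Subfield ℂ} (hK : KC K C)
    {z : Fin 4 → ℂ} (hz : ∀ w : Fin 3 → ℂ, ∃ i, z i ∉ acl K (Set.range w)) {s : VV}
    (hs : SP C s) (h1 : s.1 0 + z 0 * s.1 1 + z 1 * s.1 2 = 0)
    (h2 : s.2 0 + z 2 * s.2 1 + z 3 * s.2 2 = 0) {l m : ℂ}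
    (hp : ∀ a : Fin 3 → ℂ, a 0 + z 0 * a 1 + z 1 * a 2 = 0 →
      2 * l * gg C s.1 a s.2 + m * hh C a s.2 s.2 = 0)
    (hq : ∀ b : Fin 3 → ℂ, b 0 + z 2 * b 1 + z 3 * b 2 = 0 →
      l * gg C s.1 s.1 b + 2 * m * hh C s.1 s.2 b = 0) : l = 0 ∧ m = 0 := by
  obtain ⟨w0, w1, c, d, hc, hd, hw⟩ := S_tr C h hS hK hs
  have hs' : SP C (c • s.1, d • s.2) := by
    refine ⟨smul_ne_zero hc hs.1, smul_ne_zero hd hs.2.1, ?_, ?_⟩
    · change gg C (c • s.1) (c • s.1) (d • s.2) = 0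
      rw [gg_smul_l, gg_smul_m, gg_smul_r, hs.2.2.1]
      ring
    · change hh C (c • s.1) (d • s.2) (d • s.2) = 0
      rw [hh_smul_l, hh_smul_m, hh_smul_r, hs.2.2.2]
      ring
  have key := FBad_transv C h hS hK hz hs' (FBad_line c h1) (FBad_line d h2)
    (fun i => (hw i).1) (fun i => (hw i).2) (l := l * d) (m := m * c)
    (fun a ha => by
      have h3 := hp a ha
      rw [FBad_p_apply]
      change 2 * (l * d) * gg C (c • s.1) a (d • s.2) +
        m * c * hh C a (d • s.2) (d • s.2) = 0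
      rw [gg_smul_l, gg_smul_r, hh_smul_m, hh_smul_r]
      linear_combination c * d ^ 2 * h3)
    (fun b hb => by
      have h3 := hq b hb
      rw [FBad_q_apply]
      change l * d * gg C (c • s.1) (c • s.1) b +
        2 * (m * c) * hh C (c • s.1) (d • s.2) b = 0
      rw [gg_smul_l, gg_smul_m, hh_smul_l, hh_smul_m]
      linear_combination c ^ 2 * d * h3)
  exact ⟨(mul_eq_zero.mp key.1).resolve_right hd, (mul_eq_zero.mp key.2).resolve_right hc⟩

end Pool.Agent.P28
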