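import Pool.Agent.P28.HDefs

set_option autoImplicit false

/-!
# P28 F11: two points of the surface over a pair of lines

`A, B` two-dimensional subspaces of `ℂ^3`, `N1`: no `a ∈ A` is a common zero of all
`gg a a b`, `b ∈ B`; `N2`: no `b ∈ B` is a common zero of all `hh a b b`, `a ∈ A`; `N3`:
transversality at every point of the surface over `A, B`.

PROOFS. `one_pt`: bases `a1, a2` of `A`, `b1, b2` of `B`. For `a ∈ A` put
`β(a) = (gg a a b2) b1 - (gg a a b1) b2`, nonzero for `a ≠ 0` by `N1`, and `gg a a β(a) = 0`.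
`R(p) = hh a β(a) β(a)` for `a = p a1 + a2` is a polynomial in `p` of degree at most 5 with
`p^5`-coefficient `R(1,0) = hh a1 β(a1) β(a1)`. If this is zero, `s = (a1, β(a1))` is a point.
Otherwise the polynomial has degree 5 and a root `p` (`ℂ` algebraically closed), `s = (a, β(a))`.
`two_pts`: let `s = (a0, b0)` be a point as in `one_pt`; complete to bases `a0, a'` of `A`,
`b0, b'` of `B`. With `v0 = gg a0 a0 b'` (nonzero by `N1`, since `gg a0 a0 b0 = 0`) and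
`δ = gg a0 a0 b' * hh a' b0 b0 - 4 gg a0 a' b0 * hh a0 b0 b'`: `δ ≠ 0`: otherwise there is
`(l, m) ≠ 0` with `2 l gg a0 a' b0 + m hh a' b0 b0 = 0` and `l gg a0 a0 b' + 2 m hh a0 b0 b' = 0`;
together with `gg a0 a0 b0 = 0 = hh a0 b0 b0` this contradicts `N3` (linearity in `a`, `b`).
For `a = p a0 + a'`: `u = gg a a b0 = 2 p gg a0 a' b0 + gg a' a' b0`,
`v = gg a a b' = p^2 v0 + 2 p gg a0 a' b' + gg a' a' b'`, `β = v b0 - u b'`,
`hh a β β = v^2 hh a b0 b0 - 2 u v hh a b0 b' + u^2 hh a b' b'`, where `hh a b0 b0 = hh a' b0 b0`.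
This is a polynomial in `p` of degree at most 4 with `p^4`-coefficient
`v0^2 hh a' b0 b0 - 4 gg a0 a' b0 v0 hh a0 b0 b' = v0 δ ≠ 0`. So it has a root `p`;
`s' = (p a0 + a', β)` is a point (`β ≠ 0` by `N1`), `s.1 = a0` and `s'.1` are independent. If
`s.2` and `s'.2` were proportional, then `hh a b0 b0 = 0` for `a = a0` and `a = p a0 + a'`, so for
all `a ∈ A`, contradiction to `N2`.
-/

namespace Pool.Agent.P28

open Module

/-- Completion of a nonzero vector to a basis of a plane. -/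
private theorem complete {A : Submodule ℂ (Fin 3 → ℂ)} (hA : finrank ℂ A = 2)
    {a : Fin 3 → ℂ} (ha : a ∈ A) (h0 : a ≠ 0) :
    ∃ a' ∈ A, LinearIndependent ℂ ![a, a'] ∧ ∀ x ∈ A, ∃ p q : ℂ, x = p • a + q • a' := by
  have h1 : ¬ A ≤ Submodule.span ℂ {a} := by
    intro h
    have h2 := Submodule.finrank_mono h
    have h3 := finrank_span_singleton (K := ℂ) h0
    rw [hA] at h2
    omega
  obtain ⟨a', ha', hn⟩ := Set.not_subset.1 h1
  have hli : LinearIndependent ℂ ![a, a'] := by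
    rw [LinearIndependent.pair_iff' h0]
    intro c hc
    exact hn (hc ▸ Submodule.smul_mem _ c (Submodule.mem_span_singleton_self a))
  refine ⟨a', ha', hli, fun x hx => ?_⟩
  have hle : Submodule.span ℂ (Set.range ![a, a']) ≤ A := by
    rw [Submodule.span_le]
    rintro _ ⟨i, rfl⟩
    fin_cases i
    · exact ha
    · exact ha'
  have hfr : finrank ℂ (Submodule.span ℂ (Set.range ![a, a'])) = finrank ℂ A := by
    rw [finrank_span_eq_card hli, hA]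
    rfl
  have he := Submodule.eq_of_le_of_finrank_eq hle hfr
  rw [← he] at hx
  have hr : Set.range ![a, a'] = {a, a'} := Matrix.range_cons_cons_empty a a' _
  rw [hr] at hx
  obtain ⟨p, q, hpq⟩ := Submodule.mem_span_pair.1 hx
  exact ⟨p, q, hpq.symm⟩

private theorem exists_ne {A : Submodule ℂ (Fin 3 → ℂ)} (hA : finrank ℂ A = 2) :
    ∃ a ∈ A, a ≠ 0 := by
  refine Submodule.exists_mem_ne_zero_of_ne_bot ?_
  rintro rfl
  rw [finrank_bot] at hA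
  omega

private theorem root5 (c5 c4 c3 c2 c1 c0 : ℂ) (h : c5 ≠ 0 ∨ c4 ≠ 0) :
    ∃ p : ℂ, c5 * p ^ 5 + c4 * p ^ 4 + c3 * p ^ 3 + c2 * p ^ 2 + c1 * p + c0 = 0 := by
  let P : Polynomial ℂ := Polynomial.C c5 * Polynomial.X ^ 5 + Polynomial.C c4 *
    Polynomial.X ^ 4 + Polynomial.C c3 * Polynomial.X ^ 3 + Polynomial.C c2 *
    Polynomial.X ^ 2 + Polynomial.C c1 * Polynomial.X + Polynomial.C c0
  have h5 : P.coeff 5 = c5 := by
    simp [P, Polynomial.coeff_X_pow]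
  have h4 : P.coeff 4 = c4 := by
    simp [P, Polynomial.coeff_X_pow]
  have hd : P.degree ≠ 0 := by
    intro hd
    rw [Polynomial.eq_C_of_degree_le_zero hd.le] at h5 h4
    rw [Polynomial.coeff_C_of_ne_zero (by norm_num)] at h5 h4
    rcases h with h | h
    · exact h h5.symm
    · exact h h4.symm
  obtain ⟨p, hp⟩ := IsAlgClosed.exists_root P hd
  refine ⟨p, ?_⟩
  have h6 : P.eval p = 0 := hp
  simp only [P, Polynomial.eval_add, Polynomial.eval_mul, Polynomial.eval_C,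
    Polynomial.eval_pow, Polynomial.eval_X] at h6
  exact h6

private theorem form_root (u0 u1 u2 v0 v1 v2 h11 k11 h12 k12 h22 k22 : ℂ)
    (h : v0 ^ 2 * h11 - 2 * (u0 * v0) * h12 + u0 ^ 2 * h22 ≠ 0 ∨
      (2 * v0 * v1 * h11 + v0 ^ 2 * k11) - 2 * ((u0 * v1 + u1 * v0) * h12 + u0 * v0 * k12) +
        (2 * u0 * u1 * h22 + u0 ^ 2 * k22) ≠ 0) :
    ∃ p : ℂ, (v0 * p ^ 2 + v1 * p + v2) ^ 2 * (h11 * p + k11) -
      2 * (u0 * p ^ 2 + u1 * p + u2) * (v0 * p ^ 2 + v1 * p + v2) * (h12 * p + k12) +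
      (u0 * p ^ 2 + u1 * p + u2) ^ 2 * (h22 * p + k22) = 0 := by
  obtain ⟨p, hp⟩ := root5 _ _
    (((v1 ^ 2 + 2 * v0 * v2) * h11 + 2 * v0 * v1 * k11) - 2 * ((u0 * v2 + u1 * v1 + u2 * v0) *
      h12 + (u0 * v1 + u1 * v0) * k12) + ((u1 ^ 2 + 2 * u0 * u2) * h22 + 2 * u0 * u1 * k22))
    ((2 * v1 * v2 * h11 + (v1 ^ 2 + 2 * v0 * v2) * k11) - 2 * ((u1 * v2 + u2 * v1) * h12 +
      (u0 * v2 + u1 * v1 + u2 * v0) * k12) + (2 * u1 * u2 * h22 + (u1 ^ 2 + 2 * u0 * u2) * k22))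
    ((v2 ^ 2 * h11 + 2 * v1 * v2 * k11) - 2 * (u2 * v2 * h12 + (u1 * v2 + u2 * v1) * k12) +
      (u2 ^ 2 * h22 + 2 * u1 * u2 * k22))
    (v2 ^ 2 * k11 - 2 * (u2 * v2) * k12 + u2 ^ 2 * k22) h
  refine ⟨p, ?_⟩
  rw [← hp]
  ring

/-- The vector `β`. -/
private noncomputable def bet (C : Cub VV) (a b1 b2 : Fin 3 → ℂ) : Fin 3 → ℂ :=
  gg C a a b2 • b1 - gg C a a b1 • b2

private theorem bet_eq (C : Cub VV) (a b1 b2 : Fin 3 → ℂ) :
    bet C a b1 b2 = gg C a a b2 • b1 + (-gg C a a b1) • b2 := by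
  rw [bet, neg_smul, sub_eq_add_neg]

private theorem gg_bet (C : Cub VV) (a b1 b2 : Fin 3 → ℂ) : gg C a a (bet C a b1 b2) = 0 := by
  rw [bet_eq, gg_add_r, gg_smul_r, gg_smul_r]
  ring

private theorem hh_bet (C : Cub VV) (a b1 b2 : Fin 3 → ℂ) :
    hh C a (bet C a b1 b2) (bet C a b1 b2) = gg C a a b2 ^ 2 * hh C a b1 b1 -
      2 * gg C a a b1 * gg C a a b2 * hh C a b1 b2 + gg C a a b1 ^ 2 * hh C a b2 b2 := by
  rw [bet_eq]
  simp only [hh_add_m, hh_add_r, hh_smul_m, hh_smul_r]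
  rw [hh_symm C a b2 b1]
  ring

private theorem bet_mem (C : Cub VV) {B : Submodule ℂ (Fin 3 → ℂ)} (a : Fin 3 → ℂ)
    {b1 b2 : Fin 3 → ℂ} (h1 : b1 ∈ B) (h2 : b2 ∈ B) : bet C a b1 b2 ∈ B :=
  B.sub_mem (B.smul_mem _ h1) (B.smul_mem _ h2)

private theorem bet_ne (C : Cub VV) {B : Submodule ℂ (Fin 3 → ℂ)} {a b1 b2 : Fin 3 → ℂ}
    (hli : LinearIndependent ℂ ![b1, b2]) (hsp : ∀ x ∈ B, ∃ p q : ℂ, x = p • b1 + q • b2)
    (N : ∃ b ∈ B, gg C a a b ≠ 0) : bet C a b1 b2 ≠ 0 := by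
  intro h
  rw [bet_eq] at h
  obtain ⟨h1, h2⟩ := LinearIndependent.pair_iff.1 hli _ _ h
  obtain ⟨b, hb, hne⟩ := N
  obtain ⟨p, q, rfl⟩ := hsp b hb
  refine hne ?_
  rw [gg_add_r, gg_smul_r, gg_smul_r, h1, neg_eq_zero.1 h2]
  ring

/-- The quadratic and the linear form along `p a1 + a2`. -/
private theorem gg_line (C : Cub VV) (a1 a2 b : Fin 3 → ℂ) (p : ℂ) :
    gg C (p • a1 + a2) (p • a1 + a2) b =
      gg C a1 a1 b * p ^ 2 + 2 * gg C a1 a2 b * p + gg C a2 a2 b := by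
  simp only [gg_add_l, gg_add_m, gg_smul_l, gg_smul_m]
  rw [gg_symm C a2 a1 b]
  ring

private theorem hh_line (C : Cub VV) (a1 a2 b b' : Fin 3 → ℂ) (p : ℂ) :
    hh C (p • a1 + a2) b b' = hh C a1 b b' * p + hh C a2 b b' := by
  simp only [hh_add_l, hh_smul_l]
  ring

private theorem line_ne {a1 a2 : Fin 3 → ℂ} (hli : LinearIndependent ℂ ![a1, a2]) (p : ℂ) :
    p • a1 + a2 ≠ 0 := by
  intro h
  have h1 : p • a1 + (1 : ℂ) • a2 = 0 := by rw [one_smul]; exact h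
  exact one_ne_zero (LinearIndependent.pair_iff.1 hli _ _ h1).2

theorem one_pt (C : Cub VV) {A B : Submodule ℂ (Fin 3 → ℂ)} (hA : finrank ℂ A = 2)
    (hB : finrank ℂ B = 2) (N1 : ∀ a ∈ A, a ≠ 0 → ∃ b ∈ B, gg C a a b ≠ 0) :
    ∃ s, SP C s ∧ s.1 ∈ A ∧ s.2 ∈ B := by
  obtain ⟨a1, ha1, ha10⟩ := exists_ne hA
  obtain ⟨a2, ha2, hlia, _⟩ := complete hA ha1 ha10
  obtain ⟨b1, hb1, hb10⟩ := exists_ne hB
  obtain ⟨b2, hb2, hlib, hspb⟩ := complete hB hb1 hb10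
  by_cases h5 : gg C a1 a1 b2 ^ 2 * hh C a1 b1 b1 -
      2 * (gg C a1 a1 b1 * gg C a1 a1 b2) * hh C a1 b1 b2 +
        gg C a1 a1 b1 ^ 2 * hh C a1 b2 b2 = 0
  · refine ⟨(a1, bet C a1 b1 b2), ⟨ha10, bet_ne C hlib hspb (N1 a1 ha1 ha10),
      gg_bet C a1 b1 b2, ?_⟩, ha1, bet_mem C a1 hb1 hb2⟩
    change hh C a1 (bet C a1 b1 b2) (bet C a1 b1 b2) = 0
    rw [hh_bet, ← h5]
    ring
  · obtain ⟨p, hp⟩ := form_root (gg C a1 a1 b1) (2 * gg C a1 a2 b1) (gg C a2 a2 b1)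
      (gg C a1 a1 b2) (2 * gg C a1 a2 b2) (gg C a2 a2 b2) (hh C a1 b1 b1) (hh C a2 b1 b1)
      (hh C a1 b1 b2) (hh C a2 b1 b2) (hh C a1 b2 b2) (hh C a2 b2 b2) (Or.inl h5)
    have hm : p • a1 + a2 ∈ A := A.add_mem (A.smul_mem p ha1) ha2
    have hne := line_ne hlia p
    refine ⟨(p • a1 + a2, bet C (p • a1 + a2) b1 b2), ⟨hne, bet_ne C hlib hspb (N1 _ hm hne),
      gg_bet C _ b1 b2, ?_⟩, hm, bet_mem C _ hb1 hb2⟩
    change hh C (p • a1 + a2) (bet C (p • a1 + a2) b1 b2) (bet C (p • a1 + a2) b1 b2) = 0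
    rw [hh_bet, gg_line, gg_line, hh_line, hh_line, hh_line, ← hp]

theorem two_pts (C : Cub VV) {A B : Submodule ℂ (Fin 3 → ℂ)} (hA : finrank ℂ A = 2)
    (hB : finrank ℂ B = 2) (N1 : ∀ a ∈ A, a ≠ 0 → ∃ b ∈ B, gg C a a b ≠ 0)
    (N2 : ∀ b ∈ B, b ≠ 0 → ∃ a ∈ A, hh C a b b ≠ 0)
    (N3 : ∀ s, SP C s → s.1 ∈ A → s.2 ∈ B → ∀ l m : ℂ,
      (∀ a ∈ A, 2 * l * gg C s.1 a s.2 + m * hh C a s.2 s.2 = 0) →
      (∀ b ∈ B, l * gg C s.1 s.1 b + 2 * m * hh C s.1 s.2 b = 0) → l = 0 ∧ m = 0) :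
    ∃ s s', SP C s ∧ SP C s' ∧ s.1 ∈ A ∧ s'.1 ∈ A ∧ s.2 ∈ B ∧ s'.2 ∈ B ∧
      LinearIndependent ℂ ![s.1, s'.1] ∧ LinearIndependent ℂ ![s.2, s'.2] := by
  obtain ⟨s, hs, hsA, hsB⟩ := one_pt C hA hB N1
  obtain ⟨a0, b0⟩ := s
  obtain ⟨ha0, hb0, hg, hh0⟩ := id hs
  dsimp only at hsA hsB ha0 hb0 hg hh0
  obtain ⟨a', ha', hlia, hspa⟩ := complete hA hsA ha0
  obtain ⟨b', hb', hlib, hspb⟩ := complete hB hsB hb0
  have hv0 : gg C a0 a0 b' ≠ 0 := by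
    intro h
    obtain ⟨b, hb, hne⟩ := N1 a0 hsA ha0
    obtain ⟨p, q, rfl⟩ := hspb b hb
    refine hne ?_
    rw [gg_add_r, gg_smul_r, gg_smul_r, hg, h]
    ring
  have hδ : gg C a0 a0 b' * hh C a' b0 b0 - 4 * gg C a0 a' b0 * hh C a0 b0 b' ≠ 0 := by
    intro h
    have h1 := N3 (a0, b0) hs hsA hsB (2 * hh C a0 b0 b') (-gg C a0 a0 b') (by
      intro a ha
      obtain ⟨p, q, rfl⟩ := hspa a ha
      change 2 * (2 * hh C a0 b0 b') * gg C a0 (p • a0 + q • a') b0 +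
        -gg C a0 a0 b' * hh C (p • a0 + q • a') b0 b0 = 0
      rw [gg_add_m, gg_smul_m, gg_smul_m, hh_add_l, hh_smul_l, hh_smul_l, hg, hh0]
      linear_combination (-q) * h) (by
      intro b hb
      obtain ⟨p, q, rfl⟩ := hspb b hb
      change 2 * hh C a0 b0 b' * gg C a0 a0 (p • b0 + q • b') +
        2 * -gg C a0 a0 b' * hh C a0 b0 (p • b0 + q • b') = 0
      rw [gg_add_r, gg_smul_r, gg_smul_r, hh_add_r, hh_smul_r, hh_smul_r, hg, hh0]
      ring)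
    exact hv0 (neg_eq_zero.1 h1.2)
  obtain ⟨p, hp⟩ := form_root (gg C a0 a0 b0) (2 * gg C a0 a' b0) (gg C a' a' b0)
    (gg C a0 a0 b') (2 * gg C a0 a' b') (gg C a' a' b') (hh C a0 b0 b0) (hh C a' b0 b0)
    (hh C a0 b0 b') (hh C a' b0 b') (hh C a0 b' b') (hh C a' b' b') (by
      right
      rw [hg, hh0]
      intro h
      refine mul_ne_zero hv0 hδ ?_
      linear_combination h)
  have hm : p • a0 + a' ∈ A := A.add_mem (A.smul_mem p hsA) ha'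
  have hne := line_ne hlia p
  have hβne : bet C (p • a0 + a') b0 b' ≠ 0 := bet_ne C hlib hspb (N1 _ hm hne)
  have hhβ : hh C (p • a0 + a') (bet C (p • a0 + a') b0 b') (bet C (p • a0 + a') b0 b') = 0 := by
    rw [hh_bet, gg_line, gg_line, hh_line, hh_line, hh_line, ← hp]
  refine ⟨(a0, b0), (p • a0 + a', bet C (p • a0 + a') b0 b'), hs,
    ⟨hne, hβne, gg_bet C _ b0 b', hhβ⟩, hsA, hm, hsB, bet_mem C _ hsB hb', ?_, ?_⟩
  · change LinearIndependent ℂ ![a0, p • a0 + a']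
    rw [LinearIndependent.pair_iff] at hlia ⊢
    intro x y hxy
    have h1 : (x + y * p) • a0 + y • a' = 0 := by
      rw [add_smul, mul_smul, add_assoc, ← smul_add]
      exact hxy
    obtain ⟨h2, h3⟩ := hlia _ _ h1
    rw [h3, zero_mul, add_zero] at h2
    exact ⟨h2, h3⟩
  · change LinearIndependent ℂ ![b0, bet C (p • a0 + a') b0 b']
    rw [LinearIndependent.pair_iff' hb0]
    intro c hc
    have hc0 : c ≠ 0 := by
      rintro rfl
      rw [zero_smul] at hc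
      exact hβne hc.symm
    rw [← hc, hh_smul_m, hh_smul_r] at hhβ
    have h1 : hh C (p • a0 + a') b0 b0 = 0 := by
      rcases mul_eq_zero.1 hhβ with h | h
      · exact absurd h hc0
      · exact (mul_eq_zero.1 h).resolve_left hc0
    rw [hh_line, hh0, zero_mul, zero_add] at h1
    obtain ⟨a, ha, hane⟩ := N2 b0 hsB hb0
    obtain ⟨x, y, rfl⟩ := hspa a ha
    refine hane ?_
    rw [hh_add_l, hh_smul_l, hh_smul_l, hh0, h1]
    ring

end Pool.Agent.P28
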