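import Pool.Agent.P28.FBad
import Pool.Agent.P28.FTwo

set_option autoImplicit false

/-!
# P28 F12: existence of a pair of points with `GG ≠ 0`

PROOFS. `good_of`: `two_pts` gives `s, s'`; `A = span {s.1, s'.1}`, `B = span {s.2, s'.2}` (both
of dimension 2). `gg s.1 s.1 s'.2 ≠ 0`: otherwise, with `gg s.1 s.1 s.2 = 0`, `gg s.1 s.1 b = 0`
for all `b ∈ B`, contradiction to `N1`; same for `gg s'.1 s'.1 s.2`; `hh s.1 s'.2 s'.2 ≠ 0` and
`hh s'.1 s.2 s.2 ≠ 0` by `N2`. `d1 ≠ 0`: otherwise there is `(p, q) ≠ 0` with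
`g112 p + 2 g122 q = 0 = 2 g121 p + g221 q`, then `a = p s.1 + q s'.1` has
`gg a a s.2 = q (2 g121 p + g221 q) = 0`, `gg a a s'.2 = p (g112 p + 2 g122 q) = 0`, contradiction
to `N1`. `d2 ≠ 0`: `(p, q) ≠ 0` with `2 h112 p + h122 q = 0 = h211 p + 2 h212 q`,
`b = p s.2 + q s'.2` contradicts `N2`. `d3 s s' = g112 h211 - 4 h112 g121 ≠ 0`: otherwise there is
`(l, m) ≠ 0` with `l g112 + 2 m h112 = 0` and `2 l g121 + m h211 = 0`: contradicts `N3` at `s`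
(linearity). `d3 s' s ≠ 0`: the same at `s'`.
`good_exists`: `exists_K` for the finite set of the coefficients, `generic`, and
`A = {a : a 0 + z 0 a 1 + z 1 a 2 = 0}`, `B = {b : b 0 + z 2 b 1 + z 3 b 2 = 0}` (kernels of
nonzero functionals, dimension 2); `no_fibre1`, `no_fibre2`, `transv`.
-/

namespace Pool.Agent.P28

open Module

/-- A plane is spanned by two independent vectors of it. -/
private theorem sp_two {A : Submodule ℂ (Fin 3 → ℂ)} (hA : finrank ℂ A = 2)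
    {a a' : Fin 3 → ℂ} (ha : a ∈ A) (ha' : a' ∈ A) (hli : LinearIndependent ℂ ![a, a']) :
    ∀ x ∈ A, ∃ p q : ℂ, x = p • a + q • a' := by
  intro x hx
  have hle : Submodule.span ℂ (Set.range ![a, a']) ≤ A := by
    rw [Submodule.span_le]
    rintro _ ⟨i, rfl⟩
    fin_cases i
    · exact ha
    · exact ha'
  have hfr : finrank ℂ (Submodule.span ℂ (Set.range ![a, a'])) = finrank ℂ A := by
    rw [finrank_span_eq_card hli, hA]
    rfl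
  have he := Submodule.eq_of_le_of_finrank_eq hle hfr
  rw [← he] at hx
  have hr : Set.range ![a, a'] = {a, a'} := Matrix.range_cons_cons_empty a a' _
  rw [hr] at hx
  obtain ⟨p, q, hpq⟩ := Submodule.mem_span_pair.1 hx
  exact ⟨p, q, hpq.symm⟩

/-- The third determinant. -/
private theorem d3_ne (C : Cub VV) {A B : Submodule ℂ (Fin 3 → ℂ)} {s s' : VV} (hs : SP C s)
    (hsA : s.1 ∈ A) (hsB : s.2 ∈ B) (hspA : ∀ x ∈ A, ∃ p q : ℂ, x = p • s.1 + q • s'.1)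
    (hspB : ∀ x ∈ B, ∃ p q : ℂ, x = p • s.2 + q • s'.2) (h112 : gg C s.1 s.1 s'.2 ≠ 0)
    (N3 : ∀ s, SP C s → s.1 ∈ A → s.2 ∈ B → ∀ l m : ℂ,
      (∀ a ∈ A, 2 * l * gg C s.1 a s.2 + m * hh C a s.2 s.2 = 0) →
      (∀ b ∈ B, l * gg C s.1 s.1 b + 2 * m * hh C s.1 s.2 b = 0) → l = 0 ∧ m = 0) :
    d3 C s s' ≠ 0 := by
  intro h
  rw [d3] at h
  have h1 := N3 s hs hsA hsB (2 * hh C s.1 s.2 s'.2) (-gg C s.1 s.1 s'.2) (by
    intro a ha
    obtain ⟨p, q, rfl⟩ := hspA a ha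
    rw [gg_add_m, gg_smul_m, gg_smul_m, hh_add_l, hh_smul_l, hh_smul_l, hs.2.2.1, hs.2.2.2]
    linear_combination (-q) * h) (by
    intro b hb
    obtain ⟨p, q, rfl⟩ := hspB b hb
    rw [gg_add_r, gg_smul_r, gg_smul_r, hh_add_r, hh_smul_r, hh_smul_r, hs.2.2.1, hs.2.2.2]
    ring)
  exact h112 (neg_eq_zero.1 h1.2)

theorem good_of (C : Cub VV) {A B : Submodule ℂ (Fin 3 → ℂ)} (hA : finrank ℂ A = 2)
    (hB : finrank ℂ B = 2) (N1 : ∀ a ∈ A, a ≠ 0 → ∃ b ∈ B, gg C a a b ≠ 0)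
    (N2 : ∀ b ∈ B, b ≠ 0 → ∃ a ∈ A, hh C a b b ≠ 0)
    (N3 : ∀ s, SP C s → s.1 ∈ A → s.2 ∈ B → ∀ l m : ℂ,
      (∀ a ∈ A, 2 * l * gg C s.1 a s.2 + m * hh C a s.2 s.2 = 0) →
      (∀ b ∈ B, l * gg C s.1 s.1 b + 2 * m * hh C s.1 s.2 b = 0) → l = 0 ∧ m = 0) :
    ∃ s s', SP C s ∧ SP C s' ∧ GG C s s' ≠ 0 := by
  obtain ⟨s, s', hs, hs', hsA, hsA', hsB, hsB', hlA, hlB⟩ := two_pts C hA hB N1 N2 N3
  have hspA := sp_two hA hsA hsA' hlA
  have hspB := sp_two hB hsB hsB' hlB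
  have hspA' : ∀ x ∈ A, ∃ p q : ℂ, x = p • s'.1 + q • s.1 := by
    intro x hx
    obtain ⟨p, q, h⟩ := hspA x hx
    exact ⟨q, p, by rw [h, add_comm]⟩
  have hspB' : ∀ x ∈ B, ∃ p q : ℂ, x = p • s'.2 + q • s.2 := by
    intro x hx
    obtain ⟨p, q, h⟩ := hspB x hx
    exact ⟨q, p, by rw [h, add_comm]⟩
  have e1 := hs.2.2.1
  have e2 := hs.2.2.2
  have e3 := hs'.2.2.1
  have e4 := hs'.2.2.2
  have h1 : gg C s.1 s.1 s'.2 ≠ 0 := by
    intro h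
    obtain ⟨b, hb, hne⟩ := N1 s.1 hsA hs.1
    obtain ⟨p, q, rfl⟩ := hspB b hb
    apply hne
    rw [gg_add_r, gg_smul_r, gg_smul_r, e1, h]
    ring
  have h2 : gg C s'.1 s'.1 s.2 ≠ 0 := by
    intro h
    obtain ⟨b, hb, hne⟩ := N1 s'.1 hsA' hs'.1
    obtain ⟨p, q, rfl⟩ := hspB b hb
    apply hne
    rw [gg_add_r, gg_smul_r, gg_smul_r, e3, h]
    ring
  have h3 : hh C s.1 s'.2 s'.2 ≠ 0 := by
    intro h
    obtain ⟨a, ha, hne⟩ := N2 s'.2 hsB' hs'.2.1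
    obtain ⟨p, q, rfl⟩ := hspA a ha
    apply hne
    rw [hh_add_l, hh_smul_l, hh_smul_l, e4, h]
    ring
  have h4 : hh C s'.1 s.2 s.2 ≠ 0 := by
    intro h
    obtain ⟨a, ha, hne⟩ := N2 s.2 hsB hs.2.1
    obtain ⟨p, q, rfl⟩ := hspA a ha
    apply hne
    rw [hh_add_l, hh_smul_l, hh_smul_l, e2, h]
    ring
  have h5 : d1 C s s' ≠ 0 := by
    intro h
    rw [d1] at h
    have hm : (2 * gg C s.1 s'.1 s'.2) • s.1 + (-gg C s.1 s.1 s'.2) • s'.1 ∈ A :=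
      A.add_mem (A.smul_mem _ hsA) (A.smul_mem _ hsA')
    have hne : (2 * gg C s.1 s'.1 s'.2) • s.1 + (-gg C s.1 s.1 s'.2) • s'.1 ≠ 0 := by
      intro h0
      exact h1 (neg_eq_zero.1 (LinearIndependent.pair_iff.1 hlA _ _ h0).2)
    obtain ⟨b, hb, hb0⟩ := N1 _ hm hne
    obtain ⟨p, q, rfl⟩ := hspB b hb
    apply hb0
    simp only [gg_add_l, gg_add_m, gg_add_r, gg_smul_l, gg_smul_m, gg_smul_r]
    rw [gg_symm C s'.1 s.1 s.2, gg_symm C s'.1 s.1 s'.2, e1, e3]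
    linear_combination (p * gg C s.1 s.1 s'.2) * h
  have h6 : d2 C s s' ≠ 0 := by
    intro h
    rw [d2] at h
    have hm : (hh C s.1 s'.2 s'.2) • s.2 + (-(2 * hh C s.1 s.2 s'.2)) • s'.2 ∈ B :=
      B.add_mem (B.smul_mem _ hsB) (B.smul_mem _ hsB')
    have hne : (hh C s.1 s'.2 s'.2) • s.2 + (-(2 * hh C s.1 s.2 s'.2)) • s'.2 ≠ 0 := by
      intro h0
      exact h3 (LinearIndependent.pair_iff.1 hlB _ _ h0).1
    obtain ⟨a, ha, ha0⟩ := N2 _ hm hne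
    obtain ⟨p, q, rfl⟩ := hspA a ha
    apply ha0
    simp only [hh_add_l, hh_add_m, hh_add_r, hh_smul_l, hh_smul_m, hh_smul_r]
    rw [hh_symm C s.1 s'.2 s.2, hh_symm C s'.1 s'.2 s.2, e2, e4]
    linear_combination (-q * hh C s.1 s'.2 s'.2) * h
  have h7 : d3 C s s' ≠ 0 := d3_ne C hs hsA hsB hspA hspB h1 N3
  have h8 : d3 C s' s ≠ 0 := d3_ne C hs' hsA' hsB' hspA' hspB' h2 N3
  refine ⟨s, s', hs, hs', ?_⟩
  rw [GG]
  exact mul_ne_zero (mul_ne_zero (mul_ne_zero (mul_ne_zero (mul_ne_zero (mul_ne_zero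
    (mul_ne_zero h1 h2) h3) h4) h5) h6) h7) h8

/-- The functional of a line. -/
private noncomputable def phi (x y : ℂ) : (Fin 3 → ℂ) →ₗ[ℂ] ℂ :=
  LinearMap.proj 0 + x • LinearMap.proj 1 + y • LinearMap.proj 2

private theorem phi_apply (x y : ℂ) (a : Fin 3 → ℂ) : phi x y a = a 0 + x * a 1 + y * a 2 :=
  rfl

private theorem mem_ker (x y : ℂ) (a : Fin 3 → ℂ) :
    a ∈ LinearMap.ker (phi x y) ↔ a 0 + x * a 1 + y * a 2 = 0 := by
  rw [LinearMap.mem_ker, phi_apply]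

private theorem fr_ker (x y : ℂ) : finrank ℂ (LinearMap.ker (phi x y)) = 2 := by
  have hne : phi x y ≠ 0 := by
    intro h
    have h1 : phi x y (Pi.single 0 1) = 0 := by rw [h]; rfl
    rw [phi_apply] at h1
    simp at h1
  have h2 := Module.Dual.finrank_ker_add_one_of_ne_zero (K := ℂ) (f := phi x y) hne
  have h3 : finrank ℂ (Fin 3 → ℂ) = 3 := by simp
  omega

theorem good_exists (C : Cub VV) (h : Std2 C) (hS : C.Smooth) :
    ∃ s s', SP C s ∧ SP C s' ∧ GG C s s' ≠ 0 := by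
  obtain ⟨K, hKc, hKs⟩ := exists_K
    (Set.range (fun i : Fin 3 × Fin 3 × Fin 3 =>
        gg C (Pi.single i.1 1) (Pi.single i.2.1 1) (Pi.single i.2.2 1)) ∪
      Set.range (fun i : Fin 3 × Fin 3 × Fin 3 =>
        hh C (Pi.single i.1 1) (Pi.single i.2.1 1) (Pi.single i.2.2 1)))
    ((Set.countable_range _).union (Set.countable_range _))
  have hK : KC K C := fun i j k => ⟨hKs (Or.inl ⟨(i, j, k), rfl⟩), hKs (Or.inr ⟨(i, j, k), rfl⟩)⟩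
  obtain ⟨z, hz⟩ := generic K hKc
  refine good_of C (fr_ker (z 0) (z 1)) (fr_ker (z 2) (z 3)) ?_ ?_ ?_
  · intro a ha ha0
    obtain ⟨b, hb, hne⟩ := no_fibre1 C h hS hK hz ha0 ((mem_ker _ _ _).1 ha)
    exact ⟨b, (mem_ker _ _ _).2 hb, hne⟩
  · intro b hb hb0
    obtain ⟨a, ha, hne⟩ := no_fibre2 C h hS hK hz hb0 ((mem_ker _ _ _).1 hb)
    exact ⟨a, (mem_ker _ _ _).2 ha, hne⟩
  · intro s hs h1 h2 l m hl hm
    exact transv C h hS hK hz hs ((mem_ker _ _ _).1 h1) ((mem_ker _ _ _).1 h2)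
      (fun a ha => hl a ((mem_ker _ _ _).2 ha)) (fun b hb => hm b ((mem_ker _ _ _).2 hb))

end Pool.Agent.P28
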