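import Pool.Agent.P28.FMem

set_option autoImplicit false

/-!
# P28 F03: the unordered pair of points is determined by the residual line

PROOFS. `Lv_swap`: `AA C s' s p1 p2 q1 q2 = BB C s s' p2 p1 q2 q1` and conversely (unfold,
`gg_symm`, `hh_symm`, `ring`), then `mem_Lv` twice (`d1` is symmetric, `GG_symm`).
`Lv_same`: `r.1 = c s.1`, `r.2 = d s.2`, `r'.1 = c' s'.1`, `r'.2 = d' s'.2`: a vector with the
coordinates `(p1, p2, q1, q2)` with respect to `r, r'` has the coordinates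
`(c p1, c' p2, d q1, d' q2)` with respect to `s, s'`, and
`AA C r r' p1 p2 q1 q2 = c d' * AA C s s' (c p1) (c' p2) (d q1) (d' q2)`,
`BB C r r' p1 p2 q1 q2 = c' d * BB C s s' (c p1) (c' p2) (d q1) (d' q2)`; `mem_Lv` twice
(one inclusion for all data and `Sm_symm` gives the other one, with `GG_same`, `SP_same`).
`Lv_pt`: let `(r, r')` be a pair with `GG ≠ 0` and `Lv r r' = Lv s s'`. By `Lv_map_fst`,
`Lv_map_snd`: `r.1 = s1 s.1 + s2 s'.1`, `r.2 = t1 s.2 + t2 s'.2`. With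
`As = g112 s1 + 2 g122 s2`, `Bs = 2 g121 s1 + g221 s2`, `At = 2 h112 t1 + h122 t2`,
`Bt = h211 t1 + 2 h212 t2` (so that `AA s1 s2 t1 t2 = As + At`, `BB s1 s2 t1 t2 = Bs + Bt`):
`gg r.1 r.1 r.2 = s1 t2 As + s2 t1 Bs = 0`, `hh r.1 r.2 r.2 = s1 t2 At + s2 t1 Bt = 0`.
If `s1 t2 = 0 = s2 t1`: either `s2 = 0 = t2` and `Sm s r`, or `s1 = 0 = t1` and `Sm s' r`
(`s1 = s2 = 0` or `t1 = t2 = 0` are impossible as `r.1, r.2 ≠ 0`).
Otherwise `As Bt - At Bs = 0`, so there is `(l, m) ≠ 0` with `l As + m At = 0 = l Bs + m Bt`,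
i.e. `AA (l s1) (l s2) (m t1) (m t2) = 0 = BB ...`: the vector `(l r.1, m r.2)` is in
`Lv s s' = Lv r r'`, so (`mem_Lv` for `r, r'` and `coords`) `AA C r r' l 0 m 0 = 0 = BB C r r' l 0
m 0`: `gg r.1 r.1 r'.2 l + 2 hh r.1 r.2 r'.2 m = 0`, `2 gg r.1 r'.1 r.2 l + hh r'.1 r.2 r.2 m = 0`,
whose determinant is `d3 C r r' ≠ 0`: contradiction.
`Lv_inj`: `Lv_pt` for `r` and for `r'` (using `Lv_swap`, `GG_symm`); `r, r'` are not both the same
as `s` (or both the same as `s'`), because `r.1, r'.1` are independent (`ind1`).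
-/

namespace Pool.Agent.P28

open Module

private theorem d1_swap (C : Cub VV) (s s' : VV) : d1 C s' s = d1 C s s' := by
  simp only [d1]
  rw [gg_symm C s'.1 s.1 s.2, gg_symm C s'.1 s.1 s'.2]
  ring

private theorem AA_swap (C : Cub VV) (s s' : VV) (p1 p2 q1 q2 : ℂ) :
    AA C s s' p2 p1 q2 q1 = BB C s' s p1 p2 q1 q2 := by
  simp only [AA, BB]
  rw [gg_symm C s'.1 s.1 s'.2, hh_symm C s.1 s'.2 s.2]
  ring

theorem Lv_swap (C : Cub VV) {s s' : VV} (hd : d1 C s s' ≠ 0) : Lv C s' s = Lv C s s' := by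
  have hd' : d1 C s' s ≠ 0 := by
    rw [d1_swap]
    exact hd
  ext v
  rw [mem_Lv C hd', mem_Lv C hd]
  constructor
  · rintro ⟨p1, p2, q1, q2, rfl, hA, hB⟩
    refine ⟨p2, p1, q2, q1, ?_, ?_, ?_⟩
    · rw [add_comm (p1 • s'.1), add_comm (q1 • s'.2)]
    · rw [AA_swap]
      exact hB
    · rw [← AA_swap]
      exact hA
  · rintro ⟨p1, p2, q1, q2, rfl, hA, hB⟩
    refine ⟨p2, p1, q2, q1, ?_, ?_, ?_⟩
    · rw [add_comm (p1 • s.1), add_comm (q1 • s.2)]
    · rw [AA_swap]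
      exact hB
    · rw [← AA_swap]
      exact hA

private theorem Lv_same_le (C : Cub VV) {s s' r r' : VV} (hdr : d1 C r r' ≠ 0)
    (hds : d1 C s s' ≠ 0) (h : Sm s r) (h' : Sm s' r') : Lv C r r' ≤ Lv C s s' := by
  obtain ⟨⟨c, hc, e1⟩, d, hd, e2⟩ := h
  obtain ⟨⟨c', hc', e1'⟩, d', hd', e2'⟩ := h'
  intro v hv
  obtain ⟨p1, p2, q1, q2, rfl, hA, hB⟩ := (mem_Lv C hdr v).mp hv
  refine (mem_Lv C hds _).mpr ⟨p1 * c, p2 * c', q1 * d, q2 * d', ?_, ?_, ?_⟩
  · rw [e1, e2, e1', e2', smul_smul, smul_smul, smul_smul, smul_smul]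
  · have k : c * d' * AA C s s' (p1 * c) (p2 * c') (q1 * d) (q2 * d') =
        AA C r r' p1 p2 q1 q2 := by
      simp only [AA]
      rw [e1, e2, e1', e2']
      simp only [gg_smul_l, gg_smul_m, gg_smul_r, hh_smul_l, hh_smul_m, hh_smul_r]
      ring
    rw [hA] at k
    exact (mul_eq_zero.mp k).resolve_left (mul_ne_zero hc hd')
  · have k : c' * d * BB C s s' (p1 * c) (p2 * c') (q1 * d) (q2 * d') =
        BB C r r' p1 p2 q1 q2 := by
      simp only [BB]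
      rw [e1, e2, e1', e2']
      simp only [gg_smul_l, gg_smul_m, gg_smul_r, hh_smul_l, hh_smul_m, hh_smul_r]
      ring
    rw [hB] at k
    exact (mul_eq_zero.mp k).resolve_left (mul_ne_zero hc' hd)

theorem Lv_same (C : Cub VV) {s s' r r' : VV} (hG : GG C s s' ≠ 0) (h : Sm s r) (h' : Sm s' r') :
    Lv C r r' = Lv C s s' := by
  have hp := GG_parts C hG
  have hG' := GG_same C hG h h'
  have hp' := GG_parts C hG'
  exact le_antisymm (Lv_same_le C hp'.2.2.2.2.1 hp.2.2.2.2.1 h h')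
    (Lv_same_le C hp.2.2.2.2.1 hp'.2.2.2.2.1 (Sm_symm h) (Sm_symm h'))

private theorem ker_pair {x y As Bs At Bt : ℂ} (hz : ¬ (x = 0 ∧ y = 0))
    (k1 : x * As + y * Bs = 0) (k2 : x * At + y * Bt = 0) :
    ∃ l m : ℂ, ¬ (l = 0 ∧ m = 0) ∧ l * As + m * At = 0 ∧ l * Bs + m * Bt = 0 := by
  have kd : As * Bt - At * Bs = 0 := by
    by_cases hx : x = 0
    · have hy : y ≠ 0 := fun h => hz ⟨hx, h⟩
      refine (mul_eq_zero.mp ?_).resolve_left hy
      linear_combination As * k2 - At * k1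
    · refine (mul_eq_zero.mp ?_).resolve_left hx
      linear_combination Bt * k1 - Bs * k2
  by_cases hA : At = 0 ∧ As = 0
  · by_cases hB : Bt = 0 ∧ Bs = 0
    · refine ⟨1, 0, fun h => one_ne_zero h.1, ?_, ?_⟩
      · rw [hA.2]
        ring
      · rw [hB.2]
        ring
    · refine ⟨Bt, -Bs, fun h => hB ⟨h.1, neg_eq_zero.mp h.2⟩, ?_, ?_⟩
      · rw [hA.1, hA.2]
        ring
      · ring
  · refine ⟨At, -As, fun h => hA ⟨h.1, neg_eq_zero.mp h.2⟩, ?_, ?_⟩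
    · ring
    · linear_combination -kd

theorem Lv_pt (C : Cub VV) {s s' r r' : VV} (hs : SP C s) (hs' : SP C s')
    (hr : SP C r) (hr' : SP C r') (hG : GG C s s' ≠ 0) (hG' : GG C r r' ≠ 0)
    (hL : Lv C s s' = Lv C r r') : Sm s r ∨ Sm s' r := by
  have hp := GG_parts C hG
  have hp' := GG_parts C hG'
  have hd1 := hp.2.2.2.2.1
  have hd1' := hp'.2.2.2.2.1
  have m1 : r.1 ∈ Submodule.span ℂ {s.1, s'.1} := by
    rw [← Lv_map_fst C hs hs' hG, hL, Lv_map_fst C hr hr' hG']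
    exact Submodule.subset_span (Set.mem_insert _ _)
  have m2 : r.2 ∈ Submodule.span ℂ {s.2, s'.2} := by
    rw [← Lv_map_snd C hs hs' hG, hL, Lv_map_snd C hr hr' hG']
    exact Submodule.subset_span (Set.mem_insert _ _)
  obtain ⟨s1, s2, e1⟩ := Submodule.mem_span_pair.mp m1
  obtain ⟨t1, t2, e2⟩ := Submodule.mem_span_pair.mp m2
  obtain ⟨hr1, hr2, hrg, hrh⟩ := hr
  have kg : s1 * t2 * (gg C s.1 s.1 s'.2 * s1 + 2 * gg C s.1 s'.1 s'.2 * s2) +
      s2 * t1 * (2 * gg C s.1 s'.1 s.2 * s1 + gg C s'.1 s'.1 s.2 * s2) = 0 := by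
    rw [← e1, ← e2] at hrg
    simp only [gg_add_l, gg_add_m, gg_add_r, gg_smul_l, gg_smul_m, gg_smul_r] at hrg
    rw [hs.2.2.1, hs'.2.2.1, gg_symm C s'.1 s.1 s.2, gg_symm C s'.1 s.1 s'.2] at hrg
    linear_combination hrg
  have kh : s1 * t2 * (2 * hh C s.1 s.2 s'.2 * t1 + hh C s.1 s'.2 s'.2 * t2) +
      s2 * t1 * (hh C s'.1 s.2 s.2 * t1 + 2 * hh C s'.1 s.2 s'.2 * t2) = 0 := by
    rw [← e1, ← e2] at hrh
    simp only [hh_add_l, hh_add_m, hh_add_r, hh_smul_l, hh_smul_m, hh_smul_r] at hrh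
    rw [hs.2.2.2, hs'.2.2.2, hh_symm C s.1 s'.2 s.2, hh_symm C s'.1 s'.2 s.2] at hrh
    linear_combination hrh
  by_cases hz : s1 * t2 = 0 ∧ s2 * t1 = 0
  · rcases mul_eq_zero.mp hz.1 with h1 | h1
    · right
      rw [h1, zero_smul, zero_add] at e1
      have hs2 : s2 ≠ 0 := by
        rintro rfl
        exact hr1 (by rw [← e1, zero_smul])
      have ht1 : t1 = 0 := (mul_eq_zero.mp hz.2).resolve_left hs2
      rw [ht1, zero_smul, zero_add] at e2
      have ht2 : t2 ≠ 0 := by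
        rintro rfl
        exact hr2 (by rw [← e2, zero_smul])
      exact ⟨⟨s2, hs2, e1.symm⟩, t2, ht2, e2.symm⟩
    · left
      rw [h1, zero_smul, add_zero] at e2
      have ht1 : t1 ≠ 0 := by
        rintro rfl
        exact hr2 (by rw [← e2, zero_smul])
      have hs2 : s2 = 0 := (mul_eq_zero.mp hz.2).resolve_right ht1
      rw [hs2, zero_smul, add_zero] at e1
      have hs1 : s1 ≠ 0 := by
        rintro rfl
        exact hr1 (by rw [← e1, zero_smul])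
      exact ⟨⟨s1, hs1, e1.symm⟩, t1, ht1, e2.symm⟩
  · exfalso
    obtain ⟨l, m, hlm, kA, kB⟩ := ker_pair hz kg kh
    have hv : ((l • r.1, m • r.2) : VV) ∈ Lv C s s' := by
      refine (mem_Lv C hd1 _).mpr ⟨l * s1, l * s2, m * t1, m * t2, ?_, ?_, ?_⟩
      · rw [← e1, ← e2, smul_add, smul_add, smul_smul, smul_smul, smul_smul, smul_smul]
      · simp only [AA]
        linear_combination kA
      · simp only [BB]
        linear_combination kB
    rw [hL] at hv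
    obtain ⟨p1, p2, q1, q2, ev, hA, hB⟩ := (mem_Lv C hd1' _).mp hv
    have ev' : ((l • r.1 + (0 : ℂ) • r'.1, m • r.2 + (0 : ℂ) • r'.2) : VV) =
        (p1 • r.1 + p2 • r'.1, q1 • r.2 + q2 • r'.2) := by
      rw [← ev, zero_smul, zero_smul, add_zero, add_zero]
    obtain ⟨rfl, rfl, rfl, rfl⟩ := coords (ind1 C ⟨hr1, hr2, hrg, hrh⟩ hr' hd1')
      (ind2 C ⟨hr1, hr2, hrg, hrh⟩ hr' hp'.2.2.2.2.2.1) ev'
    have hd3 := hp'.2.2.2.2.2.2.1
    simp only [AA] at hA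
    simp only [BB] at hB
    have hl : d3 C r r' * l = 0 := by
      simp only [d3]
      linear_combination hh C r'.1 r.2 r.2 * hA - 2 * hh C r.1 r.2 r'.2 * hB
    have hm : d3 C r r' * m = 0 := by
      simp only [d3]
      linear_combination gg C r.1 r.1 r'.2 * hB - 2 * gg C r.1 r'.1 r.2 * hA
    exact hlm ⟨(mul_eq_zero.mp hl).resolve_left hd3, (mul_eq_zero.mp hm).resolve_left hd3⟩

theorem Lv_inj (C : Cub VV) {s s' r r' : VV} (hs : SP C s) (hs' : SP C s')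
    (hr : SP C r) (hr' : SP C r') (hG : GG C s s' ≠ 0) (hG' : GG C r r' ≠ 0)
    (hL : Lv C s s' = Lv C r r') : (Sm s r ∧ Sm s' r') ∨ (Sm s r' ∧ Sm s' r) := by
  have hp' := GG_parts C hG'
  have hGr : GG C r' r ≠ 0 := by
    rw [GG_symm]
    exact hG'
  have h1 := Lv_pt C hs hs' hr hr' hG hG' hL
  have h2 := Lv_pt C hs hs' hr' hr hG hGr (hL.trans (Lv_swap C hp'.2.2.2.2.1).symm)
  have hi := ind1 C hr hr' hp'.2.2.2.2.1
  have no : ∀ t : VV, Sm t r → Sm t r' → False := by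
    rintro t ⟨⟨c, hc, e⟩, -⟩ ⟨⟨c', hc', e'⟩, -⟩
    rw [LinearIndependent.pair_iff] at hi
    have k := hi c' (-c) (by
      rw [e, e', smul_smul, smul_smul, mul_comm c' c, neg_mul, neg_smul, add_neg_cancel])
    exact hc' k.1
  rcases h1 with h1 | h1 <;> rcases h2 with h2 | h2
  · exact (no s h1 h2).elim
  · exact Or.inl ⟨h1, h2⟩
  · exact Or.inr ⟨h2, h1⟩
  · exact (no s' h1 h2).elim

end Pool.Agent.P28
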