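import Pool.Agent.P28.FSurj

set_option autoImplicit false

/-!
# P28 F06: the residual line of a pair with `GG ≠ 0` is in the open set

`x = xv C s s'`, `y = yv C s s'`; claim `HH C x y ≠ 0`. Notation as in `FMem`.
PROOFS. `x.2 = d1 s.2`, `y.2 = d1 s'.2`, and `x.1, y.1` is a basis of `span {s.1, s'.1}`
(`Lv_map_fst`, or: `x.1, y.1` are independent by `Lv_fst` since `x, y` are).
(1) `Rs22 (uu) (vv) ≠ 0` (`rs22`, `bq_uu`, `bq_vv`): for `(p,q) ≠ 0` let
`a = p x.1 + q y.1 = p1 s.1 + p2 s'.1`, `(p1,p2) ≠ 0`. `gg a a x.2 = d1 p2 (2 g121 p1 + g221 p2)`,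
`gg a a y.2 = d1 p1 (g112 p1 + 2 g122 p2)`. If both are zero: `p1 = 0` gives `g221 p2^2 = 0`;
`p2 = 0` gives `g112 p1^2 = 0`; otherwise both brackets vanish and `d1 = 0`. Contradiction.
(2) `Rs22 (uh) (vh) ≠ 0`: for `b = p x.2 + q y.2 = d1 (p s.2 + q s'.2)`: if `hh x.1 b b = 0 =
hh y.1 b b` then `hh s.1 b b = 0 = hh s'.1 b b`, i.e. `q (2 h112 p + h122 q) = 0 =
p (h211 p + 2 h212 q)`: `p = 0` gives `h122 = 0`, `q = 0` gives `h211 = 0`, otherwise `d2 = 0`.
(3) Let `s.1 = p1 x.1 + r1 y.1`, `s'.1 = p2 x.1 + r2 y.1`. By `quint` (hypothesis: `Lv_line`) at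
`(p1, r1)`: the left side is `hh s.1 b b` with `b = (gg s.1 s.1 y.2) x.2 - (gg s.1 s.1 x.2) y.2
= d1^2 g112 s.2`, so it is zero. `bc ff p1 r1 = gg s.1 s.1 (p1 x.2 + r1 y.2) = d1 r1 g112`.
`r1 ≠ 0`: otherwise `(s.1, d1 p1 s.2) = p1 x` is in `Lv`, so `g112 + 2 h112 m = 0 =
2 g121 + h211 m` with `m = d1 p1` (`mem_Lv`, `coords`), hence `d3 s s' = g112 h211 - 4 h112 g121
= 0`. So `bc ff p1 r1 ≠ 0` and `bq qq p1 r1 = 0`. In the same way (`d3 s' s ≠ 0`)
`bc ff p2 r2 = d1 p2 g221 ≠ 0`, `bq qq p2 r2 = 0`. `(p1,r1), (p2,r2)` are independent.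
(4) `qq ≠ 0`: it is enough that the left side of `quint` is not identically zero. For
`a = s.1 + t s'.1` the left side is
`d1^4 t (A^2 h211 - 2 A B (h112 + t h212) + t B^2 h122)` with `A = g112 + 2 g122 t`,
`B = 2 g121 + g221 t`; the bracket at `t = 0` is `g112^2 h211 - 4 g112 g121 h112 = g112 d3 ≠ 0`, so
it is a nonzero polynomial in `t` and there is `t ≠ 0` where it is not zero (five or more values).
(5) `disc_of`: the discriminant is not zero and every zero of `qq` is proportional to `(p1,r1)` or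
`(p2,r2)`, where `bc ff ≠ 0`; so `Rs23 ≠ 0` by `rs23`.
-/

namespace Pool.Agent.P28

open Module

private theorem ggE (C : Cub VV) (S S' c : Fin 3 → ℂ) (u v : ℂ) :
    gg C (u • S + v • S') (u • S + v • S') c =
      u ^ 2 * gg C S S c + 2 * u * v * gg C S S' c + v ^ 2 * gg C S' S' c := by
  simp only [gg_add_l, gg_add_m, gg_smul_l, gg_smul_m]
  rw [gg_symm C S' S c]
  ring

private theorem hhE (C : Cub VV) (a b b' : Fin 3 → ℂ) (u v : ℂ) :
    hh C a (u • b + v • b') (u • b + v • b') =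
      u ^ 2 * hh C a b b + 2 * u * v * hh C a b b' + v ^ 2 * hh C a b' b' := by
  simp only [hh_add_m, hh_add_r, hh_smul_m, hh_smul_r]
  rw [hh_symm C a b' b]
  ring

private theorem bc_smul (f : Fin 4 → ℂ) (l p q : ℂ) : bc f (l * p) (l * q) = l ^ 3 * bc f p q := by
  simp only [bc]
  ring

/-- the two brackets -/
private theorem two_zero {g1 g2 g3 g4 p1 p2 : ℂ} (h1 : g1 ≠ 0) (h4 : g4 ≠ 0)
    (hd : g1 * g4 - g2 * g3 ≠ 0) (hp : p1 ≠ 0 ∨ p2 ≠ 0)
    (ha : p2 * (g3 * p1 + g4 * p2) = 0) (hb : p1 * (g1 * p1 + g2 * p2) = 0) : False := by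
  by_cases k1 : p1 = 0
  · have k2 : p2 ≠ 0 := hp.resolve_left (not_not_intro k1)
    rw [k1, mul_zero, zero_add] at ha
    exact mul_ne_zero k2 (mul_ne_zero h4 k2) ha
  · by_cases k2 : p2 = 0
    · rw [k2, mul_zero, add_zero] at hb
      exact mul_ne_zero k1 (mul_ne_zero h1 k1) hb
    · have e1 := (mul_eq_zero.1 ha).resolve_left k2
      have e2 := (mul_eq_zero.1 hb).resolve_left k1
      have e3 : (g1 * g4 - g2 * g3) * p1 = 0 := by linear_combination g4 * e2 - g2 * e1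
      exact mul_ne_zero hd k1 e3

private theorem core (C : Cub VV) (h : Std2 C) {S S' b b' : Fin 3 → ℂ} {X1 X2 Y1 Y2 d : ℂ}
    (z1 : gg C S S b = 0) (z2 : gg C S' S' b' = 0) (z3 : hh C S b b = 0) (z4 : hh C S' b' b' = 0)
    (n1 : gg C S S b' ≠ 0) (n2 : gg C S' S' b ≠ 0) (n3 : hh C S b' b' ≠ 0)
    (n4 : hh C S' b b ≠ 0) (hd : d ≠ 0)
    (nd : gg C S S b' * gg C S' S' b - (2 * gg C S S' b') * (2 * gg C S S' b) ≠ 0)
    (ne : hh C S' b b * hh C S b' b' - (2 * hh C S' b b') * (2 * hh C S b b') ≠ 0)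
    (nD : X1 * Y2 - X2 * Y1 ≠ 0) (nX : X2 ≠ 0) (nY : Y1 ≠ 0)
    (eX : X2 = -(gg C S S b' * hh C S' b b - 4 * gg C S S' b * hh C S b b'))
    {x y : VV} (hx1 : x.1 = X1 • S + X2 • S') (hx2 : x.2 = d • b)
    (hy1 : y.1 = Y1 • S + Y2 • S') (hy2 : y.2 = d • b')
    (hF : ∀ p q : ℂ, C.T (p • x + q • y) (p • x + q • y) (p • x + q • y) = 0) :
    HH C x y ≠ 0 := by
  have hP : ∀ p q : ℂ, p • x.1 + q • y.1 = (p * X1 + q * Y1) • S + (p * X2 + q * Y2) • S' := by
    intro p q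
    rw [hx1, hy1]
    module
  have hQ : ∀ p q : ℂ, p • x.2 + q • y.2 = (p * d) • b + (q * d) • b' := by
    intro p q
    rw [hx2, hy2]
    module
  have hne : ∀ p q : ℂ, (p ≠ 0 ∨ q ≠ 0) → (p * X1 + q * Y1 ≠ 0 ∨ p * X2 + q * Y2 ≠ 0) := by
    intro p q hpq
    by_contra hcon
    push Not at hcon
    obtain ⟨c1, c2⟩ := hcon
    have e1 : (X1 * Y2 - X2 * Y1) * p = 0 := by linear_combination Y2 * c1 - Y1 * c2
    have e2 : (X1 * Y2 - X2 * Y1) * q = 0 := by linear_combination X1 * c2 - X2 * c1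
    rcases hpq with hp | hq
    · exact mul_ne_zero nD hp e1
    · exact mul_ne_zero nD hq e2
  have U : ∀ p q : ℂ, bq (uu C x y) p q = d * ((p * X2 + q * Y2) *
      (2 * gg C S S' b * (p * X1 + q * Y1) + gg C S' S' b * (p * X2 + q * Y2))) := by
    intro p q
    rw [bq_uu, hP, hx2, gg_smul_r, ggE, z1]
    ring
  have V : ∀ p q : ℂ, bq (vv C x y) p q = d * ((p * X1 + q * Y1) *
      (gg C S S b' * (p * X1 + q * Y1) + 2 * gg C S S' b' * (p * X2 + q * Y2))) := by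
    intro p q
    rw [bq_vv, hP, hy2, gg_smul_r, ggE, z2]
    ring
  have F : ∀ p q : ℂ, bc (ff C x y) p q = d * (p * ((p * X2 + q * Y2) *
      (2 * gg C S S' b * (p * X1 + q * Y1) + gg C S' S' b * (p * X2 + q * Y2))) +
      q * ((p * X1 + q * Y1) *
      (gg C S S b' * (p * X1 + q * Y1) + 2 * gg C S S' b' * (p * X2 + q * Y2)))) := by
    intro p q
    rw [bc_ff, hP, hQ, gg_add_r, gg_smul_r, gg_smul_r, ggE, ggE, z1, z2]
    ring
  -- the first resultant
  have r1 : Rs22 (uu C x y) (vv C x y) ≠ 0 := by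
    rw [rs22]
    intro p q hpq hu hv
    rw [U] at hu
    rw [V] at hv
    exact two_zero n1 n2 nd (hne p q hpq) ((mul_eq_zero.1 hu).resolve_left hd)
      ((mul_eq_zero.1 hv).resolve_left hd)
  -- the second resultant
  have r2 : Rs22 (uh C x y) (vh C x y) ≠ 0 := by
    rw [rs22]
    intro p q hpq hu hv
    rw [bq_uh, hQ, hx1, hh_add_l, hh_smul_l, hh_smul_l, hhE, hhE, z3, z4] at hu
    rw [bq_vh, hQ, hy1, hh_add_l, hh_smul_l, hh_smul_l, hhE, hhE, z3, z4] at hv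
    have e1 : (X1 * Y2 - X2 * Y1) * d ^ 2 *
        (q * (2 * hh C S b b' * p + hh C S b' b' * q)) = 0 := by
      linear_combination Y2 * hu - X2 * hv
    have e2 : (X1 * Y2 - X2 * Y1) * d ^ 2 *
        (p * (hh C S' b b * p + 2 * hh C S' b b' * q)) = 0 := by
      linear_combination X1 * hv - Y1 * hu
    have nDd : (X1 * Y2 - X2 * Y1) * d ^ 2 ≠ 0 := mul_ne_zero nD (pow_ne_zero 2 hd)
    exact two_zero n4 n3 ne hpq ((mul_eq_zero.1 e1).resolve_left nDd)
      ((mul_eq_zero.1 e2).resolve_left nDd)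
  -- the quintic
  have Q5 : ∀ p q : ℂ, bc (ff C x y) p q * bq (qq C x y) p q =
      bq (vv C x y) p q ^ 2 * (d ^ 2 * (p * X2 + q * Y2) * hh C S' b b) -
      2 * bq (uu C x y) p q * bq (vv C x y) p q *
        (d ^ 2 * ((p * X1 + q * Y1) * hh C S b b' + (p * X2 + q * Y2) * hh C S' b b')) +
      bq (uu C x y) p q ^ 2 * (d ^ 2 * (p * X1 + q * Y1) * hh C S b' b') := by
    intro p q
    rw [← quint h hF p q, hP, hx2, hy2]
    simp only [hh_add_l, hh_smul_l, hh_smul_m, hh_smul_r]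
    rw [z3, z4]
    ring
  have f1 : bc (ff C x y) Y2 (-X2) ≠ 0 := by
    rw [F]
    have e : d * (Y2 * ((Y2 * X2 + -X2 * Y2) *
      (2 * gg C S S' b * (Y2 * X1 + -X2 * Y1) + gg C S' S' b * (Y2 * X2 + -X2 * Y2))) +
      -X2 * ((Y2 * X1 + -X2 * Y1) *
      (gg C S S b' * (Y2 * X1 + -X2 * Y1) + 2 * gg C S S' b' * (Y2 * X2 + -X2 * Y2)))) =
      -(d * X2 * (X1 * Y2 - X2 * Y1) ^ 2 * gg C S S b') := by ring
    rw [e]
    exact neg_ne_zero.2 (mul_ne_zero (mul_ne_zero (mul_ne_zero hd nX) (pow_ne_zero 2 nD)) n1)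
  have f2 : bc (ff C x y) (-Y1) X1 ≠ 0 := by
    rw [F]
    have e : d * (-Y1 * ((-Y1 * X2 + X1 * Y2) *
      (2 * gg C S S' b * (-Y1 * X1 + X1 * Y1) + gg C S' S' b * (-Y1 * X2 + X1 * Y2))) +
      X1 * ((-Y1 * X1 + X1 * Y1) *
      (gg C S S b' * (-Y1 * X1 + X1 * Y1) + 2 * gg C S S' b' * (-Y1 * X2 + X1 * Y2)))) =
      -(d * Y1 * (X1 * Y2 - X2 * Y1) ^ 2 * gg C S' S' b) := by ring
    rw [e]
    exact neg_ne_zero.2 (mul_ne_zero (mul_ne_zero (mul_ne_zero hd nY) (pow_ne_zero 2 nD)) n2)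
  have q1 : bq (qq C x y) Y2 (-X2) = 0 := by
    have h5 := Q5 Y2 (-X2)
    rw [U, V] at h5
    refine (mul_eq_zero.1 (h5.trans ?_)).resolve_left f1
    ring
  have q2 : bq (qq C x y) (-Y1) X1 = 0 := by
    have h5 := Q5 (-Y1) X1
    rw [U, V] at h5
    refine (mul_eq_zero.1 (h5.trans ?_)).resolve_left f2
    ring
  have hq0 : ∃ x0 y0, bq (qq C x y) x0 y0 ≠ 0 := by
    by_contra hcon
    push Not at hcon
    have key : ∀ t : ℂ, t ≠ 0 →
        (gg C S S b' + 2 * gg C S S' b' * t) ^ 2 * hh C S' b b -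
        2 * (gg C S S b' + 2 * gg C S S' b' * t) * (2 * gg C S S' b + gg C S' S' b * t) *
          (hh C S b b' + t * hh C S' b b') +
        t * (2 * gg C S S' b + gg C S' S' b * t) ^ 2 * hh C S b' b' = 0 := by
      intro t ht
      have h5 := Q5 (Y2 - t * Y1) (-X2 + t * X1)
      rw [hcon, U, V, mul_zero] at h5
      have e : (X1 * Y2 - X2 * Y1) ^ 5 * d ^ 4 * t *
        ((gg C S S b' + 2 * gg C S S' b' * t) ^ 2 * hh C S' b b -
        2 * (gg C S S b' + 2 * gg C S S' b' * t) * (2 * gg C S S' b + gg C S' S' b * t) *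
          (hh C S b b' + t * hh C S' b b') +
        t * (2 * gg C S S' b + gg C S' S' b * t) ^ 2 * hh C S b' b') = 0 := by
        rw [h5]
        ring
      exact (mul_eq_zero.1 e).resolve_left
        (mul_ne_zero (mul_ne_zero (pow_ne_zero 5 nD) (pow_ne_zero 4 hd)) ht)
    have k1 := key 1 one_ne_zero
    have k2 := key 2 two_ne_zero
    have k3 := key 3 (by norm_num)
    have k4 := key 4 (by norm_num)
    have k0 : gg C S S b' * X2 = 0 := by
      rw [eX]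
      linear_combination -4 * k1 + 6 * k2 - 4 * k3 + k4
    exact mul_ne_zero n1 nX k0
  have hi : Y2 * X1 - -Y1 * -X2 ≠ 0 := by
    intro hcon
    apply nD
    linear_combination hcon
  obtain ⟨hdisc, hall⟩ := disc_of (qq C x y) q1 q2 hi hq0
  have r3 : Rs23 (qq C x y) (ff C x y) ≠ 0 := by
    rw [rs23]
    intro p q hpq hu
    rcases hall p q hu with e | e
    · have ep : p = (q / -X2) * Y2 := by
        field_simp
        linear_combination -e
      have eq : q = (q / -X2) * -X2 := by field_simp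
      have hl : q / -X2 ≠ 0 := by
        intro h0
        rw [h0, zero_mul] at ep eq
        rcases hpq with hp | hq
        · exact hp ep
        · exact hq eq
      have e3 : bc (ff C x y) p q = (q / -X2) ^ 3 * bc (ff C x y) Y2 (-X2) := by
        rw [← bc_smul, ← ep, ← eq]
      rw [e3]
      exact mul_ne_zero (pow_ne_zero 3 hl) f1
    · have ep : p = (p / -Y1) * -Y1 := by field_simp
      have eq : q = (p / -Y1) * X1 := by
        field_simp
        linear_combination e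
      have hl : p / -Y1 ≠ 0 := by
        intro h0
        rw [h0, zero_mul] at ep eq
        rcases hpq with hp | hq
        · exact hp ep
        · exact hq eq
      have e3 : bc (ff C x y) p q = (p / -Y1) ^ 3 * bc (ff C x y) (-Y1) X1 := by
        rw [← bc_smul, ← ep, ← eq]
      rw [e3]
      exact mul_ne_zero (pow_ne_zero 3 hl) f2
  exact mul_ne_zero (mul_ne_zero (mul_ne_zero r1 r2) hdisc) r3

theorem Lv_open (C : Cub VV) (h : Std2 C) {s s' : VV} (hs : SP C s) (hs' : SP C s')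
    (hG : GG C s s' ≠ 0) : OpenV C (Lv C s s') := by
  obtain ⟨n1, n2, n3, n4, nd1, nd2, nd3, nd4⟩ := GG_parts C hG
  refine ⟨xv C s s', yv C s s', rfl, ?_⟩
  have eX : -(gg C s.1 s.1 s'.2 * hh C s'.1 s.2 s.2 - 4 * gg C s.1 s'.1 s.2 *
      hh C s.1 s.2 s'.2) = -d3 C s s' := by
    rw [d3]
    ring
  have eY : -(gg C s'.1 s'.1 s.2 * hh C s.1 s'.2 s'.2 -
        4 * gg C s.1 s'.1 s'.2 * hh C s'.1 s.2 s'.2) = -d3 C s' s := by
    rw [d3, gg_symm C s'.1 s.1 s'.2, hh_symm C s'.1 s'.2 s.2]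
    ring
  refine core C h (S := s.1) (S' := s'.1) (b := s.2) (b' := s'.2) (d := d1 C s s') hs.2.2.1
    hs'.2.2.1 hs.2.2.2 hs'.2.2.2 n1 n2 n3 n4 nd1 ?_ ?_ ?_ ?_ ?_ rfl (x := xv C s s')
    (y := yv C s s') rfl rfl rfl rfl ?_
  · intro hcon
    apply nd1
    rw [d1]
    linear_combination hcon
  · intro hcon
    apply nd2
    rw [d2]
    linear_combination -hcon
  · intro hcon
    apply mul_ne_zero nd1 nd2
    rw [← hcon, d1, d2]
    ring
  · rw [eX]
    exact neg_ne_zero.2 nd3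
  · rw [eY]
    exact neg_ne_zero.2 nd4
  · intro p q
    exact (Lv_line C h hs hs' hG).2 _ (Submodule.mem_span_pair.2 ⟨p, q, rfl⟩)

end Pool.Agent.P28
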