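import Pool.Agent.P28.FSm
import Pool.Agent.P28.RDefs

set_option autoImplicit false

/-!
# P28 F14: the surface as a smooth complete intersection

PROOF. `f = ∑ i j k, gg C e_i e_j e_k * X (inl i) * X (inl j) * X (inr k)`,
`g = ∑ i j k, hh C e_i e_j e_k * X (inl i) * X (inr j) * X (inr k)` with `e_i = Pi.single i 1`.
`ev1 f s = gg C s.1 s.1 s.2`, `ev1 g s = hh C s.1 s.2 s.2` (expand in the basis, `gg_add_l`, ...
or `C.T` applied to `s.1 = ∑ s.1 i • e_i`). Bihomogeneity: `gg_smul_l` etc.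
Partial derivatives at `s`: `pderiv (inl i) f` has the value `2 gg C s.1 e_i s.2`,
`pderiv (inr k) f` the value `gg C s.1 s.1 e_k`, `pderiv (inl i) g` the value `hh C e_i s.2 s.2`,
`pderiv (inr k) g` the value `2 hh C s.1 s.2 e_k`. If `l * grad f + m * grad g = 0` at a point `s`,
then (linearity in `e_i`) the hypotheses of `S_smooth` hold, so `l = m = 0`
(`LinearIndependent.pair_iff`).
-/

namespace Pool.Agent.P28

open Module MvPolynomial

private theorem fp_expand (T : VV →ₗ[ℂ] VV →ₗ[ℂ] VV →ₗ[ℂ] ℂ) (u v w : Fin 3 → VV)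
    (x y z : Fin 3 → ℂ) :
    T (∑ i, x i • u i) (∑ j, y j • v j) (∑ k, z k • w k) =
      ∑ i, ∑ j, ∑ k, T (u i) (v j) (w k) * (x i * y j * z k) := by
  rw [map_sum T, LinearMap.sum_apply, LinearMap.sum_apply]
  refine Finset.sum_congr rfl fun i _ => ?_
  rw [map_sum (T (x i • u i)), LinearMap.sum_apply]
  refine Finset.sum_congr rfl fun j _ => ?_
  rw [map_sum]
  refine Finset.sum_congr rfl fun k _ => ?_
  simp only [map_smul, LinearMap.smul_apply, smul_eq_mul]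
  ring

private theorem fp_pi (x : Fin 3 → ℂ) : x = ∑ i, x i • (Pi.single i 1 : Fin 3 → ℂ) :=
  (pi_eq_sum_univ' x)

private theorem fp_l (x : Fin 3 → ℂ) : ((x, 0) : VV) = ∑ i, x i • E i := by
  refine Prod.ext ?_ ?_
  · rw [Prod.fst_sum]
    exact fp_pi x
  · rw [Prod.snd_sum]
    symm
    refine Finset.sum_eq_zero fun i _ => ?_
    rw [Prod.smul_snd]
    exact smul_zero _

private theorem fp_r (x : Fin 3 → ℂ) : ((0, x) : VV) = ∑ i, x i • Fv i := by
  refine Prod.ext ?_ ?_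
  · rw [Prod.fst_sum]
    symm
    refine Finset.sum_eq_zero fun i _ => ?_
    rw [Prod.smul_fst]
    exact smul_zero _
  · rw [Prod.snd_sum]
    exact fp_pi x

private theorem fp_gg (C : Cub VV) (x y z : Fin 3 → ℂ) :
    gg C x y z = ∑ i, ∑ j, ∑ k, C.T (E i) (E j) (Fv k) * (x i * y j * z k) := by
  unfold gg
  rw [fp_l x, fp_l y, fp_r z, fp_expand]

private theorem fp_hh (C : Cub VV) (x y z : Fin 3 → ℂ) :
    hh C x y z = ∑ i, ∑ j, ∑ k, C.T (E i) (Fv j) (Fv k) * (x i * y j * z k) := by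
  unfold hh
  rw [fp_l x, fp_r y, fp_r z, fp_expand]

/-- the cubic polynomial with coefficients `c` -/
private noncomputable def fpp (c : Fin 3 → Fin 3 → Fin 3 → ℂ) (p q r : Fin 3 → V2) :
    MvPolynomial V2 ℂ :=
  ∑ i, ∑ j, ∑ k, MvPolynomial.C (c i j k) * (X (p i) * X (q j) * X (r k))

private theorem fpp_eval (c : Fin 3 → Fin 3 → Fin 3 → ℂ) (p q r : Fin 3 → V2) (t : V2 → ℂ) :
    eval t (fpp c p q r) = ∑ i, ∑ j, ∑ k, c i j k * (t (p i) * t (q j) * t (r k)) := by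
  unfold fpp
  simp only [map_sum, map_mul, eval_C, eval_X]

private theorem fpp_pderiv (c : Fin 3 → Fin 3 → Fin 3 → ℂ) (p q r : Fin 3 → V2) (t : V2 → ℂ)
    (n : V2) : eval t (pderiv n (fpp c p q r)) =
      (∑ i, ∑ j, ∑ k, c i j k * ((Pi.single n 1 : V2 → ℂ) (p i) * t (q j) * t (r k))) +
      (∑ i, ∑ j, ∑ k, c i j k * (t (p i) * (Pi.single n 1 : V2 → ℂ) (q j) * t (r k))) +
      ∑ i, ∑ j, ∑ k, c i j k * (t (p i) * t (q j) * (Pi.single n 1 : V2 → ℂ) (r k)) := by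
  have hX : ∀ m : V2, eval t (pderiv n (X m : MvPolynomial V2 ℂ)) =
      (Pi.single n 1 : V2 → ℂ) m := by
    intro m
    rw [pderiv_X]
    by_cases h : m = n
    · subst h
      rw [Pi.single_eq_same, Pi.single_eq_same, map_one]
    · rw [Pi.single_eq_of_ne h, Pi.single_eq_of_ne h, map_zero]
  unfold fpp
  simp only [← Finset.sum_add_distrib, map_sum]
  refine Finset.sum_congr rfl fun i _ => Finset.sum_congr rfl fun j _ =>
    Finset.sum_congr rfl fun k _ => ?_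
  rw [pderiv_C_mul, map_mul, eval_C, pderiv_mul, pderiv_mul]
  simp only [map_add, map_mul, eval_X, hX]
  ring

private theorem fp_sum (x : Fin 3 → ℂ) : x = x 0 • (Pi.single 0 1 : Fin 3 → ℂ) +
    x 1 • (Pi.single 1 1 : Fin 3 → ℂ) + x 2 • (Pi.single 2 1 : Fin 3 → ℂ) := by
  have h := fp_pi x
  rwa [Fin.sum_univ_three] at h

theorem poly_S (C : Cub VV) (h : Std2 C) (hS : C.Smooth) : ∃ f g : MvPolynomial V2 ℂ,
    SmoothCI f g ∧ (∀ s : Pt, ev1 f s = gg C s.1 s.1 s.2) ∧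
      ∀ s : Pt, ev1 g s = hh C s.1 s.2 s.2 := by
  have hf : ∀ s : Pt, ev1 (fpp (fun i j k => C.T (E i) (E j) (Fv k)) Sum.inl Sum.inl Sum.inr) s =
      gg C s.1 s.1 s.2 := by
    intro s
    rw [ev1, fpp_eval, fp_gg]
    rfl
  have hg : ∀ s : Pt, ev1 (fpp (fun i j k => C.T (E i) (Fv j) (Fv k)) Sum.inl Sum.inr Sum.inr) s =
      hh C s.1 s.2 s.2 := by
    intro s
    rw [ev1, fpp_eval, fp_hh]
    rfl
  have df : ∀ (s : Pt) (n : V2),
      ev1 (pderiv n (fpp (fun i j k => C.T (E i) (E j) (Fv k)) Sum.inl Sum.inl Sum.inr)) s =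
      gg C (fun i => (Pi.single n 1 : V2 → ℂ) (Sum.inl i)) s.1 s.2 +
      gg C s.1 (fun i => (Pi.single n 1 : V2 → ℂ) (Sum.inl i)) s.2 +
      gg C s.1 s.1 (fun i => (Pi.single n 1 : V2 → ℂ) (Sum.inr i)) := by
    intro s n
    rw [ev1, fpp_pderiv, fp_gg, fp_gg, fp_gg]
    rfl
  have dg : ∀ (s : Pt) (n : V2),
      ev1 (pderiv n (fpp (fun i j k => C.T (E i) (Fv j) (Fv k)) Sum.inl Sum.inr Sum.inr)) s =
      hh C (fun i => (Pi.single n 1 : V2 → ℂ) (Sum.inl i)) s.2 s.2 +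
      hh C s.1 (fun i => (Pi.single n 1 : V2 → ℂ) (Sum.inr i)) s.2 +
      hh C s.1 s.2 (fun i => (Pi.single n 1 : V2 → ℂ) (Sum.inr i)) := by
    intro s n
    rw [ev1, fpp_pderiv, fp_hh, fp_hh, fp_hh]
    rfl
  have ll : ∀ a : Fin 3, (fun i => (Pi.single (Sum.inl a) 1 : V2 → ℂ) (Sum.inl i)) =
      (Pi.single a 1 : Fin 3 → ℂ) := by
    intro a
    funext i
    by_cases hi : i = a
    · subst hi
      rw [Pi.single_eq_same, Pi.single_eq_same]
    · rw [Pi.single_eq_of_ne hi, Pi.single_eq_of_ne fun h => hi (Sum.inl.inj h)]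
  have rr : ∀ a : Fin 3, (fun i => (Pi.single (Sum.inr a) 1 : V2 → ℂ) (Sum.inr i)) =
      (Pi.single a 1 : Fin 3 → ℂ) := by
    intro a
    funext i
    by_cases hi : i = a
    · subst hi
      rw [Pi.single_eq_same, Pi.single_eq_same]
    · rw [Pi.single_eq_of_ne hi, Pi.single_eq_of_ne fun h => hi (Sum.inr.inj h)]
  have lr : ∀ a : Fin 3, (fun i => (Pi.single (Sum.inl a) 1 : V2 → ℂ) (Sum.inr i)) = 0 := by
    intro a
    funext i
    rw [Pi.single_eq_of_ne Sum.inr_ne_inl]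
    rfl
  have rl : ∀ a : Fin 3, (fun i => (Pi.single (Sum.inr a) 1 : V2 → ℂ) (Sum.inl i)) = 0 := by
    intro a
    funext i
    rw [Pi.single_eq_of_ne Sum.inl_ne_inr]
    rfl
  have z1 : ∀ x y : Fin 3 → ℂ, gg C x y 0 = 0 := by
    intro x y
    have h0 := gg_smul_r C 0 x y 0
    rwa [smul_zero, zero_mul] at h0
  have z2 : ∀ x y : Fin 3 → ℂ, gg C 0 x y = 0 := by
    intro x y
    have h0 := gg_smul_l C 0 0 x y
    rwa [smul_zero, zero_mul] at h0
  have z3 : ∀ x y : Fin 3 → ℂ, gg C x 0 y = 0 := by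
    intro x y
    rw [gg_symm, z2]
  have z4 : ∀ x y : Fin 3 → ℂ, hh C x y 0 = 0 := by
    intro x y
    have h0 := hh_smul_r C 0 x y 0
    rwa [smul_zero, zero_mul] at h0
  have z5 : ∀ x y : Fin 3 → ℂ, hh C 0 x y = 0 := by
    intro x y
    have h0 := hh_smul_l C 0 0 x y
    rwa [smul_zero, zero_mul] at h0
  have z6 : ∀ x y : Fin 3 → ℂ, hh C x 0 y = 0 := by
    intro x y
    rw [hh_symm, z4]
  refine ⟨_, _, ⟨?_, ?_, ?_⟩, hf, hg⟩
  · intro c d s
    rw [hf, hf, gg_smul_l, gg_smul_m, gg_smul_r]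
    ring
  · intro c d s
    rw [hg, hg, hh_smul_l, hh_smul_m, hh_smul_r]
    ring
  · intro s hs
    have hSP : SP C s := ⟨hs.1, hs.2.1, by rw [← hf]; exact hs.2.2.1, by rw [← hg]; exact hs.2.2.2⟩
    rw [LinearIndependent.pair_iff]
    intro l m hlm
    have k1 : ∀ a : Fin 3, l * (2 * gg C s.1 (Pi.single a 1) s.2) +
        m * hh C (Pi.single a 1) s.2 s.2 = 0 := by
      intro a
      have h1 := congrFun hlm (Sum.inl a)
      simp only [Pi.add_apply, Pi.smul_apply, smul_eq_mul, Pi.zero_apply] at h1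
      rw [df, dg, ll, lr, z1, z4, z6, gg_symm C (Pi.single a 1)] at h1
      linear_combination h1
    have k2 : ∀ a : Fin 3, l * gg C s.1 s.1 (Pi.single a 1) +
        m * (2 * hh C s.1 s.2 (Pi.single a 1)) = 0 := by
      intro a
      have h1 := congrFun hlm (Sum.inr a)
      simp only [Pi.add_apply, Pi.smul_apply, smul_eq_mul, Pi.zero_apply] at h1
      rw [df, dg, rl, rr, z2, z3, z5, hh_symm C s.1 (Pi.single a 1)] at h1
      linear_combination h1
    refine S_smooth C h hS hSP (fun a => ?_) fun b => ?_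
    · rw [fp_sum a]
      simp only [gg_add_m, gg_smul_m, hh_add_l, hh_smul_l]
      linear_combination a 0 * k1 0 + a 1 * k1 1 + a 2 * k1 2
    · rw [fp_sum b]
      simp only [gg_add_r, gg_smul_r, hh_add_r, hh_smul_r]
      linear_combination b 0 * k2 0 + b 1 * k2 1 + b 2 * k2 2

end Pool.Agent.P28
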