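import Pool.Agent.P28.FPoly
import Pool.Agent.P28.FPolS
import Pool.Agent.P28.FGood
import Pool.Agent.P28.FInj
import Pool.Agent.P28.FOpen

set_option autoImplicit false

/-!
# P28 F15: the variety of lines and the symmetric square of the surface

`e : VV ≃ₗ (Fin 6 → ℂ)`, `C = C6.comp e`.
PROOF. `Std2 C` by the two hypotheses; `C` is smooth (`e` is bijective). Take `f, g` from
`poly_S`, `G` from `poly_GG`, `x, y` from `poly_xv`, `poly_yv` (for `e`), `H` from `poly_HH` (for
`e.symm`). Then `OnS f g s ↔ SP C s`, `Same = Sm`, `lineOf x y s s' = (Lv C s s').map e`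
(`Submodule.map_span`, `Set.image_pair`), `PLine F (L.map e) ↔ CLine C L`
(`LinearEquiv.finrank_map_eq`; `C.T v v v = eval (e v) F`), `Open H (L.map e) ↔ OpenV C L`
(bases of `L.map e` are the images of the bases of `L`), every `L'` is `(L'.comap e).map e` (or
`L'.map e.symm`).
(1) `good_exists`. (2) `Lv_line`, `Lv_open`. (3) `Lv_surj`. (4) `Submodule.map` by an injective map
is injective; `→`: `Lv_inj`; `←`: `Lv_same`, `Lv_swap` (`Same s r' ∧ Same s' r`:
`Lv r r' = Lv r' r = Lv s s'`; `GG_symm`).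
-/

namespace Pool.Agent.P28

open Module MvPolynomial

theorem bir_sym (F : MvPolynomial (Fin 6) ℂ) (C6 : Cub (Fin 6 → ℂ))
    (hC : ∀ v, C6.T v v v = eval v F) (hS : C6.Smooth) (e : VV ≃ₗ[ℂ] (Fin 6 → ℂ))
    (h1 : ∀ x y z : Fin 3 → ℂ, C6.T (e (x, 0)) (e (y, 0)) (e (z, 0)) = 0)
    (h2 : ∀ x y z : Fin 3 → ℂ, C6.T (e (0, x)) (e (0, y)) (e (0, z)) = 0) :
    ∃ f g : MvPolynomial V2 ℂ, SmoothCI f g ∧ BirSym F f g := by
  obtain ⟨C, hCdef⟩ : ∃ C : Cub VV, C = C6.comp e.toLinearMap := ⟨_, rfl⟩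
  have hCT : ∀ x y z, C.T x y z = C6.T (e x) (e y) (e z) := by
    intro x y z
    rw [hCdef]
    exact comp_T C6 e.toLinearMap x y z
  have hstd : Std2 C := by
    refine ⟨fun x y z => ?_, fun x y z => ?_⟩
    · rw [hCT]
      exact h1 x y z
    · rw [hCT]
      exact h2 x y z
  have hsm : C.Smooth := by
    intro v hv
    obtain ⟨z, hz⟩ := hS (e v) fun h0 => hv (e.map_eq_zero_iff.mp h0)
    refine ⟨e.symm z, ?_⟩
    rw [hCT, e.apply_symm_apply]
    exact hz
  obtain ⟨f, g, hci, hf, hg⟩ := poly_S C hstd hsm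
  obtain ⟨G, hG⟩ := poly_GG C
  obtain ⟨x, hx⟩ := poly_xv C e.toLinearMap
  obtain ⟨y, hy⟩ := poly_yv C e.toLinearMap
  obtain ⟨H, hH⟩ := poly_HH C e.symm.toLinearMap
  have hOn : ∀ s : Pt, OnS f g s ↔ SP C s := by
    intro s
    unfold OnS SP
    rw [hf, hg]
  have hinj : Function.Injective (Submodule.map e.toLinearMap) :=
    Submodule.map_injective_of_injective e.injective
  have hline : ∀ s s' : Pt, lineOf x y s s' = (Lv C s s').map e.toLinearMap := by
    intro s s'
    unfold lineOf Lv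
    rw [Submodule.map_span, Set.image_pair, hx, hy]
  have hPL : ∀ L : Submodule ℂ VV, PLine F (L.map e.toLinearMap) ↔ CLine C L := by
    intro L
    unfold PLine CLine
    have hfr : finrank ℂ (L.map e.toLinearMap) = finrank ℂ L := LinearEquiv.finrank_map_eq e L
    rw [hfr]
    refine and_congr_right fun _ => ?_
    constructor
    · intro h v hv
      rw [hCT, hC]
      exact h _ ⟨v, hv, rfl⟩
    · rintro h _ ⟨v, hv, rfl⟩
      have h3 := h v hv
      rw [hCT, hC] at h3
      exact h3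
  have hback : ∀ L' : Submodule ℂ (Fin 6 → ℂ),
      (L'.map e.symm.toLinearMap).map e.toLinearMap = L' := by
    intro L'
    ext v
    constructor
    · rintro ⟨w, ⟨u, hu, rfl⟩, rfl⟩
      have h3 : e (e.symm u) = u := e.apply_symm_apply u
      change e (e.symm u) ∈ L'
      rw [h3]
      exact hu
    · intro hv
      exact ⟨e.symm v, ⟨v, hv, rfl⟩, e.apply_symm_apply v⟩
  have hOp : ∀ L : Submodule ℂ VV, Open H (L.map e.toLinearMap) ↔ OpenV C L := by
    intro L
    constructor
    · rintro ⟨x', y', hL, hne⟩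
      rw [hH] at hne
      refine ⟨e.symm x', e.symm y', ?_, hne⟩
      apply hinj
      rw [hL, Submodule.map_span, Set.image_pair]
      have h3 : e.toLinearMap (e.symm x') = x' := e.apply_symm_apply x'
      have h4 : e.toLinearMap (e.symm y') = y' := e.apply_symm_apply y'
      rw [h3, h4]
    · rintro ⟨x', y', hL, hne⟩
      refine ⟨e x', e y', ?_, ?_⟩
      · rw [hL, Submodule.map_span, Set.image_pair]
        rfl
      · rw [hH]
        have h3 : e.symm.toLinearMap (e x') = x' := e.symm_apply_apply x'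
        have h4 : e.symm.toLinearMap (e y') = y' := e.symm_apply_apply y'
        rw [h3, h4]
        exact hne
  refine ⟨f, g, hci, G, H, x, y, ?_, ?_, ?_, ?_⟩
  · obtain ⟨s, s', hs, hs', hne⟩ := good_exists C hstd hsm
    refine ⟨s, s', (hOn s).mpr hs, (hOn s').mpr hs', ?_⟩
    rw [hG]
    exact hne
  · intro s s' hs hs' hne
    rw [hOn] at hs hs'
    rw [hG] at hne
    rw [hline, hPL, hOp]
    exact ⟨Lv_line C hstd hs hs' hne, Lv_open C hstd hs hs' hne⟩
  · intro L' hL' hO'
    rw [← hback L', hPL] at hL'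
    rw [← hback L', hOp] at hO'
    obtain ⟨s, s', hs, hs', hne, hL⟩ := Lv_surj C hstd hL' hO'
    refine ⟨s, s', (hOn s).mpr hs, (hOn s').mpr hs', ?_, ?_⟩
    · rw [hG]
      exact hne
    · rw [hline, ← hL, hback]
  · intro s s' r r' hs hs' hr hr' hne hne'
    rw [hOn] at hs hs' hr hr'
    rw [hG] at hne hne'
    rw [hline, hline, hinj.eq_iff]
    constructor
    · intro hL
      exact Lv_inj C hs hs' hr hr' hne hne' hL
    · rintro (⟨h3, h4⟩ | ⟨h3, h4⟩)
      · exact (Lv_same C hne h3 h4).symm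
      · rw [← Lv_same C hne h3 h4]
        exact Lv_swap C (GG_parts C hne').2.2.2.2.1

end Pool.Agent.P28
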