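import Pool.Agent.P28.HDefs

set_option autoImplicit false

/-!
# P28 F01: pairs of points of the surface

PROOFS. `parts`: `mul_ne_zero_iff`. `GG_symm`: unfold, use `gg_symm`, `hh_symm`, `ring`
(`d1`, `d2` are symmetric in `s, s'`).
`ind1`: if `s'.1 = c s.1` (`LinearIndependent.pair_iff'`), then
`d1 = c^2 gg s.1 s.1 s'.2 * gg s.1 s.1 s.2 - 4 c^2 gg s.1 s.1 s'.2 * gg s.1 s.1 s.2 = 0` as
`gg s.1 s.1 s.2 = 0`. `ind2`: if `s'.2 = c s.2` then `hh s.1 s.2 s'.2 = c hh s.1 s.2 s.2 = 0` and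
`hh s.1 s'.2 s'.2 = c^2 hh s.1 s.2 s.2 = 0`, so `d2 = 0`.
`Sm_*`: `Sm` is an equivalence relation on pairs. `SP_same`: scale. `GG_same`: every factor of
`GG` is multiplied by a nonzero monomial of `c, d, c', d'` (use `gg_smul_l` etc.):
`d1` by `c^2 c'^2 d d'`, `d2` by `c c' d^2 d'^2`, `d3 s s'` by `c^2 c' d^2 d'`.
-/

namespace Pool.Agent.P28

theorem GG_parts (C : Cub VV) {s s' : VV} (hG : GG C s s' ≠ 0) :
    gg C s.1 s.1 s'.2 ≠ 0 ∧ gg C s'.1 s'.1 s.2 ≠ 0 ∧ hh C s.1 s'.2 s'.2 ≠ 0 ∧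
      hh C s'.1 s.2 s.2 ≠ 0 ∧ d1 C s s' ≠ 0 ∧ d2 C s s' ≠ 0 ∧ d3 C s s' ≠ 0 ∧ d3 C s' s ≠ 0 := by
  unfold GG at hG
  simp only [mul_ne_zero_iff] at hG
  obtain ⟨⟨⟨⟨⟨⟨⟨h1, h2⟩, h3⟩, h4⟩, h5⟩, h6⟩, h7⟩, h8⟩ := hG
  exact ⟨h1, h2, h3, h4, h5, h6, h7, h8⟩

theorem GG_symm (C : Cub VV) (s s' : VV) : GG C s' s = GG C s s' := by
  unfold GG d1 d2
  rw [gg_symm C s'.1 s.1 s.2, gg_symm C s'.1 s.1 s'.2, hh_symm C s'.1 s'.2 s.2,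
    hh_symm C s.1 s'.2 s.2]
  ring

theorem ind1 (C : Cub VV) {s s' : VV} (hs : SP C s) (hs' : SP C s') (hd : d1 C s s' ≠ 0) :
    LinearIndependent ℂ ![s.1, s'.1] := by
  rw [LinearIndependent.pair_iff' hs.1]
  intro c hc
  apply hd
  have h1 : gg C s.1 s.1 s.2 = 0 := hs.2.2.1
  unfold d1
  rw [← hc]
  simp only [gg_smul_l, gg_smul_m, gg_smul_r]
  rw [h1]
  ring

theorem ind2 (C : Cub VV) {s s' : VV} (hs : SP C s) (hs' : SP C s') (hd : d2 C s s' ≠ 0) :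
    LinearIndependent ℂ ![s.2, s'.2] := by
  rw [LinearIndependent.pair_iff' hs.2.1]
  intro c hc
  apply hd
  have h1 : hh C s.1 s.2 s.2 = 0 := hs.2.2.2
  unfold d2
  rw [← hc]
  simp only [hh_smul_l, hh_smul_m, hh_smul_r]
  rw [h1]
  ring

theorem Sm_refl (s : VV) : Sm s s := ⟨⟨1, one_ne_zero, (one_smul _ _).symm⟩,
  ⟨1, one_ne_zero, (one_smul _ _).symm⟩⟩

theorem Sm_symm {s s' : VV} (h : Sm s s') : Sm s' s := by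
  obtain ⟨⟨c, hc, h1⟩, ⟨d, hd, h2⟩⟩ := h
  refine ⟨⟨c⁻¹, inv_ne_zero hc, ?_⟩, ⟨d⁻¹, inv_ne_zero hd, ?_⟩⟩
  · rw [h1, smul_smul, inv_mul_cancel₀ hc, one_smul]
  · rw [h2, smul_smul, inv_mul_cancel₀ hd, one_smul]

theorem Sm_trans {s s' s'' : VV} (h : Sm s s') (h' : Sm s' s'') : Sm s s'' := by
  obtain ⟨⟨c, hc, h1⟩, ⟨d, hd, h2⟩⟩ := h
  obtain ⟨⟨c', hc', h1'⟩, ⟨d', hd', h2'⟩⟩ := h'
  refine ⟨⟨c' * c, mul_ne_zero hc' hc, ?_⟩, ⟨d' * d, mul_ne_zero hd' hd, ?_⟩⟩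
  · rw [h1', h1, smul_smul]
  · rw [h2', h2, smul_smul]

theorem SP_same (C : Cub VV) {s r : VV} (hs : SP C s) (h : Sm s r) : SP C r := by
  obtain ⟨⟨c, hc, h1⟩, ⟨d, hd, h2⟩⟩ := h
  obtain ⟨a1, a2, a3, a4⟩ := hs
  refine ⟨?_, ?_, ?_, ?_⟩
  · rw [h1]; exact smul_ne_zero hc a1
  · rw [h2]; exact smul_ne_zero hd a2
  · rw [h1, h2, gg_smul_l, gg_smul_m, gg_smul_r, a3]; ring
  · rw [h1, h2, hh_smul_l, hh_smul_m, hh_smul_r, a4]; ring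

theorem GG_same (C : Cub VV) {s s' r r' : VV} (hG : GG C s s' ≠ 0) (h : Sm s r) (h' : Sm s' r') :
    GG C r r' ≠ 0 := by
  obtain ⟨⟨c, hc, h1⟩, ⟨d, hd, h2⟩⟩ := h
  obtain ⟨⟨c', hc', h1'⟩, ⟨d', hd', h2'⟩⟩ := h'
  have key : GG C r r' = (c * c * d') * (c' * c' * d) * (c * d' * d') * (c' * d * d) *
      (c ^ 2 * c' ^ 2 * d * d') * (c * c' * d ^ 2 * d' ^ 2) * (c ^ 2 * c' * d ^ 2 * d') *
      (c' ^ 2 * c * d' ^ 2 * d) * GG C s s' := by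
    unfold GG d1 d2 d3
    rw [h1, h2, h1', h2']
    simp only [gg_smul_l, gg_smul_m, gg_smul_r, hh_smul_l, hh_smul_m, hh_smul_r]
    ring
  rw [key]
  refine mul_ne_zero ?_ hG
  simp only [ne_eq, mul_eq_zero, pow_eq_zero_iff, hc, hd, hc', hd', or_self, not_false_eq_true,
    OfNat.ofNat_ne_zero]

end Pool.Agent.P28
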