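import Pool.Agent.P28.FInd

set_option autoImplicit false

/-!
# P28 F02: the residual line in coordinates

PROOFS. Write `g112 = gg s.1 s.1 s'.2`, `g122 = gg s.1 s'.1 s'.2`, `g121 = gg s.1 s'.1 s.2`,
`g221 = gg s'.1 s'.1 s.2`, `h112 = hh s.1 s.2 s'.2`, `h122 = hh s.1 s'.2 s'.2`,
`h211 = hh s'.1 s.2 s.2`, `h212 = hh s'.1 s.2 s'.2`;
`AA = g112 p1 + 2 g122 p2 + 2 h112 q1 + h122 q2`, `BB = 2 g121 p1 + g221 p2 + h211 q1 + 2 h212 q2`,
`d1` = determinant of the `p`-part, `d2` = determinant of the `q`-part.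
`mem_Lv` (only `d1 ≠ 0` is needed): `xv` has the coordinates
`p1 = -(2 g221 h112 - 2 g122 h211)`, `p2 = -(g112 h211 - 4 g121 h112)`, `q1 = d1`, `q2 = 0` and
`yv` has `p1 = -(g221 h122 - 4 g122 h212)`, `p2 = -(2 g112 h212 - 2 g121 h122)`, `q1 = 0`,
`q2 = d1`; both satisfy `AA = BB = 0` (ring), so do all linear combinations. Conversely if
`AA = BB = 0` at `(p, q)`, then `v = (q1 / d1) xv + (q2 / d1) yv`: the `q`-coordinates agree, and
`p1, p2` are determined by `q` by Cramer: `d1 p1 = g221 (AA - ...) - 2 g122 (BB - ...)`, i.e.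
`p1 = (q1/d1) * (-(2 g221 h112 - 2 g122 h211)) + (q2/d1) * (-(g221 h122 - 4 g122 h212))` (field_simp
and linear_combination `g221 * hA - 2 * g122 * hB`), similarly `p2`.
`Lv_line`: `xv`, `yv` are independent since `d1 s.2, d1 s'.2` are (`ind2`), `finrank_span`; the
cubic vanishes by `span_eq`.
`Lv_fst`: if `v.1 = 0` then `p1 = p2 = 0` (`ind1`), then `AA = BB = 0` gives `q = 0` (`d2 ≠ 0`).
`Lv_snd`: same with `d1`. `Lv_map_fst`: the image of `Lv` under the first projection is contained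
in `span {s.1, s'.1}`, and both have dimension 2 (`Lv_fst`). Same for the second projection.
`coords`: uniqueness of the coordinates, from `ind1`, `ind2`.
-/

namespace Pool.Agent.P28

open Module

theorem coords {a a' b b' : Fin 3 → ℂ} (h1 : LinearIndependent ℂ ![a, a'])
    (h2 : LinearIndependent ℂ ![b, b']) {p1 p2 q1 q2 p1' p2' q1' q2' : ℂ}
    (h : ((p1 • a + p2 • a', q1 • b + q2 • b') : VV) = (p1' • a + p2' • a', q1' • b + q2' • b')) :
    p1 = p1' ∧ p2 = p2' ∧ q1 = q1' ∧ q2 = q2' := by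
  obtain ⟨e1, e2⟩ := Prod.ext_iff.mp h
  simp only at e1 e2
  rw [LinearIndependent.pair_iff] at h1 h2
  have k1 := h1 (p1 - p1') (p2 - p2') (by
    rw [← sub_eq_zero.mpr e1]
    module)
  have k2 := h2 (q1 - q1') (q2 - q2') (by
    rw [← sub_eq_zero.mpr e2]
    module)
  exact ⟨sub_eq_zero.mp k1.1, sub_eq_zero.mp k1.2, sub_eq_zero.mp k2.1, sub_eq_zero.mp k2.2⟩

theorem mem_Lv (C : Cub VV) {s s' : VV} (hd : d1 C s s' ≠ 0) (v : VV) :
    v ∈ Lv C s s' ↔ ∃ p1 p2 q1 q2 : ℂ, v = (p1 • s.1 + p2 • s'.1, q1 • s.2 + q2 • s'.2) ∧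
      AA C s s' p1 p2 q1 q2 = 0 ∧ BB C s s' p1 p2 q1 q2 = 0 := by
  constructor
  · intro hv
    obtain ⟨a, b, rfl⟩ := Submodule.mem_span_pair.mp hv
    refine ⟨a * (-(2 * gg C s'.1 s'.1 s.2 * hh C s.1 s.2 s'.2 -
        2 * gg C s.1 s'.1 s'.2 * hh C s'.1 s.2 s.2)) +
          b * (-(gg C s'.1 s'.1 s.2 * hh C s.1 s'.2 s'.2 -
            4 * gg C s.1 s'.1 s'.2 * hh C s'.1 s.2 s'.2)),
      a * (-(gg C s.1 s.1 s'.2 * hh C s'.1 s.2 s.2 -
        4 * gg C s.1 s'.1 s.2 * hh C s.1 s.2 s'.2)) +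
          b * (-(2 * gg C s.1 s.1 s'.2 * hh C s'.1 s.2 s'.2 -
            2 * gg C s.1 s'.1 s.2 * hh C s.1 s'.2 s'.2)),
      a * d1 C s s', b * d1 C s s', ?_, ?_, ?_⟩
    · refine Prod.ext ?_ ?_
      · simp only [xv, yv, Prod.fst_add, Prod.smul_fst]
        module
      · simp only [xv, yv, Prod.snd_add, Prod.smul_snd]
        module
    · simp only [AA, d1]
      ring
    · simp only [BB, d1]
      ring
  · rintro ⟨p1, p2, q1, q2, rfl, hA, hB⟩
    refine Submodule.mem_span_pair.mpr ⟨q1 / d1 C s s', q2 / d1 C s s', ?_⟩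
    have e1 : q1 / d1 C s s' * (-(2 * gg C s'.1 s'.1 s.2 * hh C s.1 s.2 s'.2 -
        2 * gg C s.1 s'.1 s'.2 * hh C s'.1 s.2 s.2)) +
          q2 / d1 C s s' * (-(gg C s'.1 s'.1 s.2 * hh C s.1 s'.2 s'.2 -
            4 * gg C s.1 s'.1 s'.2 * hh C s'.1 s.2 s'.2)) = p1 := by
      rw [div_mul_eq_mul_div, div_mul_eq_mul_div, ← add_div, div_eq_iff hd]
      simp only [AA] at hA
      simp only [BB] at hB
      simp only [d1]
      linear_combination -gg C s'.1 s'.1 s.2 * hA + 2 * gg C s.1 s'.1 s'.2 * hB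
    have e2 : q1 / d1 C s s' * (-(gg C s.1 s.1 s'.2 * hh C s'.1 s.2 s.2 -
        4 * gg C s.1 s'.1 s.2 * hh C s.1 s.2 s'.2)) +
          q2 / d1 C s s' * (-(2 * gg C s.1 s.1 s'.2 * hh C s'.1 s.2 s'.2 -
            2 * gg C s.1 s'.1 s.2 * hh C s.1 s'.2 s'.2)) = p2 := by
      rw [div_mul_eq_mul_div, div_mul_eq_mul_div, ← add_div, div_eq_iff hd]
      simp only [AA] at hA
      simp only [BB] at hB
      simp only [d1]
      linear_combination -gg C s.1 s.1 s'.2 * hB + 2 * gg C s.1 s'.1 s.2 * hA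
    refine Prod.ext ?_ ?_
    · simp only [xv, yv, Prod.fst_add, Prod.smul_fst]
      conv_rhs => rw [← e1, ← e2]
      module
    · simp only [xv, yv, Prod.snd_add, Prod.smul_snd]
      rw [smul_smul, smul_smul, div_mul_cancel₀ _ hd, div_mul_cancel₀ _ hd]

theorem Lv_finrank (C : Cub VV) {s s' : VV} (hs : SP C s) (hs' : SP C s')
    (hd : d1 C s s' ≠ 0) (hd2 : d2 C s s' ≠ 0) : finrank ℂ (Lv C s s') = 2 := by
  have h2 := ind2 C hs hs' hd2
  rw [LinearIndependent.pair_iff] at h2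
  have hli : LinearIndependent ℂ ![xv C s s', yv C s s'] := by
    rw [LinearIndependent.pair_iff]
    intro a b hab
    have e := congrArg Prod.snd hab
    simp only [xv, yv, Prod.snd_add, Prod.smul_snd, smul_smul, Prod.snd_zero] at e
    have k := h2 _ _ e
    exact ⟨(mul_eq_zero.mp k.1).resolve_right hd, (mul_eq_zero.mp k.2).resolve_right hd⟩
  have h3 := finrank_span_eq_card hli
  rw [Matrix.range_cons_cons_empty, Fintype.card_fin] at h3
  exact h3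

theorem Lv_line (C : Cub VV) (h : Std2 C) {s s' : VV} (hs : SP C s) (hs' : SP C s')
    (hG : GG C s s' ≠ 0) : CLine C (Lv C s s') := by
  have hp := GG_parts C hG
  refine ⟨Lv_finrank C hs hs' hp.2.2.2.2.1 hp.2.2.2.2.2.1, fun v hv => ?_⟩
  obtain ⟨p1, p2, q1, q2, rfl, hA, hB⟩ := (mem_Lv C hp.2.2.2.2.1 v).mp hv
  rw [span_eq h hs hs', hA, hB]
  ring

theorem Lv_fst (C : Cub VV) {s s' : VV} (hs : SP C s) (hs' : SP C s')
    (hG : GG C s s' ≠ 0) {v : VV} (hv : v ∈ Lv C s s') (h0 : v.1 = 0) : v = 0 := by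
  have hp := GG_parts C hG
  have hd1 := hp.2.2.2.2.1
  have hd2 := hp.2.2.2.2.2.1
  obtain ⟨p1, p2, q1, q2, rfl, hA, hB⟩ := (mem_Lv C hd1 v).mp hv
  have hi := ind1 C hs hs' hd1
  rw [LinearIndependent.pair_iff] at hi
  obtain ⟨rfl, rfl⟩ := hi p1 p2 h0
  have k1 : d2 C s s' * q1 = 0 := by
    simp only [AA] at hA
    simp only [BB] at hB
    simp only [d2]
    linear_combination 2 * hh C s'.1 s.2 s'.2 * hA - hh C s.1 s'.2 s'.2 * hB
  have k2 : d2 C s s' * q2 = 0 := by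
    simp only [AA] at hA
    simp only [BB] at hB
    simp only [d2]
    linear_combination 2 * hh C s.1 s.2 s'.2 * hB - hh C s'.1 s.2 s.2 * hA
  rw [(mul_eq_zero.mp k1).resolve_left hd2, (mul_eq_zero.mp k2).resolve_left hd2]
  simp only [zero_smul, add_zero, Prod.mk_zero_zero]

theorem Lv_snd (C : Cub VV) {s s' : VV} (hs : SP C s) (hs' : SP C s')
    (hG : GG C s s' ≠ 0) {v : VV} (hv : v ∈ Lv C s s') (h0 : v.2 = 0) : v = 0 := by
  have hp := GG_parts C hG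
  have hd1 := hp.2.2.2.2.1
  have hd2 := hp.2.2.2.2.2.1
  obtain ⟨p1, p2, q1, q2, rfl, hA, hB⟩ := (mem_Lv C hd1 v).mp hv
  have hi := ind2 C hs hs' hd2
  rw [LinearIndependent.pair_iff] at hi
  obtain ⟨rfl, rfl⟩ := hi q1 q2 h0
  have k1 : d1 C s s' * p1 = 0 := by
    simp only [AA] at hA
    simp only [BB] at hB
    simp only [d1]
    linear_combination gg C s'.1 s'.1 s.2 * hA - 2 * gg C s.1 s'.1 s'.2 * hB
  have k2 : d1 C s s' * p2 = 0 := by
    simp only [AA] at hA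
    simp only [BB] at hB
    simp only [d1]
    linear_combination gg C s.1 s.1 s'.2 * hB - 2 * gg C s.1 s'.1 s.2 * hA
  rw [(mul_eq_zero.mp k1).resolve_left hd1, (mul_eq_zero.mp k2).resolve_left hd1]
  simp only [zero_smul, add_zero, Prod.mk_zero_zero]

theorem Lv_map_fst (C : Cub VV) {s s' : VV} (hs : SP C s) (hs' : SP C s')
    (hG : GG C s s' ≠ 0) :
    (Lv C s s').map (LinearMap.fst ℂ (Fin 3 → ℂ) (Fin 3 → ℂ)) =
      Submodule.span ℂ {s.1, s'.1} := by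
  have hp := GG_parts C hG
  have hd1 := hp.2.2.2.2.1
  have hd2 := hp.2.2.2.2.2.1
  refine le_antisymm ?_ ?_
  · rintro _ ⟨v, hv, rfl⟩
    obtain ⟨p1, p2, q1, q2, rfl, hA, hB⟩ := (mem_Lv C hd1 v).mp hv
    exact Submodule.mem_span_pair.mpr ⟨p1, p2, rfl⟩
  · intro w hw
    obtain ⟨p1, p2, rfl⟩ := Submodule.mem_span_pair.mp hw
    refine ⟨(p1 • s.1 + p2 • s'.1,
      (-(2 * hh C s'.1 s.2 s'.2 * (gg C s.1 s.1 s'.2 * p1 + 2 * gg C s.1 s'.1 s'.2 * p2) -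
        hh C s.1 s'.2 s'.2 * (2 * gg C s.1 s'.1 s.2 * p1 + gg C s'.1 s'.1 s.2 * p2)) /
          d2 C s s') • s.2 +
      (-(2 * hh C s.1 s.2 s'.2 * (2 * gg C s.1 s'.1 s.2 * p1 + gg C s'.1 s'.1 s.2 * p2) -
        hh C s'.1 s.2 s.2 * (gg C s.1 s.1 s'.2 * p1 + 2 * gg C s.1 s'.1 s'.2 * p2)) /
          d2 C s s') • s'.2), (mem_Lv C hd1 _).mpr ⟨p1, p2, _, _, rfl, ?_, ?_⟩, rfl⟩
    · simp only [AA]
      field_simp
      simp only [d2]
      ring
    · simp only [BB]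
      field_simp
      simp only [d2]
      ring

theorem Lv_map_snd (C : Cub VV) {s s' : VV} (hs : SP C s) (hs' : SP C s')
    (hG : GG C s s' ≠ 0) :
    (Lv C s s').map (LinearMap.snd ℂ (Fin 3 → ℂ) (Fin 3 → ℂ)) =
      Submodule.span ℂ {s.2, s'.2} := by
  have hp := GG_parts C hG
  have hd1 := hp.2.2.2.2.1
  refine le_antisymm ?_ ?_
  · rintro _ ⟨v, hv, rfl⟩
    obtain ⟨p1, p2, q1, q2, rfl, hA, hB⟩ := (mem_Lv C hd1 v).mp hv
    exact Submodule.mem_span_pair.mpr ⟨q1, q2, rfl⟩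
  · intro w hw
    obtain ⟨q1, q2, rfl⟩ := Submodule.mem_span_pair.mp hw
    refine ⟨((-(gg C s'.1 s'.1 s.2 * (2 * hh C s.1 s.2 s'.2 * q1 + hh C s.1 s'.2 s'.2 * q2) -
        2 * gg C s.1 s'.1 s'.2 * (hh C s'.1 s.2 s.2 * q1 + 2 * hh C s'.1 s.2 s'.2 * q2)) /
          d1 C s s') • s.1 +
      (-(gg C s.1 s.1 s'.2 * (hh C s'.1 s.2 s.2 * q1 + 2 * hh C s'.1 s.2 s'.2 * q2) -
        2 * gg C s.1 s'.1 s.2 * (2 * hh C s.1 s.2 s'.2 * q1 + hh C s.1 s'.2 s'.2 * q2)) /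
          d1 C s s') • s'.1, q1 • s.2 + q2 • s'.2),
      (mem_Lv C hd1 _).mpr ⟨_, _, q1, q2, rfl, ?_, ?_⟩, rfl⟩
    · simp only [AA]
      field_simp
      simp only [d1]
      ring
    · simp only [BB]
      field_simp
      simp only [d1]
      ring

end Pool.Agent.P28
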