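import Pool.Agent.P28.HDefs
import Pool.Agent.P28.RDefs

set_option autoImplicit false

/-!
# P28 F13: the functions `GG`, `xv`, `yv`, `HH` are given by polynomials

`PF φ`: the function `φ` on `ι → ℂ` is the evaluation of a polynomial.

PROOFS. `PF` is closed under sums, products, negation, constants, powers and contains the
coordinates. Expand `gg C a a' b = ∑ i j k, a i * a' j * b k * gg C e_i e_j e_k` (`gg_expand`), so
`gg`, `hh` of polynomial vectors are `PF` (`PF_gg`, `PF_hh`). `GG` is a product of eight such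
functions; the coordinates of `xv`, `yv` are `PF`, and `e` is linear: `e v i = ∑ k, (coordinate of
v) * (e (basis vector)) i` (`VV = (Fin 3 → ℂ) × (Fin 3 → ℂ)`). `Rs22`, `Rs23`
(`Matrix.det_succ_row_zero`, or expand the determinant as a sum over permutations
`Matrix.det_apply`: `PF_det`) of `PF` vectors are `PF`.
-/

namespace Pool.Agent.P28

open Module MvPolynomial

/-- The function is a polynomial function. -/
def PF {ι : Type} (φ : (ι → ℂ) → ℂ) : Prop := ∃ p : MvPolynomial ι ℂ, ∀ x, eval x p = φ x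

theorem PF_const {ι : Type} (c : ℂ) : PF (fun _ : ι → ℂ => c) :=
  ⟨MvPolynomial.C c, fun _ => eval_C c⟩

theorem PF_coord {ι : Type} (i : ι) : PF (fun x : ι → ℂ => x i) :=
  ⟨X i, fun _ => eval_X i⟩

theorem PF_add {ι : Type} {φ ψ : (ι → ℂ) → ℂ} (h : PF φ) (h' : PF ψ) :
    PF (fun x => φ x + ψ x) := by
  obtain ⟨p, hp⟩ := h
  obtain ⟨q, hq⟩ := h'
  exact ⟨p + q, fun x => by rw [map_add, hp, hq]⟩

theorem PF_mul {ι : Type} {φ ψ : (ι → ℂ) → ℂ} (h : PF φ) (h' : PF ψ) :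
    PF (fun x => φ x * ψ x) := by
  obtain ⟨p, hp⟩ := h
  obtain ⟨q, hq⟩ := h'
  exact ⟨p * q, fun x => by rw [map_mul, hp, hq]⟩

theorem PF_neg {ι : Type} {φ : (ι → ℂ) → ℂ} (h : PF φ) : PF (fun x => -φ x) := by
  obtain ⟨p, hp⟩ := h
  exact ⟨-p, fun x => by rw [map_neg, hp]⟩

theorem PF_sub {ι : Type} {φ ψ : (ι → ℂ) → ℂ} (h : PF φ) (h' : PF ψ) :
    PF (fun x => φ x - ψ x) := by
  obtain ⟨p, hp⟩ := h
  obtain ⟨q, hq⟩ := h'
  exact ⟨p - q, fun x => by rw [map_sub, hp, hq]⟩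

theorem PF_pow {ι : Type} {φ : (ι → ℂ) → ℂ} (h : PF φ) (n : ℕ) : PF (fun x => φ x ^ n) := by
  obtain ⟨p, hp⟩ := h
  exact ⟨p ^ n, fun x => by rw [map_pow, hp]⟩

theorem PF_sum {ι κ : Type} (s : Finset κ) {φ : κ → (ι → ℂ) → ℂ} (h : ∀ k ∈ s, PF (φ k)) :
    PF (fun x => ∑ k ∈ s, φ k x) := by
  choose! p hp using h
  refine ⟨∑ k ∈ s, p k, fun x => ?_⟩
  rw [map_sum]
  exact Finset.sum_congr rfl fun k hk => hp k hk x

private theorem PF_prod {ι κ : Type} (s : Finset κ) {φ : κ → (ι → ℂ) → ℂ}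
    (h : ∀ k ∈ s, PF (φ k)) : PF (fun x => ∏ k ∈ s, φ k x) := by
  choose! p hp using h
  refine ⟨∏ k ∈ s, p k, fun x => ?_⟩
  rw [map_prod]
  exact Finset.prod_congr rfl fun k hk => hp k hk x

theorem PF_det {ι : Type} {n : ℕ} {M : (ι → ℂ) → Matrix (Fin n) (Fin n) ℂ}
    (h : ∀ i j, PF (fun x => M x i j)) : PF (fun x => (M x).det) := by
  have h1 : (fun x => (M x).det) = fun x => ∑ σ : Equiv.Perm (Fin n),
      ((Equiv.Perm.sign σ : ℤ) : ℂ) * ∏ i, M x (σ i) i := by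
    funext x
    exact Matrix.det_apply' (M x)
  rw [h1]
  exact PF_sum _ fun σ _ => PF_mul (PF_const _) (PF_prod _ fun i _ => h (σ i) i)

private theorem T_exp (C : Cub VV) (u v w : Fin 3 → VV) (x y z : Fin 3 → ℂ) :
    C.T (∑ i, x i • u i) (∑ j, y j • v j) (∑ k, z k • w k) =
      ∑ i, ∑ j, ∑ k, x i * y j * z k * C.T (u i) (v j) (w k) := by
  rw [map_sum C.T, LinearMap.sum_apply, LinearMap.sum_apply]
  refine Finset.sum_congr rfl fun i _ => ?_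
  rw [map_sum (C.T (x i • u i)), LinearMap.sum_apply]
  refine Finset.sum_congr rfl fun j _ => ?_
  rw [map_sum]
  refine Finset.sum_congr rfl fun k _ => ?_
  simp only [map_smul, LinearMap.smul_apply, smul_eq_mul]
  ring

private theorem inl_sum (a : Fin 3 → ℂ) :
    ((a, 0) : VV) = ∑ i, a i • ((Pi.single i 1, 0) : VV) := by
  have h : a = ∑ i, a i • (Pi.single i 1 : Fin 3 → ℂ) := pi_eq_sum_univ' a
  refine Prod.ext ?_ ?_
  · rw [Prod.fst_sum]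
    exact h
  · rw [Prod.snd_sum]
    simp

private theorem inr_sum (a : Fin 3 → ℂ) :
    ((0, a) : VV) = ∑ i, a i • ((0, Pi.single i 1) : VV) := by
  have h : a = ∑ i, a i • (Pi.single i 1 : Fin 3 → ℂ) := pi_eq_sum_univ' a
  refine Prod.ext ?_ ?_
  · rw [Prod.fst_sum]
    simp
  · rw [Prod.snd_sum]
    exact h

theorem PF_gg {ι : Type} (C : Cub VV) {a a' b : (ι → ℂ) → Fin 3 → ℂ}
    (ha : ∀ i, PF (fun x => a x i)) (ha' : ∀ i, PF (fun x => a' x i))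
    (hb : ∀ i, PF (fun x => b x i)) : PF (fun x => gg C (a x) (a' x) (b x)) := by
  have h1 : (fun x => gg C (a x) (a' x) (b x)) = fun x => ∑ i, ∑ j, ∑ k,
      a x i * a' x j * b x k *
        C.T (Pi.single i 1, 0) (Pi.single j 1, 0) (0, Pi.single k 1) := by
    funext x
    rw [gg, inl_sum (a x), inl_sum (a' x), inr_sum (b x), T_exp]
  rw [h1]
  exact PF_sum _ fun i _ => PF_sum _ fun j _ => PF_sum _ fun k _ =>
    PF_mul (PF_mul (PF_mul (ha i) (ha' j)) (hb k)) (PF_const _)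

theorem PF_hh {ι : Type} (C : Cub VV) {a b b' : (ι → ℂ) → Fin 3 → ℂ}
    (ha : ∀ i, PF (fun x => a x i)) (hb : ∀ i, PF (fun x => b x i))
    (hb' : ∀ i, PF (fun x => b' x i)) : PF (fun x => hh C (a x) (b x) (b' x)) := by
  have h1 : (fun x => hh C (a x) (b x) (b' x)) = fun x => ∑ i, ∑ j, ∑ k,
      a x i * b x j * b' x k *
        C.T (Pi.single i 1, 0) (0, Pi.single j 1) (0, Pi.single k 1) := by
    funext x
    rw [hh, inl_sum (a x), inr_sum (b x), inr_sum (b' x), T_exp]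
  rw [h1]
  exact PF_sum _ fun i _ => PF_sum _ fun j _ => PF_sum _ fun k _ =>
    PF_mul (PF_mul (PF_mul (ha i) (hb j)) (hb' k)) (PF_const _)

theorem PF_lin {ι : Type} (e : VV →ₗ[ℂ] (Fin 6 → ℂ)) {v : (ι → ℂ) → VV}
    (h1 : ∀ i, PF (fun x => (v x).1 i)) (h2 : ∀ i, PF (fun x => (v x).2 i)) (i : Fin 6) :
    PF (fun x => e (v x) i) := by
  have h3 : (fun x => e (v x) i) = fun x =>
      (∑ k, (v x).1 k * e (Pi.single k 1, 0) i) + ∑ k, (v x).2 k * e (0, Pi.single k 1) i := by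
    funext x
    have h4 : v x = ((v x).1, 0) + (0, (v x).2) := by simp
    conv_lhs => rw [h4, inl_sum (v x).1, inr_sum (v x).2]
    rw [map_add, map_sum, map_sum, Pi.add_apply, Finset.sum_apply, Finset.sum_apply]
    simp only [map_smul, Pi.smul_apply, smul_eq_mul]
  rw [h3]
  exact PF_add (PF_sum _ fun k _ => PF_mul (h1 k) (PF_const _))
    (PF_sum _ fun k _ => PF_mul (h2 k) (PF_const _))

/-- all coordinates are polynomial functions -/
private def PV {ι : Type} (v : (ι → ℂ) → VV) : Prop :=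
  (∀ i, PF (fun x => (v x).1 i)) ∧ ∀ i, PF (fun x => (v x).2 i)

private theorem PF_d1 {ι : Type} (C : Cub VV) {s s' : (ι → ℂ) → VV} (h : PV s) (h' : PV s') :
    PF (fun x => d1 C (s x) (s' x)) := by
  unfold d1
  exact PF_sub (PF_mul (PF_gg C h.1 h.1 h'.2) (PF_gg C h'.1 h'.1 h.2))
    (PF_mul (PF_mul (PF_const 4) (PF_gg C h.1 h'.1 h'.2)) (PF_gg C h.1 h'.1 h.2))

private theorem PF_d2 {ι : Type} (C : Cub VV) {s s' : (ι → ℂ) → VV} (h : PV s) (h' : PV s') :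
    PF (fun x => d2 C (s x) (s' x)) := by
  unfold d2
  exact PF_sub (PF_mul (PF_mul (PF_const 4) (PF_hh C h.1 h.2 h'.2)) (PF_hh C h'.1 h.2 h'.2))
    (PF_mul (PF_hh C h.1 h'.2 h'.2) (PF_hh C h'.1 h.2 h.2))

private theorem PF_d3 {ι : Type} (C : Cub VV) {s s' : (ι → ℂ) → VV} (h : PV s) (h' : PV s') :
    PF (fun x => d3 C (s x) (s' x)) := by
  unfold d3
  exact PF_sub (PF_mul (PF_gg C h.1 h.1 h'.2) (PF_hh C h'.1 h.2 h.2))
    (PF_mul (PF_mul (PF_const 4) (PF_hh C h.1 h.2 h'.2)) (PF_gg C h.1 h'.1 h.2))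

private theorem PF_GG {ι : Type} (C : Cub VV) {s s' : (ι → ℂ) → VV} (h : PV s) (h' : PV s') :
    PF (fun x => GG C (s x) (s' x)) := by
  unfold GG
  exact PF_mul (PF_mul (PF_mul (PF_mul (PF_mul (PF_mul (PF_mul
    (PF_gg C h.1 h.1 h'.2) (PF_gg C h'.1 h'.1 h.2)) (PF_hh C h.1 h'.2 h'.2))
    (PF_hh C h'.1 h.2 h.2)) (PF_d1 C h h')) (PF_d2 C h h')) (PF_d3 C h h')) (PF_d3 C h' h)

private theorem PV_xv {ι : Type} (C : Cub VV) {s s' : (ι → ℂ) → VV} (h : PV s) (h' : PV s') :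
    PV (fun x => xv C (s x) (s' x)) := by
  refine ⟨fun i => ?_, fun i => ?_⟩
  · unfold xv
    simp only [Pi.add_apply, Pi.smul_apply, smul_eq_mul]
    refine PF_add (PF_mul (PF_neg (PF_sub ?_ ?_)) (h.1 i)) (PF_mul (PF_neg (PF_sub ?_ ?_)) (h'.1 i))
    · exact PF_mul (PF_mul (PF_const 2) (PF_gg C h'.1 h'.1 h.2)) (PF_hh C h.1 h.2 h'.2)
    · exact PF_mul (PF_mul (PF_const 2) (PF_gg C h.1 h'.1 h'.2)) (PF_hh C h'.1 h.2 h.2)
    · exact PF_mul (PF_gg C h.1 h.1 h'.2) (PF_hh C h'.1 h.2 h.2)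
    · exact PF_mul (PF_mul (PF_const 4) (PF_gg C h.1 h'.1 h.2)) (PF_hh C h.1 h.2 h'.2)
  · exact PF_mul (PF_d1 C h h') (h.2 i)

private theorem PV_yv {ι : Type} (C : Cub VV) {s s' : (ι → ℂ) → VV} (h : PV s) (h' : PV s') :
    PV (fun x => yv C (s x) (s' x)) := by
  refine ⟨fun i => ?_, fun i => ?_⟩
  · unfold yv
    simp only [Pi.add_apply, Pi.smul_apply, smul_eq_mul]
    refine PF_add (PF_mul (PF_neg (PF_sub ?_ ?_)) (h.1 i)) (PF_mul (PF_neg (PF_sub ?_ ?_)) (h'.1 i))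
    · exact PF_mul (PF_gg C h'.1 h'.1 h.2) (PF_hh C h.1 h'.2 h'.2)
    · exact PF_mul (PF_mul (PF_const 4) (PF_gg C h.1 h'.1 h'.2)) (PF_hh C h'.1 h.2 h'.2)
    · exact PF_mul (PF_mul (PF_const 2) (PF_gg C h.1 h.1 h'.2)) (PF_hh C h'.1 h.2 h'.2)
    · exact PF_mul (PF_mul (PF_const 2) (PF_gg C h.1 h'.1 h.2)) (PF_hh C h.1 h'.2 h'.2)
  · exact PF_mul (PF_d1 C h h') (h'.2 i)

/-- the first point -/
private def pt1 (x : V2 ⊕ V2 → ℂ) : VV :=
  (fun i => x (Sum.inl (Sum.inl i)), fun i => x (Sum.inl (Sum.inr i)))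

/-- the second point -/
private def pt2 (x : V2 ⊕ V2 → ℂ) : VV :=
  (fun i => x (Sum.inr (Sum.inl i)), fun i => x (Sum.inr (Sum.inr i)))

private theorem PV_pt1 : PV pt1 := ⟨fun _ => PF_coord _, fun _ => PF_coord _⟩

private theorem PV_pt2 : PV pt2 := ⟨fun _ => PF_coord _, fun _ => PF_coord _⟩

private theorem exists_ev2 {φ : VV → VV → ℂ} (h : PF (fun x => φ (pt1 x) (pt2 x))) :
    ∃ G : MvPolynomial (V2 ⊕ V2) ℂ, ∀ s s' : Pt, ev2 G s s' = φ s s' := by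
  obtain ⟨G, hG⟩ := h
  exact ⟨G, fun s s' => hG (Sum.elim (Sum.elim s.1 s.2) (Sum.elim s'.1 s'.2))⟩

theorem poly_GG (C : Cub VV) : ∃ G : MvPolynomial (V2 ⊕ V2) ℂ, ∀ s s' : Pt,
    ev2 G s s' = GG C s s' :=
  exists_ev2 (PF_GG C PV_pt1 PV_pt2)

theorem poly_xv (C : Cub VV) (e : VV →ₗ[ℂ] (Fin 6 → ℂ)) :
    ∃ x : Fin 6 → MvPolynomial (V2 ⊕ V2) ℂ, ∀ s s' : Pt,
      (fun i => ev2 (x i) s s') = e (xv C s s') := by
  have h : ∀ i, ∃ G : MvPolynomial (V2 ⊕ V2) ℂ, ∀ s s' : Pt, ev2 G s s' = e (xv C s s') i :=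
    fun i => exists_ev2 (φ := fun s s' => e (xv C s s') i)
      (PF_lin e (PV_xv C PV_pt1 PV_pt2).1 (PV_xv C PV_pt1 PV_pt2).2 i)
  choose x hx using h
  exact ⟨x, fun s s' => funext fun i => hx i s s'⟩

theorem poly_yv (C : Cub VV) (e : VV →ₗ[ℂ] (Fin 6 → ℂ)) :
    ∃ y : Fin 6 → MvPolynomial (V2 ⊕ V2) ℂ, ∀ s s' : Pt,
      (fun i => ev2 (y i) s s') = e (yv C s s') := by
  have h : ∀ i, ∃ G : MvPolynomial (V2 ⊕ V2) ℂ, ∀ s s' : Pt, ev2 G s s' = e (yv C s s') i :=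
    fun i => exists_ev2 (φ := fun s s' => e (yv C s s') i)
      (PF_lin e (PV_yv C PV_pt1 PV_pt2).1 (PV_yv C PV_pt1 PV_pt2).2 i)
  choose x hx using h
  exact ⟨x, fun s s' => funext fun i => hx i s s'⟩

private theorem PF_vec3 {ι : Type} {a b c : (ι → ℂ) → ℂ} (ha : PF a) (hb : PF b) (hc : PF c)
    (k : Fin 3) : PF (fun x => (![a x, b x, c x] : Fin 3 → ℂ) k) := by
  fin_cases k
  · exact ha
  · exact hb
  · exact hc

private theorem PF_vec4 {ι : Type} {a b c d : (ι → ℂ) → ℂ} (ha : PF a) (hb : PF b) (hc : PF c)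
    (hd : PF d) (k : Fin 4) : PF (fun x => (![a x, b x, c x, d x] : Fin 4 → ℂ) k) := by
  fin_cases k
  · exact ha
  · exact hb
  · exact hc
  · exact hd

private theorem PF_Rs22 {ι : Type} {u v : (ι → ℂ) → Fin 3 → ℂ} (hu : ∀ k, PF (fun x => u x k))
    (hv : ∀ k, PF (fun x => v x k)) : PF (fun x => Rs22 (u x) (v x)) := by
  unfold Rs22
  exact PF_sub (PF_pow (PF_sub (PF_mul (hu 0) (hv 2)) (PF_mul (hu 2) (hv 0))) 2)
    (PF_mul (PF_sub (PF_mul (hu 0) (hv 1)) (PF_mul (hu 1) (hv 0)))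
      (PF_sub (PF_mul (hu 1) (hv 2)) (PF_mul (hu 2) (hv 1))))

private theorem PF_Rs23 {ι : Type} {u : (ι → ℂ) → Fin 3 → ℂ} {f : (ι → ℂ) → Fin 4 → ℂ}
    (hu : ∀ k, PF (fun x => u x k)) (hf : ∀ k, PF (fun x => f x k)) :
    PF (fun x => Rs23 (u x) (f x)) := by
  unfold Rs23
  refine PF_det fun i j => ?_
  fin_cases i <;> fin_cases j <;>
    first
      | exact PF_const 0
      | exact hu 0
      | exact hu 1
      | exact hu 2
      | exact hf 0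
      | exact hf 1
      | exact hf 2
      | exact hf 3

private theorem PF_uu {ι : Type} (C : Cub VV) {x y : (ι → ℂ) → VV} (h : PV x) (h' : PV y)
    (k : Fin 3) : PF (fun z => uu C (x z) (y z) k) :=
  PF_vec3 (PF_gg C h.1 h.1 h.2) (PF_mul (PF_const 2) (PF_gg C h.1 h'.1 h.2))
    (PF_gg C h'.1 h'.1 h.2) k

private theorem PF_vv {ι : Type} (C : Cub VV) {x y : (ι → ℂ) → VV} (h : PV x) (h' : PV y)
    (k : Fin 3) : PF (fun z => vv C (x z) (y z) k) :=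
  PF_vec3 (PF_gg C h.1 h.1 h'.2) (PF_mul (PF_const 2) (PF_gg C h.1 h'.1 h'.2))
    (PF_gg C h'.1 h'.1 h'.2) k

private theorem PF_uh {ι : Type} (C : Cub VV) {x y : (ι → ℂ) → VV} (h : PV x) (h' : PV y)
    (k : Fin 3) : PF (fun z => uh C (x z) (y z) k) :=
  PF_vec3 (PF_hh C h.1 h.2 h.2) (PF_mul (PF_const 2) (PF_hh C h.1 h.2 h'.2))
    (PF_hh C h.1 h'.2 h'.2) k

private theorem PF_vh {ι : Type} (C : Cub VV) {x y : (ι → ℂ) → VV} (h : PV x) (h' : PV y)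
    (k : Fin 3) : PF (fun z => vh C (x z) (y z) k) :=
  PF_vec3 (PF_hh C h'.1 h.2 h.2) (PF_mul (PF_const 2) (PF_hh C h'.1 h.2 h'.2))
    (PF_hh C h'.1 h'.2 h'.2) k

private theorem PF_ff {ι : Type} (C : Cub VV) {x y : (ι → ℂ) → VV} (h : PV x) (h' : PV y)
    (k : Fin 4) : PF (fun z => ff C (x z) (y z) k) :=
  PF_vec4 (PF_uu C h h' 0) (PF_add (PF_uu C h h' 1) (PF_vv C h h' 0))
    (PF_add (PF_uu C h h' 2) (PF_vv C h h' 1)) (PF_vv C h h' 2) k

private theorem PF_qq {ι : Type} (C : Cub VV) {x y : (ι → ℂ) → VV} (h : PV x) (h' : PV y)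
    (k : Fin 3) : PF (fun z => qq C (x z) (y z) k) := by
  have u := PF_uu C h h'
  have v := PF_vv C h h'
  have g1 := PF_hh C h.1 h.2 h'.2
  have g2 := PF_hh C h'.1 h.2 h'.2
  refine PF_vec3 ?_ ?_ ?_ k
  · exact PF_sub (PF_sub (PF_neg (PF_pow (v 0) 2)) (PF_mul (PF_mul (PF_const 2) (v 0)) g1))
      (PF_mul (u 0) (PF_add (PF_add (PF_mul (PF_const 2) g2) (u 2)) (v 1)))
  · exact PF_add (PF_sub (PF_sub (PF_sub (PF_sub (PF_sub (PF_neg (PF_mul (v 0) (v 1)))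
      (PF_mul (u 1) (u 2))) (PF_mul (u 1) (v 1)))
      (PF_mul (PF_mul (PF_const 2) g1) (v 1))) (PF_mul (PF_mul (PF_const 2) g2) (u 1)))
      (PF_mul (u 0) (v 2))) (PF_mul (u 2) (v 0))
  · exact PF_sub (PF_sub (PF_neg (PF_pow (u 2) 2)) (PF_mul (PF_mul (PF_const 2) (u 2)) g2))
      (PF_mul (v 2) (PF_add (PF_add (PF_mul (PF_const 2) g1) (u 1)) (v 0)))

private theorem PF_HH {ι : Type} (C : Cub VV) {x y : (ι → ℂ) → VV} (h : PV x) (h' : PV y) :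
    PF (fun z => HH C (x z) (y z)) := by
  unfold HH
  exact PF_mul (PF_mul (PF_mul (PF_Rs22 (PF_uu C h h') (PF_vv C h h'))
    (PF_Rs22 (PF_uh C h h') (PF_vh C h h')))
    (PF_sub (PF_pow (PF_qq C h h' 1) 2)
      (PF_mul (PF_mul (PF_const 4) (PF_qq C h h' 0)) (PF_qq C h h' 2))))
    (PF_Rs23 (PF_qq C h h') (PF_ff C h h'))

private theorem PV_lin {ι : Type} (e : (Fin 6 → ℂ) →ₗ[ℂ] VV) {v : (ι → ℂ) → Fin 6 → ℂ}
    (hv : ∀ k, PF (fun x => v x k)) : PV (fun x => e (v x)) := by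
  have h3 : ∀ x, e (v x) = ∑ k, v x k • e (Pi.single k 1) := by
    intro x
    conv_lhs => rw [pi_eq_sum_univ' (v x)]
    rw [map_sum]
    simp only [map_smul]
  refine ⟨fun i => ?_, fun i => ?_⟩
  · have h4 : (fun x => (e (v x)).1 i) = fun x => ∑ k, v x k * (e (Pi.single k 1)).1 i := by
      funext x
      rw [h3, Prod.fst_sum, Finset.sum_apply]
      rfl
    rw [h4]
    exact PF_sum _ fun k _ => PF_mul (hv k) (PF_const _)
  · have h4 : (fun x => (e (v x)).2 i) = fun x => ∑ k, v x k * (e (Pi.single k 1)).2 i := by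
      funext x
      rw [h3, Prod.snd_sum, Finset.sum_apply]
      rfl
    rw [h4]
    exact PF_sum _ fun k _ => PF_mul (hv k) (PF_const _)

theorem poly_HH (C : Cub VV) (e : (Fin 6 → ℂ) →ₗ[ℂ] VV) :
    ∃ H : MvPolynomial (Fin 6 ⊕ Fin 6) ℂ, ∀ x y : Fin 6 → ℂ,
      eval (Sum.elim x y) H = HH C (e x) (e y) := by
  obtain ⟨H, hH⟩ := PF_HH C
    (PV_lin e (v := fun x : Fin 6 ⊕ Fin 6 → ℂ => fun k => x (Sum.inl k)) fun k => PF_coord _)
    (PV_lin e (v := fun x : Fin 6 ⊕ Fin 6 → ℂ => fun k => x (Sum.inr k)) fun k => PF_coord _)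
  exact ⟨H, fun x y => hH (Sum.elim x y)⟩

end Pool.Agent.P28
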