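import Pool.Agent.P28.HDefs

set_option autoImplicit false

/-!
# P28 F04: resultants of binary forms (Mathlib only)

`bq u p q = u0 p^2 + u1 p q + u2 q^2`, `bc f p q = f0 p^3 + f1 p^2 q + f2 p q^2 + f3 q^3`.

PROOFS. `rs22` (→): if `u(p,q) = v(p,q) = 0` with `q ≠ 0`, say, then `Rs22 u v * q^k` is a
combination of `u(p,q)`, `v(p,q)` (or: eliminate: `u2 q = -(u0 p + u1) ..`; with `q = 1` after
scaling, substitute `u2 = -(u0 p^2 + u1 p)`, `v2 = -(v0 p^2 + v1 p)`, ring), similarly `p ≠ 0`.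
(←): let `Rs22 u v = 0`. Over `ℂ` there is a nonzero zero of `u` (or `u = 0`, then take a zero of
`v`). Write `u = (m p - l q) (a p + b q)` with zeros `(l, m)` and `(b, -a)`; then
`Rs22 u v = v(l, m) v(b, -a)` up to sign (ring identity, check: `u0 = m a`, `u1 = m b - l a`,
`u2 = - l b`), so one of the two zeros of `u` is a zero of `v` (if `a = b = 0` then `u = 0`).
`rs23`: same idea: with `u0 = m a` etc. `Rs23 u f = ± f(l, m) f(b, -a)` (a 5 x 5 determinant,
ring after `Matrix.det_succ_row_zero`/`simp`). This gives both directions (every binary quadratic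
form over `ℂ` is such a product: lemma `bq_factor`).
`disc_zeros`: `u = (m p - l q)(a p + b q)` has discriminant `u1^2 - 4 u0 u2 = (m b + l a)^2`, the
zeros are `(l, m)`, `(b, -a)`, which are independent iff `l a + m b ≠ 0`.
`disc_of`: conversely if `u` is not zero and vanishes at two independent vectors, the discriminant
is not zero; and all zeros are proportional to one of the two.
-/

namespace Pool.Agent.P28

theorem bq_factor (u : Fin 3 → ℂ) : ∃ l m a b : ℂ, u 0 = m * a ∧ u 1 = m * b - l * a ∧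
    u 2 = -(l * b) ∧ (l ≠ 0 ∨ m ≠ 0) := by
  by_cases h0 : u 0 = 0
  · exact ⟨1, 0, -u 1, -u 2, by rw [h0]; ring, by ring, by ring, Or.inl one_ne_zero⟩
  · obtain ⟨x, hx⟩ := exists_quadratic_eq_zero (a := u 0) (b := u 1) (c := u 2) h0
      (IsAlgClosed.exists_eq_mul_self _)
    exact ⟨x, 1, u 0, u 1 + x * u 0, by ring, by ring, by linear_combination hx,
      Or.inr one_ne_zero⟩

private theorem bq_eq {u : Fin 3 → ℂ} {l m a b : ℂ} (h0 : u 0 = m * a) (h1 : u 1 = m * b - l * a)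
    (h2 : u 2 = -(l * b)) (p q : ℂ) : bq u p q = (m * p - l * q) * (a * p + b * q) := by
  rw [bq, h0, h1, h2]
  ring

private theorem rs22_eq {u : Fin 3 → ℂ} {l m a b : ℂ} (h0 : u 0 = m * a)
    (h1 : u 1 = m * b - l * a) (h2 : u 2 = -(l * b)) (v : Fin 3 → ℂ) :
    Rs22 u v = bq v l m * bq v b (-a) := by
  rw [Rs22, bq, bq, h0, h1, h2]
  ring

private theorem rs23_eq {u : Fin 3 → ℂ} {l m a b : ℂ} (h0 : u 0 = m * a)
    (h1 : u 1 = m * b - l * a) (h2 : u 2 = -(l * b)) (f : Fin 4 → ℂ) :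
    Rs23 u f = -(bc f l m * bc f b (-a)) := by
  rw [Rs23, h0, h1, h2, Matrix.det_succ_row_zero]
  simp only [Matrix.det_succ_row_zero (n := 3), Matrix.det_fin_three, Fin.sum_univ_succ,
    Fin.sum_univ_zero, Matrix.submatrix_apply]
  simp [Fin.succAbove, bc, Matrix.cons_val_succ]
  ring

private theorem prop_of {a b p q : ℂ} (v : Fin 3 → ℂ) (h : a * q = b * p) :
    bq v a b * p ^ 2 = a ^ 2 * bq v p q ∧ bq v a b * q ^ 2 = b ^ 2 * bq v p q := by
  rw [bq, bq]
  constructor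
  · linear_combination (-(v 1 * a * p) - v 2 * (a * q + b * p)) * h
  · linear_combination (v 0 * (a * q + b * p) + v 1 * b * q) * h

private theorem prop_of3 {a b p q : ℂ} (f : Fin 4 → ℂ) (h : a * q = b * p) :
    bc f a b * p ^ 3 = a ^ 3 * bc f p q ∧ bc f a b * q ^ 3 = b ^ 3 * bc f p q := by
  rw [bc, bc]
  constructor
  · linear_combination (-(f 1 * a ^ 2 * p ^ 2) - f 2 * a * p * (a * q + b * p) -
      f 3 * ((a * q) ^ 2 + a * q * (b * p) + (b * p) ^ 2)) * h
  · linear_combination (f 0 * ((a * q) ^ 2 + a * q * (b * p) + (b * p) ^ 2) +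
      f 1 * b * q * (a * q + b * p) + f 2 * b ^ 2 * q ^ 2) * h

private theorem zero_of {a b p q : ℂ} {v : Fin 3 → ℂ} (h : a * q = b * p) (hv : bq v p q = 0)
    (hpq : p ≠ 0 ∨ q ≠ 0) : bq v a b = 0 := by
  have k := prop_of v h
  rw [hv, mul_zero, mul_zero] at k
  rcases hpq with h1 | h1
  · exact (mul_eq_zero.1 k.1).resolve_right (pow_ne_zero 2 h1)
  · exact (mul_eq_zero.1 k.2).resolve_right (pow_ne_zero 2 h1)

private theorem zero_of3 {a b p q : ℂ} {f : Fin 4 → ℂ} (h : a * q = b * p) (hv : bc f p q = 0)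
    (hpq : p ≠ 0 ∨ q ≠ 0) : bc f a b = 0 := by
  have k := prop_of3 f h
  rw [hv, mul_zero, mul_zero] at k
  rcases hpq with h1 | h1
  · exact (mul_eq_zero.1 k.1).resolve_right (pow_ne_zero 3 h1)
  · exact (mul_eq_zero.1 k.2).resolve_right (pow_ne_zero 3 h1)

private theorem bc_zero (f : Fin 4 → ℂ) : ∃ p q : ℂ, (p ≠ 0 ∨ q ≠ 0) ∧ bc f p q = 0 := by
  by_cases h0 : f 0 = 0
  · exact ⟨1, 0, Or.inl one_ne_zero, by rw [bc, h0]; ring⟩
  · obtain ⟨x, hx⟩ := IsAlgClosed.exists_root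
      (Polynomial.C (f 0) * Polynomial.X ^ 3 + Polynomial.C (f 1) * Polynomial.X ^ 2 +
        Polynomial.C (f 2) * Polynomial.X + Polynomial.C (f 3))
      (by rw [Polynomial.degree_cubic h0]; norm_num)
    refine ⟨x, 1, Or.inr one_ne_zero, ?_⟩
    simp only [Polynomial.IsRoot.def, Polynomial.eval_add, Polynomial.eval_mul, Polynomial.eval_C,
      Polynomial.eval_pow, Polynomial.eval_X] at hx
    rw [bc]
    linear_combination hx

theorem rs22 (u v : Fin 3 → ℂ) :
    Rs22 u v ≠ 0 ↔ ∀ p q : ℂ, (p ≠ 0 ∨ q ≠ 0) → bq u p q = 0 → bq v p q ≠ 0 := by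
  obtain ⟨l, m, a, b, h0, h1, h2, hlm⟩ := bq_factor u
  rw [rs22_eq h0 h1 h2]
  constructor
  · intro h p q hpq hu hv
    rw [bq_eq h0 h1 h2] at hu
    rcases mul_eq_zero.1 hu with h3 | h3
    · exact h (mul_eq_zero_of_left (zero_of (by linear_combination -h3) hv hpq) _)
    · exact h (mul_eq_zero_of_right _ (zero_of (by linear_combination h3) hv hpq))
  · intro h
    refine mul_ne_zero (h l m hlm (by rw [bq_eq h0 h1 h2]; ring)) ?_
    by_cases hab : b ≠ 0 ∨ -a ≠ 0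
    · exact h b (-a) hab (by rw [bq_eq h0 h1 h2]; ring)
    · exfalso
      push Not at hab
      obtain ⟨hb, ha⟩ := hab
      have ha' : a = 0 := neg_eq_zero.1 ha
      obtain ⟨l', m', a', b', h0', h1', h2', hlm'⟩ := bq_factor v
      exact h l' m' hlm' (by rw [bq_eq h0 h1 h2, ha', hb]; ring)
        (by rw [bq_eq h0' h1' h2']; ring)

theorem rs23 (u : Fin 3 → ℂ) (f : Fin 4 → ℂ) :
    Rs23 u f ≠ 0 ↔ ∀ p q : ℂ, (p ≠ 0 ∨ q ≠ 0) → bq u p q = 0 → bc f p q ≠ 0 := by
  obtain ⟨l, m, a, b, h0, h1, h2, hlm⟩ := bq_factor u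
  rw [rs23_eq h0 h1 h2, neg_ne_zero]
  constructor
  · intro h p q hpq hu hv
    rw [bq_eq h0 h1 h2] at hu
    rcases mul_eq_zero.1 hu with h3 | h3
    · exact h (mul_eq_zero_of_left (zero_of3 (by linear_combination -h3) hv hpq) _)
    · exact h (mul_eq_zero_of_right _ (zero_of3 (by linear_combination h3) hv hpq))
  · intro h
    refine mul_ne_zero (h l m hlm (by rw [bq_eq h0 h1 h2]; ring)) ?_
    by_cases hab : b ≠ 0 ∨ -a ≠ 0
    · exact h b (-a) hab (by rw [bq_eq h0 h1 h2]; ring)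
    · exfalso
      push Not at hab
      obtain ⟨hb, ha⟩ := hab
      have ha' : a = 0 := neg_eq_zero.1 ha
      obtain ⟨p, q, hpq, hz⟩ := bc_zero f
      exact h p q hpq (by rw [bq_eq h0 h1 h2, ha', hb]; ring) hz

theorem disc_zeros (u : Fin 3 → ℂ) (hd : u 1 ^ 2 - 4 * u 0 * u 2 ≠ 0) :
    ∃ p q p' q' : ℂ, bq u p q = 0 ∧ bq u p' q' = 0 ∧ p * q' - p' * q ≠ 0 := by
  obtain ⟨l, m, a, b, h0, h1, h2, hlm⟩ := bq_factor u
  refine ⟨l, m, b, -a, by rw [bq_eq h0 h1 h2]; ring, by rw [bq_eq h0 h1 h2]; ring, ?_⟩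
  intro h
  apply hd
  rw [h0, h1, h2]
  linear_combination (l * -a - b * m) * h

theorem disc_of (u : Fin 3 → ℂ) {p q p' q' : ℂ} (h : bq u p q = 0) (h' : bq u p' q' = 0)
    (hi : p * q' - p' * q ≠ 0) (h0 : ∃ x y, bq u x y ≠ 0) :
    u 1 ^ 2 - 4 * u 0 * u 2 ≠ 0 ∧
      ∀ x y : ℂ, bq u x y = 0 → x * q - y * p = 0 ∨ x * q' - y * p' = 0 := by
  have key : ∀ x y : ℂ, bq u x y * (p * q' - p' * q) ^ 2 =
      -((x * q' - y * p') * (x * q - y * p)) *
        (2 * u 0 * (p * p') + u 1 * (p * q' + p' * q) + 2 * u 2 * (q * q')) := by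
    intro x y
    have e : bq u x y * (p * q' - p' * q) ^ 2 = (x * q' - y * p') ^ 2 * bq u p q +
        (x * q - y * p) ^ 2 * bq u p' q' - ((x * q' - y * p') * (x * q - y * p)) *
        (2 * u 0 * (p * p') + u 1 * (p * q' + p' * q) + 2 * u 2 * (q * q')) := by
      simp only [bq]
      ring
    rw [e, h, h']
    ring
  have hW : 2 * u 0 * (p * p') + u 1 * (p * q' + p' * q) + 2 * u 2 * (q * q') ≠ 0 := by
    intro hW
    obtain ⟨x, y, hxy⟩ := h0
    have k := key x y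
    rw [hW, mul_zero] at k
    exact hxy ((mul_eq_zero.1 k).resolve_right (pow_ne_zero 2 hi))
  constructor
  · intro hd
    have e : (2 * u 0 * (p * p') + u 1 * (p * q' + p' * q) + 2 * u 2 * (q * q')) ^ 2 =
        (u 1 ^ 2 - 4 * u 0 * u 2) * (p * q' - p' * q) ^ 2 + 4 * bq u p q * bq u p' q' := by
      simp only [bq]
      ring
    rw [hd, h, h'] at e
    apply hW
    have e' : (2 * u 0 * (p * p') + u 1 * (p * q' + p' * q) + 2 * u 2 * (q * q')) ^ 2 = 0 := by
      rw [e]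
      ring
    exact pow_eq_zero_iff two_ne_zero |>.1 e'
  · intro x y hxy
    have k := key x y
    rw [hxy, zero_mul] at k
    have k2 := (mul_eq_zero.1 k.symm).resolve_right hW
    rcases mul_eq_zero.1 (neg_eq_zero.1 k2) with k3 | k3
    · exact Or.inr k3
    · exact Or.inl k3

end Pool.Agent.P28
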