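import Pool.Agent.P28.HDefs

set_option autoImplicit false

/-!
# P28 F07: consequences of smoothness for two disjoint planes

PROOFS. `S_smooth`: `v = (l s.1, m s.2)`; by `grad_eq`,
`T v v (a, 0) = 2 gg (l s.1) a (m s.2) + hh a (m s.2) (m s.2) = m (2 l gg s.1 a s.2 + m hh a s.2
s.2) = 0` by the first hypothesis and `T v v (0, b) = l (l gg s.1 s.1 b + 2 m hh s.1 s.2 b) = 0` by
the second one. So `T v v z = 0` for all `z`, `v = 0` by smoothness, and `s.1, s.2 ≠ 0` give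
`l = m = 0`.
`gg_ne`: `T (a,0) (a,0) (a',b') = gg a a b'` (`grad_eq`), smoothness at `(a, 0)`. `hh_ne` same.
`det_ne`: not both ... `gg` as a symmetric bilinear form for fixed `b`: from `D3_ne` (file NetA).
-/

namespace Pool.Agent.P28

open Module

private theorem fs_g (C : Cub VV) (a a' : Fin 3 → ℂ) : gg C a a' 0 = 0 := by
  have h := gg_smul_r C 0 a a' 0
  rwa [zero_smul, zero_mul] at h

private theorem fs_g' (C : Cub VV) (a b : Fin 3 → ℂ) : gg C 0 a b = 0 := by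
  have h := gg_smul_l C 0 0 a b
  rwa [zero_smul, zero_mul] at h

private theorem fs_h (C : Cub VV) (a b : Fin 3 → ℂ) : hh C a 0 b = 0 := by
  have h := hh_smul_m C 0 a 0 b
  rwa [zero_smul, zero_mul] at h

private theorem fs_h' (C : Cub VV) (b b' : Fin 3 → ℂ) : hh C 0 b b' = 0 := by
  have h := hh_smul_l C 0 0 b b'
  rwa [zero_smul, zero_mul] at h

theorem S_smooth (C : Cub VV) (h : Std2 C) (hS : C.Smooth) {s : VV} (hs : SP C s) {l m : ℂ}
    (h1 : ∀ a, l * (2 * gg C s.1 a s.2) + m * hh C a s.2 s.2 = 0)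
    (h2 : ∀ b, l * gg C s.1 s.1 b + m * (2 * hh C s.1 s.2 b) = 0) : l = 0 ∧ m = 0 := by
  have hv : ((l • s.1, m • s.2) : VV) = 0 := by
    by_contra hne
    obtain ⟨⟨a', b'⟩, hz⟩ := hS _ hne
    apply hz
    rw [grad_eq h]
    simp only [gg_smul_l, gg_smul_m, gg_smul_r, hh_smul_l, hh_smul_m, hh_smul_r]
    linear_combination m * h1 a' + l * h2 b'
  have e1 : l • s.1 = 0 := congrArg Prod.fst hv
  have e2 : m • s.2 = 0 := congrArg Prod.snd hv
  exact ⟨(smul_eq_zero.1 e1).resolve_right hs.1, (smul_eq_zero.1 e2).resolve_right hs.2.1⟩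

theorem gg_ne (C : Cub VV) (h : Std2 C) (hS : C.Smooth) {a : Fin 3 → ℂ} (ha : a ≠ 0) :
    ∃ b, gg C a a b ≠ 0 := by
  have hv : ((a, 0) : VV) ≠ 0 := fun e => ha (congrArg Prod.fst e)
  obtain ⟨⟨a', b'⟩, hz⟩ := hS _ hv
  refine ⟨b', fun e => hz ?_⟩
  rw [grad_eq h, fs_g, fs_h, fs_h, e]
  ring

theorem hh_ne (C : Cub VV) (h : Std2 C) (hS : C.Smooth) {b : Fin 3 → ℂ} (hb : b ≠ 0) :
    ∃ a, hh C a b b ≠ 0 := by
  have hv : ((0, b) : VV) ≠ 0 := fun e => hb (congrArg Prod.snd e)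
  obtain ⟨⟨a', b'⟩, hz⟩ := hS _ hv
  refine ⟨a', fun e => hz ?_⟩
  rw [grad_eq h, fs_g', fs_g', fs_h', e]
  ring

end Pool.Agent.P28
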