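import Pool.Agent.P28.FMem
import Pool.Agent.P28.FRes

set_option autoImplicit false

/-!
# P28 F05: every line in the open set is a residual line

`L = span {x, y}`, `CLine C L`, `HH C x y ≠ 0`. Write `P(p,q) = p x.1 + q y.1`,
`Q(p,q) = p x.2 + q y.2`.
PROOFS. `bq_uu` etc.: expand with `gg_add_l`, ... : `bq (uu C x y) p q = gg P P x.2`,
`bq (vv C x y) p q = gg P P y.2`, `bq (uh C x y) p q = hh x.1 Q Q`, `bq (vh C x y) p q = hh y.1 Q Q`,
`bc (ff C x y) p q = gg P P Q`.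
`Lv_surj`: (1) `x, y` are independent (finrank 2), the cubic vanishes at `p x + q y`. All four
factors of `HH` are nonzero. (2) `x.1, y.1` are independent: if `P(p,q) = 0` with `(p,q) ≠ 0` then
`bq uu`, `bq vv` vanish at `(p,q)`, contradiction to `rs22`. Same for `x.2, y.2` with `uh, vh`.
(3) `disc_zeros`: independent zeros `(p1,r1)`, `(p2,r2)` of `qq`. Put `a_i = P(p_i,r_i)`,
`b_i = (gg a_i a_i y.2) x.2 - (gg a_i a_i x.2) y.2`, `f_i = Q(p_i, r_i)`. `b_i ≠ 0` by `rs22` for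
`uu, vv`; `gg a_i a_i b_i = 0`; `hh a_i b_i b_i = 0` by `quint` (left side, expand) and
`bq qq p_i r_i = 0`. So `s_i = (a_i, b_i)` are points of the surface, `a_1, a_2` are independent.
(4) `b_1, b_2` are independent: if `b_2 = c b_1` then `hh a_i b_1 b_1 = 0` for `i = 1, 2`, so
`hh x.1 b_1 b_1 = 0 = hh y.1 b_1 b_1` (`x.1, y.1` in the span of `a_1, a_2`), contradiction to
`rs22` for `uh, vh`. So `x.2, y.2` are in the span of `b_1, b_2`.
(5) `gg a_1 a_1 b_2 ≠ 0`: otherwise `gg a_1 a_1` vanishes at `x.2, y.2`: contradiction.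
`gg a_2 a_2 b_1 ≠ 0` same. `hh a_1 b_2 b_2 ≠ 0`: otherwise `hh a b_2 b_2 = 0` for all `a` in the
span. `hh a_2 b_1 b_1 ≠ 0` same. `d1 ≠ 0`: otherwise there is `(p,q) ≠ 0` with
`g112 p + 2 g122 q = 0 = 2 g121 p + g221 q`; for `a = p a_1 + q a_2`:
`gg a a b_1 = q (2 g121 p + g221 q) = 0`, `gg a a b_2 = p (g112 p + 2 g122 q) = 0`: contradiction
to `rs22` for `uu, vv`. `d2 ≠ 0`: otherwise `(p,q) ≠ 0` with `2 h112 p + h122 q = 0 =
h211 p + 2 h212 q`, `b = p b_1 + q b_2` has `hh a_1 b b = q (2 h112 p + h122 q) = 0`,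
`hh a_2 b b = p (h211 p + 2 h212 q) = 0`.
(6) Let `f_1 = Q(p1,r1) = φ11 b_1 + φ21 b_2`, `f_2 = φ12 b_1 + φ22 b_2`. `φ21 ≠ 0`: otherwise
`gg a_1 a_1 f_1 = 0`, i.e. `bc ff p1 r1 = 0`, contradiction to `rs23`. `φ12 ≠ 0` same. The elements
of `L` are `(p1' a_1 + p2' a_2, t1 b_1 + t2 b_2)` with `t1 = φ11 p1' + φ12 p2'`,
`t2 = φ21 p1' + φ22 p2'`; `φ11 φ22 - φ12 φ21 ≠ 0`. By `span_eq` and the vanishing of the cubic:
`p1' t2 A + p2' t1 B = 0` for all `p1', p2'` where `A = AA = α1 p1' + α2 p2'`,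
`B = BB = β1 p1' + β2 p2'` on `L`. Comparing coefficients: `φ21 α1 = 0`, `φ12 β2 = 0`,
`φ21 α2 + φ22 α1 + φ11 β1 = 0`, `φ22 α2 + φ11 β2 + φ12 β1 = 0`, so all are zero (determinant
`φ21 φ12 - φ11 φ22`). So `L ≤ Lv` (`mem_Lv`), and both have dimension 2: `L = Lv`.
(7) `d3 s1 s2 ≠ 0`: otherwise there is `(l, m) ≠ 0` with `g112 l + 2 h112 m = 0 =
2 g121 l + h211 m`, so `(l a_1, m b_1)` is in `Lv = L` (`mem_Lv`), equal to `p x + q y`. `l ≠ 0`
(otherwise `P(p,q) = 0`, so `p = q = 0` and `m = 0`), so `(p,q) = l (p1,r1)` and `l f_1 = m b_1`,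
contradiction to `φ21 ≠ 0`. `d3 s2 s1 ≠ 0` in the same way (use `φ12 ≠ 0`).
-/

namespace Pool.Agent.P28

open Module

theorem bq_uu (C : Cub VV) (x y : VV) (p q : ℂ) :
    bq (uu C x y) p q = gg C (p • x.1 + q • y.1) (p • x.1 + q • y.1) x.2 := by
  simp only [gg_add_l, gg_add_m, gg_smul_l, gg_smul_m, bq, uu, Matrix.cons_val_zero,
    Matrix.cons_val_one, Matrix.cons_val]
  rw [gg_symm C y.1 x.1 x.2]
  ring

theorem bq_vv (C : Cub VV) (x y : VV) (p q : ℂ) :
    bq (vv C x y) p q = gg C (p • x.1 + q • y.1) (p • x.1 + q • y.1) y.2 := by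
  simp only [gg_add_l, gg_add_m, gg_smul_l, gg_smul_m, bq, vv, Matrix.cons_val_zero,
    Matrix.cons_val_one, Matrix.cons_val]
  rw [gg_symm C y.1 x.1 y.2]
  ring

theorem bq_uh (C : Cub VV) (x y : VV) (p q : ℂ) :
    bq (uh C x y) p q = hh C x.1 (p • x.2 + q • y.2) (p • x.2 + q • y.2) := by
  simp only [hh_add_m, hh_add_r, hh_smul_m, hh_smul_r, bq, uh, Matrix.cons_val_zero,
    Matrix.cons_val_one, Matrix.cons_val]
  rw [hh_symm C x.1 y.2 x.2]
  ring

theorem bq_vh (C : Cub VV) (x y : VV) (p q : ℂ) :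
    bq (vh C x y) p q = hh C y.1 (p • x.2 + q • y.2) (p • x.2 + q • y.2) := by
  simp only [hh_add_m, hh_add_r, hh_smul_m, hh_smul_r, bq, vh, Matrix.cons_val_zero,
    Matrix.cons_val_one, Matrix.cons_val]
  rw [hh_symm C y.1 y.2 x.2]
  ring

private theorem bc_eq (C : Cub VV) (x y : VV) (p q : ℂ) :
    bc (ff C x y) p q = p * bq (uu C x y) p q + q * bq (vv C x y) p q := by
  simp only [bc, ff, bq, Matrix.cons_val_zero, Matrix.cons_val_one, Matrix.cons_val]
  ring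

theorem bc_ff (C : Cub VV) (x y : VV) (p q : ℂ) :
    bc (ff C x y) p q = gg C (p • x.1 + q • y.1) (p • x.1 + q • y.1) (p • x.2 + q • y.2) := by
  rw [bc_eq, bq_uu, bq_vv, gg_add_r, gg_smul_r, gg_smul_r]

private theorem uv_ne (C : Cub VV) {x y : VV}
    (R1 : ∀ p q : ℂ, (p ≠ 0 ∨ q ≠ 0) → bq (uu C x y) p q = 0 → bq (vv C x y) p q ≠ 0)
    {p r : ℂ} (n : p ≠ 0 ∨ r ≠ 0) : bq (uu C x y) p r ≠ 0 ∨ bq (vv C x y) p r ≠ 0 := by
  by_contra hc
  push Not at hc
  exact R1 p r n hc.1 hc.2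

private theorem point (C : Cub VV) (h : Std2 C) {x y : VV}
    (hF : ∀ p q : ℂ, C.T (p • x + q • y) (p • x + q • y) (p • x + q • y) = 0)
    (R1 : ∀ p q : ℂ, (p ≠ 0 ∨ q ≠ 0) → bq (uu C x y) p q = 0 → bq (vv C x y) p q ≠ 0)
    (R2 : ∀ p q : ℂ, (p ≠ 0 ∨ q ≠ 0) → bq (uh C x y) p q = 0 → bq (vh C x y) p q ≠ 0)
    {p r : ℂ} (n : p ≠ 0 ∨ r ≠ 0) (hq : bq (qq C x y) p r = 0) :
    SP C (p • x.1 + r • y.1,
      bq (vv C x y) p r • x.2 + (-bq (uu C x y) p r) • y.2) := by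
  have m := uv_ne C R1 n
  refine ⟨?_, ?_, ?_, ?_⟩
  · intro h0
    dsimp only at h0
    rcases m with m | m
    · apply m
      rw [bq_uu, h0, ← zero_smul ℂ (0 : Fin 3 → ℂ), gg_smul_l, zero_mul]
    · apply m
      rw [bq_vv, h0, ← zero_smul ℂ (0 : Fin 3 → ℂ), gg_smul_l, zero_mul]
  · intro h0
    dsimp only at h0
    refine R2 (bq (vv C x y) p r) (-bq (uu C x y) p r) ?_ ?_ ?_
    · rcases m with m | m
      · exact Or.inr (neg_ne_zero.2 m)
      · exact Or.inl m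
    · rw [bq_uh, h0, ← zero_smul ℂ (0 : Fin 3 → ℂ), hh_smul_m, zero_mul]
    · rw [bq_vh, h0, ← zero_smul ℂ (0 : Fin 3 → ℂ), hh_smul_m, zero_mul]
  · dsimp only
    rw [gg_add_r, gg_smul_r, gg_smul_r, ← bq_uu, ← bq_vv]
    ring
  · dsimp only
    have h1 := quint h hF p r
    rw [hq, mul_zero] at h1
    rw [hh_add_m, hh_add_r, hh_add_r]
    simp only [hh_smul_m, hh_smul_r]
    rw [hh_symm C _ y.2 x.2]
    linear_combination h1

private theorem core (C : Cub VV) (h : Std2 C) {s s' : VV} (hs : SP C s) (hs' : SP C s')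
    (NU : ∀ p q : ℂ, (p ≠ 0 ∨ q ≠ 0) →
      gg C (p • s.1 + q • s'.1) (p • s.1 + q • s'.1) s.2 = 0 →
      gg C (p • s.1 + q • s'.1) (p • s.1 + q • s'.1) s'.2 ≠ 0)
    (NH : ∀ p q : ℂ, (p ≠ 0 ∨ q ≠ 0) →
      hh C s.1 (p • s.2 + q • s'.2) (p • s.2 + q • s'.2) = 0 →
      hh C s'.1 (p • s.2 + q • s'.2) (p • s.2 + q • s'.2) ≠ 0)
    {f11 f21 f12 f22 : ℂ} (h21 : f21 ≠ 0) (h12 : f12 ≠ 0) (hD : f11 * f22 - f12 * f21 ≠ 0)
    (hF : ∀ p q : ℂ,
      C.T (p • s.1 + q • s'.1, (f11 * p + f12 * q) • s.2 + (f21 * p + f22 * q) • s'.2)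
      (p • s.1 + q • s'.1, (f11 * p + f12 * q) • s.2 + (f21 * p + f22 * q) • s'.2)
      (p • s.1 + q • s'.1, (f11 * p + f12 * q) • s.2 + (f21 * p + f22 * q) • s'.2) = 0) :
    GG C s s' ≠ 0 ∧ ∀ p q : ℂ, ((p • s.1 + q • s'.1,
      (f11 * p + f12 * q) • s.2 + (f21 * p + f22 * q) • s'.2) : VV) ∈ Lv C s s' := by
  have k112 : gg C s.1 s.1 s'.2 ≠ 0 := by
    have := NU 1 0 (Or.inl one_ne_zero)
    simp only [one_smul, zero_smul, add_zero] at this
    exact this hs.2.2.1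
  have k221 : gg C s'.1 s'.1 s.2 ≠ 0 := by
    intro h0
    have := NU 0 1 (Or.inr one_ne_zero)
    simp only [one_smul, zero_smul, zero_add] at this
    exact this h0 hs'.2.2.1
  have l122 : hh C s.1 s'.2 s'.2 ≠ 0 := by
    intro h0
    have := NH 0 1 (Or.inr one_ne_zero)
    simp only [one_smul, zero_smul, zero_add] at this
    exact this h0 hs'.2.2.2
  have l211 : hh C s'.1 s.2 s.2 ≠ 0 := by
    have := NH 1 0 (Or.inl one_ne_zero)
    simp only [one_smul, zero_smul, add_zero] at this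
    exact this hs.2.2.2
  have e1 : ∀ p q : ℂ, gg C (p • s.1 + q • s'.1) (p • s.1 + q • s'.1) s.2 =
      q * (2 * gg C s.1 s'.1 s.2 * p + gg C s'.1 s'.1 s.2 * q) := by
    intro p q
    simp only [gg_add_l, gg_add_m, gg_smul_l, gg_smul_m]
    rw [gg_symm C s'.1 s.1 s.2, hs.2.2.1]
    ring
  have e2 : ∀ p q : ℂ, gg C (p • s.1 + q • s'.1) (p • s.1 + q • s'.1) s'.2 =
      p * (gg C s.1 s.1 s'.2 * p + 2 * gg C s.1 s'.1 s'.2 * q) := by
    intro p q
    simp only [gg_add_l, gg_add_m, gg_smul_l, gg_smul_m]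
    rw [gg_symm C s'.1 s.1 s'.2, hs'.2.2.1]
    ring
  have e3 : ∀ p q : ℂ, hh C s.1 (p • s.2 + q • s'.2) (p • s.2 + q • s'.2) =
      q * (2 * hh C s.1 s.2 s'.2 * p + hh C s.1 s'.2 s'.2 * q) := by
    intro p q
    simp only [hh_add_m, hh_add_r, hh_smul_m, hh_smul_r]
    rw [hh_symm C s.1 s'.2 s.2, hs.2.2.2]
    ring
  have e4 : ∀ p q : ℂ, hh C s'.1 (p • s.2 + q • s'.2) (p • s.2 + q • s'.2) =
      p * (hh C s'.1 s.2 s.2 * p + 2 * hh C s'.1 s.2 s'.2 * q) := by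
    intro p q
    simp only [hh_add_m, hh_add_r, hh_smul_m, hh_smul_r]
    rw [hh_symm C s'.1 s'.2 s.2, hs'.2.2.2]
    ring
  have hd1 : d1 C s s' ≠ 0 := by
    intro h0
    rw [d1] at h0
    refine NU (2 * gg C s.1 s'.1 s'.2) (-gg C s.1 s.1 s'.2) (Or.inr (neg_ne_zero.2 k112)) ?_ ?_
    · rw [e1]
      linear_combination gg C s.1 s.1 s'.2 * h0
    · rw [e2]
      ring
  have hd2 : d2 C s s' ≠ 0 := by
    intro h0
    rw [d2] at h0
    refine NH (hh C s.1 s'.2 s'.2) (-(2 * hh C s.1 s.2 s'.2)) (Or.inl l122) ?_ ?_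
    · rw [e3]
      ring
    · rw [e4]
      linear_combination (-hh C s.1 s'.2 s'.2) * h0
  have hc : ∀ p q : ℂ, p * (f21 * p + f22 * q) *
      AA C s s' p q (f11 * p + f12 * q) (f21 * p + f22 * q) + q * (f11 * p + f12 * q) *
      BB C s s' p q (f11 * p + f12 * q) (f21 * p + f22 * q) = 0 := by
    intro p q
    have := hF p q
    rw [span_eq h hs hs'] at this
    linear_combination (1 / 3 : ℂ) * this
  have c1 := hc 1 0
  have c2 := hc 0 1
  have c3 := hc 1 1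
  have c4 := hc 1 (-1)
  rw [AA, BB] at c1 c2 c3 c4
  have a1 : gg C s.1 s.1 s'.2 + 2 * hh C s.1 s.2 s'.2 * f11 + hh C s.1 s'.2 s'.2 * f21 = 0 := by
    have : f21 * (gg C s.1 s.1 s'.2 + 2 * hh C s.1 s.2 s'.2 * f11 +
        hh C s.1 s'.2 s'.2 * f21) = 0 := by linear_combination c1
    exact (mul_eq_zero.1 this).resolve_left h21
  have b2 : gg C s'.1 s'.1 s.2 + hh C s'.1 s.2 s.2 * f12 + 2 * hh C s'.1 s.2 s'.2 * f22 = 0 := by
    have : f12 * (gg C s'.1 s'.1 s.2 + hh C s'.1 s.2 s.2 * f12 +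
        2 * hh C s'.1 s.2 s'.2 * f22) = 0 := by linear_combination c2
    exact (mul_eq_zero.1 this).resolve_left h12
  have q1 : f21 * (2 * gg C s.1 s'.1 s'.2 + 2 * hh C s.1 s.2 s'.2 * f12 +
      hh C s.1 s'.2 s'.2 * f22) + f11 * (2 * gg C s.1 s'.1 s.2 + hh C s'.1 s.2 s.2 * f11 +
      2 * hh C s'.1 s.2 s'.2 * f21) = 0 := by
    linear_combination (1 / 2 : ℂ) * c3 - (1 / 2 : ℂ) * c4 - c2 - f22 * a1
  have q2 : f22 * (2 * gg C s.1 s'.1 s'.2 + 2 * hh C s.1 s.2 s'.2 * f12 +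
      hh C s.1 s'.2 s'.2 * f22) + f12 * (2 * gg C s.1 s'.1 s.2 + hh C s'.1 s.2 s.2 * f11 +
      2 * hh C s'.1 s.2 s'.2 * f21) = 0 := by
    linear_combination (1 / 2 : ℂ) * c3 + (1 / 2 : ℂ) * c4 - c1 - f11 * b2
  have a2 : 2 * gg C s.1 s'.1 s'.2 + 2 * hh C s.1 s.2 s'.2 * f12 +
      hh C s.1 s'.2 s'.2 * f22 = 0 := by
    have : (f11 * f22 - f12 * f21) * (2 * gg C s.1 s'.1 s'.2 + 2 * hh C s.1 s.2 s'.2 * f12 +
      hh C s.1 s'.2 s'.2 * f22) = 0 := by linear_combination f11 * q2 - f12 * q1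
    exact (mul_eq_zero.1 this).resolve_left hD
  have b1 : 2 * gg C s.1 s'.1 s.2 + hh C s'.1 s.2 s.2 * f11 +
      2 * hh C s'.1 s.2 s'.2 * f21 = 0 := by
    have : (f11 * f22 - f12 * f21) * (2 * gg C s.1 s'.1 s.2 + hh C s'.1 s.2 s.2 * f11 +
      2 * hh C s'.1 s.2 s'.2 * f21) = 0 := by linear_combination f22 * q1 - f21 * q2
    exact (mul_eq_zero.1 this).resolve_left hD
  have hd3 : d3 C s s' ≠ 0 := by
    intro h0
    have h0' := h0
    rw [d3] at h0'
    rw [d2] at hd2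
    have E1 : 2 * hh C s.1 s.2 s'.2 * (-gg C s.1 s.1 s'.2 - 2 * hh C s.1 s.2 s'.2 * f11) -
        hh C s.1 s'.2 s'.2 * (2 * hh C s.1 s.2 s'.2 * f21) = 0 := by
      linear_combination (-(2 * hh C s.1 s.2 s'.2)) * a1
    have E2 : hh C s'.1 s.2 s.2 * (-gg C s.1 s.1 s'.2 - 2 * hh C s.1 s.2 s'.2 * f11) -
        2 * hh C s'.1 s.2 s'.2 * (2 * hh C s.1 s.2 s'.2 * f21) = 0 := by
      linear_combination (-1 : ℂ) * h0' - (2 * hh C s.1 s.2 s'.2) * b1
    have E3 := mul_eq_zero.1 (show (4 * hh C s.1 s.2 s'.2 * hh C s'.1 s.2 s'.2 -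
      hh C s.1 s'.2 s'.2 * hh C s'.1 s.2 s.2) * (2 * hh C s.1 s.2 s'.2 * f21) = 0 by
        linear_combination hh C s'.1 s.2 s.2 * E1 - 2 * hh C s.1 s.2 s'.2 * E2)
    have E4 := mul_eq_zero.1 (show (4 * hh C s.1 s.2 s'.2 * hh C s'.1 s.2 s'.2 -
      hh C s.1 s'.2 s'.2 * hh C s'.1 s.2 s.2) *
        (-gg C s.1 s.1 s'.2 - 2 * hh C s.1 s.2 s'.2 * f11) = 0 by
        linear_combination 2 * hh C s'.1 s.2 s'.2 * E1 - hh C s.1 s'.2 s'.2 * E2)
    have E5 := (mul_eq_zero.1 (E3.resolve_left hd2)).resolve_right h21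
    have E6 := E4.resolve_left hd2
    exact k112 (by linear_combination (-1 : ℂ) * E6 - f11 * E5)
  have hd3' : d3 C s' s ≠ 0 := by
    intro h0
    have h0' := h0
    rw [d3, hh_symm C s'.1 s'.2 s.2, gg_symm C s'.1 s.1 s'.2] at h0'
    rw [d2] at hd2
    have E1 : hh C s.1 s'.2 s'.2 * (-gg C s'.1 s'.1 s.2 - 2 * hh C s'.1 s.2 s'.2 * f22) -
        2 * hh C s.1 s.2 s'.2 * (2 * hh C s'.1 s.2 s'.2 * f12) = 0 := by
      linear_combination (-1 : ℂ) * h0' - (2 * hh C s'.1 s.2 s'.2) * a2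
    have E2 : 2 * hh C s'.1 s.2 s'.2 * (-gg C s'.1 s'.1 s.2 - 2 * hh C s'.1 s.2 s'.2 * f22) -
        hh C s'.1 s.2 s.2 * (2 * hh C s'.1 s.2 s'.2 * f12) = 0 := by
      linear_combination (-(2 * hh C s'.1 s.2 s'.2)) * b2
    have E3 := mul_eq_zero.1 (show (4 * hh C s.1 s.2 s'.2 * hh C s'.1 s.2 s'.2 -
      hh C s.1 s'.2 s'.2 * hh C s'.1 s.2 s.2) * (2 * hh C s'.1 s.2 s'.2 * f12) = 0 by
        linear_combination hh C s.1 s'.2 s'.2 * E2 - 2 * hh C s'.1 s.2 s'.2 * E1)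
    have E4 := mul_eq_zero.1 (show (4 * hh C s.1 s.2 s'.2 * hh C s'.1 s.2 s'.2 -
      hh C s.1 s'.2 s'.2 * hh C s'.1 s.2 s.2) *
        (-gg C s'.1 s'.1 s.2 - 2 * hh C s'.1 s.2 s'.2 * f22) = 0 by
        linear_combination 2 * hh C s.1 s.2 s'.2 * E2 - hh C s'.1 s.2 s.2 * E1)
    have E5 := (mul_eq_zero.1 (E3.resolve_left hd2)).resolve_right h12
    have E6 := E4.resolve_left hd2
    exact k221 (by linear_combination (-1 : ℂ) * E6 - f22 * E5)
  refine ⟨?_, ?_⟩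
  · rw [GG]
    exact mul_ne_zero (mul_ne_zero (mul_ne_zero (mul_ne_zero (mul_ne_zero (mul_ne_zero
      (mul_ne_zero k112 k221) l122) l211) hd1) hd2) hd3) hd3'
  · intro p q
    rw [mem_Lv C hd1]
    refine ⟨p, q, f11 * p + f12 * q, f21 * p + f22 * q, rfl, ?_, ?_⟩
    · rw [AA]
      linear_combination p * a1 + q * a2
    · rw [BB]
      linear_combination p * b1 + q * b2

theorem Lv_surj (C : Cub VV) (h : Std2 C) {L : Submodule ℂ VV} (hL : CLine C L)
    (hO : OpenV C L) : ∃ s s' : VV, SP C s ∧ SP C s' ∧ GG C s s' ≠ 0 ∧ L = Lv C s s' := by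
  obtain ⟨x, y, hLxy, hH⟩ := hO
  have hF : ∀ p q : ℂ, C.T (p • x + q • y) (p • x + q • y) (p • x + q • y) = 0 := by
    intro p q
    refine hL.2 _ ?_
    rw [hLxy]
    exact Submodule.add_mem _ (Submodule.smul_mem _ _ (Submodule.subset_span (by simp)))
      (Submodule.smul_mem _ _ (Submodule.subset_span (by simp)))
  rw [HH] at hH
  have hH4 := right_ne_zero_of_mul hH
  have hH3 := right_ne_zero_of_mul (left_ne_zero_of_mul hH)
  have hH2 := right_ne_zero_of_mul (left_ne_zero_of_mul (left_ne_zero_of_mul hH))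
  have hH1 := left_ne_zero_of_mul (left_ne_zero_of_mul (left_ne_zero_of_mul hH))
  have R1 := (rs22 _ _).1 hH1
  have R2 := (rs22 _ _).1 hH2
  have R4 := (rs23 _ _).1 hH4
  obtain ⟨p1, r1, p2, r2, hq1, hq2, hD⟩ := disc_zeros _ hH3
  have n1 : p1 ≠ 0 ∨ r1 ≠ 0 := by
    by_contra hc
    push Not at hc
    exact hD (by rw [hc.1, hc.2]; ring)
  have n2 : p2 ≠ 0 ∨ r2 ≠ 0 := by
    by_contra hc
    push Not at hc
    exact hD (by rw [hc.1, hc.2]; ring)
  have hs := point C h hF R1 R2 n1 hq1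
  have hs' := point C h hF R1 R2 n2 hq2
  have m1 := uv_ne C R1 n1
  have m2 := uv_ne C R1 n2
  have w1 := R4 p1 r1 n1 hq1
  have w2 := R4 p2 r2 n2 hq2
  rw [bc_eq] at w1 w2
  have bu := bq_uu C x y
  have bv := bq_vv C x y
  generalize bq (uu C x y) p1 r1 = u1 at hs m1 w1
  generalize bq (vv C x y) p1 r1 = v1 at hs m1 w1
  generalize bq (uu C x y) p2 r2 = u2 at hs' m2 w2
  generalize bq (vv C x y) p2 r2 = v2 at hs' m2 w2
  -- the two vectors of the second factor are independent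
  have hde : u1 * v2 - u2 * v1 ≠ 0 := by
    intro h0
    have e1 : v1 • (v2 • x.2 + (-u2) • y.2) = v2 • (v1 • x.2 + (-u1) • y.2) := by
      rw [smul_add, smul_add, smul_smul, smul_smul, smul_smul, smul_smul,
        show v1 * -u2 = v2 * -u1 by linear_combination h0, mul_comm v1 v2]
    have e2 : u1 • (v2 • x.2 + (-u2) • y.2) = u2 • (v1 • x.2 + (-u1) • y.2) := by
      rw [smul_add, smul_add, smul_smul, smul_smul, smul_smul, smul_smul,
        show u1 * v2 = u2 * v1 by linear_combination h0, show u1 * -u2 = u2 * -u1 by ring]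
    have hz := hs'.2.2.2
    have hz1 := hs.2.2.2
    dsimp only at hz hz1
    set b1 := v1 • x.2 + (-u1) • y.2 with hb1
    set b2 := v2 • x.2 + (-u2) • y.2 with hb2
    have e3 : v2 * (v2 * hh C (p2 • x.1 + r2 • y.1) b1 b1) = 0 := by
      rw [← hh_smul_r, ← hh_smul_m, ← e1, hh_smul_m, hh_smul_r, hz, mul_zero, mul_zero]
    have e4 : u2 * (u2 * hh C (p2 • x.1 + r2 • y.1) b1 b1) = 0 := by
      rw [← hh_smul_r, ← hh_smul_m, ← e2, hh_smul_m, hh_smul_r, hz, mul_zero, mul_zero]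
    have e5 : hh C (p2 • x.1 + r2 • y.1) b1 b1 = 0 := by
      rcases m2 with m | m
      · rcases mul_eq_zero.1 e4 with h1 | h1
        · exact absurd h1 m
        · exact (mul_eq_zero.1 h1).resolve_left m
      · rcases mul_eq_zero.1 e3 with h1 | h1
        · exact absurd h1 m
        · exact (mul_eq_zero.1 h1).resolve_left m
    rw [hh_add_l, hh_smul_l, hh_smul_l] at e5 hz1
    have e6 : hh C x.1 b1 b1 = 0 := by
      have : (p1 * r2 - p2 * r1) * hh C x.1 b1 b1 = 0 := by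
        linear_combination r2 * hz1 - r1 * e5
      exact (mul_eq_zero.1 this).resolve_left hD
    have e7 : hh C y.1 b1 b1 = 0 := by
      have : (p1 * r2 - p2 * r1) * hh C y.1 b1 b1 = 0 := by
        linear_combination p1 * e5 - p2 * hz1
      exact (mul_eq_zero.1 this).resolve_left hD
    refine R2 v1 (-u1) ?_ ?_ ?_
    · rcases m1 with m | m
      · exact Or.inr (neg_ne_zero.2 m)
      · exact Or.inl m
    · rw [bq_uh]; exact e6
    · rw [bq_vh]; exact e7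
  obtain ⟨de, hd⟩ : ∃ de : ℂ, de = u1 * v2 - u2 * v1 := ⟨_, rfl⟩
  rw [← hd] at hde
  have hX : x.2 = (-(u2 / de)) • (v1 • x.2 + (-u1) • y.2) +
      (u1 / de) • (v2 • x.2 + (-u2) • y.2) := by
    match_scalars
    · field_simp
      rw [hd]
      ring
    · ring
  have hY : y.2 = (-(v2 / de)) • (v1 • x.2 + (-u1) • y.2) +
      (v1 / de) • (v2 • x.2 + (-u2) • y.2) := by
    match_scalars
    · field_simp
      rw [hd]
      ring
    · ring
  have evec : ∀ p q : ℂ, ((p • (p1 • x.1 + r1 • y.1) + q • (p2 • x.1 + r2 • y.1),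
      (-((p1 * u2 + r1 * v2) / de) * p +
        -((p2 * u2 + r2 * v2) / de) * q) • (v1 • x.2 + (-u1) • y.2) +
      ((p1 * u1 + r1 * v1) / de * p +
        (p2 * u1 + r2 * v1) / de * q) • (v2 • x.2 + (-u2) • y.2)) : VV) =
      (p * p1 + q * p2) • x + (p * r1 + q * r2) • y := by
    intro p q
    refine Prod.ext ?_ ?_
    · change p • (p1 • x.1 + r1 • y.1) + q • (p2 • x.1 + r2 • y.1) =
        (p * p1 + q * p2) • x.1 + (p * r1 + q * r2) • y.1
      module
    · change (-((p1 * u2 + r1 * v2) / de) * p +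
        -((p2 * u2 + r2 * v2) / de) * q) • (v1 • x.2 + (-u1) • y.2) +
        ((p1 * u1 + r1 * v1) / de * p +
        (p2 * u1 + r2 * v1) / de * q) • (v2 • x.2 + (-u2) • y.2) =
        (p * p1 + q * p2) • x.2 + (p * r1 + q * r2) • y.2
      match_scalars
      · field_simp
        rw [hd]
        ring
      · field_simp
        rw [hd]
        ring
  have key := core C h hs hs' ?_ ?_
    (f11 := -((p1 * u2 + r1 * v2) / de))
    (f21 := (p1 * u1 + r1 * v1) / de)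
    (f12 := -((p2 * u2 + r2 * v2) / de))
    (f22 := (p2 * u1 + r2 * v1) / de)
    (div_ne_zero w1 hde) (neg_ne_zero.2 (div_ne_zero w2 hde)) ?_ ?_
  · refine ⟨_, _, hs, hs', key.1, ?_⟩
    have hmem := key.2
    simp only [evec] at hmem
    have hle : L ≤ Lv C (p1 • x.1 + r1 • y.1, v1 • x.2 + (-u1) • y.2)
        (p2 • x.1 + r2 • y.1, v2 • x.2 + (-u2) • y.2) := by
      obtain ⟨De, hDe⟩ : ∃ De : ℂ, De = p1 * r2 - p2 * r1 := ⟨_, rfl⟩
      rw [← hDe] at hD
      rw [hLxy, Submodule.span_le]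
      intro z hz
      rcases hz with hz | hz
      · have k := hmem (r2 / De) (-(r1 / De))
        rw [show r2 / De * p1 + -(r1 / De) * p2 = 1 by
            field_simp; rw [hDe]; ring,
          show r2 / De * r1 + -(r1 / De) * r2 = 0 by
            ring, one_smul, zero_smul, add_zero] at k
        rw [hz]
        exact k
      · have k := hmem (-(p2 / De)) (p1 / De)
        rw [show -(p2 / De) * p1 + p1 / De * p2 = 0 by
            ring,
          show -(p2 / De) * r1 + p1 / De * r2 = 1 by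
            field_simp; rw [hDe]; ring, one_smul, zero_smul, zero_add] at k
        rw [Set.mem_singleton_iff.1 hz]
        exact k
    have hpt := GG_parts C key.1
    refine Submodule.eq_of_le_of_finrank_eq hle ?_
    rw [hL.1, Lv_finrank C hs hs' hpt.2.2.2.2.1 hpt.2.2.2.2.2.1]
  · intro p q hpq h1 h2
    dsimp only at h1 h2
    have e : p • (p1 • x.1 + r1 • y.1) + q • (p2 • x.1 + r2 • y.1) =
        (p * p1 + q * p2) • x.1 + (p * r1 + q * r2) • y.1 := by module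
    rw [e] at h1 h2
    have n : p * p1 + q * p2 ≠ 0 ∨ p * r1 + q * r2 ≠ 0 := by
      by_contra hc
      push Not at hc
      rcases hpq with k | k
      · apply k
        have : (p1 * r2 - p2 * r1) * p = 0 := by linear_combination r2 * hc.1 - p2 * hc.2
        exact (mul_eq_zero.1 this).resolve_left hD
      · apply k
        have : (p1 * r2 - p2 * r1) * q = 0 := by linear_combination p1 * hc.2 - r1 * hc.1
        exact (mul_eq_zero.1 this).resolve_left hD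
    refine R1 _ _ n ?_ ?_
    · rw [bu, hX, gg_add_r, gg_smul_r, gg_smul_r, h1, h2]
      ring
    · rw [bv, hY, gg_add_r, gg_smul_r, gg_smul_r, h1, h2]
      ring
  · intro p q hpq h1 h2
    dsimp only at h1 h2
    have e : p • (v1 • x.2 + (-u1) • y.2) + q • (v2 • x.2 + (-u2) • y.2) =
        (p * v1 + q * v2) • x.2 + (-(p * u1 + q * u2)) • y.2 := by module
    rw [e] at h1 h2
    have n : p * v1 + q * v2 ≠ 0 ∨ -(p * u1 + q * u2) ≠ 0 := by
      by_contra hc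
      push Not at hc
      rcases hpq with k | k
      · apply k
        have : de * p = 0 := by
          rw [hd]
          linear_combination (-u2) * hc.1 - v2 * hc.2
        exact (mul_eq_zero.1 this).resolve_left hde
      · apply k
        have : de * q = 0 := by
          rw [hd]
          linear_combination u1 * hc.1 + v1 * hc.2
        exact (mul_eq_zero.1 this).resolve_left hde
    rw [hh_add_l, hh_smul_l, hh_smul_l] at h1 h2
    refine R2 _ _ n ?_ ?_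
    · rw [bq_uh]
      have : (p1 * r2 - p2 * r1) * hh C x.1 ((p * v1 + q * v2) • x.2 + (-(p * u1 + q * u2)) • y.2)
          ((p * v1 + q * v2) • x.2 + (-(p * u1 + q * u2)) • y.2) = 0 := by
        linear_combination r2 * h1 - r1 * h2
      exact (mul_eq_zero.1 this).resolve_left hD
    · rw [bq_vh]
      have : (p1 * r2 - p2 * r1) * hh C y.1 ((p * v1 + q * v2) • x.2 + (-(p * u1 + q * u2)) • y.2)
          ((p * v1 + q * v2) • x.2 + (-(p * u1 + q * u2)) • y.2) = 0 := by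
        linear_combination p1 * h2 - p2 * h1
      exact (mul_eq_zero.1 this).resolve_left hD
  · intro h0
    apply hD
    have e0 : -((p1 * u2 + r1 * v2) / de) *
        ((p2 * u1 + r2 * v1) / de) -
        -((p2 * u2 + r2 * v2) / de) *
        ((p1 * u1 + r1 * v1) / de) =
        (p1 * r2 - p2 * r1) / de := by
      field_simp
      rw [hd]
      ring
    rw [e0] at h0
    exact (div_eq_zero_iff.1 h0).resolve_right hde
  · intro p q
    dsimp only
    rw [evec]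
    exact hF _ _

end Pool.Agent.P28
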