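import Pool.Agent.P28.FAcl
import Pool.Agent.P28.FSm
import Pool.Agent.P28.NetA

set_option autoImplicit false

/-!
# P28 F09: points of the surface depend on at most two parameters

`KC K C`: the subfield `K` contains the coefficients of the cubic.

PROOFS. `gg_mem`, `hh_mem`: expand in the basis `Pi.single i 1`.
`S_tr`: let `b = s.2`; `b j ≠ 0` for some `j`; put `d = 1 / b j`, `b' = d b` (so `b' j = 1`), the
other two coordinates of `b'` are `X, Y`.
Claim: there is a set `W0` (`W0 = {X, Y}`, or one element) with all `b' i` in `acl K W0`, and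
`W0` has one element (or `W0 = {X, Y}` and `det (am C b') ≠ 0`): if `det (am C b') = 0`: the
polynomial `D3 C ≠ 0` (`D3_ne`) is homogeneous of degree 3 with coefficients in `K`, so
`D3 C` with `X_j := 1` is a nonzero polynomial in two variables with coefficients in `K`
vanishing at `(X, Y)`. Write it as `∑ P_i(x) y^i`: if all `P_i(X) = 0` then `X` is algebraic over
`K` and `W0 = {Y}`; otherwise `Y` is a root of the nonzero polynomial `∑ P_i(X) y^i`, `W0 = {X}`.
(Elementary version: `t ↦ det (am C (...))` is a polynomial of degree at most 3 in each variable.)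
Next let `l i = hh (Pi.single i 1) b' b'`, all in `E = acl K W0`, `l ≠ 0` (`hh_ne`); the vectors
`a` with `hh a b' b' = ∑ a i l i = 0` have a basis `k1, k2` with coordinates in `E` (if `l 0 ≠ 0`:
`(-l 1 / l 0, 1, 0)`, `(-l 2 / l 0, 0, 1)` and so on). So `s.1 = x k1 + y k2`.
If `det (am C b') ≠ 0`: the quadratic form `gg a a b'` on `span {k1, k2}` is not identically zero
(otherwise the symmetric bilinear form `gg . . b'` vanishes on a 2-dimensional space of `ℂ^3` and
its matrix is singular), its coefficients `gg k1 k1 b'`, `2 gg k1 k2 b'`, `gg k2 k2 b'` are in `E`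
and `gg s.1 s.1 b' = 0`; so (`acl_quad`) `x / y` (if `y ≠ 0`; put `c = 1 / y`) or `y / x = 0` (if
`y = 0`, `c = 1 / x`) is in `E`, and `c s.1` has its coordinates in `E`, `{w0, w1} = {X, Y}`.
If `W0` has one element `w0`: put `w1 = x / y` (or `w1 = 0` if `y = 0`).
-/

namespace Pool.Agent.P28

open Module MvPolynomial

/-- `K` contains the coefficients. -/
def KC (K : Subfield ℂ) (C : Cub VV) : Prop :=
  ∀ i j k : Fin 3, gg C (Pi.single i 1) (Pi.single j 1) (Pi.single k 1) ∈ K ∧
    hh C (Pi.single i 1) (Pi.single j 1) (Pi.single k 1) ∈ K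

theorem gg_mem (C : Cub VV) {K : Subfield ℂ} (hK : KC K C) {E : Subfield ℂ} (hE : K ≤ E)
    {a a' b : Fin 3 → ℂ} (ha : ∀ i, a i ∈ E) (ha' : ∀ i, a' i ∈ E) (hb : ∀ i, b i ∈ E) :
    gg C a a' b ∈ E := by
  have hG : ∀ i j k, C.T (P28.E i) (P28.E j) (Fv k) ∈ E := fun i j k => hE (hK i j k).1
  rw [gg, sum_E a, sum_E a', sum_Fv b]
  simp only [Fin.sum_univ_three, map_add, map_smul, LinearMap.add_apply, LinearMap.smul_apply,
    smul_eq_mul]
  repeat' first
    | exact ha _
    | exact ha' _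
    | exact hb _
    | exact hG _ _ _
    | apply add_mem
    | apply mul_mem

theorem hh_mem (C : Cub VV) {K : Subfield ℂ} (hK : KC K C) {E : Subfield ℂ} (hE : K ≤ E)
    {a b b' : Fin 3 → ℂ} (ha : ∀ i, a i ∈ E) (hb : ∀ i, b i ∈ E) (hb' : ∀ i, b' i ∈ E) :
    hh C a b b' ∈ E := by
  have hG : ∀ i j k, C.T (P28.E i) (Fv j) (Fv k) ∈ E := fun i j k => hE (hK i j k).2
  rw [hh, sum_E a, sum_Fv b, sum_Fv b']
  simp only [Fin.sum_univ_three, map_add, map_smul, LinearMap.add_apply, LinearMap.smul_apply,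
    smul_eq_mul]
  repeat' first
    | exact ha _
    | exact hb _
    | exact hb' _
    | exact hG _ _ _
    | apply add_mem
    | apply mul_mem

/-- `det (A + t B)` as a polynomial with coefficients in a field which contains the entries. -/
private theorem ftr_det (E : Subfield ℂ) (A B : Matrix (Fin 3) (Fin 3) ℂ)
    (hA : ∀ i j, A i j ∈ E) (hB : ∀ i j, B i j ∈ E) :
    ∃ P : Polynomial ℂ, (∀ i, P.coeff i ∈ E) ∧ ∀ t : ℂ, P.eval t = (A + t • B).det := by
  let M : Matrix (Fin 3) (Fin 3) (Polynomial E) := Matrix.of fun i j =>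
    Polynomial.C ⟨A i j, hA i j⟩ + Polynomial.X * Polynomial.C ⟨B i j, hB i j⟩
  refine ⟨M.det.map E.subtype, fun i => ?_, fun t => ?_⟩
  · rw [Polynomial.coeff_map]
    exact (M.det.coeff i).2
  · rw [Polynomial.eval_map]
    have h1 := (Polynomial.eval₂RingHom E.subtype t).map_det M
    rw [Polynomial.coe_eval₂RingHom] at h1
    rw [h1]
    congr 1
    ext i j
    simp [M]
    exact mul_comm _ _

private theorem ftr_am_add (C : Cub VV) (u v : Fin 3 → ℂ) : am C (u + v) = am C u + am C v := by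
  ext i j
  exact gg_add_r C _ _ u v

private theorem ftr_am_smul (C : Cub VV) (t : ℂ) (u : Fin 3 → ℂ) : am C (t • u) = t • am C u := by
  ext i j
  exact gg_smul_r C t _ _ u

private theorem ftr_am_mem (C : Cub VV) {K : Subfield ℂ} (hK : KC K C) {E : Subfield ℂ}
    (hE : K ≤ E) {u : Fin 3 → ℂ} (hu : ∀ i, u i ∈ E) (i j : Fin 3) : am C u i j ∈ E := by
  have h1 : ∀ i k : Fin 3, (Pi.single i (1 : ℂ) : Fin 3 → ℂ) k ∈ E := by
    intro i k
    by_cases h : k = i
    · rw [h, Pi.single_eq_same]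
      exact one_mem E
    · rw [Pi.single_eq_of_ne h]
      exact zero_mem E
  exact gg_mem C hK hE (h1 i) (h1 j) hu

private theorem ftr_single (E : Subfield ℂ) (i k : Fin 3) :
    (Pi.single i (1 : ℂ) : Fin 3 → ℂ) k ∈ E := by
  by_cases h : k = i
  · rw [h, Pi.single_eq_same]
    exact one_mem E
  · rw [Pi.single_eq_of_ne h]
    exact zero_mem E

private theorem ftr_idx (j : Fin 3) : ∃ j1 j2 : Fin 3, (∀ i, i = j ∨ i = j1 ∨ i = j2) ∧
    ∀ u : Fin 3 → ℂ, u = u j • Pi.single j (1 : ℂ) + u j1 • Pi.single j1 (1 : ℂ) +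
      u j2 • Pi.single j2 (1 : ℂ) := by
  fin_cases j
  · refine ⟨1, 2, by decide, fun u => ?_⟩
    ext i
    fin_cases i <;> simp
  · refine ⟨0, 2, by decide, fun u => ?_⟩
    ext i
    fin_cases i <;> simp
  · refine ⟨0, 1, by decide, fun u => ?_⟩
    ext i
    fin_cases i <;> simp

/-- If `det (am C b) = 0` and `b j = 1` then the coordinates of `b` are algebraic over `K (w0)`. -/
private theorem ftr_one (C : Cub VV) (h : Std C) (hS : C.Smooth) {K : Subfield ℂ} (hK : KC K C)
    {b : Fin 3 → ℂ} {j : Fin 3} (hj : b j = 1) (hd : (am C b).det = 0) :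
    ∃ w0 : ℂ, ∀ i, b i ∈ acl K {w0} := by
  obtain ⟨j1, j2, hji, hexp⟩ := ftr_idx j
  have hb := hexp b
  rw [hj, one_smul] at hb
  -- the polynomial in the second coordinate
  have hX : b j1 ∈ acl K {b j1} := subset_acl K _ (Set.mem_singleton _)
  have hp : ∀ i, (Pi.single j (1 : ℂ) + b j1 • Pi.single j1 (1 : ℂ) : Fin 3 → ℂ) i ∈
      acl K {b j1} := by
    intro i
    rw [Pi.add_apply, Pi.smul_apply, smul_eq_mul]
    exact add_mem (ftr_single _ _ _) (mul_mem hX (ftr_single _ _ _))
  obtain ⟨P, hPc, hPe⟩ := ftr_det (acl K {b j1})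
    (am C (Pi.single j (1 : ℂ) + b j1 • Pi.single j1 (1 : ℂ))) (am C (Pi.single j2 (1 : ℂ)))
    (ftr_am_mem C hK (le_acl _ _) hp) (ftr_am_mem C hK (le_acl _ _) (ftr_single _ _))
  have hroot : P.eval (b j2) = 0 := by
    rw [hPe, ← ftr_am_smul, ← ftr_am_add, ← hb, hd]
  by_cases hP : P = 0
  · -- every `y` is a root
    have hall : ∀ t : ℂ, (am C (Pi.single j (1 : ℂ) + b j1 • Pi.single j1 (1 : ℂ) +
        t • Pi.single j2 (1 : ℂ))).det = 0 := by
      intro t
      rw [ftr_am_add, ftr_am_smul C t, ← hPe, hP, Polynomial.eval_zero]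
    -- the polynomials in the first coordinate
    have hq : ∀ (n : ℕ) (i : Fin 3),
        (Pi.single j (1 : ℂ) + (n : ℂ) • Pi.single j2 (1 : ℂ) : Fin 3 → ℂ) i ∈ acl K ∅ := by
      intro n i
      rw [Pi.add_apply, Pi.smul_apply, smul_eq_mul]
      exact add_mem (ftr_single _ _ _) (mul_mem (natCast_mem _ n) (ftr_single _ _ _))
    have hR := fun n : ℕ => ftr_det (acl K ∅)
      (am C (Pi.single j (1 : ℂ) + (n : ℂ) • Pi.single j2 (1 : ℂ))) (am C (Pi.single j1 (1 : ℂ)))
      (ftr_am_mem C hK (le_acl _ _) (hq n)) (ftr_am_mem C hK (le_acl _ _) (ftr_single _ _))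
    choose R hRc hRe using hR
    by_cases hn : ∃ n, R n ≠ 0
    · obtain ⟨n, hn⟩ := hn
      have h1 : (R n).IsRoot (b j1) := by
        rw [Polynomial.IsRoot.def, hRe, ← ftr_am_smul, ← ftr_am_add, ← hall n]
        congr 2
        abel
      have h2 : b j1 ∈ acl K ∅ := acl_root K ∅ hn (hRc n) h1
      refine ⟨b j2, fun i => ?_⟩
      rcases hji i with rfl | rfl | rfl
      · rw [hj]
        exact one_mem _
      · exact acl_mono K (Set.empty_subset _) h2
      · exact subset_acl K _ (Set.mem_singleton _)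
    · exfalso
      push Not at hn
      have hxn : ∀ (x : ℂ) (n : ℕ), (am C (Pi.single j (1 : ℂ) + x • Pi.single j1 (1 : ℂ) +
          (n : ℂ) • Pi.single j2 (1 : ℂ))).det = 0 := by
        intro x n
        have h1 := hRe n x
        rw [hn n, Polynomial.eval_zero, ← ftr_am_smul, ← ftr_am_add] at h1
        rw [h1]
        congr 2
        abel
      have hxy : ∀ x y : ℂ, (am C (Pi.single j (1 : ℂ) + x • Pi.single j1 (1 : ℂ) +
          y • Pi.single j2 (1 : ℂ))).det = 0 := by
        intro x y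
        obtain ⟨Q, -, hQe⟩ := ftr_det ⊤
          (am C (Pi.single j (1 : ℂ) + x • Pi.single j1 (1 : ℂ))) (am C (Pi.single j2 (1 : ℂ)))
          (fun _ _ => Subfield.mem_top _) (fun _ _ => Subfield.mem_top _)
        have hQ0 : Q = 0 := by
          refine Polynomial.eq_zero_of_infinite_isRoot Q ?_
          refine Set.Infinite.mono ?_ (Set.infinite_range_of_injective
            (f := fun n : ℕ => (n : ℂ)) Nat.cast_injective)
          rintro _ ⟨n, rfl⟩
          show Q.IsRoot (n : ℂ)
          rw [Polynomial.IsRoot.def, hQe, ← ftr_am_smul, ← ftr_am_add, hxn]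
        rw [ftr_am_add, ftr_am_smul C y, ← hQe, hQ0, Polynomial.eval_zero]
      have hev : ∀ u : Fin 3 → ℂ, eval u (D3 C) = (am C u).det := by
        intro u
        rw [D3, RingHom.map_det]
        congr 1
        ext i k
        exact eval_pa C u i k
      have hu : ∀ u : Fin 3 → ℂ, u j ≠ 0 → (am C u).det = 0 := by
        intro u hu
        have h1 : u = u j • (Pi.single j (1 : ℂ) + (u j1 / u j) • Pi.single j1 (1 : ℂ) +
            (u j2 / u j) • Pi.single j2 (1 : ℂ)) := by
          conv_lhs => rw [hexp u]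
          rw [smul_add, smul_add, smul_smul, smul_smul, mul_div_cancel₀ _ hu,
            mul_div_cancel₀ _ hu]
        rw [h1, ftr_am_smul, Matrix.det_smul, hxy, mul_zero]
      have hz : D3 C * X j = 0 := by
        refine MvPolynomial.funext fun u => ?_
        rw [map_mul, hev, eval_X, map_zero]
        by_cases h0 : u j = 0
        · rw [h0, mul_zero]
        · rw [hu u h0, zero_mul]
      rcases mul_eq_zero.1 hz with h1 | h1
      · exact D3_ne C hS h h1
      · exact X_ne_zero j h1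
  · refine ⟨b j1, fun i => ?_⟩
    rcases hji i with rfl | rfl | rfl
    · rw [hj]
      exact one_mem _
    · exact hX
    · exact acl_root K _ hP hPc hroot

private theorem ftr_alg {a b c d e f p q : ℂ} (h1 : a - 2 * p * c + p ^ 2 * f = 0)
    (h2 : b - q * c - p * e + p * q * f = 0) (h3 : d - 2 * q * e + q ^ 2 * f = 0) :
    a * (d * f - e * e) - b * (b * f - e * c) + c * (b * e - d * c) = 0 := by
  linear_combination ((d - 2 * q * e + q ^ 2 * f) * f - (e - q * f) ^ 2) * h1 +
    (-(b - q * c - p * e + p * q * f) * f + 2 * (c - p * f) * (e - q * f)) * h2 -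
    (c - p * f) ^ 2 * h3

private theorem ftr_kv (l : Fin 3 → ℂ) (hl : l ≠ 0) : ∃ k1 k2 : Fin 3 → ℂ,
    (∀ E : Subfield ℂ, (∀ i, l i ∈ E) → (∀ i, k1 i ∈ E) ∧ ∀ i, k2 i ∈ E) ∧
    (∀ a : Fin 3 → ℂ, a 0 * l 0 + a 1 * l 1 + a 2 * l 2 = 0 → ∃ x y : ℂ, a = x • k1 + y • k2) ∧
    ∀ M : Matrix (Fin 3) (Fin 3) ℂ, (∀ i j, M i j = M j i) →
      (∑ i, ∑ j, k1 i * k1 j * M i j = 0) → (∑ i, ∑ j, k1 i * k2 j * M i j = 0) →
      (∑ i, ∑ j, k2 i * k2 j * M i j = 0) → M.det = 0 := by
  have hm : ∀ (E : Subfield ℂ) (x y : ℂ), x ∈ E → y ∈ E → -(x / y) ∈ E := fun E x y hx hy =>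
    neg_mem (div_mem hx hy)
  by_cases h0 : l 0 = 0
  · by_cases h1 : l 1 = 0
    · have h2 : l 2 ≠ 0 := by
        intro h2
        apply hl
        ext i
        fin_cases i
        · exact h0
        · exact h1
        · exact h2
      refine ⟨![1, 0, -(l 0 / l 2)], ![0, 1, -(l 1 / l 2)], fun E hE => ⟨fun i => ?_, fun i => ?_⟩,
        fun a ha => ⟨a 0, a 1, ?_⟩, fun M hM e1 e2 e3 => ?_⟩
      · fin_cases i
        · exact one_mem E
        · exact zero_mem E
        · exact hm E _ _ (hE 0) (hE 2)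
      · fin_cases i
        · exact zero_mem E
        · exact one_mem E
        · exact hm E _ _ (hE 1) (hE 2)
      · ext i
        fin_cases i
        · simp
        · simp
        · simp
          field_simp
          linear_combination ha
      · simp only [Fin.sum_univ_three, Matrix.cons_val_zero, Matrix.cons_val_one,
          Matrix.cons_val] at e1 e2 e3
        rw [hM 1 0, hM 2 0, hM 2 1] at e1 e2 e3
        rw [Matrix.det_fin_three, hM 1 0, hM 2 0, hM 2 1]
        have := ftr_alg (a := M 0 0) (b := M 0 1) (c := M 0 2) (d := M 1 1) (e := M 1 2)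
          (f := M 2 2) (p := l 0 / l 2) (q := l 1 / l 2) (by linear_combination e1)
          (by linear_combination e2) (by linear_combination e3)
        linear_combination this
    · refine ⟨![1, -(l 0 / l 1), 0], ![0, -(l 2 / l 1), 1], fun E hE => ⟨fun i => ?_, fun i => ?_⟩,
        fun a ha => ⟨a 0, a 2, ?_⟩, fun M hM e1 e2 e3 => ?_⟩
      · fin_cases i
        · exact one_mem E
        · exact hm E _ _ (hE 0) (hE 1)
        · exact zero_mem E
      · fin_cases i
        · exact zero_mem E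
        · exact hm E _ _ (hE 2) (hE 1)
        · exact one_mem E
      · ext i
        fin_cases i
        · simp
        · simp
          field_simp
          linear_combination ha
        · simp
      · simp only [Fin.sum_univ_three, Matrix.cons_val_zero, Matrix.cons_val_one,
          Matrix.cons_val] at e1 e2 e3
        rw [hM 1 0, hM 2 0, hM 2 1] at e1 e2 e3
        rw [Matrix.det_fin_three, hM 1 0, hM 2 0, hM 2 1]
        have := ftr_alg (a := M 0 0) (b := M 0 2) (c := M 0 1) (d := M 2 2) (e := M 1 2)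
          (f := M 1 1) (p := l 0 / l 1) (q := l 2 / l 1) (by linear_combination e1)
          (by linear_combination e2) (by linear_combination e3)
        linear_combination this
  · refine ⟨![-(l 1 / l 0), 1, 0], ![-(l 2 / l 0), 0, 1], fun E hE => ⟨fun i => ?_, fun i => ?_⟩,
      fun a ha => ⟨a 1, a 2, ?_⟩, fun M hM e1 e2 e3 => ?_⟩
    · fin_cases i
      · exact hm E _ _ (hE 1) (hE 0)
      · exact one_mem E
      · exact zero_mem E
    · fin_cases i
      · exact hm E _ _ (hE 2) (hE 0)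
      · exact zero_mem E
      · exact one_mem E
    · ext i
      fin_cases i
      · simp
        field_simp
        linear_combination ha
      · simp
      · simp
    · simp only [Fin.sum_univ_three, Matrix.cons_val_zero, Matrix.cons_val_one,
        Matrix.cons_val] at e1 e2 e3
      rw [hM 1 0, hM 2 0, hM 2 1] at e1 e2 e3
      rw [Matrix.det_fin_three, hM 1 0, hM 2 0, hM 2 1]
      have := ftr_alg (a := M 1 1) (b := M 1 2) (c := M 0 1) (d := M 2 2) (e := M 0 2)
        (f := M 0 0) (p := l 1 / l 0) (q := l 2 / l 0) (by linear_combination e1)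
        (by linear_combination e2) (by linear_combination e3)
      linear_combination this

private theorem ftr_gg_sum (C : Cub VV) (a a' b : Fin 3 → ℂ) :
    gg C a a' b = ∑ i, ∑ j, a i * a' j * am C b i j := by
  rw [gg, sum_E a, sum_E a']
  simp only [Fin.sum_univ_three, map_add, map_smul, LinearMap.add_apply, LinearMap.smul_apply,
    smul_eq_mul, am, Matrix.of_apply]
  ring

private theorem ftr_hh_sum (C : Cub VV) (a b b' : Fin 3 → ℂ) :
    hh C a b b' = a 0 * hh C (Pi.single 0 1) b b' + a 1 * hh C (Pi.single 1 1) b b' +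
      a 2 * hh C (Pi.single 2 1) b b' := by
  rw [hh, sum_E a]
  simp only [Fin.sum_univ_three, map_add, map_smul, LinearMap.add_apply, LinearMap.smul_apply,
    smul_eq_mul]
  rfl

theorem S_tr (C : Cub VV) (h : Std2 C) (hS : C.Smooth) {K : Subfield ℂ} (hK : KC K C)
    {s : VV} (hs : SP C s) : ∃ w0 w1 c d : ℂ, c ≠ 0 ∧ d ≠ 0 ∧
      ∀ i, c * s.1 i ∈ acl K {w0, w1} ∧ d * s.2 i ∈ acl K {w0, w1} := by
  obtain ⟨ha0, hb0, hg, hh0⟩ := hs
  obtain ⟨j, hj⟩ : ∃ j, s.2 j ≠ 0 := by
    by_contra hc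
    push Not at hc
    exact hb0 (funext hc)
  obtain ⟨b', hb'⟩ : ∃ b' : Fin 3 → ℂ, b' = (s.2 j)⁻¹ • s.2 := ⟨_, rfl⟩
  have hb'j : b' j = 1 := by
    rw [hb', Pi.smul_apply, smul_eq_mul, inv_mul_cancel₀ hj]
  have hb'0 : b' ≠ 0 := by
    intro h0
    rw [h0] at hb'j
    exact one_ne_zero hb'j.symm
  have hg' : gg C s.1 s.1 b' = 0 := by
    rw [hb', gg_smul_r, hg, mul_zero]
  have hh' : hh C s.1 b' b' = 0 := by
    rw [hb', hh_smul_m, hh_smul_r, hh0, mul_zero, mul_zero]
  obtain ⟨l, hl⟩ : ∃ l : Fin 3 → ℂ, l = fun i => hh C (Pi.single i 1) b' b' := ⟨_, rfl⟩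
  have hl0 : l ≠ 0 := by
    intro h0
    obtain ⟨a, ha⟩ := hh_ne C h hS hb'0
    apply ha
    have h1 : ∀ i, hh C (Pi.single i 1) b' b' = 0 := by
      intro i
      have := congrFun hl i
      rw [h0] at this
      exact this.symm
    rw [ftr_hh_sum, h1, h1, h1, mul_zero, mul_zero, mul_zero, add_zero, add_zero]
  obtain ⟨k1, k2, hkE, hka, hkM⟩ := ftr_kv l hl0
  obtain ⟨x, y, hxy⟩ := hka s.1 (by
    rw [hl]
    rw [← ftr_hh_sum]
    exact hh')
  have hlE : ∀ E : Subfield ℂ, K ≤ E → (∀ i, b' i ∈ E) → ∀ i, l i ∈ E := by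
    intro E hE hbE i
    rw [hl]
    exact hh_mem C hK hE (ftr_single _ _) hbE hbE
  have hd : ∀ i, (s.2 j)⁻¹ * s.2 i = b' i := by
    intro i
    rw [hb']
    rfl
  by_cases hdet : (am C b').det = 0
  · obtain ⟨w0, hw0⟩ := ftr_one C h.1 hS hK hb'j hdet
    have hk := hkE _ (hlE _ (le_acl K {w0}) hw0)
    have hmono : ∀ w1 : ℂ, acl K {w0} ≤ acl K {w0, w1} := fun w1 =>
      acl_mono K (by
        intro z hz
        exact Or.inl hz)
    by_cases hy : y = 0
    · have hx : x ≠ 0 := by
        rintro rfl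
        apply ha0
        rw [hxy, hy, zero_smul, zero_smul, add_zero]
      refine ⟨w0, 0, x⁻¹, (s.2 j)⁻¹, inv_ne_zero hx, inv_ne_zero hj, fun i => ⟨?_, ?_⟩⟩
      · rw [hxy, hy, zero_smul, add_zero, Pi.smul_apply, smul_eq_mul, inv_mul_cancel_left₀ hx]
        exact hmono 0 (hk.1 i)
      · rw [hd]
        exact hmono 0 (hw0 i)
    · refine ⟨w0, x / y, y⁻¹, (s.2 j)⁻¹, inv_ne_zero hy, inv_ne_zero hj, fun i => ⟨?_, ?_⟩⟩
      · have h1 : y⁻¹ * s.1 i = x / y * k1 i + k2 i := by
          rw [hxy, Pi.add_apply, Pi.smul_apply, Pi.smul_apply, smul_eq_mul, smul_eq_mul]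
          field_simp
        rw [h1]
        refine add_mem (mul_mem ?_ (hmono _ (hk.1 i))) (hmono _ (hk.2 i))
        exact subset_acl K _ (Or.inr rfl)
      · rw [hd]
        exact hmono _ (hw0 i)
  · obtain ⟨j1, j2, hji, -⟩ := ftr_idx j
    have hbE : ∀ i, b' i ∈ acl K {b' j1, b' j2} := by
      intro i
      rcases hji i with rfl | rfl | rfl
      · rw [hb'j]
        exact one_mem _
      · exact subset_acl K _ (Or.inl rfl)
      · exact subset_acl K _ (Or.inr rfl)
    have hk := hkE _ (hlE _ (le_acl K _) hbE)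
    have m11 := gg_mem C hK (le_acl K _) hk.1 hk.1 hbE
    have m12 := gg_mem C hK (le_acl K _) hk.1 hk.2 hbE
    have m22 := gg_mem C hK (le_acl K _) hk.2 hk.2 hbE
    have hne : gg C k1 k1 b' ≠ 0 ∨ 2 * gg C k1 k2 b' ≠ 0 ∨ gg C k2 k2 b' ≠ 0 := by
      by_contra hc
      push Not at hc
      apply hdet
      refine hkM _ (am_symm C b') ?_ ?_ ?_
      · rw [← ftr_gg_sum]
        exact hc.1
      · rw [← ftr_gg_sum]
        exact (mul_eq_zero.1 hc.2.1).resolve_left two_ne_zero
      · rw [← ftr_gg_sum]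
        exact hc.2.2
    have hq : gg C k1 k1 b' * x ^ 2 + 2 * gg C k1 k2 b' * (x * y) + gg C k2 k2 b' * y ^ 2 = 0 := by
      rw [hxy] at hg'
      simp only [gg_add_l, gg_add_m, gg_smul_l, gg_smul_m] at hg'
      rw [gg_symm C k2 k1 b'] at hg'
      linear_combination hg'
    by_cases hy : y = 0
    · have hx : x ≠ 0 := by
        rintro rfl
        apply ha0
        rw [hxy, hy, zero_smul, zero_smul, add_zero]
      refine ⟨b' j1, b' j2, x⁻¹, (s.2 j)⁻¹, inv_ne_zero hx, inv_ne_zero hj, fun i => ⟨?_, ?_⟩⟩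
      · rw [hxy, hy, zero_smul, add_zero, Pi.smul_apply, smul_eq_mul, inv_mul_cancel_left₀ hx]
        exact hk.1 i
      · rw [hd]
        exact hbE i
    · refine ⟨b' j1, b' j2, y⁻¹, (s.2 j)⁻¹, inv_ne_zero hy, inv_ne_zero hj, fun i => ⟨?_, ?_⟩⟩
      · have h1 : y⁻¹ * s.1 i = x / y * k1 i + k2 i := by
          rw [hxy, Pi.add_apply, Pi.smul_apply, Pi.smul_apply, smul_eq_mul, smul_eq_mul]
          field_simp
        have h2 : x / y ∈ acl K {b' j1, b' j2} := by
          refine acl_quad K _ m11 (mul_mem (ofNat_mem _ 2) m12) m22 hne ?_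
          field_simp
          linear_combination hq
        rw [h1]
        exact add_mem (mul_mem h2 (hk.1 i)) (hk.2 i)
      · rw [hd]
        exact hbE i

end Pool.Agent.P28
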