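import Pool.Agent.P28.NoFour

set_option autoImplicit false

/-!
# P28 A03: the cubic form on the span of two planes meeting in a line

`P₁, P₂` are planes of the smooth cubic, `dim (P₁ ∩ P₂) = 2`, `N = P₁ + P₂`, `dim N = 4`.

PROOF of `factor`. Choose a basis `a, b` of `P₁ ∩ P₂`, `g₁ ∈ P₁` and `g₂ ∈ P₂` such that `a, b, g₁`
is a basis of `P₁` and `a, b, g₂` one of `P₂`; `a, b, g₁, g₂` is a basis of `N`. Every `x ∈ N` is
`x = s + y₁ g₁ + y₂ g₂`, `s ∈ P₁ ∩ P₂`. All of `T s s s, T s s g₁, T s s g₂, T s g₁ g₁, T s g₂ g₂,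
T g₁ g₁ g₁, T g₂ g₂ g₂` are `0` (planes), hence
`T x x x = 3 y₁ y₂ (2 T s g₁ g₂ + y₁ T g₁ g₁ g₂ + y₂ T g₁ g₂ g₂)`. Let `l₁ = 3 y₂` (vanishes
exactly on `P₁`), `l₂ = y₁` (vanishes exactly on `P₂`), `l₃ =` the last factor, all extended from
`N` to `V` (`LinearMap.exists_extend`). If `l₃` were `0` on `N`, then `T x x x = 0` on `N`, against
`no_four`.

`factor_polar`: from `T x x x = l₁ x l₂ x l₃ x` on `N`, by polarisation (replace `x` by `x + t y`,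
or use `x + y` and `x - y`):
`3 T x x y = l₁ x l₂ x l₃ y + l₁ x l₂ y l₃ x + l₁ y l₂ x l₃ x` for `x, y ∈ N`.
`factor_polar3`: polarise once more (replace `x` by `x + z`):
`6 T x y z` = sum of `l₁ l₂ l₃` over the 6 orders.
-/

namespace Pool.Agent.P28

open Module

variable {V : Type} [AddCommGroup V] [Module ℂ V] [FiniteDimensional ℂ V]

theorem finrank_sup_of_adj {P₁ P₂ : Submodule ℂ V} (h₁ : finrank ℂ P₁ = 3)
    (h₂ : finrank ℂ P₂ = 3) (h : Adj P₁ P₂) : finrank ℂ (P₁ ⊔ P₂ : Submodule ℂ V) = 4 := by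
  have h3 := Submodule.finrank_sup_add_finrank_inf_eq P₁ P₂
  rw [h₁, h₂, h.2] at h3
  omega

/-- in a plane, every vector is in the span of a hyperplane and a vector outside -/
private theorem split_plane {P L : Submodule ℂ V} (hP : finrank ℂ P = 3) (hL : finrank ℂ L = 2)
    (hLP : L ≤ P) {g : V} (hgP : g ∈ P) (hgL : g ∉ L) {x : V} (hx : x ∈ P) :
    ∃ c : ℂ, ∃ s ∈ L, x = s + c • g := by
  have h1 : L ⊔ Submodule.span ℂ {g} = P := by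
    refine Submodule.eq_of_le_of_finrank_le (sup_le hLP ?_) ?_
    · rw [Submodule.span_singleton_le_iff_mem]
      exact hgP
    · rw [hP]
      have h2 : L < L ⊔ Submodule.span ℂ {g} := by
        refine lt_of_le_of_ne le_sup_left fun h => hgL ?_
        rw [h]
        exact Submodule.mem_sup_right (Submodule.mem_span_singleton_self g)
      have h3 := Submodule.finrank_lt_finrank_of_lt h2
      omega
  rw [← h1] at hx
  obtain ⟨s, hs, y, hy, rfl⟩ := Submodule.mem_sup.1 hx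
  obtain ⟨c, rfl⟩ := Submodule.mem_span_singleton.1 hy
  exact ⟨c, s, hs, rfl⟩

/-- a functional with prescribed zeros and value `1` at a vector -/
private theorem exists_fun {P : Submodule ℂ V} {g : V} (hg : g ∉ P) :
    ∃ f : V →ₗ[ℂ] ℂ, f g = 1 ∧ ∀ x ∈ P, f x = 0 := by
  obtain ⟨f, hf, hP⟩ := Submodule.exists_le_ker_of_notMem hg
  refine ⟨(f g)⁻¹ • f, ?_, fun x hx => ?_⟩
  · rw [LinearMap.smul_apply, smul_eq_mul, inv_mul_cancel₀ hf]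
  · rw [LinearMap.smul_apply, LinearMap.mem_ker.1 (hP hx), smul_zero]

theorem factor (C : Cub V) (hs : C.Smooth) (hV : finrank ℂ V = 6) {P₁ P₂ : Submodule ℂ V}
    (h₁ : C.IsPlane P₁) (h₂ : C.IsPlane P₂) (h : Adj P₁ P₂) :
    ∃ l₁ l₂ l₃ : V →ₗ[ℂ] ℂ, (∀ x ∈ P₁ ⊔ P₂, C.T x x x = l₁ x * l₂ x * l₃ x) ∧
      (∀ x ∈ P₁ ⊔ P₂, l₁ x = 0 ↔ x ∈ P₁) ∧ (∀ x ∈ P₁ ⊔ P₂, l₂ x = 0 ↔ x ∈ P₂) ∧
      ∃ x ∈ P₁ ⊔ P₂, l₃ x ≠ 0 := by
  have hn1 : ¬ P₁ ≤ P₂ := by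
    intro hle
    have h3 := h.2
    rw [inf_eq_left.2 hle, h₁.1] at h3
    omega
  have hn2 : ¬ P₂ ≤ P₁ := by
    intro hle
    have h3 := h.2
    rw [inf_eq_right.2 hle, h₂.1] at h3
    omega
  obtain ⟨g₁, hg₁, hg₁'⟩ := Set.not_subset.1 hn1
  obtain ⟨g₂, hg₂, hg₂'⟩ := Set.not_subset.1 hn2
  obtain ⟨f₁, hf₁, hf₁'⟩ := exists_fun hg₂'
  obtain ⟨f₂, hf₂, hf₂'⟩ := exists_fun hg₁'
  have hdec : ∀ x ∈ P₁ ⊔ P₂, ∃ s, s ∈ P₁ ∧ s ∈ P₂ ∧ x = s + f₂ x • g₁ + f₁ x • g₂ := by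
    intro x hx
    obtain ⟨p, hp, q, hq, rfl⟩ := Submodule.mem_sup.1 hx
    obtain ⟨c, s, hs1, rfl⟩ := split_plane h₁.1 h.2 inf_le_left hg₁ (fun h' => hg₁' h'.2) hp
    obtain ⟨d, t, ht1, rfl⟩ := split_plane h₂.1 h.2 inf_le_right hg₂ (fun h' => hg₂' h'.1) hq
    refine ⟨s + t, P₁.add_mem hs1.1 ht1.1, P₂.add_mem hs1.2 ht1.2, ?_⟩
    have e1 : f₁ (s + c • g₁ + (t + d • g₂)) = d := by
      rw [map_add, map_add, map_add, map_smul, map_smul, hf₁' s hs1.1, hf₁' t ht1.1,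
        hf₁' g₁ hg₁, hf₁]
      simp
    have e2 : f₂ (s + c • g₁ + (t + d • g₂)) = c := by
      rw [map_add, map_add, map_add, map_smul, map_smul, hf₂' s hs1.2, hf₂' t ht1.2,
        hf₂' g₂ hg₂, hf₂]
      simp
    rw [e1, e2]
    abel
  have key : ∀ x ∈ P₁ ⊔ P₂, C.T x x x = ((3 : ℂ) • f₁) x * f₂ x *
      ((2 : ℂ) • C.T g₁ g₂ - (C.T g₁ g₁ g₂) • f₂ - (C.T g₁ g₂ g₂) • f₁) x := by
    intro x hx
    obtain ⟨s, hs1, hs2, hx'⟩ := hdec x hx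
    simp only [LinearMap.smul_apply, LinearMap.sub_apply, smul_eq_mul]
    generalize f₁ x = d at hx' ⊢
    generalize f₂ x = c at hx' ⊢
    subst hx'
    have P1 := h₁.2
    have P2 := h₂.2
    have a1 := P1 s hs1 s hs1 s hs1
    have a2 := P1 s hs1 s hs1 g₁ hg₁
    have a3 := P1 s hs1 g₁ hg₁ s hs1
    have a4 := P1 g₁ hg₁ s hs1 s hs1
    have a5 := P1 s hs1 g₁ hg₁ g₁ hg₁
    have a6 := P1 g₁ hg₁ s hs1 g₁ hg₁
    have a7 := P1 g₁ hg₁ g₁ hg₁ s hs1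
    have a8 := P1 g₁ hg₁ g₁ hg₁ g₁ hg₁
    have b2 := P2 s hs2 s hs2 g₂ hg₂
    have b3 := P2 s hs2 g₂ hg₂ s hs2
    have b4 := P2 g₂ hg₂ s hs2 s hs2
    have b5 := P2 s hs2 g₂ hg₂ g₂ hg₂
    have b6 := P2 g₂ hg₂ s hs2 g₂ hg₂
    have b7 := P2 g₂ hg₂ g₂ hg₂ s hs2
    have b8 := P2 g₂ hg₂ g₂ hg₂ g₂ hg₂
    have c1 : C.T s g₁ g₂ = C.T g₁ g₂ s := C.rot s g₁ g₂
    have c2 : C.T s g₂ g₁ = C.T g₁ g₂ s := by rw [C.cy s g₂ g₁, c1]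
    have c3 : C.T g₁ s g₂ = C.T g₁ g₂ s := C.cy g₁ s g₂
    have c4 : C.T g₂ s g₁ = C.T g₁ g₂ s := by rw [C.rot g₂ s g₁, c1]
    have c5 : C.T g₂ g₁ s = C.T g₁ g₂ s := C.sw g₂ g₁ s
    have d1 : C.T g₁ g₂ g₁ = C.T g₁ g₁ g₂ := C.cy g₁ g₂ g₁
    have d2 : C.T g₂ g₁ g₁ = C.T g₁ g₁ g₂ := by rw [C.sw g₂ g₁ g₁, d1]
    have d3 : C.T g₂ g₁ g₂ = C.T g₁ g₂ g₂ := C.sw g₂ g₁ g₂
    have d4 : C.T g₂ g₂ g₁ = C.T g₁ g₂ g₂ := by rw [C.cy g₂ g₂ g₁, d3]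
    simp only [map_add, map_smul, LinearMap.add_apply, LinearMap.smul_apply, smul_eq_mul,
      a1, a2, a3, a4, a5, a6, a7, a8, b2, b3, b4, b5, b6, b7, b8, c1, c2, c3, c4, c5, d1, d2,
      d3, d4]
    ring
  refine ⟨(3 : ℂ) • f₁, f₂, (2 : ℂ) • C.T g₁ g₂ - (C.T g₁ g₁ g₂) • f₂ - (C.T g₁ g₂ g₂) • f₁,
    key, fun x hx => ⟨fun h0 => ?_, fun h0 => ?_⟩, fun x hx => ⟨fun h0 => ?_, fun h0 => ?_⟩, ?_⟩
  · rw [LinearMap.smul_apply, smul_eq_mul] at h0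
    have h1 : f₁ x = 0 := by
      rcases mul_eq_zero.1 h0 with h' | h'
      · norm_num at h'
      · exact h'
    obtain ⟨s, hs1, hs2, hx'⟩ := hdec x hx
    rw [hx', h1, zero_smul, add_zero]
    exact P₁.add_mem hs1 (P₁.smul_mem _ hg₁)
  · rw [LinearMap.smul_apply, hf₁' x h0, smul_zero]
  · obtain ⟨s, hs1, hs2, hx'⟩ := hdec x hx
    rw [hx', h0, zero_smul, add_zero]
    exact P₂.add_mem hs2 (P₂.smul_mem _ hg₂)
  · exact hf₂' x h0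
  · by_contra hcon
    push Not at hcon
    refine no_four C hs hV (P₁ ⊔ P₂) (finrank_sup_of_adj h₁.1 h₂.1 h).ge fun x hx => ?_
    rw [key x hx, hcon x hx, mul_zero]

theorem factor_polar (C : Cub V) {N : Submodule ℂ V} {l₁ l₂ l₃ : V →ₗ[ℂ] ℂ}
    (h : ∀ x ∈ N, C.T x x x = l₁ x * l₂ x * l₃ x) :
    ∀ x ∈ N, ∀ y ∈ N, 3 * C.T x x y =
      l₁ x * l₂ x * l₃ y + l₁ x * l₂ y * l₃ x + l₁ y * l₂ x * l₃ x := by
  intro x hx y hy
  have h1 := h (x + y) (N.add_mem hx hy)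
  have h2 := h (x - y) (N.sub_mem hx hy)
  have h3 := h x hx
  have h4 := h y hy
  simp only [map_add, map_sub, LinearMap.add_apply, LinearMap.sub_apply] at h1 h2
  have e1 : C.T y x x = C.T x x y := by rw [C.sw y x x, C.cy x y x]
  have e2 : C.T x y x = C.T x x y := C.cy x y x
  have e3 : C.T y x y = C.T y y x := C.cy y x y
  have e4 : C.T x y y = C.T y y x := by rw [C.sw x y y, C.cy y x y]
  rw [e1, e2, e3, e4] at h1 h2
  linear_combination (1 / 2 : ℂ) * h1 - (1 / 2 : ℂ) * h2 - h4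

theorem factor_polar3 (C : Cub V) {N : Submodule ℂ V} {l₁ l₂ l₃ : V →ₗ[ℂ] ℂ}
    (h : ∀ x ∈ N, C.T x x x = l₁ x * l₂ x * l₃ x) :
    ∀ x ∈ N, ∀ y ∈ N, ∀ z ∈ N, 6 * C.T x y z =
      l₁ x * l₂ y * l₃ z + l₁ x * l₂ z * l₃ y + l₁ y * l₂ x * l₃ z + l₁ y * l₂ z * l₃ x +
      l₁ z * l₂ x * l₃ y + l₁ z * l₂ y * l₃ x := by
  intro x hx y hy z hz
  have h1 := factor_polar C h (x + y) (N.add_mem hx hy) z hz
  have h2 := factor_polar C h x hx z hz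
  have h3 := factor_polar C h y hy z hz
  simp only [map_add, LinearMap.add_apply] at h1
  rw [C.sw y x z] at h1
  linear_combination h1 - h2 - h3

end Pool.Agent.P28
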