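import Pool.Agent.P28.RDefs

set_option autoImplicit false

/-!
# P28 E01: the trilinear form of a cubic polynomial

PROOFS. `of_poly`: let `m i j k = eval 0 (pderiv i (pderiv j (pderiv k F)))`, symmetric in
`i, j, k` (partial derivatives commute), and `T x y z = (1/6) ∑ i j k, m i j k * (x i * y j * z k)`
(build the trilinear map with `LinearMap.mk₂` or as a sum of products of projections). As `F` is
homogeneous of degree 3, `pderiv i (pderiv j (pderiv k F))` is homogeneous of degree 0, so it is a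
constant and has the value `m i j k` at every point. Euler's identity
(`MvPolynomial.IsHomogeneous.sum_X_mul_pderiv`): `∑ x i ∂i F = 3 F`, `∑ x j ∂j ∂i F = 2 ∂i F`,
`∑ x k ∂k ∂j ∂i F = ∂j ∂i F`. So `T v v (e_i) = (1/6) ∑ j k v j v k m j k i = (1/6) * 2 * ∂i F(v)`
and `T v v v = (1/3) ∑ v i ∂i F (v) = F(v)`.
`smooth_of`: at `v ≠ 0`: if `F(v) ≠ 0` take `z = v`, otherwise `z = Pi.single i 1`.
`plane_of`: `Cub.polar`.
-/

namespace Pool.Agent.P28

open Module MvPolynomial

private theorem pd_comm (F : MvPolynomial (Fin 6) ℂ) (i j : Fin 6) :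
    pderiv i (pderiv j F) = pderiv j (pderiv i F) := by
  have h : ⁅(pderiv i : Derivation ℂ (MvPolynomial (Fin 6) ℂ) _),
      (pderiv j : Derivation ℂ (MvPolynomial (Fin 6) ℂ) _)⁆ = 0 := by
    refine MvPolynomial.derivation_ext fun k => ?_
    rw [Derivation.commutator_apply, Derivation.zero_apply, pderiv_X, pderiv_X]
    have key : ∀ a b : Fin 6,
        pderiv a ((Pi.single b 1 : Fin 6 → MvPolynomial (Fin 6) ℂ) k) = 0 := by
      intro a b
      by_cases hb : k = b
      · subst hb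
        rw [Pi.single_eq_same]
        exact pderiv_one
      · rw [Pi.single_eq_of_ne hb, map_zero]
    rw [key, key, sub_zero]
  have h1 := congrArg (fun D : Derivation ℂ (MvPolynomial (Fin 6) ℂ) _ => D F) h
  simp only [Derivation.commutator_apply, Derivation.zero_apply] at h1
  exact sub_eq_zero.1 h1

private theorem euler {F : MvPolynomial (Fin 6) ℂ} {n : ℕ} (hF : F.IsHomogeneous n)
    (v : Fin 6 → ℂ) : ∑ i, v i * eval v (pderiv i F) = n * eval v F := by
  have h := congrArg (eval v) hF.sum_X_mul_pderiv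
  simpa [map_sum, map_mul, eval_X, nsmul_eq_mul] using h

private theorem deg_zero {F : MvPolynomial (Fin 6) ℂ} (hF : F.IsHomogeneous 0)
    (v : Fin 6 → ℂ) : eval v F = eval 0 F := by
  rw [← totalDegree_zero_iff_isHomogeneous, totalDegree_eq_zero_iff_eq_C] at hF
  rw [hF, eval_C, eval_C]

/-- The third derivatives. -/
private noncomputable def m3 (F : MvPolynomial (Fin 6) ℂ) (i j k : Fin 6) : ℂ :=
  eval 0 (pderiv i (pderiv j (pderiv k F)))

private theorem m3_sw (F : MvPolynomial (Fin 6) ℂ) (i j k : Fin 6) :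
    m3 F i j k = m3 F j i k := by
  unfold m3
  rw [pd_comm]

private theorem m3_cy (F : MvPolynomial (Fin 6) ℂ) (i j k : Fin 6) :
    m3 F i j k = m3 F i k j := by
  unfold m3
  rw [pd_comm F j k]

/-- The trilinear form. -/
private noncomputable def T3 (F : MvPolynomial (Fin 6) ℂ) :
    (Fin 6 → ℂ) →ₗ[ℂ] (Fin 6 → ℂ) →ₗ[ℂ] (Fin 6 → ℂ) →ₗ[ℂ] ℂ :=
  ∑ i, ∑ j, ∑ k, (LinearMap.proj i : (Fin 6 → ℂ) →ₗ[ℂ] ℂ).smulRight
    ((LinearMap.proj j : (Fin 6 → ℂ) →ₗ[ℂ] ℂ).smulRight
      ((m3 F i j k / 6) • (LinearMap.proj k : (Fin 6 → ℂ) →ₗ[ℂ] ℂ)))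

private theorem T3_apply (F : MvPolynomial (Fin 6) ℂ) (x y z : Fin 6 → ℂ) :
    T3 F x y z = ∑ i, ∑ j, ∑ k, m3 F i j k / 6 * (x i * y j * z k) := by
  unfold T3
  simp only [LinearMap.sum_apply, LinearMap.smulRight_apply, LinearMap.smul_apply,
    LinearMap.proj_apply, smul_eq_mul]
  refine Finset.sum_congr rfl fun i _ => Finset.sum_congr rfl fun j _ =>
    Finset.sum_congr rfl fun k _ => ?_
  ring

theorem of_poly (F : MvPolynomial (Fin 6) ℂ) (hF : F.IsHomogeneous 3) :
    ∃ C : Cub (Fin 6 → ℂ), (∀ v, C.T v v v = eval v F) ∧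
      ∀ v i, 3 * C.T v v (Pi.single i 1) = eval v (pderiv i F) := by
  have hd1 : ∀ i, (pderiv i F).IsHomogeneous 2 := fun i => hF.pderiv
  have hd2 : ∀ i j, (pderiv i (pderiv j F)).IsHomogeneous 1 := fun i j => (hd1 j).pderiv
  have hd3 : ∀ i j k, (pderiv i (pderiv j (pderiv k F))).IsHomogeneous 0 :=
    fun i j k => (hd2 j k).pderiv
  have e3 : ∀ v j k, ∑ i, v i * m3 F i j k = eval v (pderiv j (pderiv k F)) := by
    intro v j k
    have h := euler (hd2 j k) v
    rw [Nat.cast_one, one_mul] at h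
    rw [← h]
    refine Finset.sum_congr rfl fun i _ => ?_
    rw [deg_zero (hd3 i j k) v]
    rfl
  have e2 : ∀ v k, ∑ j, v j * eval v (pderiv j (pderiv k F)) = 2 * eval v (pderiv k F) := by
    intro v k
    have h := euler (hd1 k) v
    rw [Nat.cast_ofNat] at h
    exact h
  have key : ∀ v i, 3 * T3 F v v (Pi.single i 1) = eval v (pderiv i F) := by
    intro v i
    have h1 : T3 F v v (Pi.single i 1) = ∑ a, ∑ b, m3 F a b i / 6 * (v a * v b) := by
      rw [T3_apply]
      refine Finset.sum_congr rfl fun a _ => Finset.sum_congr rfl fun b _ => ?_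
      rw [Finset.sum_eq_single i]
      · rw [Pi.single_eq_same, mul_one]
      · intro c _ hc
        rw [Pi.single_eq_of_ne hc, mul_zero, mul_zero]
      · intro hi
        exact absurd (Finset.mem_univ i) hi
    have h2 : ∑ a, ∑ b, m3 F a b i / 6 * (v a * v b) =
        1 / 6 * ∑ b, v b * ∑ a, v a * m3 F a b i := by
      rw [Finset.sum_comm, Finset.mul_sum]
      refine Finset.sum_congr rfl fun b _ => ?_
      rw [Finset.mul_sum, Finset.mul_sum]
      refine Finset.sum_congr rfl fun a _ => ?_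
      ring
    rw [h1, h2]
    simp only [e3]
    rw [e2]
    ring
  have hT : ∀ v, T3 F v v v = eval v F := by
    intro v
    have h1 : v = ∑ i, v i • (Pi.single i 1 : Fin 6 → ℂ) := by
      rw [← pi_eq_sum_univ' v]
    have h2 : T3 F v v v = ∑ i, v i * T3 F v v (Pi.single i 1) := by
      conv_lhs => rw [h1]
      conv_lhs => rw [← h1]
      have h3 : T3 F v v v = T3 F v v (∑ i, v i • (Pi.single i 1 : Fin 6 → ℂ)) := by
        rw [← h1]
      rw [h3, map_sum]
      refine Finset.sum_congr rfl fun i _ => ?_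
      rw [map_smul, smul_eq_mul]
    have h4 := euler hF v
    rw [Nat.cast_ofNat] at h4
    have h5 : ∑ i, v i * eval v (pderiv i F) = 3 * ∑ i, v i * T3 F v v (Pi.single i 1) := by
      rw [Finset.mul_sum]
      refine Finset.sum_congr rfl fun i _ => ?_
      rw [← key v i]
      ring
    rw [h5, ← h2] at h4
    exact mul_left_cancel₀ (by norm_num) h4
  refine ⟨⟨T3 F, fun x y z => ?_, fun x y z => ?_⟩, hT, key⟩
  · rw [T3_apply, T3_apply, Finset.sum_comm]
    refine Finset.sum_congr rfl fun i _ => Finset.sum_congr rfl fun j _ =>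
      Finset.sum_congr rfl fun k _ => ?_
    rw [m3_sw]
    ring
  · rw [T3_apply, T3_apply]
    refine Finset.sum_congr rfl fun i _ => ?_
    rw [Finset.sum_comm]
    refine Finset.sum_congr rfl fun j _ => Finset.sum_congr rfl fun k _ => ?_
    rw [m3_cy]
    ring

theorem smooth_of {F : MvPolynomial (Fin 6) ℂ} {C : Cub (Fin 6 → ℂ)}
    (h1 : ∀ v, C.T v v v = eval v F)
    (h2 : ∀ v i, 3 * C.T v v (Pi.single i 1) = eval v (pderiv i F)) (hs : PSmooth F) :
    C.Smooth := by
  intro v hv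
  by_cases h : eval v F = 0
  · obtain ⟨i, hi⟩ := hs v hv h
    refine ⟨Pi.single i 1, fun h0 => hi ?_⟩
    rw [← h2, h0, mul_zero]
  · exact ⟨v, by rw [h1]; exact h⟩

theorem plane_of {F : MvPolynomial (Fin 6) ℂ} {C : Cub (Fin 6 → ℂ)}
    (h1 : ∀ v, C.T v v v = eval v F) {P : Submodule ℂ (Fin 6 → ℂ)} (hP : PPlane F P) :
    C.IsPlane P :=
  ⟨hP.1, C.polar fun x hx => by rw [h1]; exact hP.2 x hx⟩

end Pool.Agent.P28
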