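import Pool.Agent.P28.BDefs

set_option autoImplicit false

/-!
# P28 E02: coordinates for two disjoint planes

PROOF. `P ⊓ P' = ⊥` and the dimensions give `IsCompl P P'`; linear equivalences
`(Fin 3 → ℂ) ≃ P`, `(Fin 3 → ℂ) ≃ P'` (`finrank = 3`) and `Submodule.prodEquivOfIsCompl`.
-/

namespace Pool.Agent.P28

open Module

theorem exists_equiv {V : Type} [AddCommGroup V] [Module ℂ V] [FiniteDimensional ℂ V]
    (hV : finrank ℂ V = 6) {P P' : Submodule ℂ V} (hP : finrank ℂ P = 3) (hP' : finrank ℂ P' = 3)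
    (h : P ⊓ P' = ⊥) : ∃ e : VV ≃ₗ[ℂ] V, (∀ x, e (x, 0) ∈ P) ∧ ∀ y, e (0, y) ∈ P' := by
  have hc : IsCompl P P' := by
    refine ⟨disjoint_iff.2 h, codisjoint_iff.2 (Submodule.eq_top_of_finrank_eq ?_)⟩
    have h1 := Submodule.finrank_sup_add_finrank_inf_eq P P'
    rw [h, finrank_bot, hP, hP'] at h1
    omega
  have e1 : (Fin 3 → ℂ) ≃ₗ[ℂ] P := LinearEquiv.ofFinrankEq _ _ (by rw [hP]; simp)
  have e2 : (Fin 3 → ℂ) ≃ₗ[ℂ] P' := LinearEquiv.ofFinrankEq _ _ (by rw [hP']; simp)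
  refine ⟨(e1.prodCongr e2).trans (Submodule.prodEquivOfIsCompl P P' hc), fun x => ?_,
    fun y => ?_⟩
  · rw [LinearEquiv.trans_apply, LinearEquiv.prodCongr_apply, Submodule.coe_prodEquivOfIsCompl']
    simp
  · rw [LinearEquiv.trans_apply, LinearEquiv.prodCongr_apply, Submodule.coe_prodEquivOfIsCompl']
    simp

end Pool.Agent.P28
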