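import Pool.Agent.P28.RDefs
import Pool.Agent.P28.BDefs

set_option autoImplicit false

/-!
# P28 E03: a cubic fourfold with two disjoint planes is rational

PROOF. Coordinates `y = e.symm v`, `v = e y`, `y.1, y.2 ∈ ℂ^3`; write `T` for `C6.T` and
`A = e (y.1, 0)`, `B = e (0, y.2)`: `T(A,A,A) = 0 = T(B,B,B)` (hypotheses `h1`, `h2`), so
`F(A + B) = 3 (T(A,A,B) + T(A,B,B))`.
Forward map: for `t ∈ ℂ^5` let `a(t) = e ((t0,t1,t2), 0)`, `b(t) = e (0, (t0,t3,t4))` (vectors of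
linear forms in `t`), `lam = T(a,b,b)`, `mu = -T(a,a,b)` (polynomials `tp C6 a b b`,
`- tp C6 a a b`, homogeneous of degree 3) and `phi = lam a + mu b`, homogeneous of degree 4.
`F(phi) = 3 lam^2 mu T(a,a,b) + 3 lam mu^2 T(a,b,b) = 3 lam mu (lam T(a,a,b) + mu T(a,b,b)) = 0`.
Backward map: with `y_i` = the six coordinate functions `v ↦ (e.symm v).1 i`, `(e.symm v).2 i`,
written `y0, y1, y2` and `y3, y4, y5` (linear forms in `v`):
`psi = (y0 y3, y1 y3, y2 y3, y0 y4, y0 y5)`, homogeneous of degree 2.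
Then `a(psi(v)) = y3 A`, `b(psi(v)) = y0 B` and
`phi(psi(v)) = y0^2 y3^2 (T(A,B,B) A - T(A,A,B) B)`, and with `h = y0^2 y3^2 T(A,B,B)`:
`phi(psi(v)) - h v = - y0^2 y3^2 (T(A,B,B) + T(A,A,B)) B = - y0^2 y3^2 (F(v) / 3) B`: divisible by
`F`. Moreover `psi(phi(t)) = lam mu t0 * t` (the coordinates of `phi(t)` are `lam (t0,t1,t2)`,
`mu (t0,t3,t4)`), so `g = lam mu t0`.
All identities between polynomials follow from `MvPolynomial.funext` (compare values; `eval_tp`,
`eval_bind₁`).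
`g ≠ 0`: it is enough that `lam ≠ 0` and `mu ≠ 0`. Smoothness at `v = e (0, (1,0,0))`:
`T(v,v,z) ≠ 0` for some `z`, `T(v,v,·)` vanishes on the second plane (`h2`), so there is a basis
vector with `T(v, v, e (Pi.single i 1, 0)) ≠ 0`; then there are `t1, t2` with
`T(e((1,t1,t2),0), v, v) ≠ 0` (an affine linear function of `t1, t2` which is not zero), so
`lam(1,t1,t2,0,0) ≠ 0`. The same for `mu` with `v = e ((1,0,0), 0)` and `h1`.
`¬ F ∣ h`: choose `t` with `g(t) ≠ 0` (`g ≠ 0`, `MvPolynomial.funext`); then `F(phi(t)) = 0`, and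
`h(phi(t)) = (lam t0)^2 (mu t0)^2 lam mu^2 lam ≠ 0`.
-/

namespace Pool.Agent.P28

open Module MvPolynomial

/-- Linear forms composed with a linear map. -/
private noncomputable def lf {ι κ σ : Type} [Fintype ι] [DecidableEq ι]
    (L : (ι → ℂ) →ₗ[ℂ] (κ → ℂ)) (p : ι → MvPolynomial σ ℂ) (k : κ) : MvPolynomial σ ℂ :=
  ∑ i, MvPolynomial.C (L (Pi.single i 1) k) * p i

private theorem eval_lf {ι κ σ : Type} [Fintype ι] [DecidableEq ι]
    (L : (ι → ℂ) →ₗ[ℂ] (κ → ℂ)) (p : ι → MvPolynomial σ ℂ) (k : κ) (t : σ → ℂ) :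
    eval t (lf L p k) = L (fun i => eval t (p i)) k := by
  have h : (fun i => eval t (p i)) = ∑ i, (eval t (p i)) • (Pi.single i 1 : ι → ℂ) := by
    rw [← pi_eq_sum_univ' (fun i => eval t (p i))]
  rw [h, map_sum, Finset.sum_apply, lf, map_sum]
  refine Finset.sum_congr rfl fun i _ => ?_
  rw [map_smul, Pi.smul_apply, smul_eq_mul, map_mul, eval_C, mul_comm]

private theorem hom_lf {ι κ σ : Type} [Fintype ι] [DecidableEq ι]
    (L : (ι → ℂ) →ₗ[ℂ] (κ → ℂ)) (p : ι → MvPolynomial σ ℂ) (k : κ) {n : ℕ}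
    (hp : ∀ i, (p i).IsHomogeneous n) : (lf L p k).IsHomogeneous n := by
  rw [lf]
  exact IsHomogeneous.sum _ _ _ fun i _ => (hp i).C_mul _

private theorem hom_tp (C : Cub (Fin 6 → ℂ)) {σ : Type} (x y z : Fin 6 → MvPolynomial σ ℂ)
    (hx : ∀ i, (x i).IsHomogeneous 1) (hy : ∀ i, (y i).IsHomogeneous 1)
    (hz : ∀ i, (z i).IsHomogeneous 1) : (tp C x y z).IsHomogeneous 3 := by
  rw [tp]
  refine IsHomogeneous.sum _ _ _ fun i _ => IsHomogeneous.sum _ _ _ fun j _ =>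
    IsHomogeneous.sum _ _ _ fun k _ => ?_
  exact (((hx i).mul (hy j)).mul (hz k)).C_mul _

private theorem eval_bd {σ τ : Type} (f : σ → MvPolynomial τ ℂ) (p : MvPolynomial σ ℂ)
    (t : τ → ℂ) : eval t (bind₁ f p) = eval (fun i => eval t (f i)) p := by
  exact MvPolynomial.eval₂Hom_bind₁ (RingHom.id ℂ) t f p

private theorem T_zero_of (C6 : Cub (Fin 6 → ℂ)) (v : Fin 6 → ℂ)
    (L : (Fin 3 → ℂ) →ₗ[ℂ] (Fin 6 → ℂ))
    (h : ∀ t1 t2 : ℂ, C6.T v v (L ![1, t1, t2]) = 0) (z : Fin 3 → ℂ) : C6.T v v (L z) = 0 := by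
  have h0 := h 0 0
  have h1 := h 1 0
  have h2 := h 0 1
  have e : ∀ a b c : ℂ, (![a, b, c] : Fin 3 → ℂ) = a • (Pi.single 0 1 : Fin 3 → ℂ) +
      b • (Pi.single 1 1 : Fin 3 → ℂ) + c • (Pi.single 2 1 : Fin 3 → ℂ) := by
    intro a b c
    ext i
    fin_cases i <;> simp
  rw [e] at h0 h1 h2
  have hz : z = ![z 0, z 1, z 2] := by
    ext i
    fin_cases i <;> rfl
  rw [hz, e]
  simp only [map_add, map_smul, smul_eq_mul] at h0 h1 h2 ⊢
  linear_combination (z 0 - z 1 - z 2) * h0 + z 1 * h1 + z 2 * h2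
theorem rational_of (F : MvPolynomial (Fin 6) ℂ) (C6 : Cub (Fin 6 → ℂ))
    (hC : ∀ v, C6.T v v v = eval v F) (hS : C6.Smooth) (e : VV ≃ₗ[ℂ] (Fin 6 → ℂ))
    (h1 : ∀ x y z : Fin 3 → ℂ, C6.T (e (x, 0)) (e (y, 0)) (e (z, 0)) = 0)
    (h2 : ∀ x y z : Fin 3 → ℂ, C6.T (e (0, x)) (e (0, y)) (e (0, z)) = 0) :
    Rational F := by
  classical
  -- the two linear maps
  set L1 : (Fin 3 → ℂ) →ₗ[ℂ] (Fin 6 → ℂ) :=
    e.toLinearMap.comp (LinearMap.inl ℂ (Fin 3 → ℂ) (Fin 3 → ℂ)) with hL1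
  set L2 : (Fin 3 → ℂ) →ₗ[ℂ] (Fin 6 → ℂ) :=
    e.toLinearMap.comp (LinearMap.inr ℂ (Fin 3 → ℂ) (Fin 3 → ℂ)) with hL2
  set M1 : (Fin 6 → ℂ) →ₗ[ℂ] (Fin 3 → ℂ) :=
    (LinearMap.fst ℂ (Fin 3 → ℂ) (Fin 3 → ℂ)).comp e.symm.toLinearMap with hM1
  set M2 : (Fin 6 → ℂ) →ₗ[ℂ] (Fin 3 → ℂ) :=
    (LinearMap.snd ℂ (Fin 3 → ℂ) (Fin 3 → ℂ)).comp e.symm.toLinearMap with hM2
  have L1a : ∀ x, L1 x = e (x, 0) := fun x => rfl
  have L2a : ∀ x, L2 x = e (0, x) := fun x => rfl
  have M1a : ∀ x, M1 x = (e.symm x).1 := fun x => rfl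
  have M2a : ∀ x, M2 x = (e.symm x).2 := fun x => rfl
  have M11 : ∀ x, M1 (L1 x) = x := fun x => by rw [L1a, M1a, e.symm_apply_apply]
  have M12 : ∀ x, M1 (L2 x) = 0 := fun x => by rw [L2a, M1a, e.symm_apply_apply]
  have M21 : ∀ x, M2 (L1 x) = 0 := fun x => by rw [L1a, M2a, e.symm_apply_apply]
  have M22 : ∀ x, M2 (L2 x) = x := fun x => by rw [L2a, M2a, e.symm_apply_apply]
  have Msum : ∀ v, L1 (M1 v) + L2 (M2 v) = v := by
    intro v
    rw [L1a, L2a, ← map_add, M1a, M2a]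
    simp
  have T1 : ∀ x y z, C6.T (L1 x) (L1 y) (L1 z) = 0 := h1
  have T2 : ∀ x y z, C6.T (L2 x) (L2 y) (L2 z) = 0 := h2
  clear_value L1 L2 M1 M2
  -- the polynomials
  let p1 : Fin 3 → MvPolynomial (Fin 5) ℂ := ![X 0, X 1, X 2]
  let p2 : Fin 3 → MvPolynomial (Fin 5) ℂ := ![X 0, X 3, X 4]
  let a : Fin 6 → MvPolynomial (Fin 5) ℂ := lf L1 p1
  let b : Fin 6 → MvPolynomial (Fin 5) ℂ := lf L2 p2
  have hp1 : ∀ t : Fin 5 → ℂ, (fun i => eval t (p1 i)) = ![t 0, t 1, t 2] := by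
    intro t
    ext i
    fin_cases i <;> simp [p1]
  have hp2 : ∀ t : Fin 5 → ℂ, (fun i => eval t (p2 i)) = ![t 0, t 3, t 4] := by
    intro t
    ext i
    fin_cases i <;> simp [p2]
  have ha : ∀ t : Fin 5 → ℂ, (fun i => eval t (a i)) = L1 ![t 0, t 1, t 2] := by
    intro t
    ext i
    rw [← hp1 t]
    exact eval_lf L1 p1 i t
  have hb : ∀ t : Fin 5 → ℂ, (fun i => eval t (b i)) = L2 ![t 0, t 3, t 4] := by
    intro t
    ext i
    rw [← hp2 t]
    exact eval_lf L2 p2 i t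
  let lam : MvPolynomial (Fin 5) ℂ := tp C6 a b b
  let mu : MvPolynomial (Fin 5) ℂ := - tp C6 a a b
  have hlam : ∀ t : Fin 5 → ℂ, eval t lam =
      C6.T (L1 ![t 0, t 1, t 2]) (L2 ![t 0, t 3, t 4]) (L2 ![t 0, t 3, t 4]) := by
    intro t
    rw [← ha t, ← hb t]
    exact eval_tp C6 a b b t
  have hmu : ∀ t : Fin 5 → ℂ, eval t mu =
      - C6.T (L1 ![t 0, t 1, t 2]) (L1 ![t 0, t 1, t 2]) (L2 ![t 0, t 3, t 4]) := by
    intro t
    rw [← ha t, ← hb t, map_neg, eval_tp]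
  let phi : Fin 6 → MvPolynomial (Fin 5) ℂ := fun i => lam * a i + mu * b i
  have hphi : ∀ t : Fin 5 → ℂ, (fun i => eval t (phi i)) =
      eval t lam • L1 ![t 0, t 1, t 2] + eval t mu • L2 ![t 0, t 3, t 4] := by
    intro t
    rw [← ha t, ← hb t]
    ext i
    simp only [phi, map_add, map_mul, Pi.add_apply, Pi.smul_apply, smul_eq_mul]
  let y1 : Fin 3 → MvPolynomial (Fin 6) ℂ := lf M1 X
  let y2 : Fin 3 → MvPolynomial (Fin 6) ℂ := lf M2 X
  have hX : ∀ v : Fin 6 → ℂ, (fun i => eval v (X i : MvPolynomial (Fin 6) ℂ)) = v := by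
    intro v
    ext i
    simp
  have hy1 : ∀ (v : Fin 6 → ℂ) (k : Fin 3), eval v (y1 k) = M1 v k := by
    intro v k
    have := eval_lf M1 (X : Fin 6 → MvPolynomial (Fin 6) ℂ) k v
    rw [hX] at this
    exact this
  have hy2 : ∀ (v : Fin 6 → ℂ) (k : Fin 3), eval v (y2 k) = M2 v k := by
    intro v k
    have := eval_lf M2 (X : Fin 6 → MvPolynomial (Fin 6) ℂ) k v
    rw [hX] at this
    exact this
  let psi : Fin 5 → MvPolynomial (Fin 6) ℂ :=
    ![y1 0 * y2 0, y1 1 * y2 0, y1 2 * y2 0, y1 0 * y2 1, y1 0 * y2 2]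
  -- the vectors `A`, `B` of the backward map
  let pA : Fin 6 → MvPolynomial (Fin 6) ℂ := lf L1 y1
  let pB : Fin 6 → MvPolynomial (Fin 6) ℂ := lf L2 y2
  have hA : ∀ v : Fin 6 → ℂ, (fun i => eval v (pA i)) = L1 (M1 v) := by
    intro v
    ext i
    have := eval_lf L1 y1 i v
    rw [show (fun i => eval v (y1 i)) = M1 v from funext (hy1 v)] at this
    exact this
  have hB : ∀ v : Fin 6 → ℂ, (fun i => eval v (pB i)) = L2 (M2 v) := by
    intro v
    ext i
    have := eval_lf L2 y2 i v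
    rw [show (fun i => eval v (y2 i)) = M2 v from funext (hy2 v)] at this
    exact this
  let h : MvPolynomial (Fin 6) ℂ := y1 0 ^ 2 * y2 0 ^ 2 * tp C6 pA pB pB
  have hh : ∀ v : Fin 6 → ℂ, eval v h = M1 v 0 ^ 2 * M2 v 0 ^ 2 *
      C6.T (L1 (M1 v)) (L2 (M2 v)) (L2 (M2 v)) := by
    intro v
    rw [← hA v, ← hB v]
    simp only [h, map_mul, map_pow, hy1, hy2]
    rw [eval_tp]
  let g : MvPolynomial (Fin 5) ℂ := lam * mu * X 0
  have hFphi : ∀ t : Fin 5 → ℂ, eval (fun i => eval t (phi i)) F = 0 := by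
    intro t
    rw [← hC, hphi t, hlam t, hmu t]
    set A := L1 ![t 0, t 1, t 2] with hAdef
    set B := L2 ![t 0, t 3, t 4] with hBdef
    have e1 : C6.T A A A = 0 := T1 _ _ _
    have e2 : C6.T B B B = 0 := T2 _ _ _
    have e3 : C6.T A B A = C6.T A A B := C6.cy _ _ _
    have e4 : C6.T B A A = C6.T A A B := by rw [C6.sw, C6.cy]
    have e5 : C6.T B A B = C6.T A B B := C6.sw _ _ _
    have e6 : C6.T B B A = C6.T A B B := by rw [C6.cy, C6.sw]
    simp only [map_add, map_smul, LinearMap.add_apply, LinearMap.smul_apply, smul_eq_mul,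
      e1, e2, e3, e4, e5, e6]
    ring
  have hlam0 : lam ≠ 0 := by
    intro h0
    set v := L2 ![1, 0, 0] with hv
    have hv0 : v ≠ 0 := by
      intro hv0
      have := M22 ![1, 0, 0]
      rw [← hv, hv0, map_zero] at this
      have := congrFun this 0
      simp at this
    obtain ⟨z, hz⟩ := hS v hv0
    apply hz
    rw [← Msum z, map_add, T2, add_zero]
    refine T_zero_of C6 v L1 (fun t1 t2 => ?_) _
    have := hlam ![1, t1, t2, 0, 0]
    rw [h0, map_zero] at this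
    simp only [Matrix.cons_val] at this
    rw [C6.rot, ← hv] at this
    exact this.symm
  have hmu0 : mu ≠ 0 := by
    intro h0
    set v := L1 ![1, 0, 0] with hv
    have hv0 : v ≠ 0 := by
      intro hv0
      have := M11 ![1, 0, 0]
      rw [← hv, hv0, map_zero] at this
      have := congrFun this 0
      simp at this
    obtain ⟨z, hz⟩ := hS v hv0
    apply hz
    rw [← Msum z, map_add, T1, zero_add]
    refine T_zero_of C6 v L2 (fun t1 t2 => ?_) _
    have := hmu ![1, 0, 0, t1, t2]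
    rw [h0, map_zero] at this
    simp only [Matrix.cons_val] at this
    rw [← hv] at this
    exact neg_eq_zero.1 this.symm
  have hg0 : g ≠ 0 := mul_ne_zero (mul_ne_zero hlam0 hmu0) (X_ne_zero 0)
  have M1phi : ∀ t : Fin 5 → ℂ, M1 (fun i => eval t (phi i)) = eval t lam • ![t 0, t 1, t 2] := by
    intro t
    rw [hphi t, map_add, map_smul, map_smul, M11, M12, smul_zero, add_zero]
  have M2phi : ∀ t : Fin 5 → ℂ, M2 (fun i => eval t (phi i)) = eval t mu • ![t 0, t 3, t 4] := by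
    intro t
    rw [hphi t, map_add, map_smul, map_smul, M21, M22, smul_zero, zero_add]
  refine ⟨4, 2, phi, psi, g, h, ?_, ?_, hg0, ?_, ?_, ?_, ?_⟩
  · intro i
    have hXh : ∀ i, (p1 i).IsHomogeneous 1 := by
      intro i
      fin_cases i <;> exact isHomogeneous_X _ _
    have hXh2 : ∀ i, (p2 i).IsHomogeneous 1 := by
      intro i
      fin_cases i <;> exact isHomogeneous_X _ _
    have hah : ∀ i, (a i).IsHomogeneous 1 := fun i => hom_lf L1 p1 i hXh
    have hbh : ∀ i, (b i).IsHomogeneous 1 := fun i => hom_lf L2 p2 i hXh2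
    have hl : lam.IsHomogeneous 3 := hom_tp C6 a b b hah hbh hbh
    have hm : mu.IsHomogeneous 3 := (hom_tp C6 a a b hah hah hbh).neg
    exact (hl.mul (hah i)).add (hm.mul (hbh i))
  · intro j
    have h1' : ∀ k, (y1 k).IsHomogeneous 1 := fun k => hom_lf M1 X k fun i => isHomogeneous_X _ _
    have h2' : ∀ k, (y2 k).IsHomogeneous 1 := fun k => hom_lf M2 X k fun i => isHomogeneous_X _ _
    fin_cases j
    · exact (h1' 0).mul (h2' 0)
    · exact (h1' 1).mul (h2' 0)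
    · exact (h1' 2).mul (h2' 0)
    · exact (h1' 0).mul (h2' 1)
    · exact (h1' 0).mul (h2' 2)
  · rintro ⟨q, hq⟩
    obtain ⟨t, ht⟩ : ∃ t, eval t g ≠ 0 := by
      by_contra hcon
      push Not at hcon
      exact hg0 (MvPolynomial.funext fun t => by rw [hcon t, map_zero])
    have ht' : eval t lam * eval t mu * t 0 ≠ 0 := by
      have := ht
      simp only [g, map_mul, eval_X] at this
      exact this
    have h3 := hh (fun i => eval t (phi i))
    rw [hq, map_mul, hFphi t, zero_mul, M1phi, M2phi, map_smul, map_smul] at h3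
    simp only [map_smul, LinearMap.smul_apply, smul_eq_mul, Pi.smul_apply, Matrix.cons_val] at h3
    rw [← hlam t] at h3
    have hl : eval t lam ≠ 0 := fun h0 => ht' (by rw [h0]; ring)
    have hm : eval t mu ≠ 0 := fun h0 => ht' (by rw [h0]; ring)
    have h0 : t 0 ≠ 0 := fun h0 => ht' (by rw [h0]; ring)
    have : (eval t lam * t 0) ^ 2 * (eval t mu * t 0) ^ 2 *
        (eval t lam * (eval t mu * (eval t mu * eval t lam))) ≠ 0 := by
      positivity
    exact this (by linear_combination h3.symm)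
  · apply MvPolynomial.funext
    intro t
    rw [eval_bd, hFphi t, map_zero]
  · intro j
    apply MvPolynomial.funext
    intro t
    rw [eval_bd]
    have e1 : ∀ k, eval (fun i => eval t (phi i)) (y1 k) = eval t lam * ![t 0, t 1, t 2] k := by
      intro k
      rw [hy1, M1phi]
      rfl
    have e2 : ∀ k, eval (fun i => eval t (phi i)) (y2 k) = eval t mu * ![t 0, t 3, t 4] k := by
      intro k
      rw [hy2, M2phi]
      rfl
    fin_cases j
    all_goals
      simp only [psi, g, map_mul, eval_X, e1, e2, Matrix.cons_val, Fin.zero_eta, Fin.mk_one,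
        Fin.reduceFinMk]
      ring
  · intro i
    refine ⟨- (MvPolynomial.C (1 / 3) * (y1 0 ^ 2 * y2 0 ^ 2 * pB i)), ?_⟩
    apply MvPolynomial.funext
    intro v
    have hps : ∀ k, eval v (psi k) = ![M1 v 0 * M2 v 0, M1 v 1 * M2 v 0, M1 v 2 * M2 v 0,
        M1 v 0 * M2 v 1, M1 v 0 * M2 v 2] k := by
      intro k
      fin_cases k <;> simp [psi, hy1, hy2]
    obtain ⟨t, ht⟩ : ∃ t : Fin 5 → ℂ, t = fun k => eval v (psi k) := ⟨_, rfl⟩
    have t0 : t 0 = M1 v 0 * M2 v 0 := by rw [ht]; exact hps 0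
    have t1 : t 1 = M1 v 1 * M2 v 0 := by rw [ht]; exact hps 1
    have t2 : t 2 = M1 v 2 * M2 v 0 := by rw [ht]; exact hps 2
    have t3 : t 3 = M1 v 0 * M2 v 1 := by rw [ht]; exact hps 3
    have t4 : t 4 = M1 v 0 * M2 v 2 := by rw [ht]; exact hps 4
    have q1 : (![M1 v 0 * M2 v 0, M1 v 1 * M2 v 0, M1 v 2 * M2 v 0] : Fin 3 → ℂ) =
        M2 v 0 • M1 v := by
      ext k
      fin_cases k <;> simp [mul_comm]
    have q2 : (![M1 v 0 * M2 v 0, M1 v 0 * M2 v 1, M1 v 0 * M2 v 2] : Fin 3 → ℂ) =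
        M1 v 0 • M2 v := by
      ext k
      fin_cases k <;> simp
    have hpi := congrFun (hphi t) i
    rw [hlam, hmu, t0, t1, t2, t3, t4, q1, q2] at hpi
    simp only [map_smul, LinearMap.smul_apply, smul_eq_mul, Pi.add_apply, Pi.smul_apply] at hpi
    have hv : v i = L1 (M1 v) i + L2 (M2 v) i := by
      conv_lhs => rw [← Msum v]
      rfl
    have hF : eval v F = 3 * (C6.T (L1 (M1 v)) (L1 (M1 v)) (L2 (M2 v)) +
        C6.T (L1 (M1 v)) (L2 (M2 v)) (L2 (M2 v))) := by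
      rw [← hC]
      conv_lhs => rw [← Msum v]
      generalize hA' : L1 (M1 v) = A
      generalize hB' : L2 (M2 v) = B
      have e1 : C6.T A A A = 0 := by rw [← hA']; exact T1 _ _ _
      have e2 : C6.T B B B = 0 := by rw [← hB']; exact T2 _ _ _
      have e3 : C6.T A B A = C6.T A A B := C6.cy _ _ _
      have e4 : C6.T B A A = C6.T A A B := by rw [C6.sw, C6.cy]
      have e5 : C6.T B A B = C6.T A B B := C6.sw _ _ _
      have e6 : C6.T B B A = C6.T A B B := by rw [C6.cy, C6.sw]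
      simp only [map_add, LinearMap.add_apply, e1, e2, e3, e4, e5, e6]
      ring
    have hBi : eval v (pB i) = L2 (M2 v) i := congrFun (hB v) i
    rw [map_sub, eval_bd, ← ht, hpi, map_mul, eval_X, hh, map_mul, map_neg, map_mul, map_mul,
      map_mul, eval_C, map_pow, map_pow, hy1, hy2, hF, hBi, hv]
    ring

end Pool.Agent.P28
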