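import Pool.Agent.P28.Main27
import Pool.Agent.P28.OfPoly
import Pool.Agent.P28.PBas
import Pool.Agent.P28.RatA
import Pool.Agent.P28.FBir

set_option autoImplicit false

/-!
# P28 E04: the final theorem

PROOF. `of_poly`, `smooth_of`, `plane_of`. If all pairs of planes of `S` had `P ⊓ P' ≠ ⊥`, then
`planes_le` gives `S.card ≤ 27`. So there are `P, P' ∈ S` with `P ⊓ P' = ⊥`; `exists_equiv`,
`rational_of`, `bir_sym` (for `C6` the trilinear form; `C6.T` vanishes on `P` and on `P'`).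
-/

namespace Pool.Agent.P28

open Module MvPolynomial

theorem disjoint_planes (F : MvPolynomial (Fin 6) ℂ) (hF : F.IsHomogeneous 3) (hs : PSmooth F)
    {P P' : Submodule ℂ (Fin 6 → ℂ)} (hP : PPlane F P) (hP' : PPlane F P') (h : P ⊓ P' = ⊥) :
    Rational F ∧ ∃ f g : MvPolynomial V2 ℂ, SmoothCI f g ∧ BirSym F f g := by
  obtain ⟨C, h1, h2⟩ := of_poly F hF
  have hS := smooth_of h1 h2 hs
  have hp := plane_of h1 hP
  have hp' := plane_of h1 hP'
  obtain ⟨e, he, he'⟩ := exists_equiv (V := Fin 6 → ℂ) (by simp) hP.1 hP'.1 h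
  have k1 : ∀ x y z : Fin 3 → ℂ, C.T (e (x, 0)) (e (y, 0)) (e (z, 0)) = 0 := fun x y z =>
    hp.2 _ (he x) _ (he y) _ (he z)
  have k2 : ∀ x y z : Fin 3 → ℂ, C.T (e (0, x)) (e (0, y)) (e (0, z)) = 0 := fun x y z =>
    hp'.2 _ (he' x) _ (he' y) _ (he' z)
  exact ⟨rational_of F C h1 hS e k1 k2, bir_sym F C h1 hS e k1 k2⟩

theorem many_planes (F : MvPolynomial (Fin 6) ℂ) (hF : F.IsHomogeneous 3) (hs : PSmooth F)
    (S : Finset (Submodule ℂ (Fin 6 → ℂ))) (hS : ∀ P ∈ S, PPlane F P) (hc : 28 ≤ S.card) :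
    (∃ P ∈ S, ∃ P' ∈ S, P ⊓ P' = ⊥) ∧
      Rational F ∧ ∃ f g : MvPolynomial V2 ℂ, SmoothCI f g ∧ BirSym F f g := by
  obtain ⟨C, h1, h2⟩ := of_poly F hF
  have hS1 := smooth_of h1 h2 hs
  have key : ∃ P ∈ S, ∃ P' ∈ S, P ⊓ P' = ⊥ := by
    by_contra hcon
    push Not at hcon
    have := planes_le C hS1 (by simp) S (fun P hP => plane_of h1 (hS P hP)) hcon
    omega
  obtain ⟨P, hP, P', hP', hd⟩ := key
  exact ⟨⟨P, hP, P', hP', hd⟩, disjoint_planes F hF hs (hS P hP) (hS P' hP') hd⟩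

end Pool.Agent.P28
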