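import Pool.Agent.P28.Defs

set_option autoImplicit false

/-!
# P28: frames of a plane, the cubic forms `N` and `D`

A frame is a basis `(e₀, e₁, e₂, w₀, w₁, w₂)` of `V`; the plane in question is `span w`, and
`span e` is a complement. `pi` is the projection to `span w`, `l i` the coordinates along `e`.
-/

namespace Pool.Agent.P28

open Module

variable {V : Type} [AddCommGroup V] [Module ℂ V]

/-- A frame. -/
structure Fr (V : Type) [AddCommGroup V] [Module ℂ V] where
  e : Fin 3 → V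
  w : Fin 3 → V
  B : Basis (Fin 3 ⊕ Fin 3) ℂ V
  hB : ⇑B = Sum.elim e w

/-- The plane of the frame. -/
def Fr.P (F : Fr V) : Submodule ℂ V := Submodule.span ℂ (Set.range F.w)

/-- The coordinate along `e i`. -/
noncomputable def Fr.l (F : Fr V) (i : Fin 3) : V →ₗ[ℂ] ℂ := F.B.coord (Sum.inl i)

/-- The coordinate along `w i`. -/
noncomputable def Fr.y (F : Fr V) (i : Fin 3) : V →ₗ[ℂ] ℂ := F.B.coord (Sum.inr i)

/-- The projection to the plane. -/
noncomputable def Fr.pi (F : Fr V) : V →ₗ[ℂ] V := ∑ i, (F.y i).smulRight (F.w i)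

/-- The cubic form `N`. -/
noncomputable def Fr.N (C : Cub V) (F : Fr V) (x : V) : ℂ :=
  Matrix.det (Matrix.of fun i j => C.T (F.e i) (F.w j) (x + F.pi x))

/-- The cubic form `D`. -/
noncomputable def Fr.D (C : Cub V) (F : Fr V) (x : V) : ℂ :=
  Matrix.det (Matrix.of fun i j => C.T x (F.w j) (F.e i))

/-- The volume of a frame with respect to a fixed basis. -/
noncomputable def Fr.vol (b : Basis (Fin 3 ⊕ Fin 3) ℂ V) (F : Fr V) : ℂ :=
  b.det (Sum.elim F.e F.w)

theorem Fr.e_eq (F : Fr V) (i : Fin 3) : F.B (Sum.inl i) = F.e i := by rw [F.hB]; rfl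

theorem Fr.w_eq (F : Fr V) (i : Fin 3) : F.B (Sum.inr i) = F.w i := by rw [F.hB]; rfl

theorem Fr.expand (F : Fr V) (x : V) : x = ∑ i, F.l i x • F.e i + F.pi x := by
  have h := F.B.sum_repr x
  rw [Fintype.sum_sum_type] at h
  conv_lhs => rw [← h]
  congr 1
  · refine Finset.sum_congr rfl fun i _ => ?_
    rw [F.e_eq]; rfl
  · rw [Fr.pi, LinearMap.sum_apply]
    refine Finset.sum_congr rfl fun i _ => ?_
    rw [F.w_eq]; rfl

theorem Fr.pi_mem (F : Fr V) (x : V) : F.pi x ∈ F.P := by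
  rw [Fr.pi, LinearMap.sum_apply]
  exact Submodule.sum_mem _ fun i _ =>
    Submodule.smul_mem _ _ (Submodule.subset_span ⟨i, rfl⟩)

theorem Fr.w_mem (F : Fr V) (i : Fin 3) : F.w i ∈ F.P := Submodule.subset_span ⟨i, rfl⟩

theorem Fr.l_e (F : Fr V) (i j : Fin 3) : F.l i (F.e j) = if i = j then 1 else 0 := by
  rw [Fr.l, ← F.e_eq, Basis.coord_apply, Basis.repr_self, Finsupp.single_apply]
  by_cases h : i = j
  · rw [if_pos h, h, if_pos rfl]
  · rw [if_neg h, if_neg fun h' => h (Sum.inl_injective h').symm]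

theorem Fr.l_w (F : Fr V) (i j : Fin 3) : F.l i (F.w j) = 0 := by
  rw [Fr.l, ← F.w_eq, Basis.coord_apply, Basis.repr_self, Finsupp.single_apply,
    if_neg (by simp)]

theorem Fr.y_w (F : Fr V) (i j : Fin 3) : F.y i (F.w j) = if i = j then 1 else 0 := by
  rw [Fr.y, ← F.w_eq, Basis.coord_apply, Basis.repr_self, Finsupp.single_apply]
  by_cases h : i = j
  · rw [if_pos h, h, if_pos rfl]
  · rw [if_neg h, if_neg fun h' => h (Sum.inr_injective h').symm]

theorem Fr.y_e (F : Fr V) (i j : Fin 3) : F.y i (F.e j) = 0 := by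
  rw [Fr.y, ← F.e_eq, Basis.coord_apply, Basis.repr_self, Finsupp.single_apply,
    if_neg (by simp)]

theorem Fr.pi_w (F : Fr V) (j : Fin 3) : F.pi (F.w j) = F.w j := by
  rw [Fr.pi, LinearMap.sum_apply]
  simp only [LinearMap.smulRight_apply, F.y_w, ite_smul, one_smul, zero_smul,
    Finset.sum_ite_eq', Finset.mem_univ, if_true]

theorem Fr.pi_e (F : Fr V) (j : Fin 3) : F.pi (F.e j) = 0 := by
  rw [Fr.pi, LinearMap.sum_apply]
  simp only [LinearMap.smulRight_apply, F.y_e, zero_smul, Finset.sum_const_zero]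

theorem Fr.mem_iff (F : Fr V) (x : V) : x ∈ F.P ↔ F.pi x = x := by
  constructor
  · intro h
    refine Submodule.span_induction ?_ ?_ ?_ ?_ h
    · rintro _ ⟨i, rfl⟩
      exact F.pi_w i
    · exact map_zero _
    · intro x y _ _ hx hy
      rw [map_add, hx, hy]
    · intro a x _ hx
      rw [map_smul, hx]
  · intro h
    rw [← h]
    exact F.pi_mem x

theorem Fr.l_eq_zero (F : Fr V) {x : V} (h : x ∈ F.P) (i : Fin 3) : F.l i x = 0 := by
  rw [← (F.mem_iff x).1 h, Fr.pi, LinearMap.sum_apply, map_sum]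
  simp only [LinearMap.smulRight_apply, map_smul, F.l_w, smul_zero, Finset.sum_const_zero]

end Pool.Agent.P28
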