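import Pool.Agent.P28.Adapt

set_option autoImplicit false

/-!
# P28 C07: existence of frames

`fr_exists`: a subspace `P` of dimension 3 of a 6-dimensional space has a frame with `F.P = P`, and
for a fixed basis `b` one with `F.vol b = 1`. PROOF: a basis `w` of `P`, a basis `e` of a complement
(`Submodule.exists_isCompl`), together a basis of `V`; the volume is not `0`
(`Basis.det` of a basis is a unit); divide `e 0` by it (`Basis.det` is linear in each vector;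
`Sum.elim (Function.update e 0 _) w = Function.update (Sum.elim e w) (Sum.inl 0) _`).

`adapted_exists`: for 3-dimensional `P, P'` with `dim (P ∩ P') = 1` there are adapted frames.
PROOF: `w₀` a basis of `P ∩ P'`, `w₀, w₁, w₂` a basis of `P'`, `w₀, e₁, e₂` a basis of `P`. The five
vectors are independent (`dim (P + P') = 5`), `e₀ ∉ P + P'`.

`N_cubic`: `F.N C` is of the form `t x x x`: expand the determinant (`Matrix.det_fin_three`), each
of the six products is `phi_1 x * phi_2 x * phi_3 x` with linear functionals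
`phi = C.T (F.e i) (F.w j) ∘ (id + F.pi)`; `t = ∑ ± phi_1 ⊗ phi_2 ⊗ phi_3`, e.g.
`LinearMap.mk₂`/`smulRight` constructions: `x ↦ (phi_1 x) • (y ↦ (phi_2 y) • phi_3)`.
-/

namespace Pool.Agent.P28

open Module

variable {V : Type} [AddCommGroup V] [Module ℂ V] [FiniteDimensional ℂ V]

private theorem bas {S : Submodule ℂ V} {n : ℕ} (h : finrank ℂ S = n) :
    ∃ v : Fin n → V, Submodule.span ℂ (Set.range v) = S := by
  have b : Basis (Fin n) ℂ S := finBasisOfFinrankEq ℂ S h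
  refine ⟨fun i => (b i : V), ?_⟩
  have h1 : (Set.range fun i => (b i : V)) = S.subtype '' Set.range b := by
    rw [← Set.range_comp]
    rfl
  rw [h1, Submodule.span_image, b.span_eq, Submodule.map_top, Submodule.range_subtype]

private theorem mkFr (hV : finrank ℂ V = 6) (e w : Fin 3 → V)
    (h : (⊤ : Submodule ℂ V) ≤ Submodule.span ℂ (Set.range (Sum.elim e w))) :
    ∃ F : Fr V, F.e = e ∧ F.w = w := by
  have hli : LinearIndependent ℂ (Sum.elim e w) :=
    linearIndependent_of_top_le_span_of_card_eq_finrank h (by simp [hV])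
  exact ⟨⟨e, w, basisOfLinearIndependentOfCardEqFinrank hli (by simp [hV]),
    coe_basisOfLinearIndependentOfCardEqFinrank hli (by simp [hV])⟩, rfl, rfl⟩

theorem fr_exists (hV : finrank ℂ V = 6) (b : Basis (Fin 3 ⊕ Fin 3) ℂ V) (P : Submodule ℂ V)
    (hP : finrank ℂ P = 3) : ∃ F : Fr V, F.P = P ∧ F.vol b = 1 := by
  obtain ⟨Q, hQ⟩ := P.exists_isCompl
  have hQ3 : finrank ℂ Q = 3 := by
    have h1 := Submodule.finrank_add_eq_of_isCompl hQ
    omega
  obtain ⟨w, hw⟩ := bas hP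
  obtain ⟨e, he⟩ := bas hQ3
  obtain ⟨F0, hF0e, hF0w⟩ := mkFr hV e w (by
    rw [Set.Sum.elim_range, Submodule.span_union, he, hw, sup_comm, hQ.sup_eq_top])
  have hc : b.det (Sum.elim e w) ≠ 0 := by
    have h1 := (b.isUnit_det F0.B).ne_zero
    rwa [F0.hB, hF0e, hF0w] at h1
  have hd : b.det (Sum.elim (Function.update e 0 ((b.det (Sum.elim e w))⁻¹ • e 0)) w) = 1 := by
    rw [← Sum.update_elim_inl, AlternatingMap.map_update_smul]
    have h1 : Function.update (Sum.elim e w) (Sum.inl 0) (e 0) = Sum.elim e w :=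
      Function.update_eq_self (Sum.inl 0) (Sum.elim e w)
    rw [h1, smul_eq_mul, inv_mul_cancel₀ hc]
  have hu : IsUnit (b.det (Sum.elim (Function.update e 0 ((b.det (Sum.elim e w))⁻¹ • e 0)) w)) := by
    rw [hd]
    exact isUnit_one
  obtain ⟨-, hsp⟩ := (Module.Basis.is_basis_iff_det b).2 hu
  obtain ⟨F, hFe, hFw⟩ := mkFr hV _ _ hsp.ge
  refine ⟨F, ?_, ?_⟩
  · rw [Fr.P, hFw, hw]
  · rw [Fr.vol, hFe, hFw, hd]

private theorem spn (i : Fin 1 → V) (q : Fin 2 → V) :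
    Submodule.span ℂ (Set.range ![i 0, q 0, q 1]) =
      Submodule.span ℂ (Set.range i) ⊔ Submodule.span ℂ (Set.range q) := by
  rw [← Submodule.span_union]
  congr 1
  ext x
  simp only [Set.mem_range, Fin.exists_fin_succ, Set.mem_union, IsEmpty.exists_iff, or_false]
  tauto

private theorem compl_in {I P : Submodule ℂ V} (h : I ≤ P) (hI : finrank ℂ I = 1)
    (hP : finrank ℂ P = 3) : ∃ Q : Submodule ℂ V, I ⊔ Q = P ∧ finrank ℂ Q = 2 := by
  obtain ⟨Q, hQ⟩ := I.exists_isCompl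
  have h1 : I ⊔ Q ⊓ P = P := by
    rw [← sup_inf_assoc_of_le Q h, hQ.sup_eq_top, top_inf_eq]
  have h2 : I ⊓ (Q ⊓ P) = ⊥ := by
    rw [← inf_assoc, hQ.inf_eq_bot, bot_inf_eq]
  refine ⟨Q ⊓ P, h1, ?_⟩
  have h3 := Submodule.finrank_sup_add_finrank_inf_eq I (Q ⊓ P)
  rw [h1, h2, finrank_bot] at h3
  omega

theorem adapted_exists (hV : finrank ℂ V = 6) {P P' : Submodule ℂ V} (hP : finrank ℂ P = 3)
    (hP' : finrank ℂ P' = 3) (h : finrank ℂ (P ⊓ P' : Submodule ℂ V) = 1) :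
    ∃ F F' : Fr V, F.P = P ∧ F'.P = P' ∧ Adapted F F' := by
  obtain ⟨Q, hQ, hQ2⟩ := compl_in (inf_le_left : P ⊓ P' ≤ P) h hP
  obtain ⟨Q', hQ', hQ2'⟩ := compl_in (inf_le_right : P ⊓ P' ≤ P') h hP'
  obtain ⟨R, hR⟩ := (P ⊔ P').exists_isCompl
  have hR1 : finrank ℂ R = 1 := by
    have h1 := Submodule.finrank_add_eq_of_isCompl hR
    have h2 := Submodule.finrank_sup_add_finrank_inf_eq P P'
    omega
  obtain ⟨i, hi⟩ := bas h
  obtain ⟨q, hq⟩ := bas hQ2
  obtain ⟨q', hq'⟩ := bas hQ2'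
  obtain ⟨r, hr⟩ := bas hR1
  have htop : R ⊔ (P ⊔ P') = ⊤ := by rw [sup_comm, hR.sup_eq_top]
  obtain ⟨F, hFe, hFw⟩ := mkFr hV ![r 0, q' 0, q' 1] ![i 0, q 0, q 1] (by
    rw [Set.Sum.elim_range, Submodule.span_union, spn, spn, hr, hq', hi, hq, hQ, ← htop]
    refine sup_le (le_sup_of_le_left le_sup_left) (sup_le le_sup_right ?_)
    rw [← hQ']
    exact sup_le (le_sup_of_le_right inf_le_left) (le_sup_of_le_left le_sup_right))
  obtain ⟨F', hFe', hFw'⟩ := mkFr hV ![r 0, q 0, q 1] ![i 0, q' 0, q' 1] (by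
    rw [Set.Sum.elim_range, Submodule.span_union, spn, spn, hr, hq', hi, hq, hQ', ← htop]
    refine sup_le (le_sup_of_le_left le_sup_left) (sup_le ?_ le_sup_right)
    rw [← hQ]
    exact sup_le (le_sup_of_le_right inf_le_right) (le_sup_of_le_left le_sup_right))
  refine ⟨F, F', ?_, ?_, ⟨?_, ?_⟩⟩
  · rw [Fr.P, hFw, spn, hi, hq, hQ]
  · rw [Fr.P, hFw', spn, hi, hq', hQ']
  · rw [hFe, hFe', hFw']
    rfl
  · rw [hFw, hFe', hFw']
    rfl

private def tri (a b c : V →ₗ[ℂ] ℂ) : V →ₗ[ℂ] V →ₗ[ℂ] V →ₗ[ℂ] ℂ := a.smulRight (b.smulRight c)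

omit [FiniteDimensional ℂ V] in
private theorem tri_apply (a b c : V →ₗ[ℂ] ℂ) (x y z : V) :
    tri a b c x y z = a x * (b y * c z) := rfl

theorem N_cubic (C : Cub V) (F : Fr V) :
    ∃ t : V →ₗ[ℂ] V →ₗ[ℂ] V →ₗ[ℂ] ℂ, ∀ x, F.N C x = t x x x := by
  let φ : Fin 3 → Fin 3 → V →ₗ[ℂ] ℂ := fun i j =>
    (C.T (F.e i) (F.w j)).comp (LinearMap.id + F.pi)
  refine ⟨tri (φ 0 0) (φ 1 1) (φ 2 2) - tri (φ 0 0) (φ 1 2) (φ 2 1) -
    tri (φ 0 1) (φ 1 0) (φ 2 2) + tri (φ 0 1) (φ 1 2) (φ 2 0) +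
    tri (φ 0 2) (φ 1 0) (φ 2 1) - tri (φ 0 2) (φ 1 1) (φ 2 0), fun x => ?_⟩
  have h : F.N C x = Matrix.det (Matrix.of fun i j => φ i j x) := rfl
  rw [h, Matrix.det_fin_three]
  simp only [LinearMap.add_apply, LinearMap.sub_apply, tri_apply, Matrix.of_apply]
  ring

end Pool.Agent.P28
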