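import Mathlib

set_option autoImplicit false

/-!
# P28 D01: graphs in which every edge lies in a triangle that every other vertex sees once

`GQ R`: `R` is symmetric and irreflexive and every edge `a b` has a third vertex `c`, joined to
`a` and `b`, such that every vertex `x ≠ a, b, c` is joined to exactly one of `a, b, c`
(generalised quadrangle with lines of size 3).

PROOFS. (0) `GQ.unique`: for an edge `a b` with third vertex `c`, a vertex joined to both `a` and
`b` is `c`. So the third vertex is unique, and if `c` is the third vertex of `a b` then `b` is the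
third vertex of `a c`, and so on: the triangles `{a, b, c}` (lines) through a vertex `a` partition
the neighbours of `a` into pairs.

(1) `GQ.common`: `x ≠ y` not joined. For a neighbour `u` of `x` let `u'` be the third vertex of
`x u`; `y` is joined to exactly one of `x, u, u'`, so to exactly one of `u, u'`. The involution
`u ↦ u'` of the set of neighbours of `x` exchanges the neighbours joined to `y` and those not
joined to `y`; so the number of common neighbours is half of the number of neighbours of `x`.

(2) `GQ.regular`: assume that every vertex has a vertex `≠` it not joined to it. (1) for `x, y` and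
`y, x` gives: vertices `x ≠ y` which are not joined have the same degree. Now let `x y` be an edge
with third vertex `w`. If `w` is joined to some `z ≠ x, y`, then `z` is joined to `w`, not to `x`,
not to `y`, so `deg x = deg z = deg y`. Suppose that `w` is joined only to `x` and `y`. Then every
vertex `z` outside `{x, y, w}` has `deg z = deg w = 2` and is joined to exactly one of `x, y`.
As `y` is not joined to everything there is such a `z = u` joined to `x`, and as `x` is not joined
to everything there is such a `z = v` joined to `y`. Let `u'` be the third vertex of `x u`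
(`u' ∉ {y, w}`, as `x y w` is the only triangle through `x y`). `v ≠ x, u, u'` is joined to exactly
one of `x, u, u'`, not to `x`, so `v` is joined to `u` or to `u'`; call it `u''` (it is outside
`{x, y, w}`, has degree 2 and is joined to `x` and to `v`). But `u''` is joined exactly to `x` and
the third vertex of `x u''`, so `v` is joined to `x`: contradiction. So all degrees are equal, to
`d`, which is even (pairs) and `≥ 2` (there is an edge). Counting: for an edge `a b` with third
vertex `c` the vertices outside `{a, b, c}` are partitioned into the neighbours of `a`, of `b`, of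
`c` outside the triangle: `card α = 3 + 3 (d - 2)`. With `d = 2 (t + 1)`: `card α = 6 t + 3`. If
`t = 0` then `α = {a, b, c}` and `a` is joined to everything: excluded. So `1 ≤ t`.
-/

namespace Pool.Agent.P28

/-- Generalised quadrangle with lines of size 3 (possibly degenerate), as a graph. -/
structure GQ {α : Type} (R : α → α → Prop) : Prop where
  symm : ∀ a b, R a b → R b a
  irr : ∀ a, ¬ R a a
  tri : ∀ a b, R a b → ∃ c, R a c ∧ R b c ∧ ∀ x, x ≠ a → x ≠ b → x ≠ c →
    (R x a ∧ ¬ R x b ∧ ¬ R x c) ∨ (¬ R x a ∧ R x b ∧ ¬ R x c) ∨ (¬ R x a ∧ ¬ R x b ∧ R x c)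

theorem GQ.unique {α : Type} {R : α → α → Prop} (h : GQ R) {a b c c' : α} (hab : R a b)
    (hac : R a c) (hbc : R b c) (hac' : R a c') (hbc' : R b c') : c = c' := by
  by_contra hne
  obtain ⟨d, had, hbd, hd⟩ := h.tri a b hab
  have key : ∀ z, R a z → R b z → z = d := by
    intro z haz hbz
    by_contra hzd
    have hza : z ≠ a := fun e => h.irr a (by rw [e] at haz; exact haz)
    have hzb : z ≠ b := fun e => h.irr b (by rw [e] at hbz; exact hbz)
    have h1 := h.symm a z haz
    have h2 := h.symm b z hbz
    rcases hd z hza hzb hzd with h3 | h3 | h3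
    · exact h3.2.1 h2
    · exact h3.1 h1
    · exact h3.1 h1
  exact hne ((key c hac hbc).trans (key c' hac' hbc').symm)

theorem GQ.common {α : Type} [Fintype α] {R : α → α → Prop} (h : GQ R) {x y : α} (hne : x ≠ y)
    (hxy : ¬ R x y) : 2 * {z | R x z ∧ R y z}.ncard = {z | R x z}.ncard := by
  have hyx : ¬ R y x := fun e => hxy (h.symm y x e)
  have h0 : ∀ u, ∃ c, R x u → (R x c ∧ R u c ∧ (R y u ↔ ¬ R y c)) := by
    intro u
    by_cases hu : R x u
    · obtain ⟨c, hxc, huc, hc⟩ := h.tri x u hu
      refine ⟨c, fun _ => ⟨hxc, huc, ?_⟩⟩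
      have h1 : y ≠ u := fun e => hxy (by rw [e]; exact hu)
      have h2 : y ≠ c := fun e => hxy (by rw [e]; exact hxc)
      rcases hc y hne.symm h1 h2 with h3 | h3 | h3
      · exact absurd h3.1 hyx
      · exact ⟨fun _ => h3.2.2, fun _ => h3.2.1⟩
      · exact ⟨fun h4 => absurd h4 h3.2.1, fun h4 => absurd h3.2.2 h4⟩
    · exact ⟨u, fun h1 => absurd h1 hu⟩
  choose t ht using h0
  have htt : ∀ u, R x u → t (t u) = u := by
    intro u hu
    have h1 := ht u hu
    have h2 := ht (t u) h1.1
    exact h.unique h1.1 h2.1 h2.2.1 hu (h.symm _ _ h1.2.1)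
  have hcard : {z | R x z ∧ R y z}.ncard = {z | R x z ∧ ¬ R y z}.ncard := by
    refine Set.ncard_congr (fun u _ => t u) ?_ ?_ ?_
    · intro u hu
      have h1 := ht u hu.1
      exact ⟨h1.1, h1.2.2.1 hu.2⟩
    · intro u v hu hv huv
      rw [← htt u hu.1, ← htt v hv.1]
      exact congrArg t huv
    · intro v hv
      have h1 := ht v hv.1
      refine ⟨t v, ⟨h1.1, ?_⟩, htt v hv.1⟩
      by_contra h2
      exact hv.2 (h1.2.2.2 h2)
  have hunion : {z | R x z} = {z | R x z ∧ R y z} ∪ {z | R x z ∧ ¬ R y z} := by
    ext z
    simp only [Set.mem_ofPred_eq, Set.mem_union]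
    tauto
  have hdisj : Disjoint {z | R x z ∧ R y z} {z | R x z ∧ ¬ R y z} := by
    rw [Set.disjoint_left]
    rintro z hz hz'
    exact hz'.2 hz.2
  rw [hunion, Set.ncard_union_eq hdisj (Set.toFinite _) (Set.toFinite _), ← hcard, two_mul]

private theorem three_le {α : Type} [Fintype α] {S : Set α} {a b c : α} (ha : a ∈ S)
    (hb : b ∈ S) (hc : c ∈ S) (hab : a ≠ b) (hac : a ≠ c) (hbc : b ≠ c) : 3 ≤ S.ncard := by
  classical
  have h1 : (({a, b, c} : Finset α) : Set α) ⊆ S := by
    intro z hz
    simp only [Finset.coe_insert, Finset.coe_singleton, Set.mem_insert_iff,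
      Set.mem_singleton_iff] at hz
    rcases hz with rfl | rfl | rfl
    · exact ha
    · exact hb
    · exact hc
  have h2 := Set.ncard_le_ncard h1 (Set.toFinite S)
  rw [Set.ncard_coe_finset, Finset.card_eq_three.2 ⟨a, b, c, hab, hac, hbc, rfl⟩] at h2
  exact h2

theorem GQ.regular {α : Type} [Fintype α] {R : α → α → Prop} (h : GQ R)
    (hu : ∀ a, ∃ b, b ≠ a ∧ ¬ R a b) (he : ∃ a b, R a b) :
    ∃ t : ℕ, 1 ≤ t ∧ (∀ a, {b | R a b}.ncard = 2 * (t + 1)) ∧ Fintype.card α = 6 * t + 3 := by
  classical
  have hnon : ∀ x y, x ≠ y → ¬ R x y → {z | R x z}.ncard = {z | R y z}.ncard := by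
    intro x y hne hxy
    have h1 := h.common hne hxy
    have h2 := h.common hne.symm (fun e => hxy (h.symm _ _ e))
    have h3 : {z | R x z ∧ R y z} = {z | R y z ∧ R x z} := by
      ext z
      exact and_comm
    rw [← h1, ← h2, h3]
  have hedge : ∀ x y, R x y → {z | R x z}.ncard = {z | R y z}.ncard := by
    intro x y hxy
    obtain ⟨w, hxw, hyw, hw⟩ := h.tri x y hxy
    by_cases hz : ∃ z, z ≠ x ∧ z ≠ y ∧ R z w
    · obtain ⟨z, hzx, hzy, hzw⟩ := hz
      have hzw' : z ≠ w := fun e => h.irr w (by rw [e] at hzw; exact hzw)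
      rcases hw z hzx hzy hzw' with h1 | h1 | h1
      · exact absurd hzw h1.2.2
      · exact absurd hzw h1.2.2
      · rw [← hnon z x hzx h1.1, ← hnon z y hzy h1.2.1]
    · exfalso
      have hz' : ∀ z, z ≠ x → z ≠ y → ¬ R z w := fun z h1 h2 h3 => hz ⟨z, h1, h2, h3⟩
      have hdw : {z | R w z}.ncard = 2 := by
        have h1 : {z | R w z} = {x, y} := by
          ext z
          simp only [Set.mem_ofPred_eq, Set.mem_insert_iff, Set.mem_singleton_iff]
          constructor
          · intro h2
            by_contra h3
            rw [not_or] at h3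
            exact hz' z h3.1 h3.2 (h.symm _ _ h2)
          · rintro (rfl | rfl)
            · exact h.symm _ _ hxw
            · exact h.symm _ _ hyw
        rw [h1]
        exact Set.ncard_pair fun e => h.irr x (by rw [← e] at hxy; exact hxy)
      have hd2 : ∀ z, z ≠ w → ¬ R z w → {b | R z b}.ncard = 2 := fun z h1 h2 => by
        rw [hnon z w h1 h2, hdw]
      obtain ⟨u, huy, hyu⟩ := hu y
      have huy' : ¬ R u y := fun e => hyu (h.symm _ _ e)
      have hux : u ≠ x := fun e => hyu (by rw [e]; exact h.symm _ _ hxy)
      have huw : u ≠ w := fun e => hyu (by rw [e]; exact hyw)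
      have hRuw : ¬ R u w := hz' u hux huy
      have hRux : R u x := by
        rcases hw u hux huy huw with h1 | h1 | h1
        · exact h1.1
        · exact absurd h1.2.1 huy'
        · exact absurd h1.2.2 hRuw
      obtain ⟨v, hvx, hxv⟩ := hu x
      have hRvx : ¬ R v x := fun e => hxv (h.symm _ _ e)
      obtain ⟨u', hxu', huu', ht⟩ := h.tri x u (h.symm _ _ hRux)
      have hvu : v ≠ u := fun e => hRvx (by rw [e]; exact hRux)
      have hvu' : v ≠ u' := fun e => hxv (by rw [e]; exact hxu')
      have hxu1 : x ≠ u' := fun e => h.irr x (by rw [← e] at hxu'; exact hxu')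
      have huu1 : u ≠ u' := fun e => h.irr u (by rw [← e] at huu'; exact huu')
      rcases ht v hvx hvu hvu' with h1 | h1 | h1
      · exact hRvx h1.1
      · have h2 := hd2 u huw hRuw
        have h3 : 3 ≤ {b | R u b}.ncard :=
          three_le (a := x) (b := u') (c := v) hRux huu' (h.symm _ _ h1.2.1) hxu1
            hvx.symm hvu'.symm
        omega
      · have hu'y : u' ≠ y := fun e => huy' (by rw [← e]; exact huu')
        have hu'w : u' ≠ w := fun e => hRuw (by rw [← e]; exact huu')
        have h2 := hd2 u' hu'w (hz' u' hxu1.symm hu'y)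
        have h3 : 3 ≤ {b | R u' b}.ncard :=
          three_le (a := x) (b := u) (c := v) (h.symm _ _ hxu') (h.symm _ _ huu')
            (h.symm _ _ h1.2.2) hux.symm hvx.symm hvu.symm
        omega
  have hall : ∀ x y, {z | R x z}.ncard = {z | R y z}.ncard := by
    intro x y
    by_cases h1 : R x y
    · exact hedge x y h1
    · by_cases h2 : x = y
      · rw [h2]
      · exact hnon x y h2 h1
  obtain ⟨a, b, hab⟩ := he
  obtain ⟨c, hac, hbc, hc⟩ := h.tri a b hab
  obtain ⟨n, hna, han⟩ := hu a
  have hev := h.common hna.symm han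
  have hpos : 0 < {z | R a z}.ncard := (Set.ncard_pos (Set.toFinite _)).2 ⟨b, hab⟩
  obtain ⟨t, ht⟩ : ∃ t, {z | R a z ∧ R n z}.ncard = t + 1 :=
    ⟨{z | R a z ∧ R n z}.ncard - 1, by omega⟩
  have hdeg : ∀ x, {z | R x z}.ncard = 2 * (t + 1) := fun x => by
    rw [hall x a, ← hev, ht]
  have hab' : a ≠ b := fun e => h.irr a (by rw [← e] at hab; exact hab)
  have hac' : a ≠ c := fun e => h.irr a (by rw [← e] at hac; exact hac)
  have hbc' : b ≠ c := fun e => h.irr b (by rw [← e] at hbc; exact hbc)
  have hsum : ∀ x, {z | R x z}.ncard = ∑ z, if R x z then 1 else 0 := by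
    intro x
    rw [Set.ncard_eq_toFinset_card', Set.toFinset_ofPred, Finset.card_filter]
  have hpt : ∀ z, (if R a z then 1 else 0) + (if R b z then 1 else 0) +
      (if R c z then 1 else 0) =
      1 + (if z = a then 1 else 0) + (if z = b then 1 else 0) + (if z = c then 1 else 0) := by
    intro z
    by_cases h1 : z = a
    · subst h1
      simp [h.irr z, h.symm _ _ hab, h.symm _ _ hac, hab', hac']
    · by_cases h2 : z = b
      · subst h2
        simp [h.irr z, hab, h.symm _ _ hbc, hbc', h1]
      · by_cases h3 : z = c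
        · subst h3
          simp [h.irr z, hac, hbc, h1, h2]
        · have e1 : R a z ↔ R z a := ⟨h.symm _ _, h.symm _ _⟩
          have e2 : R b z ↔ R z b := ⟨h.symm _ _, h.symm _ _⟩
          have e3 : R c z ↔ R z c := ⟨h.symm _ _, h.symm _ _⟩
          rcases hc z h1 h2 h3 with h4 | h4 | h4
          · simp [e1, e2, e3, h4.1, h4.2.1, h4.2.2, h1, h2, h3]
          · simp [e1, e2, e3, h4.1, h4.2.1, h4.2.2, h1, h2, h3]
          · simp [e1, e2, e3, h4.1, h4.2.1, h4.2.2, h1, h2, h3]
  have htot : {z | R a z}.ncard + {z | R b z}.ncard + {z | R c z}.ncard =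
      Fintype.card α + 3 := by
    rw [hsum a, hsum b, hsum c, ← Finset.sum_add_distrib, ← Finset.sum_add_distrib,
      Finset.sum_congr rfl fun z _ => hpt z, Finset.sum_add_distrib, Finset.sum_add_distrib,
      Finset.sum_add_distrib]
    simp
  rw [hdeg a, hdeg b, hdeg c] at htot
  have hcard : Fintype.card α = 6 * t + 3 := by omega
  refine ⟨t, ?_, hdeg, hcard⟩
  have hnb : n ≠ b := fun e => han (by rw [e]; exact hab)
  have hnc : n ≠ c := fun e => han (by rw [e]; exact hac)
  have h4 : ({n, a, b, c} : Finset α).card = 4 := by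
    rw [Finset.card_insert_of_notMem, Finset.card_eq_three.2 ⟨a, b, c, hab', hac', hbc', rfl⟩]
    simp only [Finset.mem_insert, Finset.mem_singleton, not_or]
    exact ⟨hna, hnb, hnc⟩
  have h5 := Finset.card_le_univ ({n, a, b, c} : Finset α)
  rw [h4, hcard] at h5
  omega

end Pool.Agent.P28
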