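import Pool.Agent.P28.GraphA

set_option autoImplicit false

/-!
# P28 D02: Higman's inequality for lines of size 3

PROOF of `GQ.higman`. Choose `x ≠ y` not joined (`hu`). `K` = common neighbours, `|K| = t + 1`
(`GQ.common`). `W` = vertices `≠ x, y` joined neither to `x` nor to `y`:
`|W| = 6 t + 3 - 2 - (2 (t + 1) + 2 (t + 1) - (t + 1)) = 3 t - 2`.
For `w ∈ W` let `a w` be the number of `z ∈ K` joined to `w`.
* For `z ∈ K`: let `x'` be the third vertex of `z x`, `y'` the third vertex of `z y` (four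
  different neighbours `x, x', y, y'` of `z`). A further neighbour `w` of `z` is not joined to `x`
  (it is joined to exactly one of `z, x, x'`) and not to `y`, so `w ∈ W`; `x'` and `y'` are not in
  `W`. So `z` has `2 (t + 1) - 4 = 2 t - 2` neighbours in `W`:
  `∑_w a w = (t + 1) (2 t - 2) = 2 (t^2 - 1)`.
* For `z ≠ z'` in `K`: not joined (otherwise `x` and `y` would both be third vertices of `z z'`,
  `GQ.unique`), so they have `t + 1` common neighbours, among them `x` and `y`; another one `w`
  is not `x'` (third vertex of `z x`: `z'` is joined to exactly one of `z, x, x'`, namely `x`) and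
  not `y'`, so it is in `W` by the first item. So
  `∑_w a w (a w - 1) = (t + 1) t (t - 1)` (ordered pairs `z ≠ z'`).
Cauchy-Schwarz: `(∑ a)^2 ≤ |W| ∑ a^2`, i.e.
`4 (t^2-1)^2 ≤ (3 t - 2) ((t + 1) t (t - 1) + 2 (t^2 - 1)) = (3 t - 2) (t^2 - 1) (t + 2)`.
For `t ≥ 2` divide by `t^2 - 1 > 0`: `4 (t^2 - 1) ≤ (3 t - 2) (t + 2) = 3 t^2 + 4 t - 4`, so
`t ≤ 4`.

`graph_bound`: if some vertex `a` is joined to all others, `card α = 1 + deg a ≤ 27`. Otherwise
`GQ.regular` and `GQ.higman` give `card α = 6 t + 3 ≤ 27`.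
-/

namespace Pool.Agent.P28

private theorem ncard_filter {α : Type} [Fintype α] (p : α → Prop) [DecidablePred p] :
    {b | p b}.ncard = (Finset.univ.filter p).card := by
  rw [← Set.ncard_coe_finset]
  congr 1
  ext b
  simp

section

variable {α : Type} [Fintype α] {R : α → α → Prop}

/-- the neighbours of a common neighbour `z` of `x` and `y` -/
private theorem nb_one (h : GQ R) {x y z : α} (hne : x ≠ y) (hxy : ¬ R x y) (hxz : R x z)
    (hyz : R y z) : ∃ x' y' : α, x ≠ x' ∧ x ≠ y' ∧ y ≠ x' ∧ y ≠ y' ∧ x' ≠ y' ∧ R z x' ∧ R z y' ∧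
      R x x' ∧ R y y' ∧
      (∀ w, R z w → w ≠ x → w ≠ x' → ¬ R x w) ∧ (∀ w, R z w → w ≠ y → w ≠ y' → ¬ R y w) ∧
      (∀ w, ¬ R z w → R x w → w ≠ z → w ≠ x → ¬ R x' w) ∧
      (∀ w, ¬ R z w → R y w → w ≠ z → w ≠ y → ¬ R y' w) := by
  obtain ⟨x', h1, h2, h3⟩ := h.tri z x (h.symm _ _ hxz)
  obtain ⟨y', h4, h5, h6⟩ := h.tri z y (h.symm _ _ hyz)
  have hxx' : x ≠ x' := fun e => h.irr x (by rw [← e] at h2; exact h2)
  have hyy' : y ≠ y' := fun e => h.irr y (by rw [← e] at h5; exact h5)
  have hyx' : y ≠ x' := fun e => hxy (by rw [e]; exact h2)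
  have hxy' : x ≠ y' := fun e => hxy (h.symm _ _ (by rw [e]; exact h5))
  have hyz' : y ≠ z := fun e => h.irr z (by rw [e] at hyz; exact hyz)
  have hxz' : x ≠ z := fun e => h.irr z (by rw [e] at hxz; exact hxz)
  refine ⟨x', y', hxx', hxy', hyx', hyy', ?_, h1, h4, h2, h5, ?_, ?_, ?_, ?_⟩
  · intro e
    rcases h3 y hyz' hne.symm hyx' with h7 | h7 | h7
    · rw [e] at h7
      exact h7.2.2 h5
    · exact h7.1 hyz
    · exact h7.1 hyz
  · intro w hw hwx hwx' hxw
    have hwz : w ≠ z := fun e => h.irr z (by rw [e] at hw; exact hw)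
    rcases h3 w hwz hwx hwx' with h7 | h7 | h7
    · exact h7.2.1 (h.symm _ _ hxw)
    · exact h7.1 (h.symm _ _ hw)
    · exact h7.1 (h.symm _ _ hw)
  · intro w hw hwx hwx' hxw
    have hwz : w ≠ z := fun e => h.irr z (by rw [e] at hw; exact hw)
    rcases h6 w hwz hwx hwx' with h7 | h7 | h7
    · exact h7.2.1 (h.symm _ _ hxw)
    · exact h7.1 (h.symm _ _ hw)
    · exact h7.1 (h.symm _ _ hw)
  · intro w hw hxw hwz hwx hx'w
    by_cases hwx' : w = x'
    · rw [hwx'] at hx'w
      exact h.irr _ hx'w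
    rcases h3 w hwz hwx hwx' with h7 | h7 | h7
    · exact h7.2.2 (h.symm _ _ hx'w)
    · exact h7.2.2 (h.symm _ _ hx'w)
    · exact h7.2.1 (h.symm _ _ hxw)
  · intro w hw hxw hwz hwx hx'w
    by_cases hwx' : w = y'
    · rw [hwx'] at hx'w
      exact h.irr _ hx'w
    rcases h6 w hwz hwx hwx' with h7 | h7 | h7
    · exact h7.2.2 (h.symm _ _ hx'w)
    · exact h7.2.2 (h.symm _ _ hx'w)
    · exact h7.2.1 (h.symm _ _ hxw)

open Classical in
/-- the set of the vertices not joined to `x` and `y` -/
private noncomputable def WW (R : α → α → Prop) (x y : α) : Finset α :=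
  Finset.univ.filter fun w => w ≠ x ∧ w ≠ y ∧ ¬ R x w ∧ ¬ R y w

private theorem mem_WW {x y w : α} :
    w ∈ WW R x y ↔ w ≠ x ∧ w ≠ y ∧ ¬ R x w ∧ ¬ R y w := by
  classical
  unfold WW
  rw [Finset.mem_filter]
  simp only [Finset.mem_univ, true_and]

open Classical in
private theorem card_one (h : GQ R) {x y z : α} (hne : x ≠ y) (hxy : ¬ R x y) (hxz : R x z)
    (hyz : R y z) :
    ((WW R x y).filter (R z)).card + 4 = (Finset.univ.filter (R z)).card := by
  obtain ⟨x', y', d1, d2, d3, d4, d5, n1, n2, n3, n4, f1, f2, -, -⟩ :=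
    nb_one h hne hxy hxz hyz
  have h4 : ({x, x', y, y'} : Finset α).card = 4 := by
    rw [Finset.card_insert_of_notMem, Finset.card_insert_of_notMem,
      Finset.card_insert_of_notMem, Finset.card_singleton]
    · rw [Finset.mem_singleton]
      exact d4
    · rw [Finset.mem_insert, Finset.mem_singleton, not_or]
      exact ⟨d3.symm, d5⟩
    · rw [Finset.mem_insert, Finset.mem_insert, Finset.mem_singleton, not_or, not_or]
      exact ⟨d1, hne, d2⟩
  rw [← h4, ← Finset.card_union_of_disjoint]
  · congr 1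
    ext w
    rw [Finset.mem_union, Finset.mem_filter, Finset.mem_filter, mem_WW]
    simp only [Finset.mem_insert, Finset.mem_singleton, Finset.mem_univ, true_and]
    constructor
    · rintro (h1 | rfl | rfl | rfl | rfl)
      · exact h1.2
      · exact h.symm _ _ hxz
      · exact n1
      · exact h.symm _ _ hyz
      · exact n2
    · intro hw
      by_cases e1 : w = x
      · exact Or.inr (Or.inl e1)
      by_cases e2 : w = x'
      · exact Or.inr (Or.inr (Or.inl e2))
      by_cases e3 : w = y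
      · exact Or.inr (Or.inr (Or.inr (Or.inl e3)))
      by_cases e4 : w = y'
      · exact Or.inr (Or.inr (Or.inr (Or.inr e4)))
      exact Or.inl ⟨⟨e1, e3, f1 w hw e1 e2, f2 w hw e3 e4⟩, hw⟩
  · rw [Finset.disjoint_left]
    intro w hw hw'
    rw [Finset.mem_filter, mem_WW] at hw
    obtain ⟨⟨g1, g2, g3, g4⟩, -⟩ := hw
    simp only [Finset.mem_insert, Finset.mem_singleton] at hw'
    rcases hw' with rfl | rfl | rfl | rfl
    · exact g1 rfl
    · exact g3 n3
    · exact g2 rfl
    · exact g4 n4

private theorem not_joined (h : GQ R) {x y z z' : α} (hne : x ≠ y) (hxz : R x z) (hyz : R y z)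
    (hxz' : R x z') (hyz' : R y z') : ¬ R z z' := fun h1 =>
  hne (h.unique h1 (h.symm _ _ hxz) (h.symm _ _ hxz') (h.symm _ _ hyz) (h.symm _ _ hyz'))

open Classical in
private theorem card_two (h : GQ R) {x y z z' : α} (hne : x ≠ y) (hxy : ¬ R x y) (hxz : R x z)
    (hyz : R y z) (hxz' : R x z') (hyz' : R y z') (hzz : z ≠ z') :
    ((WW R x y).filter fun w => R z w ∧ R z' w).card + 2 =
      (Finset.univ.filter fun w => R z w ∧ R z' w).card := by
  obtain ⟨x', y', d1, d2, d3, d4, d5, n1, n2, n3, n4, f1, f2, f3, f4⟩ :=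
    nb_one h hne hxy hxz hyz
  have hnz := not_joined h hne hxz hyz hxz' hyz'
  have hx'z' : ¬ R x' z' := f3 z' hnz hxz' hzz.symm
    (fun e => h.irr x (by rw [e] at hxz'; exact hxz'))
  have hy'z' : ¬ R y' z' := f4 z' hnz hyz' hzz.symm
    (fun e => h.irr y (by rw [e] at hyz'; exact hyz'))
  have h4 : ({x, y} : Finset α).card = 2 := Finset.card_pair hne
  rw [← h4, ← Finset.card_union_of_disjoint]
  · congr 1
    ext w
    rw [Finset.mem_union, Finset.mem_filter, Finset.mem_filter, mem_WW]
    simp only [Finset.mem_insert, Finset.mem_singleton, Finset.mem_univ, true_and]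
    constructor
    · rintro (h1 | rfl | rfl)
      · exact h1.2
      · exact ⟨h.symm _ _ hxz, h.symm _ _ hxz'⟩
      · exact ⟨h.symm _ _ hyz, h.symm _ _ hyz'⟩
    · rintro ⟨hw, hw'⟩
      by_cases e1 : w = x
      · exact Or.inr (Or.inl e1)
      by_cases e3 : w = y
      · exact Or.inr (Or.inr e3)
      have e2 : w ≠ x' := fun e => hx'z' (h.symm _ _ (by rw [← e]; exact hw'))
      have e4 : w ≠ y' := fun e => hy'z' (h.symm _ _ (by rw [← e]; exact hw'))
      exact Or.inl ⟨⟨e1, e3, f1 w hw e1 e2, f2 w hw e3 e4⟩, hw, hw'⟩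
  · rw [Finset.disjoint_left]
    intro w hw hw'
    rw [Finset.mem_filter, mem_WW] at hw
    simp only [Finset.mem_insert, Finset.mem_singleton] at hw'
    rcases hw' with rfl | rfl
    · exact hw.1.1 rfl
    · exact hw.1.2.1 rfl

open Classical in
private theorem card_WW (h : GQ R) {x y : α} (hne : x ≠ y) (hxy : ¬ R x y) :
    (WW R x y).card + (Finset.univ.filter (R x)).card + (Finset.univ.filter (R y)).card + 2 =
      Fintype.card α + (Finset.univ.filter fun z => R x z ∧ R y z).card := by
  have h1 : (Finset.univ.filter (R x) ∪ Finset.univ.filter (R y)).card +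
      (Finset.univ.filter fun z => R x z ∧ R y z).card =
      (Finset.univ.filter (R x)).card + (Finset.univ.filter (R y)).card := by
    rw [Finset.filter_and, Finset.card_union_add_card_inter]
  have h2 : ((WW R x y) ∪ (Finset.univ.filter (R x) ∪ Finset.univ.filter (R y)) ∪ {x, y}).card =
      (WW R x y).card + (Finset.univ.filter (R x) ∪ Finset.univ.filter (R y)).card + 2 := by
    rw [Finset.card_union_of_disjoint, Finset.card_union_of_disjoint, Finset.card_pair hne]
    · rw [Finset.disjoint_left]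
      intro w hw hw'
      rw [mem_WW] at hw
      rw [Finset.mem_union, Finset.mem_filter, Finset.mem_filter] at hw'
      rcases hw' with hw' | hw'
      · exact hw.2.2.1 hw'.2
      · exact hw.2.2.2 hw'.2
    · rw [Finset.disjoint_left]
      intro w hw hw'
      rw [Finset.mem_insert, Finset.mem_singleton] at hw'
      rw [Finset.mem_union, Finset.mem_union, Finset.mem_filter, Finset.mem_filter, mem_WW] at hw
      rcases hw' with rfl | rfl
      · rcases hw with hw | hw | hw
        · exact hw.1 rfl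
        · exact h.irr _ hw.2
        · exact hxy (h.symm _ _ hw.2)
      · rcases hw with hw | hw | hw
        · exact hw.2.1 rfl
        · exact hxy hw.2
        · exact h.irr _ hw.2
  have h3 : (WW R x y) ∪ (Finset.univ.filter (R x) ∪ Finset.univ.filter (R y)) ∪ {x, y} =
      Finset.univ := by
    rw [Finset.eq_univ_iff_forall]
    intro w
    rw [Finset.mem_union, Finset.mem_union, Finset.mem_union, Finset.mem_filter,
      Finset.mem_filter, mem_WW, Finset.mem_insert, Finset.mem_singleton]
    simp only [Finset.mem_univ, true_and]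
    tauto
  rw [h3, Finset.card_univ] at h2
  omega

end

theorem GQ.higman {α : Type} [Fintype α] {R : α → α → Prop} (h : GQ R) (t : ℕ) (ht : 1 ≤ t)
    (hd : ∀ a, {b | R a b}.ncard = 2 * (t + 1)) (hc : Fintype.card α = 6 * t + 3)
    (hu : ∀ a, ∃ b, b ≠ a ∧ ¬ R a b) : t ≤ 4 := by
  classical
  by_contra hcon
  have hpos : 0 < Fintype.card α := by omega
  obtain ⟨x⟩ : Nonempty α := Fintype.card_pos_iff.1 hpos
  obtain ⟨y, hyx, hxy⟩ := hu x
  have hne : x ≠ y := hyx.symm
  have hdeg : ∀ a, (Finset.univ.filter (R a)).card = 2 * (t + 1) := fun a => by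
    rw [← hd a, ncard_filter]
  have hcm : ∀ a b, a ≠ b → ¬ R a b →
      (Finset.univ.filter fun z => R a z ∧ R b z).card = t + 1 := by
    intro a b hab hR
    have h1 := h.common hab hR
    rw [hd a, ncard_filter] at h1
    omega
  set K : Finset α := Finset.univ.filter fun z => R x z ∧ R y z with hK
  have hKc : K.card = t + 1 := hcm x y hne hxy
  have hWc : (WW R x y).card + 2 = 3 * t := by
    have h1 := card_WW h hne hxy
    rw [hdeg, hdeg, hc, ← hK, hKc] at h1
    omega
  have hmK : ∀ z, z ∈ K ↔ R x z ∧ R y z := fun z => by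
    rw [hK, Finset.mem_filter]
    simp only [Finset.mem_univ, true_and]
  let f : α → ℤ := fun w => ∑ z ∈ K, if R z w then 1 else 0
  -- the first moment
  have hs1 : ∑ w ∈ WW R x y, f w = ((t : ℤ) + 1) * (2 * t - 2) := by
    have e1 : ∑ w ∈ WW R x y, f w = ∑ z ∈ K, (((WW R x y).filter (R z)).card : ℤ) := by
      change ∑ w ∈ WW R x y, ∑ z ∈ K, (if R z w then (1 : ℤ) else 0) = _
      rw [Finset.sum_comm]
      refine Finset.sum_congr rfl fun z _ => ?_
      rw [Finset.sum_boole]
    rw [e1, Finset.sum_congr rfl (g := fun _ => (2 * (t : ℤ) - 2)), Finset.sum_const, hKc,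
      nsmul_eq_mul]
    · push_cast
      ring
    · intro z hz
      have h1 := card_one h hne hxy ((hmK z).1 hz).1 ((hmK z).1 hz).2
      rw [hdeg] at h1
      have h2 : ((((WW R x y).filter (R z)).card : ℕ) : ℤ) + 4 = 2 * (t + 1) := by
        exact_mod_cast h1
      linarith
  -- the second moment
  have hs2 : ∑ w ∈ WW R x y, f w ^ 2 = ((t : ℤ) + 1) * ((2 * t - 2) + t * (t - 1)) := by
    have e1 : ∑ w ∈ WW R x y, f w ^ 2 = ∑ z ∈ K, ∑ z' ∈ K,
        ((((WW R x y).filter fun w => R z w ∧ R z' w).card : ℕ) : ℤ) := by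
      have e2 : ∀ w, f w ^ 2 = ∑ z ∈ K, ∑ z' ∈ K, if (R z w ∧ R z' w) then (1 : ℤ) else 0 := by
        intro w
        change (∑ z ∈ K, if R z w then (1 : ℤ) else 0) ^ 2 = _
        rw [sq, Finset.sum_mul_sum]
        refine Finset.sum_congr rfl fun z _ => Finset.sum_congr rfl fun z' _ => ?_
        by_cases h1 : R z w <;> by_cases h2 : R z' w <;> simp [h1, h2]
      rw [Finset.sum_congr rfl fun w _ => e2 w, Finset.sum_comm]
      refine Finset.sum_congr rfl fun z _ => ?_
      rw [Finset.sum_comm]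
      refine Finset.sum_congr rfl fun z' _ => ?_
      rw [Finset.sum_boole]
    rw [e1, Finset.sum_congr rfl (g := fun _ => ((2 * (t : ℤ) - 2) + t * (t - 1))),
      Finset.sum_const, hKc, nsmul_eq_mul]
    · push_cast
      ring
    · intro z hz
      rw [← Finset.add_sum_erase K _ hz, Finset.sum_congr rfl (g := fun _ => ((t : ℤ) - 1)),
        Finset.sum_const, Finset.card_erase_of_mem hz, hKc, nsmul_eq_mul]
      · have h1 := card_one h hne hxy ((hmK z).1 hz).1 ((hmK z).1 hz).2
        rw [hdeg] at h1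
        have h2 : ((((WW R x y).filter (R z)).card : ℕ) : ℤ) + 4 = 2 * (t + 1) := by
          exact_mod_cast h1
        have h3 : ((WW R x y).filter fun w => R z w ∧ R z w) = (WW R x y).filter (R z) := by
          refine Finset.filter_congr fun w _ => ?_
          rw [and_self_iff]
        rw [h3, Nat.add_sub_cancel]
        linarith
      · intro z' hz'
        obtain ⟨hz'1, hz'2⟩ := Finset.mem_erase.1 hz'
        have h1 := card_two h hne hxy ((hmK z).1 hz).1 ((hmK z).1 hz).2 ((hmK z').1 hz'2).1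
          ((hmK z').1 hz'2).2 hz'1.symm
        rw [hcm z z' hz'1.symm (not_joined h hne ((hmK z).1 hz).1 ((hmK z).1 hz).2
          ((hmK z').1 hz'2).1 ((hmK z').1 hz'2).2)] at h1
        have h2 : ((((WW R x y).filter fun w => R z w ∧ R z' w).card : ℕ) : ℤ) + 2 = t + 1 := by
          exact_mod_cast h1
        linarith
  have hcs := sq_sum_le_card_mul_sum_sq (s := WW R x y) (f := f)
  rw [hs1, hs2] at hcs
  have hW' : (((WW R x y).card : ℕ) : ℤ) = 3 * t - 2 := by
    have h1 : (((WW R x y).card : ℕ) : ℤ) + 2 = 3 * t := by exact_mod_cast hWc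
    linarith
  rw [hW'] at hcs
  have ht5 : (5 : ℤ) ≤ t := by
    have : 5 ≤ t := by omega
    exact_mod_cast this
  have key : ((t : ℤ) + 1) * (t - 1) * (t * (t - 4)) ≤ 0 := by nlinarith [hcs]
  have p1 : 0 < ((t : ℤ) + 1) * (t - 1) := mul_pos (by linarith) (by linarith)
  have p2 : 0 < (t : ℤ) * (t - 4) := mul_pos (by linarith) (by linarith)
  exact absurd (mul_pos p1 p2) (not_lt.2 key)

theorem graph_bound {α : Type} [Fintype α] {R : α → α → Prop} (h : GQ R)
    (hd : ∀ a, {b | R a b}.ncard ≤ 26) (he : ∃ a b, R a b) : Fintype.card α ≤ 27 := by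
  classical
  by_cases hu : ∀ a, ∃ b, b ≠ a ∧ ¬ R a b
  · obtain ⟨t, ht, hdeg, hc⟩ := h.regular hu he
    have h1 := h.higman t ht hdeg hc hu
    omega
  · push Not at hu
    obtain ⟨a, ha⟩ := hu
    have h1 := hd a
    rw [ncard_filter] at h1
    have h2 : (Finset.univ : Finset α) = insert a (Finset.univ.filter (R a)) := by
      ext b
      rw [Finset.mem_insert, Finset.mem_filter]
      simp only [Finset.mem_univ, true_and, true_iff]
      by_cases hb : b = a
      · exact Or.inl hb
      · exact Or.inr (ha b hb)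
    rw [← Finset.card_univ, h2]
    exact (Finset.card_insert_le _ _).trans (by omega)

end Pool.Agent.P28
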