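import Pool.Agent.P28.BDefs

set_option autoImplicit false

/-!
# P28: two disjoint planes, the surface and the lines

`C` is a cubic on `VV = ℂ^3 × ℂ^3` containing the two planes `{(a, 0)}` and `{(0, b)}`. The
surface is `S = {(a, b) : gg a a b = 0 = hh a b b}` in `P^2 x P^2`. For two points `s, s'` of the
surface the residual line `Lv s s'` is given in the coordinates
`(s1 a + s2 a', t1 b + t2 b')` by the two linear equations `AA = 0 = BB`.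
-/

namespace Pool.Agent.P28

open Module

/-- The pulled back cubic. -/
def Cub.comp {V W : Type} [AddCommGroup V] [Module ℂ V] [AddCommGroup W] [Module ℂ W]
    (C : Cub W) (G : V →ₗ[ℂ] W) : Cub V where
  T := (C.T.comp G).compr₂ (LinearMap.lcomp ℂ ℂ G) |>.compl₂ G
  sw := fun _ _ _ => C.sw _ _ _
  cy := fun _ _ _ => C.cy _ _ _

theorem comp_T {V W : Type} [AddCommGroup V] [Module ℂ V] [AddCommGroup W] [Module ℂ W]
    (C : Cub W) (G : V →ₗ[ℂ] W) (x y z : V) :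
    (C.comp G).T x y z = C.T (G x) (G y) (G z) := rfl

/-- The cubic contains the two standard planes. -/
def Std2 (C : Cub VV) : Prop := Std C ∧ ∀ x y z : Fin 3 → ℂ, C.T (0, x) (0, y) (0, z) = 0

/-- `T a a' b`. -/
def gg (C : Cub VV) (a a' b : Fin 3 → ℂ) : ℂ := C.T (a, 0) (a', 0) (0, b)

/-- `T a b b'`. -/
def hh (C : Cub VV) (a b b' : Fin 3 → ℂ) : ℂ := C.T (a, 0) (0, b) (0, b')

/-- `s` is a point of the surface. -/
def SP (C : Cub VV) (s : VV) : Prop :=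
  s.1 ≠ 0 ∧ s.2 ≠ 0 ∧ gg C s.1 s.1 s.2 = 0 ∧ hh C s.1 s.2 s.2 = 0

/-- The same point of `P^2 x P^2`. -/
def Sm (s s' : VV) : Prop := (∃ c : ℂ, c ≠ 0 ∧ s'.1 = c • s.1) ∧ ∃ d : ℂ, d ≠ 0 ∧ s'.2 = d • s.2

/-- First linear form. -/
def AA (C : Cub VV) (s s' : VV) (p1 p2 q1 q2 : ℂ) : ℂ :=
  gg C s.1 s.1 s'.2 * p1 + 2 * gg C s.1 s'.1 s'.2 * p2 + 2 * hh C s.1 s.2 s'.2 * q1 +
    hh C s.1 s'.2 s'.2 * q2

/-- Second linear form. -/
def BB (C : Cub VV) (s s' : VV) (p1 p2 q1 q2 : ℂ) : ℂ :=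
  2 * gg C s.1 s'.1 s.2 * p1 + gg C s'.1 s'.1 s.2 * p2 + hh C s'.1 s.2 s.2 * q1 +
    2 * hh C s'.1 s.2 s'.2 * q2

/-- First determinant. -/
def d1 (C : Cub VV) (s s' : VV) : ℂ :=
  gg C s.1 s.1 s'.2 * gg C s'.1 s'.1 s.2 - 4 * gg C s.1 s'.1 s'.2 * gg C s.1 s'.1 s.2

/-- Second determinant. -/
def d2 (C : Cub VV) (s s' : VV) : ℂ :=
  4 * hh C s.1 s.2 s'.2 * hh C s'.1 s.2 s'.2 - hh C s.1 s'.2 s'.2 * hh C s'.1 s.2 s.2

/-- Third determinant. -/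
def d3 (C : Cub VV) (s s' : VV) : ℂ :=
  gg C s.1 s.1 s'.2 * hh C s'.1 s.2 s.2 - 4 * hh C s.1 s.2 s'.2 * gg C s.1 s'.1 s.2

/-- The condition on pairs of points (as a product). -/
def GG (C : Cub VV) (s s' : VV) : ℂ :=
  gg C s.1 s.1 s'.2 * gg C s'.1 s'.1 s.2 * hh C s.1 s'.2 s'.2 * hh C s'.1 s.2 s.2 *
    d1 C s s' * d2 C s s' * d3 C s s' * d3 C s' s

/-- First vector of the residual line. -/
def xv (C : Cub VV) (s s' : VV) : VV :=
  ((-(2 * gg C s'.1 s'.1 s.2 * hh C s.1 s.2 s'.2 -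
        2 * gg C s.1 s'.1 s'.2 * hh C s'.1 s.2 s.2)) • s.1 +
    (-(gg C s.1 s.1 s'.2 * hh C s'.1 s.2 s.2 - 4 * gg C s.1 s'.1 s.2 * hh C s.1 s.2 s'.2)) • s'.1,
   d1 C s s' • s.2)

/-- Second vector of the residual line. -/
def yv (C : Cub VV) (s s' : VV) : VV :=
  ((-(gg C s'.1 s'.1 s.2 * hh C s.1 s'.2 s'.2 -
        4 * gg C s.1 s'.1 s'.2 * hh C s'.1 s.2 s'.2)) • s.1 +
    (-(2 * gg C s.1 s.1 s'.2 * hh C s'.1 s.2 s'.2 -
        2 * gg C s.1 s'.1 s.2 * hh C s.1 s'.2 s'.2)) • s'.1,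
   d1 C s s' • s'.2)

/-- The residual line. -/
def Lv (C : Cub VV) (s s' : VV) : Submodule ℂ VV := Submodule.span ℂ {xv C s s', yv C s s'}

/-- The line `L` is contained in the hypersurface. -/
def CLine (C : Cub VV) (L : Submodule ℂ VV) : Prop := finrank ℂ L = 2 ∧ ∀ v ∈ L, C.T v v v = 0

/-- The discriminant of two binary quadratic forms: the resultant. -/
def Rs22 {R : Type} [CommRing R] (u v : Fin 3 → R) : R :=
  (u 0 * v 2 - u 2 * v 0) ^ 2 - (u 0 * v 1 - u 1 * v 0) * (u 1 * v 2 - u 2 * v 1)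

/-- The resultant of a binary quadratic and a binary cubic form. -/
def Rs23 {R : Type} [CommRing R] (q : Fin 3 → R) (f : Fin 4 → R) : R :=
  Matrix.det !![q 0, q 1, q 2, 0, 0;
    0, q 0, q 1, q 2, 0;
    0, 0, q 0, q 1, q 2;
    f 0, f 1, f 2, f 3, 0;
    0, f 0, f 1, f 2, f 3]

/-- Binary quadratic form. -/
def bq (u : Fin 3 → ℂ) (p q : ℂ) : ℂ := u 0 * p ^ 2 + u 1 * (p * q) + u 2 * q ^ 2

/-- Binary cubic form. -/
def bc (f : Fin 4 → ℂ) (p q : ℂ) : ℂ :=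
  f 0 * p ^ 3 + f 1 * (p ^ 2 * q) + f 2 * (p * q ^ 2) + f 3 * q ^ 3

/-- `T a a x.2` for `a = p x.1 + q y.1`. -/
def uu (C : Cub VV) (x y : VV) : Fin 3 → ℂ :=
  ![gg C x.1 x.1 x.2, 2 * gg C x.1 y.1 x.2, gg C y.1 y.1 x.2]

/-- `T a a y.2` for `a = p x.1 + q y.1`. -/
def vv (C : Cub VV) (x y : VV) : Fin 3 → ℂ :=
  ![gg C x.1 x.1 y.2, 2 * gg C x.1 y.1 y.2, gg C y.1 y.1 y.2]

/-- `T x.1 b b` for `b = p x.2 + q y.2`. -/
def uh (C : Cub VV) (x y : VV) : Fin 3 → ℂ :=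
  ![hh C x.1 x.2 x.2, 2 * hh C x.1 x.2 y.2, hh C x.1 y.2 y.2]

/-- `T y.1 b b` for `b = p x.2 + q y.2`. -/
def vh (C : Cub VV) (x y : VV) : Fin 3 → ℂ :=
  ![hh C y.1 x.2 x.2, 2 * hh C y.1 x.2 y.2, hh C y.1 y.2 y.2]

/-- The cubic `T a a (phi a)`, where `phi x.1 = x.2`, `phi y.1 = y.2`. -/
def ff (C : Cub VV) (x y : VV) : Fin 4 → ℂ :=
  ![uu C x y 0, uu C x y 1 + vv C x y 0, uu C x y 2 + vv C x y 1, vv C x y 2]

/-- The quadratic form whose zeros are the two points. -/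
def qq (C : Cub VV) (x y : VV) : Fin 3 → ℂ :=
  ![-(vv C x y 0) ^ 2 - 2 * vv C x y 0 * hh C x.1 x.2 y.2 -
      uu C x y 0 * (2 * hh C y.1 x.2 y.2 + uu C x y 2 + vv C x y 1),
    -(vv C x y 0 * vv C x y 1) - uu C x y 1 * uu C x y 2 - uu C x y 1 * vv C x y 1 -
      2 * hh C x.1 x.2 y.2 * vv C x y 1 - 2 * hh C y.1 x.2 y.2 * uu C x y 1 -
      uu C x y 0 * vv C x y 2 + uu C x y 2 * vv C x y 0,
    -(uu C x y 2) ^ 2 - 2 * uu C x y 2 * hh C y.1 x.2 y.2 -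
      vv C x y 2 * (2 * hh C x.1 x.2 y.2 + uu C x y 1 + vv C x y 0)]

/-- The condition on lines (as a product). -/
def HH (C : Cub VV) (x y : VV) : ℂ :=
  Rs22 (uu C x y) (vv C x y) * Rs22 (uh C x y) (vh C x y) *
    (qq C x y 1 ^ 2 - 4 * qq C x y 0 * qq C x y 2) * Rs23 (qq C x y) (ff C x y)

/-- The open set of lines. -/
def OpenV (C : Cub VV) (L : Submodule ℂ VV) : Prop :=
  ∃ x y : VV, L = Submodule.span ℂ {x, y} ∧ HH C x y ≠ 0

section basic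

variable (C : Cub VV)

theorem gg_symm (a a' b : Fin 3 → ℂ) : gg C a a' b = gg C a' a b := C.sw _ _ _

theorem hh_symm (a b b' : Fin 3 → ℂ) : hh C a b b' = hh C a b' b := C.cy _ _ _

theorem gg_add_l (a c a' b : Fin 3 → ℂ) : gg C (a + c) a' b = gg C a a' b + gg C c a' b := by
  have e : ((a + c, 0) : VV) = (a, 0) + (c, 0) := by rw [Prod.mk_add_mk, add_zero]
  rw [gg, e, map_add]; rfl

theorem gg_add_m (a a' c b : Fin 3 → ℂ) : gg C a (a' + c) b = gg C a a' b + gg C a c b := by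
  rw [gg_symm, gg_add_l, gg_symm C a', gg_symm C c]

theorem gg_add_r (a a' b c : Fin 3 → ℂ) : gg C a a' (b + c) = gg C a a' b + gg C a a' c := by
  have e : ((0, b + c) : VV) = (0, b) + (0, c) := by rw [Prod.mk_add_mk, add_zero]
  rw [gg, e, map_add]; rfl

theorem gg_smul_l (t : ℂ) (a a' b : Fin 3 → ℂ) : gg C (t • a) a' b = t * gg C a a' b := by
  have e : ((t • a, 0) : VV) = t • (a, 0) := by rw [Prod.smul_mk, smul_zero]
  rw [gg, e, map_smul]; rfl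

theorem gg_smul_m (t : ℂ) (a a' b : Fin 3 → ℂ) : gg C a (t • a') b = t * gg C a a' b := by
  rw [gg_symm, gg_smul_l, gg_symm]

theorem gg_smul_r (t : ℂ) (a a' b : Fin 3 → ℂ) : gg C a a' (t • b) = t * gg C a a' b := by
  have e : ((0, t • b) : VV) = t • (0, b) := by rw [Prod.smul_mk, smul_zero]
  rw [gg, e, map_smul]; rfl

theorem hh_add_l (a c b b' : Fin 3 → ℂ) : hh C (a + c) b b' = hh C a b b' + hh C c b b' := by
  have e : ((a + c, 0) : VV) = (a, 0) + (c, 0) := by rw [Prod.mk_add_mk, add_zero]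
  rw [hh, e, map_add]; rfl

theorem hh_add_m (a b c b' : Fin 3 → ℂ) : hh C a (b + c) b' = hh C a b b' + hh C a c b' := by
  have e : ((0, b + c) : VV) = (0, b) + (0, c) := by rw [Prod.mk_add_mk, add_zero]
  rw [hh, e, map_add]; rfl

theorem hh_add_r (a b b' c : Fin 3 → ℂ) : hh C a b (b' + c) = hh C a b b' + hh C a b c := by
  rw [hh_symm, hh_add_m, hh_symm C a b', hh_symm C a c]

theorem hh_smul_l (t : ℂ) (a b b' : Fin 3 → ℂ) : hh C (t • a) b b' = t * hh C a b b' := by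
  have e : ((t • a, 0) : VV) = t • (a, 0) := by rw [Prod.smul_mk, smul_zero]
  rw [hh, e, map_smul]; rfl

theorem hh_smul_m (t : ℂ) (a b b' : Fin 3 → ℂ) : hh C a (t • b) b' = t * hh C a b b' := by
  have e : ((0, t • b) : VV) = t • (0, b) := by rw [Prod.smul_mk, smul_zero]
  rw [hh, e, map_smul]; rfl

theorem hh_smul_r (t : ℂ) (a b b' : Fin 3 → ℂ) : hh C a b (t • b') = t * hh C a b b' := by
  rw [hh_symm, hh_smul_m, hh_symm]

variable {C}

/-- The trilinear form in terms of `gg` and `hh`. -/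
theorem T_eq (h : Std2 C) (a b a' b' a'' b'' : Fin 3 → ℂ) :
    C.T (a, b) (a', b') (a'', b'') =
      gg C a a' b'' + gg C a a'' b' + gg C a' a'' b +
        (hh C a b' b'' + hh C a' b b'' + hh C a'' b b') := by
  have e : ∀ x y : Fin 3 → ℂ, ((x, y) : VV) = (x, 0) + (0, y) := by
    intro x y
    rw [Prod.mk_add_mk, add_zero, zero_add]
  rw [e a b, e a' b', e a'' b'']
  simp only [map_add, LinearMap.add_apply]
  rw [h.1 a a' a'', h.2 b b' b'']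
  have e1 : C.T (a, 0) (0, b') (a'', 0) = gg C a a'' b' := C.cy _ _ _
  have e2 : C.T (0, b) (a', 0) (a'', 0) = gg C a' a'' b := by
    rw [C.rot]; rfl
  have e3 : C.T (0, b) (a', 0) (0, b'') = hh C a' b b'' := C.sw _ _ _
  have e4 : C.T (0, b) (0, b') (a'', 0) = hh C a'' b b' := by
    rw [C.rot, C.rot]; rfl
  rw [e1, e2, e3, e4]
  change 0 + gg C a' a'' b + (gg C a a'' b' + hh C a'' b b') +
    (gg C a a' b'' + hh C a' b b'' + (hh C a b' b'' + 0)) = _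
  ring

/-- The cubic form. -/
theorem F_eq (h : Std2 C) (a b : Fin 3 → ℂ) :
    C.T (a, b) (a, b) (a, b) = 3 * (gg C a a b + hh C a b b) := by
  rw [T_eq h]
  ring

/-- The gradient. -/
theorem grad_eq (h : Std2 C) (a b a' b' : Fin 3 → ℂ) :
    C.T (a, b) (a, b) (a', b') =
      2 * gg C a a' b + hh C a' b b + (gg C a a b' + 2 * hh C a b b') := by
  rw [T_eq h]
  ring

/-- On the span of two points of the surface. -/
theorem span_eq (h : Std2 C) {s s' : VV} (hs : SP C s) (hs' : SP C s') (p1 p2 q1 q2 : ℂ) :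
    C.T (p1 • s.1 + p2 • s'.1, q1 • s.2 + q2 • s'.2)
      (p1 • s.1 + p2 • s'.1, q1 • s.2 + q2 • s'.2)
      (p1 • s.1 + p2 • s'.1, q1 • s.2 + q2 • s'.2) =
    3 * (p1 * q2 * AA C s s' p1 p2 q1 q2 + p2 * q1 * BB C s s' p1 p2 q1 q2) := by
  rw [F_eq h]
  simp only [gg_add_l, gg_add_m, gg_add_r, gg_smul_l, gg_smul_m, gg_smul_r, hh_add_l, hh_add_m,
    hh_add_r, hh_smul_l, hh_smul_m, hh_smul_r]
  rw [hs.2.2.1, hs.2.2.2, hs'.2.2.1, hs'.2.2.2, gg_symm C s'.1 s.1 s.2, gg_symm C s'.1 s.1 s'.2,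
    hh_symm C s.1 s'.2 s.2, hh_symm C s'.1 s'.2 s.2, AA, BB]
  ring

/-- The quintic is the product of the cubic and the quadratic form. -/
theorem quint (h : Std2 C) {x y : VV}
    (hF : ∀ p q : ℂ, C.T (p • x + q • y) (p • x + q • y) (p • x + q • y) = 0) (p q : ℂ) :
    bq (vv C x y) p q ^ 2 * hh C (p • x.1 + q • y.1) x.2 x.2 -
      2 * bq (uu C x y) p q * bq (vv C x y) p q * hh C (p • x.1 + q • y.1) x.2 y.2 +
      bq (uu C x y) p q ^ 2 * hh C (p • x.1 + q • y.1) y.2 y.2 =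
    bc (ff C x y) p q * bq (qq C x y) p q := by
  have key : ∀ p q : ℂ, gg C x.1 x.1 x.2 * p ^ 3 + hh C x.1 x.2 x.2 * p ^ 3 +
      (2 * gg C x.1 y.1 x.2 + gg C x.1 x.1 y.2 + 2 * hh C x.1 x.2 y.2 + hh C y.1 x.2 x.2) *
        (p ^ 2 * q) +
      (2 * gg C x.1 y.1 y.2 + gg C y.1 y.1 x.2 + 2 * hh C y.1 x.2 y.2 + hh C x.1 y.2 y.2) *
        (p * q ^ 2) + (gg C y.1 y.1 y.2 + hh C y.1 y.2 y.2) * q ^ 3 = 0 := by
    intro p q
    have h1 := hF p q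
    have h2 : p • x + q • y = (p • x.1 + q • y.1, p • x.2 + q • y.2) := rfl
    rw [h2, F_eq h] at h1
    simp only [gg_add_l, gg_add_m, gg_add_r, gg_smul_l, gg_smul_m, gg_smul_r, hh_add_l, hh_add_m,
      hh_add_r, hh_smul_l, hh_smul_m, hh_smul_r] at h1
    rw [gg_symm C y.1 x.1 x.2, gg_symm C y.1 x.1 y.2, hh_symm C x.1 y.2 x.2,
      hh_symm C y.1 y.2 x.2] at h1
    linear_combination (1 / 3 : ℂ) * h1
  have k1 := key 1 0
  have k2 := key 0 1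
  have k3 := key 1 1
  have k4 := key 1 (-1)
  have e0 : hh C x.1 x.2 x.2 = -gg C x.1 x.1 x.2 := by linear_combination k1
  have e3 : hh C y.1 y.2 y.2 = -gg C y.1 y.1 y.2 := by linear_combination k2
  have e1 : hh C y.1 x.2 x.2 = -2 * gg C x.1 y.1 x.2 - gg C x.1 x.1 y.2 -
      2 * hh C x.1 x.2 y.2 := by
    linear_combination (1 / 2 : ℂ) * k3 - (1 / 2 : ℂ) * k4 - k2
  have e2 : hh C x.1 y.2 y.2 = -2 * gg C x.1 y.1 y.2 - gg C y.1 y.1 x.2 -
      2 * hh C y.1 x.2 y.2 := by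
    linear_combination (1 / 2 : ℂ) * k3 + (1 / 2 : ℂ) * k4 - k1
  rw [hh_add_l, hh_add_l, hh_add_l, hh_smul_l, hh_smul_l, hh_smul_l, hh_smul_l, hh_smul_l,
    hh_smul_l, e0, e1, e2, e3]
  simp only [bq, bc, uu, vv, ff, qq, Matrix.cons_val_zero, Matrix.cons_val_one, Matrix.cons_val]
  ring

end basic

end Pool.Agent.P28
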