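import Pool.Agent.P28.Rank2
import Pool.Agent.P28.NormF
import Pool.Agent.P28.BinZ

set_option autoImplicit false

/-!
# P28 B07: special points on a line of the discriminant cubic

`C` smooth, standard position, `NF ka C`. On the line `u = (s, t, 0)`: `A = diag(s, t, 0)`.
Write `b_i = bm C u i`, `c = cm C u`.

(1) `line_special`: if `u ≠ 0`, `u 2 = 0` is special then `b_2 = 0` and
`s t c - s b_1^2 - t b_0^2 = 0`. PROOF: by `spec_rank` the symmetric matrix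
`M = (A, b; b, c) = (p_i q_j + q_i p_j)` (index 3: `p 3 = p'`, `q 3 = q'`) has vanishing 3x3
minors; the principal minors with indices `(1,2,3)`, `(0,2,3)`, `(0,1,3)` are `- t b_2^2`,
`- s b_2^2`, `s t c - s b_1^2 - t b_0^2` (substitute, `ring`), and `(s, t) ≠ 0`.

(2) `line_good`: if `b_2` is not identically 0 on the line: at most 2 special points on it
(`bin_atMost` for the binary quadratic form `b_2(s,t,0)`, i.e. `pb C 2` after the substitution
`X 0, X 1, 0`; `line_atMost`).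

(3) `line_theta`: if `b_2 = 0` on the line then `Th(s,t) = s t c - s b_1^2 - t b_0^2` is not
identically 0. Suppose it is. Put `s = 0`: `t b_0(0,t,0)^2 = 0`, so `b_0(0,t,0) = 0` for all `t`
and `b_0(s,t,0) = s be_0(s,t)` with `be_0` a linear form; in the same way
`b_1(s,t,0) = t be_1(s,t)`. Then `s t c = s t^2 be_1^2 + t s^2 be_0^2`, so
`c(s,t,0) = t be_1^2 + s be_0^2` (first for `s t ≠ 0`, then everywhere, polynomials). For
`y = (x, (s,t,0))`, `T y y y / 3 = x · A x + 2 b · x + c =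
s (x_0 + be_0(s,t))^2 + t (x_1 + be_1(s,t))^2` (`b_2 = 0`). Let
`H = {(x, u) : u 2 = 0}` (dimension 5) and
`M = {(x, u) : u 2 = 0, x_0 + be_0(u_0,u_1) = 0, x_1 + be_1(u_0,u_1) = 0}` (dimension 3). The
polarised identity on `H` (`T y y y = 3 (s X^2 + t Y^2)` with linear forms `s, t, X, Y` on `H`)
gives `T y y z = 0` for `y ∈ M`, `z ∈ H`: against `no_hyper`.

(4) `line_bad`: at most 5 special points on the line: `Th` is a binary form of degree 5.

(5) `line_bad3`: if moreover `b_1 = 0` whenever `u 1 = 0` and `b_0 = 0` whenever `u 0 = 0`, then at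
most 3 special points on the line have `u 0 ≠ 0` and `u 1 ≠ 0`: `b_0(s,t,0) = s be_0`,
`b_1(s,t,0) = t be_1`, `Th = s t (c - s be_0^2 - t be_1^2)`, and the cubic form in brackets is not
`0`.
-/

namespace Pool.Agent.P28

open Module MvPolynomial

private theorem lineA_minor (p q : Fin 3 → ℂ) (p' q' : ℂ) (i j : Fin 3) :
    (p i * q i + q i * p i) * ((p j * q j + q j * p j) * (2 * p' * q') -
      (p j * q' + q j * p') ^ 2) - (p i * q j + q i * p j) *
      ((p i * q j + q i * p j) * (2 * p' * q') - (p j * q' + q j * p') * (p i * q' + q i * p')) +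
      (p i * q' + q i * p') * ((p i * q j + q i * p j) * (p j * q' + q j * p') -
      (p j * q j + q j * p j) * (p i * q' + q i * p')) = 0 := by
  ring

theorem line_special {C : Cub VV} (hs : C.Smooth) (hC : Std C) {ka : ℂ} (hN : NF ka C)
    {u : Fin 3 → ℂ} (hu : u ≠ 0) (h2 : u 2 = 0) (h : Spec C u) :
    bm C u 2 = 0 ∧ u 0 * u 1 * cm C u - u 0 * bm C u 1 ^ 2 - u 1 * bm C u 0 ^ 2 = 0 := by
  obtain ⟨p, q, p', q', ha, hb, hc⟩ := spec_rank C hs hC hu h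
  have hA := hN u
  have e00 : p 0 * q 0 + q 0 * p 0 = u 0 := by rw [← ha 0 0, hA]; simp
  have e11 : p 1 * q 1 + q 1 * p 1 = u 1 := by rw [← ha 1 1, hA]; simp
  have e22 : p 2 * q 2 + q 2 * p 2 = 0 := by rw [← ha 2 2, hA]; simp [h2]
  have e01 : p 0 * q 1 + q 0 * p 1 = 0 := by rw [← ha 0 1, hA]; simp [h2]
  have e02 : p 0 * q 2 + q 0 * p 2 = 0 := by rw [← ha 0 2, hA]; simp
  have e12 : p 1 * q 2 + q 1 * p 2 = 0 := by rw [← ha 1 2, hA]; simp
  have m12 := lineA_minor p q p' q' 1 2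
  have m02 := lineA_minor p q p' q' 0 2
  have m01 := lineA_minor p q p' q' 0 1
  rw [← hc, ← hb 1, ← hb 2, e11, e22, e12] at m12
  rw [← hc, ← hb 0, ← hb 2, e00, e22, e02] at m02
  rw [← hc, ← hb 0, ← hb 1, e00, e11, e01] at m01
  refine ⟨?_, ?_⟩
  · by_cases h0 : u 0 = 0
    · have h1 : u 1 ≠ 0 := by
        intro h1
        apply hu
        ext i
        fin_cases i
        · exact h0
        · exact h1
        · exact h2
      have h3 : u 1 * bm C u 2 ^ 2 = 0 := by linear_combination -m12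
      exact pow_eq_zero_iff (two_ne_zero) |>.1 ((mul_eq_zero.1 h3).resolve_left h1)
    · have h3 : u 0 * bm C u 2 ^ 2 = 0 := by linear_combination -m02
      exact pow_eq_zero_iff (two_ne_zero) |>.1 ((mul_eq_zero.1 h3).resolve_left h0)
  · linear_combination m01

private theorem lineA_poly {d : ℕ} (p : MvPolynomial (Fin 3) ℂ) (hp : p.IsHomogeneous d) :
    ∃ q : MvPolynomial (Fin 2) ℂ, q.IsHomogeneous d ∧
      ∀ v : Fin 2 → ℂ, eval v q = eval ![v 0, v 1, 0] p := by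
  let f : Fin 3 → MvPolynomial (Fin 2) ℂ := ![X 0, X 1, 0]
  refine ⟨aeval f p, ?_, fun v => ?_⟩
  · have hf : ∀ i, (f i).IsHomogeneous 1 := by
      intro i
      fin_cases i
      · exact isHomogeneous_X ℂ 0
      · exact isHomogeneous_X ℂ 1
      · exact isHomogeneous_zero _ _ _
    have := hp.aeval f hf
    rwa [one_mul] at this
  · have h1 : (eval v).comp (aeval f : MvPolynomial (Fin 3) ℂ →ₐ[ℂ] _).toRingHom =
        eval (![v 0, v 1, 0] : Fin 3 → ℂ) := by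
      ext i
      · simp
      · fin_cases i <;> simp [f]
    exact RingHom.congr_fun h1 p

private theorem lineA_vec {u : Fin 3 → ℂ} (h : u 2 = 0) : u = ![u 0, u 1, 0] := by
  ext i
  fin_cases i
  · rfl
  · rfl
  · exact h

theorem line_good {C : Cub VV} (hs : C.Smooth) (hC : Std C) {ka : ℂ} (hN : NF ka C)
    (hb : ∃ u : Fin 3 → ℂ, u 2 = 0 ∧ bm C u 2 ≠ 0) :
    AtMost 2 (fun u => Spec C u ∧ u 2 = 0) := by
  obtain ⟨q, hq, hqe⟩ := lineA_poly (pb C 2) (hom_pb C 2)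
  have hq0 : q ≠ 0 := by
    rintro rfl
    obtain ⟨u, hu2, hu⟩ := hb
    apply hu
    have h1 := hqe ![u 0, u 1]
    rw [map_zero, eval_pb] at h1
    rw [lineA_vec hu2]
    exact h1.symm
  refine line_atMost ((bin_atMost q hq hq0).mono le_rfl fun v hv h => ?_)
  have h1 : (![v 0, v 1, 0] : Fin 3 → ℂ) ≠ 0 := by
    intro h0
    apply hv
    ext i
    fin_cases i
    · exact congrFun h0 0
    · exact congrFun h0 1
  rw [hqe, eval_pb]
  exact (line_special hs hC hN h1 rfl h).1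

private theorem lineA_b (C : Cub VV) (i : Fin 3) : ∃ a b c : ℂ, ∀ u : Fin 3 → ℂ, u 2 = 0 →
    bm C u i = a * u 0 ^ 2 + b * (u 0 * u 1) + c * u 1 ^ 2 := by
  refine ⟨C.T (E i) (Fv 0) (Fv 0) / 2, C.T (E i) (Fv 0) (Fv 1), C.T (E i) (Fv 1) (Fv 1) / 2,
    fun u hu => ?_⟩
  rw [bm, sum_Fv u]
  simp only [Fin.sum_univ_three, map_add, map_smul, LinearMap.add_apply, LinearMap.smul_apply,
    smul_eq_mul, hu, C.cy (E i) (Fv 1) (Fv 0)]
  ring

private theorem lineA_c (C : Cub VV) : ∃ a b c d : ℂ, ∀ u : Fin 3 → ℂ, u 2 = 0 →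
    cm C u = a * u 0 ^ 3 + b * (u 0 ^ 2 * u 1) + c * (u 0 * u 1 ^ 2) + d * u 1 ^ 3 := by
  refine ⟨C.T (Fv 0) (Fv 0) (Fv 0) / 3, C.T (Fv 0) (Fv 0) (Fv 1), C.T (Fv 0) (Fv 1) (Fv 1),
    C.T (Fv 1) (Fv 1) (Fv 1) / 3, fun u hu => ?_⟩
  rw [cm, sum_Fv u]
  simp only [Fin.sum_univ_three, map_add, map_smul, LinearMap.add_apply, LinearMap.smul_apply,
    smul_eq_mul, hu, C.cy (Fv 0) (Fv 1) (Fv 0), C.sw (Fv 1) (Fv 0) (Fv 0),
    C.sw (Fv 1) (Fv 0) (Fv 1), C.cy (Fv 1) (Fv 1) (Fv 0)]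
  ring

private theorem lineA_F {C : Cub VV} (hC : Std C) (x u : Fin 3 → ℂ) :
    C.T (x, u) (x, u) (x, u) = 3 * ((∑ i, ∑ j, x i * x j * am C u i j) +
      2 * (∑ i, x i * bm C u i) + cm C u) := by
  have h1 : ((x, u) : VV) = (x, 0) + (0, u) := by simp
  have h2 : C.T (x, 0) (x, 0) (0, u) = ∑ i, ∑ j, x i * x j * am C u i j := by
    conv_lhs => rw [sum_E x]
    simp only [Fin.sum_univ_three, map_add, map_smul, LinearMap.add_apply, LinearMap.smul_apply,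
      smul_eq_mul, am, Matrix.of_apply]
    ring
  have h3 : C.T (x, 0) (0, u) (0, u) = 2 * ∑ i, x i * bm C u i := by
    conv_lhs => rw [sum_E x]
    simp only [Fin.sum_univ_three, map_add, map_smul, LinearMap.add_apply, LinearMap.smul_apply,
      smul_eq_mul, bm]
    ring
  have h4 : C.T (0, u) (0, u) (0, u) = 3 * cm C u := by
    rw [cm]
    ring
  have h0 := hC x x x
  have c1 : C.T (x, 0) (0, u) (x, 0) = C.T (x, 0) (x, 0) (0, u) := C.cy _ _ _
  have c2 : C.T (0, u) (x, 0) (x, 0) = C.T (x, 0) (x, 0) (0, u) := by rw [C.sw, C.cy]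
  have c3 : C.T (0, u) (x, 0) (0, u) = C.T (x, 0) (0, u) (0, u) := C.sw _ _ _
  have c4 : C.T (0, u) (0, u) (x, 0) = C.T (x, 0) (0, u) (0, u) := by rw [C.cy, C.sw]
  rw [h1]
  simp only [map_add, LinearMap.add_apply]
  rw [c1, c2, c3, c4, h0, h2, h3, h4]
  ring

theorem line_theta {C : Cub VV} (hs : C.Smooth) (hC : Std C) {ka : ℂ} (hN : NF ka C)
    (hb : ∀ u : Fin 3 → ℂ, u 2 = 0 → bm C u 2 = 0) :
    ∃ u : Fin 3 → ℂ, u 2 = 0 ∧
      u 0 * u 1 * cm C u - u 0 * bm C u 1 ^ 2 - u 1 * bm C u 0 ^ 2 ≠ 0 := by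
  by_contra hcon
  push Not at hcon
  obtain ⟨a0, b0, c0, h0⟩ := lineA_b C 0
  obtain ⟨a1, b1, c1, h1⟩ := lineA_b C 1
  obtain ⟨g0, g1, g2, g3, hg⟩ := lineA_c C
  have th : ∀ s t : ℂ, s * t * (g0 * s ^ 3 + g1 * (s ^ 2 * t) + g2 * (s * t ^ 2) + g3 * t ^ 3) -
      s * (a1 * s ^ 2 + b1 * (s * t) + c1 * t ^ 2) ^ 2 -
      t * (a0 * s ^ 2 + b0 * (s * t) + c0 * t ^ 2) ^ 2 = 0 := by
    intro s t
    have h := hcon ![s, t, 0] rfl
    rw [h0 _ rfl, h1 _ rfl, hg _ rfl] at h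
    exact h
  have hc0 : c0 = 0 := by
    have h := th 0 1
    have h' : c0 ^ 2 = 0 := by linear_combination -h
    exact pow_eq_zero_iff (two_ne_zero) |>.1 h'
  have ha1 : a1 = 0 := by
    have h := th 1 0
    have h' : a1 ^ 2 = 0 := by linear_combination -h
    exact pow_eq_zero_iff (two_ne_zero) |>.1 h'
  subst hc0
  subst ha1
  have t1 := th 1 1
  have t2 := th 1 (-1)
  have t3 := th 1 2
  have t4 := th 2 1
  have q0 : g0 = a0 ^ 2 := by
    linear_combination (-1 : ℂ) * t1 - (1 / 9 : ℂ) * t2 + (1 / 18 : ℂ) * t3 + (1 / 9 : ℂ) * t4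
  have q1 : g1 = 2 * a0 * b0 + b1 ^ 2 := by
    linear_combination (3 / 2 : ℂ) * t1 + (7 / 18 : ℂ) * t2 - (1 / 9 : ℂ) * t3 -
      (1 / 18 : ℂ) * t4
  have q2 : g2 = b0 ^ 2 + 2 * b1 * c1 := by
    linear_combination (3 / 2 : ℂ) * t1 - (7 / 18 : ℂ) * t2 - (1 / 18 : ℂ) * t3 -
      (1 / 9 : ℂ) * t4
  have q3 : g3 = c1 ^ 2 := by
    linear_combination (-1 : ℂ) * t1 + (1 / 9 : ℂ) * t2 + (1 / 9 : ℂ) * t3 + (1 / 18 : ℂ) * t4
  have hF : ∀ y : VV, y.2 2 = 0 → C.T y y y =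
      3 * (y.2 0 * (y.1 0 + a0 * y.2 0 + b0 * y.2 1) ^ 2 +
        y.2 1 * (y.1 1 + b1 * y.2 0 + c1 * y.2 1) ^ 2) := by
    intro y hy
    have h := lineA_F hC y.1 y.2
    have hA := hN y.2
    rw [hg _ hy, q0, q1, q2, q3] at h
    simp only [Fin.sum_univ_three, hA, h0 _ hy, h1 _ hy, hb _ hy] at h
    have e : C.T y y y = C.T (y.1, y.2) (y.1, y.2) (y.1, y.2) := rfl
    rw [e, h]
    simp [hy]
    ring
  let φ : VV →ₗ[ℂ] ℂ := (LinearMap.proj 2).comp (LinearMap.snd ℂ _ _)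
  let ψ : VV →ₗ[ℂ] (Fin 3 → ℂ) := LinearMap.pi ![φ,
    (LinearMap.proj 0).comp (LinearMap.fst ℂ _ _) +
      a0 • (LinearMap.proj 0).comp (LinearMap.snd ℂ _ _) +
      b0 • (LinearMap.proj 1).comp (LinearMap.snd ℂ _ _),
    (LinearMap.proj 1).comp (LinearMap.fst ℂ _ _) +
      b1 • (LinearMap.proj 0).comp (LinearMap.snd ℂ _ _) +
      c1 • (LinearMap.proj 1).comp (LinearMap.snd ℂ _ _)]
  have hV : finrank ℂ VV = 6 := by
    simp [VV]
  have hH : 5 ≤ finrank ℂ (LinearMap.ker φ) := by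
    have r1 := LinearMap.finrank_range_add_finrank_ker φ
    have r2 : finrank ℂ (LinearMap.range φ) ≤ finrank ℂ ℂ := Submodule.finrank_le _
    rw [finrank_self] at r2
    omega
  have hM : 2 ≤ finrank ℂ (LinearMap.ker ψ) := by
    have r1 := LinearMap.finrank_range_add_finrank_ker ψ
    have r2 : finrank ℂ (LinearMap.range ψ) ≤ finrank ℂ (Fin 3 → ℂ) := Submodule.finrank_le _
    rw [finrank_fin_fun] at r2
    omega
  refine no_hyper C hs hV (LinearMap.ker ψ) (LinearMap.ker φ) hM hH fun y hy z hz => ?_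
  rw [LinearMap.mem_ker] at hy hz
  have y2 : y.2 2 = 0 := congrFun hy 0
  have yX : y.1 0 + a0 * y.2 0 + b0 * y.2 1 = 0 := congrFun hy 1
  have yY : y.1 1 + b1 * y.2 0 + c1 * y.2 1 = 0 := congrFun hy 2
  have z2 : z.2 2 = 0 := hz
  have f1 := hF (y + z) (by rw [Prod.snd_add, Pi.add_apply, y2, z2, add_zero])
  have f2 := hF (y - z) (by rw [Prod.snd_sub, Pi.sub_apply, y2, z2, sub_zero])
  have f3 := hF z z2
  have c1' : C.T y z y = C.T y y z := C.cy _ _ _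
  have c2' : C.T z y y = C.T y y z := by rw [C.sw, C.cy]
  have c3' : C.T z y z = C.T y z z := C.sw _ _ _
  have c4' : C.T z z y = C.T y z z := by rw [C.cy, C.sw]
  simp only [map_add, map_sub, LinearMap.add_apply, LinearMap.sub_apply, Prod.fst_add,
    Prod.snd_add, Prod.fst_sub, Prod.snd_sub, Pi.add_apply, Pi.sub_apply, c1', c2', c3',
    c4'] at f1 f2
  have g1' : y.1 0 + z.1 0 + a0 * (y.2 0 + z.2 0) + b0 * (y.2 1 + z.2 1) =
      z.1 0 + a0 * z.2 0 + b0 * z.2 1 := by linear_combination yX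
  have g2' : y.1 1 + z.1 1 + b1 * (y.2 0 + z.2 0) + c1 * (y.2 1 + z.2 1) =
      z.1 1 + b1 * z.2 0 + c1 * z.2 1 := by linear_combination yY
  have g3' : y.1 0 - z.1 0 + a0 * (y.2 0 - z.2 0) + b0 * (y.2 1 - z.2 1) =
      -(z.1 0 + a0 * z.2 0 + b0 * z.2 1) := by linear_combination yX
  have g4' : y.1 1 - z.1 1 + b1 * (y.2 0 - z.2 0) + c1 * (y.2 1 - z.2 1) =
      -(z.1 1 + b1 * z.2 0 + c1 * z.2 1) := by linear_combination yY
  rw [g1', g2'] at f1
  rw [g3', g4'] at f2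
  linear_combination (1 / 6 : ℂ) * f1 - (1 / 6 : ℂ) * f2 - (1 / 3 : ℂ) * f3

theorem line_bad {C : Cub VV} (hs : C.Smooth) (hC : Std C) {ka : ℂ} (hN : NF ka C)
    (hb : ∀ u : Fin 3 → ℂ, u 2 = 0 → bm C u 2 = 0) :
    AtMost 5 (fun u => Spec C u ∧ u 2 = 0) := by
  have hp : (X 0 * X 1 * pc C - X 0 * pb C 1 ^ 2 - X 1 * pb C 0 ^ 2).IsHomogeneous 5 := by
    have h1 : (X 0 * X 1 * pc C).IsHomogeneous 5 :=
      ((isHomogeneous_X ℂ 0).mul (isHomogeneous_X ℂ 1)).mul (hom_pc C)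
    have h2 : (X 0 * pb C 1 ^ 2).IsHomogeneous 5 :=
      (isHomogeneous_X ℂ 0).mul ((hom_pb C 1).pow 2)
    have h3 : (X 1 * pb C 0 ^ 2).IsHomogeneous 5 :=
      (isHomogeneous_X ℂ 1).mul ((hom_pb C 0).pow 2)
    exact (h1.sub h2).sub h3
  obtain ⟨q, hq, hqe⟩ := lineA_poly _ hp
  simp only [map_sub, map_mul, map_pow, eval_X, eval_pb, eval_pc] at hqe
  have hq0 : q ≠ 0 := by
    rintro rfl
    obtain ⟨u, hu2, hu⟩ := line_theta hs hC hN hb
    apply hu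
    have h1 := hqe ![u 0, u 1]
    rw [map_zero] at h1
    rw [lineA_vec hu2]
    exact h1.symm
  refine line_atMost ((bin_atMost q hq hq0).mono le_rfl fun v hv h => ?_)
  have h1 : (![v 0, v 1, 0] : Fin 3 → ℂ) ≠ 0 := by
    intro h0
    apply hv
    ext i
    fin_cases i
    · exact congrFun h0 0
    · exact congrFun h0 1
  rw [hqe]
  exact (line_special hs hC hN h1 rfl h).2

theorem line_bad3 {C : Cub VV} (hs : C.Smooth) (hC : Std C) {ka : ℂ} (hN : NF ka C)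
    (hb : ∀ u : Fin 3 → ℂ, u 2 = 0 → bm C u 2 = 0)
    (hb1 : ∀ u : Fin 3 → ℂ, u 1 = 0 → bm C u 1 = 0)
    (hb0 : ∀ u : Fin 3 → ℂ, u 0 = 0 → bm C u 0 = 0) :
    AtMost 3 (fun u => Spec C u ∧ u 2 = 0 ∧ u 0 ≠ 0 ∧ u 1 ≠ 0) := by
  obtain ⟨a0, b0, c0, h0⟩ := lineA_b C 0
  obtain ⟨a1, b1, c1, h1⟩ := lineA_b C 1
  have hc0 : c0 = 0 := by
    have h := h0 ![0, 1, 0] rfl
    rw [hb0 _ rfl] at h
    simpa using h.symm
  have ha1 : a1 = 0 := by
    have h := h1 ![1, 0, 0] rfl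
    rw [hb1 _ rfl] at h
    simpa using h.symm
  subst hc0
  subst ha1
  let p : MvPolynomial (Fin 3) ℂ := pc C - X 0 * (MvPolynomial.C a0 * X 0 +
    MvPolynomial.C b0 * X 1) ^ 2 - X 1 * (MvPolynomial.C b1 * X 0 + MvPolynomial.C c1 * X 1) ^ 2
  have hp : p.IsHomogeneous 3 := by
    have h2 : ∀ (i : Fin 3) (a b : ℂ), (X i * (MvPolynomial.C a * X (0 : Fin 3) +
        MvPolynomial.C b * X 1) ^ 2).IsHomogeneous 3 := fun i a b =>
      (isHomogeneous_X ℂ i).mul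
        ((((isHomogeneous_X ℂ 0).C_mul a).add ((isHomogeneous_X ℂ 1).C_mul b)).pow 2)
    exact ((hom_pc C).sub (h2 0 a0 b0)).sub (h2 1 b1 c1)
  have hth : ∀ u : Fin 3 → ℂ, u 2 = 0 →
      u 0 * u 1 * cm C u - u 0 * bm C u 1 ^ 2 - u 1 * bm C u 0 ^ 2 = u 0 * u 1 * eval u p := by
    intro u hu
    rw [h0 u hu, h1 u hu]
    simp only [p, map_sub, map_mul, map_pow, map_add, eval_X, eval_C, eval_pc]
    ring
  obtain ⟨q, hq, hqe⟩ := lineA_poly p hp
  have hq0 : q ≠ 0 := by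
    rintro rfl
    obtain ⟨u, hu2, hu⟩ := line_theta hs hC hN hb
    apply hu
    have h2 := hqe ![u 0, u 1]
    rw [map_zero] at h2
    rw [hth u hu2]
    have h3 : eval u p = 0 := by
      rw [lineA_vec hu2]
      exact h2.symm
    rw [h3, mul_zero]
  have key : AtMost 3 (fun u : Fin 3 → ℂ => (Spec C u ∧ u 0 ≠ 0 ∧ u 1 ≠ 0) ∧ u 2 = 0) := by
    refine line_atMost ((bin_atMost q hq hq0).mono le_rfl fun v hv h => ?_)
    have h2 : (![v 0, v 1, 0] : Fin 3 → ℂ) ≠ 0 := by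
      intro h0
      apply hv
      ext i
      fin_cases i
      · exact congrFun h0 0
      · exact congrFun h0 1
    rw [hqe]
    have h3 := (line_special hs hC hN h2 rfl h.1).2
    rw [hth _ rfl] at h3
    exact (mul_eq_zero.1 h3).resolve_left (mul_ne_zero h.2.1 h.2.2)
  exact key.mono le_rfl fun u _ h => ⟨⟨h.1, h.2.2.1, h.2.2.2⟩, h.2.1⟩

end Pool.Agent.P28
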