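import Pool.Agent.P28.Third

set_option autoImplicit false

/-!
# P28 A05: a plane meeting two planes of a triple

PROOF of `meet`. `N = P₁ + P₂` (dimension 4), `M = P ∩ N`. `M ≠ 0` as `P` meets `P₁`.
* `dim M = 3` is impossible: `P ≤ N`, so `P` is one of the three (`Triple.eq_of_le`).
* `dim M = 1` is impossible: then `M = span {x}`; `P ⊓ P₁ ≠ ⊥` and `P ⊓ P₂ ≠ ⊥` are contained in
  `M`, so `x ∈ P₁` and `x ∈ P₂`; `T x x y = 0` for `y ∈ N` (`s₁₂`) and for `y ∈ P`, and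
  `dim (P + N) = 3 + 4 - 1 = 6`, so `T x x y = 0` for all `y`: singular.
* So `dim M = 2`. Every `x ∈ M` is in `P₁`, `P₂` or `P₃` (`zero`), so `M ≤ P_i` for one `i` (a
  subspace contained in a finite union of subspaces, infinite field; see A04).
* `M ≤ P_i` and `M ≤ P_j` for `i ≠ j` is impossible: `T x x y = 0` for `x ∈ M` and `y ∈ N` (`s_ij`)
  and `y ∈ P` (`x ∈ P`), and `dim (N + P) = 4 + 3 - 2 = 5`: `no_hyper`.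
So `M ≤ P_i` for exactly one `i`. Then `P ⊓ P_i = M` (as `P ⊓ P_i ≤ M`) has dimension 2, and
`P ≠ P_i`: `Adj P P_i`. For `j ≠ i`: `P ⊓ P_j ≤ M`; if `dim (P ⊓ P_j) = 2` then `M ≤ P_j`: no. So
not `Adj P P_j`; and `M` and `P_i ⊓ P_j` are two 2-dimensional subspaces of the 3-dimensional
`P_i`, so `M ⊓ P_j ≠ ⊥`. In particular `P ⊓ P₃ ≠ ⊥`.

By the symmetries of `Triple` (`swap`, `rot`) one may treat the three cases `i = 1, 2, 3` by one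
auxiliary lemma.
-/

namespace Pool.Agent.P28

open Module

variable {V : Type} [AddCommGroup V] [Module ℂ V] [FiniteDimensional ℂ V]

/-- Two large subspaces of a space meet. -/
private theorem inf_ne_bot {A B D : Submodule ℂ V} (hA : A ≤ D) (hB : B ≤ D)
    (h : finrank ℂ D < finrank ℂ A + finrank ℂ B) : A ⊓ B ≠ ⊥ := by
  intro h0
  have h1 := Submodule.finrank_sup_add_finrank_inf_eq A B
  rw [h0, finrank_bot, add_zero] at h1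
  have h2 := Submodule.finrank_mono (sup_le hA hB)
  omega

omit [FiniteDimensional ℂ V] in
/-- A subspace contained in the union of three subspaces is contained in one of them. -/
private theorem le_of_union {M A B D : Submodule ℂ V} (h : ∀ x ∈ M, x ∈ A ∨ x ∈ B ∨ x ∈ D) :
    M ≤ A ∨ M ≤ B ∨ M ≤ D := by
  have h1 : (⋃ i : Fin 3, (((![A, B, D] i).comap M.subtype : Submodule ℂ M) : Set M)) =
      Set.univ := by
    rw [Set.eq_univ_iff_forall]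
    intro x
    rw [Set.mem_iUnion]
    rcases h x.1 x.2 with h | h | h
    · exact ⟨0, h⟩
    · exact ⟨1, h⟩
    · exact ⟨2, h⟩
  obtain ⟨i, hi⟩ := Subspace.exists_eq_top_of_iUnion_eq_univ h1
  have h2 : M ≤ ![A, B, D] i := by
    intro x hx
    have h3 : (⟨x, hx⟩ : M) ∈ (![A, B, D] i).comap M.subtype := by
      rw [hi]
      exact Submodule.mem_top
    exact h3
  fin_cases i
  · exact Or.inl h2
  · exact Or.inr (Or.inl h2)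
  · exact Or.inr (Or.inr h2)

theorem meet (C : Cub V) (hs : C.Smooth) (hV : finrank ℂ V = 6) {P₁ P₂ P₃ P : Submodule ℂ V}
    (h : Triple C P₁ P₂ P₃) (hP : C.IsPlane P) (h₁ : P ≠ P₁) (h₂ : P ≠ P₂) (h₃ : P ≠ P₃)
    (m₁ : P ⊓ P₁ ≠ ⊥) (m₂ : P ⊓ P₂ ≠ ⊥) :
    P ⊓ P₃ ≠ ⊥ ∧ ((Adj P P₁ ∧ ¬ Adj P P₂ ∧ ¬ Adj P P₃) ∨ (¬ Adj P P₁ ∧ Adj P P₂ ∧ ¬ Adj P P₃) ∨
      (¬ Adj P P₁ ∧ ¬ Adj P P₂ ∧ Adj P P₃)) := by
  have hdim := Submodule.finrank_sup_add_finrank_inf_eq P (P₁ ⊔ P₂)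
  rw [hP.1, h.fr] at hdim
  have hle3 : finrank ℂ (P ⊓ (P₁ ⊔ P₂) : Submodule ℂ V) ≤ 3 := by
    rw [← hP.1]
    exact Submodule.finrank_mono inf_le_left
  have hle6 : finrank ℂ (P ⊔ (P₁ ⊔ P₂) : Submodule ℂ V) ≤ 6 := by
    rw [← hV]
    exact Submodule.finrank_le _
  have hN₁ : P₁ ≤ P₁ ⊔ P₂ := le_sup_left
  have hN₂ : P₂ ≤ P₁ ⊔ P₂ := le_sup_right
  have hN₃ : P₃ ≤ P₁ ⊔ P₂ := by
    rw [← h.e₁₃]
    exact le_sup_right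
  -- the sum with `P`
  have hsup : ∀ x ∈ P, (∀ y ∈ P₁ ⊔ P₂, C.T x x y = 0) → ∀ y ∈ P ⊔ (P₁ ⊔ P₂), C.T x x y = 0 := by
    intro x hx h0 y hy
    obtain ⟨a, ha, b, hb, rfl⟩ := Submodule.mem_sup.1 hy
    rw [map_add, hP.2 x hx x hx a ha, h0 b hb, add_zero]
  -- dimension 3
  have hne3 : finrank ℂ (P ⊓ (P₁ ⊔ P₂) : Submodule ℂ V) ≠ 3 := by
    intro h3
    have h4 : P ⊓ (P₁ ⊔ P₂) = P :=
      Submodule.eq_of_le_of_finrank_eq inf_le_left (by rw [h3, hP.1])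
    rcases h.eq_of_le hP (inf_eq_left.1 h4) with h5 | h5 | h5
    · exact h₁ h5
    · exact h₂ h5
    · exact h₃ h5
  -- dimension 1
  have hne1 : finrank ℂ (P ⊓ (P₁ ⊔ P₂) : Submodule ℂ V) ≠ 1 := by
    intro h1
    have e : ∀ Q : Submodule ℂ V, Q ≤ P₁ ⊔ P₂ → P ⊓ Q ≠ ⊥ → P ⊓ Q = P ⊓ (P₁ ⊔ P₂) := by
      intro Q hQ hQ0
      refine Submodule.eq_of_le_of_finrank_le (inf_le_inf_left P hQ) ?_
      rw [h1, Nat.one_le_iff_ne_zero]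
      intro h2
      exact hQ0 (Submodule.finrank_eq_zero.1 h2)
    obtain ⟨x, hx, hx0⟩ := Submodule.exists_mem_ne_zero_of_ne_bot m₁
    have hx2 : x ∈ P ⊓ P₂ := by
      rw [e P₂ hN₂ m₂, ← e P₁ hN₁ m₁]
      exact hx
    have htop : P ⊔ (P₁ ⊔ P₂) = ⊤ := by
      refine Submodule.eq_top_of_finrank_eq ?_
      omega
    obtain ⟨z, hz⟩ := hs x hx0
    refine hz (hsup x hx.1 (h.s₁₂ x hx.2 hx2.2) z ?_)
    rw [htop]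
    exact Submodule.mem_top
  have hd2 : finrank ℂ (P ⊓ (P₁ ⊔ P₂) : Submodule ℂ V) = 2 := by
    omega
  have hd5 : 5 ≤ finrank ℂ (P ⊔ (P₁ ⊔ P₂) : Submodule ℂ V) := by
    omega
  -- two of the three planes cannot both contain the line
  have hno : ∀ Q Q' : Submodule ℂ V, (∀ x ∈ Q, x ∈ Q' → ∀ y ∈ P₁ ⊔ P₂, C.T x x y = 0) →
      P ⊓ (P₁ ⊔ P₂) ≤ Q → ¬ P ⊓ (P₁ ⊔ P₂) ≤ Q' := by
    intro Q Q' hQ hq hq'
    exact no_hyper C hs hV (P ⊓ (P₁ ⊔ P₂)) (P ⊔ (P₁ ⊔ P₂)) hd2.ge hd5 fun x hx y hy =>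
      hsup x hx.1 (hQ x (hq hx) (hq' hx)) y hy
  have hadj : ∀ Q : Submodule ℂ V, Q ≤ P₁ ⊔ P₂ → P ≠ Q → P ⊓ (P₁ ⊔ P₂) ≤ Q → Adj P Q := by
    intro Q hQ hne hle
    refine ⟨hne, ?_⟩
    have h4 : P ⊓ Q = P ⊓ (P₁ ⊔ P₂) :=
      le_antisymm (inf_le_inf_left P hQ) (le_inf inf_le_left hle)
    rw [h4, hd2]
  have hnadj : ∀ Q : Submodule ℂ V, Q ≤ P₁ ⊔ P₂ → ¬ P ⊓ (P₁ ⊔ P₂) ≤ Q → ¬ Adj P Q := by
    intro Q hQ hle ha
    have h4 : P ⊓ Q = P ⊓ (P₁ ⊔ P₂) :=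
      Submodule.eq_of_le_of_finrank_eq (inf_le_inf_left P hQ) (by rw [ha.2, hd2])
    refine hle ?_
    rw [← h4]
    exact inf_le_right
  have hmeet : ∀ Q : Submodule ℂ V, C.IsPlane Q → Adj Q P₃ → P ⊓ (P₁ ⊔ P₂) ≤ Q →
      P ⊓ P₃ ≠ ⊥ := by
    intro Q hQ ha hle h0
    have h4 : P ⊓ (P₁ ⊔ P₂) ⊓ (Q ⊓ P₃) ≠ ⊥ :=
      inf_ne_bot hle inf_le_left (by rw [hQ.1, hd2, ha.2]; norm_num)
    refine h4 (le_bot_iff.1 ?_)
    rw [← h0]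
    exact inf_le_inf inf_le_left inf_le_right
  rcases le_of_union (M := P ⊓ (P₁ ⊔ P₂)) (A := P₁) (B := P₂) (D := P₃) fun x hx =>
    h.zero x hx.2 (hP.2 x hx.1 x hx.1 x hx.1) with hc | hc | hc
  · exact ⟨hmeet P₁ h.p₁ h.a₁₃ hc, Or.inl ⟨hadj P₁ hN₁ h₁ hc,
      hnadj P₂ hN₂ (hno P₁ P₂ h.s₁₂ hc), hnadj P₃ hN₃ (hno P₁ P₃ h.s₁₃ hc)⟩⟩
  · exact ⟨hmeet P₂ h.p₂ h.a₂₃ hc, Or.inr (Or.inl ⟨hnadj P₁ hN₁
      (hno P₂ P₁ (fun x hx hx' => h.s₁₂ x hx' hx) hc), hadj P₂ hN₂ h₂ hc,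
      hnadj P₃ hN₃ (hno P₂ P₃ h.s₂₃ hc)⟩)⟩
  · refine ⟨?_, Or.inr (Or.inr ⟨hnadj P₁ hN₁
      (hno P₃ P₁ (fun x hx hx' => h.s₁₃ x hx' hx) hc), hnadj P₂ hN₂
      (hno P₃ P₂ (fun x hx hx' => h.s₂₃ x hx' hx) hc), hadj P₃ hN₃ h₃ hc⟩)⟩
    intro h0
    have h4 := (hadj P₃ hN₃ h₃ hc).2
    rw [h0, finrank_bot] at h4
    omega

end Pool.Agent.P28
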