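import Pool.Agent.P28.FrEx
import Pool.Agent.P28.ChgB
import Pool.Agent.P28.DNot
import Pool.Agent.P28.Dim56

set_option autoImplicit false

/-!
# P28 C08: planes pairwise meeting in one point

PROOF of `pts`. Let `b` be a basis of `V` indexed by `Fin 3 ⊕ Fin 3`
(`Module.finBasisOfFinrankEq` and reindexing by `finSumFinEquiv`). Suppose there are 21 planes
`P i` (`i : Fin 21`, injective: `Finset.exists_subset_card_eq`, `Finset.equivFin`). Choose frames
`F i` of `P i` with `vol b = 1` (`fr_exists`), `N i = (F i).N C`, `D i = (F i).D C`.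
(1) For `i ≠ j`: there is `A` with `N j x - 2 D i x = T x x (A x)` for `x ∈ P i`. Indeed let `G, G'`
be adapted frames of `P i, P j` (`adapted_exists`), `v = G.vol b = G'.vol b ≠ 0` (`adapted_vol`,
`vol_ne_zero`). `chg_N` (`F := F j`, `F' := G'`): `1 * N G' - v * N j = T x x (A₁ x)`.
`chg_D` (`F := F i`, `F' := G`): `D G x = v * D i x` on `P i`. `adapted_N`:
`N G' - 2 D G = T x x (A₂ x)` on `P i`. So `v (N j - 2 D i) = T x x ((A₂ - A₁) x)` on `P i`.
(2) `N i x = 8 D i x` on `P i` (`N_self`).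
(3) `rel_exists` (with `N_cubic`): `∑ c_j N j x = T x x (A x)`, `c ≠ 0`. On `P i`:
`(8 c_i + 2 ∑_{j ≠ i} c_j) D i x = T x x (A' x)`. If the factor were not `0` then
`D i = T x x (A'' x)` on `P i`; by `D_not` this is impossible: `D_not` is for the adapted frame `G`
(take any `j ≠ i`), and `D G = v D i` on `P i`. So `6 c_i + 2 s = 0` with `s = ∑ c_j` for all `i`.
Summing: `6 s + 42 s = 0`, `s = 0`, `c = 0`: contradiction.
-/

namespace Pool.Agent.P28

open Module

variable {V : Type} [AddCommGroup V] [Module ℂ V] [FiniteDimensional ℂ V]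

theorem pts (C : Cub V) (hs : C.Smooth) (hV : finrank ℂ V = 6) (S : Finset (Submodule ℂ V))
    (hS : ∀ P ∈ S, C.IsPlane P)
    (hp : ∀ P ∈ S, ∀ P' ∈ S, P ≠ P' → finrank ℂ (P ⊓ P' : Submodule ℂ V) = 1) :
    S.card ≤ 20 := by
  classical
  by_contra hcon
  obtain ⟨S', hS', hc'⟩ := Finset.exists_subset_card_eq (s := S) (n := 21) (by omega)
  have e := S'.equivFinOfCardEq hc'
  obtain ⟨P, hPdef⟩ : ∃ P : Fin 21 → Submodule ℂ V, ∀ i, P i = (e.symm i : Submodule ℂ V) :=
    ⟨_, fun _ => rfl⟩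
  have hPS : ∀ i, P i ∈ S := fun i => by rw [hPdef]; exact hS' (e.symm i).2
  have hPinj : ∀ i j, i ≠ j → P i ≠ P j := by
    intro i j hij h
    rw [hPdef, hPdef] at h
    exact hij (e.symm.injective (Subtype.ext h))
  have b : Basis (Fin 3 ⊕ Fin 3) ℂ V :=
    (Module.finBasisOfFinrankEq ℂ V hV).reindex (finSumFinEquiv (m := 3) (n := 3)).symm
  choose F hFP hFv using fun i => fr_exists hV b (P i) (hS _ (hPS i)).1
  have hPz : ∀ i, ∀ x ∈ P i, ∀ y ∈ P i, ∀ z ∈ P i, C.T x y z = 0 := fun i => (hS _ (hPS i)).2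
  have hFz : ∀ i, ∀ x ∈ (F i).P, ∀ y ∈ (F i).P, ∀ z ∈ (F i).P, C.T x y z = 0 := by
    intro i
    rw [hFP i]
    exact hPz i
  -- (1)
  have h1 : ∀ i j, ∃ A : V →ₗ[ℂ] V, ∀ x ∈ P i,
      (F j).N C x - (if j = i then 8 else 2) * (F i).D C x = C.T x x (A x) := by
    intro i j
    by_cases hij : j = i
    · refine ⟨0, fun x hx => ?_⟩
      rw [if_pos hij, hij, N_self C (F i) x (by rw [hFP i]; exact hx), LinearMap.zero_apply,
        map_zero, sub_self]
    · obtain ⟨G, G', hG, hG', hA⟩ := adapted_exists hV (hS _ (hPS i)).1 (hS _ (hPS j)).1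
        (hp _ (hPS i) _ (hPS j) (hPinj i j fun h => hij h.symm))
      have hv := vol_ne_zero b G
      obtain ⟨A₁, hA₁⟩ := chg_N C b (F := F j) (F' := G') (by rw [hG', hFP j]) (hFz j)
      have hD := chg_D C b (F := F i) (F' := G) (by rw [hG, hFP i]) (hFz i)
      obtain ⟨A₂, hA₂⟩ := adapted_N C hA (by rw [hG]; exact hPz i) (by rw [hG']; exact hPz j)
      refine ⟨(G.vol b)⁻¹ • (A₂ - A₁), fun x hx => ?_⟩
      have e1 := hA₁ x
      have e2 := hD x (by rw [hFP i]; exact hx)
      have e3 := hA₂ x (by rw [hG]; exact hx)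
      rw [hFv j, ← adapted_vol b hA] at e1
      rw [hFv i] at e2
      rw [if_neg hij, LinearMap.smul_apply, map_smul, LinearMap.sub_apply, map_sub, smul_eq_mul]
      have e4 : G.vol b * ((F j).N C x - 2 * (F i).D C x) = C.T x x (A₂ x) - C.T x x (A₁ x) := by
        linear_combination e3 - e1 + 2 * e2
      rw [← e4, inv_mul_cancel_left₀ hv]
  -- (2)
  have h2 : ∀ i, ¬ ∃ A : V →ₗ[ℂ] V, ∀ x ∈ P i, (F i).D C x = C.T x x (A x) := by
    rintro i ⟨A, hAx⟩
    obtain ⟨j, hij⟩ : ∃ j : Fin 21, j ≠ i := exists_ne i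
    obtain ⟨G, G', hG, hG', hA⟩ := adapted_exists hV (hS _ (hPS i)).1 (hS _ (hPS j)).1
      (hp _ (hPS i) _ (hPS j) (hPinj i j fun h => hij h.symm))
    have hD := chg_D C b (F := F i) (F' := G) (by rw [hG, hFP i]) (hFz i)
    refine D_not C hs hA (by rw [hG]; exact hPz i) (by rw [hG']; exact hPz j)
      ⟨G.vol b • A, fun x hx => ?_⟩
    rw [hG] at hx
    have e2 := hD x (by rw [hFP i]; exact hx)
    rw [hFv i, one_mul] at e2
    rw [e2, hAx x hx, LinearMap.smul_apply, map_smul, smul_eq_mul]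
  -- (3)
  obtain ⟨c, hc, A, hcA⟩ := rel_exists C hs hV (fun i => (F i).N C) fun i => N_cubic C (F i)
  have h3 : ∀ i, 2 * ∑ j, c j + 6 * c i = 0 := by
    intro i
    by_contra hk
    choose B hB using h1 i
    refine h2 i ⟨(2 * ∑ j, c j + 6 * c i)⁻¹ • (A - ∑ j, c j • B j), fun x hx => ?_⟩
    have e1 : ∑ j, c j * (F j).N C x = (2 * ∑ j, c j + 6 * c i) * (F i).D C x +
        ∑ j, c j * C.T x x (B j x) := by
      have e2 : ∀ j, c j * (F j).N C x = 2 * (F i).D C x * c j +
          (if j = i then 6 * c j * (F i).D C x else 0) + c j * C.T x x (B j x) := by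
        intro j
        rw [← hB j x hx]
        by_cases hj : j = i
        · rw [if_pos hj, if_pos hj]
          ring
        · rw [if_neg hj, if_neg hj]
          ring
      rw [Finset.sum_congr rfl fun j _ => e2 j, Finset.sum_add_distrib, Finset.sum_add_distrib,
        ← Finset.mul_sum, Finset.sum_ite_eq' Finset.univ i, if_pos (Finset.mem_univ i)]
      ring
    have e3 := hcA x
    have e4 : C.T x x ((A - ∑ j, c j • B j) x) = (2 * ∑ j, c j + 6 * c i) * (F i).D C x := by
      rw [LinearMap.sub_apply, map_sub, LinearMap.sum_apply, map_sum]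
      simp only [LinearMap.smul_apply, map_smul, smul_eq_mul]
      linear_combination e1 - e3
    rw [LinearMap.smul_apply, map_smul, smul_eq_mul, e4, inv_mul_cancel_left₀ hk]
  have h4 : ∑ j, c j = 0 := by
    have e1 : ∑ i : Fin 21, (2 * ∑ j, c j + 6 * c i) = 0 := Finset.sum_eq_zero fun i _ => h3 i
    rw [Finset.sum_add_distrib, ← Finset.mul_sum, Finset.sum_const, Finset.card_univ,
      Fintype.card_fin, nsmul_eq_mul, ← Finset.mul_sum] at e1
    push_cast at e1
    linear_combination (1 / 48 : ℂ) * e1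
  refine hc (funext fun i => ?_)
  have e1 := h3 i
  rw [h4] at e1
  simpa using e1

end Pool.Agent.P28
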