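import Pool.Agent.P28.AdjBd
import Pool.Agent.P28.Meet
import Pool.Agent.P28.GraphB
import Pool.Agent.P28.Pts

set_option autoImplicit false

/-!
# P28 M01: at most 27 pairwise meeting planes (assembly)

PROOF of `planes_le`. Let `S` be a finite set of planes of `C`, any two of which meet (`⊓ ≠ ⊥`).
(a) If no two members of `S` are adjacent: two different members meet in a subspace of dimension
`1` (not 0, not 2, not 3), so `S.card ≤ 20` by `pts`.
(b) Otherwise let `P₁, P₂ ∈ S` be adjacent, `Triple C P₁ P₂ P₃` (`third`). Let `Q` be the set of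
planes of `C` which meet `P₁` and `P₂`. By `meet` every element of `Q` is `P₁, P₂, P₃` or adjacent
to one of them, so `Q` is finite (`adj_bound`). Let `FF` be a finite set of planes with
`S ⊆ FF ⊆ Q`, pairwise meeting, of maximal cardinality (`Finset.exists_max_image` over the
powerset of `Q`). Closure: if `A, B ∈ FF` are adjacent, `Triple C A B D`, then every `P ∈ FF`
meets `D` (`meet`, or `P ∈ {A, B}` adjacent to `D`), `D` meets `P₁, P₂ ∈ FF`, so `D ∈ Q`, and
`FF ∪ {D}` is pairwise meeting, so `D ∈ FF` by maximality. Hence the relation `Adj` on the finite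
type `FF` satisfies `GQ`: symmetric, irreflexive, and for an edge `A, B` the third vertex `D` works
by `meet` (for `x ∈ FF`, `x ≠ A, B, D`; `Triple.a₁₃`, `a₂₃`). Degrees are at most 26 by
`adj_bound`, and there is an edge. `graph_bound` gives `FF.card ≤ 27`.
-/

namespace Pool.Agent.P28

open Module

variable {V : Type} [AddCommGroup V] [Module ℂ V] [FiniteDimensional ℂ V]

private theorem m27_ne_bot {A B : Submodule ℂ V} (h : Adj A B) : A ⊓ B ≠ ⊥ := by
  intro e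
  have h1 := h.2
  rw [e, finrank_bot] at h1
  omega

private theorem m27_self {C : Cub V} {A : Submodule ℂ V} (h : C.IsPlane A) : A ⊓ A ≠ ⊥ := by
  intro e
  have h1 := h.1
  rw [inf_idem] at e
  rw [e, finrank_bot] at h1
  omega

private theorem m27_or {C : Cub V} {P P' : Submodule ℂ V} (hP : C.IsPlane P)
    (hP' : C.IsPlane P') (hne : P ≠ P') (hm : P ⊓ P' ≠ ⊥) (hn : ¬ Adj P P') :
    finrank ℂ (P ⊓ P' : Submodule ℂ V) = 1 := by
  have h0 : finrank ℂ (P ⊓ P' : Submodule ℂ V) ≠ 0 := fun e =>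
    hm (Submodule.finrank_eq_zero.mp e)
  have h1 : finrank ℂ (P ⊓ P' : Submodule ℂ V) ≤ 3 :=
    (Submodule.finrank_mono inf_le_left).trans_eq hP.1
  have h3 : finrank ℂ (P ⊓ P' : Submodule ℂ V) ≠ 3 := by
    intro h4
    apply hne
    rw [← Submodule.eq_of_le_of_finrank_eq (inf_le_left : P ⊓ P' ≤ P) (h4.trans hP.1.symm)]
    exact Submodule.eq_of_le_of_finrank_eq (inf_le_right : P ⊓ P' ≤ P') (h4.trans hP'.1.symm)
  have h2 : finrank ℂ (P ⊓ P' : Submodule ℂ V) ≠ 2 := fun e => hn ⟨hne, e⟩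
  omega

private theorem m27_meet (C : Cub V) (hs : C.Smooth) (hV : finrank ℂ V = 6)
    {A B D P : Submodule ℂ V} (h : Triple C A B D) (hP : C.IsPlane P) (m₁ : P ⊓ A ≠ ⊥)
    (m₂ : P ⊓ B ≠ ⊥) : P ⊓ D ≠ ⊥ := by
  by_cases e₁ : P = A
  · rw [e₁]
    exact m27_ne_bot h.a₁₃
  by_cases e₂ : P = B
  · rw [e₂]
    exact m27_ne_bot h.a₂₃
  by_cases e₃ : P = D
  · rw [e₃]
    exact m27_self h.p₃
  exact (meet C hs hV h hP e₁ e₂ e₃ m₁ m₂).1

private theorem m27_fin (C : Cub V) (hs : C.Smooth) (hV : finrank ℂ V = 6)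
    {P₁ P₂ P₃ : Submodule ℂ V} (ht : Triple C P₁ P₂ P₃) :
    {P : Submodule ℂ V | C.IsPlane P ∧ P ⊓ P₁ ≠ ⊥ ∧ P ⊓ P₂ ≠ ⊥}.Finite := by
  refine (((Set.finite_singleton P₁).union ((Set.finite_singleton P₂).union
    (Set.finite_singleton P₃))).union ((adj_bound C hs hV ht.p₁).1.union
    ((adj_bound C hs hV ht.p₂).1.union (adj_bound C hs hV ht.p₃).1))).subset ?_
  rintro P ⟨hP, m₁, m₂⟩
  by_cases e₁ : P = P₁
  · exact Or.inl (Or.inl e₁)
  by_cases e₂ : P = P₂
  · exact Or.inl (Or.inr (Or.inl e₂))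
  by_cases e₃ : P = P₃
  · exact Or.inl (Or.inr (Or.inr e₃))
  rcases (meet C hs hV ht hP e₁ e₂ e₃ m₁ m₂).2 with h | h | h
  · exact Or.inr (Or.inl ⟨hP, h.1.symm⟩)
  · exact Or.inr (Or.inr (Or.inl ⟨hP, h.2.1.symm⟩))
  · exact Or.inr (Or.inr (Or.inr ⟨hP, h.2.2.symm⟩))

theorem planes_le (C : Cub V) (hs : C.Smooth) (hV : finrank ℂ V = 6)
    (S : Finset (Submodule ℂ V)) (hS : ∀ P ∈ S, C.IsPlane P)
    (hm : ∀ P ∈ S, ∀ P' ∈ S, P ⊓ P' ≠ ⊥) : S.card ≤ 27 := by
  classical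
  by_cases hadj : ∃ P₁ ∈ S, ∃ P₂ ∈ S, Adj P₁ P₂
  · obtain ⟨P₁, hP₁, P₂, hP₂, ha⟩ := hadj
    obtain ⟨P₃, ht⟩ := third C hs hV (hS _ hP₁) (hS _ hP₂) ha
    have hQ := m27_fin C hs hV ht
    obtain ⟨Q, hQd⟩ : ∃ Q : Finset (Submodule ℂ V), ∀ P, P ∈ Q ↔
        C.IsPlane P ∧ P ⊓ P₁ ≠ ⊥ ∧ P ⊓ P₂ ≠ ⊥ :=
      ⟨hQ.toFinset, fun P => by rw [Set.Finite.mem_toFinset]; rfl⟩
    have hne : (Q.powerset.filter (fun F => S ⊆ F ∧
        ∀ P ∈ F, ∀ P' ∈ F, P ⊓ P' ≠ ⊥)).Nonempty := by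
      refine ⟨S, ?_⟩
      rw [Finset.mem_filter, Finset.mem_powerset]
      exact ⟨fun P hP => (hQd P).mpr ⟨hS P hP, hm P hP P₁ hP₁, hm P hP P₂ hP₂⟩, subset_rfl, hm⟩
    obtain ⟨FF, hFF, hmax⟩ := Finset.exists_max_image _ Finset.card hne
    rw [Finset.mem_filter, Finset.mem_powerset] at hFF
    obtain ⟨hFQ, hSF, hFm⟩ := hFF
    have hFp : ∀ P ∈ FF, C.IsPlane P := fun P hP => ((hQd P).mp (hFQ hP)).1
    have hclos : ∀ A ∈ FF, ∀ B ∈ FF, ∀ D, Triple C A B D → D ∈ FF := by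
      intro A hA B hB D hT
      by_contra hD
      have hDm : ∀ P ∈ FF, P ⊓ D ≠ ⊥ := fun P hP =>
        m27_meet C hs hV hT (hFp P hP) (hFm P hP A hA) (hFm P hP B hB)
      have h1 : insert D FF ∈ Q.powerset.filter (fun F => S ⊆ F ∧
          ∀ P ∈ F, ∀ P' ∈ F, P ⊓ P' ≠ ⊥) := by
        rw [Finset.mem_filter, Finset.mem_powerset]
        refine ⟨?_, fun P hP => Finset.mem_insert_of_mem (hSF hP), ?_⟩
        · intro P hP
          rcases Finset.mem_insert.mp hP with rfl | hP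
          · refine (hQd P).mpr ⟨hT.p₃, ?_, ?_⟩
            · rw [inf_comm]
              exact hDm P₁ (hSF hP₁)
            · rw [inf_comm]
              exact hDm P₂ (hSF hP₂)
          · exact hFQ hP
        · intro P hP P' hP'
          rcases Finset.mem_insert.mp hP with h2 | h2
          · rcases Finset.mem_insert.mp hP' with h3 | h3
            · rw [h2, h3]
              exact m27_self hT.p₃
            · rw [h2, inf_comm]
              exact hDm P' h3
          · rcases Finset.mem_insert.mp hP' with h3 | h3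
            · rw [h3]
              exact hDm P h2
            · exact hFm P h2 P' h3
      have h2 := hmax _ h1
      rw [Finset.card_insert_of_notMem hD] at h2
      omega
    have hGQ : GQ (fun a b : {P // P ∈ FF} => Adj a.1 b.1) := by
      refine ⟨fun a b h => h.symm, fun a h => h.1 rfl, ?_⟩
      rintro ⟨A, hA⟩ ⟨B, hB⟩ hab
      obtain ⟨D, hT⟩ := third C hs hV (hFp A hA) (hFp B hB) hab
      refine ⟨⟨D, hclos A hA B hB D hT⟩, hT.a₁₃, hT.a₂₃, ?_⟩
      rintro ⟨x, hx⟩ h1 h2 h3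
      have e1 : x ≠ A := fun e => h1 (Subtype.ext e)
      have e2 : x ≠ B := fun e => h2 (Subtype.ext e)
      have e3 : x ≠ D := fun e => h3 (Subtype.ext e)
      exact (meet C hs hV hT (hFp x hx) e1 e2 e3 (hFm x hx A hA) (hFm x hx B hB)).2
    have hdeg : ∀ a : {P // P ∈ FF}, {b : {P // P ∈ FF} | Adj a.1 b.1}.ncard ≤ 26 := by
      rintro ⟨A, hA⟩
      have h1 := adj_bound C hs hV (hFp A hA)
      refine le_trans ?_ h1.2
      refine Set.ncard_le_ncard_of_injOn (fun b => b.1) ?_ ?_ h1.1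
      · rintro ⟨b, hb⟩ hab
        exact ⟨hFp b hb, hab⟩
      · intro b _ c _ hbc
        exact Subtype.ext hbc
    have h1 := graph_bound hGQ hdeg ⟨⟨P₁, hSF hP₁⟩, ⟨P₂, hSF hP₂⟩, ha⟩
    rw [Fintype.card_coe] at h1
    exact (Finset.card_le_card hSF).trans h1
  · have h1 : S.card ≤ 20 := by
      refine pts C hs hV S hS fun P hP P' hP' hne => ?_
      exact m27_or (hS P hP) (hS P' hP') hne (hm P hP P' hP') fun h =>
        hadj ⟨P, hP, P', hP', h⟩
    omega

end Pool.Agent.P28
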