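import Pool.Agent.P28.LineA
import Pool.Agent.P28.ConicC

set_option autoImplicit false

/-!
# P28 B11: the case of a conic and a line

PROOF of `nf_one`. Points with `u 2 = 0`: at most 5 (`line_good` or `line_bad`). Points with
`u 2 ≠ 0`: if `s b_0(q) - r b_1(q)` is not identically 0, at most 5 (`conic_five`). Otherwise take
`g` from `conic_div`; if `r s (c(q) - g^2) - b_2(q)^2` is not identically 0, at most 8
(`conic_eight`); otherwise put `r = 1` (`b_0(q 1 t) = g(1,t)`): the hypotheses of `conic_sing`
hold, contradiction. Total at most `5 + 8 = 13` (`AtMost.union`, `AtMost.mono`).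
-/

namespace Pool.Agent.P28

open Module MvPolynomial

theorem nf_one {C : Cub VV} (hs : C.Smooth) (hC : Std C) (hN : NF 1 C) :
    AtMost 13 (Spec C) := by
  have hline : AtMost 5 (fun u => Spec C u ∧ u 2 = 0) := by
    by_cases hb : ∃ u : Fin 3 → ℂ, u 2 = 0 ∧ bm C u 2 ≠ 0
    · exact (line_good hs hC hN hb).mono (by norm_num) (fun v _ h => h)
    · push Not at hb
      exact line_bad hs hC hN hb
  have hconic : AtMost 8 (fun u => Spec C u ∧ u 2 ≠ 0) := by
    by_cases h1 : ∃ r s : ℂ, s * bm C (qv r s) 0 - r * bm C (qv r s) 1 ≠ 0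
    · exact (conic_five hs hC hN h1).mono (by norm_num) (fun v _ h => h)
    · push Not at h1
      obtain ⟨g, hg, hg'⟩ := conic_div C h1
      by_cases h2 : ∃ r s : ℂ,
          r * s * (cm C (qv r s) - eval ![r, s] g ^ 2) - bm C (qv r s) 2 ^ 2 ≠ 0
      · exact conic_eight hs hC hN hg (fun r s => (hg' r s).1) h2
      · push Not at h2
        exfalso
        refine conic_sing hs hC hN (fun t => ?_) (fun t => ?_)
        · have h3 := h1 1 t
          linear_combination h3
        · have h3 := h2 1 t
          have h4 := (hg' 1 t).1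
          rw [h4]
          linear_combination h3
  refine (hline.union hconic).mono (by norm_num) fun v _ h => ?_
  by_cases h2 : v 2 = 0
  · exact Or.inl ⟨h, h2⟩
  · exact Or.inr ⟨h, h2⟩

end Pool.Agent.P28
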