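import Pool.Agent.P28.LineA

set_option autoImplicit false

/-!
# P28 B08: the triangle case

`C` smooth, standard position, `NF 0 C`: `A = diag(u 0, u 1, u 2)`.

PROOF of `nf_zero`. A special point `u ≠ 0` has `det A = u 0 u 1 u 2 = 0` (`spec_det`, `eval_pa`;
or directly from `spec_rank`), so it lies on one of the lines `u i = 0`. Permutations: for a
permutation `g` of `Fin 3` the change of coordinates `a = h = LinearEquiv.funCongrLeft ..` (permute
coordinates), `m = 0`, preserves `NF 0` (`tr_am`); use it to transport `line_good`, `line_bad`,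
`line_bad3` from the line `u 2 = 0` to the other two lines (`bm` and `cm` of the transformed cubic
are the permuted ones, `tr_T`).
Call the line `u i = 0` bad if `bm C u i = 0` for all `u` with `u i = 0`.
* If some line is good: at most `2 + 5 + 5 = 12` special points (`AtMost.union`).
* If all three are bad: special points with exactly one coordinate `0`: at most `3` on each line
  (`line_bad3`); points with two coordinates `0` are proportional to one of the three unit
  vectors: at most 3. Total `9 + 3 = 12`.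
-/

namespace Pool.Agent.P28

open Module MvPolynomial

private lemma atMost_equiv {n : ℕ} (L : (Fin 3 → ℂ) ≃ₗ[ℂ] (Fin 3 → ℂ)) {Z Z' : (Fin 3 → ℂ) → Prop}
    (h : AtMost n Z') (hZ : ∀ u, Z u → Z' (L u)) : AtMost n Z := by
  classical
  intro S hS hv
  have h1 := h (S.image L) ⟨?_, ?_⟩ ?_
  · rwa [Finset.card_image_of_injective _ L.injective] at h1
  · intro v hv'
    obtain ⟨w, hw, rfl⟩ := Finset.mem_image.1 hv'
    exact fun h0 => hS.1 w hw (L.map_eq_zero_iff.1 h0)
  · intro v hv' w hw' hvw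
    obtain ⟨v, hv1, rfl⟩ := Finset.mem_image.1 hv'
    obtain ⟨w, hw1, rfl⟩ := Finset.mem_image.1 hw'
    have h2 := hS.2 v hv1 w hw1 fun h => hvw (by rw [h])
    have h3 := h2.map' L.toLinearMap (LinearMap.ker_eq_bot.2 L.injective)
    have h4 : (L.toLinearMap : (Fin 3 → ℂ) → (Fin 3 → ℂ)) ∘ ![v, w] = ![L v, L w] := by
      funext i
      fin_cases i <;> rfl
    rwa [h4] at h3
  · intro v hv'
    obtain ⟨w, hw, rfl⟩ := Finset.mem_image.1 hv'
    exact hZ w (hv w hw)

/-- The permutation of the coordinates. -/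
private noncomputable def pe (g : Equiv.Perm (Fin 3)) : (Fin 3 → ℂ) ≃ₗ[ℂ] (Fin 3 → ℂ) :=
  LinearEquiv.funCongrLeft ℂ ℂ g

private lemma pe_apply (g : Equiv.Perm (Fin 3)) (u : Fin 3 → ℂ) (i : Fin 3) :
    pe g u i = u (g i) := rfl

private lemma pe_single (g : Equiv.Perm (Fin 3)) (i : Fin 3) :
    pe g (Pi.single i 1) = Pi.single (g.symm i) 1 := by
  funext k
  rw [pe_apply]
  by_cases h : g k = i
  · rw [← h, Pi.single_eq_same, g.symm_apply_apply, Pi.single_eq_same]
  · rw [Pi.single_eq_of_ne h, Pi.single_eq_of_ne]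
    intro h'
    exact h (by rw [h', g.apply_symm_apply])

private lemma nf_zero_am {C : Cub VV} (hN : NF 0 C) (u : Fin 3 → ℂ) (i j : Fin 3) :
    am C u i j = if i = j then u i else 0 := by
  rw [hN u]
  fin_cases i <;> fin_cases j <;> simp

private lemma nf_pe {C : Cub VV} (hC : Std C) (hN : NF 0 C) (g : Equiv.Perm (Fin 3)) :
    NF 0 (C.tr (pe g) (pe g) 0) := by
  intro u
  have h1 : ∀ i j, am (C.tr (pe g) (pe g) 0) u i j = if i = j then u i else 0 := by
    intro i j
    rw [tr_am hC]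
    simp only [nf_zero_am hN, pe_single]
    rw [Finset.sum_eq_single (g.symm i)]
    · rw [Finset.sum_eq_single (g.symm j)]
      · rw [Pi.single_eq_same, Pi.single_eq_same, one_mul, one_mul, pe_apply,
          g.apply_symm_apply]
        by_cases h : i = j
        · rw [if_pos h, if_pos (by rw [h])]
        · rw [if_neg h, if_neg fun h' => h (g.symm.injective h')]
      · intro l _ hl
        rw [Pi.single_eq_of_ne hl, mul_zero, zero_mul]
      · exact fun h => (h (Finset.mem_univ _)).elim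
    · intro k _ hk
      refine Finset.sum_eq_zero fun l _ => ?_
      rw [Pi.single_eq_of_ne hk, zero_mul, zero_mul]
    · exact fun h => (h (Finset.mem_univ _)).elim
  ext i j
  rw [h1]
  fin_cases i <;> fin_cases j <;> simp

private lemma bm_pe (C : Cub VV) (g : Equiv.Perm (Fin 3)) (u : Fin 3 → ℂ) (i : Fin 3) :
    bm (C.tr (pe g) (pe g) 0) u i = bm C (pe g u) (g.symm i) := by
  rw [bm, bm, tr_T]
  have h1 : trG (pe g) (pe g) 0 (E i) = E (g.symm i) := by
    rw [trG_apply, E, E]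
    refine Prod.ext ?_ ?_
    · change pe g (Pi.single i 1) + (0 : (Fin 3 → ℂ) →ₗ[ℂ] (Fin 3 → ℂ)) 0 = _
      rw [map_zero, add_zero, pe_single]
    · exact map_zero _
  have h2 : trG (pe g) (pe g) 0 (0, u) = (0, pe g u) := by
    rw [trG_apply]
    refine Prod.ext ?_ rfl
    change pe g 0 + (0 : (Fin 3 → ℂ) →ₗ[ℂ] (Fin 3 → ℂ)) u = _
    rw [map_zero, LinearMap.zero_apply, add_zero]
  rw [h1, h2]

private lemma good_line {C : Cub VV} (hs : C.Smooth) (hC : Std C) (hN : NF 0 C) (i : Fin 3)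
    (hb : ∃ u : Fin 3 → ℂ, u i = 0 ∧ bm C u i ≠ 0) :
    AtMost 2 (fun u => Spec C u ∧ u i = 0) := by
  obtain ⟨w, hw, hb⟩ := hb
  have hgg : pe (Equiv.swap i 2) (pe (Equiv.swap i 2) w) = w := by
    funext k
    rw [pe_apply, pe_apply, Equiv.swap_apply_self]
  have h1 := line_good (tr_smooth hs (pe (Equiv.swap i 2)) (pe (Equiv.swap i 2)) 0)
    (tr_std hC _ _ 0) (nf_pe hC hN (Equiv.swap i 2)) ⟨pe (Equiv.swap i 2) w, ?_, ?_⟩
  · refine atMost_equiv (pe (Equiv.swap i 2)) h1 fun u hu => ⟨?_, ?_⟩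
    · rw [tr_spec]
      have hgu : pe (Equiv.swap i 2) (pe (Equiv.swap i 2) u) = u := by
        funext k
        rw [pe_apply, pe_apply, Equiv.swap_apply_self]
      rw [hgu]
      exact hu.1
    · rw [pe_apply, Equiv.swap_apply_right]
      exact hu.2
  · rw [pe_apply, Equiv.swap_apply_right]
    exact hw
  · rw [bm_pe, hgg, Equiv.symm_swap, Equiv.swap_apply_right]
    exact hb

private lemma bad_pe {C : Cub VV} (g : Equiv.Perm (Fin 3)) (k : Fin 3)
    (hb : ∀ u : Fin 3 → ℂ, u (g.symm k) = 0 → bm C u (g.symm k) = 0) (u : Fin 3 → ℂ)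
    (hu : u k = 0) : bm (C.tr (pe g) (pe g) 0) u k = 0 := by
  rw [bm_pe]
  refine hb _ ?_
  rw [pe_apply, g.apply_symm_apply]
  exact hu

private lemma bad_line {C : Cub VV} (hs : C.Smooth) (hC : Std C) (hN : NF 0 C) (i : Fin 3)
    (hb : ∀ u : Fin 3 → ℂ, u i = 0 → bm C u i = 0) :
    AtMost 5 (fun u => Spec C u ∧ u i = 0) := by
  have h1 := line_bad (tr_smooth hs (pe (Equiv.swap i 2)) (pe (Equiv.swap i 2)) 0)
    (tr_std hC _ _ 0) (nf_pe hC hN (Equiv.swap i 2))
    (bad_pe (Equiv.swap i 2) 2 (by rw [Equiv.symm_swap, Equiv.swap_apply_right]; exact hb))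
  refine atMost_equiv (pe (Equiv.swap i 2)) h1 fun u hu => ⟨?_, ?_⟩
  · rw [tr_spec]
    have hgu : pe (Equiv.swap i 2) (pe (Equiv.swap i 2) u) = u := by
      funext k
      rw [pe_apply, pe_apply, Equiv.swap_apply_self]
    rw [hgu]
    exact hu.1
  · rw [pe_apply, Equiv.swap_apply_right]
    exact hu.2

private lemma bad_line3 {C : Cub VV} (hs : C.Smooth) (hC : Std C) (hN : NF 0 C) (i : Fin 3)
    (hb : ∀ k, ∀ u : Fin 3 → ℂ, u k = 0 → bm C u k = 0) :
    AtMost 3 (fun u => Spec C u ∧ u i = 0 ∧ ∀ j, j ≠ i → u j ≠ 0) := by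
  have h1 := line_bad3 (tr_smooth hs (pe (Equiv.swap i 2)) (pe (Equiv.swap i 2)) 0)
    (tr_std hC _ _ 0) (nf_pe hC hN (Equiv.swap i 2))
    (bad_pe (Equiv.swap i 2) 2 (hb _)) (bad_pe (Equiv.swap i 2) 1 (hb _))
    (bad_pe (Equiv.swap i 2) 0 (hb _))
  have hj : ∀ j : Fin 3, j ≠ 2 → Equiv.swap i 2 j ≠ i := by
    intro j hj h
    exact hj ((Equiv.swap i 2).injective (by rw [h, Equiv.swap_apply_right]))
  refine atMost_equiv (pe (Equiv.swap i 2)) h1 fun u hu => ⟨?_, ?_, ?_, ?_⟩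
  · rw [tr_spec]
    have hgu : pe (Equiv.swap i 2) (pe (Equiv.swap i 2) u) = u := by
      funext k
      rw [pe_apply, pe_apply, Equiv.swap_apply_self]
    rw [hgu]
    exact hu.1
  · rw [pe_apply, Equiv.swap_apply_right]
    exact hu.2.1
  · rw [pe_apply]
    exact hu.2.2 _ (hj 0 (by decide))
  · rw [pe_apply]
    exact hu.2.2 _ (hj 1 (by decide))

private lemma unit_line (i : Fin 3) : AtMost 1 (fun u : Fin 3 → ℂ => ∀ j, j ≠ i → u j = 0) := by
  intro S hS hv
  rw [Finset.card_le_one]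
  intro a ha b hb
  by_contra hab
  have h1 := LinearIndependent.pair_iff.1 (hS.2 a ha b hb hab) (b i) (-a i) (by
    funext j
    by_cases h : j = i
    · rw [h]
      simp only [Pi.add_apply, Pi.smul_apply, smul_eq_mul, Pi.zero_apply]
      ring
    · simp only [Pi.add_apply, Pi.smul_apply, smul_eq_mul, Pi.zero_apply, hv a ha j h, hv b hb j h,
        mul_zero, add_zero])
  refine hS.1 b hb (funext fun j => ?_)
  by_cases h : j = i
  · rw [h]
    exact h1.1
  · exact hv b hb j h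

private lemma spec_coord {C : Cub VV} (hs : C.Smooth) (hC : Std C) (hN : NF 0 C)
    {u : Fin 3 → ℂ} (hu : u ≠ 0) (h : Spec C u) : ∃ i, u i = 0 := by
  have h1 := spec_det C hs hC hu h
  have h2 : eval u (D3 C) = u 0 * u 1 * u 2 := by
    rw [D3, RingHom.map_det]
    have h3 : (eval u).mapMatrix (pa C) = !![u 0, 0, 0; 0, u 1, 0; 0, 0, u 2] := by
      ext i j
      rw [RingHom.mapMatrix_apply, Matrix.map_apply, eval_pa, hN u, zero_mul]
    rw [h3, Matrix.det_fin_three]
    simp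
  rw [h2] at h1
  rcases mul_eq_zero.1 h1 with h3 | h3
  · rcases mul_eq_zero.1 h3 with h4 | h4
    · exact ⟨0, h4⟩
    · exact ⟨1, h4⟩
  · exact ⟨2, h3⟩

theorem nf_zero {C : Cub VV} (hs : C.Smooth) (hC : Std C) (hN : NF 0 C) :
    AtMost 13 (Spec C) := by
  by_cases hg : ∃ i, ∃ u : Fin 3 → ℂ, u i = 0 ∧ bm C u i ≠ 0
  · obtain ⟨i, hi⟩ := hg
    have h5 : ∀ j, AtMost 5 (fun u => Spec C u ∧ u j = 0) := by
      intro j
      by_cases hj : ∃ u : Fin 3 → ℂ, u j = 0 ∧ bm C u j ≠ 0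
      · exact (good_line hs hC hN j hj).mono (by norm_num) fun _ _ h => h
      · refine bad_line hs hC hN j fun u hu => ?_
        by_contra h
        exact hj ⟨u, hu, h⟩
    have h2 := good_line hs hC hN i hi
    obtain ⟨j, k, hjk⟩ : ∃ j k : Fin 3, ∀ l : Fin 3, l = i ∨ l = j ∨ l = k := by
      have : ∀ i : Fin 3, ∃ j k : Fin 3, ∀ l : Fin 3, l = i ∨ l = j ∨ l = k := by decide
      exact this i
    refine ((h2.union (h5 j)).union (h5 k)).mono (by norm_num) fun u hu h => ?_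
    obtain ⟨l, hl⟩ := spec_coord hs hC hN hu h
    rcases hjk l with rfl | rfl | rfl
    · exact Or.inl (Or.inl ⟨h, hl⟩)
    · exact Or.inl (Or.inr ⟨h, hl⟩)
    · exact Or.inr ⟨h, hl⟩
  · have hb : ∀ k, ∀ u : Fin 3 → ℂ, u k = 0 → bm C u k = 0 := by
      intro k u hu
      by_contra h
      exact hg ⟨k, u, hu, h⟩
    have h4 : ∀ i, AtMost (3 + 1) (fun u => (Spec C u ∧ u i = 0 ∧ ∀ j, j ≠ i → u j ≠ 0) ∨
        ∀ j, j ≠ i → u j = 0) := fun i => (bad_line3 hs hC hN i hb).union (unit_line i)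
    refine (((h4 0).union (h4 1)).union (h4 2)).mono (by norm_num) fun u hu h => ?_
    obtain ⟨i, hi⟩ := spec_coord hs hC hN hu h
    have key : ∃ l : Fin 3, (Spec C u ∧ u l = 0 ∧ ∀ j, j ≠ l → u j ≠ 0) ∨
        ∀ j, j ≠ l → u j = 0 := by
      by_cases hj : ∃ j, j ≠ i ∧ u j = 0
      · obtain ⟨j, hji, hj⟩ := hj
        obtain ⟨k, hk⟩ : ∃ k : Fin 3, ∀ l, l ≠ k → l = i ∨ l = j := by
          have : ∀ i j : Fin 3, j ≠ i → ∃ k : Fin 3, ∀ l, l ≠ k → l = i ∨ l = j := by decide
          exact this i j hji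
        refine ⟨k, Or.inr fun l hl => ?_⟩
        rcases hk l hl with rfl | rfl
        · exact hi
        · exact hj
      · exact ⟨i, Or.inl ⟨h, hi, fun j hji h0 => hj ⟨j, hji, h0⟩⟩⟩
    obtain ⟨l, hl⟩ := key
    have h012 : l = 0 ∨ l = 1 ∨ l = 2 := by
      have : ∀ l : Fin 3, l = 0 ∨ l = 1 ∨ l = 2 := by decide
      exact this l
    rcases h012 with rfl | rfl | rfl
    · exact Or.inl (Or.inl hl)
    · exact Or.inl (Or.inr hl)
    · exact Or.inr hl

end Pool.Agent.P28
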