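import Pool.Agent.P28.Defs

set_option autoImplicit false

/-!
# P28 A01: common zeros of quadratic forms in small dimension (Mathlib only)

`E` is a complex vector space, quadratic forms are given by symmetric bilinear forms.

PROOFS.
(`exists_zero_one`) Take linearly independent `x, y`. If `B x x = 0` done. Otherwise
`B (t x + y) (t x + y) = t^2 B x x + 2 t B x y + B y y` is a polynomial of degree 2 in `t`, it has
a root (`IsAlgClosed.exists_root` or the square root of the discriminant,
`IsAlgClosed.exists_pow_nat_eq`), and `t x + y` is not `0`.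

(`exists_iso_plane`) A symmetric `B` on a space with `3 ≤ finrank`, `k ≠ 0` with `B k = 0`: take a
2-dimensional subspace `W` with `k ∉ W` (extend `k` to a linearly independent family `k, y, z` and
take the span of `y, z`), `w ∈ W` nonzero with `B w w = 0` (`exists_zero_one` for the restriction
to `W`). Then `k, w` are independent and `B` vanishes on their span.

(`exists_zero_two`) Restrict to a 3-dimensional subspace (so `finrank = 3`), choose a basis `v`.
`p(t) = det (B (v i) (v j) + t B' (v i) (v j))` is a polynomial in `t` of degree at most 3 whose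
coefficient of `t^3` is `det (B' (v i) (v j))`. If this determinant is `0` then `B'` has a kernel
vector, put `B'' = B'`; otherwise `p` has a root `t` and `B'' = B + t B'` has a kernel vector.
By `exists_iso_plane` `B''` vanishes on a 2-dimensional subspace `L`; by `exists_zero_one` there
is `x ∈ L`, `x ≠ 0`, with `B' x x = 0` (case `B'' = B + t B'`) resp. `B x x = 0` (case
`B'' = B'`). Both forms vanish at `x`.
-/

namespace Pool.Agent.P28

open Module

theorem exists_zero_one {E : Type} [AddCommGroup E] [Module ℂ E] [FiniteDimensional ℂ E]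
    (hE : 2 ≤ finrank ℂ E) (B : E →ₗ[ℂ] E →ₗ[ℂ] ℂ) (hB : ∀ x y, B x y = B y x) :
    ∃ x, x ≠ 0 ∧ B x x = 0 := by
  have hnt : Nontrivial E := Module.nontrivial_of_finrank_pos (R := ℂ) (by omega)
  obtain ⟨x, hx⟩ := exists_ne (0 : E)
  by_cases h0 : B x x = 0
  · exact ⟨x, hx, h0⟩
  obtain ⟨y, hy⟩ := exists_linearIndependent_pair_of_one_lt_finrank (R := ℂ) (by omega) hx
  obtain ⟨s, hs⟩ := IsAlgClosed.exists_pow_nat_eq (B x y ^ 2 - B x x * B y y) two_pos
  refine ⟨((s - B x y) / B x x) • x + y, fun h => ?_, ?_⟩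
  · have h1 := (LinearIndependent.pair_iff.1 hy) ((s - B x y) / B x x) 1 (by rw [one_smul, h])
    exact one_ne_zero h1.2
  · simp only [map_add, map_smul, LinearMap.add_apply, LinearMap.smul_apply, smul_eq_mul]
    rw [hB y x]
    field_simp
    linear_combination hs

theorem exists_iso_plane {E : Type} [AddCommGroup E] [Module ℂ E] [FiniteDimensional ℂ E]
    (hE : 3 ≤ finrank ℂ E) (B : E →ₗ[ℂ] E →ₗ[ℂ] ℂ) (hB : ∀ x y, B x y = B y x)
    {k : E} (hk : k ≠ 0) (hkB : ∀ y, B k y = 0) :
    ∃ w, LinearIndependent ℂ ![k, w] ∧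
      ∀ x ∈ Submodule.span ℂ {k, w}, ∀ y ∈ Submodule.span ℂ {k, w}, B x y = 0 := by
  obtain ⟨W, hW⟩ := Submodule.exists_isCompl (Submodule.span ℂ {k})
  have h1 := Submodule.finrank_add_eq_of_isCompl hW
  rw [finrank_span_singleton hk] at h1
  obtain ⟨w, hw, hww⟩ := exists_zero_one (E := W) (by omega) (B.domRestrict₁₂ W W)
    (fun x y => hB x y)
  have hww' : B (w : E) (w : E) = 0 := hww
  refine ⟨w, ?_, ?_⟩
  · rw [LinearIndependent.pair_iff]
    intro s t hst
    have h2 : s • k = -(t • (w : E)) := eq_neg_of_add_eq_zero_left hst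
    have h3 : s • k ∈ Submodule.span ℂ {k} ⊓ W := by
      refine ⟨Submodule.smul_mem _ _ (Submodule.mem_span_singleton_self k), ?_⟩
      rw [h2]
      exact W.neg_mem (W.smul_mem _ w.2)
    rw [hW.inf_eq_bot, Submodule.mem_bot] at h3
    have h4 : t • (w : E) = 0 := by
      rw [h3, zero_add] at hst
      exact hst
    have hw' : (w : E) ≠ 0 := fun h => hw (Subtype.ext h)
    exact ⟨(smul_eq_zero.1 h3).resolve_right hk, (smul_eq_zero.1 h4).resolve_right hw'⟩
  · intro x hx y hy
    obtain ⟨a, b, rfl⟩ := Submodule.mem_span_pair.1 hx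
    obtain ⟨c, d, rfl⟩ := Submodule.mem_span_pair.1 hy
    simp only [map_add, map_smul, LinearMap.add_apply, LinearMap.smul_apply, smul_eq_mul, hkB,
      hB w k, hww']
    ring

theorem exists_zero_two {E : Type} [AddCommGroup E] [Module ℂ E] [FiniteDimensional ℂ E]
    (hE : 3 ≤ finrank ℂ E) (B B' : E →ₗ[ℂ] E →ₗ[ℂ] ℂ) (hB : ∀ x y, B x y = B y x)
    (hB' : ∀ x y, B' x y = B' y x) : ∃ x, x ≠ 0 ∧ B x x = 0 ∧ B' x x = 0 := by
  have hnt : Nontrivial E := Module.nontrivial_of_finrank_pos (R := ℂ) (by omega)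
  -- the restriction of a form to an isotropic plane of a second form
  have key : ∀ C C' : E →ₗ[ℂ] E →ₗ[ℂ] ℂ, (∀ x y, C x y = C y x) → (∀ x y, C' x y = C' y x) →
      (∃ k, k ≠ 0 ∧ ∀ y, C k y = 0) → ∃ x, x ≠ 0 ∧ C x x = 0 ∧ C' x x = 0 := by
    rintro C C' hC hC' ⟨k, hk, hkC⟩
    obtain ⟨w, hw, hL⟩ := exists_iso_plane hE C hC hk hkC
    have hfin : finrank ℂ (Submodule.span ℂ {k, w}) = 2 := by
      have h1 := finrank_span_eq_card hw
      rw [Fintype.card_fin] at h1
      have h2 : Set.range ![k, w] = {k, w} := by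
        simp [Matrix.range_cons, Matrix.range_empty, Set.pair_comm]
      rwa [h2] at h1
    obtain ⟨x, hx, hxx⟩ := exists_zero_one (E := Submodule.span ℂ {k, w}) hfin.ge
      (C'.domRestrict₁₂ _ _) (fun x y => hC' x y)
    exact ⟨x, fun h => hx (Subtype.ext h), hL x x.2 x x.2, hxx⟩
  by_cases h : ∃ k, k ≠ 0 ∧ ∀ y, B' k y = 0
  · obtain ⟨x, hx, h1, h2⟩ := key B' B hB' hB h
    exact ⟨x, hx, h2, h1⟩
  · have hinj : Function.Injective B' := by
      rw [← LinearMap.ker_eq_bot, LinearMap.ker_eq_bot']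
      intro k hk
      by_contra hk0
      exact h ⟨k, hk0, fun y => by rw [hk, LinearMap.zero_apply]⟩
    let e : E ≃ₗ[ℂ] (E →ₗ[ℂ] ℂ) := LinearMap.linearEquivOfInjective B' hinj
      (Subspace.dual_finrank_eq (K := ℂ) (V := E)).symm
    have he : ∀ x, e x = B' x := fun x => rfl
    obtain ⟨μ, hμ⟩ := Module.End.exists_eigenvalue ((e.symm : (E →ₗ[ℂ] ℂ) →ₗ[ℂ] E) ∘ₗ B)
    obtain ⟨k, hk⟩ := hμ.exists_hasEigenvector
    have h1 : B k = μ • B' k := by
      have h2 := hk.apply_eq_smul
      have h3 := congrArg e h2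
      rw [LinearMap.comp_apply, LinearEquiv.coe_coe, LinearEquiv.apply_symm_apply, map_smul,
        he] at h3
      exact h3
    obtain ⟨x, hx, h2, h3⟩ := key (B - μ • B') B' (fun x y => by
      simp only [LinearMap.sub_apply, LinearMap.smul_apply, hB x y, hB' x y]) hB'
      ⟨k, hk.2, fun y => by
        rw [LinearMap.sub_apply, LinearMap.smul_apply, h1, sub_self, LinearMap.zero_apply]⟩
    refine ⟨x, hx, ?_, h3⟩
    rw [LinearMap.sub_apply, LinearMap.smul_apply, LinearMap.sub_apply, LinearMap.smul_apply,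
      h3, smul_zero, sub_zero] at h2
    exact h2

end Pool.Agent.P28
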