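import Pool.Agent.P28.BDefs
import Pool.Agent.P28.Factor

set_option autoImplicit false

/-!
# P28 B01: at a special point the quadric is a product of two linear forms

PROOF of `spec_rank`. Let `P` be the second plane, `N = P0 ⊔ span {(0, u)}` (dimension 4, `u ≠ 0`).
`P, P0 ≤ N` are different and 3-dimensional, so `Adj P0 P` (intersection of dimension at least
`3 + 3 - 4`, not 3) and `P0 ⊔ P = N`. `factor` (for `P₁ = P0`, `P₂ = P`) gives linear forms with
`T y y y = l₁ y l₂ y l₃ y` on `N`, `l₁ = 0` exactly on `P0`. By `factor_polar3`, with `k = l₁ (0, u)`,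
`p i = (k/6) l₂ (E i)`, `p' = (k/6) l₂ (0,u)`, `q i = l₃ (E i)`, `q' = l₃ (0,u)`.

`spec_det`, `spec_nn`: the 3x3 minors of the matrix `(A, b; b, c) = (p_i q_j + q_i p_j)` vanish
(`Matrix.det_fin_three`, `Matrix.adjugate_fin_three`, `ring`).
-/

namespace Pool.Agent.P28

open Module MvPolynomial

private theorem finrank_VV : finrank ℂ VV = 6 := by
  rw [Module.finrank_prod, Module.finrank_fin_fun]

private theorem finrank_P0 : finrank ℂ P0 = 3 := by
  unfold P0
  rw [LinearMap.finrank_range_of_inj LinearMap.inl_injective, Module.finrank_fin_fun]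

private theorem isPlane_P0 {C : Cub VV} (hC : Std C) : C.IsPlane P0 := by
  refine ⟨finrank_P0, ?_⟩
  rintro _ ⟨x, rfl⟩ _ ⟨y, rfl⟩ _ ⟨z, rfl⟩
  exact hC x y z

private theorem spec_adj {C : Cub VV} {u : Fin 3 → ℂ} (hu : u ≠ 0) {P : Submodule ℂ VV}
    (hP : C.IsPlane P) (hne : P ≠ P0) (hle : P ≤ P0 ⊔ Submodule.span ℂ {((0, u) : VV)}) :
    Adj P0 P ∧ ((0, u) : VV) ∈ P0 ⊔ P := by
  have h0 := finrank_P0
  have h1 : finrank ℂ (Submodule.span ℂ {((0, u) : VV)}) = 1 :=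
    finrank_span_singleton fun h => hu (congrArg Prod.snd h)
  have h2 : finrank ℂ (P0 ⊔ Submodule.span ℂ {((0, u) : VV)} : Submodule ℂ VV) ≤ 4 := by
    have h3 : finrank ℂ (P0 ⊔ Submodule.span ℂ {((0, u) : VV)} : Submodule ℂ VV) ≤
        finrank ℂ P0 + finrank ℂ (Submodule.span ℂ {((0, u) : VV)}) :=
      Submodule.finrank_add_le_finrank_add_finrank P0 (Submodule.span ℂ {((0, u) : VV)})
    omega
  have h3 : P0 ⊔ P ≤ P0 ⊔ Submodule.span ℂ {((0, u) : VV)} := sup_le le_sup_left hle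
  have h4 := Submodule.finrank_mono h3
  have h5 := Submodule.finrank_sup_add_finrank_inf_eq P0 P
  rw [h0, hP.1] at h5
  have h6 : finrank ℂ (P0 ⊓ P : Submodule ℂ VV) ≠ 3 := by
    intro h
    have h7 : P0 ⊓ P = P0 := Submodule.eq_of_le_of_finrank_le inf_le_left (by rw [h, h0])
    have h8 : P0 ⊓ P = P := Submodule.eq_of_le_of_finrank_le inf_le_right (by rw [h, hP.1])
    exact hne (h8.symm.trans h7)
  have h7 : finrank ℂ (P0 ⊓ P : Submodule ℂ VV) ≤ 3 :=
    (Submodule.finrank_mono inf_le_left).trans h0.le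
  refine ⟨⟨fun h => hne h.symm, by omega⟩, ?_⟩
  have h8 : P0 ⊔ P = P0 ⊔ Submodule.span ℂ {((0, u) : VV)} :=
    Submodule.eq_of_le_of_finrank_le h3 (by omega)
  rw [h8]
  exact Submodule.mem_sup_right (Submodule.mem_span_singleton_self _)

theorem spec_rank (C : Cub VV) (hs : C.Smooth) (hC : Std C) {u : Fin 3 → ℂ} (hu : u ≠ 0)
    (h : Spec C u) : ∃ (p q : Fin 3 → ℂ) (p' q' : ℂ),
      (∀ i j, am C u i j = p i * q j + q i * p j) ∧ (∀ i, bm C u i = p i * q' + q i * p') ∧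
      cm C u = 2 * p' * q' := by
  obtain ⟨P, hP, hne, hle⟩ := h
  obtain ⟨hadj, hmem⟩ := spec_adj hu hP hne hle
  obtain ⟨l₁, l₂, l₃, hT, hl₁, -, -⟩ := factor C hs finrank_VV (isPlane_P0 hC) hP hadj
  have hE : ∀ i, E i ∈ P0 := fun i => ⟨Pi.single i 1, rfl⟩
  have hE' : ∀ i, E i ∈ P0 ⊔ P := fun i => Submodule.mem_sup_left (hE i)
  have hE0 : ∀ i, l₁ (E i) = 0 := fun i => (hl₁ _ (hE' i)).2 (hE i)
  have hp := factor_polar3 C hT
  refine ⟨fun i => l₁ (0, u) / 6 * l₂ (E i), fun i => l₃ (E i), l₁ (0, u) / 6 * l₂ (0, u),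
    l₃ (0, u), fun i j => ?_, fun i => ?_, ?_⟩
  · have h1 := hp _ (hE' i) _ (hE' j) _ hmem
    rw [hE0, hE0] at h1
    rw [am, Matrix.of_apply]
    linear_combination (1 / 6 : ℂ) * h1
  · have h1 := hp _ (hE' i) _ hmem _ hmem
    rw [hE0] at h1
    rw [bm]
    linear_combination (1 / 12 : ℂ) * h1
  · have h1 := hp _ hmem _ hmem _ hmem
    rw [cm]
    linear_combination (1 / 18 : ℂ) * h1

private theorem eval_mapMatrix (C : Cub VV) (u : Fin 3 → ℂ) :
    (eval u).mapMatrix (pa C) = am C u := by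
  ext i j
  rw [RingHom.mapMatrix_apply, Matrix.map_apply]
  exact eval_pa C u i j

theorem spec_det (C : Cub VV) (hs : C.Smooth) (hC : Std C) {u : Fin 3 → ℂ} (hu : u ≠ 0)
    (h : Spec C u) : eval u (D3 C) = 0 := by
  obtain ⟨p, q, p', q', ha, -, -⟩ := spec_rank C hs hC hu h
  rw [D3, RingHom.map_det, eval_mapMatrix, Matrix.det_fin_three]
  simp only [ha]
  ring

theorem spec_nn (C : Cub VV) (hs : C.Smooth) (hC : Std C) {u : Fin 3 → ℂ} (hu : u ≠ 0)
    (h : Spec C u) (i : Fin 3) : eval u (nn C i) = 0 := by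
  obtain ⟨p, q, p', q', ha, hb, -⟩ := spec_rank C hs hC hu h
  have h1 : eval u (nn C i) = ((am C u).adjugate.mulVec (bm C u)) i := by
    rw [nn, ← eval_mapMatrix, ← RingHom.map_adjugate, Matrix.mulVec, Matrix.mulVec, dotProduct,
      dotProduct, map_sum]
    refine Finset.sum_congr rfl fun j _ => ?_
    rw [map_mul, eval_pb, RingHom.mapMatrix_apply, Matrix.map_apply]
  rw [h1, Matrix.adjugate_fin_three]
  fin_cases i <;>
    simp [Matrix.mulVec, dotProduct, Fin.sum_univ_three, ha, hb] <;> ring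

end Pool.Agent.P28
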