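import Pool.Agent.P28.NFZero
import Pool.Agent.P28.NFOne
import Pool.Agent.P28.CaseThree

set_option autoImplicit false

/-!
# P28 B17: at most 13 special points (assembly)

PROOF of `spec_bound`. If there are two independent `w, w'` with `R1`: `normal_form` gives
`C' = C.tr a h 0` with `NF 0` or `NF 1`, smooth and in standard position (`tr_smooth`, `tr_std`):
`nf_zero`, `nf_one`, `tr_atMost`. Otherwise `D3_irr`; if some `nn C i` is not divisible by `D3 C`:
`case_a` (12 ≤ 13). If all are: `case_b`; for `C' = C.tr refl refl m`: `am C' = am C`, so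
`R1 C' ↔ R1 C`, `D3 C' = D3 C` (`MvPolynomial.funext`, `eval_D3`), `case_c` (10 ≤ 13) and
`tr_atMost`.
-/

namespace Pool.Agent.P28

open Module MvPolynomial

theorem spec_bound {C : Cub VV} (hs : C.Smooth) (hC : Std C) : AtMost 13 (Spec C) := by
  by_cases hw : ∃ w w' : Fin 3 → ℂ, LinearIndependent ℂ ![w, w'] ∧ R1 C w ∧ R1 C w'
  · obtain ⟨a, h, ka, hka, hN⟩ := normal_form C hs hC hw
    refine tr_atMost C a h 0 ?_
    rcases hka with rfl | rfl
    · exact (nf_zero (tr_smooth hs a h 0) (tr_std hC a h 0) hN).mono (by norm_num)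
        fun v _ h => h
    · exact nf_one (tr_smooth hs a h 0) (tr_std hC a h 0) hN
  · have hirr := D3_irr hs hC hw
    by_cases hn : ∀ i, D3 C ∣ nn C i
    · obtain ⟨m, hm1, hm2⟩ := case_b hs hC hirr hn
      have hD : D3 (C.tr (LinearEquiv.refl ℂ _) (LinearEquiv.refl ℂ _) m) = D3 C :=
        MvPolynomial.funext fun u => by rw [eval_D3, eval_D3, hm2]
      have hR : ∀ w, R1 (C.tr (LinearEquiv.refl ℂ _) (LinearEquiv.refl ℂ _) m) w → R1 C w := by
        rintro w ⟨h0, l, hl⟩
        refine ⟨h0, l, fun i j => ?_⟩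
        rw [← hl i j, hm2]
      refine tr_atMost C (LinearEquiv.refl ℂ _) (LinearEquiv.refl ℂ _) m ?_
      refine (case_c (tr_smooth hs _ _ m) (tr_std hC _ _ m) hm1 (by rw [hD]; exact hirr)
        ?_).mono (by norm_num) fun v _ h => h
      rintro ⟨w, w', h1, h2, h3⟩
      exact hw ⟨w, w', h1, hR w h2, hR w' h3⟩
    · push Not at hn
      obtain ⟨i, hi⟩ := hn
      exact (case_a hs hC hirr hi).mono (by norm_num) fun v _ h => h

end Pool.Agent.P28
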